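import Mathlib

/-! Pigeonhole and the Delta-system lemma for uncountable families of finite sets. -/

namespace Pool.Agent.Helper539.Auer

open Set

theorem pigeonhole {α β : Type*} {S : Set α} (hS : ¬ S.Countable) (f : α → β) {C : Set β}
    (hC : C.Countable) (hf : ∀ a ∈ S, f a ∈ C) : ∃ c ∈ C, ¬ {a | a ∈ S ∧ f a = c}.Countable := by
  by_contra hcon
  push Not at hcon
  apply hS
  have : S = ⋃ c ∈ C, {a | a ∈ S ∧ f a = c} := by
    ext a
    simp only [mem_iUnion, exists_prop]
    constructor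
    · intro ha
      exact ⟨f a, hf a ha, ha, rfl⟩
    · rintro ⟨c, _, h, _⟩
      exact h
  rw [this]
  exact hC.biUnion hcon

variable {W : Type*} [DecidableEq W]

theorem exists_maximal_disjoint (F : Set (Finset W)) :
    ∃ M ⊆ F, (∀ A ∈ M, ∀ B ∈ M, A ≠ B → Disjoint A B) ∧
      ∀ A ∈ F, A.Nonempty → ∃ B ∈ M, ¬ Disjoint A B := by
  let S : Set (Set (Finset W)) :=
    {M | M ⊆ F ∧ ∀ A ∈ M, ∀ B ∈ M, A ≠ B → Disjoint A B}
  obtain ⟨M, hM⟩ := zorn_subset S (by
    intro c hc hchain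
    refine ⟨⋃₀ c, ⟨?_, ?_⟩, fun s hs => subset_sUnion_of_mem hs⟩
    · intro A hA
      obtain ⟨s, hs, hAs⟩ := hA
      exact (hc hs).1 hAs
    · rintro A ⟨s, hs, hAs⟩ B ⟨t, ht, hBt⟩ hne
      rcases hchain.total hs ht with h | h
      · exact (hc ht).2 A (h hAs) B hBt hne
      · exact (hc hs).2 A hAs B (h hBt) hne)
  refine ⟨M, hM.prop.1, hM.prop.2, ?_⟩
  intro A hA hne
  by_contra hcon
  push Not at hcon
  have hins : insert A M ∈ S := by
    refine ⟨insert_subset hA hM.prop.1, ?_⟩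
    rintro B hB C hC hBC
    rcases hB with rfl | hB
    · rcases hC with rfl | hC
      · exact absurd rfl hBC
      · exact hcon C hC
    · rcases hC with rfl | hC
      · exact (hcon B hB).symm
      · exact hM.prop.2 B hB C hC hBC
  have hAM : A ∈ M := hM.le_of_ge hins (subset_insert A M) (mem_insert A M)
  have := hcon A hAM
  rw [disjoint_self] at this
  exact hne.ne_empty this

theorem delta_system_card : ∀ (n : ℕ) (F : Set (Finset W)), ¬ F.Countable →
    (∀ A ∈ F, A.card = n) → ∃ R : Finset W, ∃ F' ⊆ F, ¬ F'.Countable ∧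
      ∀ A ∈ F', ∀ B ∈ F', A ≠ B → A ∩ B = R := by
  intro n
  induction n with
  | zero =>
    intro F hF hcard
    exfalso
    apply hF
    refine (countable_singleton ∅).mono ?_
    intro A hA
    exact Finset.card_eq_zero.mp (hcard A hA)
  | succ n ih =>
    intro F hF hcard
    by_cases hcase : ∃ w, ¬ {A | A ∈ F ∧ w ∈ A}.Countable
    · obtain ⟨w, hw⟩ := hcase
      have hinj : InjOn (fun A : Finset W => A.erase w) {A | A ∈ F ∧ w ∈ A} := by
        intro A hA B hB h
        have h1 := Finset.insert_erase hA.2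
        have h2 := Finset.insert_erase hB.2
        simp only at h
        rw [← h1, ← h2, h]
      obtain ⟨R', G', hG', hG'c, hGR⟩ := ih ((fun A : Finset W => A.erase w) '' {A | A ∈ F ∧ w ∈ A})
        (fun h => hw (countable_of_injective_of_countable_image hinj h))
        (by
          rintro _ ⟨A, hA, rfl⟩
          simp only
          rw [Finset.card_erase_of_mem hA.2, hcard A hA.1]
          rfl)
      refine ⟨insert w R', {A | A ∈ F ∧ w ∈ A ∧ A.erase w ∈ G'}, fun A hA => hA.1, ?_, ?_⟩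
      · intro hc
        apply hG'c
        refine (hc.image (fun A : Finset W => A.erase w)).mono ?_
        intro B hB
        obtain ⟨A, hA, rfl⟩ := hG' hB
        exact ⟨A, ⟨hA.1, hA.2, hB⟩, rfl⟩
      · rintro A ⟨hAF, hwA, hAG⟩ B ⟨hBF, hwB, hBG⟩ hne
        have hne' : A.erase w ≠ B.erase w := by
          intro h
          exact hne (hinj ⟨hAF, hwA⟩ ⟨hBF, hwB⟩ h)
        have := hGR _ hAG _ hBG hne'
        rw [← this]
        ext x
        simp only [Finset.mem_inter, Finset.mem_insert, Finset.mem_erase]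
        by_cases hx : x = w
        · subst hx; simp [hwA, hwB]
        · simp [hx]
    · push Not at hcase
      obtain ⟨M, hMF, hMd, hMm⟩ := exists_maximal_disjoint F
      refine ⟨∅, M, hMF, ?_, ?_⟩
      · intro hMc
        apply hF
        have hU : (⋃ B ∈ M, (↑B : Set W)).Countable :=
          hMc.biUnion (fun B _ => B.countable_toSet)
        refine (hU.biUnion (fun w _ => hcase w)).mono ?_
        intro A hA
        have hne : A.Nonempty := by
          rw [← Finset.card_pos, hcard A hA]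
          omega
        obtain ⟨B, hB, hd⟩ := hMm A hA hne
        rw [Finset.not_disjoint_iff] at hd
        obtain ⟨w, hwA, hwB⟩ := hd
        simp only [mem_iUnion, exists_prop]
        exact ⟨w, ⟨B, hB, hwB⟩, hA, hwA⟩
      · intro A hA B hB hne
        exact Finset.disjoint_iff_inter_eq_empty.mp (hMd A hA B hB hne)

theorem delta_system (F : Set (Finset W)) (hF : ¬ F.Countable) :
    ∃ R : Finset W, ∃ F' ⊆ F, ¬ F'.Countable ∧ ∀ A ∈ F', ∀ B ∈ F', A ≠ B → A ∩ B = R := by
  obtain ⟨n, _, hn⟩ := pigeonhole hF (fun A => A.card) (countable_univ (α := ℕ))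
    (fun _ _ => mem_univ _)
  obtain ⟨R, F', hF', hc, hR⟩ := delta_system_card n _ hn (fun A hA => hA.2)
  exact ⟨R, F', hF'.trans (fun A hA => hA.1), hc, hR⟩

/-- A refined family: root `R`, pieces `A \ R` disjoint, of constant positive size and avoiding a
given countable set. -/
theorem delta_refined (F : Set (Finset W)) (hF : ¬ F.Countable) (D : Set W) (hD : D.Countable) :
    ∃ (R : Finset W) (n : ℕ), ∃ F' ⊆ F, 0 < n ∧ ¬ F'.Countable ∧
      (∀ A ∈ F', R ⊆ A ∧ (A \ R).card = n ∧ ∀ w ∈ A \ R, w ∉ D) ∧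
      ∀ A ∈ F', ∀ B ∈ F', A ≠ B → Disjoint (A \ R) (B \ R) := by
  obtain ⟨R, F₁, h1, h1c, hR⟩ := delta_system F hF
  have hRsub : ∀ A ∈ F₁, R ⊆ A := by
    intro A hA
    have : ∃ B ∈ F₁, A ≠ B := by
      by_contra hcon
      push Not at hcon
      apply h1c
      refine (countable_singleton A).mono ?_
      intro B hB
      exact (hcon B hB).symm
    obtain ⟨B, hB, hne⟩ := this
    rw [← hR A hA B hB hne]
    exact Finset.inter_subset_left
  have hdisj : ∀ A ∈ F₁, ∀ B ∈ F₁, A ≠ B → Disjoint (A \ R) (B \ R) := by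
    intro A hA B hB hne
    rw [Finset.disjoint_left]
    intro x hx hx'
    rw [Finset.mem_sdiff] at hx hx'
    apply hx.2
    rw [← hR A hA B hB hne]
    exact Finset.mem_inter.mpr ⟨hx.1, hx'.1⟩
  have hbad : {A | A ∈ F₁ ∧ ∃ w ∈ A \ R, w ∈ D}.Countable := by
    have hsub : {A | A ∈ F₁ ∧ ∃ w ∈ A \ R, w ∈ D} ⊆ ⋃ w ∈ D, {A | A ∈ F₁ ∧ w ∈ A \ R} := by
      rintro A ⟨hA, w, hw, hwD⟩
      simp only [mem_iUnion, exists_prop]
      exact ⟨w, hwD, hA, hw⟩
    refine (hD.biUnion (fun w _ => ?_)).mono hsub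
    apply Set.Subsingleton.countable
    rintro A ⟨hA, hwA⟩ B ⟨hB, hwB⟩
    by_contra hne
    exact (Finset.disjoint_left.mp (hdisj A hA B hB hne)) hwA hwB
  have h2c : ¬ {A | A ∈ F₁ ∧ ¬ ∃ w ∈ A \ R, w ∈ D}.Countable := by
    intro hc
    apply h1c
    refine (hc.union hbad).mono ?_
    intro A hA
    by_cases h : ∃ w ∈ A \ R, w ∈ D
    · exact Or.inr ⟨hA, h⟩
    · exact Or.inl ⟨hA, h⟩
  obtain ⟨n, _, hn⟩ := pigeonhole h2c (fun A => (A \ R).card) (countable_univ (α := ℕ))
    (fun _ _ => mem_univ _)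
  refine ⟨R, n, _, fun A hA => h1 hA.1.1, ?_, hn, ?_, ?_⟩
  · rcases Nat.eq_zero_or_pos n with h0 | h0
    · exfalso
      apply hn
      refine (R.powerset.countable_toSet).mono ?_
      rintro A ⟨_, hAc⟩
      rw [h0, Finset.card_eq_zero] at hAc
      rw [Finset.mem_coe, Finset.mem_powerset]
      exact Finset.sdiff_eq_empty_iff_subset.mp hAc
    · exact h0
  · rintro A ⟨⟨hA, hw⟩, hc⟩
    exact ⟨hRsub A hA, hc, fun w hwA hwD => hw ⟨w, hwA, hwD⟩⟩
  · rintro A ⟨⟨hA, _⟩, _⟩ B ⟨⟨hB, _⟩, _⟩ hne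
    exact hdisj A hA B hB hne

end Pool.Agent.Helper539.Auer
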