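import Mathlib

/-! Exponential generating series of bounded sequences. -/

namespace Pool.Agent.Helper539.Auer

open Set Filter Topology

/-- `Ex x t = ∑ x_m t^m / m!` -/
noncomputable def Ex (x : ℕ → ℝ) (t : ℝ) : ℝ := ∑' m, x m * (t ^ m / (m.factorial : ℝ))

/-- left shift iterated `k` times -/
def shiftBy (k : ℕ) (x : ℕ → ℝ) : ℕ → ℝ := fun m => x (m + k)

def Bdd (x : ℕ → ℝ) : Prop := ∃ M, ∀ m, |x m| ≤ M

theorem Bdd.shiftBy {x : ℕ → ℝ} (h : Bdd x) (k : ℕ) : Bdd (shiftBy k x) := by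
  obtain ⟨M, hM⟩ := h
  exact ⟨M, fun m => hM _⟩

theorem summable_Ex {x : ℕ → ℝ} {M : ℝ} (hM : ∀ m, |x m| ≤ M) (t : ℝ) :
    Summable fun m => x m * (t ^ m / (m.factorial : ℝ)) := by
  refine Summable.of_norm_bounded
    (g := fun m => M * (|t| ^ m / (m.factorial : ℝ))) ?_ ?_
  · exact (Real.summable_pow_div_factorial |t|).mul_left M
  · intro m
    rw [norm_mul, Real.norm_eq_abs, Real.norm_eq_abs, abs_div, abs_pow,
      abs_of_nonneg (by positivity : (0:ℝ) ≤ (m.factorial : ℝ))]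
    exact mul_le_mul_of_nonneg_right (hM m) (by positivity)

theorem hasDerivAt_Ex {x : ℕ → ℝ} (hx : Bdd x) (t : ℝ) :
    HasDerivAt (Ex x) (Ex (shiftBy 1 x) t) t := by
  obtain ⟨M, hM⟩ := hx
  have hM0 : 0 ≤ M := le_trans (abs_nonneg _) (hM 0)
  set R : ℝ := |t| + 1 with hR
  have hR0 : 0 ≤ R := by positivity
  let g : ℕ → ℝ → ℝ := fun m y => x m * (y ^ m / (m.factorial : ℝ))
  let g' : ℕ → ℝ → ℝ := fun m y => x m * ((m : ℝ) * y ^ (m - 1) / (m.factorial : ℝ))
  have hg : ∀ n y, y ∈ Ioo (-R) R → HasDerivAt (g n) (g' n y) y := by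
    intro n y _
    have h1 := (hasDerivAt_pow n y).div_const (n.factorial : ℝ)
    exact h1.const_mul (x n)
  have hsucc : ∀ (m : ℕ) (y : ℝ), g' (m + 1) y = x (m + 1) * (y ^ m / (m.factorial : ℝ)) := by
    intro m y
    simp only [g', Nat.add_sub_cancel, Nat.factorial_succ, Nat.cast_mul]
    have h1 : ((m + 1 : ℕ) : ℝ) ≠ 0 := by positivity
    have h2 : ((m.factorial : ℕ) : ℝ) ≠ 0 := by positivity
    field_simp
  let u : ℕ → ℝ := fun n => M * ((n : ℝ) * R ^ (n - 1) / (n.factorial : ℝ))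
  have hsu : Summable u := by
    rw [← summable_nat_add_iff 1]
    have : (fun n => u (n + 1)) = fun n => M * (R ^ n / (n.factorial : ℝ)) := by
      funext m
      simp only [u, Nat.add_sub_cancel, Nat.factorial_succ, Nat.cast_mul]
      have h1 : ((m + 1 : ℕ) : ℝ) ≠ 0 := by positivity
      have h2 : ((m.factorial : ℕ) : ℝ) ≠ 0 := by positivity
      field_simp
    rw [this]
    exact (Real.summable_pow_div_factorial R).mul_left M
  have hg' : ∀ n y, y ∈ Ioo (-R) R → ‖g' n y‖ ≤ u n := by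
    intro n y hy
    have hy' : |y| ≤ R := abs_le.mpr ⟨hy.1.le, hy.2.le⟩
    simp only [g', u]
    rw [norm_mul, Real.norm_eq_abs, Real.norm_eq_abs, abs_div, abs_mul, abs_pow,
      abs_of_nonneg (by positivity : (0:ℝ) ≤ (n.factorial : ℝ)),
      abs_of_nonneg (by positivity : (0:ℝ) ≤ (n : ℝ))]
    apply mul_le_mul (hM n) _ (by positivity) hM0
    gcongr
  have ht : t ∈ Ioo (-R) R := by
    have := neg_abs_le t
    have := le_abs_self t
    constructor <;> linarith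
  have key := hasDerivAt_tsum_of_isPreconnected hsu isOpen_Ioo isPreconnected_Ioo hg hg' ht
    (summable_Ex hM t) ht
  have hval : ∑' n, g' n t = Ex (shiftBy 1 x) t := by
    have hs : Summable (fun n => g' n t) := by
      refine Summable.of_norm_bounded hsu (fun n => hg' n t ht)
    rw [hs.tsum_eq_zero_add]
    have h0 : g' 0 t = 0 := by simp [g']
    rw [h0, zero_add]
    unfold Ex shiftBy
    exact tsum_congr (fun m => hsucc m t)
  rw [hval] at key
  exact key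

theorem Ex_zero (x : ℕ → ℝ) : Ex x 0 = x 0 := by
  unfold Ex
  rw [tsum_eq_single 0]
  · simp
  · intro m hm
    simp [hm]

theorem abs_Ex_le {x : ℕ → ℝ} {M : ℝ} (hM : ∀ m, |x m| ≤ M) {t : ℝ} (ht : |t| ≤ 1 / 2) :
    |Ex x t| ≤ 2 * M := by
  have hM0 : 0 ≤ M := le_trans (abs_nonneg _) (hM 0)
  have hs : Summable (fun m : ℕ => M * (1 / 2 : ℝ) ^ m) :=
    (summable_geometric_of_lt_one (by norm_num) (by norm_num)).mul_left M
  have hle : ∀ m, ‖x m * (t ^ m / (m.factorial : ℝ))‖ ≤ M * (1 / 2 : ℝ) ^ m := by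
    intro m
    rw [norm_mul, Real.norm_eq_abs, Real.norm_eq_abs, abs_div, abs_pow,
      abs_of_nonneg (by positivity : (0:ℝ) ≤ (m.factorial : ℝ))]
    apply mul_le_mul (hM m) _ (by positivity) hM0
    have h1 : (1:ℝ) ≤ (m.factorial : ℝ) := by exact_mod_cast Nat.one_le_iff_ne_zero.mpr m.factorial_ne_zero
    calc |t| ^ m / (m.factorial : ℝ) ≤ |t| ^ m / 1 := by gcongr
      _ = |t| ^ m := div_one _
      _ ≤ (1 / 2) ^ m := by gcongr
  have := tsum_of_norm_bounded hs.hasSum hle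
  rw [tsum_mul_left, tsum_geometric_two] at this
  rw [Real.norm_eq_abs] at this
  unfold Ex
  linarith

theorem shiftBy_shiftBy (k l : ℕ) (x : ℕ → ℝ) : shiftBy k (shiftBy l x) = shiftBy (k + l) x := by
  funext m
  simp only [shiftBy, add_assoc]

theorem hasDerivAt_Ex_shift {x : ℕ → ℝ} (hx : Bdd x) (k : ℕ) (t : ℝ) :
    HasDerivAt (Ex (shiftBy k x)) (Ex (shiftBy (k + 1) x) t) t := by
  have := hasDerivAt_Ex (hx.shiftBy k) t
  rw [shiftBy_shiftBy, add_comm] at this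
  exact this

theorem continuous_Ex {x : ℕ → ℝ} (hx : Bdd x) : Continuous (Ex x) :=
  continuous_iff_continuousAt.mpr (fun t => (hasDerivAt_Ex hx t).continuousAt)

/-- if all derivatives of `Ex x` vanish at a point of `[0,1/2]` then `x = 0`. -/
theorem eq_zero_of_Ex_shift {x : ℕ → ℝ} (hx : Bdd x) {t₀ : ℝ} (h0 : 0 ≤ t₀) (h1 : t₀ ≤ 1 / 2)
    (h : ∀ k, Ex (shiftBy k x) t₀ = 0) : x = 0 := by
  obtain ⟨M, hM⟩ := hx
  have hM0 : 0 ≤ M := le_trans (abs_nonneg _) (hM 0)
  have key : ∀ j : ℕ, ∀ k : ℕ, ∀ t ∈ Icc (0:ℝ) t₀,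
      |Ex (shiftBy k x) t| ≤ 2 * M * (1 / 2) ^ j := by
    intro j
    induction j with
    | zero =>
      intro k t ht
      have : |t| ≤ 1 / 2 := by
        rw [abs_of_nonneg ht.1]
        exact ht.2.trans h1
      have h2 := abs_Ex_le (x := shiftBy k x) (M := M) (fun m => hM _) this
      simpa using h2
    | succ j ih =>
      intro k t ht
      have hmv := Convex.norm_image_sub_le_of_norm_hasDerivWithin_le (s := Icc (0:ℝ) t₀)
        (f := Ex (shiftBy k x)) (f' := fun s => Ex (shiftBy (k+1) x) s)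
        (C := 2 * M * (1 / 2) ^ j) (x := t₀) (y := t)
        (fun s _ => (hasDerivAt_Ex_shift ⟨M, hM⟩ k s).hasDerivWithinAt)
        (fun s hs => by simpa [Real.norm_eq_abs] using ih (k+1) s hs)
        (convex_Icc 0 t₀) ⟨h0, le_refl _⟩ ht
      rw [h k, sub_zero, Real.norm_eq_abs, Real.norm_eq_abs] at hmv
      have h3 : |t - t₀| ≤ 1 / 2 := by
        rw [abs_le]
        constructor <;> linarith [ht.1, ht.2]
      calc |Ex (shiftBy k x) t| ≤ 2 * M * (1 / 2) ^ j * |t - t₀| := hmv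
        _ ≤ 2 * M * (1 / 2) ^ j * (1 / 2) := by gcongr
        _ = 2 * M * (1 / 2) ^ (j + 1) := by ring
  have hzero : ∀ k, Ex (shiftBy k x) 0 = 0 := by
    intro k
    have hle : ∀ j : ℕ, |Ex (shiftBy k x) 0| ≤ 2 * M * (1 / 2) ^ j :=
      fun j => key j k 0 ⟨le_refl _, h0⟩
    have hlim : Tendsto (fun j : ℕ => 2 * M * (1 / 2 : ℝ) ^ j) atTop (𝓝 0) := by
      have := (tendsto_pow_atTop_nhds_zero_of_lt_one (r := (1/2:ℝ)) (by norm_num)
        (by norm_num)).const_mul (2 * M)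
      simpa using this
    have := ge_of_tendsto' hlim hle
    exact abs_eq_zero.mp (le_antisymm this (abs_nonneg _))
  funext k
  have := hzero k
  rw [Ex_zero] at this
  simpa [shiftBy] using this

theorem Ex_sum {ι : Type*} (s : Finset ι) (c : ι → ℝ) (b : ι → ℕ → ℝ) (hb : ∀ i, Bdd (b i))
    (t : ℝ) : Ex (fun m => ∑ i ∈ s, c i * b i m) t = ∑ i ∈ s, c i * Ex (b i) t := by
  unfold Ex
  have h1 : ∀ i ∈ s, Summable (fun m => c i * (b i m * (t ^ m / (m.factorial : ℝ)))) := by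
    intro i _
    obtain ⟨M, hM⟩ := hb i
    exact (summable_Ex hM t).mul_left (c i)
  have h2 : ∀ m, (∑ i ∈ s, c i * b i m) * (t ^ m / (m.factorial : ℝ))
      = ∑ i ∈ s, c i * (b i m * (t ^ m / (m.factorial : ℝ))) := by
    intro m
    rw [Finset.sum_mul]
    exact Finset.sum_congr rfl (fun i _ => by ring)
  simp_rw [h2]
  rw [Summable.tsum_finsetSum h1]
  exact Finset.sum_congr rfl (fun i _ => tsum_mul_left)

theorem Bdd.sum {ι : Type*} (s : Finset ι) (c : ι → ℝ) (b : ι → ℕ → ℝ) (hb : ∀ i, Bdd (b i)) :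
    Bdd (fun m => ∑ i ∈ s, c i * b i m) := by
  choose M hM using hb
  refine ⟨∑ i ∈ s, |c i| * M i, fun m => ?_⟩
  refine (Finset.abs_sum_le_sum_abs _ _).trans (Finset.sum_le_sum fun i _ => ?_)
  rw [abs_mul]
  exact mul_le_mul_of_nonneg_left (hM i m) (abs_nonneg _)

end Pool.Agent.Helper539.Auer
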