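import Mathlib

/-! A super-sparse injective image of the Cantor space in `[0,1/2]`. -/

namespace Pool.Agent.Helper539.Auer

open Set Filter Topology

/-- `T` is super-sparse: distances to two different points are never comparable. -/
def SuperSparse (T : Set ℝ) : Prop :=
  ∀ p ∈ T, ∀ q ∈ T, p ≠ q → ∀ C : ℝ, ∃ ε > 0, ∀ p' ∈ T, ∀ q' ∈ T, p' ≠ p → q' ≠ q →
    |p' - p| < ε → |q' - q| < ε → C * |q' - q| ≤ |p' - p| ∨ C * |p' - p| ≤ |q' - q|

def cd (x : ℕ → Bool) : ℕ → ℕ
  | 0 => 8
  | n + 1 => 2 * cd x n + (if x n then 1 else 0)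

theorem cd_bounds (x : ℕ → Bool) (n : ℕ) : 8 * 2 ^ n ≤ cd x n ∧ cd x n < 9 * 2 ^ n := by
  induction n with
  | zero => simp [cd]
  | succ n ih =>
    simp only [cd, pow_succ]
    split_ifs <;> constructor <;> omega

theorem cd_lt_succ (x : ℕ → Bool) (n : ℕ) : cd x n < cd x (n + 1) := by
  have := (cd_bounds x n).1
  have h2 : 1 ≤ 2 ^ n := Nat.one_le_two_pow
  simp only [cd]
  omega

theorem cd_strictMono (x : ℕ → Bool) : StrictMono (cd x) := strictMono_nat_of_lt_succ (cd_lt_succ x)

theorem cd_congr {x y : ℕ → Bool} {n : ℕ} (h : ∀ i < n, x i = y i) : cd x n = cd y n := by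
  induction n with
  | zero => rfl
  | succ n ih =>
    simp only [cd]
    rw [ih (fun i hi => h i (by omega)), h n (by omega)]

theorem cd_inj {x y : ℕ → Bool} {n : ℕ} (h : cd x n = cd y n) : ∀ i < n, x i = y i := by
  induction n with
  | zero => intro i hi; omega
  | succ n ih =>
    simp only [cd] at h
    have h1 : cd x n = cd y n ∧ x n = y n := by
      rcases hx : x n <;> rcases hy : y n <;> simp [hx, hy] at h ⊢ <;> omega
    intro i hi
    rcases Nat.lt_succ_iff_lt_or_eq.mp hi with h2 | h2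
    · exact ih h1.1 i h2
    · rw [h2]; exact h1.2

theorem cd_level {x y : ℕ → Bool} {n k : ℕ} (h : cd x n = cd y k) : n = k := by
  have h1 := cd_bounds x n
  have h2 := cd_bounds y k
  rcases lt_trichotomy n k with hlt | heq | hgt
  · exfalso
    have : 2 * 2 ^ n ≤ 2 ^ k := by
      calc 2 * 2 ^ n = 2 ^ (n + 1) := by ring
        _ ≤ 2 ^ k := Nat.pow_le_pow_right (by norm_num) hlt
    omega
  · exact heq
  · exfalso
    have : 2 * 2 ^ k ≤ 2 ^ n := by
      calc 2 * 2 ^ k = 2 ^ (k + 1) := by ring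
        _ ≤ 2 ^ n := Nat.pow_le_pow_right (by norm_num) hgt
    omega

noncomputable def wt (m : ℕ) : ℝ := 1 / (m.factorial : ℝ)

theorem wt_pos (m : ℕ) : 0 < wt m := by unfold wt; positivity

theorem wt_succ (m : ℕ) : wt (m + 1) = wt m / (m + 1) := by
  unfold wt
  rw [Nat.factorial_succ]
  push_cast
  field_simp

theorem wt_anti {m n : ℕ} (h : m ≤ n) : wt n ≤ wt m := by
  unfold wt
  apply one_div_le_one_div_of_le (by positivity)
  exact_mod_cast Nat.factorial_le h

theorem summable_wt : Summable wt := by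
  have h := Real.summable_pow_div_factorial 1
  have h2 : wt = fun n : ℕ => (1:ℝ) ^ n / (n.factorial : ℝ) := by
    funext n
    simp [wt]
  rw [h2]
  exact h

theorem tail_le (p : ℕ) : ∑' m, wt (p + 1 + m) ≤ 2 * wt (p + 1) := by
  have hle : ∀ m : ℕ, wt (p + 1 + m) ≤ wt (p + 1) * (1 / 2) ^ m := by
    intro m
    induction m with
    | zero => simp
    | succ m ih =>
      rw [← add_assoc, wt_succ]
      calc wt (p + 1 + m) / (((p + 1 + m : ℕ) : ℝ) + 1)
          ≤ wt (p + 1 + m) / 2 := by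
            apply div_le_div_of_nonneg_left (wt_pos _).le (by norm_num)
            push_cast
            have : (0:ℝ) ≤ p := by positivity
            have : (0:ℝ) ≤ m := by positivity
            linarith
        _ ≤ wt (p + 1) * (1 / 2) ^ m / 2 := by gcongr
        _ = wt (p + 1) * (1 / 2) ^ (m + 1) := by ring
  have hs : Summable (fun m : ℕ => wt (p + 1) * (1 / 2 : ℝ) ^ m) :=
    (summable_geometric_of_lt_one (by norm_num) (by norm_num)).mul_left _
  have hs2 : Summable (fun m => wt (p + 1 + m)) :=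
    Summable.of_nonneg_of_le (fun m => (wt_pos _).le) hle hs
  calc ∑' m, wt (p + 1 + m) ≤ ∑' m : ℕ, wt (p + 1) * (1 / 2 : ℝ) ^ m := hs2.tsum_le_tsum hle hs
    _ = 2 * wt (p + 1) := by rw [tsum_mul_left, tsum_geometric_two]; ring

theorem summable_tail (p : ℕ) : Summable (fun m => wt (p + 1 + m)) := by
  have : Function.Injective (fun m : ℕ => p + 1 + m) := fun a b h => by simpa using h
  exact summable_wt.comp_injective this

theorem sum_le_tail {f : ℕ → ℕ} (hf : StrictMono f) {p : ℕ} (hp : p < f 0) :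
    ∑' k, wt (f k) ≤ 2 * wt (p + 1) := by
  have hge : ∀ k, p + 1 ≤ f k := fun k => lt_of_lt_of_le hp (hf.monotone (Nat.zero_le k))
  have hinj : Function.Injective (fun k => f k - (p + 1)) := by
    intro a b h
    have ha := hge a
    have hb := hge b
    apply hf.injective
    simp only at h
    omega
  have h1 : ∑' k, (fun m => wt (p + 1 + m)) (f k - (p + 1)) ≤ ∑' m, wt (p + 1 + m) :=
    tsum_comp_le_tsum_of_inj (summable_tail p) (fun m => (wt_pos _).le) hinj
  have h2 : ∀ k, (fun m => wt (p + 1 + m)) (f k - (p + 1)) = wt (f k) := by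
    intro k
    have := hge k
    simp only
    congr 1
    omega
  simp_rw [h2] at h1
  exact h1.trans (tail_le p)

/-- the point of the sparse set coded by `x` -/
noncomputable def sp (x : ℕ → Bool) : ℝ := (1 / 8) * ∑' k, wt (cd x k)

theorem summable_cd (x : ℕ → Bool) : Summable fun k => wt (cd x k) :=
  summable_wt.comp_injective (cd_strictMono x).injective

theorem sp_nonneg (x : ℕ → Bool) : 0 ≤ sp x := by
  unfold sp
  have : 0 ≤ ∑' k, wt (cd x k) := tsum_nonneg (fun k => (wt_pos _).le)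
  positivity

theorem sp_le (x : ℕ → Bool) : sp x ≤ 1 / 2 := by
  unfold sp
  have h1 : ∑' k, wt (cd x k) ≤ 2 * wt (0 + 1) := by
    apply sum_le_tail (cd_strictMono x)
    simp [cd]
  have h2 : wt (0 + 1) = 1 := by simp [wt]
  rw [h2] at h1
  linarith

/-- the scale of the distance between two codes first differing at `n` -/
theorem sp_dist_aux {x y : ℕ → Bool} {n : ℕ} (h : ∀ i < n, x i = y i)
    (hlt : cd x (n + 1) < cd y (n + 1)) :
    wt (cd x (n + 1)) / 16 ≤ |sp x - sp y| ∧ |sp x - sp y| ≤ wt (cd x (n + 1)) / 4 := by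
  set p := cd x (n + 1) with hp
  have hx := summable_cd x
  have hy := summable_cd y
  have e1 : ∑' k, wt (cd x k) = ∑ k ∈ Finset.range (n + 1), wt (cd x k) + (wt p
      + ∑' k, wt (cd x (k + (n + 2)))) := by
    rw [← hx.sum_add_tsum_nat_add (n + 2), Finset.sum_range_succ]
    ring
  have e2 : ∑' k, wt (cd y k) = ∑ k ∈ Finset.range (n + 1), wt (cd x k)
      + ∑' k, wt (cd y (k + (n + 1))) := by
    rw [← hy.sum_add_tsum_nat_add (n + 1)]
    congr 1
    apply Finset.sum_congr rfl
    intro k hk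
    rw [Finset.mem_range] at hk
    rw [cd_congr (fun i hi => h i (by omega))]
  have t1 : ∑' k, wt (cd x (k + (n + 2))) ≤ 2 * wt (p + 1) := by
    apply sum_le_tail (f := fun k => cd x (k + (n + 2)))
    · intro a b hab
      exact cd_strictMono x (by omega)
    · simp only [hp]
      apply cd_strictMono x
      omega
  have t2 : ∑' k, wt (cd y (k + (n + 1))) ≤ 2 * wt (p + 1) := by
    apply sum_le_tail (f := fun k => cd y (k + (n + 1)))
    · intro a b hab
      exact cd_strictMono y (by omega)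
    · simpa using hlt
  have n1 : 0 ≤ ∑' k, wt (cd x (k + (n + 2))) := tsum_nonneg (fun k => (wt_pos _).le)
  have n2 : 0 ≤ ∑' k, wt (cd y (k + (n + 1))) := tsum_nonneg (fun k => (wt_pos _).le)
  have hp8 : 8 ≤ p := by
    have := (cd_bounds x (n + 1)).1
    have h2 : 1 ≤ 2 ^ (n + 1) := Nat.one_le_two_pow
    omega
  have hw : wt (p + 1) ≤ wt p / 9 := by
    rw [wt_succ]
    apply div_le_div_of_nonneg_left (wt_pos _).le (by norm_num)
    have : (8:ℝ) ≤ p := by exact_mod_cast hp8
    linarith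
  have hdiff : sp x - sp y = (1 / 8) * (wt p + ∑' k, wt (cd x (k + (n + 2)))
      - ∑' k, wt (cd y (k + (n + 1)))) := by
    unfold sp
    rw [e1, e2]
    ring
  have hpp := wt_pos p
  rw [hdiff, abs_le, le_abs]
  refine ⟨Or.inl ?_, ?_, ?_⟩ <;> linarith

/-- the index scale -/
theorem sp_dist {x y : ℕ → Bool} (hxy : x ≠ y) :
    ∃ n, (∀ i < n, x i = y i) ∧ x n ≠ y n ∧
      ∃ z : ℕ → Bool, (z = x ∨ z = y) ∧
      wt (cd z (n + 1)) / 16 ≤ |sp x - sp y| ∧ |sp x - sp y| ≤ wt (cd z (n + 1)) / 4 := by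
  classical
  have hex : ∃ n, x n ≠ y n := by
    by_contra hcon
    push Not at hcon
    exact hxy (funext hcon)
  refine ⟨Nat.find hex, ?_, Nat.find_spec hex, ?_⟩
  · intro i hi
    have := Nat.find_min hex hi
    simpa using this
  · have hagree : ∀ i < Nat.find hex, x i = y i := by
      intro i hi
      have := Nat.find_min hex hi
      simpa using this
    have hne : cd x (Nat.find hex + 1) ≠ cd y (Nat.find hex + 1) := by
      intro h
      exact Nat.find_spec hex (cd_inj h _ (Nat.lt_succ_self _))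
    rcases lt_or_gt_of_ne hne with hlt | hgt
    · exact ⟨x, Or.inl rfl, sp_dist_aux hagree hlt⟩
    · refine ⟨y, Or.inr rfl, ?_⟩
      have := sp_dist_aux (fun i hi => (hagree i hi).symm) hgt
      rwa [abs_sub_comm] at this

theorem sp_injective : Function.Injective sp := by
  intro x y h
  by_contra hxy
  obtain ⟨n, _, _, z, _, h1, _⟩ := sp_dist hxy
  rw [h, sub_self, abs_zero] at h1
  have := wt_pos (cd z (n + 1))
  linarith

theorem superSparse_range_sp : SuperSparse (range sp) := by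
  rintro _ ⟨x, rfl⟩ _ ⟨y, rfl⟩ hpq C
  have hxy : x ≠ y := fun h => hpq (by rw [h])
  obtain ⟨n₀, _, hn₀, _⟩ := sp_dist hxy
  obtain ⟨N₁, hN₁⟩ := exists_nat_ge (4 * |C|)
  set N : ℕ := max (9 * 2 ^ (n₀ + 1)) N₁ with hN
  refine ⟨wt N / 16, by have := wt_pos N; positivity, ?_⟩
  rintro _ ⟨x', rfl⟩ _ ⟨y', rfl⟩ hx' hy' hdx hdy
  have hxx : x' ≠ x := fun h => hx' (by rw [h])
  have hyy : y' ≠ y := fun h => hy' (by rw [h])
  obtain ⟨n, hn, _, z, hz, hz1, hz2⟩ := sp_dist hxx
  obtain ⟨k, hk, _, w, hw, hw1, hw2⟩ := sp_dist hyy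
  have hzN : N < cd z (n + 1) := by
    by_contra hcon
    have := wt_anti (not_lt.mp hcon)
    linarith
  have hwN : N < cd w (k + 1) := by
    by_contra hcon
    have := wt_anti (not_lt.mp hcon)
    linarith
  have hn0 : n₀ < n := by
    by_contra hcon
    have h1 := (cd_bounds z (n + 1)).2
    have h2 : 2 ^ (n + 1) ≤ 2 ^ (n₀ + 1) := Nat.pow_le_pow_right (by norm_num) (by omega)
    have h3 : 9 * 2 ^ (n₀ + 1) ≤ N := le_max_left _ _
    omega
  have hk0 : n₀ < k := by
    by_contra hcon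
    have h1 := (cd_bounds w (k + 1)).2
    have h2 : 2 ^ (k + 1) ≤ 2 ^ (n₀ + 1) := Nat.pow_le_pow_right (by norm_num) (by omega)
    have h3 : 9 * 2 ^ (n₀ + 1) ≤ N := le_max_left _ _
    omega
  have hzx : z n₀ = x n₀ := by
    rcases hz with rfl | rfl
    · exact hn n₀ hn0
    · rfl
  have hwy : w n₀ = y n₀ := by
    rcases hw with rfl | rfl
    · exact hk n₀ hk0
    · rfl
  have hne : cd z (n + 1) ≠ cd w (k + 1) := by
    intro h
    have hlev := cd_level h
    have hnk : n = k := by omega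
    subst hnk
    have := cd_inj h n₀ (by omega)
    rw [hzx, hwy] at this
    exact hn₀ this
  have key : ∀ a b : ℕ, ∀ P Q : ℝ, N < a → a < b → wt a / 16 ≤ P → Q ≤ wt b / 4 → 0 ≤ Q →
      C * Q ≤ P := by
    intro a b P Q hNa hab hP hQ hQ0
    have h1 : wt b ≤ wt a / (a + 1) := by
      rw [← wt_succ]
      exact wt_anti hab
    have ha : 4 * |C| ≤ a + 1 := by
      have h2 : (N₁:ℝ) ≤ N := by exact_mod_cast le_max_right _ _
      have h3 : (N:ℝ) < a := by exact_mod_cast hNa
      linarith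
    have hpos : (0:ℝ) < a + 1 := by positivity
    have hwa := wt_pos a
    calc C * Q ≤ |C| * Q := mul_le_mul_of_nonneg_right (le_abs_self C) hQ0
      _ ≤ |C| * (wt a / (a + 1) / 4) := by
        apply mul_le_mul_of_nonneg_left _ (abs_nonneg C)
        linarith
      _ = (4 * |C|) * (wt a / (a + 1)) / 16 := by ring
      _ ≤ ((a:ℝ) + 1) * (wt a / (a + 1)) / 16 := by gcongr
      _ = wt a / 16 := by field_simp
      _ ≤ P := hP
  rcases lt_or_gt_of_ne hne with hlt | hgt
  · exact Or.inl (key _ _ _ _ hzN hlt hz1 hw2 (abs_nonneg _))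
  · exact Or.inr (key _ _ _ _ hwN hgt hw1 hz2 (abs_nonneg _))

end Pool.Agent.Helper539.Auer
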