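import Mathlib
import Pool.Agent.Helper539.AuerExp
import Pool.Agent.Helper539.AuerSparse

/-! The tuple lemma: no uncountable pairwise disjoint family of tuples from a super-sparse set
lies in the zero set of a nondegenerate determinant of exponential series. -/

namespace Pool.Agent.Helper539.Auer

open Set Filter Topology

/-- condensation points -/
theorem exists_condensed {X : Type*} [TopologicalSpace X] [SecondCountableTopology X] (G : Set X)
    (hG : ¬ G.Countable) : ∃ G₀ ⊆ G, ¬ G₀.Countable ∧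
      ∀ V : Set X, IsOpen V → (G₀ ∩ V).Nonempty → ¬ (G₀ ∩ V).Countable := by
  classical
  let F : Set (Set X) := {u | u ∈ TopologicalSpace.countableBasis X ∧ (G ∩ u).Countable}
  let U : Set X := ⋃₀ F
  have hFc : F.Countable := (TopologicalSpace.countable_countableBasis X).mono (fun u hu => hu.1)
  have hGU : (G ∩ U).Countable := by
    have : G ∩ U = ⋃ u ∈ F, G ∩ u := by
      ext x
      simp only [U, mem_inter_iff, mem_sUnion, mem_iUnion, exists_prop]
      constructor
      · rintro ⟨h1, u, hu, hx⟩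
        exact ⟨u, hu, h1, hx⟩
      · rintro ⟨u, hu, h1, hx⟩
        exact ⟨h1, u, hu, hx⟩
    rw [this]
    exact hFc.biUnion (fun u hu => hu.2)
  refine ⟨G \ U, sdiff_subset, ?_, ?_⟩
  · intro hc
    apply hG
    refine (hc.union hGU).mono ?_
    intro x hx
    by_cases hxU : x ∈ U
    · exact Or.inr ⟨hx, hxU⟩
    · exact Or.inl ⟨hx, hxU⟩
  · intro V hV hne hc
    obtain ⟨x, ⟨hxG, hxU⟩, hxV⟩ := hne
    obtain ⟨u, hu, hxu, huV⟩ :=
      (TopologicalSpace.isBasis_countableBasis X).exists_subset_of_mem_open hxV hV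
    apply hxU
    refine ⟨u, ⟨hu, ?_⟩, hxu⟩
    refine (hc.union hGU).mono ?_
    rintro y ⟨hyG, hyu⟩
    by_cases hyU : y ∈ U
    · exact Or.inr ⟨hyG, hyU⟩
    · exact Or.inl ⟨⟨hyG, hyU⟩, huV hyu⟩

theorem exists_dense_piece {X : Type*} [TopologicalSpace X] {ι : Type*} (S : Set X)
    (C : ι → Set X) (hC : ∀ i, IsClosed (C i)) (s : Finset ι) :
    ∀ V : Set X, IsOpen V → (S ∩ V).Nonempty → S ∩ V ⊆ ⋃ i ∈ s, C i →
      ∃ i ∈ s, ∃ V' : Set X, IsOpen V' ∧ (S ∩ V').Nonempty ∧ S ∩ V' ⊆ C i := by
  classical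
  induction s using Finset.induction_on with
  | empty =>
    intro V _ hne hsub
    obtain ⟨x, hx⟩ := hne
    have := hsub hx
    simp at this
  | insert a s ha ih =>
    intro V hV hne hsub
    by_cases h : S ∩ V ⊆ C a
    · exact ⟨a, Finset.mem_insert_self a s, V, hV, hne, h⟩
    · obtain ⟨x, hx, hxa⟩ := not_subset.mp h
      obtain ⟨i, hi, V', h1, h2, h3⟩ := ih (V ∩ (C a)ᶜ) (hV.inter (hC a).isOpen_compl)
        ⟨x, hx.1, hx.2, hxa⟩ (by
          rintro y ⟨hy1, hy2, hy3⟩
          have := hsub ⟨hy1, hy2⟩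
          simp only [Finset.mem_insert, mem_iUnion, exists_prop] at this ⊢
          obtain ⟨i, hi, hyi⟩ := this
          rcases hi with rfl | hi
          · exact absurd hyi hy3
          · exact ⟨i, hi, hyi⟩)
      exact ⟨i, Finset.mem_insert_of_mem hi, V', h1, h2, h3⟩

/-- Selection of a dominating coordinate. -/
theorem exists_dominating {T : Set ℝ} (hT : SuperSparse T) {n : ℕ} (G : Set (Fin (n + 1) → ℝ))
    (hG : ¬ G.Countable) (hGT : ∀ p ∈ G, ∀ i, p i ∈ T)
    (hGi : ∀ p ∈ G, Function.Injective p) (hGd : ∀ p ∈ G, ∀ q ∈ G, p ≠ q → ∀ i, p i ≠ q i) :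
    ∃ i : Fin (n + 1), ∃ G' ⊆ G, ¬ G'.Countable ∧
      ∀ (f g : (Fin (n + 1) → ℝ) → ℝ), Continuous g →
        (∀ p, ∃ L : (Fin (n + 1) → ℝ) →L[ℝ] ℝ, HasFDerivAt f L p ∧ L (Pi.single i 1) = g p) →
        (∀ p ∈ G', f p = 0) → ∀ p ∈ G', g p = 0 := by
  classical
  obtain ⟨G₀, hG₀G, hG₀c, hG₀⟩ := exists_condensed G hG
  let A : Fin (n + 1) → (Fin (n + 1) → ℝ) → Set (Fin (n + 1) → ℝ) := fun i p =>
    {q | q ∈ G₀ ∧ q ≠ p ∧ ∀ j, |q j - p j| ≤ |q i - p i|}
  let D : Fin (n + 1) → Set (Fin (n + 1) → ℝ) := fun i => {p | p ∈ G₀ ∧ p ∈ closure (A i p)}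
  have hcover : ∀ p ∈ G₀, ∃ i, p ∈ D i := by
    intro p hp
    have h1 : p ∈ closure (⋃ i, A i p) := by
      rw [mem_closure_iff]
      intro V hV hpV
      have h2 := hG₀ V hV ⟨p, hp, hpV⟩
      have h3 : ∃ q ∈ G₀ ∩ V, q ≠ p := by
        by_contra hcon
        push Not at hcon
        apply h2
        exact (Set.countable_singleton p).mono (fun q hq => hcon q hq)
      obtain ⟨q, ⟨hq1, hq2⟩, hqp⟩ := h3
      refine ⟨q, hq2, ?_⟩
      obtain ⟨i, hi⟩ := Finite.exists_max (fun j => |q j - p j|)
      exact mem_iUnion.mpr ⟨i, hq1, hqp, hi⟩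
    rw [closure_iUnion_of_finite] at h1
    obtain ⟨i, hi⟩ := mem_iUnion.mp h1
    exact ⟨i, hp, hi⟩
  have hne₀ : (G₀ ∩ univ).Nonempty := by
    rw [inter_univ]
    by_contra hcon
    rw [not_nonempty_iff_eq_empty] at hcon
    rw [hcon] at hG₀c
    exact hG₀c countable_empty
  obtain ⟨i, _, V, hV, hVne, hVsub⟩ := exists_dense_piece G₀ (fun i => closure (D i))
    (fun i => isClosed_closure) Finset.univ univ isOpen_univ hne₀ (by
      rintro p ⟨hp, _⟩
      obtain ⟨i, hi⟩ := hcover p hp
      simp only [Finset.mem_univ, iUnion_true, mem_iUnion]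
      exact ⟨i, subset_closure hi⟩)
  refine ⟨i, G₀ ∩ V, inter_subset_left.trans hG₀G, hG₀ V hV hVne, ?_⟩
  intro f g hg hfg hf
  -- first at points of `D i`
  have hD : ∀ p ∈ D i ∩ V, g p = 0 := by
    rintro p ⟨⟨hpG, hpcl⟩, hpV⟩
    obtain ⟨L, hL, hLg⟩ := hfg p
    rw [← hLg]
    by_contra hne
    set c := |L (Pi.single i 1)| with hc
    have hcpos : 0 < c := abs_pos.mpr hne
    set M : ℝ := ∑ j, |L (Pi.single j 1)| with hM
    have hM0 : 0 ≤ M := Finset.sum_nonneg (fun j _ => abs_nonneg _)
    set C : ℝ := max 2 (4 * M / c) with hC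
    have hC2 : 2 ≤ C := le_max_left _ _
    have hCM : M / C ≤ c / 4 := by
      rw [div_le_iff₀ (by linarith)]
      have h1 : 4 * M / c ≤ C := le_max_right _ _
      rw [div_le_iff₀ hcpos] at h1
      linarith
    -- neighbourhoods
    have hsp : ∀ j, j ≠ i → ∃ ε > 0, ∀ q : Fin (n + 1) → ℝ, (∀ k, q k ∈ T) → (∀ k, q k ≠ p k) →
        |q i - p i| < ε → |q j - p j| < ε →
        C * |q j - p j| ≤ |q i - p i| ∨ C * |q i - p i| ≤ |q j - p j| := by
      intro j hj
      obtain ⟨ε, hε, h⟩ := hT (p i) (hGT p (hG₀G hpG) i) (p j) (hGT p (hG₀G hpG) j)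
        (fun h => hj (hGi p (hG₀G hpG) h).symm) C
      exact ⟨ε, hε, fun q hqT hqp h1 h2 => h (q i) (hqT i) (q j) (hqT j) (hqp i) (hqp j) h1 h2⟩
    choose! ε hε hsp' using hsp
    have hev : ∀ᶠ q in 𝓝 p, ∀ j, j ≠ i → |q i - p i| < ε j ∧ |q j - p j| < ε j := by
      rw [eventually_all]
      intro j
      by_cases hj : j = i
      · exact Eventually.of_forall (fun q h => absurd hj h)
      · have h1 : ∀ᶠ q in 𝓝 p, |q i - p i| < ε j := by
          have : Tendsto (fun q : Fin (n+1) → ℝ => |q i - p i|) (𝓝 p) (𝓝 0) := by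
            have hcont : Continuous (fun q : Fin (n+1) → ℝ => |q i - p i|) := by fun_prop
            have := hcont.tendsto p
            simpa using this
          exact this.eventually_lt_const (hε j hj)
        have h2 : ∀ᶠ q in 𝓝 p, |q j - p j| < ε j := by
          have : Tendsto (fun q : Fin (n+1) → ℝ => |q j - p j|) (𝓝 p) (𝓝 0) := by
            have hcont : Continuous (fun q : Fin (n+1) → ℝ => |q j - p j|) := by fun_prop
            have := hcont.tendsto p
            simpa using this
          exact this.eventually_lt_const (hε j hj)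
        filter_upwards [h1, h2] with q h3 h4 _
        exact ⟨h3, h4⟩
    have hderiv : ∀ᶠ q in 𝓝 p, ‖f q - f p - L (q - p)‖ ≤ (c / 4) * ‖q - p‖ :=
      hL.isLittleO.def (by positivity)
    have hVev : ∀ᶠ q in 𝓝 p, q ∈ V := hV.mem_nhds hpV
    have hfreq : ∃ᶠ q in 𝓝 p, q ∈ A i p := mem_closure_iff_frequently.mp hpcl
    obtain ⟨q, ⟨hq1, hq2, hq3⟩, hqε, hqd, hqV⟩ :=
      (hfreq.and_eventually (hev.and (hderiv.and hVev))).exists
    have hqp : ∀ k, q k ≠ p k := hGd q (hG₀G hq1) p (hG₀G hpG) hq2
    have hqT := hGT q (hG₀G hq1)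
    have hpos : 0 < |q i - p i| := abs_pos.mpr (sub_ne_zero.mpr (hqp i))
    have hnorm : ‖q - p‖ ≤ |q i - p i| := by
      rw [pi_norm_le_iff_of_nonneg (abs_nonneg _)]
      intro j
      exact hq3 j
    have hf0 : f q = 0 := hf q ⟨hq1, hqV⟩
    have hf1 : f p = 0 := hf p ⟨hpG, hpV⟩
    rw [hf0, hf1, sub_zero, zero_sub, norm_neg, Real.norm_eq_abs] at hqd
    have hLsum : L (q - p) = ∑ j, (q j - p j) * L (Pi.single j 1) := by
      have h1 : q - p = ∑ j, (q j - p j) • (Pi.single j 1 : Fin (n + 1) → ℝ) := by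
        funext k
        simp [Finset.sum_apply, Pi.single_apply]
      conv_lhs => rw [h1]
      rw [map_sum]
      exact Finset.sum_congr rfl (fun j _ => by rw [map_smul, smul_eq_mul])
    have hrest : |L (q - p) - (q i - p i) * L (Pi.single i 1)| ≤ (M / C) * |q i - p i| := by
      rw [hLsum, ← Finset.add_sum_erase Finset.univ _ (Finset.mem_univ i), add_sub_cancel_left]
      refine (Finset.abs_sum_le_sum_abs _ _).trans ?_
      have hstep : ∀ j ∈ Finset.univ.erase i, |(q j - p j) * L (Pi.single j 1)| ≤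
          (|q i - p i| / C) * |L (Pi.single j 1)| := by
        intro j hj
        have hji : j ≠ i := Finset.ne_of_mem_erase hj
        rw [abs_mul]
        apply mul_le_mul_of_nonneg_right _ (abs_nonneg _)
        rw [le_div_iff₀ (by linarith)]
        rcases hsp' j hji q hqT hqp (hqε j hji).1 (hqε j hji).2 with h | h
        · linarith
        · exfalso
          have := hq3 j
          nlinarith
      refine (Finset.sum_le_sum hstep).trans ?_
      rw [← Finset.mul_sum]
      have hle : ∑ j ∈ Finset.univ.erase i, |L (Pi.single j 1)| ≤ M :=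
        Finset.sum_le_sum_of_subset_of_nonneg (Finset.erase_subset _ _)
          (fun j _ _ => abs_nonneg _)
      calc |q i - p i| / C * ∑ j ∈ Finset.univ.erase i, |L (Pi.single j 1)|
          ≤ |q i - p i| / C * M := by gcongr
        _ = (M / C) * |q i - p i| := by ring
    have hlow : c * |q i - p i| = |(q i - p i) * L (Pi.single i 1)| := by
      rw [abs_mul, hc]; ring
    have htri : |(q i - p i) * L (Pi.single i 1)| ≤
        |L (q - p)| + |L (q - p) - (q i - p i) * L (Pi.single i 1)| := by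
      have := abs_sub_abs_le_abs_sub ((q i - p i) * L (Pi.single i 1)) (L (q - p))
      rw [abs_sub_comm] at this
      linarith
    have h5 : |L (q - p)| ≤ (c / 4) * |q i - p i| :=
      hqd.trans (mul_le_mul_of_nonneg_left hnorm (by positivity))
    have h6 : (M / C) * |q i - p i| ≤ (c / 4) * |q i - p i| :=
      mul_le_mul_of_nonneg_right hCM (abs_nonneg _)
    nlinarith
  rintro p ⟨hpG, hpV⟩
  have hpcl : p ∈ closure (D i ∩ V) := by
    have h1 := hVsub ⟨hpG, hpV⟩
    rw [mem_closure_iff] at h1 ⊢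
    intro U hU hpU
    obtain ⟨q, hq1, hq2⟩ := h1 (U ∩ V) (hU.inter hV) ⟨hpU, hpV⟩
    exact ⟨q, hq1.1, hq2, hq1.2⟩
  have hclosed : IsClosed {q | g q = 0} := isClosed_eq hg continuous_const
  exact closure_minimal (fun q hq => hD q hq) hclosed hpcl

theorem differentiable_prod_aux {E : Type*} [NormedAddCommGroup E] [NormedSpace ℝ E] {ι : Type*}
    (s : Finset ι) (f : ι → E → ℝ) (hf : ∀ i, Differentiable ℝ (f i)) :
    Differentiable ℝ (fun x => ∏ i ∈ s, f i x) := by
  classical
  induction s using Finset.induction_on with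
  | empty => simp
  | insert a s ha ih =>
    have : (fun x => ∏ i ∈ insert a s, f i x) = fun x => f a x * ∏ i ∈ s, f i x := by
      funext x
      rw [Finset.prod_insert ha]
    rw [this]
    exact (hf a).mul ih

theorem differentiable_det {E : Type*} [NormedAddCommGroup E] [NormedSpace ℝ E] {n : ℕ}
    (A : E → Matrix (Fin n) (Fin n) ℝ) (hA : ∀ i j, Differentiable ℝ (fun x => A x i j)) :
    Differentiable ℝ (fun x => (A x).det) := by
  have : (fun x => (A x).det) = fun x => ∑ σ : Equiv.Perm (Fin n),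
      ((Equiv.Perm.sign σ : ℤ) : ℝ) * ∏ i, A x (σ i) i := by
    funext x
    rw [Matrix.det_apply']
  rw [this]
  apply Differentiable.fun_sum
  intro σ _
  exact (differentiable_prod_aux Finset.univ (fun i x => A x (σ i) i)
    (fun i => hA _ _)).const_mul _

/-- The tuple lemma. -/
theorem tuple_lemma {T : Set ℝ} (hT : SuperSparse T) (hT01 : ∀ t ∈ T, 0 ≤ t ∧ t ≤ 1 / 2) {ι : Type*} :
    ∀ (n : ℕ) (K : Set ι) (p : ι → Fin n → ℝ) (b : Fin n → Fin n → ℕ → ℝ),
      (∀ i j, Bdd (b i j)) → (∀ i, LinearIndependent ℝ (b i)) → ¬ K.Countable →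
      (∀ k ∈ K, ∀ i, p k i ∈ T) → (∀ k ∈ K, Function.Injective (p k)) →
      (∀ k ∈ K, ∀ l ∈ K, k ≠ l → ∀ i, p k i ≠ p l i) →
      (∀ k ∈ K, (Matrix.of fun i j => Ex (b i j) (p k i)).det = 0) → False := by
  classical
  intro n
  induction n with
  | zero =>
    intro K p b _ _ hK _ _ _ hdet
    have : K.Nonempty := by
      by_contra hcon
      rw [not_nonempty_iff_eq_empty] at hcon
      rw [hcon] at hK
      exact hK countable_empty
    obtain ⟨k, hk⟩ := this
    have := hdet k hk
    simp at this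
  | succ n ih =>
    intro K p b hb hli hK hpT hpi hpd hdet
    have hinj : InjOn p K := by
      intro k hk l hl h
      by_contra hne
      exact hpd k hk l hl hne 0 (by rw [h])
    have hG : ¬ (p '' K).Countable := fun h => hK (countable_of_injective_of_countable_image hinj h)
    obtain ⟨i, G', hG'G, hG'c, hG'⟩ := exists_dominating hT (p '' K) hG
      (by rintro _ ⟨k, hk, rfl⟩ j; exact hpT k hk j)
      (by rintro _ ⟨k, hk, rfl⟩; exact hpi k hk)
      (by
        rintro _ ⟨k, hk, rfl⟩ _ ⟨l, hl, rfl⟩ hne j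
        exact hpd k hk l hl (fun h => hne (by rw [h])) j)
    -- cofactors
    let minor : Fin (n + 1) → (Fin (n + 1) → ℝ) → ℝ := fun j q =>
      ((Matrix.of fun k l => Ex (b k l) (q k)).submatrix i.succAbove j.succAbove).det
    let Cof : Fin (n + 1) → (Fin (n + 1) → ℝ) → ℝ := fun j q => (-1) ^ (i + j : ℕ) * minor j q
    let F : ℕ → (Fin (n + 1) → ℝ) → ℝ := fun m q =>
      ∑ j, Ex (shiftBy m (b i j)) (q i) * Cof j q
    have hCofdiff : ∀ j, Differentiable ℝ (Cof j) := by
      intro j
      apply Differentiable.const_mul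
      apply differentiable_det
      intro k l
      have h1 : Differentiable ℝ (Ex (b (i.succAbove k) (j.succAbove l))) :=
        fun t => (hasDerivAt_Ex (hb _ _) t).differentiableAt
      have h2 : Differentiable ℝ (fun q : Fin (n+1) → ℝ => q (i.succAbove k)) := by fun_prop
      exact h1.comp h2
    have hFdiff : ∀ m, Differentiable ℝ (F m) := by
      intro m
      apply Differentiable.fun_sum
      intro j _
      have h1 : Differentiable ℝ (Ex (shiftBy m (b i j))) :=
        fun t => (hasDerivAt_Ex ((hb i j).shiftBy m) t).differentiableAt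
      have h2 : Differentiable ℝ (fun q : Fin (n+1) → ℝ => q i) := by fun_prop
      exact (h1.comp h2).mul (hCofdiff j)
    have hFderiv : ∀ m q, fderiv ℝ (F m) q (Pi.single i 1) = F (m + 1) q := by
      intro m q
      have hCofline : ∀ j (s : ℝ), Cof j (q + s • Pi.single i 1) = Cof j q := by
        intro j s
        simp only [Cof, minor]
        congr 2
        ext k l
        simp only [Matrix.submatrix_apply, Matrix.of_apply, Pi.add_apply, Pi.smul_apply,
          smul_eq_mul]
        rw [Pi.single_eq_of_ne (Fin.succAbove_ne i k)]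
        simp
      have h1 : HasDerivAt (fun s : ℝ => F m (q + s • Pi.single i 1))
          (fderiv ℝ (F m) q (Pi.single i 1)) 0 := by
        have hl : HasDerivAt (fun s : ℝ => q + s • (Pi.single i 1 : Fin (n+1) → ℝ))
            (Pi.single i 1) 0 := by
          have := ((hasDerivAt_id (0:ℝ)).smul_const (Pi.single i 1 : Fin (n+1) → ℝ)).const_add q
          simpa using this
        have hf : HasFDerivAt (F m) (fderiv ℝ (F m) q) (q + (0:ℝ) • (Pi.single i 1 : Fin (n+1) → ℝ)) := by
          simpa using (hFdiff m q).hasFDerivAt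
        exact hf.comp_hasDerivAt 0 hl
      have h2 : HasDerivAt (fun s : ℝ => F m (q + s • Pi.single i 1)) (F (m + 1) q) 0 := by
        have heq : (fun s : ℝ => F m (q + s • Pi.single i 1)) =
            fun s : ℝ => ∑ j, Ex (shiftBy m (b i j)) (q i + s) * Cof j q := by
          funext s
          simp only [F, hCofline]
          apply Finset.sum_congr rfl
          intro j _
          simp
        rw [heq]
        apply HasDerivAt.fun_sum
        intro j _
        apply HasDerivAt.mul_const
        have h3 := hasDerivAt_Ex_shift (hb i j) m (q i + 0)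
        have h4 : HasDerivAt (fun s : ℝ => q i + s) 1 0 := (hasDerivAt_id (0:ℝ)).const_add (q i)
        have h5 : HasDerivAt (fun s : ℝ => Ex (shiftBy m (b i j)) (q i + s))
            (Ex (shiftBy (m + 1) (b i j)) (q i + 0) * 1) 0 := HasDerivAt.comp (0:ℝ) h3 h4
        rw [mul_one, add_zero] at h5
        exact h5
      exact h1.unique h2
    have hF0 : ∀ m, ∀ q ∈ G', F m q = 0 := by
      intro m
      induction m with
      | zero =>
        intro q hq
        obtain ⟨k, hk, rfl⟩ := hG'G hq
        have := hdet k hk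
        rw [Matrix.det_succ_row _ i] at this
        rw [← this]
        simp only [F, Cof, minor]
        apply Finset.sum_congr rfl
        intro j _
        simp only [Matrix.of_apply]
        have h0 : shiftBy 0 (b i j) = b i j := by funext m; simp [shiftBy]
        rw [h0]
        ring
      | succ m ihm =>
        exact hG' (F m) (F (m + 1)) (hFdiff (m + 1)).continuous
          (fun q => ⟨fderiv ℝ (F m) q, (hFdiff m q).hasFDerivAt, hFderiv m q⟩) ihm
    have hCof0 : ∀ q ∈ G', ∀ j, Cof j q = 0 := by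
      intro q hq
      have hqT : q i ∈ T := by
        obtain ⟨k, hk, rfl⟩ := hG'G hq
        exact hpT k hk i
      let x : ℕ → ℝ := fun m => ∑ j, Cof j q * b i j m
      have hx : Bdd x := Bdd.sum Finset.univ _ _ (hb i)
      have hx0 : x = 0 := by
        apply eq_zero_of_Ex_shift hx (hT01 _ hqT).1 (hT01 _ hqT).2
        intro m
        have h1 : shiftBy m x = fun k => ∑ j, Cof j q * (shiftBy m (b i j)) k := rfl
        rw [h1, Ex_sum Finset.univ _ _ (fun j => (hb i j).shiftBy m)]
        have := hF0 m q hq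
        simp only [F] at this
        rw [← this]
        exact Finset.sum_congr rfl (fun j _ => mul_comm _ _)
      have h2 : ∑ j, Cof j q • b i j = 0 := by
        rw [← hx0]
        funext m
        simp [x, Finset.sum_apply]
      exact (Fintype.linearIndependent_iff.mp (hli i)) _ h2
    -- induction step
    let K' : Set ι := {k | k ∈ K ∧ p k ∈ G'}
    have hK'c : ¬ K'.Countable := by
      intro hc
      apply hG'c
      refine (hc.image p).mono ?_
      intro q hq
      obtain ⟨k, hk, rfl⟩ := hG'G hq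
      exact ⟨k, ⟨hk, hq⟩, rfl⟩
    refine ih K' (fun k l => p k (i.succAbove l))
      (fun l j => b (i.succAbove l) ((0 : Fin (n + 1)).succAbove j))
      (fun _ _ => hb _ _) ?_ hK'c (fun k hk l => hpT k hk.1 _) ?_ ?_ ?_
    · intro l
      exact (hli (i.succAbove l)).comp _ (Fin.succAbove_right_injective)
    · intro k hk
      exact (hpi k hk.1).comp Fin.succAbove_right_injective
    · intro k hk l hl hne j
      exact hpd k hk.1 l hl.1 hne _
    · intro k hk
      have h1 := hCof0 (p k) hk.2 0
      simp only [Cof, mul_eq_zero] at h1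
      rcases h1 with h1 | h1
      · exfalso
        exact (pow_ne_zero _ (by norm_num : (-1:ℝ) ≠ 0)) h1
      · exact h1

end Pool.Agent.Helper539.Auer
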