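import Mathlib
import Pool.Agent.Helper539.AuerTuple
import Pool.Agent.Helper539.AuerDelta
import Pool.Agent.Helper539.AuerSpace

/-! Every normal biorthogonal system in the space uses only countably many coordinates. -/

namespace Pool.Agent.Helper539.Auer

open Set Filter Topology
open scoped BoundedContinuousFunction ZeroAtInfty

variable {W : Type*} [LinearOrder W]

theorem exists_upper [Uncountable W] (hc : ∀ a : W, (Iio a).Countable) {S : Set W}
    (hS : S.Countable) : ∃ δ, ∀ w ∈ S, w < δ := by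
  by_contra hcon
  push Not at hcon
  have h1 : (univ : Set W) ⊆ ⋃ w ∈ S, Iic w := by
    intro δ _
    obtain ⟨w, hw, hle⟩ := hcon δ
    simp only [mem_iUnion, exists_prop]
    exact ⟨w, hw, hle⟩
  have h2 : (⋃ w ∈ S, Iic w).Countable := by
    refine hS.biUnion (fun w _ => ?_)
    have : Iic w = Iio w ∪ {w} := by
      ext x
      simp [le_iff_lt_or_eq]
    rw [this]
    exact (hc w).union (countable_singleton w)
  exact not_countable_univ (h2.mono h1)

variable [TopologicalSpace W] [DiscreteTopology W]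

theorem vec_sum (d : PData W) {N : ℕ} (ν : Fin N → ℝ) (a : Fin N → C₀(W, ℝ)) :
    d.vec (∑ k, ν k • a k) = ∑ k, ν k • d.vec (a k) := by
  let Λ : C₀(W, ℝ) →ₗ[ℝ] d.SpT :=
    { toFun := d.vec
      map_add' := fun u v => Subtype.ext (map_add d.PhiL u v)
      map_smul' := fun c v => Subtype.ext (map_smul d.PhiL c v) }
  have h : ∀ v, d.vec v = Λ v := fun v => rfl
  rw [h, map_sum]
  simp_rw [map_smul]
  rfl

theorem countable_support_union [Uncountable W] (hc : ∀ a : W, (Iio a).Countable) (d : PData W)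
    (hcount : ∀ δ : W, (Set.range fun a : {a : W // δ ≤ a} =>
        (fun ξ : Iio δ => d.e a.1 ξ.1)).Countable)
    {T : Set ℝ} (hT : SuperSparse T) (hT01 : ∀ t ∈ T, 0 ≤ t ∧ t ≤ 1 / 2)
    (htT : ∀ a, d.t a ∈ T) (hti : Function.Injective d.t)
    {I : Type*} (x : I → d.SpT) (f : I → d.SpT →L[ℝ] ℝ)
    (hbi : ∀ i, f i (x i) = 1) (hbi' : ∀ i j, i ≠ j → f i (x j) = 0)
    (c : I → W →₀ ℝ) (hcf : ∀ i, ∀ y : d.SpT, f i y = (c i).sum (fun a r => r * d.coord y a)) :
    (⋃ i, ((c i).support : Set W)).Countable := by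
  classical
  by_contra hB
  have hIunc : ¬ Countable I := by
    intro h
    exact hB (countable_iUnion (fun i => (c i).support.countable_toSet))
  have hIinf : Infinite I := by
    by_contra h
    rw [not_infinite_iff_finite] at h
    exact hIunc inferInstance
  let j : ℕ ↪ I := Infinite.natEmbedding I
  choose a ha using fun n : ℕ => d.exists_vec (x (j n))
  -- a bound for the supports
  obtain ⟨δ, hδ⟩ := exists_upper hc (countable_iUnion (fun n : ℕ => PData.countable_supp (a n)))
  have hδ' : ∀ n w, δ ≤ w → a n w = 0 := by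
    intro n w hw
    by_contra hne
    exact absurd (hδ w (mem_iUnion.mpr ⟨n, hne⟩)) (not_lt.mpr hw)
  -- the family of supports
  let F : Set (Finset W) := {s | ∃ i, i ∉ Set.range j ∧ (c i).support = s}
  have hF : ¬ F.Countable := by
    intro hFc
    apply hB
    have h1 : (⋃ n : ℕ, ((c (j n)).support : Set W)).Countable :=
      countable_iUnion (fun n => (c (j n)).support.countable_toSet)
    have h2 : (⋃ s ∈ F, (s : Set W)).Countable := hFc.biUnion (fun s _ => s.countable_toSet)
    refine (h1.union h2).mono ?_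
    intro w hw
    obtain ⟨i, hi⟩ := mem_iUnion.mp hw
    by_cases hij : i ∈ Set.range j
    · obtain ⟨n, rfl⟩ := hij
      exact Or.inl (mem_iUnion.mpr ⟨n, hi⟩)
    · refine Or.inr ?_
      simp only [mem_iUnion, exists_prop]
      exact ⟨(c i).support, ⟨i, hij, rfl⟩, hi⟩
  obtain ⟨R, n, F₁, hF₁F, hn, hF₁, hF₁p, hF₁d⟩ := delta_refined F hF (Iio δ) (hc δ)
  have hRsub : ∀ A ∈ F₁, R ⊆ A := fun A hA => (hF₁p A hA).1
  have hge : ∀ A ∈ F₁, ∀ w ∈ A \ R, δ ≤ w := fun A hA w hw => not_lt.mp ((hF₁p A hA).2.2 w hw)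
  -- enumerations
  have hen : ∀ A ∈ F₁, ∃ ω : Fin n → W, Function.Injective ω ∧ ∀ w, w ∈ A \ R ↔ ∃ i, ω i = w := by
    intro A hA
    refine ⟨(A \ R).orderEmbOfFin (hF₁p A hA).2.1, (RelEmbedding.injective _), ?_⟩
    intro w
    rw [← Finset.mem_coe, ← Finset.range_orderEmbOfFin (A \ R) (hF₁p A hA).2.1]
    rfl
  have hWne : Nonempty W := ⟨δ⟩
  choose! ω hωi hωr using hen
  have hωmem : ∀ A ∈ F₁, ∀ i, ω A i ∈ A \ R := fun A hA i => (hωr A hA _).mpr ⟨i, rfl⟩
  -- pigeonhole on the types
  let C : Set (Iio δ → ℕ) := Set.range fun a : {a : W // δ ≤ a} =>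
        (fun ξ : Iio δ => d.e a.1 ξ.1)
  have hCn : {g : Fin n → (Iio δ → ℕ) | ∀ i, g i ∈ C}.Countable :=
    Set.countable_pi (fun _ => hcount δ)
  obtain ⟨τ, _, hF₂⟩ := pigeonhole hF₁ (fun A => fun i : Fin n => (fun ξ : Iio δ => d.e (ω A i) ξ.1))
    hCn (by
      intro A hA i
      exact ⟨⟨ω A i, hge A hA _ (hωmem A hA i)⟩, rfl⟩)
  set F₂ : Set (Finset W) := {A | A ∈ F₁ ∧
    (fun i : Fin n => (fun ξ : Iio δ => d.e (ω A i) ξ.1)) = τ} with hF₂def
  have hne : F₂.Nonempty := by
    by_contra hcon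
    rw [not_nonempty_iff_eq_empty] at hcon
    rw [hcon] at hF₂
    exact hF₂ countable_empty
  obtain ⟨A₀, hA₀⟩ := hne
  -- linear algebra
  let N : ℕ := n + R.card
  let z : Fin N → d.SpT := fun k => x (j k)
  let ev : (Fin N → ℝ) →ₗ[ℝ] (R → ℝ) :=
    { toFun := fun g w => ∑ k, g k * d.coord (z k) w.1
      map_add' := by
        intro g h
        funext w
        simp only [Pi.add_apply, add_mul, Finset.sum_add_distrib]
      map_smul' := by
        intro r g
        funext w
        simp only [Pi.smul_apply, smul_eq_mul, RingHom.id_apply, Finset.mul_sum, mul_assoc] }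
  have hrank : n ≤ Module.finrank ℝ (LinearMap.ker ev) := by
    have h1 := LinearMap.finrank_range_add_finrank_ker ev
    have h2 : Module.finrank ℝ (LinearMap.range ev) ≤ R.card := by
      have h3 := Submodule.finrank_le (LinearMap.range ev)
      rw [Module.finrank_fintype_fun_eq_card, Fintype.card_coe] at h3
      exact h3
    rw [Module.finrank_fintype_fun_eq_card, Fintype.card_fin] at h1
    omega
  obtain ⟨g, hgli, hgker⟩ : ∃ g : Fin n → (Fin N → ℝ), LinearIndependent ℝ g ∧
      ∀ l, ∀ w ∈ R, ∑ k, g l k * d.coord (z k) w = 0 := by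
    let b := Module.finBasis ℝ (LinearMap.ker ev)
    refine ⟨fun l => (b (Fin.castLE hrank l)).1, ?_, ?_⟩
    · have h1 : LinearIndependent ℝ (fun l : Fin n => b (Fin.castLE hrank l)) :=
        b.linearIndependent.comp _ (Fin.castLE_injective hrank)
      exact h1.map' (LinearMap.ker ev).subtype (Submodule.ker_subtype _)
    · intro l w hw
      have h1 : ev (b (Fin.castLE hrank l)).1 = 0 := (b (Fin.castLE hrank l)).2
      have h2 := congrFun h1 ⟨w, hw⟩
      exact h2
  -- the coordinate vectors of the combinations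
  let Y : Fin n → W → ℝ := fun l w => ∑ k, g l k * a k w
  have hYb : ∀ l, ∃ M, ∀ w, |Y l w| ≤ M := by
    intro l
    refine ⟨∑ k, |g l k| * ‖a k‖, fun w => ?_⟩
    refine (Finset.abs_sum_le_sum_abs _ _).trans (Finset.sum_le_sum fun k _ => ?_)
    rw [abs_mul]
    exact mul_le_mul_of_nonneg_left (PData.c0_abs_le (a k) w) (abs_nonneg _)
  have hYδ : ∀ l w, δ ≤ w → Y l w = 0 := by
    intro l w hw
    simp only [Y]
    exact Finset.sum_eq_zero (fun k _ => by rw [hδ' k w hw, mul_zero])
  have hPhiY : ∀ l w, d.Phi (Y l) w = ∑ k, g l k * d.coord (z k) w := by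
    intro l w
    simp only [Y]
    rw [d.Phi_sum w Finset.univ (g l) (fun k : Fin N => (a k : W → ℝ))
      (fun k => ⟨‖a k‖, PData.c0_abs_le (a k)⟩)]
    apply Finset.sum_congr rfl
    intro k _
    simp only [z]
    rw [← ha k, PData.coord_vec]
  -- linear independence of `Y`
  have hYli : ∀ μ : Fin n → ℝ, (∀ w, ∑ l, μ l * Y l w = 0) → ∀ l, μ l = 0 := by
    intro μ hμ
    have h1 : ∀ w, ∑ k : Fin N, (∑ l, μ l * g l k) * a k w = 0 := by
      intro w
      rw [← hμ w]
      simp only [Y, Finset.mul_sum, Finset.sum_mul]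
      rw [Finset.sum_comm]
      refine Finset.sum_congr rfl (fun l _ => Finset.sum_congr rfl (fun k _ => by ring))
    have h2 : ∑ k : Fin N, (∑ l, μ l * g l k) • a k = 0 := by
      ext w
      rw [ZeroAtInftyContinuousMap.zero_apply, ← h1 w]
      have hcoe : ∀ (s : Finset (Fin N)) (h : Fin N → C₀(W, ℝ)),
          (∑ k ∈ s, h k) w = ∑ k ∈ s, h k w := by
        intro s h
        induction s using Finset.induction_on with
        | empty => simp
        | insert k s hk ih => rw [Finset.sum_insert hk, Finset.sum_insert hk, ← ih]; rfl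
      rw [hcoe]
      rfl
    have h3 : ∑ k : Fin N, (∑ l, μ l * g l k) • z k = 0 := by
      have h4 := vec_sum d (fun k : Fin N => ∑ l, μ l * g l k) (fun k : Fin N => a k)
      rw [h2, PData.vec_zero] at h4
      rw [h4]
      exact Finset.sum_congr rfl (fun k _ => by simp only [z]; rw [ha k])
    have h5 : ∀ k₀ : Fin N, ∑ l, μ l * g l k₀ = 0 := by
      intro k₀
      have h6 := congrArg (f (j k₀)) h3
      rw [map_sum, map_zero] at h6
      rw [Finset.sum_eq_single k₀] at h6
      · rw [map_smul, hbi, smul_eq_mul, mul_one] at h6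
        exact h6
      · intro k _ hk
        rw [map_smul]
        simp only [z]
        rw [hbi' (j k₀) (j k) (fun h => hk (Fin.ext (j.injective h).symm)), smul_zero]
      · intro h
        exact absurd (Finset.mem_univ _) h
    have h7 : ∑ l, μ l • g l = 0 := by
      funext k
      simp only [Finset.sum_apply, Pi.smul_apply, smul_eq_mul, Pi.zero_apply]
      exact h5 k
    exact Fintype.linearIndependent_iff.mp hgli μ h7
  -- the series
  let b : Fin n → Fin n → ℕ → ℝ := fun i l => d.rd (ω A₀ i) (Y l)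
  have hrd : ∀ A ∈ F₂, ∀ i l, d.rd (ω A i) (Y l) = b i l := by
    intro A hA i l
    refine d.rd_congr (δ := δ) (hge A hA.1 _ (hωmem A hA.1 i)) (hge A₀ hA₀.1 _ (hωmem A₀ hA₀.1 i))
      ?_ (Y l) (hYδ l)
    intro β hβ
    have h1 := hA.2.trans hA₀.2.symm
    have h2 := congrFun (congrFun h1 i) ⟨β, hβ⟩
    exact h2
  refine tuple_lemma hT hT01 n F₂ (fun A i => d.t (ω A i)) b ?_ ?_ hF₂ ?_ ?_ ?_ ?_
  · intro i l
    obtain ⟨M, hM⟩ := hYb l
    exact ⟨M, d.rd_bound _ hM⟩
  · intro i
    rw [Fintype.linearIndependent_iff]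
    intro μ hμ
    apply hYli μ
    intro w
    by_cases hw : w < δ
    · have hlt : w < ω A₀ i := lt_of_lt_of_le hw (hge A₀ hA₀.1 _ (hωmem A₀ hA₀.1 i))
      have h1 := congrFun hμ (d.e (ω A₀ i) w)
      simp only [Finset.sum_apply, Pi.smul_apply, smul_eq_mul, Pi.zero_apply, b,
        d.rd_apply hlt] at h1
      exact h1
    · exact Finset.sum_eq_zero (fun l _ => by rw [hYδ l w (not_lt.mp hw), mul_zero])
  · intro A _ i
    exact htT _
  · intro A hA
    exact hti.comp (hωi A hA.1)
  · intro A hA B hB hne i h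
    have h1 := hti h
    have h2 := hωmem A hA.1 i
    have h3 := hωmem B hB.1 i
    rw [← h1] at h3
    exact Finset.disjoint_left.mp (hF₁d A hA.1 B hB.1 hne) h2 h3
  · intro A hA
    obtain ⟨i₀, hi₀, hsupp⟩ := hF₁F hA.1
    rw [← Matrix.exists_vecMul_eq_zero_iff]
    refine ⟨fun i => c i₀ (ω A i), ?_, ?_⟩
    · intro h
      have h1 := congrFun h ⟨0, hn⟩
      simp only [Pi.zero_apply] at h1
      have h2 := hωmem A hA.1 ⟨0, hn⟩
      have h3 : ω A ⟨0, hn⟩ ∈ (c i₀).support := by
        rw [hsupp]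
        exact (Finset.mem_sdiff.mp h2).1
      exact (Finsupp.mem_support_iff.mp h3) h1
    · funext l
      have hrel : ∑ w ∈ A, c i₀ w * d.Phi (Y l) w = 0 := by
        simp_rw [hPhiY]
        have h1 : ∀ k : Fin N, ∑ w ∈ A, c i₀ w * d.coord (z k) w = 0 := by
          intro k
          have h2 : f i₀ (z k) = 0 := hbi' i₀ (j k) (fun h => hi₀ ⟨k, h.symm⟩)
          rw [hcf i₀] at h2
          simp only [Finsupp.sum, hsupp] at h2
          exact h2
        simp_rw [Finset.mul_sum]
        rw [Finset.sum_comm]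
        apply Finset.sum_eq_zero
        intro k _
        have : ∀ w, c i₀ w * (g l k * d.coord (z k) w) = g l k * (c i₀ w * d.coord (z k) w) := by
          intro w; ring
        simp_rw [this]
        rw [← Finset.mul_sum, h1 k, mul_zero]
      have hsplit : ∑ w ∈ A \ R, c i₀ w * d.Phi (Y l) w = 0 := by
        rw [← Finset.sum_sdiff (hRsub A hA.1)] at hrel
        have h1 : ∑ w ∈ R, c i₀ w * d.Phi (Y l) w = 0 := by
          apply Finset.sum_eq_zero
          intro w hw
          rw [hPhiY, hgker l w hw, mul_zero]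
        rw [h1, add_zero] at hrel
        exact hrel
      have himg : A \ R = Finset.univ.image (ω A) := by
        ext w
        rw [hωr A hA.1 w]
        simp
      rw [himg, Finset.sum_image (fun p _ q _ h => hωi A hA.1 h)] at hsplit
      simp only [Matrix.vecMul, dotProduct, Matrix.of_apply, Pi.zero_apply]
      have hterm : ∀ i, c i₀ (ω A i) * d.Phi (Y l) (ω A i) =
          (1 / 16) * (c i₀ (ω A i) * Ex (b i l) (d.t (ω A i))) := by
        intro i
        unfold PData.Phi PData.rr
        rw [hYδ l _ (hge A hA.1 _ (hωmem A hA.1 i)), hrd A hA i l]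
        ring
      simp_rw [hterm] at hsplit
      rw [← Finset.mul_sum] at hsplit
      have h16 : (1 / 16 : ℝ) ≠ 0 := by norm_num
      exact (mul_eq_zero.mp hsplit).resolve_left h16

/-- No normal biorthogonal system in the space is total. -/
theorem not_total [Uncountable W] (hc : ∀ a : W, (Iio a).Countable) (d : PData W)
    (hcount : ∀ δ : W, (Set.range fun a : {a : W // δ ≤ a} =>
        (fun ξ : Iio δ => d.e a.1 ξ.1)).Countable)
    {T : Set ℝ} (hT : SuperSparse T) (hT01 : ∀ t ∈ T, 0 ≤ t ∧ t ≤ 1 / 2)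
    (htT : ∀ a, d.t a ∈ T) (hti : Function.Injective d.t)
    {I : Type*} (x : I → d.SpT) (f : I → d.SpT →L[ℝ] ℝ)
    (hbi : ∀ i, f i (x i) = 1) (hbi' : ∀ i j, i ≠ j → f i (x j) = 0)
    (hx : ∀ i, ‖x i‖ = 1) (hf : ∀ i, ‖f i‖ = 1) :
    ∃ y : d.SpT, y ≠ 0 ∧ ∀ i, f i y = 0 := by
  classical
  choose c hcf using fun i => d.support_functional (x i) (f i) (hx i) (hf i) (hbi i)
  have hB := countable_support_union hc d hcount hT hT01 htT hti x f hbi hbi' c hcf
  obtain ⟨δ, hδ⟩ := exists_upper hc hB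
  refine ⟨d.vec (PData.single δ), ?_, ?_⟩
  · intro h
    have h1 : d.coord (d.vec (PData.single δ)) δ = 0 := by rw [h]; rfl
    rw [PData.coord_vec, PData.Phi, d.rr_single_of_le (le_refl δ), PData.single_apply_self] at h1
    norm_num at h1
  · intro i
    rw [hcf i]
    apply Finset.sum_eq_zero
    intro w hw
    have hlt : w < δ := hδ w (mem_iUnion.mpr ⟨i, hw⟩)
    simp only
    rw [PData.coord_vec, PData.Phi, d.rr_single_of_le hlt.le, PData.single_apply_ne hlt.ne]
    ring

end Pool.Agent.Helper539.Auer
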