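import Mathlib

/-! Coherent injections on a well order with countable initial segments. -/

namespace Pool.Agent.Helper539.Auer

open Set

variable {W : Type*} [LinearOrder W] [WellFoundedLT W]

/-- a cofinal nondecreasing sequence below each non-minimal point -/
theorem exists_cofinal (hc : ∀ a : W, (Iio a).Countable) :
    ∃ c : W → ℕ → W, ∀ a ξ : W, ξ < a → (∀ n, c a n < a) ∧ ∃ n, ξ ≤ c a n := by
  classical
  have key : ∀ a : W, ∃ c : ℕ → W, ∀ ξ : W, ξ < a → (∀ n, c n < a) ∧ ∃ n, ξ ≤ c n := by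
    intro a
    by_cases hne : (Iio a).Nonempty
    · obtain ⟨f, hf⟩ := (hc a).exists_eq_range hne
      refine ⟨f, ?_⟩
      intro ξ hξ
      refine ⟨?_, ?_⟩
      · intro n
        have : f n ∈ Iio a := by rw [hf]; exact mem_range_self n
        exact this
      · have : ξ ∈ range f := by rw [← hf]; exact hξ
        obtain ⟨n, hn⟩ := this
        exact ⟨n, hn.ge⟩
    · refine ⟨fun _ => a, ?_⟩
      intro ξ hξ
      exact absurd ⟨ξ, hξ⟩ hne
  choose c hc using key
  exact ⟨c, hc⟩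

/-- the walk recursion -/
theorem exists_rho (c : W → ℕ → W) (hc : ∀ a ξ : W, ξ < a → (∀ n, c a n < a) ∧ ∃ n, ξ ≤ c a n) :
    ∃ ρ : W → W → ℕ, ∀ a ξ : W, ξ < a →
      ∃ n, ξ ≤ c a n ∧ (∀ m < n, c a m < ξ) ∧ ρ a ξ = max n (ρ (c a n) ξ) := by
  classical
  let F : (a : W) → ((b : W) → b < a → W → ℕ) → W → ℕ := fun a G ξ =>
    if h : ξ < a then
      max (Nat.find (hc a ξ h).2) (G (c a (Nat.find (hc a ξ h).2)) ((hc a ξ h).1 _) ξ)
    else 0
  let ρ : W → W → ℕ := WellFounded.fix (wellFounded_lt) F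
  have hρ : ∀ a, ρ a = F a (fun b _ => ρ b) := fun a => WellFounded.fix_eq _ _ _
  refine ⟨ρ, ?_⟩
  intro a ξ h
  refine ⟨Nat.find (hc a ξ h).2, Nat.find_spec (hc a ξ h).2, ?_, ?_⟩
  · intro m hm
    exact not_le.mp (Nat.find_min (hc a ξ h).2 hm)
  · have := congrFun (hρ a) ξ
    rw [this]
    simp only [F, h, dif_pos]

theorem rho_finite (c : W → ℕ → W)
    (hc : ∀ a ξ : W, ξ < a → (∀ n, c a n < a) ∧ ∃ n, ξ ≤ c a n)
    (ρ : W → W → ℕ) (hρ : ∀ a ξ : W, ξ < a →
      ∃ n, ξ ≤ c a n ∧ (∀ m < n, c a m < ξ) ∧ ρ a ξ = max n (ρ (c a n) ξ))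
    (a : W) : ∀ m : ℕ, {ξ | ξ < a ∧ ρ a ξ ≤ m}.Finite := by
  induction a using WellFoundedLT.induction with
  | ind a ih =>
    intro m
    by_cases hne : ∃ ξ, ξ < a
    · obtain ⟨ξ₀, hξ₀⟩ := hne
      have hlt := (hc a ξ₀ hξ₀).1
      have hfin : (⋃ n ∈ Set.Iic m, ({ξ | ξ < c a n ∧ ρ (c a n) ξ ≤ m} ∪ {c a n})).Finite := by
        refine Set.Finite.biUnion (Set.finite_Iic m) ?_
        intro n _
        exact (ih (c a n) (hlt n) m).union (Set.finite_singleton _)
      refine hfin.subset ?_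
      intro ξ hξ
      obtain ⟨hξa, hξm⟩ := hξ
      obtain ⟨n, h1, h2, h3⟩ := hρ a ξ hξa
      have hn : n ≤ m := le_trans (by rw [h3]; exact le_max_left _ _) hξm
      have hr : ρ (c a n) ξ ≤ m := le_trans (by rw [h3]; exact le_max_right _ _) hξm
      simp only [Set.mem_iUnion, Set.mem_union, Set.mem_setOf_eq, Set.mem_singleton_iff,
        Set.mem_Iic]
      refine ⟨n, hn, ?_⟩
      rcases lt_or_eq_of_le h1 with h | h
      · exact Or.inl ⟨h, hr⟩
      · exact Or.inr h
    · have : {ξ | ξ < a ∧ ρ a ξ ≤ m} = ∅ := by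
        ext ξ
        simp only [mem_setOf_eq, mem_empty_iff_false, iff_false, not_and]
        intro h
        exact absurd ⟨ξ, h⟩ hne
      rw [this]
      exact Set.finite_empty

theorem rho_coherent (c : W → ℕ → W)
    (hc : ∀ a ξ : W, ξ < a → (∀ n, c a n < a) ∧ ∃ n, ξ ≤ c a n)
    (ρ : W → W → ℕ) (hρ : ∀ a ξ : W, ξ < a →
      ∃ n, ξ ≤ c a n ∧ (∀ m < n, c a m < ξ) ∧ ρ a ξ = max n (ρ (c a n) ξ))
    (b : W) : ∀ a : W, a < b → {ξ | ξ < a ∧ ρ a ξ ≠ ρ b ξ}.Finite := by
  classical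
  induction b using WellFoundedLT.induction with
  | ind b ih =>
    intro a hab
    have hex := (hc b a hab).2
    have hlt := (hc b a hab).1
    set n := Nat.find hex with hn
    have hn1 : a ≤ c b n := Nat.find_spec hex
    have hn2 : ∀ m < n, c b m < a := fun m hm => not_le.mp (Nat.find_min hex hm)
    have hF1 : {ξ | ξ < a ∧ ρ a ξ ≤ n}.Finite := rho_finite c hc ρ hρ a n
    have hF2 : {ξ | ξ < a ∧ ρ a ξ ≠ ρ (c b n) ξ}.Finite := by
      rcases lt_or_eq_of_le hn1 with h | h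
      · exact ih (c b n) (hlt n) a h
      · rw [← h]; simp
    have hF3 : (⋃ m ∈ Set.Iio n,
        ({ξ | ξ < c b m ∧ ρ (c b m) ξ ≠ ρ a ξ} ∪ {c b m})).Finite := by
      refine Set.Finite.biUnion (Set.finite_Iio n) ?_
      intro m hm
      exact (ih a hab (c b m) (hn2 m hm)).union (Set.finite_singleton _)
    refine ((hF1.union hF2).union hF3).subset ?_
    intro ξ hξ
    obtain ⟨hξa, hne⟩ := hξ
    by_contra hcon
    simp only [Set.mem_union, not_or, Set.mem_setOf_eq, Set.mem_iUnion, not_and, not_le,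
      not_exists, Set.mem_singleton_iff, Set.mem_Iio, not_not] at hcon
    obtain ⟨⟨hA, hB⟩, hC⟩ := hcon
    have hA' := hA hξa
    have hB' := hB hξa
    obtain ⟨k, h1, h2, h3⟩ := hρ b ξ (hξa.trans hab)
    apply hne
    rcases lt_trichotomy k n with hkn | hkn | hkn
    · have hC' := hC k hkn
      have hlt' : ξ < c b k := lt_of_le_of_ne h1 hC'.2
      have heq := hC'.1 hlt'
      rw [h3, heq, max_eq_right (le_of_lt (lt_trans hkn hA'))]
    · rw [h3, hkn, ← hB', max_eq_right hA'.le]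
    · have := h2 n hkn
      exact absurd (lt_of_lt_of_le this hξa.le) (not_lt.mpr hn1)

/-- finite modifications of a fixed function on a countable type form a countable set -/
theorem countable_finite_mod {α : Type*} [Countable α] (f : α → ℕ) :
    {g : α → ℕ | {ξ | g ξ ≠ f ξ}.Finite}.Countable := by
  classical
  let φ : {g : α → ℕ | {ξ | g ξ ≠ f ξ}.Finite} → (α →₀ ℤ) := fun g =>
    Finsupp.onFinset g.2.toFinset (fun ξ => ((g.1 ξ : ℤ) - (f ξ : ℤ))) (by
      intro ξ hξ
      simp only [Set.Finite.mem_toFinset, Set.mem_setOf_eq]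
      intro h
      apply hξ
      rw [h]; simp)
  have hinj : Function.Injective φ := by
    intro g g' h
    apply Subtype.ext
    funext ξ
    have := DFunLike.congr_fun h ξ
    simp only [φ, Finsupp.onFinset_apply] at this
    omega
  exact Set.countable_coe_iff.mp hinj.countable

/-- Aronszajn-type family of injections. -/
theorem exists_coherent_injections (hcW : ∀ a : W, (Iio a).Countable) :
    ∃ e : W → W → ℕ, (∀ a, Set.InjOn (e a) (Iio a)) ∧
      ∀ d : W, (Set.range fun a : {a : W // d ≤ a} =>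
        (fun ξ : Iio d => e a.1 ξ.1)).Countable := by
  classical
  obtain ⟨c, hc⟩ := exists_cofinal hcW
  obtain ⟨ρ, hρ⟩ := exists_rho c hc
  have hfin := rho_finite c hc ρ hρ
  have hcoh := rho_coherent c hc ρ hρ
  let G : (W → ℕ) → W → ℕ := fun g ξ => Nat.pair (g ξ) {η | η < ξ ∧ g η = g ξ}.ncard
  refine ⟨fun a => G (ρ a), ?_, ?_⟩
  · intro a ξ hξ ξ' hξ' h
    simp only [G, Nat.pair_eq_pair] at h
    obtain ⟨h1, h2⟩ := h
    have hfinset : ∀ ζ, ζ < a → {η | η < ζ ∧ ρ a η = ρ a ζ}.Finite := by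
      intro ζ hζ
      refine (hfin a (ρ a ζ)).subset ?_
      intro η hη
      exact ⟨hη.1.trans hζ, hη.2.le⟩
    have aux : ∀ x y, x < a → y < a → x < y → ρ a x = ρ a y →
        {η | η < x ∧ ρ a η = ρ a x}.ncard < {η | η < y ∧ ρ a η = ρ a y}.ncard := by
      intro x y hx hy hxy hr
      apply Set.ncard_lt_ncard _ (hfinset y hy)
      refine ⟨?_, ?_⟩
      · intro η hη
        exact ⟨hη.1.trans hxy, hη.2.trans hr⟩
      · intro hsub
        have : x ∈ {η | η < x ∧ ρ a η = ρ a x} := hsub ⟨hxy, hr⟩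
        exact lt_irrefl _ this.1
    rcases lt_trichotomy ξ ξ' with hlt | heq | hgt
    · exact absurd h2 (ne_of_lt (aux ξ ξ' hξ hξ' hlt h1))
    · exact heq
    · exact absurd h2.symm (ne_of_lt (aux ξ' ξ hξ' hξ hgt h1.symm))
  · intro d
    haveI : Countable (Iio d) := (hcW d).to_subtype
    let ext : ((Iio d) → ℕ) → W → ℕ := fun g η => if h : η < d then g ⟨η, h⟩ else 0
    let H : ((Iio d) → ℕ) → ((Iio d) → ℕ) := fun g ξ => G (ext g) ξ.1
    have hcount := (countable_finite_mod (fun ξ : Iio d => ρ d ξ.1)).image H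
    refine hcount.mono ?_
    rintro _ ⟨⟨a, ha⟩, rfl⟩
    refine ⟨fun ξ => ρ a ξ.1, ?_, ?_⟩
    · rcases lt_or_eq_of_le ha with h | h
      · have := hcoh a d h
        refine Set.Finite.of_finite_image (f := Subtype.val) (this.subset ?_)
          Subtype.val_injective.injOn
        rintro _ ⟨ξ, hξ, rfl⟩
        exact ⟨ξ.2, fun hh => hξ hh.symm⟩
      · subst h; simp
    · funext ξ
      simp only [H, G]
      have h1 : ∀ η, η < d → ext (fun ξ : Iio d => ρ a ξ.1) η = ρ a η := by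
        intro η hη
        simp only [ext, hη, dif_pos]
      have h2 : ext (fun ξ : Iio d => ρ a ξ.1) ξ.1 = ρ a ξ.1 := h1 _ ξ.2
      rw [h2]
      congr 1
      congr 1
      ext η
      simp only [Set.mem_setOf_eq]
      constructor
      · rintro ⟨h3, h4⟩
        rw [h1 η (h3.trans ξ.2)] at h4
        exact ⟨h3, h4⟩
      · rintro ⟨h3, h4⟩
        rw [h1 η (h3.trans ξ.2)]
        exact ⟨h3, h4⟩

end Pool.Agent.Helper539.Auer
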