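import Mathlib

namespace Pool.Agent.Helper539

open SimpleGraph

/-- `Arrows F G H`: in every red/blue colouring of the edges of `F` (the red edges form the
subgraph `R`, the blue edges form `F \ R`) there is a red copy of `G` or a blue copy of `H`. -/
def Arrows {X V W : Type*} (F : SimpleGraph X) (G : SimpleGraph V) (H : SimpleGraph W) : Prop :=
  ∀ R : SimpleGraph X, R ≤ F → G ⊑ R ∨ H ⊑ (F \ R)

/-- The matching with `t` edges: the edge number `i` joins `(i, false)` and `(i, true)`. -/
def matchingGraph (t : ℕ) : SimpleGraph (Fin t × Bool) where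
  Adj a b := a.1 = b.1 ∧ a.2 ≠ b.2
  symm := ⟨fun _ _ h => ⟨h.1.symm, h.2.symm⟩⟩
  loopless := ⟨fun _ h => h.2 rfl⟩

/-- The size Ramsey number: the least number of edges of a finite graph `F` with
`F → (G, H)`. -/
noncomputable def sizeRamsey {V W : Type*} (G : SimpleGraph V) (H : SimpleGraph W) : ℕ :=
  sInf {m | ∃ (N : ℕ) (F : SimpleGraph (Fin N)), F.edgeSet.ncard = m ∧ Arrows F G H}

/-! ### Basic facts -/

theorem Arrows.of_iso {X X' V W : Type*} {F : SimpleGraph X} {F' : SimpleGraph X'}
    {G : SimpleGraph V} {H : SimpleGraph W} (e : F ≃g F') (h : Arrows F G H) :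
    Arrows F' G H := by
  intro R hR
  have hR' : R.comap e ≤ F := by
    intro x y hxy
    have := hR hxy
    exact e.map_adj_iff.1 this
  rcases h (R.comap e) hR' with h | h
  · left
    refine h.trans ⟨⟨⟨e, ?_⟩, e.injective⟩⟩
    intro a b hab
    exact hab
  · right
    refine h.trans ⟨⟨⟨e, ?_⟩, e.injective⟩⟩
    intro a b hab
    rw [SimpleGraph.sdiff_adj] at hab ⊢
    exact ⟨e.map_adj_iff.2 hab.1, fun h => hab.2 h⟩

theorem sizeRamsey_le {X V W : Type*} [Fintype X] {F : SimpleGraph X}
    {G : SimpleGraph V} {H : SimpleGraph W} (h : Arrows F G H) :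
    sizeRamsey G H ≤ F.edgeSet.ncard := by
  apply Nat.sInf_le
  let e := Fintype.equivFin X
  refine ⟨Fintype.card X, F.map e.toEmbedding, ?_, ?_⟩
  · rw [← Nat.card_coe_set_eq, ← Nat.card_coe_set_eq]
    exact Nat.card_congr (Iso.mapEdgeSet (Iso.map e F)).symm
  · exact h.of_iso (Iso.map e F)

theorem matchingGraph_isContained_iff {X : Type*} {B : SimpleGraph X} {t : ℕ} :
    matchingGraph t ⊑ B ↔
      ∃ f : Fin t × Bool → X, Function.Injective f ∧ ∀ i, B.Adj (f (i, false)) (f (i, true)) := by
  constructor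
  · rintro ⟨f⟩
    refine ⟨f, f.injective, fun i => ?_⟩
    have h : (matchingGraph t).Adj (i, false) (i, true) := ⟨rfl, Bool.false_ne_true⟩
    exact f.toHom.map_adj h
  · rintro ⟨f, hf, h⟩
    refine ⟨⟨⟨f, ?_⟩, hf⟩⟩
    rintro ⟨i, a⟩ ⟨j, b⟩ ⟨h1, h2⟩
    simp only at h1 h2
    subst h1
    cases a <;> cases b
    · exact absurd rfl h2
    · exact h i
    · exact (h i).symm
    · exact absurd rfl h2

theorem matchingGraph_zero_isContained {X : Type*} (B : SimpleGraph X) :
    matchingGraph 0 ⊑ B := by
  rw [matchingGraph_isContained_iff]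
  exact ⟨fun x => x.1.elim0, fun x => x.1.elim0, fun i => i.elim0⟩

/-- extend a matching by one more edge. -/
theorem matchingGraph_succ_isContained {X : Type*} {B : SimpleGraph X} {t : ℕ}
    (f : Fin t × Bool → X) (hf : Function.Injective f)
    (h : ∀ i, B.Adj (f (i, false)) (f (i, true))) {x y : X} (hxy : B.Adj x y)
    (hx : ∀ i, f i ≠ x) (hy : ∀ i, f i ≠ y) : matchingGraph (t + 1) ⊑ B := by
  rw [matchingGraph_isContained_iff]
  refine ⟨fun p => Fin.lastCases (motive := fun _ => X) (if p.2 then y else x)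
    (fun i => f (i, p.2)) p.1, ?_, ?_⟩
  · rintro ⟨i, a⟩ ⟨j, b⟩ hij
    simp only at hij
    induction i using Fin.lastCases with
    | last =>
      induction j using Fin.lastCases with
      | last =>
        simp only [Fin.lastCases_last] at hij
        cases a <;> cases b <;> simp_all
      | cast j =>
        simp only [Fin.lastCases_last, Fin.lastCases_castSucc] at hij
        exfalso
        cases a
        · exact hx _ hij.symm
        · exact hy _ hij.symm
    | cast i =>
      induction j using Fin.lastCases with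
      | last =>
        simp only [Fin.lastCases_last, Fin.lastCases_castSucc] at hij
        exfalso
        cases b
        · exact hx _ hij
        · exact hy _ hij
      | cast j =>
        simp only [Fin.lastCases_castSucc] at hij
        have := hf hij
        simp only [Prod.mk.injEq] at this
        simp [this.1, this.2]
  · intro i
    induction i using Fin.lastCases with
    | last => simpa using hxy
    | cast i => simpa using h i

/-- If `B` has no matching with `t` edges then its edges are covered by at most `2 * (t - 1)`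
vertices. -/
theorem exists_cover {X : Type*} {B : SimpleGraph X} {t : ℕ} (h : ¬ (matchingGraph t ⊑ B)) :
    ∃ S : Finset X, S.card + 2 ≤ 2 * t ∧ ∀ x y, B.Adj x y → x ∈ S ∨ y ∈ S := by
  classical
  -- least `s` with no matching of size `s`
  have hex : ∃ s, ¬ (matchingGraph s ⊑ B) := ⟨t, h⟩
  let s := Nat.find hex
  have hs : ¬ (matchingGraph s ⊑ B) := Nat.find_spec hex
  have hst : s ≤ t := Nat.find_min' hex h
  have hs0 : s ≠ 0 := by
    intro h0
    rw [h0] at hs
    exact hs (matchingGraph_zero_isContained B)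
  obtain ⟨r, hr⟩ := Nat.exists_eq_succ_of_ne_zero hs0
  have hr' : matchingGraph r ⊑ B := by
    by_contra hcon
    have := Nat.find_min' hex hcon
    change s ≤ r at this
    omega
  rw [matchingGraph_isContained_iff] at hr'
  obtain ⟨f, hf, hadj⟩ := hr'
  refine ⟨Finset.univ.image f, ?_, ?_⟩
  · have h1 : (Finset.univ.image f).card ≤ 2 * r := by
      refine Finset.card_image_le.trans ?_
      simp [Fintype.card_prod, mul_comm]
    omega
  · intro x y hxy
    by_contra hcon
    push Not at hcon
    apply hs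
    rw [hr]
    refine matchingGraph_succ_isContained f hf hadj hxy ?_ ?_
    · intro i hi
      exact hcon.1 (Finset.mem_image.2 ⟨i, Finset.mem_univ _, hi⟩)
    · intro i hi
      exact hcon.2 (Finset.mem_image.2 ⟨i, Finset.mem_univ _, hi⟩)

/-- A graph which still contains `G` after the deletion of any `2t` vertices arrows
`(G, tK₂)`. -/
theorem arrows_of_robust {X V : Type*} {F : SimpleGraph X} {G : SimpleGraph V} {t : ℕ}
    (h : ∀ S : Finset X, S.card ≤ 2 * t → ∃ φ : V → X, Function.Injective φ ∧
      (∀ v, φ v ∉ S) ∧ ∀ u v, G.Adj u v → F.Adj (φ u) (φ v)) :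
    Arrows F G (matchingGraph t) := by
  intro R hR
  by_cases hB : matchingGraph t ⊑ (F \ R)
  · exact Or.inr hB
  · left
    obtain ⟨S, hS, hcov⟩ := exists_cover hB
    obtain ⟨φ, hφ, hφS, hφadj⟩ := h S (by omega)
    refine ⟨⟨⟨φ, ?_⟩, hφ⟩⟩
    intro u v huv
    by_contra hcon
    have := hcov (φ u) (φ v) (by rw [SimpleGraph.sdiff_adj]; exact ⟨hφadj u v huv, hcon⟩)
    rcases this with h1 | h1
    · exact hφS _ h1
    · exact hφS _ h1

theorem arrows_one {V : Type*} (G : SimpleGraph V) : Arrows G G (matchingGraph 1) := by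
  intro R hR
  by_cases h : R = G
  · left
    rw [h]
    exact IsContained.refl G
  · right
    have : ∃ x y, G.Adj x y ∧ ¬ R.Adj x y := by
      by_contra hcon
      push Not at hcon
      exact h (le_antisymm hR (fun x y hxy => hcon x y hxy))
    obtain ⟨x, y, hxy, hn⟩ := this
    have h1 := matchingGraph_succ_isContained (B := G \ R) (t := 0) (fun x => x.1.elim0)
      (fun x => x.1.elim0) (fun i => i.elim0) (x := x) (y := y)
      (by rw [SimpleGraph.sdiff_adj]; exact ⟨hxy, hn⟩) (fun i => i.1.elim0) (fun i => i.1.elim0)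
    exact h1

/-- Disjoint union of hosts. -/
theorem Arrows.sum {X Y V : Type*} {F₁ : SimpleGraph X} {F₂ : SimpleGraph Y}
    {G : SimpleGraph V} {s t : ℕ} (h₁ : Arrows F₁ G (matchingGraph s))
    (h₂ : Arrows F₂ G (matchingGraph t)) : Arrows (F₁ ⊕g F₂) G (matchingGraph (s + t)) := by
  intro R hR
  let R₁ : SimpleGraph X := R.comap Sum.inl
  let R₂ : SimpleGraph Y := R.comap Sum.inr
  have hR₁ : R₁ ≤ F₁ := by
    intro x y hxy
    have := hR hxy
    simpa using this
  have hR₂ : R₂ ≤ F₂ := by
    intro x y hxy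
    have := hR hxy
    simpa using this
  rcases h₁ R₁ hR₁ with h | h
  · left
    exact h.trans ⟨⟨⟨Sum.inl, fun {a b} hab => hab⟩, Sum.inl_injective⟩⟩
  rcases h₂ R₂ hR₂ with h' | h'
  · left
    exact h'.trans ⟨⟨⟨Sum.inr, fun {a b} hab => hab⟩, Sum.inr_injective⟩⟩
  right
  rw [matchingGraph_isContained_iff] at h h' ⊢
  obtain ⟨f, hf, hfa⟩ := h
  obtain ⟨g, hg, hga⟩ := h'
  refine ⟨fun p => Fin.addCases (motive := fun _ => X ⊕ Y) (fun i => Sum.inl (f (i, p.2)))
    (fun i => Sum.inr (g (i, p.2))) p.1, ?_, ?_⟩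
  · rintro ⟨i, a⟩ ⟨j, b⟩ hij
    simp only at hij
    induction i using Fin.addCases with
    | left i =>
      induction j using Fin.addCases with
      | left j =>
        simp only [Fin.addCases_left, Sum.inl.injEq] at hij
        have := hf hij
        simp only [Prod.mk.injEq] at this
        simp [this.1, this.2]
      | right j =>
        simp at hij
    | right i =>
      induction j using Fin.addCases with
      | left j =>
        simp at hij
      | right j =>
        simp only [Fin.addCases_right, Sum.inr.injEq] at hij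
        have := hg hij
        simp only [Prod.mk.injEq] at this
        simp [this.1, this.2]
  · intro i
    induction i using Fin.addCases with
    | left i =>
      simp only [Fin.addCases_left]
      have := hfa i
      rw [SimpleGraph.sdiff_adj] at this ⊢
      refine ⟨by simpa using this.1, fun hh => this.2 hh⟩
    | right i =>
      simp only [Fin.addCases_right]
      have := hga i
      rw [SimpleGraph.sdiff_adj] at this ⊢
      refine ⟨by simpa using this.1, fun hh => this.2 hh⟩

theorem exists_arrows {V : Type*} [Fintype V] (G : SimpleGraph V) (t : ℕ) :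
    ∃ (N : ℕ) (F : SimpleGraph (Fin N)), Arrows F G (matchingGraph t) := by
  induction t with
  | zero =>
    refine ⟨0, ⊥, fun R _ => Or.inr (matchingGraph_zero_isContained _)⟩
  | succ t ih =>
    obtain ⟨N, F, hF⟩ := ih
    have h := hF.sum (arrows_one G)
    let e := Fintype.equivFin (Fin N ⊕ V)
    exact ⟨_, (F ⊕g G).map e.toEmbedding, h.of_iso (Iso.map e _)⟩

theorem exists_sizeRamsey {V : Type*} [Fintype V] (G : SimpleGraph V) (t : ℕ) :
    ∃ (N : ℕ) (F : SimpleGraph (Fin N)), F.edgeSet.ncard = sizeRamsey G (matchingGraph t) ∧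
      Arrows F G (matchingGraph t) := by
  have : sizeRamsey G (matchingGraph t) ∈
      {m | ∃ (N : ℕ) (F : SimpleGraph (Fin N)), F.edgeSet.ncard = m ∧
        Arrows F G (matchingGraph t)} := by
    apply Nat.sInf_mem
    obtain ⟨N, F, hF⟩ := exists_arrows G t
    exact ⟨_, N, F, rfl, hF⟩
  exact this

theorem sizeRamsey_add_le {V : Type*} [Fintype V] (G : SimpleGraph V) (s t : ℕ) :
    sizeRamsey G (matchingGraph (s + t)) ≤
      sizeRamsey G (matchingGraph s) + sizeRamsey G (matchingGraph t) := by
  obtain ⟨N, F, hF, hF'⟩ := exists_sizeRamsey G s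
  obtain ⟨N', F', hFF, hFF'⟩ := exists_sizeRamsey G t
  refine (sizeRamsey_le (hF'.sum hFF')).trans ?_
  rw [← hF, ← hFF, ← Nat.card_coe_set_eq, ← Nat.card_coe_set_eq, ← Nat.card_coe_set_eq,
    Nat.card_congr (edgeSetSumEquiv (G := F) (H := F')), Nat.card_sum]

/-- the sequence `t ↦ r̂(G, tK₂)` is subadditive. -/
theorem subadditive_sizeRamsey {V : Type*} [Fintype V] (G : SimpleGraph V) :
    Subadditive (fun t => (sizeRamsey G (matchingGraph t) : ℝ)) := by
  intro s t
  have := sizeRamsey_add_le G s t
  show (sizeRamsey G (matchingGraph (s + t)) : ℝ) ≤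
    (sizeRamsey G (matchingGraph s) : ℝ) + (sizeRamsey G (matchingGraph t) : ℝ)
  exact_mod_cast this

theorem bddBelow_sizeRamsey {V : Type*} (G : SimpleGraph V) :
    BddBelow (Set.range fun t : ℕ => (sizeRamsey G (matchingGraph t) : ℝ) / t) :=
  ⟨0, by rintro _ ⟨t, rfl⟩; positivity⟩

/-- The limit of `r̂(G, tK₂) / (t |E(G)|)` exists, and it is at most each of its terms. -/
theorem exists_limit {V : Type*} [Fintype V] (G : SimpleGraph V) :
    ∃ ρ : ℝ, Filter.Tendsto (fun t : ℕ =>
        (sizeRamsey G (matchingGraph t) : ℝ) / (t * G.edgeSet.ncard)) Filter.atTop (nhds ρ) ∧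
      0 ≤ ρ ∧
      ∀ t : ℕ, t ≠ 0 → ρ ≤ (sizeRamsey G (matchingGraph t) : ℝ) / (t * G.edgeSet.ncard) := by
  have h := subadditive_sizeRamsey G
  have hb := bddBelow_sizeRamsey G
  refine ⟨h.lim / G.edgeSet.ncard, ?_, ?_, ?_⟩
  · have := (h.tendsto_lim hb).div_const (G.edgeSet.ncard : ℝ)
    refine this.congr (fun t => ?_)
    rw [div_div]
  · refine div_nonneg ?_ (Nat.cast_nonneg _)
    exact ge_of_tendsto' (h.tendsto_lim hb) (fun t => by positivity)
  · intro t ht
    rw [← div_div]
    exact div_le_div_of_nonneg_right (h.lim_le_div hb ht) (Nat.cast_nonneg _)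

end Pool.Agent.Helper539
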