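import Pool.Agent.Helper539.Sparse

namespace Pool.Agent.Helper539

open Finset SimpleGraph

universe u

/-- the join of `G` with a complete graph on `s` new vertices. -/
def joinTop {V : Type*} (G : SimpleGraph V) (s : ℕ) : SimpleGraph (V ⊕ Fin s) where
  Adj x y := x ≠ y ∧ (∀ u v, x = Sum.inl u → y = Sum.inl v → G.Adj u v)
  symm := ⟨by
    rintro x y ⟨h1, h2⟩
    exact ⟨h1.symm, fun u v hu hv => (h2 v u hv hu).symm⟩⟩
  loopless := ⟨fun x h => h.1 rfl⟩

theorem joinTop_edge_card_le {V : Type*} [Fintype V] (G : SimpleGraph V) (s : ℕ) :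
    (joinTop G s).edgeSet.ncard ≤ G.edgeSet.ncard + (Fintype.card V + s) * s := by
  classical
  have hsub : (joinTop G s).edgeSet ⊆ (Sym2.map Sum.inl '' G.edgeSet) ∪
      (((univ : Finset ((V ⊕ Fin s) × Fin s)).image (fun p => s(p.1, Sum.inr p.2)) :
        Finset (Sym2 (V ⊕ Fin s))) : Set (Sym2 (V ⊕ Fin s))) := by
    intro e he
    induction e using Sym2.ind with
    | _ x y =>
      rw [mem_edgeSet] at he
      rcases y with v | j
      · rcases x with u | i
        · left
          exact ⟨s(u, v), he.2 u v rfl rfl, rfl⟩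
        · right
          rw [mem_coe, mem_image]
          exact ⟨(Sum.inl v, i), mem_univ _, Sym2.eq_swap⟩
      · right
        rw [mem_coe, mem_image]
        exact ⟨(x, j), mem_univ _, rfl⟩
  refine (Set.ncard_le_ncard hsub (Set.toFinite _)).trans ((Set.ncard_union_le _ _).trans ?_)
  refine Nat.add_le_add (Set.ncard_image_le (Set.toFinite _)) ?_
  rw [Set.ncard_coe_finset]
  refine card_image_le.trans ?_
  simp [card_univ]

theorem joinTop_arrows {V : Type*} [Fintype V] (G : SimpleGraph V) (t : ℕ) :
    Arrows (joinTop G (2 * t)) G (matchingGraph t) := by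
  classical
  apply arrows_of_robust
  intro S hS
  -- killed vertices of `G` and surviving spare vertices
  let Kd : Finset V := univ.filter (fun v => (Sum.inl v : V ⊕ Fin (2 * t)) ∈ S)
  let Sp : Finset (Fin (2 * t)) := univ.filter (fun i => (Sum.inr i : V ⊕ Fin (2 * t)) ∉ S)
  have hcard : Kd.card ≤ Sp.card := by
    have h1 := card_filter_add_card_filter_not (s := (univ : Finset (Fin (2 * t))))
      (fun i => (Sum.inr i : V ⊕ Fin (2 * t)) ∈ S)
    rw [card_univ, Fintype.card_fin] at h1
    have h2 : Kd.card + (univ.filter (fun i : Fin (2 * t) =>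
        (Sum.inr i : V ⊕ Fin (2 * t)) ∈ S)).card ≤ S.card := by
      have h3 : (Kd.map ⟨Sum.inl, Sum.inl_injective⟩ ∪ (univ.filter (fun i : Fin (2 * t) =>
        (Sum.inr i : V ⊕ Fin (2 * t)) ∈ S)).map ⟨Sum.inr, Sum.inr_injective⟩) ⊆ S := by
        intro x hx
        rw [mem_union, mem_map, mem_map] at hx
        rcases hx with ⟨a, ha, rfl⟩ | ⟨a, ha, rfl⟩
        · simpa [Kd] using ha
        · simpa using ha
      have h4 := card_le_card h3
      rw [card_union_of_disjoint, card_map, card_map] at h4
      · exact h4
      · rw [Finset.disjoint_left]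
        intro x hx hx'
        rw [mem_map] at hx hx'
        obtain ⟨a, _, rfl⟩ := hx
        obtain ⟨b, _, hb⟩ := hx'
        simp at hb
    simp only [Sp]
    omega
  obtain ⟨e⟩ : Nonempty (Kd ↪ Sp) := Function.Embedding.nonempty_of_card_le (by simpa using hcard)
  refine ⟨fun v => if h : v ∈ Kd then Sum.inr (e ⟨v, h⟩ : Fin (2 * t)) else Sum.inl v, ?_, ?_, ?_⟩
  · intro u v huv
    simp only at huv
    by_cases hu : u ∈ Kd
    · by_cases hv : v ∈ Kd
      · rw [dif_pos hu, dif_pos hv] at huv
        have := e.injective (Subtype.ext (Sum.inr_injective huv))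
        exact congrArg Subtype.val this
      · rw [dif_pos hu, dif_neg hv] at huv
        simp at huv
    · by_cases hv : v ∈ Kd
      · rw [dif_neg hu, dif_pos hv] at huv
        simp at huv
      · rw [dif_neg hu, dif_neg hv] at huv
        exact Sum.inl_injective huv
  · intro v
    by_cases hv : v ∈ Kd
    · simp only [dif_pos hv]
      have := (e ⟨v, hv⟩).2
      simp only [Sp, mem_filter] at this
      exact this.2
    · simp only [dif_neg hv]
      simpa [Kd] using hv
  · intro u v huv
    by_cases hu : u ∈ Kd
    · by_cases hv : v ∈ Kd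
      · simp only [dif_pos hu, dif_pos hv]
        refine ⟨?_, ?_⟩
        · intro h
          have := e.injective (Subtype.ext (Sum.inr_injective h))
          exact huv.ne (congrArg Subtype.val this)
        · intro a b ha
          simp at ha
      · simp only [dif_pos hu, dif_neg hv]
        refine ⟨by simp, ?_⟩
        intro a b ha
        simp at ha
    · by_cases hv : v ∈ Kd
      · simp only [dif_neg hu, dif_pos hv]
        refine ⟨by simp, ?_⟩
        intro a b _ hb
        simp at hb
      · simp only [dif_neg hu, dif_neg hv]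
        refine ⟨by simpa using huv.ne, ?_⟩
        intro a b ha hb
        rw [← Sum.inl_injective ha, ← Sum.inl_injective hb]
        exact huv

theorem two_mul_edges_le {V : Type*} [Fintype V] (G : SimpleGraph V) :
    2 * G.edgeSet.ncard ≤ Fintype.card V * Fintype.card V := by
  classical
  have h2 : G.edgeSet.ncard = G.edgeFinset.card := by
    rw [← Set.ncard_coe_finset]
    simp
  rw [h2, ← G.sum_degrees_eq_twice_card_edges]
  calc ∑ v, G.degree v ≤ ∑ _v : V, Fintype.card V :=
        Finset.sum_le_sum (fun v _ => (G.degree_lt_card_verts v).le)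
    _ = _ := by simp

theorem dense_case {V : Type*} [Fintype V] (G : SimpleGraph V) (K : ℕ) (hK : 1 ≤ K)
    (hm : K * Fintype.card V ≤ G.edgeSet.ncard) (hpos : 0 < G.edgeSet.ncard) :
    (sizeRamsey G (matchingGraph K) : ℝ) ≤ 7 / K * (K * G.edgeSet.ncard) := by
  have h1 := (sizeRamsey_le (joinTop_arrows G K)).trans (joinTop_edge_card_le G (2 * K))
  have h2 := two_mul_edges_le G
  set n := Fintype.card V
  set m := G.edgeSet.ncard
  have hn : 0 < n := by
    rcases Nat.eq_zero_or_pos n with h | h
    · rw [h] at h2
      omega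
    · exact h
  have hKn : 2 * K ≤ n := by
    have : (2 * K) * n ≤ n * n := by nlinarith
    exact Nat.le_of_mul_le_mul_right this hn
  have h3 : (sizeRamsey G (matchingGraph K) : ℝ) ≤ (m : ℝ) + (n + (2 * K : ℕ)) * (2 * K : ℕ) := by
    exact_mod_cast h1
  have hKR : (0 : ℝ) < K := by exact_mod_cast hK
  have hmR : (K : ℝ) * n ≤ m := by exact_mod_cast hm
  have hKnR : 2 * (K : ℝ) ≤ n := by exact_mod_cast hKn
  have h4 : 7 / (K : ℝ) * (K * m) = 7 * m := by
    field_simp
  rw [h4]
  refine h3.trans ?_
  push_cast
  nlinarith

/-- lower bound `r̂(G, tK₂) ≥ t d` for every degree `d` of `G`. -/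
theorem mul_degree_le {V : Type*} (G : SimpleGraph V) (v : V) (t : ℕ) :
    ∀ {X : Type u} [Fintype X] (F : SimpleGraph X), Arrows F G (matchingGraph t) →
      t * (G.neighborSet v).ncard ≤ F.edgeSet.ncard := by
  classical
  induction t with
  | zero =>
    intro X _ F _
    simp
  | succ t ih =>
    intro X _ F hF
    -- `G` is contained in `F`
    have hGF : G ⊑ F := by
      rcases hF F le_rfl with h | h
      · exact h
      · exfalso
        rw [matchingGraph_isContained_iff] at h
        obtain ⟨f, _, hf⟩ := h
        have := hf 0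
        rw [SimpleGraph.sdiff_adj] at this
        exact this.2 this.1
    obtain ⟨φ⟩ := hGF
    let x : X := φ v
    let F' : SimpleGraph X :=
      { Adj := fun a b => F.Adj a b ∧ a ≠ x ∧ b ≠ x
        symm := ⟨fun a b h => ⟨h.1.symm, h.2.2, h.2.1⟩⟩
        loopless := ⟨fun a h => F.loopless.irrefl a h.1⟩ }
    have hF'le : F' ≤ F := fun a b h => h.1
    have hF' : Arrows F' G (matchingGraph t) := by
      intro R hR
      rcases hF R (hR.trans hF'le) with h | h
      · exact Or.inl h
      · right
        rw [matchingGraph_isContained_iff] at h ⊢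
        obtain ⟨f, hf, hfa⟩ := h
        -- index of the edge through `x`
        obtain ⟨i₀, hi₀⟩ : ∃ i₀ : Fin (t + 1), ∀ i b, f (i, b) = x → i = i₀ := by
          by_cases hex : ∃ i b, f (i, b) = x
          · obtain ⟨i, b, hib⟩ := hex
            refine ⟨i, fun i' b' h' => ?_⟩
            have := hf (h'.trans hib.symm)
            exact congrArg Prod.fst this
          · push Not at hex
            exact ⟨0, fun i b h => absurd h (hex i b)⟩
        refine ⟨fun p => f (i₀.succAbove p.1, p.2), ?_, ?_⟩
        · rintro ⟨i, a⟩ ⟨j, b⟩ hij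
          have := hf hij
          simp only [Prod.mk.injEq] at this
          obtain ⟨h1, h2⟩ := this
          rw [Fin.succAbove_right_injective h1, h2]
        · intro i
          have h1 := hfa (i₀.succAbove i)
          rw [SimpleGraph.sdiff_adj] at h1 ⊢
          refine ⟨⟨h1.1, ?_, ?_⟩, h1.2⟩
          · intro h2
            exact Fin.succAbove_ne i₀ i (hi₀ _ _ h2)
          · intro h2
            exact Fin.succAbove_ne i₀ i (hi₀ _ _ h2)
    have hcard : F'.edgeSet.ncard + (F.neighborSet x).ncard ≤ F.edgeSet.ncard := by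
      have h1 : (F.incidenceSet x).ncard = (F.neighborSet x).ncard := by
        rw [← Nat.card_coe_set_eq, ← Nat.card_coe_set_eq]
        exact Nat.card_congr (F.incidenceSetEquivNeighborSet x)
      rw [← h1, ← Set.ncard_union_eq]
      · apply Set.ncard_le_ncard _ (Set.toFinite _)
        apply Set.union_subset
        · exact SimpleGraph.edgeSet_mono hF'le
        · exact F.incidenceSet_subset x
      · rw [Set.disjoint_left]
        intro e he he'
        induction e using Sym2.ind with
        | _ a b =>
          have h2 := he'.2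
          rw [mem_edgeSet] at he
          rw [Sym2.mem_iff] at h2
          rcases h2 with h2 | h2
          · exact he.2.1 h2.symm
          · exact he.2.2 h2.symm
    have hdeg : (G.neighborSet v).ncard ≤ (F.neighborSet x).ncard := by
      rw [← Nat.card_coe_set_eq, ← Nat.card_coe_set_eq]
      exact Nat.card_le_card_of_injective _ (φ.mapNeighborSet v).injective
    have := ih F' hF'
    calc (t + 1) * (G.neighborSet v).ncard = t * (G.neighborSet v).ncard +
          (G.neighborSet v).ncard := by ring
      _ ≤ F'.edgeSet.ncard + (F.neighborSet x).ncard := Nat.add_le_add this hdeg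
      _ ≤ F.edgeSet.ncard := hcard

theorem mul_degree_le_sizeRamsey {V : Type*} [Fintype V] (G : SimpleGraph V) (v : V) (t : ℕ) :
    t * (G.neighborSet v).ncard ≤ sizeRamsey G (matchingGraph t) := by
  obtain ⟨N, F, hF, hF'⟩ := exists_sizeRamsey G t
  rw [← hF]
  exact mul_degree_le G v t F hF'

end Pool.Agent.Helper539
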