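import Mathlib

set_option autoImplicit false

namespace Pool.Agent.Helper539.Dim

/-! ### A dense set of points in general position has only one realizer up to a permutation -/

section
variable {X : Type} {n : ℕ} {c : Fin n → X → ℚ} {L : Fin n → X → X → Prop}

private lemma bx_cross
    (htot : ∀ i x y, L i x y ∨ L i y x)
    (htrans : ∀ i x y z, L i x y → L i y z → L i x z)
    (hR : ∀ x y, (∀ k, c k x ≤ c k y) ↔ ∀ i, L i x y)
    {x y x' y' : X} (h1 : ∀ j, c j x ≤ c j y') (h2 : ∀ j, c j x' ≤ c j y) {i : Fin n}
    (h3 : ¬ L i x y) (h4 : ¬ L i x' y') : False := by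
  have a1 := (hR x y').mp h1 i
  have a2 := (hR x' y).mp h2 i
  have a3 : L i y x := (htot i x y).resolve_left h3
  exact h4 (htrans i _ _ _ (htrans i _ _ _ a2 a3) a1)

private lemma bx_wide
    (hpos : ∀ k x, 0 < c k x)
    (hdense : ∀ lo hi : Fin n → ℚ, (∀ k, 0 ≤ lo k ∧ lo k < hi k) →
      ∃ x, ∀ k, lo k < c k x ∧ c k x < hi k)
    (htot : ∀ i x y, L i x y ∨ L i y x)
    (htrans : ∀ i x y z, L i x y → L i y z → L i x z)
    (hR : ∀ x y, (∀ k, c k x ≤ c k y) ↔ ∀ i, L i x y)
    {k : Fin n} {x y z w : X}
    (hxy2 : ∀ j, j ≠ k → c j x < c j y)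
    (hw1 : ∀ j, j ≠ k → c j z < c j x) (hw2 : ∀ j, j ≠ k → c j y < c j w)
    {i i' : Fin n} (hi : ¬ L i x y) (hi' : ¬ L i' z w) : i = i' := by
  let sm : Fin n → ℚ := fun j => min (min (c j x) (c j y)) (min (c j z) (c j w))
  let bg : Fin n → ℚ := fun j => max (max (c j x) (c j y)) (max (c j z) (c j w))
  have sm_pos : ∀ j, 0 < sm j := fun j =>
    lt_min (lt_min (hpos _ _) (hpos _ _)) (lt_min (hpos _ _) (hpos _ _))
  have smx : ∀ j, sm j ≤ c j x := fun j => (min_le_left _ _).trans (min_le_left _ _)
  have smy : ∀ j, sm j ≤ c j y := fun j => (min_le_left _ _).trans (min_le_right _ _)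
  have smz : ∀ j, sm j ≤ c j z := fun j => (min_le_right _ _).trans (min_le_left _ _)
  have smw : ∀ j, sm j ≤ c j w := fun j => (min_le_right _ _).trans (min_le_right _ _)
  have bgx : ∀ j, c j x ≤ bg j := fun j => (le_max_left _ _).trans (le_max_left _ _)
  have bgy : ∀ j, c j y ≤ bg j := fun j => (le_max_right _ _).trans (le_max_left _ _)
  have bgz : ∀ j, c j z ≤ bg j := fun j => (le_max_left _ _).trans (le_max_right _ _)
  have bgw : ∀ j, c j w ≤ bg j := fun j => (le_max_right _ _).trans (le_max_right _ _)
  have hu : ∀ k', k' ≠ k → ∃ u : X, ((c k' x + c k' y) / 2 < c k' u ∧ c k' u < c k' y) ∧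
      ∀ j, j ≠ k' → c j u < sm j := by
    intro k' hk'
    obtain ⟨u, hu⟩ := hdense (fun j => if j = k' then (c k' x + c k' y) / 2 else 0)
      (fun j => if j = k' then c k' y else sm j) (by
        intro j
        by_cases hj : j = k'
        · simp only [hj, if_true]
          have := hxy2 k' hk'
          have := hpos k' x
          constructor <;> linarith
        · simp only [hj, if_false]
          exact ⟨le_rfl, sm_pos j⟩)
    refine ⟨u, ?_, ?_⟩
    · have := hu k'
      simpa using this
    · intro j hj
      have := (hu j).2
      simpa [hj] using this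
  have hv : ∀ k', k' ≠ k → ∃ v : X, (c k' x < c k' v ∧ c k' v < (c k' x + c k' y) / 2) ∧
      ∀ j, j ≠ k' → bg j < c j v := by
    intro k' hk'
    obtain ⟨v, hv⟩ := hdense (fun j => if j = k' then c k' x else bg j)
      (fun j => if j = k' then (c k' x + c k' y) / 2 else bg j + 1) (by
        intro j
        by_cases hj : j = k'
        · simp only [hj, if_true]
          have := hxy2 k' hk'
          have := hpos k' x
          constructor <;> linarith
        · simp only [hj, if_false]
          have := hpos j x
          have := bgx j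
          constructor <;> linarith)
    refine ⟨v, ?_, ?_⟩
    · have := hv k'
      simpa using this
    · intro j hj
      have := (hv j).1
      simpa [hj] using this
  choose u hu1 hu2 using hu
  choose v hv1 hv2 using hv
  -- the companions are reversed somewhere
  have hex : ∀ k' (hk' : k' ≠ k), ∃ i, ¬ L i (u k' hk') (v k' hk') := by
    intro k' hk'
    by_contra hcon
    push Not at hcon
    have := (hR _ _).mpr hcon k'
    have := (hu1 k' hk').1
    have := (hv1 k' hk').2
    linarith
  choose s hs using hex
  have crossuv : ∀ k' k'' (hk' : k' ≠ k) (hk'' : k'' ≠ k), k' ≠ k'' →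
      ∀ j, c j (u k' hk') ≤ c j (v k'' hk'') := by
    intro k' k'' hk' hk'' hne j
    by_cases h1 : j = k'
    · subst h1
      have a1 := (hu1 j hk').2
      have a2 := hv2 k'' hk'' j hne
      have a3 := bgy j
      linarith
    · by_cases h2 : j = k''
      · subst h2
        have a1 := hu2 k' hk' j h1
        have a2 := (hv1 j hk'').1
        have a3 := smx j
        linarith
      · have a1 := hu2 k' hk' j h1
        have a2 := hv2 k'' hk'' j h2
        have a3 := smx j
        have a4 := bgx j
        linarith
  have ux : ∀ k' (hk' : k' ≠ k), ∀ j, c j (u k' hk') ≤ c j y := by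
    intro k' hk' j
    by_cases h1 : j = k'
    · subst h1
      exact (hu1 j hk').2.le
    · exact ((hu2 k' hk' j h1).trans_le (smy j)).le
  have uw : ∀ k' (hk' : k' ≠ k), ∀ j, c j (u k' hk') ≤ c j w := by
    intro k' hk' j
    by_cases h1 : j = k'
    · subst h1
      exact ((hu1 j hk').2.trans (hw2 j hk')).le
    · exact ((hu2 k' hk' j h1).trans_le (smw j)).le
  have xv : ∀ k' (hk' : k' ≠ k), ∀ j, c j x ≤ c j (v k' hk') := by
    intro k' hk' j
    by_cases h1 : j = k'
    · subst h1
      exact (hv1 j hk').1.le
    · exact ((bgx j).trans_lt (hv2 k' hk' j h1)).le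
  have zv : ∀ k' (hk' : k' ≠ k), ∀ j, c j z ≤ c j (v k' hk') := by
    intro k' hk' j
    by_cases h1 : j = k'
    · subst h1
      exact ((hw1 j hk').trans (hv1 j hk').1).le
    · exact ((bgz j).trans_lt (hv2 k' hk' j h1)).le
  -- the two injections
  have key : ∀ i0 : Fin n, (∀ k' (hk' : k' ≠ k), i0 ≠ s k' hk') →
      Function.Injective (fun k' => if hk' : k' = k then i0 else s k' hk') := by
    intro i0 h0 p q hpq
    by_contra hne
    by_cases hp : p = k
    · have hq : q ≠ k := fun h => hne (hp.trans h.symm)
      simp only [hp, hq, dif_pos, dif_neg, not_false_eq_true] at hpq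
      exact h0 q hq hpq
    · by_cases hq : q = k
      · simp only [hp, hq, dif_pos, dif_neg, not_false_eq_true] at hpq
        exact h0 p hp hpq.symm
      · simp only [hp, hq, dif_neg, not_false_eq_true] at hpq
        have := hs q hq
        rw [← hpq] at this
        exact bx_cross htot htrans hR (crossuv p q hp hq hne) (crossuv q p hq hp (Ne.symm hne))
          (hs p hp) this
  have n1 : ∀ k' (hk' : k' ≠ k), i ≠ s k' hk' := by
    intro k' hk' h
    have := hs k' hk'
    rw [← h] at this
    exact bx_cross htot htrans hR (xv k' hk') (ux k' hk') hi this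
  have n2 : ∀ k' (hk' : k' ≠ k), i' ≠ s k' hk' := by
    intro k' hk' h
    have := hs k' hk'
    rw [← h] at this
    exact bx_cross htot htrans hR (zv k' hk') (uw k' hk') hi' this
  have b1 := (Finite.injective_iff_surjective.mp (key i n1)) i'
  obtain ⟨j, hj⟩ := b1
  by_cases hjk : j = k
  · simp only [hjk, dif_pos] at hj
    exact hj
  · simp only [hjk, dif_neg, not_false_eq_true] at hj
    exact (n2 j hjk hj.symm).elim

/-- A dense set of points in general position: every realizer with as many orders as there are
coordinates consists of the coordinate orders. -/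
theorem box_rigid
    (hpos : ∀ k x, 0 < c k x) (hinj : ∀ k x y, c k x = c k y → x = y)
    (hdense : ∀ lo hi : Fin n → ℚ, (∀ k, 0 ≤ lo k ∧ lo k < hi k) →
      ∃ x, ∀ k, lo k < c k x ∧ c k x < hi k)
    (htot : ∀ i x y, L i x y ∨ L i y x) (hanti : ∀ i x y, L i x y → L i y x → x = y)
    (htrans : ∀ i x y z, L i x y → L i y z → L i x z)
    (hR : ∀ x y, (∀ k, c k x ≤ c k y) ↔ ∀ i, L i x y) :
    ∃ σ : Equiv.Perm (Fin n), ∀ k x y, L (σ k) x y ↔ c k x ≤ c k y := by
  have hex : ∀ k x y, c k y < c k x → ∃ i, ¬ L i x y := by
    intro k x y h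
    by_contra hcon
    push Not at hcon
    have := (hR _ _).mpr hcon k
    linarith
  -- uniqueness of the reversing index
  have huniq : ∀ k x y x' y' i i', c k y < c k x → (∀ j, j ≠ k → c j x < c j y) →
      c k y' < c k x' → (∀ j, j ≠ k → c j x' < c j y') → ¬ L i x y → ¬ L i' x' y' → i = i' := by
    intro k x y x' y' i i' h1 h2 h3 h4 hi hi'
    obtain ⟨z, hz⟩ := hdense (fun j => if j = k then 2 else 0)
      (fun j => if j = k then 3 else min (c j x) (c j x')) (by
        intro j
        by_cases hj : j = k
        · simp only [hj, if_true]; norm_num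
        · simp only [hj, if_false]
          exact ⟨le_rfl, lt_min (hpos _ _) (hpos _ _)⟩)
    obtain ⟨w, hw⟩ := hdense (fun j => if j = k then 1 else max (c j y) (c j y'))
      (fun j => if j = k then 2 else max (c j y) (c j y') + 1) (by
        intro j
        by_cases hj : j = k
        · simp only [hj, if_true]; norm_num
        · simp only [hj, if_false]
          have := hpos j y
          have := le_max_left (c j y) (c j y')
          constructor <;> linarith)
    have hzk := hz k
    have hwk := hw k
    simp only [if_true] at hzk hwk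
    obtain ⟨i'', hi''⟩ := hex k z w (by linarith)
    have a1 : ∀ j, j ≠ k → c j z < c j x := by
      intro j hj
      have := (hz j).2
      simp only [hj, if_false] at this
      exact this.trans_le (min_le_left _ _)
    have a2 : ∀ j, j ≠ k → c j z < c j x' := by
      intro j hj
      have := (hz j).2
      simp only [hj, if_false] at this
      exact this.trans_le (min_le_right _ _)
    have a3 : ∀ j, j ≠ k → c j y < c j w := by
      intro j hj
      have := (hw j).1
      simp only [hj, if_false] at this
      exact (le_max_left _ _).trans_lt this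
    have a4 : ∀ j, j ≠ k → c j y' < c j w := by
      intro j hj
      have := (hw j).1
      simp only [hj, if_false] at this
      exact (le_max_right _ _).trans_lt this
    have e1 := bx_wide hpos hdense htot htrans hR h2 a1 a3 hi hi''
    have e2 := bx_wide hpos hdense htot htrans hR h4 a2 a4 hi' hi''
    rw [e1, e2]
  -- canonical pairs
  have hP : ∀ k : Fin n, ∃ x, (5 < c k x ∧ c k x < 6) ∧ ∀ j, j ≠ k → c j x < 2 := by
    intro k
    obtain ⟨x, hx⟩ := hdense (fun j => if j = k then 5 else 1) (fun j => if j = k then 6 else 2)
      (by intro j; by_cases hj : j = k <;> simp only [hj, if_true, if_false] <;> norm_num)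
    refine ⟨x, by simpa using hx k, fun j hj => ?_⟩
    have := (hx j).2
    simpa [hj] using this
  have hQ : ∀ k : Fin n, ∃ y, (4 < c k y ∧ c k y < 5) ∧ ∀ j, j ≠ k → 8 < c j y := by
    intro k
    obtain ⟨x, hx⟩ := hdense (fun j => if j = k then 4 else 8) (fun j => if j = k then 5 else 9)
      (by intro j; by_cases hj : j = k <;> simp only [hj, if_true, if_false] <;> norm_num)
    refine ⟨x, by simpa using hx k, fun j hj => ?_⟩
    have := (hx j).1
    simpa [hj] using this
  choose P hP1 hP2 using hP
  choose Q hQ1 hQ2 using hQ
  have hPQ1 : ∀ k, c k (Q k) < c k (P k) := fun k => by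
    have := (hP1 k).1
    have := (hQ1 k).2
    linarith
  have hPQ2 : ∀ k j, j ≠ k → c j (P k) < c j (Q k) := fun k j hj => by
    have := hP2 k j hj
    have := hQ2 k j hj
    linarith
  have hs : ∀ k, ∃ i, ¬ L i (P k) (Q k) := fun k => hex k _ _ (hPQ1 k)
  choose s hs using hs
  have hsty : ∀ k x y, c k y < c k x → (∀ j, j ≠ k → c j x < c j y) → ¬ L (s k) x y := by
    intro k x y h1 h2
    obtain ⟨i, hi⟩ := hex k x y h1
    have := huniq k _ _ _ _ _ _ h1 h2 (hPQ1 k) (hPQ2 k) hi (hs k)
    rw [← this]
    exact hi
  have hsinj : Function.Injective s := by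
    intro k k' h
    by_contra hne
    have hs' := hs k'
    rw [← h] at hs'
    refine bx_cross htot htrans hR ?_ ?_ (hs k) hs'
    · intro j
      by_cases h1 : j = k
      · subst h1
        have a1 := (hP1 j).2
        have a2 := hQ2 k' j hne
        linarith
      · by_cases h2 : j = k'
        · subst h2
          have a1 := hP2 k j h1
          have a2 := (hQ1 j).1
          linarith
        · have a1 := hP2 k j h1
          have a2 := hQ2 k' j h2
          linarith
    · intro j
      by_cases h1 : j = k'
      · subst h1
        have a1 := (hP1 j).2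
        have a2 := hQ2 k j (Ne.symm hne)
        linarith
      · by_cases h2 : j = k
        · subst h2
          have a1 := hP2 k' j h1
          have a2 := (hQ1 j).1
          linarith
        · have a1 := hP2 k' j h1
          have a2 := hQ2 k j h2
          linarith
  -- the coordinate orders
  have hord : ∀ k x y, c k x < c k y → L (s k) x y := by
    intro k x y h
    obtain ⟨z, hz⟩ := hdense (fun j => if j = k then c k x else max (c j x) (c j y))
      (fun j => if j = k then c k y else max (c j x) (c j y) + 1) (by
        intro j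
        by_cases hj : j = k
        · simp only [hj, if_true]
          exact ⟨(hpos _ _).le, h⟩
        · simp only [hj, if_false]
          have := hpos j x
          have := le_max_left (c j x) (c j y)
          constructor <;> linarith)
    have hzk := hz k
    simp only [if_true] at hzk
    have hzj : ∀ j, j ≠ k → max (c j x) (c j y) < c j z := by
      intro j hj
      have := (hz j).1
      simpa only [hj, if_false] using this
    have a1 : L (s k) x z := by
      refine (hR x z).mp (fun j => ?_) (s k)
      by_cases hj : j = k
      · rw [hj]; exact hzk.1.le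
      · exact ((le_max_left _ _).trans_lt (hzj j hj)).le
    have a2 : ¬ L (s k) y z := by
      refine hsty k y z hzk.2 (fun j hj => ?_)
      exact (le_max_right _ _).trans_lt (hzj j hj)
    exact htrans _ _ _ _ a1 ((htot _ _ _).resolve_left a2)
  refine ⟨Equiv.ofBijective s (Finite.injective_iff_bijective.mp hsinj), ?_⟩
  intro k x y
  simp only [Equiv.ofBijective_apply]
  constructor
  · intro h
    by_contra hcon
    push Not at hcon
    have h2 := hanti _ _ _ h (hord k y x hcon)
    rw [h2] at hcon
    exact lt_irrefl _ hcon
  · intro h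
    rcases h.lt_or_eq with h1 | h1
    · exact hord k x y h1
    · rw [hinj k x y h1]
      exact (htot (s k) y y).elim id id

end

end Pool.Agent.Helper539.Dim
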