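import Mathlib

set_option autoImplicit false

namespace Pool.Agent.Helper539.Dim

/-! ### A computable dense set of points in general position -/

/-- The level of the point with index `N`. -/
def lev (N : ℕ) : ℕ := N.unpair.1

/-- The scale of the point with index `N`. -/
def scl (N : ℕ) : ℕ := N.unpair.2.unpair.1

/-- The approximate `k`-th coordinate of the point with index `N`, in units of the scale. -/
def apx (k N : ℕ) : ℕ :=
  if k = 0 then N.unpair.2.unpair.2.unpair.1.unpair.1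
  else if k = 1 then N.unpair.2.unpair.2.unpair.1.unpair.2
  else if k = 2 then N.unpair.2.unpair.2.unpair.2.unpair.1
  else N.unpair.2.unpair.2.unpair.2.unpair.2

/-- Numerator of the `k`-th coordinate of the point with index `N`. -/
def num (k N : ℕ) : ℕ := apx k N * 3 ^ (N + 1) + 1

/-- Common denominator of the coordinates of the point with index `N`. -/
def den (N : ℕ) : ℕ := 2 ^ scl N * 3 ^ (N + 1)

/-- The `k`-th coordinate of the point with index `N`. -/
def xc (k N : ℕ) : ℚ := (num k N : ℚ) / (den N : ℚ)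

/-- The coordinate of the link with index `m`. -/
def gam (m : ℕ) : ℚ := 1 / 2 ^ (m + 1)

/-- The index of a point with given data. -/
def mk (l s a0 a1 a2 a3 : ℕ) : ℕ :=
  Nat.pair l (Nat.pair s (Nat.pair (Nat.pair a0 a1) (Nat.pair a2 a3)))

lemma lev_mk (l s a0 a1 a2 a3 : ℕ) : lev (mk l s a0 a1 a2 a3) = l := by simp [lev, mk]
lemma scl_mk (l s a0 a1 a2 a3 : ℕ) : scl (mk l s a0 a1 a2 a3) = s := by simp [scl, mk]
lemma apx_mk0 (l s a0 a1 a2 a3 : ℕ) : apx 0 (mk l s a0 a1 a2 a3) = a0 := by simp [apx, mk]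
lemma apx_mk1 (l s a0 a1 a2 a3 : ℕ) : apx 1 (mk l s a0 a1 a2 a3) = a1 := by simp [apx, mk]
lemma apx_mk2 (l s a0 a1 a2 a3 : ℕ) : apx 2 (mk l s a0 a1 a2 a3) = a2 := by simp [apx, mk]
lemma apx_mk3 (l s a0 a1 a2 a3 : ℕ) : apx 3 (mk l s a0 a1 a2 a3) = a3 := by simp [apx, mk]

lemma den_pos (N : ℕ) : 0 < den N := by unfold den; positivity

lemma num_pos (k N : ℕ) : 0 < num k N := by unfold num; omega

lemma xc_pos (k N : ℕ) : 0 < xc k N := by
  unfold xc
  have h1 := num_pos k N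
  have h2 := den_pos N
  positivity

lemma xc_eq (k N : ℕ) : xc k N = ((apx k N : ℚ) + 1 / 3 ^ (N + 1)) / 2 ^ scl N := by
  unfold xc num den
  push_cast
  field_simp

lemma xc_gt (k N : ℕ) : (apx k N : ℚ) / 2 ^ scl N < xc k N := by
  rw [xc_eq]
  apply div_lt_div_of_pos_right _ (by positivity)
  have : (0 : ℚ) < 1 / 3 ^ (N + 1) := by positivity
  linarith

lemma xc_lt (k N : ℕ) : xc k N < ((apx k N : ℚ) + 1) / 2 ^ scl N := by
  rw [xc_eq]
  apply div_lt_div_of_pos_right _ (by positivity)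
  have : (1 : ℚ) / 3 ^ (N + 1) < 1 := by
    rw [div_lt_one (by positivity)]
    exact one_lt_pow₀ (by norm_num) (by omega)
  linarith

lemma xc_inj_aux {k k' N N' : ℕ} (hlt : N < N') (h : xc k N = xc k' N') : False := by
  unfold xc at h
  rw [div_eq_div_iff (by have := den_pos N; positivity) (by have := den_pos N'; positivity)] at h
  have h' : num k N * den N' = num k' N' * den N := by exact_mod_cast h
  unfold den at h'
  obtain ⟨d, rfl⟩ : ∃ d, N' = N + 1 + d := ⟨N' - (N + 1), by omega⟩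
  have h1 : (num k N * 2 ^ scl (N + 1 + d) * 3 ^ d * 3) * 3 ^ (N + 1) =
      (num k' (N + 1 + d) * 2 ^ scl N) * 3 ^ (N + 1) := by
    have : 3 ^ (N + 1 + d + 1) = 3 ^ d * 3 * 3 ^ (N + 1) := by ring
    rw [this] at h'
    calc _ = num k N * (2 ^ scl (N + 1 + d) * (3 ^ d * 3 * 3 ^ (N + 1))) := by ring
      _ = _ := by rw [h']; ring
  have h2 := Nat.eq_of_mul_eq_mul_right (by positivity) h1
  have h3 : 3 ∣ num k' (N + 1 + d) * 2 ^ scl N := Dvd.intro_left _ h2
  have p3 : Nat.Prime 3 := by norm_num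
  rcases (p3.dvd_mul).mp h3 with h4 | h4
  · unfold num at h4
    have h5 : 3 ∣ apx k' (N + 1 + d) * 3 ^ (N + 1 + d + 1) :=
      Dvd.dvd.mul_left (dvd_pow_self 3 (by omega)) _
    omega
  · have := p3.dvd_of_dvd_pow h4
    omega

lemma xc_inj {k k' N N' : ℕ} (h : xc k N = xc k' N') : N = N' := by
  rcases lt_trichotomy N N' with h1 | h1 | h1
  · exact (xc_inj_aux h1 h).elim
  · exact h1
  · exact (xc_inj_aux h1 h.symm).elim

lemma gam_pos (m : ℕ) : 0 < gam m := by unfold gam; positivity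

lemma gam_anti {m m' : ℕ} (h : m < m') : gam m' < gam m := by
  unfold gam
  apply one_div_lt_one_div_of_lt (by positivity)
  exact pow_lt_pow_right₀ (by norm_num) (by omega)

lemma gam_inj {m m' : ℕ} (h : gam m = gam m') : m = m' := by
  rcases lt_trichotomy m m' with h1 | h1 | h1
  · exact absurd h (gam_anti h1).ne'
  · exact h1
  · exact absurd h (gam_anti h1).ne

lemma xc_ne_gam (k N m : ℕ) : xc k N ≠ gam m := by
  intro h
  unfold xc gam at h
  rw [div_eq_div_iff (by have := den_pos N; positivity) (by positivity)] at h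
  have h' : num k N * 2 ^ (m + 1) = 1 * den N := by exact_mod_cast h
  have p3 : Nat.Prime 3 := by norm_num
  have h3 : 3 ∣ num k N * 2 ^ (m + 1) := by
    rw [h', one_mul]
    unfold den
    exact Dvd.dvd.mul_left (dvd_pow_self 3 (by omega)) _
  rcases (p3.dvd_mul).mp h3 with h4 | h4
  · unfold num at h4
    have h5 : 3 ∣ apx k N * 3 ^ (N + 1) := Dvd.dvd.mul_left (dvd_pow_self 3 (by omega)) _
    omega
  · have := p3.dvd_of_dvd_pow h4
    omega

/-- Density of the points of a level. -/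
lemma dense (l : ℕ) (lo hi : ℕ → ℚ) (h : ∀ k < 4, 0 ≤ lo k ∧ lo k < hi k) :
    ∃ N, lev N = l ∧ ∀ k < 4, lo k < xc k N ∧ xc k N < hi k := by
  -- a scale fine enough for each coordinate
  have h1 : ∀ k < 4, ∃ s : ℕ, ∀ t, s ≤ t → (2 : ℚ) / 2 ^ t < hi k - lo k := by
    intro k hk
    have hp : 0 < (hi k - lo k) / 2 := by linarith [(h k hk).2]
    obtain ⟨s, hs⟩ := exists_pow_lt_of_lt_one hp (show (1 / 2 : ℚ) < 1 by norm_num)
    refine ⟨s, fun t ht => ?_⟩
    have h2 : (1 / 2 : ℚ) ^ t ≤ (1 / 2) ^ s := pow_le_pow_of_le_one (by norm_num) (by norm_num) ht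
    have h3 : (2 : ℚ) / 2 ^ t = 2 * (1 / 2) ^ t := by
      rw [one_div, inv_pow]; ring
    rw [h3]
    linarith
  obtain ⟨s0, h0⟩ := h1 0 (by norm_num)
  obtain ⟨s1, h1'⟩ := h1 1 (by norm_num)
  obtain ⟨s2, h2⟩ := h1 2 (by norm_num)
  obtain ⟨s3, h3⟩ := h1 3 (by norm_num)
  set s := s0 + s1 + s2 + s3 with hs
  have hsc : ∀ k < 4, (2 : ℚ) / 2 ^ s < hi k - lo k := by
    intro k hk
    interval_cases k
    · exact h0 s (by omega)
    · exact h1' s (by omega)
    · exact h2 s (by omega)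
    · exact h3 s (by omega)
  let a : ℕ → ℕ := fun k => ⌈lo k * 2 ^ s⌉₊
  refine ⟨mk l s (a 0) (a 1) (a 2) (a 3), lev_mk _ _ _ _ _ _, ?_⟩
  have ha : ∀ k < 4, apx k (mk l s (a 0) (a 1) (a 2) (a 3)) = a k := by
    intro k hk
    interval_cases k
    · exact apx_mk0 _ _ _ _ _ _
    · exact apx_mk1 _ _ _ _ _ _
    · exact apx_mk2 _ _ _ _ _ _
    · exact apx_mk3 _ _ _ _ _ _
  intro k hk
  have g1 := xc_gt k (mk l s (a 0) (a 1) (a 2) (a 3))
  have g2 := xc_lt k (mk l s (a 0) (a 1) (a 2) (a 3))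
  rw [scl_mk, ha k hk] at g1 g2
  have hpow : (0 : ℚ) < 2 ^ s := by positivity
  have e1 : lo k * 2 ^ s ≤ (a k : ℚ) := Nat.le_ceil _
  have e2 : (a k : ℚ) < lo k * 2 ^ s + 1 :=
    Nat.ceil_lt_add_one (by have := (h k hk).1; positivity)
  constructor
  · refine lt_of_le_of_lt ?_ g1
    rw [le_div_iff₀ hpow]
    exact e1
  · refine lt_of_lt_of_le g2 ?_
    have h4 := hsc k hk
    rw [div_le_iff₀ hpow]
    rw [div_lt_iff₀ hpow] at h4
    nlinarith

/-- Explicit test pairs: the point with large `a`-th coordinate and small other coordinates. -/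
def tu (l a : ℕ) : ℕ :=
  mk l 1 (if a = 0 then 1 else 0) (if a = 1 then 1 else 0) (if a = 2 then 1 else 0)
    (if a = 3 then 1 else 0)

/-- Explicit test pairs: the point with small `a`-th coordinate and large other coordinates. -/
def tw (l a : ℕ) : ℕ :=
  mk l 1 (if a = 0 then 0 else 1) (if a = 1 then 0 else 1) (if a = 2 then 0 else 1)
    (if a = 3 then 0 else 1)

lemma lev_tu (l a : ℕ) : lev (tu l a) = l := lev_mk _ _ _ _ _ _
lemma lev_tw (l a : ℕ) : lev (tw l a) = l := lev_mk _ _ _ _ _ _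

lemma apx_tu (l a k : ℕ) (hk : k < 4) : apx k (tu l a) = if a = k then 1 else 0 := by
  unfold tu
  interval_cases k
  · rw [apx_mk0]
  · rw [apx_mk1]
  · rw [apx_mk2]
  · rw [apx_mk3]

lemma apx_tw (l a k : ℕ) (hk : k < 4) : apx k (tw l a) = if a = k then 0 else 1 := by
  unfold tw
  interval_cases k
  · rw [apx_mk0]
  · rw [apx_mk1]
  · rw [apx_mk2]
  · rw [apx_mk3]

lemma scl_tu (l a : ℕ) : scl (tu l a) = 1 := scl_mk _ _ _ _ _ _
lemma scl_tw (l a : ℕ) : scl (tw l a) = 1 := scl_mk _ _ _ _ _ _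

lemma tu_tw_same (l a : ℕ) (ha : a < 4) : xc a (tw l a) < xc a (tu l a) := by
  have g1 := xc_gt a (tu l a)
  have g2 := xc_lt a (tw l a)
  rw [apx_tu l a a ha, scl_tu, if_pos rfl] at g1
  rw [apx_tw l a a ha, scl_tw, if_pos rfl] at g2
  norm_num at g1 g2
  linarith

lemma tu_tw_ne (l a k : ℕ) (hk : k < 4) (hne : a ≠ k) : xc k (tu l a) < xc k (tw l a) := by
  have g1 := xc_gt k (tw l a)
  have g2 := xc_lt k (tu l a)
  rw [apx_tw l a k hk, scl_tw, if_neg hne] at g1
  rw [apx_tu l a k hk, scl_tu, if_neg hne] at g2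
  norm_num at g1 g2
  linarith

end Pool.Agent.Helper539.Dim
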