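import Mathlib

set_option autoImplicit false

namespace Pool.Agent.Helper539.Dim

/-- The initial segment `x ↾ n` as a string. -/
def restrict (x : ℕ → ℕ) (n : ℕ) : List ℕ := (List.range n).map x

/-- A tree is a set of strings closed under initial segments. -/
def IsTree (T : Set (List ℕ)) : Prop := ∀ σ τ : List ℕ, σ <+: τ → τ ∈ T → σ ∈ T

/-- The set `[T]` of infinite paths through `T`. -/
def paths (T : Set (List ℕ)) : Set (ℕ → ℕ) := {x | ∀ n, restrict x n ∈ T}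

/-- `P` is a computably bounded `Π⁰₁` class. -/
def IsCBClass (P : Set (ℕ → ℕ)) : Prop :=
  ∃ T : Set (List ℕ), IsTree T ∧ ComputablePred (fun σ => σ ∈ T) ∧
    (∃ g : List ℕ → ℕ, Computable g ∧ ∀ σ i, σ ++ [i] ∈ T → i < g σ) ∧ P = paths T

/-- `(A, R)` is a computable partial ordering. -/
def IsComputablePoset (A : Set ℕ) (R : ℕ → ℕ → Prop) : Prop :=
  ComputablePred (fun a => a ∈ A) ∧ ComputablePred (fun p : ℕ × ℕ => R p.1 p.2) ∧
    (∀ a b, R a b → a ∈ A ∧ b ∈ A) ∧ (∀ a ∈ A, R a a) ∧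
    (∀ a b, R a b → R b a → a = b) ∧ (∀ a b c, R a b → R b c → R a c)

/-- `L` is a linear ordering of `A`. -/
def IsLinearOrdering (A : Set ℕ) (L : ℕ → ℕ → Prop) : Prop :=
  (∀ a b, L a b → a ∈ A ∧ b ∈ A) ∧ (∀ a b, L a b → L b a → a = b) ∧
    (∀ a b c, L a b → L b c → L a c) ∧ (∀ a ∈ A, ∀ b ∈ A, L a b ∨ L b a)

/-- `(L₁, …, Lₙ)` is a solution of the `n`-dimensionality problem for `(A, R)`. -/
def IsSolution (A : Set ℕ) (R : ℕ → ℕ → Prop) (n : ℕ) (L : Fin n → ℕ → ℕ → Prop) : Prop :=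
  (∀ i, IsLinearOrdering A (L i)) ∧ ∀ a b, R a b ↔ ∀ i, L i a b

open Classical in
/-- The characteristic function of the set of all `⟨i, ⟨a, b⟩⟩` with `a L_i b`. -/
noncomputable def codeOf {n : ℕ} (L : Fin n → ℕ → ℕ → Prop) : ℕ → ℕ := fun m =>
  if ∃ h : m.unpair.1 < n, L ⟨m.unpair.1, h⟩ m.unpair.2.unpair.1 m.unpair.2.unpair.2 then 1 else 0

/-- The class of solutions of the `n`-dimensionality problem for `(A, R)`. -/
def solutions (A : Set ℕ) (R : ℕ → ℕ → Prop) (n : ℕ) : Set (ℕ → ℕ) :=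
  {x | ∃ L : Fin n → ℕ → ℕ → Prop, IsSolution A R n L ∧ x = codeOf L}

/-- `Q` represents `P`: there is a degree-preserving bijection from `P` onto `Q`. -/
def Represents (Q P : Set (ℕ → ℕ)) : Prop :=
  ∃ F : P ≃ Q, ∀ f : P, TuringEquivalent (((F f : ℕ → ℕ)) : ℕ →. ℕ) ((f : ℕ → ℕ) : ℕ →. ℕ)

/-- `P` represents the solutions of the `n`-dimensionality problem for `(A, R)` up to the order of
the tuple: there are solutions `F f` (`f ∈ P`) such that every reordering `F f ∘ π` is a solution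
of the same Turing degree as `f`, and every solution is `F f ∘ π` for exactly one `f ∈ P` and
exactly one permutation `π` of the `n` places. -/
def RepresentsUpToOrder (P : Set (ℕ → ℕ)) (A : Set ℕ) (R : ℕ → ℕ → Prop) (n : ℕ) : Prop :=
  ∃ F : P → Fin n → ℕ → ℕ → Prop,
    (∀ (f : P) (π : Equiv.Perm (Fin n)), IsSolution A R n (F f ∘ π) ∧
      TuringEquivalent ((codeOf (F f ∘ π) : ℕ → ℕ) : ℕ →. ℕ) ((f : ℕ → ℕ) : ℕ →. ℕ)) ∧
    (∀ L : Fin n → ℕ → ℕ → Prop, IsSolution A R n L →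
      ∃! p : P × Equiv.Perm (Fin n), L = F p.1 ∘ p.2)

end Pool.Agent.Helper539.Dim
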