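import Mathlib
import Pool.Agent.Helper539.DimDefs
import Pool.Agent.Helper539.DimCoord
import Pool.Agent.Helper539.DimBox

set_option autoImplicit false

namespace Pool.Agent.Helper539.Dim

/-! ### The poset attached to a system of links -/

/-- The set of elements: boxes (even numbers) and links (odd numbers). -/
def AA (lk : ℕ → Option ℕ) : Set ℕ := {z | z % 2 = 0 ∨ (lk (z / 2)).isSome}

/-- The order between two points of boxes. -/
def rbb (N N' : ℕ) : Prop :=
  (lev N = lev N' ∧ xc 0 N ≤ xc 0 N' ∧ xc 1 N ≤ xc 1 N' ∧ xc 2 N ≤ xc 2 N' ∧ xc 3 N ≤ xc 3 N') ∨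
  (lev N < lev N' ∧ xc 3 N < xc 3 N')

/-- A point of a box is below a link. -/
def rbl (N m s : ℕ) : Prop :=
  xc 3 N < gam m ∧ (lev N < s / 3 ∨ (lev N = s / 3 ∧ (s % 3 ≠ 0 → xc 0 N < gam m) ∧
    (s % 3 ≠ 1 → xc 1 N < gam m) ∧ (s % 3 ≠ 2 → xc 2 N < gam m)))

/-- A link is below a point of a box. -/
def rlb (m N : ℕ) : Prop :=
  gam m < xc 3 N ∧ (m / 3 < lev N ∨ (m / 3 = lev N ∧ gam m < xc (m % 3) N))

/-- The order relation. -/
def RR (lk : ℕ → Option ℕ) (z z' : ℕ) : Prop :=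
  if z % 2 = 0 then
    if z' % 2 = 0 then rbb (z / 2) (z' / 2)
    else ∃ s, lk (z' / 2) = some s ∧ rbl (z / 2) (z' / 2) s
  else
    if z' % 2 = 0 then (lk (z / 2)).isSome ∧ rlb (z / 2) (z' / 2)
    else z = z' ∧ (lk (z / 2)).isSome

/-- The axis of the box `l` that carries the colour `k`. -/
def ax (c : ℕ → ℕ) (l k : ℕ) : ℕ := if c (3 * l) = k then 0 else if c (3 * l + 1) = k then 1 else 2

/-- The position of the element `z` in the `k`-th linear order. -/
def key (lk : ℕ → Option ℕ) (c : ℕ → ℕ) (k z : ℕ) : ℕ ×ₗ ℚ :=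
  if z % 2 = 0 then
    if k = 3 then toLex (0, xc 3 (z / 2))
    else toLex (lev (z / 2), xc (ax c (lev (z / 2)) k) (z / 2))
  else
    if k = 3 then toLex (0, gam (z / 2))
    else toLex ((if c (z / 2) = k then z / 2 / 3 else (lk (z / 2)).getD 0 / 3), gam (z / 2))

/-- A system of colours respecting the links. -/
structure Good (lk : ℕ → Option ℕ) (c : ℕ → ℕ) : Prop where
  lt : ∀ m, c m < 3
  inj : ∀ l a b, a < 3 → b < 3 → c (3 * l + a) = c (3 * l + b) → a = b
  link : ∀ m s, lk m = some s → c m = c s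

/-- The `k`-th linear order attached to a system of colours. -/
def LL (lk : ℕ → Option ℕ) (c : ℕ → ℕ) (k z z' : ℕ) : Prop :=
  z ∈ AA lk ∧ z' ∈ AA lk ∧ key lk c k z ≤ key lk c k z'

variable {lk : ℕ → Option ℕ}

lemma ev_mem (N : ℕ) : 2 * N ∈ AA lk := Or.inl (by omega)

lemma odd_mem {m : ℕ} : 2 * m + 1 ∈ AA lk ↔ (lk m).isSome := by
  unfold AA
  have h1 : (2 * m + 1) / 2 = m := by omega
  show (2 * m + 1) % 2 = 0 ∨ (lk ((2 * m + 1) / 2)).isSome ↔ _
  rw [h1]
  constructor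
  · rintro (h | h)
    · omega
    · exact h
  · exact Or.inr

lemma RR_bb (N N' : ℕ) : RR lk (2 * N) (2 * N') ↔ rbb N N' := by
  unfold RR
  rw [if_pos (by omega), if_pos (by omega), Nat.mul_div_cancel_left _ (by norm_num),
    Nat.mul_div_cancel_left _ (by norm_num)]

lemma RR_bl {N m s : ℕ} (hs : lk m = some s) : RR lk (2 * N) (2 * m + 1) ↔ rbl N m s := by
  unfold RR
  have h1 : (2 * m + 1) / 2 = m := by omega
  rw [if_pos (by omega), if_neg (by omega), Nat.mul_div_cancel_left _ (by norm_num), h1]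
  constructor
  · rintro ⟨s', h2, h3⟩
    rw [hs, Option.some.injEq] at h2
    rw [h2]; exact h3
  · intro h
    exact ⟨s, hs, h⟩

lemma RR_lb {N m s : ℕ} (hs : lk m = some s) : RR lk (2 * m + 1) (2 * N) ↔ rlb m N := by
  unfold RR
  have h1 : (2 * m + 1) / 2 = m := by omega
  rw [if_neg (by omega), if_pos (by omega), Nat.mul_div_cancel_left _ (by norm_num), h1, hs]
  simp

lemma RR_ll {m m' : ℕ} : RR lk (2 * m + 1) (2 * m' + 1) ↔ m = m' ∧ (lk m).isSome := by
  unfold RR
  have h1 : (2 * m + 1) / 2 = m := by omega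
  rw [if_neg (by omega), if_neg (by omega), h1]
  constructor
  · rintro ⟨h2, h3⟩
    exact ⟨by omega, h3⟩
  · rintro ⟨h2, h3⟩
    exact ⟨by omega, h3⟩

lemma key_b3 (c : ℕ → ℕ) (N : ℕ) : key lk c 3 (2 * N) = toLex (0, xc 3 N) := by
  unfold key
  rw [if_pos (by omega), if_pos rfl, Nat.mul_div_cancel_left _ (by norm_num)]

lemma key_b (c : ℕ → ℕ) {k : ℕ} (hk : k < 3) (N : ℕ) :
    key lk c k (2 * N) = toLex (lev N, xc (ax c (lev N) k) N) := by
  unfold key
  rw [if_pos (by omega), if_neg (by omega), Nat.mul_div_cancel_left _ (by norm_num)]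

lemma key_l3 (c : ℕ → ℕ) (m : ℕ) : key lk c 3 (2 * m + 1) = toLex (0, gam m) := by
  unfold key
  have h1 : (2 * m + 1) / 2 = m := by omega
  rw [if_neg (by omega), if_pos rfl, h1]

lemma key_l (c : ℕ → ℕ) {k : ℕ} (hk : k < 3) {m s : ℕ} (hs : lk m = some s) :
    key lk c k (2 * m + 1) = toLex ((if c m = k then m / 3 else s / 3), gam m) := by
  unfold key
  have h1 : (2 * m + 1) / 2 = m := by omega
  rw [if_neg (by omega), if_neg (by omega), h1, hs]
  simp

lemma le_key {a b : ℕ} {p q : ℚ} :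
    (toLex (a, p) : ℕ ×ₗ ℚ) ≤ toLex (b, q) ↔ a < b ∨ (a = b ∧ p ≤ q) := by
  rw [Prod.Lex.toLex_le_toLex]

lemma ax_lt (c : ℕ → ℕ) (l k : ℕ) : ax c l k < 3 := by
  unfold ax
  split_ifs <;> norm_num

lemma Good.surj {c : ℕ → ℕ} (h : Good lk c) (l : ℕ) {k : ℕ} (hk : k < 3) :
    ∃ a < 3, c (3 * l + a) = k := by
  have h0 := h.lt (3 * l + 0)
  have h1 := h.lt (3 * l + 1)
  have h2 := h.lt (3 * l + 2)
  have n01 : c (3 * l + 0) ≠ c (3 * l + 1) := fun e => by
    have := h.inj l 0 1 (by norm_num) (by norm_num) e; omega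
  have n02 : c (3 * l + 0) ≠ c (3 * l + 2) := fun e => by
    have := h.inj l 0 2 (by norm_num) (by norm_num) e; omega
  have n12 : c (3 * l + 1) ≠ c (3 * l + 2) := fun e => by
    have := h.inj l 1 2 (by norm_num) (by norm_num) e; omega
  by_cases e0 : c (3 * l + 0) = k
  · exact ⟨0, by norm_num, e0⟩
  by_cases e1 : c (3 * l + 1) = k
  · exact ⟨1, by norm_num, e1⟩
  · exact ⟨2, by norm_num, by omega⟩

lemma Good.ax_eq {c : ℕ → ℕ} (h : Good lk c) {l k a : ℕ} (ha : a < 3) (hc : c (3 * l + a) = k) :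
    ax c l k = a := by
  unfold ax
  split_ifs with h0 h1
  · exact h.inj l 0 a (by norm_num) ha (by rw [hc]; simpa using h0)
  · exact h.inj l 1 a (by norm_num) ha (by rw [hc]; exact h1)
  · interval_cases a
    · exact (h0 (by simpa using hc)).elim
    · exact (h1 hc).elim
    · rfl

lemma Good.c_ax {c : ℕ → ℕ} (h : Good lk c) (l : ℕ) {k : ℕ} (hk : k < 3) :
    c (3 * l + ax c l k) = k := by
  obtain ⟨a, ha, e⟩ := h.surj l hk
  rw [h.ax_eq ha e, e]

lemma key_snd_even (c : ℕ → ℕ) (k N : ℕ) : ∃ j, (ofLex (key lk c k (2 * N))).2 = xc j N := by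
  unfold key
  rw [if_pos (by omega), Nat.mul_div_cancel_left _ (by norm_num)]
  split_ifs
  · exact ⟨3, rfl⟩
  · exact ⟨_, rfl⟩

lemma key_snd_odd (c : ℕ → ℕ) (k m : ℕ) : (ofLex (key lk c k (2 * m + 1))).2 = gam m := by
  unfold key
  have h1 : (2 * m + 1) / 2 = m := by omega
  rw [if_neg (by omega), h1]
  split_ifs <;> rfl

lemma ev_or_odd (z : ℕ) : (∃ N, z = 2 * N) ∨ ∃ m, z = 2 * m + 1 := by
  rcases Nat.even_or_odd' z with ⟨N, h | h⟩
  · exact Or.inl ⟨N, h⟩
  · exact Or.inr ⟨N, h⟩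

lemma key_inj (c : ℕ → ℕ) (k : ℕ) {z z' : ℕ} (h : key lk c k z = key lk c k z') : z = z' := by
  rcases ev_or_odd z with ⟨N, rfl⟩ | ⟨m, rfl⟩ <;> rcases ev_or_odd z' with ⟨N', rfl⟩ | ⟨m', rfl⟩
  · obtain ⟨j, hj⟩ := key_snd_even (lk := lk) c k N
    obtain ⟨j', hj'⟩ := key_snd_even (lk := lk) c k N'
    rw [h, hj'] at hj
    rw [xc_inj hj]
  · obtain ⟨j, hj⟩ := key_snd_even (lk := lk) c k N
    rw [h, key_snd_odd] at hj
    exact (xc_ne_gam _ _ _ hj.symm).elim
  · obtain ⟨j, hj⟩ := key_snd_even (lk := lk) c k N'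
    rw [← h, key_snd_odd] at hj
    exact (xc_ne_gam _ _ _ hj.symm).elim
  · have := key_snd_odd (lk := lk) c k m
    rw [h, key_snd_odd] at this
    rw [gam_inj this]

lemma LL_linear (lk : ℕ → Option ℕ) (c : ℕ → ℕ) (k : ℕ) :
    IsLinearOrdering (AA lk) (LL lk c k) := by
  refine ⟨fun a b h => ⟨h.1, h.2.1⟩, fun a b h h' => ?_, fun a b d h h' => ?_, fun a ha b hb => ?_⟩
  · exact key_inj c k (le_antisymm h.2.2 h'.2.2)
  · exact ⟨h.1, h'.2.1, h.2.2.trans h'.2.2⟩
  · rcases le_total (key lk c k a) (key lk c k b) with h | h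
    · exact Or.inl ⟨ha, hb, h⟩
    · exact Or.inr ⟨hb, ha, h⟩

private lemma le_iff_lt_xg {k N m : ℕ} : xc k N ≤ gam m ↔ xc k N < gam m :=
  ⟨fun h => lt_of_le_of_ne h (xc_ne_gam _ _ _), le_of_lt⟩

private lemma le_iff_lt_gx {k N m : ℕ} : gam m ≤ xc k N ↔ gam m < xc k N :=
  ⟨fun h => lt_of_le_of_ne h (xc_ne_gam _ _ _).symm, le_of_lt⟩

lemma forall_lt_three {p : ℕ → Prop} : (∀ k < 3, p k) ↔ p 0 ∧ p 1 ∧ p 2 := by
  constructor
  · intro h
    exact ⟨h 0 (by norm_num), h 1 (by norm_num), h 2 (by norm_num)⟩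
  · rintro ⟨h0, h1, h2⟩ k hk
    interval_cases k <;> assumption

lemma sol_bb {c : ℕ → ℕ} (hc : Good lk c) (N N' : ℕ) :
    rbb N N' ↔ key lk c 3 (2 * N) ≤ key lk c 3 (2 * N') ∧
      ∀ k < 3, key lk c k (2 * N) ≤ key lk c k (2 * N') := by
  rw [key_b3, key_b3, le_key]
  have hk : (∀ k < 3, key lk c k (2 * N) ≤ key lk c k (2 * N')) ↔ ∀ k < 3,
      (lev N < lev N' ∨ (lev N = lev N' ∧ xc (ax c (lev N) k) N ≤ xc (ax c (lev N') k) N')) := by
    constructor
    · intro h k hk
      have := h k hk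
      rwa [key_b c hk, key_b c hk, le_key] at this
    · intro h k hk
      rw [key_b c hk, key_b c hk, le_key]
      exact h k hk
  rw [hk]
  constructor
  · rintro (⟨h1, h2, h3, h4, h5⟩ | ⟨h1, h2⟩)
    · refine ⟨Or.inr ⟨rfl, h5⟩, fun k hk => Or.inr ⟨h1, ?_⟩⟩
      rw [← h1]
      have hall : ∀ a < 3, xc a N ≤ xc a N' := forall_lt_three.mpr ⟨h2, h3, h4⟩
      exact hall _ (ax_lt c (lev N) k)
    · exact ⟨Or.inr ⟨rfl, h2.le⟩, fun k hk => Or.inl h1⟩
  · rintro ⟨h1, h2⟩
    have h3 : xc 3 N ≤ xc 3 N' := by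
      rcases h1 with h1 | h1
      · omega
      · exact h1.2
    rcases h2 0 (by norm_num) with h4 | ⟨h4, -⟩
    · refine Or.inr ⟨h4, lt_of_le_of_ne h3 (fun e => ?_)⟩
      rw [xc_inj e] at h4
      exact lt_irrefl _ h4
    · refine Or.inl ⟨h4, ?_⟩
      have h5 : ∀ a < 3, xc a N ≤ xc a N' := by
        intro a ha
        have h6 := h2 (c (3 * lev N + a)) (hc.lt _)
        rw [← h4, hc.ax_eq ha rfl] at h6
        rcases h6 with h6 | h6
        · omega
        · exact h6.2
      rw [forall_lt_three] at h5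
      exact ⟨h5.1, h5.2.1, h5.2.2, h3⟩

lemma exists_ne_lt_three (x : ℕ) : ∃ k < 3, k ≠ x := by
  by_cases h : x = 0
  · exact ⟨1, by norm_num, by omega⟩
  · exact ⟨0, by norm_num, by omega⟩

lemma sol_bl {c : ℕ → ℕ} (hc : Good lk c) (hlk : ∀ m s, lk m = some s → s / 3 < m / 3)
    {N m s : ℕ} (hs : lk m = some s) :
    rbl N m s ↔ key lk c 3 (2 * N) ≤ key lk c 3 (2 * m + 1) ∧
      ∀ k < 3, key lk c k (2 * N) ≤ key lk c k (2 * m + 1) := by
  rw [key_b3, key_l3, le_key]
  have hk : (∀ k < 3, key lk c k (2 * N) ≤ key lk c k (2 * m + 1)) ↔ ∀ k < 3,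
      (lev N < (if c m = k then m / 3 else s / 3) ∨
      (lev N = (if c m = k then m / 3 else s / 3) ∧ xc (ax c (lev N) k) N ≤ gam m)) := by
    constructor
    · intro h k hk
      have := h k hk
      rwa [key_b c hk, key_l c hk hs, le_key] at this
    · intro h k hk
      rw [key_b c hk, key_l c hk hs, le_key]
      exact h k hk
  rw [hk]
  have hlt := hlk m s hs
  have hcs := hc.link m s hs
  constructor
  · rintro ⟨h1, h2⟩
    refine ⟨Or.inr ⟨rfl, h1.le⟩, fun k hk => ?_⟩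
    rcases h2 with h2 | ⟨h2, h3, h4, h5⟩
    · left
      split_ifs
      · omega
      · exact h2
    · by_cases hck : c m = k
      · left
        rw [if_pos hck]
        omega
      · right
        rw [if_neg hck]
        refine ⟨h2, ?_⟩
        have h6 := hc.c_ax (lev N) hk
        have h7 := ax_lt c (lev N) k
        have h8 : ax c (lev N) k ≠ s % 3 := by
          intro h8
          apply hck
          rw [← h6, h8, hcs, h2]
          congr 1
          omega
        have hall : ∀ a < 3, a ≠ s % 3 → xc a N < gam m :=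
          forall_lt_three.mpr ⟨fun e => h3 e.symm, fun e => h4 e.symm, fun e => h5 e.symm⟩
        exact (hall _ h7 h8).le
  · rintro ⟨h1, h2⟩
    have h3 : xc 3 N < gam m := by
      rcases h1 with h1 | h1
      · omega
      · exact le_iff_lt_xg.mp h1.2
    refine ⟨h3, ?_⟩
    obtain ⟨k, hk, hkm⟩ := exists_ne_lt_three (c m)
    have h4 := h2 k hk
    rw [if_neg hkm.symm] at h4
    rcases h4 with h4 | ⟨h4, -⟩
    · exact Or.inl h4
    · refine Or.inr ⟨h4, ?_⟩
      have h5 : ∀ a < 3, s % 3 ≠ a → xc a N < gam m := by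
        intro a ha hne
        have h6 := h2 (c (3 * lev N + a)) (hc.lt _)
        have h7 : c m ≠ c (3 * lev N + a) := by
          intro h7
          apply hne
          have h8 : s = 3 * lev N + s % 3 := by omega
          rw [hcs, h8] at h7
          have := hc.inj (lev N) (s % 3) a (by omega) ha h7
          exact this
        rw [if_neg h7, hc.ax_eq ha rfl] at h6
        rcases h6 with h6 | h6
        · omega
        · exact le_iff_lt_xg.mp h6.2
      rw [forall_lt_three] at h5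
      exact h5

lemma sol_lb {c : ℕ → ℕ} (hc : Good lk c) (hlk : ∀ m s, lk m = some s → s / 3 < m / 3)
    {N m s : ℕ} (hs : lk m = some s) :
    rlb m N ↔ key lk c 3 (2 * m + 1) ≤ key lk c 3 (2 * N) ∧
      ∀ k < 3, key lk c k (2 * m + 1) ≤ key lk c k (2 * N) := by
  rw [key_b3, key_l3, le_key]
  have hk : (∀ k < 3, key lk c k (2 * m + 1) ≤ key lk c k (2 * N)) ↔ ∀ k < 3,
      ((if c m = k then m / 3 else s / 3) < lev N ∨
      ((if c m = k then m / 3 else s / 3) = lev N ∧ gam m ≤ xc (ax c (lev N) k) N)) := by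
    constructor
    · intro h k hk
      have := h k hk
      rwa [key_b c hk, key_l c hk hs, le_key] at this
    · intro h k hk
      rw [key_b c hk, key_l c hk hs, le_key]
      exact h k hk
  rw [hk]
  have hlt := hlk m s hs
  have h3m : 3 * (m / 3) + m % 3 = m := by omega
  constructor
  · rintro ⟨h1, h2⟩
    refine ⟨Or.inr ⟨rfl, h1.le⟩, fun k hk => ?_⟩
    by_cases hck : c m = k
    · rw [if_pos hck]
      rcases h2 with h2 | ⟨h2, h3⟩
      · exact Or.inl h2
      · right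
        refine ⟨h2, ?_⟩
        have : ax c (lev N) k = m % 3 := by
          apply hc.ax_eq (by omega)
          rw [← h2, h3m, hck]
        rw [this]
        exact h3.le
    · rw [if_neg hck]
      left
      rcases h2 with h2 | ⟨h2, -⟩ <;> omega
  · rintro ⟨h1, h2⟩
    have h3 : gam m < xc 3 N := by
      rcases h1 with h1 | h1
      · omega
      · exact le_iff_lt_gx.mp h1.2
    refine ⟨h3, ?_⟩
    have h4 := h2 (c m) (hc.lt m)
    rw [if_pos rfl] at h4
    rcases h4 with h4 | ⟨h4, h5⟩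
    · exact Or.inl h4
    · right
      refine ⟨h4, ?_⟩
      have : ax c (lev N) (c m) = m % 3 := by
        apply hc.ax_eq (by omega)
        rw [← h4, h3m]
      rw [this] at h5
      exact le_iff_lt_gx.mp h5

lemma sol_ll {c : ℕ → ℕ} (hc : Good lk c) (hlk : ∀ m s, lk m = some s → s / 3 < m / 3)
    {m m' s s' : ℕ} (hs : lk m = some s) (hs' : lk m' = some s')
    (h3 : key lk c 3 (2 * m + 1) ≤ key lk c 3 (2 * m' + 1))
    (hk : ∀ k < 3, key lk c k (2 * m + 1) ≤ key lk c k (2 * m' + 1)) : m = m' := by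
  have h1 := hlk m s hs
  have h1' := hlk m' s' hs'
  by_contra hne
  rw [key_l3, key_l3, le_key] at h3
  have h4 : gam m ≤ gam m' := by
    rcases h3 with h3 | h3
    · omega
    · exact h3.2
  have h5 : m' < m := by
    by_contra hcon
    have : m < m' := by omega
    have := gam_anti this
    linarith
  have h6 := hk (c m) (hc.lt m)
  rw [key_l c (hc.lt m) hs, key_l c (hc.lt m) hs', le_key, if_pos rfl] at h6
  have h7 : m' / 3 ≤ m / 3 := Nat.div_le_div_right h5.le
  by_cases h8 : c m' = c m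
  · rw [if_pos h8] at h6
    have h9 : m' / 3 = m / 3 := by
      rcases h6 with h6 | ⟨h6, -⟩ <;> omega
    apply hne
    have e1 : m = 3 * (m / 3) + m % 3 := by omega
    have e2 : m' = 3 * (m / 3) + m' % 3 := by omega
    rw [e1, e2] at h8
    have := hc.inj (m / 3) (m' % 3) (m % 3) (by omega) (by omega) h8
    omega
  · rw [if_neg h8] at h6
    rcases h6 with h6 | ⟨h6, -⟩ <;> omega

lemma forall_fin4 {p : ℕ → Prop} : (∀ i : Fin 4, p i) ↔ p 3 ∧ ∀ k < 3, p k := by
  constructor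
  · intro h
    exact ⟨h 3, fun k hk => h ⟨k, by omega⟩⟩
  · rintro ⟨h1, h2⟩ i
    by_cases hi : (i : ℕ) = 3
    · rw [hi]; exact h1
    · exact h2 i (by omega)

/-- A good system of colours gives a solution. -/
theorem sol_of_good {c : ℕ → ℕ} (hc : Good lk c) (hlk : ∀ m s, lk m = some s → s / 3 < m / 3) :
    IsSolution (AA lk) (RR lk) 4 (fun k => LL lk c k) := by
  refine ⟨fun k => LL_linear lk c k, fun z z' => ?_⟩
  rw [forall_fin4 (p := fun k => LL lk c k z z')]
  rcases ev_or_odd z with ⟨N, rfl⟩ | ⟨m, rfl⟩ <;> rcases ev_or_odd z' with ⟨N', rfl⟩ | ⟨m', rfl⟩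
  · rw [RR_bb, sol_bb hc]
    unfold LL
    simp only [ev_mem, true_and]
  · by_cases hm : (lk m').isSome
    · obtain ⟨s, hs⟩ := Option.isSome_iff_exists.mp hm
      rw [RR_bl hs, sol_bl hc hlk hs]
      unfold LL
      simp only [ev_mem, true_and, odd_mem, hm]
    · constructor
      · intro h
        unfold RR at h
        rw [if_pos (by omega), if_neg (by omega)] at h
        obtain ⟨s, hs, -⟩ := h
        rw [show (2 * m' + 1) / 2 = m' by omega] at hs
        rw [hs] at hm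
        simp at hm
      · rintro ⟨h, -⟩
        exact (hm (odd_mem.mp h.2.1)).elim
  · by_cases hm : (lk m).isSome
    · obtain ⟨s, hs⟩ := Option.isSome_iff_exists.mp hm
      rw [RR_lb hs, sol_lb hc hlk hs]
      unfold LL
      simp only [ev_mem, true_and, odd_mem, hm]
    · constructor
      · intro h
        unfold RR at h
        rw [if_neg (by omega), if_pos (by omega), show (2 * m + 1) / 2 = m by omega] at h
        exact (hm h.1).elim
      · rintro ⟨h, -⟩
        exact (hm (odd_mem.mp h.1)).elim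
  · rw [RR_ll]
    constructor
    · rintro ⟨rfl, h⟩
      have : 2 * m + 1 ∈ AA lk := odd_mem.mpr h
      exact ⟨⟨this, this, le_rfl⟩, fun k hk => ⟨this, this, le_rfl⟩⟩
    · rintro ⟨h1, h2⟩
      have hm := odd_mem.mp h1.1
      have hm' := odd_mem.mp h1.2.1
      obtain ⟨s, hs⟩ := Option.isSome_iff_exists.mp hm
      obtain ⟨s', hs'⟩ := Option.isSome_iff_exists.mp hm'
      exact ⟨sol_ll hc hlk hs hs' h1.2.2 (fun k hk => (h2 k hk).2.2), hm⟩

end Pool.Agent.Helper539.Dim
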