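import Mathlib
import Pool.Agent.Helper539.DimPoset

set_option autoImplicit false
set_option linter.unusedSectionVars false
set_option linter.unusedVariables false

namespace Pool.Agent.Helper539.Dim

/-! ### Every realizer comes from a system of colours -/

/-- Choice of a point with one prescribed coordinate range and a common range for the others. -/
lemma pickA (l a : ℕ) {p q p' q' : ℚ} (h0 : 0 ≤ p) (h1 : p < q) (h2 : 0 ≤ p') (h3 : p' < q')
    (ha : a < 4) :
    ∃ N, lev N = l ∧ p < xc a N ∧ xc a N < q ∧ ∀ j < 4, j ≠ a → p' < xc j N ∧ xc j N < q' := by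
  obtain ⟨N, hN, h⟩ := dense l (fun j => if j = a then p else p') (fun j => if j = a then q else q')
    (by
      intro k _
      by_cases hk : k = a
      · simp only [hk, if_true]; exact ⟨h0, h1⟩
      · simp only [hk, if_false]; exact ⟨h2, h3⟩)
  refine ⟨N, hN, ?_, ?_, ?_⟩
  · simpa using (h a ha).1
  · simpa using (h a ha).2
  · intro j hj hja
    simpa [hja] using h j hj

variable {lk : ℕ → Option ℕ} {L : Fin 4 → ℕ → ℕ → Prop}

section basic
variable (hL : IsSolution (AA lk) (RR lk) 4 L)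
include hL

lemma lin_total (i : Fin 4) {a b : ℕ} (ha : a ∈ AA lk) (hb : b ∈ AA lk) (h : ¬ L i a b) :
    L i b a := ((hL.1 i).2.2.2 a ha b hb).resolve_left h

lemma lin_anti (i : Fin 4) {a b : ℕ} (h : L i a b) (h' : L i b a) : a = b :=
  (hL.1 i).2.1 a b h h'

lemma lin_trans (i : Fin 4) {a b d : ℕ} (h : L i a b) (h' : L i b d) : L i a d :=
  (hL.1 i).2.2.1 a b d h h'

lemma lin_of (i : Fin 4) {a b : ℕ} (h : RR lk a b) : L i a b := (hL.2 a b).mp h i

lemma lin_ex {a b : ℕ} (h : ¬ RR lk a b) : ∃ i, ¬ L i a b := by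
  by_contra hcon
  push Not at hcon
  exact h ((hL.2 a b).mpr hcon)

/-- Step 0: the orders on one level. -/
lemma level_perm (l : ℕ) : ∃ σ : Equiv.Perm (Fin 4), ∀ k N N', lev N = l → lev N' = l →
    (L (σ k) (2 * N) (2 * N') ↔ xc k N ≤ xc k N') := by
  obtain ⟨σ, hσ⟩ := box_rigid (X := {N : ℕ // lev N = l}) (n := 4) (c := fun k x => xc k x.1)
    (L := fun i x y => L i (2 * x.1) (2 * y.1)) (fun k x => xc_pos _ _)
    (fun k x y h => Subtype.ext (xc_inj h))
    (by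
      intro lo hi h
      obtain ⟨N, hN, h'⟩ := dense l (fun j => if hj : j < 4 then lo ⟨j, hj⟩ else 0)
        (fun j => if hj : j < 4 then hi ⟨j, hj⟩ else 1) (by
          intro k hk
          simp only [hk, dif_pos]
          exact h ⟨k, hk⟩)
      refine ⟨⟨N, hN⟩, fun k => ?_⟩
      have := h' k k.2
      simpa only [k.2, dif_pos, Fin.eta] using this)
    (fun i x y => (hL.1 i).2.2.2 _ (ev_mem _) _ (ev_mem _))
    (fun i x y h h' => by
      have := lin_anti hL i h h'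
      exact Subtype.ext (by omega))
    (fun i x y z h h' => lin_trans hL i h h')
    (fun x y => by
      rw [← hL.2, RR_bb]
      unfold rbb
      have e : lev x.1 = lev y.1 := by rw [x.2, y.2]
      constructor
      · intro h
        exact Or.inl ⟨e, h 0, h 1, h 2, h 3⟩
      · rintro (⟨-, h0, h1, h2, h3⟩ | ⟨h, -⟩) k
        · match k with
          | 0 => exact h0
          | 1 => exact h1
          | 2 => exact h2
          | 3 => exact h3
        · omega)
  exact ⟨σ, fun k N N' h h' => hσ k ⟨N, h⟩ ⟨N', h'⟩⟩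

end basic

section main
variable (hL : IsSolution (AA lk) (RR lk) 4 L)
  {σ : ℕ → Equiv.Perm (Fin 4)}
  (hσ : ∀ l k N N', lev N = l → lev N' = l → (L (σ l k) (2 * N) (2 * N') ↔ xc k N ≤ xc k N'))
include hL hσ

/-- Comparison inside a level, in terms of the order. -/
lemma in_level {i : Fin 4} {N N' : ℕ} (h : lev N = lev N') :
    L i (2 * N) (2 * N') ↔ xc ((σ (lev N)).symm i) N ≤ xc ((σ (lev N)).symm i) N' := by
  have := hσ (lev N) ((σ (lev N)).symm i) N N' rfl h.symm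
  rw [Equiv.apply_symm_apply] at this
  exact this

/-- Step 1. -/
lemma step1 {i : Fin 4} {N N' : ℕ} (hlev : lev N < lev N') (h : ¬ L i (2 * N) (2 * N')) :
    i = σ (lev N) 3 ∧ i = σ (lev N') 3 := by
  have h3 : xc 3 N' < xc 3 N := by
    by_contra hcon
    push Not at hcon
    rcases hcon.lt_or_eq with h1 | h1
    · exact h (lin_of hL i (RR_bb N N' |>.mpr (Or.inr ⟨hlev, h1⟩)))
    · rw [xc_inj h1] at hlev
      exact lt_irrefl _ hlev
  constructor
  · by_contra hne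
    have ha : (σ (lev N)).symm i ≠ 3 := by
      intro e
      apply hne
      rw [← e, Equiv.apply_symm_apply]
    obtain ⟨N1, hl, h4, -, h5⟩ := pickA (lev N) ((σ (lev N)).symm i) (p := xc ((σ (lev N)).symm i) N)
      (q := xc ((σ (lev N)).symm i) N + 1) (p' := 0) (q' := xc 3 N') (xc_pos _ _).le (by linarith)
      le_rfl (xc_pos _ _) (Fin.is_lt _)
    have h6 := (h5 3 (by norm_num) (fun e => ha (Fin.ext e.symm))).2
    have h7 : L i (2 * N) (2 * N1) := (in_level hL hσ hl.symm).mpr h4.le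
    have h8 : L i (2 * N1) (2 * N') :=
      lin_of hL i ((RR_bb N1 N').mpr (Or.inr ⟨by omega, h6⟩))
    exact h (lin_trans hL i h7 h8)
  · by_contra hne
    have ha : (σ (lev N')).symm i ≠ 3 := by
      intro e
      apply hne
      rw [← e, Equiv.apply_symm_apply]
    obtain ⟨N1, hl, -, h4, h5⟩ := pickA (lev N') ((σ (lev N')).symm i) (p := 0)
      (q := xc ((σ (lev N')).symm i) N') (p' := xc 3 N) (q' := xc 3 N + 1) le_rfl (xc_pos _ _)
      (xc_pos _ _).le (by linarith) (Fin.is_lt _)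
    have h6 := (h5 3 (by norm_num) (fun e => ha (Fin.ext e.symm))).1
    have h7 : L i (2 * N1) (2 * N') := by
      rw [in_level hL hσ hl, hl]
      exact h4.le
    have h8 : L i (2 * N) (2 * N1) :=
      lin_of hL i ((RR_bb N N1).mpr (Or.inr ⟨by omega, h6⟩))
    exact h (lin_trans hL i h8 h7)

/-- Step 2: the last coordinate is carried by the same order on all levels. -/
lemma step2 (l : ℕ) : σ l 3 = σ 0 3 := by
  rcases Nat.eq_zero_or_pos l with rfl | hl
  · rfl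
  obtain ⟨N, hN, h1, -, -⟩ := pickA 0 3 (p := 2) (q := 3) (p' := 0) (q' := 1) (by norm_num)
    (by norm_num) (by norm_num) (by norm_num) (by norm_num)
  obtain ⟨N', hN', -, h2, -⟩ := pickA l 3 (p := 1) (q := 2) (p' := 0) (q' := 1) (by norm_num)
    (by norm_num) (by norm_num) (by norm_num) (by norm_num)
  have h3 : ¬ RR lk (2 * N) (2 * N') := by
    rw [RR_bb]
    rintro (⟨h4, -⟩ | ⟨-, h4⟩)
    · omega
    · linarith
  obtain ⟨i, hi⟩ := lin_ex hL h3
  obtain ⟨h4, h5⟩ := step1 hL hσ (by omega) hi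
  rw [hN] at h4
  rw [hN'] at h5
  rw [← h4, ← h5]

lemma two_ne {N N' : ℕ} (h : lev N ≠ lev N') : 2 * N ≠ 2 * N' := by
  intro e
  apply h
  rw [show N = N' by omega]

/-- Step 3: the order carrying the last coordinate. -/
lemma step3 (N N' : ℕ) : L (σ 0 3) (2 * N) (2 * N') ↔ xc 3 N ≤ xc 3 N' := by
  rcases lt_trichotomy (lev N) (lev N') with h | h | h
  · constructor
    · intro h1
      by_contra hcon
      push Not at hcon
      have h3 : ¬ RR lk (2 * N) (2 * N') := by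
        rw [RR_bb]
        rintro (⟨h4, -⟩ | ⟨-, h4⟩)
        · omega
        · linarith
      obtain ⟨i, hi⟩ := lin_ex hL h3
      have h4 := (step1 hL hσ h hi).1
      rw [step2 hL hσ] at h4
      rw [h4] at hi
      exact hi h1
    · intro h1
      have h2 : xc 3 N < xc 3 N' := lt_of_le_of_ne h1 (fun e => by rw [xc_inj e] at h; omega)
      exact lin_of hL _ ((RR_bb N N').mpr (Or.inr ⟨h, h2⟩))
  · have := hσ (lev N) 3 N N' rfl h.symm
    rw [step2 hL hσ] at this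
    exact this
  · constructor
    · intro h1
      by_contra hcon
      push Not at hcon
      have h2 := lin_of hL (σ 0 3) ((RR_bb (lk := lk) N' N).mpr (Or.inr ⟨h, hcon⟩))
      exact two_ne hL hσ (by omega) (lin_anti hL _ h1 h2)
    · intro h1
      by_contra hcon
      have h2 : xc 3 N < xc 3 N' := lt_of_le_of_ne h1 (fun e => by rw [xc_inj e] at h; omega)
      have h3 : ¬ RR lk (2 * N') (2 * N) := by
        rw [RR_bb]
        rintro (⟨h4, -⟩ | ⟨-, h4⟩)
        · omega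
        · linarith
      obtain ⟨i, hi⟩ := lin_ex hL h3
      have h4 := (step1 hL hσ h hi).1
      rw [step2 hL hσ] at h4
      rw [h4] at hi
      exact hcon (lin_total hL _ (ev_mem _) (ev_mem _) hi)

/-- Step 4: different levels in the other orders. -/
lemma step4 {i : Fin 4} (hi : i ≠ σ 0 3) {N N' : ℕ} (h : lev N < lev N') :
    L i (2 * N) (2 * N') := by
  by_contra hcon
  have := (step1 hL hσ h hcon).1
  rw [step2 hL hσ] at this
  exact hi this

lemma symm_ne_three {i : Fin 4} (hi : i ≠ σ 0 3) (l : ℕ) : (σ l).symm i ≠ 3 := by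
  intro e
  apply hi
  rw [← step2 hL hσ l, ← e, Equiv.apply_symm_apply]

lemma ne_three_val {l : ℕ} {i : Fin 4} (hi : i ≠ σ 0 3) : 3 ≠ ((σ l).symm i : ℕ) :=
  fun e => symm_ne_three hL hσ hi l (Fin.ext e.symm)

section link
variable {m s : ℕ} (hs : lk m = some s) (hlt : s / 3 < m / 3)
include hs hlt

lemma lk_mem : 2 * m + 1 ∈ AA lk := odd_mem.mpr (by rw [hs]; rfl)

/-- Step 5a. -/
lemma step5a {N : ℕ} (h : xc 3 N < gam m) : L (σ 0 3) (2 * N) (2 * m + 1) := by
  obtain ⟨N1, hl, h1, h2, h3⟩ := pickA (s / 3) 3 (p := xc 3 N) (q := gam m) (p' := 0) (q' := gam m)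
    (xc_pos _ _).le h le_rfl (gam_pos _) (by norm_num)
  have h4 : RR lk (2 * N1) (2 * m + 1) := by
    rw [RR_bl hs]
    exact ⟨h2, Or.inr ⟨hl, fun _ => (h3 0 (by norm_num) (by norm_num)).2,
      fun _ => (h3 1 (by norm_num) (by norm_num)).2, fun _ => (h3 2 (by norm_num) (by norm_num)).2⟩⟩
  exact lin_trans hL _ ((step3 hL hσ N N1).mpr h1.le) (lin_of hL _ h4)

/-- Step 5a, second half. -/
lemma step5a' {N : ℕ} (h : gam m < xc 3 N) : L (σ 0 3) (2 * m + 1) (2 * N) := by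
  obtain ⟨N1, hl, h1, h2, h3⟩ := pickA (m / 3) 3 (p := gam m) (q := xc 3 N) (p' := gam m)
    (q' := gam m + 1) (gam_pos _).le h (gam_pos _).le (by linarith) (by norm_num)
  have h4 : RR lk (2 * m + 1) (2 * N1) := by
    rw [RR_lb hs]
    exact ⟨h1, Or.inr ⟨hl.symm, (h3 (m % 3) (by omega) (by omega)).1⟩⟩
  exact lin_trans hL _ (lin_of hL _ h4) ((step3 hL hσ N1 N).mpr h2.le)

/-- Step 5b. -/
lemma step5b {i : Fin 4} (hi : i ≠ σ 0 3) {N : ℕ} (h : lev N < s / 3) :
    L i (2 * N) (2 * m + 1) := by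
  obtain ⟨N1, hl, h1, -, h3⟩ := pickA (lev N) ((σ (lev N)).symm i)
    (p := xc ((σ (lev N)).symm i) N)
    (q := xc ((σ (lev N)).symm i) N + 1) (p' := 0) (q' := gam m) (xc_pos _ _).le (by linarith)
    le_rfl (gam_pos _) (Fin.is_lt _)
  have h4 := (h3 3 (by norm_num) (ne_three_val hL hσ hi)).2
  have h5 : RR lk (2 * N1) (2 * m + 1) := by
    rw [RR_bl hs]
    exact ⟨h4, Or.inl (by omega)⟩
  exact lin_trans hL _ ((in_level hL hσ hl.symm).mpr h1.le) (lin_of hL _ h5)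

/-- Step 5b, second half. -/
lemma step5b' {i : Fin 4} (hi : i ≠ σ 0 3) {N : ℕ} (h : m / 3 < lev N) :
    L i (2 * m + 1) (2 * N) := by
  obtain ⟨N1, hl, -, h1, h3⟩ := pickA (lev N) ((σ (lev N)).symm i) (p := 0)
    (q := xc ((σ (lev N)).symm i) N) (p' := gam m) (q' := gam m + 1) le_rfl (xc_pos _ _)
    (gam_pos _).le (by linarith) (Fin.is_lt _)
  have h4 := (h3 3 (by norm_num) (ne_three_val hL hσ hi)).1
  have h5 : RR lk (2 * m + 1) (2 * N1) := by
    rw [RR_lb hs]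
    exact ⟨h4, Or.inl (by omega)⟩
  refine lin_trans hL _ (lin_of hL _ h5) ?_
  rw [in_level hL hσ hl, hl]
  exact h1.le

/-- Step 5c. -/
lemma step5c {a : Fin 4} (ha : (a : ℕ) = s % 3) {N : ℕ} (h : lev N = s / 3) :
    L (σ (s / 3) a) (2 * N) (2 * m + 1) := by
  have ha3 : (a : ℕ) ≠ 3 := by omega
  obtain ⟨N1, hl, h1, -, h3⟩ := pickA (s / 3) a (p := xc a N) (q := xc a N + 1) (p' := 0)
    (q' := gam m) (xc_pos _ _).le (by linarith) le_rfl (gam_pos _) (Fin.is_lt _)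
  have h5 : RR lk (2 * N1) (2 * m + 1) := by
    rw [RR_bl hs]
    exact ⟨(h3 3 (by norm_num) ha3.symm).2, Or.inr ⟨hl,
      fun e => (h3 0 (by norm_num) (by omega)).2, fun e => (h3 1 (by norm_num) (by omega)).2,
      fun e => (h3 2 (by norm_num) (by omega)).2⟩⟩
  exact lin_trans hL _ ((hσ _ a N N1 h hl).mpr h1.le) (lin_of hL _ h5)

/-- Step 5d. -/
lemma step5d {a : Fin 4} (ha : (a : ℕ) ≠ s % 3) (ha3 : (a : ℕ) ≠ 3) {N : ℕ} (h : lev N = s / 3)
    (hx : xc a N < gam m) :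
    L (σ (s / 3) a) (2 * N) (2 * m + 1) := by
  obtain ⟨N1, hl, h1, h2, h3⟩ := pickA (s / 3) a (p := xc a N) (q := gam m) (p' := 0)
    (q' := gam m) (xc_pos _ _).le hx le_rfl (gam_pos _) (Fin.is_lt _)
  have hall : ∀ j < 4, xc j N1 < gam m := by
    intro j hj
    by_cases hja : j = a
    · rw [hja]; exact h2
    · exact (h3 j hj hja).2
  have h5 : RR lk (2 * N1) (2 * m + 1) := by
    rw [RR_bl hs]
    exact ⟨hall 3 (by norm_num), Or.inr ⟨hl, fun _ => hall 0 (by norm_num),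
      fun _ => hall 1 (by norm_num), fun _ => hall 2 (by norm_num)⟩⟩
  exact lin_trans hL _ ((hσ _ a N N1 h hl).mpr h1.le) (lin_of hL _ h5)

/-- Step 5e. -/
lemma step5e {a : Fin 4} (ha : (a : ℕ) ≠ s % 3) (ha3 : (a : ℕ) ≠ 3) {N : ℕ} (h : lev N = s / 3)
    (hx : gam m < xc a N) :
    L (σ (s / 3) a) (2 * m + 1) (2 * N) := by
  obtain ⟨N1, hl, h1, h2, h3⟩ := pickA (s / 3) a (p := gam m) (q := xc a N) (p' := 0)
    (q' := gam m) (gam_pos _).le hx le_rfl (gam_pos _) (Fin.is_lt _)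
  have h5 : ¬ RR lk (2 * N1) (2 * m + 1) := by
    rw [RR_bl hs]
    rintro ⟨-, h6 | ⟨-, h6, h7, h8⟩⟩
    · omega
    · have hall : ∀ j < 3, s % 3 ≠ j → xc j N1 < gam m := forall_lt_three.mpr ⟨h6, h7, h8⟩
      have := hall a (by omega) (Ne.symm ha)
      linarith
  obtain ⟨i, hi⟩ := lin_ex hL h5
  have h6 : i = σ (s / 3) a := by
    obtain ⟨a', rfl⟩ := (σ (s / 3)).surjective i
    by_contra hne
    apply hi
    have hne' : (a' : ℕ) ≠ a := fun e => hne (by rw [Fin.ext e])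
    by_cases h7 : (a' : ℕ) = 3
    · have h8 : a' = 3 := Fin.ext h7
      rw [h8, step2 hL hσ]
      exact step5a hL hσ hs hlt (h3 3 (by norm_num) ha3.symm).2
    · by_cases h8 : (a' : ℕ) = s % 3
      · exact step5c hL hσ hs hlt h8 hl
      · exact step5d hL hσ hs hlt h8 h7 hl (h3 a' (Fin.is_lt _) hne').2
  rw [h6] at hi
  have h7 := lin_total hL _ (ev_mem N1) (lk_mem hL hσ hs hlt) hi
  exact lin_trans hL _ h7 ((hσ _ a N1 N hl h).mpr h2.le)

lemma sig_ne {l : ℕ} {a : Fin 4} (ha3 : (a : ℕ) ≠ 3) : σ l a ≠ σ 0 3 := by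
  rw [← step2 hL hσ l]
  intro e
  apply ha3
  rw [(σ l).injective e]
  rfl

/-- Step 5f. -/
lemma step5f {a : Fin 4} (ha : (a : ℕ) ≠ s % 3) (ha3 : (a : ℕ) ≠ 3) {N : ℕ} (h : s / 3 < lev N) :
    L (σ (s / 3) a) (2 * m + 1) (2 * N) := by
  obtain ⟨N1, hl, h1, -, -⟩ := pickA (s / 3) a (p := gam m) (q := gam m + 1) (p' := 0)
    (q' := gam m) (gam_pos _).le (by linarith) le_rfl (gam_pos _) (Fin.is_lt _)
  have h2 := step5e hL hσ hs hlt ha ha3 hl h1
  exact lin_trans hL _ h2 (step4 hL hσ (sig_ne hL hσ hs hlt ha3) (by omega))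

/-- Step 5g. -/
lemma step5g {b : Fin 4} (hb : (b : ℕ) = m % 3) {a : Fin 4} (ha : (a : ℕ) = s % 3)
    {N : ℕ} (h : lev N = m / 3) (hx : xc b N < gam m) (hx3 : gam m < xc 3 N) :
    L (σ (s / 3) a) (2 * N) (2 * m + 1) ∧ σ (s / 3) a = σ (m / 3) b := by
  have h1 : ¬ RR lk (2 * m + 1) (2 * N) := by
    rw [RR_lb hs]
    rintro ⟨-, h2 | ⟨-, h2⟩⟩
    · omega
    · rw [← hb] at h2
      linarith
  obtain ⟨i, hi⟩ := lin_ex hL h1
  have hi3 : i ≠ σ 0 3 := by
    intro e
    rw [e] at hi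
    exact hi (step5a' hL hσ hs hlt hx3)
  have hia : i = σ (s / 3) a := by
    obtain ⟨a', rfl⟩ := (σ (s / 3)).surjective i
    by_contra hne
    apply hi
    have hne' : (a' : ℕ) ≠ a := fun e => hne (by rw [Fin.ext e])
    have h7 : (a' : ℕ) ≠ 3 := by
      intro e
      apply hi3
      rw [show a' = 3 from Fin.ext e, step2 hL hσ]
    exact step5f hL hσ hs hlt (by omega) h7 (by omega)
  rw [hia] at hi
  have h2 := lin_total hL _ (lk_mem hL hσ hs hlt) (ev_mem N) hi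
  refine ⟨h2, ?_⟩
  obtain ⟨b', hb'⟩ := (σ (m / 3)).surjective (σ (s / 3) a)
  by_contra hne
  have hbb : (b' : ℕ) ≠ b := fun e => hne (by rw [← hb', Fin.ext e])
  have hb3 : (b' : ℕ) ≠ 3 := by
    intro e
    apply hi3
    rw [hia, ← hb', show b' = 3 from Fin.ext e, step2 hL hσ]
  obtain ⟨N1, hl, -, h3, h4⟩ := pickA (m / 3) b' (p := 0) (q := xc b' N) (p' := gam m)
    (q' := gam m + 1) le_rfl (xc_pos _ _) (gam_pos _).le (by linarith) (Fin.is_lt _)
  have h5 : RR lk (2 * m + 1) (2 * N1) := by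
    rw [RR_lb hs]
    refine ⟨(h4 3 (by norm_num) hb3.symm).1, Or.inr ⟨hl.symm, ?_⟩⟩
    rw [← hb]
    exact (h4 b (Fin.is_lt _) hbb.symm).1
  have h6 : L (σ (m / 3) b') (2 * N1) (2 * N) := (hσ _ b' N1 N hl h).mpr h3.le
  rw [hb'] at h6
  exact hi (lin_trans hL _ (lin_of hL _ h5) h6)

lemma link_eq {b : Fin 4} (hb : (b : ℕ) = m % 3) {a : Fin 4} (ha : (a : ℕ) = s % 3) :
    σ (s / 3) a = σ (m / 3) b := by
  have hb3 : (b : ℕ) ≠ 3 := by omega
  obtain ⟨N1, hl, -, h3, h4⟩ := pickA (m / 3) b (p := 0) (q := gam m) (p' := gam m)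
    (q' := gam m + 1) le_rfl (gam_pos _) (gam_pos _).le (by linarith) (Fin.is_lt _)
  exact (step5g hL hσ hs hlt hb ha hl h3 (h4 3 (by norm_num) hb3.symm).1).2

/-- Step 5h. -/
lemma step5h {b : Fin 4} (hb : (b : ℕ) = m % 3) {N : ℕ} (h : lev N = m / 3)
    (hx : xc b N < gam m) : L (σ (m / 3) b) (2 * N) (2 * m + 1) := by
  have hb3 : (b : ℕ) ≠ 3 := by omega
  obtain ⟨N1, hl, h2, h3, h4⟩ := pickA (m / 3) b (p := xc b N) (q := gam m) (p' := gam m)
    (q' := gam m + 1) (xc_pos _ _).le hx (gam_pos _).le (by linarith) (Fin.is_lt _)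
  have h5 := step5g hL hσ hs hlt hb (a := ⟨s % 3, by omega⟩) rfl hl h3
    (h4 3 (by norm_num) hb3.symm).1
  have h6 := h5.1
  rw [h5.2] at h6
  exact lin_trans hL _ ((hσ _ b N N1 h hl).mpr h2.le) h6

/-- Step 5i. -/
lemma step5i {b : Fin 4} (hb : (b : ℕ) = m % 3) {N : ℕ} (h : lev N = m / 3)
    (hx : gam m < xc b N) : L (σ (m / 3) b) (2 * m + 1) (2 * N) := by
  have hb3 : (b : ℕ) ≠ 3 := by omega
  obtain ⟨N1, hl, h2, h3, h4⟩ := pickA (m / 3) b (p := gam m) (q := xc b N) (p' := gam m)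
    (q' := gam m + 1) (gam_pos _).le hx (gam_pos _).le (by linarith) (Fin.is_lt _)
  have h5 : RR lk (2 * m + 1) (2 * N1) := by
    rw [RR_lb hs]
    refine ⟨(h4 3 (by norm_num) hb3.symm).1, Or.inr ⟨hl.symm, ?_⟩⟩
    rw [← hb]
    exact h2
  exact lin_trans hL _ (lin_of hL _ h5) ((hσ _ b N1 N hl h).mpr h3.le)

/-- Step 5j. -/
lemma step5j {b : Fin 4} (hb : (b : ℕ) = m % 3) {N : ℕ} (h : lev N < m / 3) :
    L (σ (m / 3) b) (2 * N) (2 * m + 1) := by
  have hb3 : (b : ℕ) ≠ 3 := by omega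
  obtain ⟨N1, hl, h2, h3, h4⟩ := pickA (m / 3) b (p := 0) (q := gam m) (p' := gam m)
    (q' := gam m + 1) le_rfl (gam_pos _) (gam_pos _).le (by linarith) (Fin.is_lt _)
  exact lin_trans hL _ (step4 hL hσ (sig_ne hL hσ hs hlt hb3) (by omega))
    (step5h hL hσ hs hlt hb hl h3)

end link

end main

end Pool.Agent.Helper539.Dim
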