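import Mathlib
import Pool.Agent.Helper539.DimRigid

set_option autoImplicit false
set_option linter.unusedSectionVars false
set_option linter.unusedVariables false

namespace Pool.Agent.Helper539.Dim

variable {lk : ℕ → Option ℕ} {L : Fin 4 → ℕ → ℕ → Prop}

/-- The system of colours read off from the level permutations. -/
def colOf (σ : ℕ → Equiv.Perm (Fin 4)) (m : ℕ) : ℕ :=
  ((σ 0).symm (σ (m / 3) ⟨m % 3, by omega⟩) : Fin 4)

lemma colOf_iff (σ : ℕ → Equiv.Perm (Fin 4)) {l a : ℕ} (ha : a < 3) {k : ℕ} (hk : k < 4) :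
    colOf σ (3 * l + a) = k ↔ σ l ⟨a, by omega⟩ = σ 0 ⟨k, hk⟩ := by
  unfold colOf
  have h1 : (3 * l + a) / 3 = l := by omega
  have h2 : (3 * l + a) % 3 = a := by omega
  simp only [h1, h2]
  rw [← Equiv.symm_apply_eq]
  constructor
  · intro h; exact Fin.ext h
  · intro h; rw [h]

section main
variable (hL : IsSolution (AA lk) (RR lk) 4 L)
  {σ : ℕ → Equiv.Perm (Fin 4)}
  (hσ : ∀ l k N N', lev N = l → lev N' = l → (L (σ l k) (2 * N) (2 * N') ↔ xc k N ≤ xc k N'))
  (hlk : ∀ m s, lk m = some s → s / 3 < m / 3)
include hL hσ hlk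

lemma col_good : Good lk (colOf σ) := by
  refine ⟨fun m => ?_, fun l a b ha hb h => ?_, fun m s hs => ?_⟩
  · have h4 : colOf σ m < 4 := by unfold colOf; exact Fin.is_lt _
    have h3 : colOf σ m ≠ 3 := by
      intro h
      have hm : m = 3 * (m / 3) + m % 3 := by omega
      rw [hm, colOf_iff σ (by omega) (by norm_num)] at h
      have h5 : σ 0 ⟨3, by norm_num⟩ = σ (m / 3) 3 := (step2 hL hσ (m / 3)).symm
      rw [h5] at h
      have := (σ (m / 3)).injective h
      have := congrArg Fin.val this
      have : m % 3 = 3 := this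
      omega
    omega
  · have h1 := (colOf_iff σ (l := l) ha (k := colOf σ (3 * l + b)) (by unfold colOf; exact Fin.is_lt _)).mp h
    have h2 := (colOf_iff σ (l := l) hb (k := colOf σ (3 * l + b)) (by unfold colOf; exact Fin.is_lt _)).mp rfl
    rw [← h2] at h1
    have := congrArg Fin.val ((σ l).injective h1)
    exact this
  · have h := link_eq hL hσ hs (hlk m s hs) (b := ⟨m % 3, by omega⟩) rfl
      (a := ⟨s % 3, by omega⟩) rfl
    unfold colOf
    rw [h]

lemma sig_ax {l k : ℕ} (hk : k < 3) :
    σ l ⟨ax (colOf σ) l k, by have := ax_lt (colOf σ) l k; omega⟩ = σ 0 ⟨k, by omega⟩ := by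
  have h := (col_good hL hσ hlk).c_ax l hk
  exact (colOf_iff σ (ax_lt _ _ _) (by omega)).mp h

lemma box_any (k : Fin 4) (N : ℕ) {z : ℕ} (hz : z ∈ AA lk) :
    L (σ 0 k) (2 * N) z ↔ key lk (colOf σ) k (2 * N) ≤ key lk (colOf σ) k z := by
  have hg := col_good hL hσ hlk
  by_cases hk3 : (k : ℕ) = 3
  · have hk : k = 3 := Fin.ext hk3
    subst hk
    rcases ev_or_odd z with ⟨N', rfl⟩ | ⟨m, rfl⟩
    · rw [step3 hL hσ]
      show _ ↔ key lk (colOf σ) 3 (2 * N) ≤ key lk (colOf σ) 3 (2 * N')
      rw [key_b3, key_b3, le_key]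
      simp
    · obtain ⟨s, hs⟩ := Option.isSome_iff_exists.mp (odd_mem.mp hz)
      show _ ↔ key lk (colOf σ) 3 (2 * N) ≤ key lk (colOf σ) 3 (2 * m + 1)
      rw [key_b3, key_l3, le_key]
      constructor
      · intro h
        right
        refine ⟨rfl, ?_⟩
        by_contra hcon
        push Not at hcon
        have := lin_anti hL _ h (step5a' hL hσ hs (hlk m s hs) hcon)
        omega
      · rintro (h | ⟨-, h⟩)
        · omega
        · exact step5a hL hσ hs (hlk m s hs) (lt_of_le_of_ne h (xc_ne_gam _ _ _))
  · have hk : (k : ℕ) < 3 := by omega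
    have hkne : σ 0 k ≠ σ 0 3 := fun e => hk3 (by rw [(σ 0).injective e]; rfl)
    have hsax : ∀ l, σ l ⟨ax (colOf σ) l k, by have := ax_lt (colOf σ) l k; omega⟩ = σ 0 k :=
      fun l => sig_ax hL hσ hlk hk
    rcases ev_or_odd z with ⟨N', rfl⟩ | ⟨m, rfl⟩
    · rw [key_b _ hk, key_b _ hk, le_key]
      rcases lt_trichotomy (lev N) (lev N') with h | h | h
      · simp only [h, true_or, iff_true]
        exact step4 hL hσ hkne h
      · rw [← h]
        simp only [lt_irrefl, false_or, true_and]
        have := hσ (lev N) ⟨ax (colOf σ) (lev N) k, by have := ax_lt (colOf σ) (lev N) k; omega⟩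
          N N' rfl h.symm
        rw [hsax] at this
        exact this
      · constructor
        · intro h1
          have := lin_anti hL _ h1 (step4 hL hσ hkne h)
          rw [show N = N' by omega] at h
          exact (lt_irrefl _ h).elim
        · rintro (h1 | ⟨h1, -⟩) <;> omega
    · obtain ⟨s, hs⟩ := Option.isSome_iff_exists.mp (odd_mem.mp hz)
      rw [key_b _ hk, key_l _ hk hs, le_key]
      have hlt := hlk m s hs
      have hm3 : m = 3 * (m / 3) + m % 3 := by omega
      have hs3 : s = 3 * (s / 3) + s % 3 := by omega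
      by_cases hcm : colOf σ m = k
      · rw [if_pos hcm]
        have hb : σ (m / 3) ⟨m % 3, by omega⟩ = σ 0 k := by
          have := (colOf_iff σ (l := m / 3) (a := m % 3) (by omega) (k := k) (by omega))
          rw [← hm3] at this
          exact this.mp hcm
        rcases lt_trichotomy (lev N) (m / 3) with h | h | h
        · simp only [h, true_or, iff_true]
          have := step5j hL hσ hs hlt (b := ⟨m % 3, by omega⟩) rfl h
          rwa [hb] at this
        · have hax : ax (colOf σ) (lev N) k = m % 3 := by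
            apply hg.ax_eq (by omega)
            rw [h, ← hm3]
            exact hcm
          rw [hax]
          constructor
          · intro h1
            right
            refine ⟨h, ?_⟩
            by_contra hcon
            push Not at hcon
            have h2 := step5i hL hσ hs hlt (b := ⟨m % 3, by omega⟩) rfl h hcon
            rw [hb] at h2
            have := lin_anti hL _ h1 h2
            omega
          · rintro (h1 | ⟨-, h1⟩)
            · omega
            · have h2 := step5h hL hσ hs hlt (b := ⟨m % 3, by omega⟩) rfl h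
                (lt_of_le_of_ne h1 (xc_ne_gam _ _ _))
              rwa [hb] at h2
        · constructor
          · intro h1
            have := lin_anti hL _ h1 (step5b' hL hσ hs hlt hkne h)
            omega
          · rintro (h1 | ⟨h1, -⟩) <;> omega
      · rw [if_neg hcm]
        -- the axis of the source box
        have hcs : colOf σ s ≠ k := by rw [← hg.link m s hs]; exact hcm
        have hax : ax (colOf σ) (s / 3) k ≠ s % 3 := by
          intro e
          apply hcs
          have := hg.c_ax (s / 3) hk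
          rw [e, ← hs3] at this
          exact this
        have haxlt := ax_lt (colOf σ) (s / 3) k
        rcases lt_trichotomy (lev N) (s / 3) with h | h | h
        · simp only [h, true_or, iff_true]
          exact step5b hL hσ hs hlt hkne h
        · rw [h]
          simp only [lt_irrefl, false_or, true_and]
          constructor
          · intro h1
            by_contra hcon
            push Not at hcon
            have h2 := step5e hL hσ hs hlt (a := ⟨ax (colOf σ) (s / 3) k, by omega⟩) hax
              (by simp only; omega) h hcon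
            rw [hsax] at h2
            have := lin_anti hL _ h1 h2
            omega
          · intro h1
            have h2 := step5d hL hσ hs hlt (a := ⟨ax (colOf σ) (s / 3) k, by omega⟩) hax
              (by simp only; omega) h (lt_of_le_of_ne h1 (xc_ne_gam _ _ _))
            rwa [hsax] at h2
        · constructor
          · intro h1
            have h2 := step5f hL hσ hs hlt (a := ⟨ax (colOf σ) (s / 3) k, by omega⟩) hax
              (by simp only; omega) h
            rw [hsax] at h2
            have := lin_anti hL _ h1 h2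
            omega
          · rintro (h1 | ⟨h1, -⟩) <;> omega

lemma any_box (k : Fin 4) (N : ℕ) {z : ℕ} (hz : z ∈ AA lk) :
    L (σ 0 k) z (2 * N) ↔ key lk (colOf σ) k z ≤ key lk (colOf σ) k (2 * N) := by
  by_cases he : z = 2 * N
  · subst he
    exact box_any hL hσ hlk k N hz
  · constructor
    · intro h
      by_contra hcon
      push Not at hcon
      have h2 := (box_any hL hσ hlk k N hz).mpr hcon.le
      exact he (lin_anti hL _ h h2)
    · intro h
      by_contra hcon
      have h2 := lin_total hL _ hz (ev_mem N) hcon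
      have h3 := (box_any hL hσ hlk k N hz).mp h2
      exact he (key_inj _ _ (le_antisymm h h3))

/-- Between two links there is a point of a box. -/
lemma link_between {c : ℕ → ℕ} {k : ℕ} (hk : k < 4) {m m' : ℕ} (hm : (lk m).isSome)
    (hm' : (lk m').isSome)
    (h : key lk c k (2 * m + 1) < key lk c k (2 * m' + 1)) :
    ∃ N, key lk c k (2 * m + 1) < key lk c k (2 * N) ∧
      key lk c k (2 * N) < key lk c k (2 * m' + 1) := by
  obtain ⟨s, hs⟩ := Option.isSome_iff_exists.mp hm
  obtain ⟨s', hs'⟩ := Option.isSome_iff_exists.mp hm'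
  have lt_key : ∀ {a b : ℕ} {p q : ℚ},
      (toLex (a, p) : ℕ ×ₗ ℚ) < toLex (b, q) ↔ a < b ∨ (a = b ∧ p < q) := by
    intro a b p q
    rw [Prod.Lex.toLex_lt_toLex]
  by_cases hk3 : k = 3
  · subst hk3
    rw [key_l3, key_l3, lt_key] at h
    have h1 : gam m < gam m' := by
      rcases h with h | h
      · omega
      · exact h.2
    obtain ⟨N, -, h2, h3, -⟩ := pickA 0 3 (p := gam m) (q := gam m') (p' := 0) (q' := 1)
      (gam_pos _).le h1 le_rfl (by norm_num) (by norm_num)
    refine ⟨N, ?_, ?_⟩
    · rw [key_l3, key_b3, lt_key]; exact Or.inr ⟨rfl, h2⟩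
    · rw [key_l3, key_b3, lt_key]; exact Or.inr ⟨rfl, h3⟩
  · have hk' : k < 3 := by omega
    rw [key_l c hk' hs, key_l c hk' hs', lt_key] at h
    generalize hp : (if c m = k then m / 3 else s / 3) = p at h
    generalize hp' : (if c m' = k then m' / 3 else s' / 3) = p' at h
    have haxlt := ax_lt c p k
    rcases h with h | ⟨h, h1⟩
    · obtain ⟨N, hN, h2, -, -⟩ := pickA p (ax c p k) (p := gam m) (q := gam m + 1) (p' := 0)
        (q' := 1) (gam_pos _).le (by linarith) le_rfl (by norm_num) (by omega)
      refine ⟨N, ?_, ?_⟩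
      · rw [key_l c hk' hs, key_b c hk', lt_key, hp, hN]; exact Or.inr ⟨rfl, h2⟩
      · rw [key_l c hk' hs', key_b c hk', lt_key, hp', hN]; exact Or.inl h
    · obtain ⟨N, hN, h2, h3, -⟩ := pickA p (ax c p k) (p := gam m) (q := gam m') (p' := 0)
        (q' := 1) (gam_pos _).le h1 le_rfl (by norm_num) (by omega)
      refine ⟨N, ?_, ?_⟩
      · rw [key_l c hk' hs, key_b c hk', lt_key, hp, hN]; exact Or.inr ⟨rfl, h2⟩
      · rw [key_l c hk' hs', key_b c hk', lt_key, hp', hN]; exact Or.inr ⟨h, h3⟩

lemma all_all (k : Fin 4) {z z' : ℕ} (hz : z ∈ AA lk) (hz' : z' ∈ AA lk) :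
    L (σ 0 k) z z' ↔ key lk (colOf σ) k z ≤ key lk (colOf σ) k z' := by
  rcases ev_or_odd z with ⟨N, rfl⟩ | ⟨m, rfl⟩
  · exact box_any hL hσ hlk k N hz'
  rcases ev_or_odd z' with ⟨N', rfl⟩ | ⟨m', rfl⟩
  · exact any_box hL hσ hlk k N' hz
  have key1 : ∀ {m m' : ℕ}, 2 * m + 1 ∈ AA lk → 2 * m' + 1 ∈ AA lk →
      key lk (colOf σ) k (2 * m + 1) < key lk (colOf σ) k (2 * m' + 1) →
      L (σ 0 k) (2 * m + 1) (2 * m' + 1) := by
    intro m m' hz hz' h
    obtain ⟨N, h1, h2⟩ := link_between hL hσ hlk k.2 (odd_mem.mp hz) (odd_mem.mp hz') h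
    exact lin_trans hL _ ((any_box hL hσ hlk k N hz).mpr h1.le)
      ((box_any hL hσ hlk k N hz').mpr h2.le)
  constructor
  · intro h
    by_contra hcon
    push Not at hcon
    have h2 := key1 hz' hz hcon
    have h3 := lin_anti hL _ h h2
    rw [h3] at hcon
    exact lt_irrefl _ hcon
  · intro h
    rcases h.lt_or_eq with h1 | h1
    · exact key1 hz hz' h1
    · rw [key_inj _ _ h1]
      exact ((hL.1 (σ 0 k)).2.2.2 _ hz' _ hz').elim id id

end main

/-- Every solution comes from a system of colours. -/
theorem rigid (hlk : ∀ m s, lk m = some s → s / 3 < m / 3)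
    (hL : IsSolution (AA lk) (RR lk) 4 L) :
    ∃ τ : Equiv.Perm (Fin 4), ∃ c : ℕ → ℕ, Good lk c ∧ (∀ a < 3, c a = a) ∧
      ∀ k : Fin 4, L (τ k) = LL lk c k := by
  choose σ hσ using fun l => level_perm hL l
  refine ⟨σ 0, colOf σ, col_good hL hσ hlk, fun a ha => ?_, fun k => ?_⟩
  · have := colOf_iff σ (l := 0) ha (k := a) (by omega)
    rw [Nat.mul_zero, Nat.zero_add] at this
    exact this.mpr rfl
  · funext z z'
    apply propext
    constructor
    · intro h
      have h1 := (hL.1 (σ 0 k)).1 z z' h
      exact ⟨h1.1, h1.2, (all_all hL hσ hlk k h1.1 h1.2).mp h⟩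
    · rintro ⟨h1, h2, h3⟩
      exact (all_all hL hσ hlk k h1 h2).mpr h3

end Pool.Agent.Helper539.Dim
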