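import Mathlib
import Pool.Agent.Helper539.DimRigid2

set_option autoImplicit false

namespace Pool.Agent.Helper539.Dim

/-! ### Nodes -/

/-- The node with counter `i` and reversed string `ρ`. -/
def nd (i : ℕ) (ρ : List ℕ) : ℕ := Nat.pair i (Encodable.encode ρ)

/-- The counter of a node. -/
def ctr (ν : ℕ) : ℕ := ν.unpair.1

/-- The reversed string of a node. -/
def str (ν : ℕ) : List ℕ := Denumerable.ofNat (List ℕ) ν.unpair.2

lemma nd_eta (ν : ℕ) : nd (ctr ν) (str ν) = ν := by
  unfold nd ctr str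
  rw [Denumerable.encode_ofNat, Nat.pair_unpair]

lemma ctr_nd (i : ℕ) (ρ : List ℕ) : ctr (nd i ρ) = i := by
  unfold nd ctr
  rw [Nat.unpair_pair]

lemma str_nd (i : ℕ) (ρ : List ℕ) : str (nd i ρ) = ρ := by
  unfold nd str
  rw [Nat.unpair_pair]
  exact Denumerable.ofNat_encode ρ

/-- The child that closes the current entry. -/
def stopN (ν : ℕ) : ℕ := Nat.pair 0 (ν + 1)

/-- The child that increases the current entry. -/
def contN (ν : ℕ) : ℕ := Nat.pair (ν.unpair.1 + 1) ν.unpair.2

lemma stopN_nd (i : ℕ) (ρ : List ℕ) : stopN (nd i ρ) = nd 0 (i :: ρ) := by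
  unfold stopN nd
  rw [Encodable.encode_list_cons]
  rfl

lemma contN_nd (i : ℕ) (ρ : List ℕ) : contN (nd i ρ) = nd (i + 1) ρ := by
  unfold contN nd
  rw [Nat.unpair_pair]

lemma nd_zero : nd 0 [] = 0 := by
  unfold nd
  rw [Encodable.encode_list_nil]
  rfl

/-- The parent of a node. -/
def par (ν : ℕ) : ℕ :=
  if ν.unpair.1 = 0 then ν.unpair.2 - 1 else Nat.pair (ν.unpair.1 - 1) ν.unpair.2

lemma par_stopN (ν : ℕ) : par (stopN ν) = ν := by
  unfold par stopN
  simp

lemma par_contN (ν : ℕ) : par (contN ν) = ν := by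
  unfold par contN
  simp

lemma stopN_pos (ν : ℕ) : stopN ν ≠ 0 := by
  unfold stopN
  have := Nat.right_le_pair 0 (ν + 1)
  omega

lemma contN_pos (ν : ℕ) : contN ν ≠ 0 := by
  unfold contN
  have := Nat.left_le_pair (ν.unpair.1 + 1) ν.unpair.2
  omega

lemma lt_stopN (ν : ℕ) : ν < stopN ν := by
  unfold stopN
  have := Nat.right_le_pair 0 (ν + 1)
  omega

lemma lt_contN (ν : ℕ) : ν < contN ν := by
  unfold contN
  conv_lhs => rw [← Nat.pair_unpair ν]
  exact Nat.pair_lt_pair_left _ (Nat.lt_succ_self _)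

lemma node_cases (ν : ℕ) : ν = 0 ∨ ν = stopN (par ν) ∨ ν = contN (par ν) := by
  rw [← nd_eta ν]
  rcases Nat.eq_zero_or_pos (ctr ν) with h | h
  · rw [h]
    cases hs : str ν with
    | nil => left; exact nd_zero
    | cons j ρ =>
      right; left
      rw [← stopN_nd, par_stopN]
  · obtain ⟨i, hi⟩ : ∃ i, ctr ν = i + 1 := ⟨ctr ν - 1, by omega⟩
    right; right
    rw [hi, ← contN_nd, par_contN]

lemma par_lt {ν : ℕ} (h : ν ≠ 0) : par ν < ν := by
  rcases node_cases ν with h1 | h1 | h1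
  · exact absurd h1 h
  · conv_rhs => rw [h1]
    exact lt_stopN _
  · conv_rhs => rw [h1]
    exact lt_contN _

/-- Induction over nodes. -/
lemma node_ind {Q : ℕ → Prop} (h0 : Q 0) (hs : ∀ ν, Q ν → Q (stopN ν))
    (hc : ∀ ν, Q ν → Q (contN ν)) (ν : ℕ) : Q ν := by
  induction ν using Nat.strong_induction_on with
  | _ ν ih =>
    rcases node_cases ν with h | h | h
    · rw [h]; exact h0
    · rw [h]
      exact hs _ (ih _ (by conv_rhs => rw [h]
                           exact lt_stopN _))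
    · rw [h]
      exact hc _ (ih _ (by conv_rhs => rw [h]
                           exact lt_contN _))

/-- The weight of a string. -/
def wt (ρ : List ℕ) : ℕ := ρ.foldr (fun a b => a + b + 2) 0

/-- The active colour of a node. -/
def bet (ν : ℕ) : ℕ := (ctr ν + wt (str ν)) % 3

lemma bet_zero : bet 0 = 0 := by
  rw [← nd_zero]
  unfold bet
  rw [ctr_nd, str_nd]
  rfl

lemma bet_stopN (ν : ℕ) : bet (stopN ν) = (bet ν + 2) % 3 := by
  rw [← nd_eta ν, stopN_nd]
  unfold bet
  rw [ctr_nd, str_nd, ctr_nd, str_nd]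
  show (0 + (ctr ν + wt (str ν) + 2)) % 3 = _
  omega

lemma bet_contN (ν : ℕ) : bet (contN ν) = (bet ν + 1) % 3 := by
  rw [← nd_eta ν, contN_nd]
  unfold bet
  rw [ctr_nd, str_nd, ctr_nd, str_nd]
  omega

lemma bet_lt (ν : ℕ) : bet ν < 3 := Nat.mod_lt _ (by norm_num)

/-! ### The system of links of a tree -/

/-- The system of links; `dd` marks the dead nodes. -/
def lkT (dd : ℕ → Bool) (m : ℕ) : Option ℕ :=
  if m < 3 then none
  else if (m - 3) % 6 = 0 then some (if (m - 3) / 6 = 0 then 0 else 6 * par ((m - 3) / 6) + 5)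
  else if (m - 3) % 6 = 2 then (if dd ((m - 3) / 6) then some (bet ((m - 3) / 6)) else none)
  else if (m - 3) % 6 = 3 then some (6 * ((m - 3) / 6) + 4)
  else if (m - 3) % 6 = 4 then some (bet ((m - 3) / 6))
  else none

variable {dd : ℕ → Bool}

lemma lkT_lt {m s : ℕ} (h : lkT dd m = some s) : s / 3 < m / 3 := by
  unfold lkT at h
  have hb := bet_lt ((m - 3) / 6)
  split_ifs at h with h1 h2 h3 h4 h5 h6 h7
  · rw [Option.some.injEq] at h
    omega
  · rw [Option.some.injEq] at h
    have := par_lt h3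
    omega
  · rw [Option.some.injEq] at h
    omega
  · rw [Option.some.injEq] at h
    omega
  · rw [Option.some.injEq] at h
    omega

lemma lkT_Z0 : lkT dd 3 = some 0 := by
  unfold lkT
  rw [if_neg (by norm_num), if_pos (by norm_num), if_pos (by norm_num)]

lemma lkT_Z {ν : ℕ} (h : ν ≠ 0) : lkT dd (6 * ν + 3) = some (6 * par ν + 5) := by
  unfold lkT
  have e : (6 * ν + 3 - 3) / 6 = ν := by omega
  rw [if_neg (by omega), if_pos (by omega), e, if_neg h]

lemma lkT_V {ν : ℕ} (h : dd ν = true) : lkT dd (6 * ν + 5) = some (bet ν) := by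
  unfold lkT
  have e : (6 * ν + 5 - 3) / 6 = ν := by omega
  rw [if_neg (by omega), if_neg (by omega), if_pos (by omega), e, if_pos h]

lemma lkT_W0 (ν : ℕ) : lkT dd (6 * ν + 6) = some (6 * ν + 4) := by
  unfold lkT
  have e : (6 * ν + 6 - 3) / 6 = ν := by omega
  rw [if_neg (by omega), if_neg (by omega), if_neg (by omega), if_pos (by omega), e]

lemma lkT_W1 (ν : ℕ) : lkT dd (6 * ν + 7) = some (bet ν) := by
  unfold lkT
  have e : (6 * ν + 7 - 3) / 6 = ν := by omega
  rw [if_neg (by omega), if_neg (by omega), if_neg (by omega), if_neg (by omega),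
    if_pos (by omega), e]

/-- The colour entering a node, in terms of the outgoing colours. -/
def zin (V : ℕ → ℕ) (ν : ℕ) : ℕ := if ν = 0 then 0 else V (par ν)

/-- The system of colours with given outgoing colours. -/
def colV (V : ℕ → ℕ) (m : ℕ) : ℕ :=
  if m < 3 then m
  else if (m - 3) % 6 = 0 then zin V ((m - 3) / 6)
  else if (m - 3) % 6 = 1 then 3 - zin V ((m - 3) / 6) - V ((m - 3) / 6)
  else if (m - 3) % 6 = 2 then V ((m - 3) / 6)
  else if (m - 3) % 6 = 3 then 3 - zin V ((m - 3) / 6) - V ((m - 3) / 6)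
  else if (m - 3) % 6 = 4 then bet ((m - 3) / 6)
  else zin V ((m - 3) / 6) + V ((m - 3) / 6) - bet ((m - 3) / 6)

/-- The local condition on outgoing colours. -/
def OkV (dd : ℕ → Bool) (V : ℕ → ℕ) : Prop :=
  ∀ ν, (zin V ν = bet ν ∧ V ν ≠ bet ν ∧ V ν < 3 ∧ dd ν = false) ∨ (zin V ν ≠ bet ν ∧ V ν = bet ν)

lemma colV_lt3 (V : ℕ → ℕ) {m : ℕ} (h : m < 3) : colV V m = m := by
  unfold colV; rw [if_pos h]

lemma colV_Z (V : ℕ → ℕ) (ν : ℕ) : colV V (6 * ν + 3) = zin V ν := by
  unfold colV
  have e : (6 * ν + 3 - 3) / 6 = ν := by omega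
  rw [if_neg (by omega), if_pos (by omega), e]

lemma colV_U (V : ℕ → ℕ) (ν : ℕ) : colV V (6 * ν + 4) = 3 - zin V ν - V ν := by
  unfold colV
  have e : (6 * ν + 4 - 3) / 6 = ν := by omega
  rw [if_neg (by omega), if_neg (by omega), if_pos (by omega), e]

lemma colV_V (V : ℕ → ℕ) (ν : ℕ) : colV V (6 * ν + 5) = V ν := by
  unfold colV
  have e : (6 * ν + 5 - 3) / 6 = ν := by omega
  rw [if_neg (by omega), if_neg (by omega), if_neg (by omega), if_pos (by omega), e]

lemma colV_W0 (V : ℕ → ℕ) (ν : ℕ) : colV V (6 * ν + 6) = 3 - zin V ν - V ν := by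
  unfold colV
  have e : (6 * ν + 6 - 3) / 6 = ν := by omega
  rw [if_neg (by omega), if_neg (by omega), if_neg (by omega), if_neg (by omega),
    if_pos (by omega), e]

lemma colV_W1 (V : ℕ → ℕ) (ν : ℕ) : colV V (6 * ν + 7) = bet ν := by
  unfold colV
  have e : (6 * ν + 7 - 3) / 6 = ν := by omega
  rw [if_neg (by omega), if_neg (by omega), if_neg (by omega), if_neg (by omega),
    if_neg (by omega), if_pos (by omega), e]

lemma colV_W2 (V : ℕ → ℕ) (ν : ℕ) : colV V (6 * ν + 8) = zin V ν + V ν - bet ν := by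
  unfold colV
  have e : (6 * ν + 8 - 3) / 6 = ν := by omega
  rw [if_neg (by omega), if_neg (by omega), if_neg (by omega), if_neg (by omega),
    if_neg (by omega), if_neg (by omega), e]

lemma slot_cases (m : ℕ) : m < 3 ∨ ∃ ν, m = 6 * ν + 3 ∨ m = 6 * ν + 4 ∨ m = 6 * ν + 5 ∨
    m = 6 * ν + 6 ∨ m = 6 * ν + 7 ∨ m = 6 * ν + 8 := by
  by_cases h : m < 3
  · exact Or.inl h
  · exact Or.inr ⟨(m - 3) / 6, by omega⟩

lemma level_cases (l : ℕ) : l = 0 ∨ ∃ ν, l = 2 * ν + 1 ∨ l = 2 * ν + 2 := by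
  by_cases h : l = 0
  · exact Or.inl h
  · exact Or.inr ⟨(l - 1) / 2, by omega⟩

lemma zin_lt {V : ℕ → ℕ} (hV : OkV dd V) (ν : ℕ) : zin V ν < 3 := by
  unfold zin
  split_ifs
  · norm_num
  · have := bet_lt (par ν)
    rcases hV (par ν) with h | h <;> omega

/-- Outgoing colours satisfying the local condition give a good system of colours. -/
lemma good_colV {V : ℕ → ℕ} (hV : OkV dd V) : Good (lkT dd) (colV V) := by
  refine ⟨fun m => ?_, fun l a b ha hb h => ?_, fun m s hs => ?_⟩
  · rcases slot_cases m with h | ⟨ν, h | h | h | h | h | h⟩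
    · rw [colV_lt3 V h]; exact h
    · rw [h, colV_Z]; exact zin_lt hV ν
    · have := bet_lt ν
      have := zin_lt hV ν
      rw [h, colV_U]; rcases hV ν with h | h <;> omega
    · have := bet_lt ν
      rw [h, colV_V]; rcases hV ν with h | h <;> omega
    · have := bet_lt ν
      have := zin_lt hV ν
      rw [h, colV_W0]; rcases hV ν with h | h <;> omega
    · rw [h, colV_W1]; exact bet_lt ν
    · have := bet_lt ν
      have := zin_lt hV ν
      rw [h, colV_W2]; rcases hV ν with h | h <;> omega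
  · rcases level_cases l with rfl | ⟨ν, rfl | rfl⟩
    · rw [colV_lt3 V (by omega), colV_lt3 V (by omega)] at h
      omega
    · have e0 : 3 * (2 * ν + 1) + 0 = 6 * ν + 3 := by ring
      have e1 : 3 * (2 * ν + 1) + 1 = 6 * ν + 4 := by ring
      have e2 : 3 * (2 * ν + 1) + 2 = 6 * ν + 5 := by ring
      have c0 : colV V (3 * (2 * ν + 1) + 0) = zin V ν := by rw [e0, colV_Z]
      have c1 : colV V (3 * (2 * ν + 1) + 1) = 3 - zin V ν - V ν := by rw [e1, colV_U]
      have c2 : colV V (3 * (2 * ν + 1) + 2) = V ν := by rw [e2, colV_V]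
      have b1 := bet_lt ν
      have b2 := zin_lt hV ν
      have b3 := hV ν
      interval_cases a <;> interval_cases b <;> simp only [c0, c1, c2] at h <;> omega
    · have e0 : 3 * (2 * ν + 2) + 0 = 6 * ν + 6 := by ring
      have e1 : 3 * (2 * ν + 2) + 1 = 6 * ν + 7 := by ring
      have e2 : 3 * (2 * ν + 2) + 2 = 6 * ν + 8 := by ring
      have c0 : colV V (3 * (2 * ν + 2) + 0) = 3 - zin V ν - V ν := by rw [e0, colV_W0]
      have c1 : colV V (3 * (2 * ν + 2) + 1) = bet ν := by rw [e1, colV_W1]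
      have c2 : colV V (3 * (2 * ν + 2) + 2) = zin V ν + V ν - bet ν := by rw [e2, colV_W2]
      have b1 := bet_lt ν
      have b2 := zin_lt hV ν
      have b3 := hV ν
      interval_cases a <;> interval_cases b <;> simp only [c0, c1, c2] at h <;> omega
  · rcases slot_cases m with h | ⟨ν, h | h | h | h | h | h⟩
    · unfold lkT at hs
      rw [if_pos h] at hs
      simp at hs
    · subst h
      rw [colV_Z]
      by_cases hν : ν = 0
      · subst hν
        rw [show 6 * 0 + 3 = 3 by norm_num, lkT_Z0, Option.some.injEq] at hs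
        rw [← hs, colV_lt3 V (by norm_num)]
        rfl
      · rw [lkT_Z hν, Option.some.injEq] at hs
        rw [← hs, colV_V]
        unfold zin
        rw [if_neg hν]
    · subst h
      unfold lkT at hs
      rw [if_neg (by omega), if_neg (by omega), if_neg (by omega), if_neg (by omega),
        if_neg (by omega)] at hs
      simp at hs
    · subst h
      rw [colV_V]
      cases hd : dd ν with
      | true =>
        rw [lkT_V hd, Option.some.injEq] at hs
        rw [← hs, colV_lt3 V (bet_lt ν)]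
        rcases hV ν with h | h
        · rw [hd] at h; simp at h
        · exact h.2
      | false =>
        unfold lkT at hs
        have e : (6 * ν + 5 - 3) / 6 = ν := by omega
        rw [if_neg (by omega), if_neg (by omega), if_pos (by omega), e, hd] at hs
        simp at hs
    · subst h
      rw [lkT_W0, Option.some.injEq] at hs
      rw [← hs, colV_W0, colV_U]
    · subst h
      rw [lkT_W1, Option.some.injEq] at hs
      rw [← hs, colV_W1, colV_lt3 V (bet_lt ν)]
    · subst h
      unfold lkT at hs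
      rw [if_neg (by omega), if_neg (by omega), if_neg (by omega), if_neg (by omega),
        if_neg (by omega)] at hs
      simp at hs

/-- A normalised good system of colours comes from its outgoing colours. -/
lemma of_good {c : ℕ → ℕ} (hc : Good (lkT dd) c) (h0 : ∀ a < 3, c a = a) :
    OkV dd (fun ν => c (6 * ν + 5)) ∧ c = colV (fun ν => c (6 * ν + 5)) := by
  set V : ℕ → ℕ := fun ν => c (6 * ν + 5) with hVdef
  have hZ : ∀ ν, c (6 * ν + 3) = zin V ν := by
    intro ν
    unfold zin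
    by_cases hν : ν = 0
    · rw [if_pos hν, hν]
      have := hc.link 3 0 lkT_Z0
      rw [h0 0 (by norm_num)] at this
      exact this
    · rw [if_neg hν]
      exact hc.link _ _ (lkT_Z hν)
  have hneq : ∀ l a b, a < 3 → b < 3 → a ≠ b → c (3 * l + a) ≠ c (3 * l + b) :=
    fun l a b ha hb hne h => hne (hc.inj l a b ha hb h)
  have x01 : ∀ ν, c (6 * ν + 3) ≠ c (6 * ν + 4) := fun ν => by
    have := hneq (2 * ν + 1) 0 1 (by norm_num) (by norm_num) (by norm_num)
    rwa [show 3 * (2 * ν + 1) + 0 = 6 * ν + 3 by ring,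
      show 3 * (2 * ν + 1) + 1 = 6 * ν + 4 by ring] at this
  have x02 : ∀ ν, c (6 * ν + 3) ≠ c (6 * ν + 5) := fun ν => by
    have := hneq (2 * ν + 1) 0 2 (by norm_num) (by norm_num) (by norm_num)
    rwa [show 3 * (2 * ν + 1) + 0 = 6 * ν + 3 by ring,
      show 3 * (2 * ν + 1) + 2 = 6 * ν + 5 by ring] at this
  have x12 : ∀ ν, c (6 * ν + 4) ≠ c (6 * ν + 5) := fun ν => by
    have := hneq (2 * ν + 1) 1 2 (by norm_num) (by norm_num) (by norm_num)
    rwa [show 3 * (2 * ν + 1) + 1 = 6 * ν + 4 by ring,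
      show 3 * (2 * ν + 1) + 2 = 6 * ν + 5 by ring] at this
  have w01 : ∀ ν, c (6 * ν + 6) ≠ c (6 * ν + 7) := fun ν => by
    have := hneq (2 * ν + 2) 0 1 (by norm_num) (by norm_num) (by norm_num)
    rwa [show 3 * (2 * ν + 2) + 0 = 6 * ν + 6 by ring,
      show 3 * (2 * ν + 2) + 1 = 6 * ν + 7 by ring] at this
  have w02 : ∀ ν, c (6 * ν + 6) ≠ c (6 * ν + 8) := fun ν => by
    have := hneq (2 * ν + 2) 0 2 (by norm_num) (by norm_num) (by norm_num)
    rwa [show 3 * (2 * ν + 2) + 0 = 6 * ν + 6 by ring,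
      show 3 * (2 * ν + 2) + 2 = 6 * ν + 8 by ring] at this
  have w12 : ∀ ν, c (6 * ν + 7) ≠ c (6 * ν + 8) := fun ν => by
    have := hneq (2 * ν + 2) 1 2 (by norm_num) (by norm_num) (by norm_num)
    rwa [show 3 * (2 * ν + 2) + 1 = 6 * ν + 7 by ring,
      show 3 * (2 * ν + 2) + 2 = 6 * ν + 8 by ring] at this
  have hW0 : ∀ ν, c (6 * ν + 6) = c (6 * ν + 4) := fun ν => hc.link _ _ (lkT_W0 ν)
  have hW1 : ∀ ν, c (6 * ν + 7) = bet ν := fun ν => by
    rw [hc.link _ _ (lkT_W1 ν), h0 _ (bet_lt ν)]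
  have hlt := hc.lt
  have hOk : OkV dd V := by
    intro ν
    have a1 := x01 ν
    have a2 := x02 ν
    have a3 := x12 ν
    have a4 := w01 ν
    rw [hW0, hW1] at a4
    rw [hZ] at a1 a2
    have l1 := hlt (6 * ν + 4)
    have l2 := hlt (6 * ν + 5)
    have l3 := hlt (6 * ν + 3)
    rw [hZ] at l3
    have l4 := bet_lt ν
    have hVν : V ν = c (6 * ν + 5) := rfl
    by_cases hz : zin V ν = bet ν
    · left
      refine ⟨hz, by omega, by omega, ?_⟩
      by_contra hcon
      rw [Bool.not_eq_false] at hcon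
      have := hc.link _ _ (lkT_V hcon)
      rw [h0 _ (bet_lt ν)] at this
      omega
    · right
      exact ⟨hz, by omega⟩
  refine ⟨hOk, ?_⟩
  funext m
  rcases slot_cases m with h | ⟨ν, h | h | h | h | h | h⟩
  · rw [colV_lt3 V h, h0 m h]
  · rw [h, colV_Z, hZ]
  · rw [h, colV_U]
    have a1 := x01 ν
    have a2 := x02 ν
    have a3 := x12 ν
    rw [hZ] at a1 a2
    have l1 := hlt (6 * ν + 4)
    have l2 := hlt (6 * ν + 5)
    have l3 := hlt (6 * ν + 3)
    rw [hZ] at l3
    have hVν : V ν = c (6 * ν + 5) := rfl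
    omega
  · rw [h, colV_V]
  · rw [h, colV_W0, hW0]
    have a1 := x01 ν
    have a2 := x02 ν
    have a3 := x12 ν
    rw [hZ] at a1 a2
    have l1 := hlt (6 * ν + 4)
    have l2 := hlt (6 * ν + 5)
    have l3 := hlt (6 * ν + 3)
    rw [hZ] at l3
    have hVν : V ν = c (6 * ν + 5) := rfl
    omega
  · rw [h, colV_W1, hW1]
  · rw [h, colV_W2]
    have a1 := x01 ν
    have a2 := x02 ν
    have a3 := x12 ν
    rw [hZ] at a1 a2
    have l1 := hlt (6 * ν + 4)
    have l2 := hlt (6 * ν + 5)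
    have l3 := hlt (6 * ν + 3)
    rw [hZ] at l3
    have hVν : V ν = c (6 * ν + 5) := rfl
    have a4 := w01 ν
    have a5 := w02 ν
    have a6 := w12 ν
    rw [hW0] at a4 a5
    rw [hW1] at a4 a6
    have l4 := bet_lt ν
    have l5 := hlt (6 * ν + 8)
    omega

end Pool.Agent.Helper539.Dim
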