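import Mathlib
import Pool.Agent.Helper539.DimTree

set_option autoImplicit false

namespace Pool.Agent.Helper539.Dim

/-! ### Paths and outgoing colours -/

/-- The reversed initial segment. -/
def rr (f : ℕ → ℕ) (n : ℕ) : List ℕ := (restrict f n).reverse

lemma restrict_succ (f : ℕ → ℕ) (n : ℕ) : restrict f (n + 1) = restrict f n ++ [f n] := by
  unfold restrict
  rw [List.range_succ, List.map_append]
  rfl

lemma rr_zero (f : ℕ → ℕ) : rr f 0 = [] := rfl

lemma rr_succ (f : ℕ → ℕ) (n : ℕ) : rr f (n + 1) = f n :: rr f n := by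
  unfold rr
  rw [restrict_succ, List.reverse_append]
  rfl

lemma rr_length (f : ℕ → ℕ) (n : ℕ) : (rr f n).length = n := by
  unfold rr restrict
  simp

/-- The node lies on the path `f`. -/
def onf (f : ℕ → ℕ) (ν : ℕ) : Prop := str ν = rr f (str ν).length ∧ ctr ν ≤ f (str ν).length

open Classical in
/-- The outgoing colours of the path `f`. -/
noncomputable def Vf (f : ℕ → ℕ) (ν : ℕ) : ℕ :=
  if onf f ν then (if f (str ν).length = ctr ν then (bet ν + 2) % 3 else (bet ν + 1) % 3)
  else bet ν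

lemma onf_zero (f : ℕ → ℕ) : onf f 0 := by
  rw [← nd_zero]
  unfold onf
  rw [str_nd, ctr_nd]
  exact ⟨rfl, Nat.zero_le _⟩

lemma onf_stopN (f : ℕ → ℕ) (ν : ℕ) : onf f (stopN ν) ↔ onf f ν ∧ f (str ν).length = ctr ν := by
  rw [← nd_eta ν, stopN_nd]
  unfold onf
  rw [str_nd, ctr_nd, str_nd, ctr_nd, List.length_cons, rr_succ, List.cons.injEq]
  constructor
  · rintro ⟨⟨h1, h2⟩, -⟩
    exact ⟨⟨h2, h1.le⟩, h1.symm⟩
  · rintro ⟨⟨h1, h2⟩, h3⟩
    exact ⟨⟨h3.symm, h1⟩, Nat.zero_le _⟩

lemma onf_contN (f : ℕ → ℕ) (ν : ℕ) : onf f (contN ν) ↔ onf f ν ∧ f (str ν).length ≠ ctr ν := by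
  rw [← nd_eta ν, contN_nd]
  unfold onf
  rw [str_nd, ctr_nd, str_nd, ctr_nd]
  constructor
  · rintro ⟨h1, h2⟩
    exact ⟨⟨h1, by omega⟩, by omega⟩
  · rintro ⟨⟨h1, h2⟩, h3⟩
    exact ⟨h1, by omega⟩

lemma zin_stopN (V : ℕ → ℕ) (ν : ℕ) : zin V (stopN ν) = V ν := by
  unfold zin
  rw [if_neg (stopN_pos ν), par_stopN]

lemma zin_contN (V : ℕ → ℕ) (ν : ℕ) : zin V (contN ν) = V ν := by
  unfold zin
  rw [if_neg (contN_pos ν), par_contN]

lemma Vf_stop {f : ℕ → ℕ} {ν : ℕ} (h : onf f ν) (h' : f (str ν).length = ctr ν) :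
    Vf f ν = (bet ν + 2) % 3 := by unfold Vf; rw [if_pos h, if_pos h']

lemma Vf_cont {f : ℕ → ℕ} {ν : ℕ} (h : onf f ν) (h' : f (str ν).length ≠ ctr ν) :
    Vf f ν = (bet ν + 1) % 3 := by unfold Vf; rw [if_pos h, if_neg h']

lemma Vf_off {f : ℕ → ℕ} {ν : ℕ} (h : ¬ onf f ν) : Vf f ν = bet ν := by
  unfold Vf; rw [if_neg h]

lemma zin_Vf (f : ℕ → ℕ) (ν : ℕ) : zin (Vf f) ν = bet ν ↔ onf f ν := by
  have hb : ∀ μ, bet μ < 3 := bet_lt
  rcases node_cases ν with h | h | h
  · subst h
    have := onf_zero f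
    simp only [this, iff_true]
    rw [bet_zero]
    rfl
  · generalize par ν = μ at h
    subst h
    rw [zin_stopN, onf_stopN, bet_stopN]
    have hμ := hb μ
    by_cases h1 : onf f μ
    · by_cases h2 : f (str μ).length = ctr μ
      · rw [Vf_stop h1 h2]
        exact ⟨fun _ => ⟨h1, h2⟩, fun _ => rfl⟩
      · rw [Vf_cont h1 h2]
        exact ⟨fun h => by omega, fun h => (h2 h.2).elim⟩
    · rw [Vf_off h1]
      exact ⟨fun h => by omega, fun h => (h1 h.1).elim⟩
  · generalize par ν = μ at h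
    subst h
    rw [zin_contN, onf_contN, bet_contN]
    have hμ := hb μ
    by_cases h1 : onf f μ
    · by_cases h2 : f (str μ).length = ctr μ
      · rw [Vf_stop h1 h2]
        exact ⟨fun h => by omega, fun h => (h.2 h2).elim⟩
      · rw [Vf_cont h1 h2]
        exact ⟨fun _ => ⟨h1, h2⟩, fun _ => rfl⟩
    · rw [Vf_off h1]
      exact ⟨fun h => by omega, fun h => (h1 h.1).elim⟩

/-- The dead nodes for the tree `T` and the bound `g`. -/
def DeadFor (T : Set (List ℕ)) (g : List ℕ → ℕ) (dd : ℕ → Bool) : Prop :=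
  ∀ ν, dd ν = true ↔ ((str ν).reverse ∉ T ∨ g (str ν).reverse ≤ ctr ν)

variable {T : Set (List ℕ)} {g : List ℕ → ℕ} {dd : ℕ → Bool}

lemma okV_of_path (hg : ∀ σ i, σ ++ [i] ∈ T → i < g σ)
    (hdd : DeadFor T g dd) {f : ℕ → ℕ} (hf : f ∈ paths T) : OkV dd (Vf f) := by
  intro ν
  have hb := bet_lt ν
  by_cases h : onf f ν
  · left
    have h1 : Vf f ν = (bet ν + 2) % 3 ∨ Vf f ν = (bet ν + 1) % 3 := by
      by_cases h2 : f (str ν).length = ctr ν
      · exact Or.inl (Vf_stop h h2)
      · exact Or.inr (Vf_cont h h2)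
    refine ⟨(zin_Vf f ν).mpr h, by omega, by omega, ?_⟩
    by_contra hcon
    rw [Bool.not_eq_false, hdd] at hcon
    have h3 : (str ν).reverse = restrict f (str ν).length := by
      conv_lhs => rw [h.1]
      unfold rr
      rw [List.reverse_reverse]
    rw [h3] at hcon
    rcases hcon with h4 | h4
    · exact h4 (hf _)
    · have h5 := hf ((str ν).length + 1)
      rw [restrict_succ] at h5
      have := hg _ _ h5
      have := h.2
      omega
  · right
    exact ⟨fun e => h ((zin_Vf f ν).mp e), Vf_off h⟩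

/-- The outgoing colours determine the path. -/
lemma Vf_inj {f f' : ℕ → ℕ} (h : Vf f = Vf f') : f = f' := by
  have key : ∀ n, rr f n = rr f' n → f n = f' n := by
    intro n hn
    have h1 : onf f (nd (f n) (rr f n)) := by
      unfold onf
      rw [str_nd, ctr_nd, rr_length]
      exact ⟨rfl, le_rfl⟩
    have h2 := Vf_stop h1 (by rw [str_nd, ctr_nd, rr_length])
    rw [h] at h2
    have hb := bet_lt (nd (f n) (rr f n))
    have h3 : onf f' (nd (f n) (rr f n)) := by
      by_contra hcon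
      rw [Vf_off hcon] at h2
      omega
    by_contra hne
    have h4 := Vf_cont h3 (by rw [str_nd, ctr_nd, rr_length]; exact Ne.symm hne)
    rw [h4] at h2
    omega
  have hr : ∀ n, rr f n = rr f' n := by
    intro n
    induction n with
    | zero => rfl
    | succ n ih => rw [rr_succ, rr_succ, ih, key n ih]
  funext n
  exact key n (hr n)

section recover
variable (hdd : DeadFor T g dd) {V : ℕ → ℕ} (hV : OkV dd V)

/-- The stopping condition. -/
def stp (V : ℕ → ℕ) (i : ℕ) (ρ : List ℕ) : Prop := V (nd i ρ) = (bet (nd i ρ) + 2) % 3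

open Classical in
/-- The entry selected at a reversed string. -/
noncomputable def sel (V : ℕ → ℕ) (ρ : List ℕ) : ℕ :=
  if h : ∃ i, stp V i ρ then Nat.find h else 0

lemma sel_spec {V : ℕ → ℕ} {ρ : List ℕ} (h : ∃ i, stp V i ρ) : stp V (sel V ρ) ρ := by
  classical
  unfold sel
  rw [dif_pos h]
  exact Nat.find_spec h

lemma sel_min {V : ℕ → ℕ} {ρ : List ℕ} {i : ℕ} (hi : stp V i ρ) : sel V ρ ≤ i := by
  classical
  unfold sel
  rw [dif_pos ⟨i, hi⟩]
  exact Nat.find_min' _ hi

/-- The reversed initial segments of the recovered path. -/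
noncomputable def pre (V : ℕ → ℕ) : ℕ → List ℕ
  | 0 => []
  | n + 1 => sel V (pre V n) :: pre V n

/-- The recovered path. -/
noncomputable def rec' (V : ℕ → ℕ) (n : ℕ) : ℕ := sel V (pre V n)

lemma rr_rec (V : ℕ → ℕ) (n : ℕ) : rr (rec' V) n = pre V n := by
  induction n with
  | zero => rfl
  | succ n ih => rw [rr_succ, ih]; rfl

include hV in
lemma on_stop (ν : ℕ) : zin V (stopN ν) = bet (stopN ν) ↔
    zin V ν = bet ν ∧ V ν = (bet ν + 2) % 3 := by
  rw [zin_stopN, bet_stopN]
  have hb := bet_lt ν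
  constructor
  · intro h
    refine ⟨?_, h⟩
    rcases hV ν with h1 | h1 <;> omega
  · exact fun h => h.2

include hV in
lemma on_cont (ν : ℕ) : zin V (contN ν) = bet (contN ν) ↔
    zin V ν = bet ν ∧ V ν ≠ (bet ν + 2) % 3 := by
  rw [zin_contN, bet_contN]
  have hb := bet_lt ν
  constructor
  · intro h
    refine ⟨?_, by omega⟩
    rcases hV ν with h1 | h1 <;> omega
  · rintro ⟨h1, h2⟩
    rcases hV ν with h3 | h3 <;> omega

include hV in
lemma on_zero : zin V 0 = bet 0 := by rw [bet_zero]; rfl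

include hdd hV in
lemma exists_stp {ρ : List ℕ} (h0 : zin V (nd 0 ρ) = bet (nd 0 ρ)) : ∃ i, stp V i ρ := by
  by_contra hcon
  push Not at hcon
  have hall : ∀ i, zin V (nd i ρ) = bet (nd i ρ) := by
    intro i
    induction i with
    | zero => exact h0
    | succ i ih =>
      rw [← contN_nd]
      exact (on_cont hV _).mpr ⟨ih, hcon i⟩
  have h1 := hall (g ρ.reverse)
  have h2 : dd (nd (g ρ.reverse) ρ) = true := by
    rw [hdd, str_nd, ctr_nd]
    exact Or.inr le_rfl
  rcases hV (nd (g ρ.reverse) ρ) with h3 | h3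
  · rw [h2] at h3; simp at h3
  · exact h3.1 h1

include hdd hV in
lemma on_pre (n : ℕ) : zin V (nd 0 (pre V n)) = bet (nd 0 (pre V n)) := by
  induction n with
  | zero =>
    show zin V (nd 0 []) = bet (nd 0 [])
    rw [nd_zero]
    exact on_zero hV
  | succ n ih =>
    show zin V (nd 0 (sel V (pre V n) :: pre V n)) = _
    have hex := exists_stp hdd hV ih
    have hsp : ∀ i, i < sel V (pre V n) → ¬ stp V i (pre V n) := by
      intro i hi h
      have := sel_min h
      omega
    have hsel : stp V (sel V (pre V n)) (pre V n) := sel_spec hex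
    have hall : ∀ i, i ≤ sel V (pre V n) → zin V (nd i (pre V n)) = bet (nd i (pre V n)) := by
      intro i
      induction i with
      | zero => intro _; exact ih
      | succ i ih2 =>
        intro hi
        rw [← contN_nd]
        exact (on_cont hV _).mpr ⟨ih2 (by omega), hsp i (by omega)⟩
    rw [← stopN_nd]
    exact (on_stop hV _).mpr ⟨hall _ le_rfl, hsel⟩

include hdd hV in
lemma sel_iff (n i : ℕ) (hi : i ≤ rec' V n) : stp V i (pre V n) ↔ rec' V n = i := by
  have hex := exists_stp hdd hV (on_pre hdd hV n)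
  constructor
  · intro h
    exact le_antisymm (sel_min h) hi
  · intro h
    rw [← h]
    exact sel_spec hex

include hdd hV in
lemma on_iff (ν : ℕ) : zin V ν = bet ν ↔ onf (rec' V) ν := by
  refine node_ind (Q := fun ν => zin V ν = bet ν ↔ onf (rec' V) ν) ?_ ?_ ?_ ν
  · simp only [on_zero hV, onf_zero]
  · intro ν ih
    rw [on_stop hV, onf_stopN, ih]
    refine and_congr_right (fun h => ?_)
    have h1 : str ν = pre V (str ν).length := by
      rw [← rr_rec]; exact h.1
    have h2 := sel_iff hdd hV (str ν).length (ctr ν) h.2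
    rw [← h1] at h2
    unfold stp at h2
    rw [nd_eta] at h2
    exact h2
  · intro ν ih
    rw [on_cont hV, onf_contN, ih]
    refine and_congr_right (fun h => ?_)
    have h1 : str ν = pre V (str ν).length := by
      rw [← rr_rec]; exact h.1
    have h2 := sel_iff hdd hV (str ν).length (ctr ν) h.2
    rw [← h1] at h2
    unfold stp at h2
    rw [nd_eta] at h2
    exact not_congr h2

include hdd hV in
lemma V_eq : V = Vf (rec' V) := by
  funext ν
  have hb := bet_lt ν
  by_cases h : onf (rec' V) ν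
  · have h1 : str ν = pre V (str ν).length := by
      rw [← rr_rec]; exact h.1
    have h2 := sel_iff hdd hV (str ν).length (ctr ν) h.2
    rw [← h1] at h2
    unfold stp at h2
    rw [nd_eta] at h2
    by_cases h3 : rec' V (str ν).length = ctr ν
    · rw [Vf_stop h h3]
      exact h2.mpr h3
    · rw [Vf_cont h h3]
      have h4 : V ν ≠ (bet ν + 2) % 3 := fun e => h3 (h2.mp e)
      have h5 := (on_iff hdd hV ν).mpr h
      rcases hV ν with h6 | h6 <;> omega
  · rw [Vf_off h]
    have h5 : zin V ν ≠ bet ν := fun e => h ((on_iff hdd hV ν).mp e)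
    rcases hV ν with h6 | h6
    · exact (h5 h6.1).elim
    · exact h6.2

include hdd hV in
lemma rec_mem : rec' V ∈ paths T := by
  intro n
  have h1 := on_pre hdd hV n
  have h2 : dd (nd 0 (pre V n)) = false := by
    rcases hV (nd 0 (pre V n)) with h3 | h3
    · exact h3.2.2.2
    · exact (h3.1 h1).elim
  have h3 : ¬ (dd (nd 0 (pre V n)) = true) := by rw [h2]; simp
  rw [hdd, str_nd] at h3
  push Not at h3
  have h4 := h3.1
  rw [← rr_rec] at h4
  unfold rr at h4
  rw [List.reverse_reverse] at h4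
  exact h4

end recover

end Pool.Agent.Helper539.Dim
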