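import Mathlib
import Pool.Agent.Helper539.DimPath

set_option autoImplicit false

namespace Pool.Agent.Helper539.Dim

/-! ### Solutions correspond to pairs (path, permutation) -/

lemma sol_perm {A : Set ℕ} {R : ℕ → ℕ → Prop} {n : ℕ} {M : Fin n → ℕ → ℕ → Prop}
    (h : IsSolution A R n M) (π : Equiv.Perm (Fin n)) : IsSolution A R n (fun i => M (π i)) := by
  refine ⟨fun i => h.1 (π i), fun a b => ?_⟩
  rw [h.2]
  constructor
  · intro h1 i
    exact h1 (π i)
  · intro h1 i
    have : M (π (π.symm i)) a b := h1 (π.symm i)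
    rwa [Equiv.apply_symm_apply] at this

/-- The solution attached to a path and a permutation. -/
def SolOf (dd : ℕ → Bool) (f : ℕ → ℕ) (π : Equiv.Perm (Fin 4)) : Fin 4 → ℕ → ℕ → Prop :=
  fun i => LL (lkT dd) (colV (Vf f)) (π i)

variable {T : Set (List ℕ)} {g : List ℕ → ℕ} {dd : ℕ → Bool}

lemma solOf_sol (hg : ∀ σ i, σ ++ [i] ∈ T → i < g σ) (hdd : DeadFor T g dd) {f : ℕ → ℕ}
    (hf : f ∈ paths T) (π : Equiv.Perm (Fin 4)) :
    IsSolution (AA (lkT dd)) (RR (lkT dd)) 4 (SolOf dd f π) :=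
  sol_perm (sol_of_good (good_colV (okV_of_path hg hdd hf)) (fun _ _ h => lkT_lt h)) π

lemma sol_exists (hdd : DeadFor T g dd) {L : Fin 4 → ℕ → ℕ → Prop}
    (hL : IsSolution (AA (lkT dd)) (RR (lkT dd)) 4 L) :
    ∃ f ∈ paths T, ∃ π : Equiv.Perm (Fin 4), L = SolOf dd f π := by
  obtain ⟨τ, c, hc, h0, h⟩ := rigid (fun _ _ h => lkT_lt h) hL
  obtain ⟨hV, hcV⟩ := of_good hc h0
  refine ⟨rec' _, rec_mem hdd hV, τ.symm, ?_⟩
  funext i
  unfold SolOf
  rw [← V_eq hdd hV, ← hcV, ← h, Equiv.apply_symm_apply]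

/-- Reading a colour off an order. -/
lemma read_off {c : ℕ → ℕ} {lk : ℕ → Option ℕ} (hc : Good lk c) {l a k : ℕ} (ha : a < 3)
    (hk : k < 4) : LL lk c k (2 * tw l a) (2 * tu l a) ↔ c (3 * l + a) = k := by
  unfold LL
  simp only [ev_mem, true_and]
  by_cases hk3 : k = 3
  · subst hk3
    rw [key_b3, key_b3, le_key]
    have h1 := tu_tw_ne l a 3 (by norm_num) (by omega)
    have h2 := hc.lt (3 * l + a)
    constructor
    · rintro (h | ⟨-, h⟩)
      · omega
      · linarith
    · intro h; omega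
  · have hk' : k < 3 := by omega
    rw [key_b c hk', key_b c hk', le_key, lev_tw, lev_tu]
    simp only [lt_irrefl, false_or, true_and]
    constructor
    · intro h
      have h1 := ax_lt c l k
      by_contra hne
      have h2 : a ≠ ax c l k := by
        intro e
        apply hne
        rw [e]
        exact hc.c_ax l hk'
      have h3 := tu_tw_ne l a (ax c l k) (by omega) h2
      linarith
    · intro h
      rw [hc.ax_eq ha h]
      exact (tu_tw_same l a (by omega)).le

/-- Reading the last order off. -/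
lemma read_off3 {c : ℕ → ℕ} {lk : ℕ → Option ℕ} {l k : ℕ} (hk : k < 4) :
    LL lk c k (2 * tw l 3) (2 * tu l 3) ↔ k = 3 := by
  unfold LL
  simp only [ev_mem, true_and]
  by_cases hk3 : k = 3
  · subst hk3
    rw [key_b3, key_b3, le_key]
    simp only [lt_irrefl, false_or, true_and, iff_true]
    exact (tu_tw_same l 3 (by norm_num)).le
  · have hk' : k < 3 := by omega
    rw [key_b c hk', key_b c hk', le_key, lev_tw, lev_tu]
    simp only [lt_irrefl, false_or, true_and, hk3, iff_false, not_le]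
    have h1 := ax_lt c l k
    exact tu_tw_ne l 3 (ax c l k) (by omega) (by omega)

lemma solOf_inj (hg : ∀ σ i, σ ++ [i] ∈ T → i < g σ) (hdd : DeadFor T g dd) {f f' : ℕ → ℕ}
    (hf : f ∈ paths T) (hf' : f' ∈ paths T) {π π' : Equiv.Perm (Fin 4)}
    (h : SolOf dd f π = SolOf dd f' π') : f = f' ∧ π = π' := by
  have hc := good_colV (okV_of_path hg hdd hf)
  have hc' := good_colV (okV_of_path hg hdd hf')
  have h1 : ∀ i, LL (lkT dd) (colV (Vf f)) (π i) = LL (lkT dd) (colV (Vf f')) (π' i) :=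
    fun i => congrFun h i
  have hπ : π = π' := by
    ext i
    have h2 : ∀ a < 4, (π i : ℕ) = a ↔ (π' i : ℕ) = a := by
      intro a ha
      have h3 : LL (lkT dd) (colV (Vf f)) (π i) (2 * tw 0 a) (2 * tu 0 a) ↔
          LL (lkT dd) (colV (Vf f')) (π' i) (2 * tw 0 a) (2 * tu 0 a) := by rw [h1 i]
      by_cases ha3 : a = 3
      · subst ha3
        rw [read_off3 (Fin.is_lt _), read_off3 (Fin.is_lt _)] at h3
        exact h3
      · rw [read_off hc (by omega) (Fin.is_lt _), read_off hc' (by omega) (Fin.is_lt _),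
          Nat.mul_zero, Nat.zero_add, colV_lt3 _ (by omega), colV_lt3 _ (by omega)] at h3
        exact ⟨fun e => (h3.mp e.symm).symm, fun e => (h3.mpr e.symm).symm⟩
    exact ((h2 (π' i) (Fin.is_lt _)).mpr rfl)
  refine ⟨?_, hπ⟩
  subst hπ
  apply Vf_inj
  funext ν
  have h2 : LL (lkT dd) (colV (Vf f)) (colV (Vf f) (6 * ν + 5)) (2 * tw (2 * ν + 1) 2)
      (2 * tu (2 * ν + 1) 2) ↔ LL (lkT dd) (colV (Vf f')) (colV (Vf f) (6 * ν + 5))
      (2 * tw (2 * ν + 1) 2) (2 * tu (2 * ν + 1) 2) := by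
    have hlt : colV (Vf f) (6 * ν + 5) < 4 := by have := hc.lt (6 * ν + 5); omega
    have := h1 (π.symm ⟨_, hlt⟩)
    rw [Equiv.apply_symm_apply] at this
    simp only at this
    rw [this]
  have hlt : colV (Vf f) (6 * ν + 5) < 4 := by have := hc.lt (6 * ν + 5); omega
  rw [read_off hc (by norm_num) hlt, read_off hc' (by norm_num) hlt,
    show 3 * (2 * ν + 1) + 2 = 6 * ν + 5 by ring, colV_V, colV_V] at h2
  exact (h2.mp rfl).symm

end Pool.Agent.Helper539.Dim
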