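import Mathlib
import Pool.Agent.Helper539.DimSol

set_option autoImplicit false

namespace Pool.Agent.Helper539.Dim

/-! ### Computability of the poset -/

section prim
variable {α : Type} [Primcodable α]

lemma pr_pow : Primrec₂ ((· ^ ·) : ℕ → ℕ → ℕ) := Primrec₂.unpaired'.1 Nat.Primrec.pow

lemma pr_u1 : Primrec (fun n : ℕ => n.unpair.1) := Primrec.fst.comp Primrec.unpair

lemma pr_u2 : Primrec (fun n : ℕ => n.unpair.2) := Primrec.snd.comp Primrec.unpair

lemma pr_add {f g : α → ℕ} (hf : Primrec f) (hg : Primrec g) : Primrec (fun a => f a + g a) :=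
  Primrec.nat_add.comp hf hg

lemma pr_sub {f g : α → ℕ} (hf : Primrec f) (hg : Primrec g) : Primrec (fun a => f a - g a) :=
  Primrec.nat_sub.comp hf hg

lemma pr_mul {f g : α → ℕ} (hf : Primrec f) (hg : Primrec g) : Primrec (fun a => f a * g a) :=
  Primrec.nat_mul.comp hf hg

lemma pr_div {f g : α → ℕ} (hf : Primrec f) (hg : Primrec g) : Primrec (fun a => f a / g a) :=
  Primrec.nat_div.comp hf hg

lemma pr_mod {f g : α → ℕ} (hf : Primrec f) (hg : Primrec g) : Primrec (fun a => f a % g a) :=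
  Primrec.nat_mod.comp hf hg

lemma pr_pw {f g : α → ℕ} (hf : Primrec f) (hg : Primrec g) : Primrec (fun a => f a ^ g a) :=
  pr_pow.comp hf hg

lemma pr_eq {f g : α → ℕ} (hf : Primrec f) (hg : Primrec g) : PrimrecPred (fun a => f a = g a) :=
  Primrec.eq.comp hf hg

lemma pr_le {f g : α → ℕ} (hf : Primrec f) (hg : Primrec g) : PrimrecPred (fun a => f a ≤ g a) :=
  Primrec.nat_le.comp hf hg

lemma pr_lt {f g : α → ℕ} (hf : Primrec f) (hg : Primrec g) : PrimrecPred (fun a => f a < g a) :=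
  Primrec.nat_lt.comp hf hg

lemma pr_c (n : ℕ) : Primrec (fun _ : α => n) := Primrec.const n

lemma pr_pair {f g : α → ℕ} (hf : Primrec f) (hg : Primrec g) :
    Primrec (fun a => Nat.pair (f a) (g a)) := Primrec₂.natPair.comp hf hg

lemma pr_lev : Primrec lev := pr_u1

lemma pr_scl : Primrec scl := pr_u1.comp pr_u2

lemma pr_apx : Primrec₂ apx := by
  have hN : Primrec (fun p : ℕ × ℕ => p.2) := Primrec.snd
  have hk : Primrec (fun p : ℕ × ℕ => p.1) := Primrec.fst
  have h22 : Primrec (fun p : ℕ × ℕ => p.2.unpair.2.unpair.2) := pr_u2.comp (pr_u2.comp hN)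
  have h0 : Primrec (fun p : ℕ × ℕ => p.2.unpair.2.unpair.2.unpair.1.unpair.1) :=
    pr_u1.comp (pr_u1.comp h22)
  have h1 : Primrec (fun p : ℕ × ℕ => p.2.unpair.2.unpair.2.unpair.1.unpair.2) :=
    pr_u2.comp (pr_u1.comp h22)
  have h2 : Primrec (fun p : ℕ × ℕ => p.2.unpair.2.unpair.2.unpair.2.unpair.1) :=
    pr_u1.comp (pr_u2.comp h22)
  have h3 : Primrec (fun p : ℕ × ℕ => p.2.unpair.2.unpair.2.unpair.2.unpair.2) :=
    pr_u2.comp (pr_u2.comp h22)
  exact Primrec.ite (pr_eq hk (pr_c 0)) h0 (Primrec.ite (pr_eq hk (pr_c 1)) h1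
    (Primrec.ite (pr_eq hk (pr_c 2)) h2 h3))

lemma pr_num {k N : α → ℕ} (hk : Primrec k) (hN : Primrec N) :
    Primrec (fun a => num (k a) (N a)) :=
  pr_add (pr_mul (pr_apx.comp hk hN) (pr_pw (pr_c 3) (pr_add hN (pr_c 1)))) (pr_c 1)

lemma pr_den {N : α → ℕ} (hN : Primrec N) : Primrec (fun a => den (N a)) :=
  pr_mul (pr_pw (pr_c 2) (pr_scl.comp hN)) (pr_pw (pr_c 3) (pr_add hN (pr_c 1)))

lemma xx_le (k N k' N' : ℕ) : xc k N ≤ xc k' N' ↔ num k N * den N' ≤ num k' N' * den N := by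
  unfold xc
  rw [div_le_div_iff₀ (by have := den_pos N; positivity) (by have := den_pos N'; positivity)]
  exact_mod_cast Iff.rfl

lemma xg_lt (k N m : ℕ) : xc k N < gam m ↔ num k N * 2 ^ (m + 1) < den N := by
  unfold xc gam
  rw [div_lt_div_iff₀ (by have := den_pos N; positivity) (by positivity), one_mul]
  exact_mod_cast Iff.rfl

lemma gx_lt (k N m : ℕ) : gam m < xc k N ↔ den N < num k N * 2 ^ (m + 1) := by
  unfold xc gam
  rw [div_lt_div_iff₀ (by positivity) (by have := den_pos N; positivity), one_mul]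
  exact_mod_cast Iff.rfl

lemma gg_le (m m' : ℕ) : gam m ≤ gam m' ↔ m' ≤ m := by
  constructor
  · intro h
    by_contra hcon
    push Not at hcon
    have := gam_anti hcon
    linarith
  · intro h
    rcases h.lt_or_eq with h1 | h1
    · exact (gam_anti h1).le
    · rw [h1]

lemma pr_xx_le {k N k' N' : α → ℕ} (hk : Primrec k) (hN : Primrec N) (hk' : Primrec k')
    (hN' : Primrec N') : PrimrecPred (fun a => xc (k a) (N a) ≤ xc (k' a) (N' a)) :=
  (pr_le (pr_mul (pr_num hk hN) (pr_den hN')) (pr_mul (pr_num hk' hN') (pr_den hN))).of_eq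
    (fun _ => (xx_le _ _ _ _).symm)

lemma pr_xx_lt {k N k' N' : α → ℕ} (hk : Primrec k) (hN : Primrec N) (hk' : Primrec k')
    (hN' : Primrec N') : PrimrecPred (fun a => xc (k a) (N a) < xc (k' a) (N' a)) :=
  (pr_xx_le hk' hN' hk hN).not.of_eq (fun _ => not_le)

lemma pr_xg_lt {k N m : α → ℕ} (hk : Primrec k) (hN : Primrec N) (hm : Primrec m) :
    PrimrecPred (fun a => xc (k a) (N a) < gam (m a)) :=
  (pr_lt (pr_mul (pr_num hk hN) (pr_pw (pr_c 2) (pr_add hm (pr_c 1)))) (pr_den hN)).of_eq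
    (fun _ => (xg_lt _ _ _).symm)

lemma pr_gx_lt {k N m : α → ℕ} (hk : Primrec k) (hN : Primrec N) (hm : Primrec m) :
    PrimrecPred (fun a => gam (m a) < xc (k a) (N a)) :=
  (pr_lt (pr_den hN) (pr_mul (pr_num hk hN) (pr_pw (pr_c 2) (pr_add hm (pr_c 1))))).of_eq
    (fun _ => (gx_lt _ _ _).symm)

lemma pr_imp {p q : α → Prop} (hp : PrimrecPred p) (hq : PrimrecPred q) :
    PrimrecPred (fun a => p a → q a) :=
  (hp.not.or hq).of_eq (fun _ => by tauto)

lemma pr_rbb {N N' : α → ℕ} (hN : Primrec N) (hN' : Primrec N') :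
    PrimrecPred (fun a => rbb (N a) (N' a)) := by
  have hl := pr_lev.comp hN
  have hl' := pr_lev.comp hN'
  exact ((pr_eq hl hl').and ((pr_xx_le (pr_c 0) hN (pr_c 0) hN').and
    ((pr_xx_le (pr_c 1) hN (pr_c 1) hN').and ((pr_xx_le (pr_c 2) hN (pr_c 2) hN').and
    (pr_xx_le (pr_c 3) hN (pr_c 3) hN'))))).or
    ((pr_lt hl hl').and (pr_xx_lt (pr_c 3) hN (pr_c 3) hN'))

lemma pr_rbl {N m s : α → ℕ} (hN : Primrec N) (hm : Primrec m) (hs : Primrec s) :
    PrimrecPred (fun a => rbl (N a) (m a) (s a)) := by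
  have hl := pr_lev.comp hN
  have hs3 := pr_div hs (pr_c 3)
  have hsm := pr_mod hs (pr_c 3)
  exact (pr_xg_lt (pr_c 3) hN hm).and ((pr_lt hl hs3).or ((pr_eq hl hs3).and
    ((pr_imp (pr_eq hsm (pr_c 0)).not (pr_xg_lt (pr_c 0) hN hm)).and
    ((pr_imp (pr_eq hsm (pr_c 1)).not (pr_xg_lt (pr_c 1) hN hm)).and
    (pr_imp (pr_eq hsm (pr_c 2)).not (pr_xg_lt (pr_c 2) hN hm))))))

lemma pr_rlb {N m : α → ℕ} (hm : Primrec m) (hN : Primrec N) :
    PrimrecPred (fun a => rlb (m a) (N a)) := by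
  have hl := pr_lev.comp hN
  have hm3 := pr_div hm (pr_c 3)
  exact (pr_gx_lt (pr_c 3) hN hm).and ((pr_lt hm3 hl).or ((pr_eq hm3 hl).and
    (pr_gx_lt (pr_mod hm (pr_c 3)) hN hm)))

lemma pr_isSome {o : α → Option ℕ} (ho : Primrec o) : PrimrecPred (fun a => (o a).isSome) :=
  ((Primrec.eq (α := Bool)).comp (Primrec.option_isSome.comp ho) (Primrec.const true)).of_eq
    (fun _ => Iff.rfl)

lemma pr_getD {o : α → Option ℕ} (ho : Primrec o) : Primrec (fun a => (o a).getD 0) :=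
  Primrec.option_getD.comp ho (Primrec.const 0)

end prim

lemma comp_pred {α β : Type} [Primcodable α] [Primcodable β] {Q : β → Prop} {h : α → β}
    (hQ : PrimrecPred Q) (hh : Computable h) : ComputablePred (fun a => Q (h a)) := by
  classical
  have h1 : Computable (fun a => decide (Q (h a))) := by
    have := hQ.decide.to_comp.comp hh
    exact this
  exact h1.computablePred

lemma AA_computable {lk : ℕ → Option ℕ} (hlk : Computable lk) :
    ComputablePred (fun a => a ∈ AA lk) := by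
  have h1 : PrimrecPred (fun p : ℕ × Option ℕ => p.1 % 2 = 0 ∨ p.2.isSome) :=
    (pr_eq (pr_mod Primrec.fst (pr_c 2)) (pr_c 0)).or (pr_isSome Primrec.snd)
  have h2 : Computable (fun z : ℕ => (z, lk (z / 2))) :=
    Computable.id.pair (hlk.comp (pr_div Primrec.id (pr_c 2)).to_comp)
  have h3 := comp_pred h1 h2
  exact h3

/-- The order relation in terms of the values of the link function. -/
def RRq (p : (ℕ × ℕ) × (Option ℕ × Option ℕ)) : Prop :=
  (p.1.1 % 2 = 0 ∧ p.1.2 % 2 = 0 ∧ rbb (p.1.1 / 2) (p.1.2 / 2)) ∨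
  (p.1.1 % 2 = 0 ∧ p.1.2 % 2 = 1 ∧ p.2.2.isSome ∧ rbl (p.1.1 / 2) (p.1.2 / 2) (p.2.2.getD 0)) ∨
  (p.1.1 % 2 = 1 ∧ p.1.2 % 2 = 0 ∧ p.2.1.isSome ∧ rlb (p.1.1 / 2) (p.1.2 / 2)) ∨
  (p.1.1 % 2 = 1 ∧ p.1.1 = p.1.2 ∧ p.2.1.isSome)

lemma RRq_prim : PrimrecPred RRq := by
  have z : Primrec (fun p : (ℕ × ℕ) × (Option ℕ × Option ℕ) => p.1.1) :=
    Primrec.fst.comp Primrec.fst
  have z' : Primrec (fun p : (ℕ × ℕ) × (Option ℕ × Option ℕ) => p.1.2) :=
    Primrec.snd.comp Primrec.fst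
  have o : Primrec (fun p : (ℕ × ℕ) × (Option ℕ × Option ℕ) => p.2.1) :=
    Primrec.fst.comp Primrec.snd
  have o' : Primrec (fun p : (ℕ × ℕ) × (Option ℕ × Option ℕ) => p.2.2) :=
    Primrec.snd.comp Primrec.snd
  have zm := pr_mod z (pr_c 2)
  have zm' := pr_mod z' (pr_c 2)
  have zd := pr_div z (pr_c 2)
  have zd' := pr_div z' (pr_c 2)
  exact ((pr_eq zm (pr_c 0)).and ((pr_eq zm' (pr_c 0)).and (pr_rbb zd zd'))).or
    (((pr_eq zm (pr_c 0)).and ((pr_eq zm' (pr_c 1)).and ((pr_isSome o').and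
      (pr_rbl zd zd' (pr_getD o'))))).or
    (((pr_eq zm (pr_c 1)).and ((pr_eq zm' (pr_c 0)).and ((pr_isSome o).and (pr_rlb zd zd')))).or
    ((pr_eq zm (pr_c 1)).and ((pr_eq z z').and (pr_isSome o)))))

lemma RR_iff_RRq (lk : ℕ → Option ℕ) (z z' : ℕ) :
    RR lk z z' ↔ RRq ((z, z'), (lk (z / 2), lk (z' / 2))) := by
  unfold RR RRq
  simp only
  rcases Nat.mod_two_eq_zero_or_one z with h | h <;> rcases Nat.mod_two_eq_zero_or_one z' with h' | h'
  · simp [h, h']
  · simp only [h, h', if_true, one_ne_zero, if_false, zero_ne_one, true_and, false_and,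
      false_or, or_false]
    constructor
    · rintro ⟨s, hs, h1⟩
      rw [hs]
      exact ⟨rfl, h1⟩
    · rintro ⟨h1, h2⟩
      obtain ⟨s, hs⟩ := Option.isSome_iff_exists.mp h1
      rw [hs] at h2
      exact ⟨s, hs, h2⟩
  · simp only [h, h', if_true, one_ne_zero, if_false, zero_ne_one, true_and, false_and,
      false_or]
    constructor
    · intro h1; exact Or.inl h1
    · rintro (h1 | ⟨h1, -⟩)
      · exact h1
      · omega
  · simp only [h, h', one_ne_zero, if_false, true_and, false_and, false_or]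

lemma RR_computable {lk : ℕ → Option ℕ} (hlk : Computable lk) :
    ComputablePred (fun p : ℕ × ℕ => RR lk p.1 p.2) := by
  have h2 : Computable (fun p : ℕ × ℕ => ((p.1, p.2), (lk (p.1 / 2), lk (p.2 / 2)))) :=
    (Computable.fst.pair Computable.snd).pair
      ((hlk.comp (pr_div Primrec.fst (pr_c 2)).to_comp).pair
        (hlk.comp (pr_div Primrec.snd (pr_c 2)).to_comp))
  exact (comp_pred RRq_prim h2).of_eq (fun p => (RR_iff_RRq lk p.1 p.2).symm)

/-! ### Computability of the tree system -/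

lemma pr_ctr : Primrec ctr := pr_u1

lemma pr_str : Primrec str := by
  have h : Primrec (fun ν : ℕ => (Encodable.decode (α := List ℕ) ν.unpair.2).getD []) :=
    Primrec.option_getD.comp (Primrec.decode.comp pr_u2) (Primrec.const [])
  refine h.of_eq (fun ν => ?_)
  unfold str
  rw [Denumerable.decode_eq_ofNat]
  rfl

lemma pr_wt : Primrec wt := by
  have h : Primrec (fun σ : List ℕ => σ.foldr (fun a b => a + b + 2) 0) :=
    Primrec.list_foldr (α := List ℕ) (β := ℕ) (σ := ℕ) (f := fun σ => σ)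
      (g := fun _ => 0) (h := fun _ p => p.1 + p.2 + 2) Primrec.id (Primrec.const 0)
      (pr_add (pr_add (Primrec.fst.comp Primrec.snd) (Primrec.snd.comp Primrec.snd)) (pr_c 2))
  exact h

lemma pr_bet : Primrec bet := pr_mod (pr_add pr_ctr (pr_wt.comp pr_str)) (pr_c 3)

lemma pr_par : Primrec par :=
  Primrec.ite (pr_eq pr_u1 (pr_c 0)) (pr_sub pr_u2 (pr_c 1))
    (pr_pair (pr_sub pr_u1 (pr_c 1)) pr_u2)

/-- The link function in terms of the value of the marking. -/
def lkq (p : ℕ × Bool) : Option ℕ :=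
  if p.1 < 3 then none
  else if (p.1 - 3) % 6 = 0 then
    some (if (p.1 - 3) / 6 = 0 then 0 else 6 * par ((p.1 - 3) / 6) + 5)
  else if (p.1 - 3) % 6 = 2 then (if p.2 = true then some (bet ((p.1 - 3) / 6)) else none)
  else if (p.1 - 3) % 6 = 3 then some (6 * ((p.1 - 3) / 6) + 4)
  else if (p.1 - 3) % 6 = 4 then some (bet ((p.1 - 3) / 6))
  else none

lemma pr_lkq : Primrec lkq := by
  have m : Primrec (fun p : ℕ × Bool => p.1) := Primrec.fst
  have m3 := pr_sub m (pr_c 3)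
  have q := pr_div m3 (pr_c 6)
  have r := pr_mod m3 (pr_c 6)
  have sm : ∀ {h : ℕ × Bool → ℕ}, Primrec h → Primrec (fun a => some (h a)) :=
    fun hh => Primrec.option_some.comp hh
  have b := pr_bet.comp q
  have hb : PrimrecPred (fun p : ℕ × Bool => p.2 = true) :=
    Primrec.eq.comp Primrec.snd (Primrec.const true)
  exact Primrec.ite (pr_lt m (pr_c 3)) (Primrec.const none)
    (Primrec.ite (pr_eq r (pr_c 0))
      (sm (Primrec.ite (pr_eq q (pr_c 0)) (pr_c 0)
        (pr_add (pr_mul (pr_c 6) (pr_par.comp q)) (pr_c 5))))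
    (Primrec.ite (pr_eq r (pr_c 2)) (Primrec.ite hb (sm b) (Primrec.const none))
    (Primrec.ite (pr_eq r (pr_c 3)) (sm (pr_add (pr_mul (pr_c 6) q) (pr_c 4)))
    (Primrec.ite (pr_eq r (pr_c 4)) (sm b) (Primrec.const none)))))

lemma lkT_computable {dd : ℕ → Bool} (h : Computable dd) : Computable (lkT dd) := by
  have h1 : Computable (fun m : ℕ => (m, dd ((m - 3) / 6))) :=
    Computable.id.pair (h.comp (pr_div (pr_sub Primrec.id (pr_c 3)) (pr_c 6)).to_comp)
  exact pr_lkq.to_comp.comp h1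

/-- A computable marking of the dead nodes. -/
lemma exists_dead {T : Set (List ℕ)} {g : List ℕ → ℕ} (hT : ComputablePred (fun σ => σ ∈ T))
    (hg : Computable g) : ∃ dd : ℕ → Bool, Computable dd ∧ DeadFor T g dd := by
  rw [ComputablePred.computable_iff] at hT
  obtain ⟨t, ht, hTt⟩ := hT
  have hrev : Computable (fun ν : ℕ => (str ν).reverse) :=
    (Primrec.list_reverse.comp pr_str).to_comp
  have h1 : Computable (fun ν : ℕ => (t (str ν).reverse, (g (str ν).reverse, ctr ν))) :=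
    (ht.comp hrev).pair ((hg.comp hrev).pair pr_ctr.to_comp)
  have hq : Primrec (fun p : Bool × (ℕ × ℕ) => (!p.1) || decide (p.2.1 ≤ p.2.2)) :=
    Primrec.or.comp (Primrec.not.comp Primrec.fst)
      (pr_le (Primrec.fst.comp Primrec.snd) (Primrec.snd.comp Primrec.snd)).decide
  refine ⟨fun ν => (!(t (str ν).reverse)) || decide (g (str ν).reverse ≤ ctr ν),
    hq.to_comp.comp h1, fun ν => ?_⟩
  have h2 : (str ν).reverse ∈ T ↔ t (str ν).reverse = true := by
    have := congrFun hTt (str ν).reverse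
    exact iff_of_eq this
  rw [h2]
  simp

end Pool.Agent.Helper539.Dim
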