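import Mathlib
import Pool.Agent.Helper539.DimComp

set_option autoImplicit false

namespace Pool.Agent.Helper539.Dim

/-! ### Computability relative to an oracle -/

section api
variable {α β γ : Type} [Primcodable α] [Primcodable β] [Primcodable γ] {O : Set (ℕ →. ℕ)}

lemma cin_comp {g : β → γ} {f : α → β} (hg : ComputableIn O g) (hf : ComputableIn O f) :
    ComputableIn O (fun a => g (f a)) := by
  have h : Nat.RecursiveIn O _ := Nat.RecursiveIn.comp (show Nat.RecursiveIn O _ from hg)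
    (show Nat.RecursiveIn O _ from hf)
  refine Nat.RecursiveIn.of_eq h (fun n => ?_)
  cases hd : (Encodable.decode (α := α) n) with
  | none => simp
  | some a => simp [Encodable.encodek]

lemma cin_pair {g : α → γ} {f : α → β} (hf : ComputableIn O f) (hg : ComputableIn O g) :
    ComputableIn O (fun a => (f a, g a)) := by
  have h : Nat.RecursiveIn O _ := Nat.RecursiveIn.pair (show Nat.RecursiveIn O _ from hf)
    (show Nat.RecursiveIn O _ from hg)
  refine Nat.RecursiveIn.of_eq h (fun n => ?_)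
  cases hd : (Encodable.decode (α := α) n) with
  | none => simp [Seq.seq]
  | some a => simp [Seq.seq, Encodable.encode_prod_val]

lemma cin_prim {g : β → γ} {f : α → β} (hg : Primrec g) (hf : ComputableIn O f) :
    ComputableIn O (fun a => g (f a)) := cin_comp hg.computableIn hf

lemma cin_oracle (f : ℕ → ℕ) : ComputableIn {(f : ℕ →. ℕ)} f := by
  have h : RecursiveIn {(f : ℕ →. ℕ)} (f : ℕ →. ℕ) := RecursiveIn.oracle _ rfl
  exact h

lemma cin_rr (f : ℕ → ℕ) : ComputableIn {(f : ℕ →. ℕ)} (rr f) := by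
  have h0 : Nat.RecursiveIn {(f : ℕ →. ℕ)} (fun _ => Part.some 0) := Nat.RecursiveIn.zero
  -- the step function
  have hstep : ComputableIn {(f : ℕ →. ℕ)}
      (fun p : ℕ => Nat.pair (f p.unpair.2.unpair.1) p.unpair.2.unpair.2 + 1) := by
    have hy0 : Primrec (fun p : ℕ => p.unpair.2.unpair.1) := pr_u1.comp pr_u2
    have hi0 : Primrec (fun p : ℕ => p.unpair.2.unpair.2) := pr_u2.comp pr_u2
    have hy : ComputableIn {(f : ℕ →. ℕ)} (fun p : ℕ => p.unpair.2.unpair.1) :=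
      hy0.computableIn
    have hi : ComputableIn {(f : ℕ →. ℕ)} (fun p : ℕ => p.unpair.2.unpair.2) :=
      hi0.computableIn
    have hg : Primrec (fun p : ℕ × ℕ => Nat.pair p.1 p.2 + 1) :=
      pr_add (pr_pair Primrec.fst Primrec.snd) (pr_c 1)
    have h1 := cin_comp (cin_oracle f) hy
    have h2 := cin_pair h1 hi
    have h3 := cin_prim (g := fun p : ℕ × ℕ => Nat.pair p.1 p.2 + 1) hg h2
    exact h3
  have hstep' : Nat.RecursiveIn {(f : ℕ →. ℕ)}
      (fun p : ℕ => Part.some (Nat.pair (f p.unpair.2.unpair.1) p.unpair.2.unpair.2 + 1)) := by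
    refine Nat.RecursiveIn.of_eq (show Nat.RecursiveIn _ _ from hstep) (fun n => ?_)
    simp
  have hprec := Nat.RecursiveIn.prec h0 hstep'
  have hpair : Nat.RecursiveIn {(f : ℕ →. ℕ)} (fun n : ℕ => Part.some (Nat.pair 0 n)) := by
    have : ComputableIn {(f : ℕ →. ℕ)} (fun n : ℕ => Nat.pair 0 n) :=
      (pr_pair (pr_c 0) Primrec.id).computableIn
    refine Nat.RecursiveIn.of_eq (show Nat.RecursiveIn _ _ from this) (fun n => ?_)
    simp
  have hall := Nat.RecursiveIn.comp hprec hpair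
  refine Nat.RecursiveIn.of_eq hall (fun n => ?_)
  simp only [Part.bind_some, Part.bind_eq_bind, Nat.unpair_pair, Encodable.decode_nat,
    Part.coe_some, Part.map_some]
  induction n with
  | zero => rfl
  | succ n ih =>
    simp only [ih, Part.bind_some, rr_succ, Encodable.encode_list_cons]
    rfl

end api

/-! ### The outgoing colours of a path are computable from the path -/

/-- The colour of a node in terms of finite data. -/
def vq (p : (ℕ × List ℕ) × ℕ) : ℕ :=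
  if str p.1.1 = p.1.2 ∧ ctr p.1.1 ≤ p.2 then
    (if p.2 = ctr p.1.1 then (bet p.1.1 + 2) % 3 else (bet p.1.1 + 1) % 3)
  else bet p.1.1

lemma pr_vq : Primrec vq := by
  have ν : Primrec (fun p : (ℕ × List ℕ) × ℕ => p.1.1) := Primrec.fst.comp Primrec.fst
  have R : Primrec (fun p : (ℕ × List ℕ) × ℕ => p.1.2) := Primrec.snd.comp Primrec.fst
  have v : Primrec (fun p : (ℕ × List ℕ) × ℕ => p.2) := Primrec.snd
  have b := pr_bet.comp ν
  have c := pr_ctr.comp ν
  have hc : PrimrecPred (fun p : (ℕ × List ℕ) × ℕ => str p.1.1 = p.1.2 ∧ ctr p.1.1 ≤ p.2) :=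
    (Primrec.eq.comp (pr_str.comp ν) R).and (pr_le c v)
  exact Primrec.ite hc (Primrec.ite (pr_eq v c) (pr_mod (pr_add b (pr_c 2)) (pr_c 3))
    (pr_mod (pr_add b (pr_c 1)) (pr_c 3))) b

lemma Vf_vq (f : ℕ → ℕ) (ν : ℕ) :
    Vf f ν = vq ((ν, rr f (str ν).length), f (str ν).length) := by
  unfold Vf vq onf
  simp only
  split_ifs <;> rfl

lemma cin_Vf (f : ℕ → ℕ) : ComputableIn {(f : ℕ →. ℕ)} (Vf f) := by
  have hlen : ComputableIn {(f : ℕ →. ℕ)} (fun ν : ℕ => (str ν).length) :=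
    (Primrec.list_length.comp pr_str).computableIn
  have h := cin_prim pr_vq (cin_pair (cin_pair (Primrec.id (α := ℕ)).computableIn
    (cin_comp (cin_rr f) hlen)) (cin_comp (cin_oracle f) hlen))
  have e : (fun a : ℕ => vq ((id a, rr f (str a).length), f (str a).length)) = Vf f := by
    funext a
    rw [Vf_vq]
    rfl
  rw [e] at h
  exact h

/-- The colour of a slot in terms of finite data. -/
def cq (p : ℕ × (ℕ × ℕ)) : ℕ :=
  if p.1 < 3 then p.1
  else if (p.1 - 3) % 6 = 0 then p.2.1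
  else if (p.1 - 3) % 6 = 1 then 3 - p.2.1 - p.2.2
  else if (p.1 - 3) % 6 = 2 then p.2.2
  else if (p.1 - 3) % 6 = 3 then 3 - p.2.1 - p.2.2
  else if (p.1 - 3) % 6 = 4 then bet ((p.1 - 3) / 6)
  else p.2.1 + p.2.2 - bet ((p.1 - 3) / 6)

lemma pr_cq : Primrec cq := by
  have m : Primrec (fun p : ℕ × (ℕ × ℕ) => p.1) := Primrec.fst
  have a : Primrec (fun p : ℕ × (ℕ × ℕ) => p.2.1) := Primrec.fst.comp Primrec.snd
  have b : Primrec (fun p : ℕ × (ℕ × ℕ) => p.2.2) := Primrec.snd.comp Primrec.snd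
  have m3 := pr_sub m (pr_c 3)
  have q := pr_bet.comp (pr_div m3 (pr_c 6))
  have r := pr_mod m3 (pr_c 6)
  have u := pr_sub (pr_sub (pr_c 3) a) b
  exact Primrec.ite (pr_lt m (pr_c 3)) m (Primrec.ite (pr_eq r (pr_c 0)) a
    (Primrec.ite (pr_eq r (pr_c 1)) u (Primrec.ite (pr_eq r (pr_c 2)) b
    (Primrec.ite (pr_eq r (pr_c 3)) u (Primrec.ite (pr_eq r (pr_c 4)) q
    (pr_sub (pr_add a b) q))))))

/-- The entering colour in terms of finite data. -/
def zq (p : ℕ × ℕ) : ℕ := if p.1 = 0 then 0 else p.2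

lemma pr_zq : Primrec zq := Primrec.ite (pr_eq Primrec.fst (pr_c 0)) (pr_c 0) Primrec.snd

lemma cin_col (f : ℕ → ℕ) : ComputableIn {(f : ℕ →. ℕ)} (colV (Vf f)) := by
  have hq : Primrec (fun m : ℕ => (m - 3) / 6) := pr_div (pr_sub Primrec.id (pr_c 3)) (pr_c 6)
  have hz : ComputableIn {(f : ℕ →. ℕ)} (fun ν : ℕ => zin (Vf f) ν) := by
    have h := cin_prim pr_zq (cin_pair (Primrec.id (α := ℕ)).computableIn
      (cin_comp (cin_Vf f) pr_par.computableIn))
    exact h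
  have h := cin_prim pr_cq (cin_pair (Primrec.id (α := ℕ)).computableIn
    (cin_pair (cin_comp hz hq.computableIn) (cin_comp (cin_Vf f) hq.computableIn)))
  exact h

/-! ### The solution is computable from the path -/

/-- Finite data describing an element: the element, its link, three colours. -/
abbrev Dat := (ℕ × Option ℕ) × (ℕ × (ℕ × ℕ))

/-- The axis in terms of finite data. -/
def axq (c0 c1 k : ℕ) : ℕ := if c0 = k then 0 else if c1 = k then 1 else 2

/-- First component of the key. -/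
def kl (k : ℕ) (d : Dat) : ℕ :=
  if k = 3 then 0
  else if d.1.1 % 2 = 0 then lev (d.1.1 / 2)
  else if d.2.2.2 = k then d.1.1 / 2 / 3 else d.1.2.getD 0 / 3

/-- The axis of the key. -/
def ka (k : ℕ) (d : Dat) : ℕ := if k = 3 then 3 else axq d.2.1 d.2.2.1 k

/-- Comparison of the second components. -/
def kle (k : ℕ) (d d' : Dat) : Prop :=
  (d.1.1 % 2 = 0 ∧ d'.1.1 % 2 = 0 ∧ xc (ka k d) (d.1.1 / 2) ≤ xc (ka k d') (d'.1.1 / 2)) ∨
  (d.1.1 % 2 = 0 ∧ d'.1.1 % 2 = 1 ∧ xc (ka k d) (d.1.1 / 2) < gam (d'.1.1 / 2)) ∨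
  (d.1.1 % 2 = 1 ∧ d'.1.1 % 2 = 0 ∧ gam (d.1.1 / 2) < xc (ka k d') (d'.1.1 / 2)) ∨
  (d.1.1 % 2 = 1 ∧ d'.1.1 % 2 = 1 ∧ d'.1.1 / 2 ≤ d.1.1 / 2)

/-- The linear order in terms of finite data. -/
def LLq (p : ℕ × (Dat × Dat)) : Prop :=
  ((p.2.1.1.1 % 2 = 0 ∨ p.2.1.1.2.isSome) ∧ (p.2.2.1.1 % 2 = 0 ∨ p.2.2.1.2.isSome)) ∧
  (kl p.1 p.2.1 < kl p.1 p.2.2 ∨ (kl p.1 p.2.1 = kl p.1 p.2.2 ∧ kle p.1 p.2.1 p.2.2))

section
variable {α : Type} [Primcodable α]

lemma pr_kl {k : α → ℕ} {d : α → Dat} (hk : Primrec k) (hd : Primrec d) :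
    Primrec (fun a => kl (k a) (d a)) := by
  have z : Primrec (fun a => (d a).1.1) := Primrec.fst.comp (Primrec.fst.comp hd)
  have o : Primrec (fun a => (d a).1.2) := Primrec.snd.comp (Primrec.fst.comp hd)
  have cm : Primrec (fun a => (d a).2.2.2) :=
    Primrec.snd.comp (Primrec.snd.comp (Primrec.snd.comp hd))
  have z2 := pr_div z (pr_c 2)
  exact Primrec.ite (pr_eq hk (pr_c 3)) (pr_c 0)
    (Primrec.ite (pr_eq (pr_mod z (pr_c 2)) (pr_c 0)) (pr_lev.comp z2)
    (Primrec.ite (pr_eq cm hk) (pr_div z2 (pr_c 3)) (pr_div (pr_getD o) (pr_c 3))))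

lemma pr_ka {k : α → ℕ} {d : α → Dat} (hk : Primrec k) (hd : Primrec d) :
    Primrec (fun a => ka (k a) (d a)) := by
  have c0 : Primrec (fun a => (d a).2.1) := Primrec.fst.comp (Primrec.snd.comp hd)
  have c1 : Primrec (fun a => (d a).2.2.1) :=
    Primrec.fst.comp (Primrec.snd.comp (Primrec.snd.comp hd))
  exact Primrec.ite (pr_eq hk (pr_c 3)) (pr_c 3)
    (Primrec.ite (pr_eq c0 hk) (pr_c 0) (Primrec.ite (pr_eq c1 hk) (pr_c 1) (pr_c 2)))

lemma pr_kle {k : α → ℕ} {d d' : α → Dat} (hk : Primrec k) (hd : Primrec d) (hd' : Primrec d') :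
    PrimrecPred (fun a => kle (k a) (d a) (d' a)) := by
  have z : Primrec (fun a => (d a).1.1) := Primrec.fst.comp (Primrec.fst.comp hd)
  have z' : Primrec (fun a => (d' a).1.1) := Primrec.fst.comp (Primrec.fst.comp hd')
  have z2 := pr_div z (pr_c 2)
  have z2' := pr_div z' (pr_c 2)
  have e0 := pr_eq (pr_mod z (pr_c 2)) (pr_c 0)
  have e1 := pr_eq (pr_mod z (pr_c 2)) (pr_c 1)
  have e0' := pr_eq (pr_mod z' (pr_c 2)) (pr_c 0)
  have e1' := pr_eq (pr_mod z' (pr_c 2)) (pr_c 1)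
  exact (e0.and (e0'.and (pr_xx_le (pr_ka hk hd) z2 (pr_ka hk hd') z2'))).or
    ((e0.and (e1'.and (pr_xg_lt (pr_ka hk hd) z2 z2'))).or
    ((e1.and (e0'.and (pr_gx_lt (pr_ka hk hd') z2' z2))).or
    (e1.and (e1'.and (pr_le z2' z2)))))

end

lemma pr_LLq : PrimrecPred LLq := by
  have k : Primrec (fun p : ℕ × (Dat × Dat) => p.1) := Primrec.fst
  have d : Primrec (fun p : ℕ × (Dat × Dat) => p.2.1) := Primrec.fst.comp Primrec.snd
  have d' : Primrec (fun p : ℕ × (Dat × Dat) => p.2.2) := Primrec.snd.comp Primrec.snd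
  have z : Primrec (fun p : ℕ × (Dat × Dat) => p.2.1.1.1) := Primrec.fst.comp (Primrec.fst.comp d)
  have z' : Primrec (fun p : ℕ × (Dat × Dat) => p.2.2.1.1) :=
    Primrec.fst.comp (Primrec.fst.comp d')
  have o : Primrec (fun p : ℕ × (Dat × Dat) => p.2.1.1.2) := Primrec.snd.comp (Primrec.fst.comp d)
  have o' : Primrec (fun p : ℕ × (Dat × Dat) => p.2.2.1.2) :=
    Primrec.snd.comp (Primrec.fst.comp d')
  have kl1 := pr_kl k d
  have kl2 := pr_kl k d'
  exact (((pr_eq (pr_mod z (pr_c 2)) (pr_c 0)).or (pr_isSome o)).and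
    ((pr_eq (pr_mod z' (pr_c 2)) (pr_c 0)).or (pr_isSome o'))).and
    ((pr_lt kl1 kl2).or ((pr_eq kl1 kl2).and (pr_kle k d d')))

/-- The finite data of an element. -/
def datOf (lk : ℕ → Option ℕ) (c : ℕ → ℕ) (z : ℕ) : Dat :=
  ((z, lk (z / 2)), (c (3 * lev (z / 2)), (c (3 * lev (z / 2) + 1), c (z / 2))))

lemma key_fst (lk : ℕ → Option ℕ) (c : ℕ → ℕ) (k z : ℕ) :
    (ofLex (key lk c k z)).1 = kl k (datOf lk c z) := by
  unfold key kl datOf
  simp only
  split_ifs <;> rfl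

lemma key_snd (lk : ℕ → Option ℕ) (c : ℕ → ℕ) (k z : ℕ) :
    (ofLex (key lk c k z)).2 =
      if z % 2 = 0 then xc (ka k (datOf lk c z)) (z / 2) else gam (z / 2) := by
  unfold key ka datOf axq ax
  simp only
  split_ifs <;> rfl

lemma LL_iff_LLq (lk : ℕ → Option ℕ) (c : ℕ → ℕ) (k z z' : ℕ) :
    LL lk c k z z' ↔ LLq (k, (datOf lk c z, datOf lk c z')) := by
  unfold LL LLq
  rw [Prod.Lex.le_iff, key_fst, key_fst, key_snd, key_snd]
  have h1 : z ∈ AA lk ↔ ((datOf lk c z).1.1 % 2 = 0 ∨ (datOf lk c z).1.2.isSome) := Iff.rfl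
  have h2 : z' ∈ AA lk ↔ ((datOf lk c z').1.1 % 2 = 0 ∨ (datOf lk c z').1.2.isSome) := Iff.rfl
  rw [h1, h2, and_assoc]
  have h3 : ((if z % 2 = 0 then xc (ka k (datOf lk c z)) (z / 2) else gam (z / 2)) ≤
      if z' % 2 = 0 then xc (ka k (datOf lk c z')) (z' / 2) else gam (z' / 2)) ↔
      kle k (datOf lk c z) (datOf lk c z') := by
    have e1 : (datOf lk c z).1.1 = z := rfl
    have e2 : (datOf lk c z').1.1 = z' := rfl
    unfold kle
    rw [e1, e2]
    rcases Nat.mod_two_eq_zero_or_one z with h | h <;>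
      rcases Nat.mod_two_eq_zero_or_one z' with h' | h'
    · simp [h, h']
    · simp only [h, h', if_true, one_ne_zero, if_false, zero_ne_one, true_and, false_and,
        false_or, or_false]
      exact ⟨fun h => lt_of_le_of_ne h (xc_ne_gam _ _ _), le_of_lt⟩
    · simp only [h, h', if_true, one_ne_zero, if_false, zero_ne_one, true_and, false_and,
        false_or, or_false]
      exact ⟨fun h => lt_of_le_of_ne h (xc_ne_gam _ _ _).symm, le_of_lt⟩
    · simp only [h, h', one_ne_zero, if_false, true_and, false_and, false_or]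
      exact gg_le _ _
  rw [h3]

lemma cin_datOf {f : ℕ → ℕ} {lk : ℕ → Option ℕ} (hlk : Computable lk) {c : ℕ → ℕ}
    (hc : ComputableIn {(f : ℕ →. ℕ)} c) {z : ℕ → ℕ} (hz : Primrec z) :
    ComputableIn {(f : ℕ →. ℕ)} (fun n => datOf lk c (z n)) := by
  have z2 := pr_div hz (pr_c 2)
  have l3 := pr_mul (pr_c 3) (pr_lev.comp z2)
  have h1 : ComputableIn {(f : ℕ →. ℕ)} (fun n => (z n, lk (z n / 2))) :=
    cin_pair hz.computableIn (cin_comp hlk.computableIn z2.computableIn)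
  exact cin_pair h1 (cin_pair (cin_comp hc l3.computableIn)
    (cin_pair (cin_comp hc (pr_add l3 (pr_c 1)).computableIn) (cin_comp hc z2.computableIn)))

/-- The permutation as a function on numbers. -/
def pnum (π : Equiv.Perm (Fin 4)) (i : ℕ) : ℕ :=
  ([((π 0 : Fin 4) : ℕ), ((π 1 : Fin 4) : ℕ), ((π 2 : Fin 4) : ℕ), ((π 3 : Fin 4) : ℕ)]
    : List ℕ).getD i 0

lemma pnum_eq (π : Equiv.Perm (Fin 4)) {i : ℕ} (hi : i < 4) : pnum π i = π ⟨i, hi⟩ := by
  unfold pnum
  interval_cases i <;> rfl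

lemma pr_pnum (π : Equiv.Perm (Fin 4)) : Primrec (pnum π) := by
  have h : Primrec (fun i : ℕ => ([((π 0 : Fin 4) : ℕ), ((π 1 : Fin 4) : ℕ), ((π 2 : Fin 4) : ℕ),
      ((π 3 : Fin 4) : ℕ)] : List ℕ).getD i 0) :=
    (Primrec.list_getD 0).comp (Primrec.const _) Primrec.id
  exact h

lemma codeOf_solOf (dd : ℕ → Bool) (f : ℕ → ℕ) (π : Equiv.Perm (Fin 4)) (n : ℕ) :
    codeOf (SolOf dd f π) n = 1 ↔ (n.unpair.1 < 4 ∧ LL (lkT dd) (colV (Vf f))
      (pnum π n.unpair.1) n.unpair.2.unpair.1 n.unpair.2.unpair.2) := by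
  unfold codeOf SolOf
  constructor
  · intro h
    split_ifs at h with h1
    obtain ⟨h2, h3⟩ := h1
    refine ⟨h2, ?_⟩
    rw [pnum_eq π h2]
    exact h3
  · rintro ⟨h1, h2⟩
    rw [if_pos]
    refine ⟨h1, ?_⟩
    rw [pnum_eq π h1] at h2
    exact h2

lemma codeOf_zero_or {n : ℕ} (L : Fin n → ℕ → ℕ → Prop) (m : ℕ) :
    codeOf L m = 0 ∨ codeOf L m = 1 := by
  unfold codeOf
  split_ifs
  · exact Or.inr rfl
  · exact Or.inl rfl

/-- The solution is computable from the path. -/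
theorem solOf_le {dd : ℕ → Bool} (hdd : Computable dd) (f : ℕ → ℕ) (π : Equiv.Perm (Fin 4)) :
    TuringReducible (codeOf (SolOf dd f π) : ℕ →. ℕ) (f : ℕ →. ℕ) := by
  classical
  have hlk := lkT_computable hdd
  have hQ : PrimrecPred (fun p : ℕ × (ℕ × (Dat × Dat)) => p.1 < 4 ∧ LLq p.2) := by
    refine (pr_lt Primrec.fst (pr_c 4)).and ?_
    exact PrimrecPred.comp pr_LLq Primrec.snd
  have hG : Primrec (fun p : ℕ × (ℕ × (Dat × Dat)) => if p.1 < 4 ∧ LLq p.2 then 1 else 0) :=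
    Primrec.ite hQ (pr_c 1) (pr_c 0)
  have hdat : ComputableIn {(f : ℕ →. ℕ)} (fun n : ℕ =>
      (n.unpair.1, (pnum π n.unpair.1, (datOf (lkT dd) (colV (Vf f)) n.unpair.2.unpair.1,
        datOf (lkT dd) (colV (Vf f)) n.unpair.2.unpair.2)))) :=
    cin_pair pr_u1.computableIn (cin_pair ((pr_pnum π).comp pr_u1).computableIn
      (cin_pair (cin_datOf hlk (cin_col f) (pr_u1.comp pr_u2))
        (cin_datOf hlk (cin_col f) (pr_u2.comp pr_u2))))
  have h := cin_prim hG hdat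
  have e : (fun n : ℕ => if n.unpair.1 < 4 ∧ LLq (pnum π n.unpair.1,
      (datOf (lkT dd) (colV (Vf f)) n.unpair.2.unpair.1,
        datOf (lkT dd) (colV (Vf f)) n.unpair.2.unpair.2)) then 1 else 0) =
      codeOf (SolOf dd f π) := by
    funext n
    have h1 := codeOf_solOf dd f π n
    rw [LL_iff_LLq] at h1
    by_cases h2 : n.unpair.1 < 4 ∧ LLq (pnum π n.unpair.1,
      (datOf (lkT dd) (colV (Vf f)) n.unpair.2.unpair.1,
        datOf (lkT dd) (colV (Vf f)) n.unpair.2.unpair.2))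
    · rw [if_pos h2]
      exact (h1.mpr h2).symm
    · rw [if_neg h2]
      rcases codeOf_zero_or (SolOf dd f π) n with h3 | h3
      · exact h3.symm
      · exact (h2 (h1.mp h3)).elim
  have h' : ComputableIn {(f : ℕ →. ℕ)} (codeOf (SolOf dd f π)) := by
    rw [← e]; exact h
  exact h'

end Pool.Agent.Helper539.Dim
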