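import Mathlib
import Pool.Agent.Helper539.DimOracle

set_option autoImplicit false

namespace Pool.Agent.Helper539.Dim

/-! ### The path is computable from the solution -/

lemma pr_mk {l : ℕ → ℕ} (hl : Primrec l) (s a b c d : ℕ) :
    Primrec (fun n => mk (l n) s a b c d) :=
  pr_pair hl (pr_pair (pr_c s) (pr_pair (pr_pair (pr_c a) (pr_c b)) (pr_pair (pr_c c) (pr_c d))))

/-- The query deciding whether a node closes its entry on the path. -/
def qry (π : Equiv.Perm (Fin 4)) (ν : ℕ) : ℕ :=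
  Nat.pair (pnum π.symm ((bet ν + 2) % 3))
    (Nat.pair (2 * tw (2 * ν + 1) 2) (2 * tu (2 * ν + 1) 2))

lemma pr_qry (π : Equiv.Perm (Fin 4)) : Primrec (qry π) := by
  have hl : Primrec (fun ν : ℕ => 2 * ν + 1) := pr_add (pr_mul (pr_c 2) Primrec.id) (pr_c 1)
  have h1 : Primrec (fun ν : ℕ => tw (2 * ν + 1) 2) := pr_mk hl _ _ _ _ _
  have h2 : Primrec (fun ν : ℕ => tu (2 * ν + 1) 2) := pr_mk hl _ _ _ _ _
  have h3 : Primrec (fun ν : ℕ => pnum π.symm ((bet ν + 2) % 3)) :=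
    (pr_pnum π.symm).comp (pr_mod (pr_add pr_bet (pr_c 2)) (pr_c 3))
  exact pr_pair h3 (pr_pair (pr_mul (pr_c 2) h1) (pr_mul (pr_c 2) h2))

lemma qry_spec {dd : ℕ → Bool} {f : ℕ → ℕ} (hc : Good (lkT dd) (colV (Vf f)))
    (π : Equiv.Perm (Fin 4)) (ν : ℕ) :
    codeOf (SolOf dd f π) (qry π ν) = 1 ↔ Vf f ν = (bet ν + 2) % 3 := by
  have hk : (bet ν + 2) % 3 < 4 := by omega
  rw [codeOf_solOf]
  unfold qry
  simp only [Nat.unpair_pair]
  rw [pnum_eq π.symm hk]
  have h1 : ((π.symm ⟨(bet ν + 2) % 3, hk⟩ : Fin 4) : ℕ) < 4 := Fin.is_lt _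
  rw [pnum_eq π h1, Fin.eta, Equiv.apply_symm_apply]
  have h2 := read_off (l := 2 * ν + 1) hc (a := 2) (by norm_num) hk
  rw [show 3 * (2 * ν + 1) + 2 = 6 * ν + 5 by ring, colV_V] at h2
  constructor
  · rintro ⟨-, h⟩
    exact h2.mp h
  · intro h
    exact ⟨h1, h2.mpr h⟩

lemma Vf_stop_iff (f : ℕ → ℕ) (ν : ℕ) :
    Vf f ν = (bet ν + 2) % 3 ↔ onf f ν ∧ f (str ν).length = ctr ν := by
  have hb := bet_lt ν
  constructor
  · intro h
    have h1 : onf f ν := by
      by_contra hcon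
      rw [Vf_off hcon] at h
      omega
    refine ⟨h1, ?_⟩
    by_contra hcon
    rw [Vf_cont h1 hcon] at h
    omega
  · rintro ⟨h1, h2⟩
    exact Vf_stop h1 h2

/-- The path is computable from the solution. -/
theorem le_solOf {dd : ℕ → Bool} {f : ℕ → ℕ} (hc : Good (lkT dd) (colV (Vf f)))
    (π : Equiv.Perm (Fin 4)) :
    TuringReducible (f : ℕ →. ℕ) (codeOf (SolOf dd f π) : ℕ →. ℕ) := by
  classical
  set O : ℕ → ℕ := codeOf (SolOf dd f π) with hO
  have hG : Primrec (fun p : (ℕ × ℕ) × ℕ => if (str p.1.2).length = p.1.1 ∧ p.2 = 1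
      then 0 else 1) :=
    Primrec.ite ((pr_eq (Primrec.list_length.comp (pr_str.comp (Primrec.snd.comp Primrec.fst)))
      (Primrec.fst.comp Primrec.fst)).and (pr_eq Primrec.snd (pr_c 1))) (pr_c 0) (pr_c 1)
  have h1 : ComputableIn {(O : ℕ →. ℕ)} (fun p : ℕ => ((p.unpair.1, p.unpair.2),
      O (qry π p.unpair.2))) :=
    cin_pair (cin_pair pr_u1.computableIn pr_u2.computableIn)
      (cin_comp (cin_oracle O) ((pr_qry π).comp pr_u2).computableIn)
  have h2 := cin_prim hG h1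
  have h3 : Nat.RecursiveIn {(O : ℕ →. ℕ)} (fun p : ℕ => Part.some
      (if (str p.unpair.2).length = p.unpair.1 ∧ O (qry π p.unpair.2) = 1 then 0 else 1)) := by
    refine Nat.RecursiveIn.of_eq (show Nat.RecursiveIn _ _ from h2) (fun n => ?_)
    simp
  have h4 := Nat.RecursiveIn.rfind h3
  have h5 : Nat.RecursiveIn {(O : ℕ →. ℕ)} (fun n : ℕ => Part.some (nd (f n) (rr f n))) := by
    refine Nat.RecursiveIn.of_eq h4 (fun n => ?_)
    refine Part.eq_some_iff.mpr (Nat.mem_rfind.mpr ⟨?_, ?_⟩)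
    · simp only [Nat.unpair_pair, Part.map_eq_map, Part.map_some]
      have e1 : (str (nd (f n) (rr f n))).length = n := by rw [str_nd, rr_length]
      have e2 : O (qry π (nd (f n) (rr f n))) = 1 := by
        rw [hO, qry_spec hc, Vf_stop_iff]
        unfold onf
        rw [str_nd, ctr_nd, rr_length]
        exact ⟨⟨rfl, le_rfl⟩, rfl⟩
      rw [if_pos ⟨e1, e2⟩]
      simp
    · intro m hm
      simp only [Nat.unpair_pair, Part.map_eq_map, Part.map_some]
      have hne : ¬ ((str m).length = n ∧ O (qry π m) = 1) := by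
        rintro ⟨e1, e2⟩
        rw [hO, qry_spec hc, Vf_stop_iff] at e2
        obtain ⟨⟨e3, -⟩, e4⟩ := e2
        rw [e1] at e3 e4
        have : m = nd (f n) (rr f n) := by
          rw [← nd_eta m, e3, ← e4]
        omega
      rw [if_neg hne]
      simp
  have h6 : ComputableIn {(O : ℕ →. ℕ)} (fun n : ℕ => nd (f n) (rr f n)) := by
    refine Nat.RecursiveIn.of_eq h5 (fun n => ?_)
    simp
  have h7 := cin_prim pr_ctr h6
  have h8 : (fun n : ℕ => ctr (nd (f n) (rr f n))) = f := by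
    funext n
    rw [ctr_nd]
  rw [h8] at h7
  exact h7

end Pool.Agent.Helper539.Dim
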