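import Mathlib
import Pool.Agent.Helper539.DimBack

set_option autoImplicit false

namespace Pool.Agent.Helper539.Dim

/-! ### The relation is a partial order -/

lemma rbb_mono {N N' : ℕ} (h : rbb N N') : xc 3 N ≤ xc 3 N' ∧ lev N ≤ lev N' ∧
    (lev N = lev N' → ∀ a < 3, xc a N ≤ xc a N') := by
  rcases h with ⟨h1, h2, h3, h4, h5⟩ | ⟨h1, h2⟩
  · exact ⟨h5, h1.le, fun _ => forall_lt_three.mpr ⟨h2, h3, h4⟩⟩
  · exact ⟨h2.le, h1.le, fun e => by omega⟩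

lemma rbb_of {N N' : ℕ} (h1 : xc 3 N ≤ xc 3 N') (h2 : lev N ≤ lev N')
    (h3 : lev N = lev N' → ∀ a < 3, xc a N ≤ xc a N') : rbb N N' := by
  rcases h2.lt_or_eq with h4 | h4
  · refine Or.inr ⟨h4, lt_of_le_of_ne h1 (fun e => ?_)⟩
    rw [xc_inj e] at h4
    exact lt_irrefl _ h4
  · have := forall_lt_three.mp (h3 h4)
    exact Or.inl ⟨h4, this.1, this.2.1, this.2.2, h1⟩

lemma rbb_refl (N : ℕ) : rbb N N := rbb_of le_rfl le_rfl (fun _ _ _ => le_rfl)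

lemma rbb_trans {a b c : ℕ} (h : rbb a b) (h' : rbb b c) : rbb a c := by
  obtain ⟨h1, h2, h3⟩ := rbb_mono h
  obtain ⟨h1', h2', h3'⟩ := rbb_mono h'
  exact rbb_of (h1.trans h1') (h2.trans h2')
    (fun e k hk => (h3 (by omega) k hk).trans (h3' (by omega) k hk))

lemma rbb_anti {a b : ℕ} (h : rbb a b) (h' : rbb b a) : a = b :=
  xc_inj (le_antisymm (rbb_mono h).1 (rbb_mono h').1)

lemma rbl_all {N m s : ℕ} (h : rbl N m s) : xc 3 N < gam m ∧ lev N ≤ s / 3 ∧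
    (lev N = s / 3 → ∀ a < 3, s % 3 ≠ a → xc a N < gam m) := by
  rcases h with ⟨h1, h2 | ⟨h2, h3, h4, h5⟩⟩
  · exact ⟨h1, h2.le, fun e => by omega⟩
  · exact ⟨h1, h2.le, fun _ => forall_lt_three.mpr ⟨h3, h4, h5⟩⟩

lemma rbl_of {N m s : ℕ} (h1 : xc 3 N < gam m) (h2 : lev N ≤ s / 3)
    (h3 : lev N = s / 3 → ∀ a < 3, s % 3 ≠ a → xc a N < gam m) : rbl N m s := by
  refine ⟨h1, ?_⟩
  rcases h2.lt_or_eq with h4 | h4
  · exact Or.inl h4
  · exact Or.inr ⟨h4, forall_lt_three.mp (h3 h4)⟩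

lemma bbl_trans {a b m s : ℕ} (h : rbb a b) (h' : rbl b m s) : rbl a m s := by
  obtain ⟨h1, h2, h3⟩ := rbb_mono h
  obtain ⟨h1', h2', h3'⟩ := rbl_all h'
  exact rbl_of (h1.trans_lt h1') (h2.trans h2')
    (fun e k hk hs => (h3 (by omega) k hk).trans_lt (h3' (by omega) k hk hs))

lemma blb_trans {a m s b : ℕ} (hs : s / 3 < m / 3) (h : rbl a m s) (h' : rlb m b) : rbb a b := by
  obtain ⟨h1, h2, -⟩ := rbl_all h
  obtain ⟨h1', h2'⟩ := h'
  have h4 : m / 3 ≤ lev b := by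
    rcases h2' with h3 | h3
    · exact h3.le
    · exact h3.1.le
  exact Or.inr ⟨by omega, h1.trans h1'⟩

lemma lbb_trans {m a b : ℕ} (h : rlb m a) (h' : rbb a b) : rlb m b := by
  obtain ⟨h1, h2, h3⟩ := rbb_mono h'
  obtain ⟨h1', h2'⟩ := h
  refine ⟨h1'.trans_le h1, ?_⟩
  rcases h2' with h4 | ⟨h4, h5⟩
  · exact Or.inl (by omega)
  · rcases h2.lt_or_eq with h6 | h6
    · exact Or.inl (by omega)
    · exact Or.inr ⟨by omega, h5.trans_le (h3 h6 _ (Nat.mod_lt _ (by norm_num)))⟩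

lemma lbl_absurd {m a m' s' : ℕ} (hs' : s' / 3 < m' / 3) (h : rlb m a) (h' : rbl a m' s') :
    False := by
  obtain ⟨h1, h2, -⟩ := rbl_all h'
  obtain ⟨h1', h2'⟩ := h
  have h3 : m / 3 ≤ lev a := by
    rcases h2' with h3 | h3
    · exact h3.le
    · exact h3.1.le
  have h4 : gam m < gam m' := h1'.trans h1
  have h5 : m' < m := by
    by_contra hcon
    have := (gg_le m' m).mpr (by omega)
    linarith
  have : m' / 3 ≤ m / 3 := Nat.div_le_div_right h5.le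
  omega

lemma bl_absurd {a m s : ℕ} (hs : s / 3 < m / 3) (h : rbl a m s) (h' : rlb m a) : False := by
  obtain ⟨h1, -, -⟩ := rbl_all h
  have := h'.1
  linarith

variable {lk : ℕ → Option ℕ}

lemma RR_mem {a b : ℕ} (h : RR lk a b) : a ∈ AA lk ∧ b ∈ AA lk := by
  rcases ev_or_odd a with ⟨N, rfl⟩ | ⟨m, rfl⟩ <;> rcases ev_or_odd b with ⟨N', rfl⟩ | ⟨m', rfl⟩
  · exact ⟨ev_mem _, ev_mem _⟩
  · refine ⟨ev_mem _, odd_mem.mpr ?_⟩
    unfold RR at h
    rw [if_pos (by omega), if_neg (by omega)] at h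
    obtain ⟨s, hs, -⟩ := h
    rw [show (2 * m' + 1) / 2 = m' by omega] at hs
    rw [hs]; rfl
  · refine ⟨odd_mem.mpr ?_, ev_mem _⟩
    unfold RR at h
    rw [if_neg (by omega), if_pos (by omega), show (2 * m + 1) / 2 = m by omega] at h
    exact h.1
  · rw [RR_ll] at h
    rw [odd_mem, odd_mem, ← h.1]
    exact ⟨h.2, h.2⟩

lemma RR_refl {a : ℕ} (h : a ∈ AA lk) : RR lk a a := by
  rcases ev_or_odd a with ⟨N, rfl⟩ | ⟨m, rfl⟩
  · rw [RR_bb]; exact rbb_refl N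
  · rw [RR_ll]; exact ⟨rfl, odd_mem.mp h⟩

lemma get_link {m : ℕ} (h : 2 * m + 1 ∈ AA lk) : ∃ s, lk m = some s :=
  Option.isSome_iff_exists.mp (odd_mem.mp h)

lemma RR_antisymm (hlk : ∀ m s, lk m = some s → s / 3 < m / 3) {a b : ℕ} (h : RR lk a b)
    (h' : RR lk b a) : a = b := by
  rcases ev_or_odd a with ⟨N, rfl⟩ | ⟨m, rfl⟩ <;> rcases ev_or_odd b with ⟨N', rfl⟩ | ⟨m', rfl⟩
  · rw [RR_bb] at h h'
    rw [rbb_anti h h']
  · obtain ⟨s, hs⟩ := get_link (RR_mem h).2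
    rw [RR_bl hs] at h
    rw [RR_lb hs] at h'
    exact (bl_absurd (hlk _ _ hs) h h').elim
  · obtain ⟨s, hs⟩ := get_link (RR_mem h).1
    rw [RR_lb hs] at h
    rw [RR_bl hs] at h'
    exact (bl_absurd (hlk _ _ hs) h' h).elim
  · rw [RR_ll] at h
    rw [h.1]

lemma RR_trans (hlk : ∀ m s, lk m = some s → s / 3 < m / 3) {a b c : ℕ} (h : RR lk a b)
    (h' : RR lk b c) : RR lk a c := by
  have ma := (RR_mem h).1
  have mb := (RR_mem h).2
  have mc := (RR_mem h').2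
  rcases ev_or_odd b with ⟨B, rfl⟩ | ⟨m, rfl⟩
  · rcases ev_or_odd a with ⟨N, rfl⟩ | ⟨p, rfl⟩ <;> rcases ev_or_odd c with ⟨N', rfl⟩ | ⟨p', rfl⟩
    · rw [RR_bb] at h h' ⊢
      exact rbb_trans h h'
    · obtain ⟨s, hs⟩ := get_link mc
      rw [RR_bb] at h
      rw [RR_bl hs] at h' ⊢
      exact bbl_trans h h'
    · obtain ⟨s, hs⟩ := get_link ma
      rw [RR_bb] at h'
      rw [RR_lb hs] at h ⊢
      exact lbb_trans h h'
    · obtain ⟨s, hs⟩ := get_link ma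
      obtain ⟨s', hs'⟩ := get_link mc
      rw [RR_lb hs] at h
      rw [RR_bl hs'] at h'
      exact (lbl_absurd (hlk _ _ hs') h h').elim
  · obtain ⟨s, hs⟩ := get_link mb
    rcases ev_or_odd a with ⟨N, rfl⟩ | ⟨p, rfl⟩
    · rcases ev_or_odd c with ⟨N', rfl⟩ | ⟨p', rfl⟩
      · rw [RR_bl hs] at h
        rw [RR_lb hs] at h'
        rw [RR_bb]
        exact blb_trans (hlk _ _ hs) h h'
      · have e := (RR_ll.mp h').1
        rw [← e]
        exact h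
    · have e := (RR_ll.mp h).1
      rw [e]
      exact h'

theorem poset_computable (hlk : ∀ m s, lk m = some s → s / 3 < m / 3) (hc : Computable lk) :
    IsComputablePoset (AA lk) (RR lk) :=
  ⟨AA_computable hc, RR_computable hc, fun _ _ h => RR_mem h, fun _ h => RR_refl h,
    fun _ _ h h' => RR_antisymm hlk h h', fun _ _ _ h h' => RR_trans hlk h h'⟩

end Pool.Agent.Helper539.Dim
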