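import Mathlib
import Pool.Agent.Helper539.DimDefs

set_option autoImplicit false

namespace Pool.Agent.Helper539.Dim

/-! The counting obstruction for ordered tuples (argument due to helper812). -/

/-! ### The class with three elements -/

/-- The tree whose paths are `c000…` with `c < 3`. -/
def T3 : Set (List ℕ) := {σ | σ.headI < 3 ∧ σ.tail.sum = 0}

lemma T3_tree : IsTree T3 := by
  intro σ τ hp hτ
  obtain ⟨ρ, rfl⟩ := hp
  cases σ with
  | nil => exact ⟨by simp, by simp⟩
  | cons a σ =>
    obtain ⟨h1, h2⟩ := hτ
    simp only [List.cons_append, List.headI_cons, List.tail_cons, List.sum_append] at h1 h2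
    exact ⟨h1, by simp only [List.tail_cons]; omega⟩

lemma T3_computable : ComputablePred (fun σ => σ ∈ T3) := by
  rw [ComputablePred.computable_iff]
  refine ⟨fun σ => decide (σ.headI < 3) && decide (σ.tail.sum = 0), ?_, ?_⟩
  · apply Primrec.to_comp
    have hsum : Primrec (fun σ : List ℕ => σ.tail.sum) := by
      have h : Primrec (fun σ : List ℕ => σ.tail.foldr (fun a b => a + b) 0) :=
        Primrec.list_foldr (α := List ℕ) (β := ℕ) (σ := ℕ) (f := fun σ => σ.tail)
          (g := fun _ => 0) (h := fun _ p => p.1 + p.2) Primrec.list_tail (Primrec.const 0)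
          (Primrec.nat_add.comp (Primrec.fst.comp Primrec.snd) (Primrec.snd.comp Primrec.snd))
      refine h.of_eq ?_
      intro σ
      rw [List.sum_eq_foldr]
    have h1 : Primrec (fun σ : List ℕ => decide (σ.headI < 3)) :=
      (Primrec.nat_lt.comp Primrec.list_headI (Primrec.const 3)).decide
    have h2 : Primrec (fun σ : List ℕ => decide (σ.tail.sum = 0)) :=
      (Primrec.eq.comp hsum (Primrec.const 0)).decide
    exact Primrec.and.comp h1 h2
  · funext σ
    simp [T3]

lemma T3_bounded : ∀ σ i, σ ++ [i] ∈ T3 → i < 3 := by
  intro σ i h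
  obtain ⟨h1, h2⟩ := h
  cases σ with
  | nil => simpa using h1
  | cons a σ =>
    simp only [List.cons_append, List.tail_cons, List.sum_append, List.sum_singleton] at h2
    omega

/-- The path `c000…`. -/
def pathOf (c : Fin 3) : ℕ → ℕ := fun n => if n = 0 then c else 0

lemma pathOf_mem (c : Fin 3) : pathOf c ∈ paths T3 := by
  intro n
  cases n with
  | zero => exact ⟨by simp [restrict], by simp [restrict]⟩
  | succ n =>
    have h : restrict (pathOf c) (n + 1) = (c : ℕ) :: List.replicate n 0 := by
      rw [restrict, List.range_succ_eq_map, List.map_cons, List.map_map]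
      congr 1
      rw [List.eq_replicate_iff]
      refine ⟨by simp, ?_⟩
      intro b hb
      rw [List.mem_map] at hb
      obtain ⟨a, _, rfl⟩ := hb
      simp [pathOf]
    rw [h]
    exact ⟨c.2, by simp⟩

lemma mem_paths (x : ℕ → ℕ) (hx : x ∈ paths T3) : ∃ c, x = pathOf c := by
  have h0 : x 0 < 3 := by
    have := (hx 1).1
    simpa [restrict] using this
  refine ⟨⟨x 0, h0⟩, ?_⟩
  funext n
  rcases Nat.eq_zero_or_pos n with rfl | hn
  · simp [pathOf]
  · have h1 := (hx (n + 1)).2
    have h2 : x n ∈ (restrict x (n + 1)).tail := by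
      rw [restrict, List.range_succ_eq_map, List.map_cons, List.tail_cons, List.map_map,
        List.mem_map]
      exact ⟨n - 1, List.mem_range.mpr (by omega), by simp [Nat.sub_add_cancel hn]⟩
    have h3 : x n ≤ (restrict x (n + 1)).tail.sum := List.single_le_sum (by simp) _ h2
    have h4 : x n = 0 := by omega
    rw [h4, pathOf, if_neg (by omega)]

lemma pathOf_injective : Function.Injective pathOf := by
  intro c d h
  have := congrFun h 0
  simp only [pathOf, if_pos] at this
  exact Fin.ext this

lemma card_paths : Nat.card (paths T3) = 3 := by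
  have e : Fin 3 ≃ paths T3 := Equiv.ofBijective (fun c => ⟨pathOf c, pathOf_mem c⟩) (by
    constructor
    · intro c d h
      exact pathOf_injective (congrArg Subtype.val h)
    · rintro ⟨x, hx⟩
      obtain ⟨c, rfl⟩ := mem_paths x hx
      exact ⟨c, rfl⟩)
  rw [← Nat.card_congr e, Nat.card_fin]

/-! ### The solutions of a dimensionality problem -/

lemma codeOf_injective {n : ℕ} : Function.Injective (codeOf (n := n)) := by
  classical
  intro L L' h
  funext i a b
  have h1 := congrFun h (Nat.pair i (Nat.pair a b))
  simp only [codeOf, Nat.unpair_pair] at h1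
  have e1 : (∃ h : (i : ℕ) < n, L ⟨i, h⟩ a b) ↔ L i a b :=
    ⟨fun ⟨_, h⟩ => h, fun h => ⟨i.2, h⟩⟩
  have e2 : (∃ h : (i : ℕ) < n, L' ⟨i, h⟩ a b) ↔ L' i a b :=
    ⟨fun ⟨_, h⟩ => h, fun h => ⟨i.2, h⟩⟩
  apply propext
  rw [← e1, ← e2]
  constructor
  · intro h3
    by_contra h4
    rw [if_pos h3, if_neg h4] at h1
    exact absurd h1 (by norm_num)
  · intro h3
    by_contra h4
    rw [if_neg h4, if_pos h3] at h1
    exact absurd h1 (by norm_num)

/-- A tuple with the same entries as a solution is a solution. -/
lemma solution_of_range {A : Set ℕ} {R : ℕ → ℕ → Prop} {n : ℕ} {L L' : Fin n → ℕ → ℕ → Prop}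
    (h : IsSolution A R n L) (h1 : ∀ i, ∃ j, L' i = L j) (h2 : ∀ j, ∃ i, L j = L' i) :
    IsSolution A R n L' := by
  refine ⟨?_, ?_⟩
  · intro i
    obtain ⟨j, hj⟩ := h1 i
    rw [hj]
    exact h.1 j
  · intro a b
    rw [h.2]
    constructor
    · intro h3 i
      obtain ⟨j, hj⟩ := h1 i
      rw [hj]
      exact h3 j
    · intro h3 j
      obtain ⟨i, hi⟩ := h2 j
      rw [hi]
      exact h3 i

/-- If the order is linear then every component of every solution is the order itself. -/
lemma eq_of_linear {A : Set ℕ} {R : ℕ → ℕ → Prop} {n : ℕ} {L : Fin n → ℕ → ℕ → Prop}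
    (h : IsSolution A R n L) (hR : IsLinearOrdering A R) (i : Fin n) : L i = R := by
  funext a b
  apply propext
  constructor
  · intro hab
    obtain ⟨ha, hb⟩ := (h.1 i).1 a b hab
    rcases hR.2.2.2 a ha b hb with h1 | h1
    · exact h1
    · have h2 := (h.2 b a).mp h1 i
      have h3 := (h.1 i).2.1 a b hab h2
      rw [h3] at h1 ⊢
      exact h1
  · intro hab
    exact (h.2 a b).mp hab i

lemma linear_of_const {A : Set ℕ} {R : ℕ → ℕ → Prop} {n : ℕ} (hn : 1 ≤ n)
    {L : Fin n → ℕ → ℕ → Prop} (h : IsSolution A R n L) (hc : ∀ i j, L i = L j) :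
    IsLinearOrdering A R := by
  have : R = L ⟨0, hn⟩ := by
    funext a b
    apply propext
    rw [h.2]
    constructor
    · intro h1
      exact h1 _
    · intro h1 i
      rw [hc i ⟨0, hn⟩]
      exact h1
  rw [this]
  exact h.1 _

/-- The number of solutions is never three. -/
lemma card_solutions (A : Set ℕ) (R : ℕ → ℕ → Prop) (n : ℕ) (hn : 1 ≤ n) :
    Nat.card (solutions A R n) ≠ 3 := by
  classical
  intro hcard
  -- pass to tuples
  have e : {L : Fin n → ℕ → ℕ → Prop // IsSolution A R n L} ≃ solutions A R n :=
    Equiv.ofBijective (fun L => ⟨codeOf L.1, L.1, L.2, rfl⟩) (by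
      constructor
      · intro L L' h
        exact Subtype.ext (codeOf_injective (congrArg Subtype.val h))
      · rintro ⟨x, L, hL, rfl⟩
        exact ⟨⟨L, hL⟩, rfl⟩)
  rw [← Nat.card_congr e] at hcard
  have hfin : Finite {L : Fin n → ℕ → ℕ → Prop // IsSolution A R n L} :=
    Nat.finite_of_card_ne_zero (by omega)
  have hft := Fintype.ofFinite {L : Fin n → ℕ → ℕ → Prop // IsSolution A R n L}
  rw [Nat.card_eq_fintype_card] at hcard
  -- the order is not linear
  have hnl : ¬ IsLinearOrdering A R := by
    intro hR
    have hs : Subsingleton {L : Fin n → ℕ → ℕ → Prop // IsSolution A R n L} := by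
      constructor
      rintro ⟨L, hL⟩ ⟨L', hL'⟩
      apply Subtype.ext
      funext i
      show L i = L' i
      rw [eq_of_linear hL hR, eq_of_linear hL' hR]
    have := Fintype.card_le_one_iff_subsingleton.mpr hs
    omega
  have hne : ∀ L : Fin n → ℕ → ℕ → Prop, IsSolution A R n L → ∃ i j, L i ≠ L j := by
    intro L hL
    by_contra hcon
    push Not at hcon
    exact hnl (linear_of_const hn hL hcon)
  -- there is a solution
  have hex : Nonempty {L : Fin n → ℕ → ℕ → Prop // IsSolution A R n L} :=
    Fintype.card_pos_iff.mp (by omega)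
  obtain ⟨⟨L, hL⟩⟩ := hex
  obtain ⟨i, j, hij⟩ := hne L hL
  have hij' : i ≠ j := fun h => hij (by rw [h])
  -- four different solutions contradict the cardinality
  have four : ∀ a b c d : {L : Fin n → ℕ → ℕ → Prop // IsSolution A R n L},
      a ≠ b → a ≠ c → a ≠ d → b ≠ c → b ≠ d → c ≠ d → False := by
    intro a b c d hab hac had hbc hbd hcd
    have h1 : ({a, b, c, d} : Finset _).card = 4 := by
      rw [Finset.card_insert_of_notMem, Finset.card_insert_of_notMem,
        Finset.card_insert_of_notMem, Finset.card_singleton]
      · simpa using hcd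
      · simpa using ⟨hbc, hbd⟩
      · simpa using ⟨hab, hac, had⟩
    have h2 := Finset.card_le_univ ({a, b, c, d} : Finset _)
    omega
  have perm : ∀ (M : Fin n → ℕ → ℕ → Prop), IsSolution A R n M → ∀ σ : Equiv.Perm (Fin n),
      IsSolution A R n (fun k => M (σ k)) := by
    intro M hM σ
    refine solution_of_range hM (fun k => ⟨σ k, rfl⟩) (fun k => ⟨σ.symm k, by simp⟩)
  by_cases h2 : ∃ k, k ≠ i ∧ k ≠ j
  · obtain ⟨k, hki, hkj⟩ := h2
    have val : ∀ (σ : Equiv.Perm (Fin n)) (p : Fin n), (fun k => L (σ k)) p = L (σ p) :=
      fun _ _ => rfl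
    -- the case where the third entry agrees with the first one
    have same : ∀ i j : Fin n, L i ≠ L j → i ≠ j → k ≠ i → k ≠ j → L k = L i → False := by
      intro i j hij hij' hki hkj hk
      let M : Fin n → ℕ → ℕ → Prop := Function.update L i (L j)
      have hM : IsSolution A R n M := by
        refine solution_of_range hL ?_ ?_
        · intro p
          by_cases hp : p = i
          · exact ⟨j, by simp only [M, hp, Function.update_self]⟩
          · exact ⟨p, by simp only [M, Function.update_of_ne hp]⟩
        · intro p
          by_cases hp : p = i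
          · exact ⟨k, by simp only [M, Function.update_of_ne hki]; rw [hp, hk]⟩
          · exact ⟨p, by simp only [M, Function.update_of_ne hp]⟩
      have hMi : M i = L j := by simp only [M, Function.update_self]
      have hMj : M j = L j := by simp only [M, Function.update_of_ne hij'.symm]
      have hMk : M k = L i := by simp only [M, Function.update_of_ne hki]; rw [hk]
      refine four ⟨L, hL⟩ ⟨_, perm L hL (Equiv.swap i j)⟩ ⟨_, perm L hL (Equiv.swap j k)⟩
        ⟨M, hM⟩ ?_ ?_ ?_ ?_ ?_ ?_
      · intro h
        have := congrFun (congrArg Subtype.val h) i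
        simp only [Equiv.swap_apply_left] at this
        exact hij this
      · intro h
        have := congrFun (congrArg Subtype.val h) j
        simp only [Equiv.swap_apply_left] at this
        rw [hk] at this
        exact hij this.symm
      · intro h
        have := congrFun (congrArg Subtype.val h) i
        simp only [hMi] at this
        exact hij this
      · intro h
        have := congrFun (congrArg Subtype.val h) i
        simp only [Equiv.swap_apply_left, Equiv.swap_apply_of_ne_of_ne hij' hki.symm] at this
        exact hij this.symm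
      · intro h
        have := congrFun (congrArg Subtype.val h) j
        simp only [Equiv.swap_apply_right, hMj] at this
        exact hij this
      · intro h
        have := congrFun (congrArg Subtype.val h) k
        simp only [Equiv.swap_apply_right, hMk] at this
        exact hij this.symm
    by_cases hk1 : L k = L i
    · exact same i j hij hij' hki hkj hk1
    by_cases hk2 : L k = L j
    · exact same j i hij.symm hij'.symm hkj hki hk2
    refine four ⟨L, hL⟩ ⟨_, perm L hL (Equiv.swap i j)⟩ ⟨_, perm L hL (Equiv.swap i k)⟩
      ⟨_, perm L hL (Equiv.swap j k)⟩ ?_ ?_ ?_ ?_ ?_ ?_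
    · intro h
      have := congrFun (congrArg Subtype.val h) i
      simp only [Equiv.swap_apply_left] at this
      exact hij this
    · intro h
      have := congrFun (congrArg Subtype.val h) i
      simp only [Equiv.swap_apply_left] at this
      exact hk1 this.symm
    · intro h
      have := congrFun (congrArg Subtype.val h) j
      simp only [Equiv.swap_apply_left] at this
      exact hk2 this.symm
    · intro h
      have := congrFun (congrArg Subtype.val h) i
      simp only [Equiv.swap_apply_left] at this
      exact hk2 this.symm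
    · intro h
      have := congrFun (congrArg Subtype.val h) i
      simp only [Equiv.swap_apply_left, Equiv.swap_apply_of_ne_of_ne hij' hki.symm] at this
      exact hij this.symm
    · intro h
      have := congrFun (congrArg Subtype.val h) i
      simp only [Equiv.swap_apply_left, Equiv.swap_apply_of_ne_of_ne hij' hki.symm] at this
      exact hk1 this
  · -- exactly two orders: exchanging them is a fixed point free involution
    push Not at h2
    let τ : {L : Fin n → ℕ → ℕ → Prop // IsSolution A R n L} →
        {L : Fin n → ℕ → ℕ → Prop // IsSolution A R n L} :=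
      fun M => ⟨_, perm M.1 M.2 (Equiv.swap i j)⟩
    have hinv : Function.Involutive τ := by
      intro M
      apply Subtype.ext
      funext p
      show M.1 (Equiv.swap i j (Equiv.swap i j p)) = M.1 p
      rw [Equiv.swap_apply_self]
    have hfix : ∀ M, τ M ≠ M := by
      intro M hM
      obtain ⟨p, q, hpq⟩ := hne M.1 M.2
      have h3 : M.1 i = M.1 j := by
        have := congrFun (congrArg Subtype.val hM) j
        simp only [τ, Equiv.swap_apply_right] at this
        exact this
      have h4 : ∀ p, M.1 p = M.1 i := by
        intro p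
        by_cases hp : p = i
        · rw [hp]
        · rw [h2 p hp, h3]
      exact hpq (by rw [h4 p, h4 q])
    have h5 : ({⟨L, hL⟩, τ ⟨L, hL⟩} :
        Finset {L : Fin n → ℕ → ℕ → Prop // IsSolution A R n L}).card < Fintype.card
        {L : Fin n → ℕ → ℕ → Prop // IsSolution A R n L} := by
      rw [hcard]
      exact lt_of_le_of_lt Finset.card_le_two (by norm_num)
    rw [← Finset.card_univ] at h5
    obtain ⟨M, _, hM⟩ := Finset.exists_mem_notMem_of_card_lt_card h5
    simp only [Finset.mem_insert, Finset.mem_singleton, not_or] at hM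
    refine four ⟨L, hL⟩ (τ ⟨L, hL⟩) M (τ M) (hfix _).symm (Ne.symm hM.1) ?_ (Ne.symm hM.2) ?_
      (hfix _).symm
    · intro h
      apply hM.2
      rw [h, hinv]
    · intro h
      exact hM.1 (hinv.injective h).symm

/-- A computably bounded `Π⁰₁` class that does not represent the class of solutions of any
dimensionality problem. -/
theorem three_element : ∃ P : Set (ℕ → ℕ), IsCBClass P ∧
    ∀ (A : Set ℕ) (R : ℕ → ℕ → Prop) (n : ℕ), IsComputablePoset A R → 1 ≤ n →
      ¬ Represents P (solutions A R n) := by
  refine ⟨paths T3, ⟨T3, T3_tree, T3_computable, ⟨fun _ => 3, Computable.const 3, T3_bounded⟩,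
    rfl⟩, ?_⟩
  rintro A R n _ hn ⟨F, _⟩
  have h := Nat.card_congr F
  rw [card_paths] at h
  exact card_solutions A R n hn h

end Pool.Agent.Helper539.Dim
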