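import Mathlib
import Pool.Agent.Helper539.DimThree
import Pool.Agent.Helper539.DimOrder

set_option autoImplicit false

namespace Pool.Agent.Helper539.Dim

/-! ### The bijection -/

/-- A computable poset attached to a computably bounded class. -/
theorem main_rep (P : Set (ℕ → ℕ)) (hP : IsCBClass P) :
    ∃ (A : Set ℕ) (R : ℕ → ℕ → Prop), IsComputablePoset A R ∧
      ∃ F : P → Fin 4 → ℕ → ℕ → Prop,
        (∀ (f : P) (π : Equiv.Perm (Fin 4)), IsSolution A R 4 (F f ∘ π) ∧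
          TuringEquivalent ((codeOf (F f ∘ π) : ℕ → ℕ) : ℕ →. ℕ) ((f : ℕ → ℕ) : ℕ →. ℕ)) ∧
        (∀ L : Fin 4 → ℕ → ℕ → Prop, IsSolution A R 4 L →
          ∃! p : P × Equiv.Perm (Fin 4), L = F p.1 ∘ p.2) := by
  obtain ⟨T, -, hT, ⟨g, hg, hgT⟩, rfl⟩ := hP
  obtain ⟨dd, hddc, hdd⟩ := exists_dead hT hg
  refine ⟨AA (lkT dd), RR (lkT dd), poset_computable (fun _ _ h => lkT_lt h)
    (lkT_computable hddc), fun f => SolOf dd f 1, ?_, ?_⟩
  · intro f π
    have e : (SolOf dd (f : ℕ → ℕ) 1) ∘ π = SolOf dd f π := rfl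
    rw [e]
    refine ⟨solOf_sol hgT hdd f.2 π, solOf_le hddc f π, ?_⟩
    exact le_solOf (good_colV (okV_of_path hgT hdd f.2)) π
  · intro L hL
    obtain ⟨f, hf, π, rfl⟩ := sol_exists hdd hL
    refine ⟨(⟨f, hf⟩, π), rfl, ?_⟩
    rintro ⟨⟨f', hf'⟩, π'⟩ h
    have h' : SolOf dd f π = SolOf dd f' π' := h
    obtain ⟨h1, h2⟩ := solOf_inj hgT hdd hf hf' h'
    subst h1
    subst h2
    rfl

/-- Infinite multiplicities absorb a finite factor. -/
lemma absorb {P G : Type} [Finite G] [Nonempty G] (s : Setoid P)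
    (h : ∀ f : P, {h : P | s.r h f}.Infinite) : ∃ E : P × G ≃ P, ∀ p, s.r (E p) p.1 := by
  classical
  have hfib : ∀ q : Quotient s, Infinite {f : P // Quotient.mk s f = q} := by
    intro q
    obtain ⟨f, rfl⟩ := Quotient.exists_rep q
    have h1 := (h f).to_subtype
    refine Infinite.of_injective
      (fun x : {h : P | s.r h f} => (⟨x.1, Quotient.sound x.2⟩ :
        {g : P // Quotient.mk s g = Quotient.mk s f})) ?_
    intro x y hxy
    exact Subtype.ext (congrArg (fun z : {g : P // Quotient.mk s g = Quotient.mk s f} => z.1) hxy)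
  have he : ∀ q : Quotient s, Nonempty (({f : P // Quotient.mk s f = q} × G) ≃
      {f : P // Quotient.mk s f = q}) := by
    intro q
    have := hfib q
    rw [← Cardinal.eq, Cardinal.mk_prod, Cardinal.lift_id, Cardinal.lift_id]
    refine Cardinal.mul_eq_left (Cardinal.aleph0_le_mk _) ?_ (Cardinal.mk_ne_zero _)
    exact (Cardinal.lt_aleph0_of_finite G).le.trans (Cardinal.aleph0_le_mk _)
  let e := fun q : Quotient s => (he q).some
  let E1 : P ≃ Σ q : Quotient s, {f : P // Quotient.mk s f = q} :=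
    (Equiv.sigmaFiberEquiv (Quotient.mk s)).symm
  let E2 : (Σ q : Quotient s, {f : P // Quotient.mk s f = q}) × G ≃
      Σ q : Quotient s, ({f : P // Quotient.mk s f = q} × G) := Equiv.sigmaProdDistrib _ _
  let E3 : (Σ q : Quotient s, ({f : P // Quotient.mk s f = q} × G)) ≃
      Σ q : Quotient s, {f : P // Quotient.mk s f = q} := Equiv.sigmaCongrRight e
  refine ⟨(Equiv.prodCongr E1 (Equiv.refl G)).trans (E2.trans (E3.trans E1.symm)), ?_⟩
  rintro ⟨f, g⟩
  have : (((Equiv.prodCongr E1 (Equiv.refl G)).trans (E2.trans (E3.trans E1.symm))) (f, g)) =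
      (e (Quotient.mk s f) (⟨f, rfl⟩, g)).1 := rfl
  rw [this]
  exact Quotient.exact (e (Quotient.mk s f) (⟨f, rfl⟩, g)).2

/-- Exact representation when the multiplicities are infinite. -/
theorem exact_rep {P : Set (ℕ → ℕ)} {A : Set ℕ} {R : ℕ → ℕ → Prop}
    (hinf : ∀ f ∈ P, {h ∈ P | TuringEquivalent ((h : ℕ → ℕ) : ℕ →. ℕ) (f : ℕ →. ℕ)}.Infinite)
    (hrep : ∃ F : P → Fin 4 → ℕ → ℕ → Prop,
        (∀ (f : P) (π : Equiv.Perm (Fin 4)), IsSolution A R 4 (F f ∘ π) ∧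
          TuringEquivalent ((codeOf (F f ∘ π) : ℕ → ℕ) : ℕ →. ℕ) ((f : ℕ → ℕ) : ℕ →. ℕ)) ∧
        (∀ L : Fin 4 → ℕ → ℕ → Prop, IsSolution A R 4 L →
          ∃! p : P × Equiv.Perm (Fin 4), L = F p.1 ∘ p.2)) :
    Represents P (solutions A R 4) := by
  obtain ⟨F, h1, h2⟩ := hrep
  let s : Setoid P := ⟨fun h f => TuringEquivalent ((h : ℕ → ℕ) : ℕ →. ℕ) ((f : ℕ → ℕ) : ℕ →. ℕ),
    ⟨fun _ => TuringEquivalent.refl _, fun h => TuringEquivalent.symm h,
      fun h h' => TuringEquivalent.trans _ _ _ h h'⟩⟩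
  have hs : ∀ f : P, {h : P | s.r h f}.Infinite := by
    intro f hfin
    apply hinf f f.2
    have := hfin.image (fun x : P => (x : ℕ → ℕ))
    refine this.subset ?_
    rintro x ⟨hx, hx'⟩
    exact ⟨⟨x, hx⟩, hx', rfl⟩
  obtain ⟨E, hE⟩ := absorb (G := Equiv.Perm (Fin 4)) s hs
  let B : P × Equiv.Perm (Fin 4) → solutions A R 4 :=
    fun p => ⟨codeOf (F p.1 ∘ p.2), _, (h1 p.1 p.2).1, rfl⟩
  have hB : Function.Bijective B := by
    constructor
    · intro p q hpq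
      have h3 : F p.1 ∘ p.2 = F q.1 ∘ q.2 := codeOf_injective (congrArg Subtype.val hpq)
      obtain ⟨r, hr, hr'⟩ := h2 (F p.1 ∘ p.2) (h1 p.1 p.2).1
      rw [hr' p rfl, hr' q h3]
    · rintro ⟨x, L, hL, rfl⟩
      obtain ⟨p, hp, -⟩ := h2 L hL
      refine ⟨p, Subtype.ext ?_⟩
      show codeOf (F p.1 ∘ p.2) = codeOf L
      rw [hp]
  let BE := Equiv.ofBijective B hB
  refine ⟨BE.symm.trans E, fun x => ?_⟩
  obtain ⟨p, rfl⟩ := BE.surjective x
  have h4 : (BE.symm.trans E) (BE p) = E p := by simp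
  rw [h4]
  have h5 : TuringEquivalent (((E p : P) : ℕ → ℕ) : ℕ →. ℕ) ((p.1 : ℕ → ℕ) : ℕ →. ℕ) := hE p
  have h6 := (h1 p.1 p.2).2
  exact TuringEquivalent.trans _ _ _ h5 (TuringEquivalent.symm h6)

end Pool.Agent.Helper539.Dim
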