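import Mathlib

namespace Pool.Agent.Helper539

open Finset

section Aux

variable {X : Type*} [Fintype X] [DecidableEq X] {k D M N n : ℕ}

omit [Fintype X] [DecidableEq X] in
/-- the pseudorandomness property in terms of finite sets. -/
theorem bad_card_lt {cj : Fin N → X → Fin k} {κ : Fin k}
    (hP : ∀ a : Fin M → Fin D → X, (∀ l l', l ≠ l' → ∀ d d', a l d ≠ a l' d') →
      (univ.filter (fun b : Fin N => ∀ l, ∃ d, cj b (a l d) ≠ κ)).card < n)
    (A : Fin M → Finset X) (hA : ∀ l, (A l).Nonempty) (hAD : ∀ l, (A l).card ≤ D)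
    (hdisj : ∀ l l', l ≠ l' → Disjoint (A l) (A l')) :
    (univ.filter (fun b : Fin N => ∀ l, ∃ x ∈ A l, cj b x ≠ κ)).card < n := by
  have key : ∀ l, ∃ g : Fin D → X, (∀ d, g d ∈ A l) ∧ ∀ x ∈ A l, ∃ d, g d = x := by
    intro l
    obtain ⟨x0, hx0⟩ := hA l
    let e := (A l).equivFin
    refine ⟨fun d => if h : d.1 < (A l).card then (e.symm ⟨d.1, h⟩ : X) else x0, ?_, ?_⟩
    · intro d
      by_cases h : d.1 < (A l).card
      · simp only [dif_pos h]
        exact (e.symm ⟨d.1, h⟩).2
      · simp only [dif_neg h]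
        exact hx0
    · intro x hx
      refine ⟨⟨(e ⟨x, hx⟩).1, lt_of_lt_of_le (e ⟨x, hx⟩).2 (hAD l)⟩, ?_⟩
      simp
  choose a ha1 ha2 using key
  have h := hP a (by
    intro l l' hll' d d' heq
    exact (Finset.disjoint_left.1 (hdisj l l' hll')) (ha1 l d) (heq ▸ ha1 l' d'))
  refine lt_of_le_of_lt (card_le_card ?_) h
  intro b hb
  rw [mem_filter] at hb ⊢
  refine ⟨mem_univ _, fun l => ?_⟩
  obtain ⟨x, hx, hne⟩ := hb.2 l
  obtain ⟨d, rfl⟩ := ha2 l x hx
  exact ⟨d, hne⟩

/-- There is a small set meeting every small set with few common neighbours. -/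
theorem exists_hitting {cj : Fin N → X → Fin k} {κ : Fin k}
    (hP : ∀ a : Fin M → Fin D → X, (∀ l l', l ≠ l' → ∀ d d', a l d ≠ a l' d') →
      (univ.filter (fun b : Fin N => ∀ l, ∃ d, cj b (a l d) ≠ κ)).card < n)
    (live : Finset (Fin N)) (L : ℕ) (hlive : n + M * L ≤ live.card) :
    ∃ Z : Finset X, Z.card ≤ M * D ∧ ∀ A : Finset X, A.Nonempty → A.card ≤ D →
      (live.filter (fun b => ∀ x ∈ A, cj b x = κ)).card < L → ¬ Disjoint A Z := by
  classical
  let isBad : Finset X → Prop := fun A => A.Nonempty ∧ A.card ≤ D ∧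
      (live.filter (fun b => ∀ x ∈ A, cj b x = κ)).card < L
  let fam : Finset (Finset (Finset X)) := univ.filter (fun 𝒜 =>
    (∀ A ∈ 𝒜, isBad A) ∧ ∀ A ∈ 𝒜, ∀ B ∈ 𝒜, A ≠ B → Disjoint A B)
  have hne : fam.Nonempty := ⟨∅, by simp [fam]⟩
  obtain ⟨𝒜, h𝒜, hmax⟩ := exists_max_image fam (fun 𝒜 => 𝒜.card) hne
  have h𝒜' : (∀ A ∈ 𝒜, isBad A) ∧ ∀ A ∈ 𝒜, ∀ B ∈ 𝒜, A ≠ B → Disjoint A B := by
    simpa [fam] using h𝒜
  obtain ⟨hbad, hdisj⟩ := h𝒜'
  have hlt : 𝒜.card < M := by
    by_contra hcon
    push Not at hcon
    obtain ⟨ι⟩ : Nonempty (Fin M ↪ 𝒜) :=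
      Function.Embedding.nonempty_of_card_le (by simpa using hcon)
    have h1 := bad_card_lt hP (fun l => (ι l : Finset X)) (fun l => (hbad _ (ι l).2).1)
      (fun l => (hbad _ (ι l).2).2.1)
      (fun l l' hll' => hdisj _ (ι l).2 _ (ι l').2
        (fun h => hll' (ι.injective (Subtype.ext h))))
    have hcov : live ⊆ (univ.filter (fun b : Fin N => ∀ l, ∃ x ∈ (ι l : Finset X), cj b x ≠ κ)) ∪
        (univ : Finset (Fin M)).biUnion
          (fun l => live.filter (fun b => ∀ x ∈ (ι l : Finset X), cj b x = κ)) := by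
      intro b hb
      rw [mem_union]
      by_cases h : ∀ l, ∃ x ∈ (ι l : Finset X), cj b x ≠ κ
      · left
        simpa using h
      · right
        push Not at h
        obtain ⟨l, hl⟩ := h
        rw [mem_biUnion]
        exact ⟨l, mem_univ _, by rw [mem_filter]; exact ⟨hb, hl⟩⟩
    have h2 := card_le_card hcov
    have h3 := card_union_le (univ.filter (fun b : Fin N => ∀ l, ∃ x ∈ (ι l : Finset X),
      cj b x ≠ κ)) ((univ : Finset (Fin M)).biUnion
          (fun l => live.filter (fun b => ∀ x ∈ (ι l : Finset X), cj b x = κ)))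
    have h4 := card_biUnion_le_card_mul (univ : Finset (Fin M))
      (fun l => live.filter (fun b => ∀ x ∈ (ι l : Finset X), cj b x = κ)) L
      (fun l _ => (hbad _ (ι l).2).2.2.le)
    rw [card_univ, Fintype.card_fin] at h4
    omega
  refine ⟨𝒜.biUnion id, ?_, ?_⟩
  · calc (𝒜.biUnion id).card ≤ 𝒜.card * D :=
        card_biUnion_le_card_mul _ _ _ (fun A hA => (hbad A hA).2.1)
      _ ≤ M * D := Nat.mul_le_mul_right _ hlt.le
  · intro A hA hAD hAL hAdisj
    have hAn : A ∉ 𝒜 := by
      intro hmem
      obtain ⟨x, hx⟩ := hA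
      exact (Finset.disjoint_left.1 hAdisj) hx (mem_biUnion.2 ⟨A, hmem, hx⟩)
    have hmem : insert A 𝒜 ∈ fam := by
      simp only [fam, mem_filter, mem_univ, true_and]
      have hAB : ∀ B ∈ 𝒜, Disjoint A B := fun B hB =>
        hAdisj.mono_right (subset_biUnion_of_mem id hB)
      refine ⟨?_, ?_⟩
      · intro B hB
        rcases mem_insert.1 hB with rfl | hB
        · exact ⟨hA, hAD, hAL⟩
        · exact hbad B hB
      · intro B hB C hC hBC
        rcases mem_insert.1 hB with hBA | hB'
        · rcases mem_insert.1 hC with hCA | hC'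
          · exact absurd (hBA.trans hCA.symm) hBC
          · rw [hBA]
            exact hAB C hC'
        · rcases mem_insert.1 hC with hCA | hC'
          · rw [hCA]
            exact (hAB B hB').symm
          · exact hdisj B hB' C hC' hBC
    have := hmax _ hmem
    simp only [card_insert_of_notMem hAn] at this
    omega

/-- Hall-type step: simultaneous embedding of one colour class. -/
theorem hall_step {V : Type*} [DecidableEq V] {cj : Fin N → X → Fin k} {κ : Fin k}
    (hP : ∀ a : Fin M → Fin D → X, (∀ l l', l ≠ l' → ∀ d d', a l d ≠ a l' d') →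
      (univ.filter (fun b : Fin N => ∀ l, ∃ d, cj b (a l d) ≠ κ)).card < n)
    (I : Finset V) (A : V → Finset X) (live : Finset (Fin N)) (L : ℕ)
    (hI : I.card + n ≤ live.card)
    (hA1 : ∀ v ∈ I, L ≤ (live.filter (fun b => ∀ x ∈ A v, cj b x = κ)).card)
    (hAD : ∀ v ∈ I, (A v).card ≤ D)
    (hA2 : ∀ T ⊆ I, L ≤ T.card → ∃ s : Fin M → V, (∀ l, s l ∈ T) ∧
      ∀ l l', l ≠ l' → Disjoint (A (s l)) (A (s l'))) :
    ∃ g : I → Fin N, Function.Injective g ∧
      ∀ v : I, g v ∈ live.filter (fun b => ∀ x ∈ A v, cj b x = κ) := by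
  classical
  rw [← Finset.all_card_le_biUnion_card_iff_exists_injective
    (fun v : I => live.filter (fun b => ∀ x ∈ A v, cj b x = κ))]
  intro T
  let T' : Finset V := T.map (Function.Embedding.subtype _)
  have hT' : T' ⊆ I := by
    intro v hv
    simp only [T', mem_map, Function.Embedding.subtype_apply] at hv
    obtain ⟨w, _, rfl⟩ := hv
    exact w.2
  have hTc : T'.card = T.card := card_map _
  by_cases hTe : T = ∅
  · simp [hTe]
  obtain ⟨v0, hv0⟩ := Finset.nonempty_iff_ne_empty.2 hTe
  by_cases hTL : T.card ≤ L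
  · refine hTL.trans ((hA1 v0 v0.2).trans (card_le_card ?_))
    exact subset_biUnion_of_mem (fun v : I => live.filter (fun b => ∀ x ∈ A v, cj b x = κ)) hv0
  · push Not at hTL
    by_cases hempty : ∃ v ∈ T, A (v : V) = ∅
    · obtain ⟨v, hv, hAv⟩ := hempty
      have h1 : live ⊆ T.biUnion (fun v : I => live.filter (fun b => ∀ x ∈ A v, cj b x = κ)) := by
        intro b hb
        rw [mem_biUnion]
        refine ⟨v, hv, ?_⟩
        rw [mem_filter]
        refine ⟨hb, fun x hx => ?_⟩
        rw [hAv] at hx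
        exact absurd hx (notMem_empty x)
      have h2 := card_le_card h1
      have h3 := card_le_card hT'
      omega
    · push Not at hempty
      obtain ⟨s, hsT, hs⟩ := hA2 T' hT' (by omega)
      have hsI : ∀ l, s l ∈ I := fun l => hT' (hsT l)
      have hsT2 : ∀ l, (⟨s l, hsI l⟩ : I) ∈ T := by
        intro l
        have := hsT l
        simp only [T', mem_map, Function.Embedding.subtype_apply] at this
        obtain ⟨w, hw, hw2⟩ := this
        have : (⟨s l, hsI l⟩ : I) = w := Subtype.ext hw2.symm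
        rw [this]
        exact hw
      have hbad := bad_card_lt hP (fun l => A (s l))
        (fun l => Finset.nonempty_iff_ne_empty.2 (Finset.nonempty_iff_ne_empty.1
          (hempty ⟨s l, hsI l⟩ (hsT2 l))))
        (fun l => hAD _ (hsI l)) hs
      have h1 : live ⊆ (univ.filter (fun b : Fin N => ∀ l, ∃ x ∈ A (s l), cj b x ≠ κ)) ∪
          T.biUnion (fun v : I => live.filter (fun b => ∀ x ∈ A v, cj b x = κ)) := by
        intro b hb
        rw [mem_union]
        by_cases h : ∀ l, ∃ x ∈ A (s l), cj b x ≠ κ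
        · left
          simpa using h
        · right
          push Not at h
          obtain ⟨l, hl⟩ := h
          rw [mem_biUnion]
          exact ⟨⟨s l, hsI l⟩, hsT2 l, by rw [mem_filter]; exact ⟨hb, hl⟩⟩
      have h2 := card_le_card h1
      have h3 := card_union_le (univ.filter (fun b : Fin N => ∀ l, ∃ x ∈ A (s l), cj b x ≠ κ))
        (T.biUnion (fun v : I => live.filter (fun b => ∀ x ∈ A v, cj b x = κ)))
      have h4 := card_le_card hT'
      omega

end Aux

/-- Greedy choice of vertices with pairwise disjoint neighbourhoods. -/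
theorem exists_far {V : Type*} [Fintype V] [DecidableEq V] (G : SimpleGraph V)
    [DecidableRel G.Adj] {D Δ : ℕ} (hΔ : ∀ v, G.degree v ≤ Δ) (T : Finset V)
    (hT : ∀ v ∈ T, G.degree v ≤ D) (M : ℕ) (hM : M * (D * Δ + 1) ≤ T.card) :
    ∃ s : Fin M → V, (∀ l, s l ∈ T) ∧
      ∀ l l', l ≠ l' → ∀ u, ¬ (G.Adj (s l) u ∧ G.Adj (s l') u) := by
  induction M with
  | zero => exact ⟨fun l => l.elim0, fun l => l.elim0, fun l => l.elim0⟩
  | succ M ih =>
    obtain ⟨s, hsT, hs⟩ := ih (le_trans (Nat.mul_le_mul_right _ (Nat.le_succ M)) hM)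
    let conf : Finset V := (univ : Finset (Fin M)).biUnion
      (fun l => (G.neighborFinset (s l)).biUnion (fun u => G.neighborFinset u))
    have hconf : conf.card ≤ M * (D * Δ) := by
      refine (card_biUnion_le_card_mul _ _ (D * Δ) ?_).trans ?_
      · intro l _
        refine (card_biUnion_le_card_mul _ _ Δ (fun u _ => ?_)).trans ?_
        · rw [SimpleGraph.card_neighborFinset_eq_degree]
          exact hΔ u
        · rw [SimpleGraph.card_neighborFinset_eq_degree]
          exact Nat.mul_le_mul_right _ (hT _ (hsT l))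
      · simp
    have hlt : conf.card < T.card := by
      have : M * (D * Δ) < (M + 1) * (D * Δ + 1) := by nlinarith
      omega
    obtain ⟨v, hvT, hv⟩ : ∃ v ∈ T, v ∉ conf := by
      by_contra hcon
      push Not at hcon
      exact absurd (card_le_card (fun x hx => hcon x hx)) (not_le.2 hlt)
    refine ⟨fun l => Fin.lastCases (motive := fun _ => V) v s l, ?_, ?_⟩
    · intro l
      induction l using Fin.lastCases with
      | last => simpa using hvT
      | cast l => simpa using hsT l
    · have hvs : ∀ l u, ¬ (G.Adj v u ∧ G.Adj (s l) u) := by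
        rintro l u ⟨h1, h2⟩
        apply hv
        simp only [conf, mem_biUnion, mem_univ, true_and]
        refine ⟨l, u, ?_, ?_⟩
        · rw [SimpleGraph.mem_neighborFinset]
          exact h2
        · rw [SimpleGraph.mem_neighborFinset]
          exact h1.symm
      intro l l' hll' u
      induction l using Fin.lastCases with
      | last =>
        induction l' using Fin.lastCases with
        | last => exact absurd rfl hll'
        | cast l' => simpa using hvs l' u
      | cast l =>
        induction l' using Fin.lastCases with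
        | last =>
          have := hvs l u
          simp only [Fin.lastCases_last, Fin.lastCases_castSucc]
          exact fun h => this ⟨h.2, h.1⟩
        | cast l' =>
          simp only [Fin.lastCases_castSucc]
          exact hs l l' (fun h => hll' (by rw [h])) u

end Pool.Agent.Helper539
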