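import Pool.Agent.Helper539.Dense

namespace Pool.Agent.Helper539

open Finset SimpleGraph

universe u

/-- If no vertex is isolated, there are at most `2 |E|` vertices. -/
theorem card_le_two_mul {V : Type*} [Fintype V] (G : SimpleGraph V)
    (hiso : ∀ v, ∃ w, G.Adj v w) : Fintype.card V ≤ 2 * G.edgeSet.ncard := by
  classical
  have h1 : ∑ _v : V, 1 ≤ ∑ v, G.degree v := by
    apply Finset.sum_le_sum
    intro v _
    obtain ⟨w, hw⟩ := hiso v
    exact (G.degree_pos_iff_exists_adj v).2 ⟨w, hw⟩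
  rw [G.sum_degrees_eq_twice_card_edges] at h1
  have h2 : G.edgeSet.ncard = G.edgeFinset.card := by
    rw [← Set.ncard_coe_finset]
    simp
  rw [h2]
  simpa using h1

/-- The general upper bound: if the maximum degree is at most `ε |E|`, then
`r̂(G, tK₂) ≤ δ t |E|` for some `t ≥ 1`. -/
theorem general_case (δ : ℝ) (hδ : 0 < δ) : ∃ ε : ℝ, 0 < ε ∧
    ∀ (V : Type u) [Fintype V] (G : SimpleGraph V), G.edgeSet.Nonempty →
      (∀ v, ∃ w, G.Adj v w) →
      (∀ v, ((G.neighborSet v).ncard : ℝ) ≤ ε * G.edgeSet.ncard) →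
      ∃ t : ℕ, 1 ≤ t ∧
        (sizeRamsey G (matchingGraph t) : ℝ) ≤ δ * (t * G.edgeSet.ncard) := by
  obtain ⟨K0, hK0⟩ := exists_nat_ge (7 / δ)
  let K := K0 + 1
  have hK : 7 / δ ≤ (K : ℝ) := hK0.trans (by simp [K])
  have hK1 : 1 ≤ K := Nat.succ_pos _
  have hKR : (0 : ℝ) < K := by exact_mod_cast hK1
  obtain ⟨ε, hε, n₀, h⟩ := sparse_case.{u} δ hδ K
  refine ⟨min (ε / K) (1 / (K * (n₀ + 1))), by positivity, ?_⟩
  intro V _ G hedge hiso hdeg
  have hm : 0 < G.edgeSet.ncard := (Set.ncard_pos (Set.toFinite _)).2 hedge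
  have hmR : (0 : ℝ) < G.edgeSet.ncard := by exact_mod_cast hm
  by_cases hmK : K * Fintype.card V ≤ G.edgeSet.ncard
  · refine ⟨K, hK1, (dense_case G K hK1 hmK hm).trans ?_⟩
    apply mul_le_mul_of_nonneg_right _ (by positivity)
    rw [div_le_iff₀ hδ] at hK
    rw [div_le_iff₀ hKR]
    linarith
  · push Not at hmK
    have hmKR : (G.edgeSet.ncard : ℝ) < K * Fintype.card V := by exact_mod_cast hmK
    apply h V G
    · -- number of vertices is large
      obtain ⟨e, he⟩ := hedge
      have hv : ∃ v : V, 1 ≤ (G.neighborSet v).ncard := by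
        induction e using Sym2.ind with
        | _ a b =>
          rw [mem_edgeSet] at he
          exact ⟨a, (Set.ncard_pos (Set.toFinite _)).2 ⟨b, he⟩⟩
      obtain ⟨v, hv⟩ := hv
      have h1 : (1 : ℝ) ≤ (G.neighborSet v).ncard := by exact_mod_cast hv
      have h2 := (h1.trans (hdeg v)).trans (mul_le_mul_of_nonneg_right (min_le_right _ _) hmR.le)
      have h3 : (K : ℝ) * (n₀ + 1) ≤ G.edgeSet.ncard := by
        rw [div_mul_eq_mul_div, one_mul, le_div_iff₀ (by positivity), one_mul] at h2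
        exact h2
      have h4 : (K : ℝ) * (n₀ + 1) < K * Fintype.card V := lt_of_le_of_lt h3 hmKR
      have h5 : ((n₀ + 1 : ℕ) : ℝ) < (Fintype.card V : ℝ) := by
        push_cast
        exact lt_of_mul_lt_mul_left h4 hKR.le
      have h6 : n₀ + 1 < Fintype.card V := by exact_mod_cast h5
      omega
    · exact hmK.le
    · exact card_le_two_mul G hiso
    · intro v
      have h1 := (hdeg v).trans (mul_le_mul_of_nonneg_right (min_le_left _ _) hmR.le)
      refine h1.trans ?_
      calc ε / K * (G.edgeSet.ncard : ℝ) ≤ ε / K * (K * Fintype.card V) :=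
            mul_le_mul_of_nonneg_left hmKR.le (by positivity)
        _ = ε * Fintype.card V := by field_simp

end Pool.Agent.Helper539
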