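import Pool.Agent.Helper539.LGBase

/-! The lattice-ordered group of order automorphisms of a linear order. -/

namespace Pool.Agent.Helper539.LG

/-- Order automorphisms of a linear order. -/
def Aut (α : Type*) [LinearOrder α] : Type _ := α ≃o α

namespace Aut

variable {α : Type*} [LinearOrder α]

instance : Group (Aut α) := inferInstanceAs (Group (α ≃o α))

instance : FunLike (Aut α) α α := inferInstanceAs (FunLike (α ≃o α) α α)

theorem ext {f g : Aut α} (h : ∀ x, f x = g x) : f = g := DFunLike.ext f g h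

theorem mul_apply (f g : Aut α) (x : α) : (f * g) x = f (g x) := rfl

theorem one_apply (x : α) : (1 : Aut α) x = x := rfl

theorem apply_inv (f : Aut α) (x : α) : f (f⁻¹ x) = x := by
  rw [← mul_apply, mul_inv_cancel, one_apply]

theorem inv_apply (f : Aut α) (x : α) : f⁻¹ (f x) = x := by
  rw [← mul_apply, inv_mul_cancel, one_apply]

theorem le_apply (f : Aut α) {x y : α} : f x ≤ f y ↔ x ≤ y :=
  OrderIso.le_iff_le (f : α ≃o α)

instance : PartialOrder (Aut α) :=
  PartialOrder.lift (fun f => (f : α → α)) DFunLike.coe_injective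

theorem le_def {f g : Aut α} : f ≤ g ↔ ∀ x, f x ≤ g x := Iff.rfl

theorem le_inv_apply (f : Aut α) {x y : α} : x ≤ f⁻¹ y ↔ f x ≤ y := by
  rw [← f.le_apply, apply_inv]

theorem inv_apply_le (f : Aut α) {x y : α} : f⁻¹ x ≤ y ↔ x ≤ f y := by
  rw [← f.le_apply, apply_inv]

/-- Pointwise maximum. -/
def sup (f g : Aut α) : Aut α :=
  ({ toFun := fun x => max (f x) (g x)
     invFun := fun y => min (f⁻¹ y) (g⁻¹ y)
     left_inv := by
      intro x
      apply le_antisymm
      · rcases le_total (f x) (g x) with h | h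
        · simp only [max_eq_right h, inv_apply]
          exact min_le_right _ _
        · simp only [max_eq_left h, inv_apply]
          exact min_le_left _ _
      · refine le_min ?_ ?_
        · rw [le_inv_apply]; exact le_max_left _ _
        · rw [le_inv_apply]; exact le_max_right _ _
     right_inv := by
      intro y
      apply le_antisymm
      · refine max_le ?_ ?_
        · rw [← le_inv_apply]; exact min_le_left _ _
        · rw [← le_inv_apply]; exact min_le_right _ _
      · rcases le_total (f⁻¹ y) (g⁻¹ y) with h | h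
        · simp only [min_eq_left h, apply_inv]
          exact le_max_left _ _
        · simp only [min_eq_right h, apply_inv]
          exact le_max_right _ _
     map_rel_iff' := by
      intro x y
      constructor
      · intro h
        by_contra hxy
        push Not at hxy
        have h1 : f y < f x := lt_of_le_of_ne (f.le_apply.mpr hxy.le)
          (fun e => hxy.not_ge (f.le_apply.mp e.ge))
        have h2 : g y < g x := lt_of_le_of_ne (g.le_apply.mpr hxy.le)
          (fun e => hxy.not_ge (g.le_apply.mp e.ge))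
        exact absurd h (not_le.mpr (max_lt_max h1 h2))
      · intro h
        exact max_le_max (f.le_apply.mpr h) (g.le_apply.mpr h) } : α ≃o α)

/-- Pointwise minimum. -/
def inf (f g : Aut α) : Aut α :=
  ({ toFun := fun x => min (f x) (g x)
     invFun := fun y => max (f⁻¹ y) (g⁻¹ y)
     left_inv := by
      intro x
      apply le_antisymm
      · refine max_le ?_ ?_
        · rw [inv_apply_le]; exact min_le_left _ _
        · rw [inv_apply_le]; exact min_le_right _ _
      · rcases le_total (f x) (g x) with h | h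
        · simp only [min_eq_left h, inv_apply]
          exact le_max_left _ _
        · simp only [min_eq_right h, inv_apply]
          exact le_max_right _ _
     right_inv := by
      intro y
      apply le_antisymm
      · rcases le_total (f⁻¹ y) (g⁻¹ y) with h | h
        · simp only [max_eq_right h, apply_inv]
          exact min_le_right _ _
        · simp only [max_eq_left h, apply_inv]
          exact min_le_left _ _
      · refine le_min ?_ ?_
        · rw [← inv_apply_le]; exact le_max_left _ _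
        · rw [← inv_apply_le]; exact le_max_right _ _
     map_rel_iff' := by
      intro x y
      constructor
      · intro h
        by_contra hxy
        push Not at hxy
        have h1 : f y < f x := lt_of_le_of_ne (f.le_apply.mpr hxy.le)
          (fun e => hxy.not_ge (f.le_apply.mp e.ge))
        have h2 : g y < g x := lt_of_le_of_ne (g.le_apply.mpr hxy.le)
          (fun e => hxy.not_ge (g.le_apply.mp e.ge))
        exact absurd h (not_le.mpr (min_lt_min h1 h2))
      · intro h
        exact min_le_min (f.le_apply.mpr h) (g.le_apply.mpr h) } : α ≃o α)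

theorem sup_apply' (f g : Aut α) (x : α) : (Aut.sup f g) x = max (f x) (g x) := rfl

theorem inf_apply' (f g : Aut α) (x : α) : (Aut.inf f g) x = min (f x) (g x) := rfl

instance : Lattice (Aut α) where
  sup := Aut.sup
  inf := Aut.inf
  le_sup_left f g x := le_max_left (f x) (g x)
  le_sup_right f g x := le_max_right (f x) (g x)
  sup_le _ _ _ h1 h2 x := max_le (h1 x) (h2 x)
  inf_le_left f g x := min_le_left (f x) (g x)
  inf_le_right f g x := min_le_right (f x) (g x)
  le_inf _ _ _ h1 h2 x := le_min (h1 x) (h2 x)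

theorem sup_apply (f g : Aut α) (x : α) : (f ⊔ g) x = max (f x) (g x) := rfl

theorem inf_apply (f g : Aut α) (x : α) : (f ⊓ g) x = min (f x) (g x) := rfl

instance : MulLeftMono (Aut α) :=
  ⟨fun f _ _ h x => f.le_apply.mpr (h x)⟩

instance : MulRightMono (Aut α) :=
  ⟨fun f _ _ h x => h (f x)⟩

end Aut

section Prod

variable {A B : Type*} [Group A] [Lattice A] [Group B] [Lattice B]

instance prodLeft [MulLeftMono A] [MulLeftMono B] : MulLeftMono (A × B) :=
  ⟨fun f _ _ h => ⟨mul_le_mul_right h.1 f.1, mul_le_mul_right h.2 f.2⟩⟩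

instance prodRight [MulRightMono A] [MulRightMono B] : MulRightMono (A × B) :=
  ⟨fun f _ _ h => ⟨mul_le_mul_left h.1 f.1, mul_le_mul_left h.2 f.2⟩⟩

end Prod

/-- An ℓ-embedding. -/
def IsLEmb {A B : Type*} [Group A] [Lattice A] [Group B] [Lattice B] (f : A →* B) : Prop :=
  Function.Injective f ∧ (∀ x y, f (x ⊓ y) = f x ⊓ f y) ∧ (∀ x y, f (x ⊔ y) = f x ⊔ f y)

section Emb

variable {G : Type*} [Group G] [Lattice G] [MulLeftMono G] [MulRightMono G]

theorem pow_inf_pow {a b : G} (ha : 1 ≤ a) (hb : 1 ≤ b) (h : a ⊓ b = 1) (m n : ℕ) :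
    a ^ m ⊓ b ^ n = 1 := by
  have h1 : ∀ n : ℕ, a ⊓ b ^ n = 1 := by
    intro n
    induction n with
    | zero => rw [pow_zero]; exact inf_eq_right.mpr ha
    | succ n ih =>
      rw [pow_succ]
      exact inf_mul_eq_one ha (one_le_pow_of_one_le' hb n) hb ih h
  induction m with
  | zero => rw [pow_zero]; exact inf_eq_left.mpr (one_le_pow_of_one_le' hb n)
  | succ m ih =>
    rw [pow_succ, inf_comm]
    rw [inf_comm] at ih
    have := h1 n
    rw [inf_comm] at this
    exact inf_mul_eq_one (one_le_pow_of_one_le' hb n) (one_le_pow_of_one_le' ha m) ha ih this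

theorem zpow_inf_zpow {a b : G} (ha : 1 ≤ a) (hb : 1 ≤ b) (h : a ⊓ b = 1) {m n : ℤ}
    (hm : 0 ≤ m) (hn : 0 ≤ n) : a ^ m ⊓ b ^ n = 1 := by
  lift m to ℕ using hm
  lift n to ℕ using hn
  rw [zpow_natCast, zpow_natCast]
  exact pow_inf_pow ha hb h m n

omit [MulRightMono G] in
theorem one_le_zpow_nonneg {a : G} (ha : 1 ≤ a) {m : ℤ} (hm : 0 ≤ m) : 1 ≤ a ^ m := by
  lift m to ℕ using hm
  rw [zpow_natCast]
  exact one_le_pow_of_one_le' ha m

omit [MulRightMono G] in
theorem le_zpow_pos {a : G} (ha : 1 ≤ a) {m : ℤ} (hm : 0 < m) : a ≤ a ^ m := by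
  have h : a ^ m = a * a ^ (m - 1) := by
    rw [← zpow_one_add]; congr 1; ring
  rw [h]
  exact le_mul_of_one_le_right' (one_le_zpow_nonneg ha (by omega))

theorem mul_eq_sup_of_inf {a b : G} (h : a ⊓ b = 1) : a * b = a ⊔ b := by
  have h1 : a * (a ⊓ b)⁻¹ * b = b ⊔ a := by
    rw [inv_inf, mul_sup, sup_mul]
    simp
  rw [h, inv_one, mul_one] at h1
  rw [h1, sup_comm]

theorem commute_of_inf {a b : G} (h : a ⊓ b = 1) : Commute a b := by
  have h1 := mul_eq_sup_of_inf h
  rw [inf_comm] at h
  have h2 := mul_eq_sup_of_inf h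
  show a * b = b * a
  rw [h1, h2, sup_comm]

/-- The homomorphism `(m, n) ↦ a ^ m * b ^ n` on `ℤ × ℤ`. -/
def homSum (a b : G) (h : Commute a b) : Multiplicative ℤ × Multiplicative ℤ →* G where
  toFun x := a ^ (Multiplicative.toAdd x.1) * b ^ (Multiplicative.toAdd x.2)
  map_one' := by simp
  map_mul' x y := by
    simp only [Prod.fst_mul, Prod.snd_mul, toAdd_mul, zpow_add]
    have := (h.zpow_zpow (Multiplicative.toAdd y.1) (Multiplicative.toAdd x.2)).eq
    rw [mul_assoc, mul_assoc, ← mul_assoc (b ^ _) (a ^ _), ← this, mul_assoc]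

theorem homSum_isLEmb {a b : G} (ha : 1 < a) (hb : 1 < b) (h : a ⊓ b = 1) (hc : Commute a b) :
    IsLEmb (homSum a b hc) := by
  have ha' := ha.le
  have hb' := hb.le
  have key : ∀ m n m' n' : ℤ, m ≤ m' → n ≤ n' →
      ((a ^ m' * b ^ n) ⊓ (a ^ m * b ^ n') = a ^ m * b ^ n ∧
      (a ^ m' * b ^ n) ⊔ (a ^ m * b ^ n') = a ^ m' * b ^ n') := by
    intro m n m' n' hm hn
    obtain ⟨p, hp, rfl⟩ : ∃ p : ℤ, 0 ≤ p ∧ m' = m + p := ⟨m' - m, by omega, by omega⟩
    obtain ⟨q, hq, rfl⟩ : ∃ q : ℤ, 0 ≤ q ∧ n' = n + q := ⟨n' - n, by omega, by omega⟩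
    have e1 : a ^ (m + p) * b ^ n = (a ^ m * b ^ n) * a ^ p := by
      rw [zpow_add, mul_assoc, mul_assoc, (hc.zpow_zpow p n).eq]
    have e2 : a ^ m * b ^ (n + q) = (a ^ m * b ^ n) * b ^ q := by
      rw [zpow_add, mul_assoc]
    have e3 : a ^ (m + p) * b ^ (n + q) = (a ^ m * b ^ n) * (a ^ p * b ^ q) := by
      rw [zpow_add, zpow_add, mul_assoc, mul_assoc, ← mul_assoc (a ^ p),
        (hc.zpow_zpow p n).eq, mul_assoc]
    have h1 := zpow_inf_zpow ha' hb' h hp hq
    rw [e3, e1, e2, ← mul_inf, ← mul_sup, h1, mul_one, ← mul_eq_sup_of_inf h1]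
    exact ⟨rfl, rfl⟩
  have hmono : ∀ m n m' n' : ℤ, m ≤ m' → n ≤ n' → a ^ m * b ^ n ≤ a ^ m' * b ^ n' := by
    intro m n m' n' hm hn
    have := (key m n m' n' hm hn).1
    have h2 : a ^ m * b ^ n ≤ a ^ m' * b ^ n := by rw [← this]; exact inf_le_left
    refine h2.trans ?_
    rw [← (key m n m' n' hm hn).2]
    exact le_sup_left
  refine ⟨?_, ?_, ?_⟩
  · rw [injective_iff_map_eq_one]
    rintro ⟨m, n⟩ hx
    change a ^ (Multiplicative.toAdd m) * b ^ (Multiplicative.toAdd n) = 1 at hx
    suffices hgoal : Multiplicative.toAdd m = 0 ∧ Multiplicative.toAdd n = 0 from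
      Prod.ext hgoal.1 hgoal.2
    generalize Multiplicative.toAdd m = m at *
    generalize Multiplicative.toAdd n = n at *
    have hpos : ∀ {g : G}, 1 < g → ∀ k : ℤ, g ^ k = 1 → k = 0 := by
      intro g hg k hk
      rcases lt_trichotomy k 0 with h0 | h0 | h0
      · have h1 := le_zpow_pos hg.le (show 0 < -k by omega)
        rw [zpow_neg, hk, inv_one] at h1
        exact absurd hg (not_lt_of_ge h1)
      · exact h0
      · have h1 := le_zpow_pos hg.le h0
        rw [hk] at h1
        exact absurd hg (not_lt_of_ge h1)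
    have h1 : a ^ m = b ^ (-n) := by
      rw [zpow_neg]; exact eq_inv_of_mul_eq_one_left hx
    have hmn : m = 0 ∧ n = 0 := by
      rcases le_total 0 m with h2 | h2 <;> rcases le_total 0 n with h3 | h3
      · -- both nonneg
        have h4 := one_le_zpow_nonneg ha' h2
        have h5 := one_le_zpow_nonneg hb' h3
        have h6 : a ^ m ≤ 1 := by rw [← hx]; exact le_mul_of_one_le_right' h5
        have h7 : b ^ n ≤ 1 := by rw [← hx]; exact le_mul_of_one_le_left' h4
        exact ⟨hpos ha m (le_antisymm h6 h4), hpos hb n (le_antisymm h7 h5)⟩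
      · have h4 := zpow_inf_zpow ha' hb' h h2 (show 0 ≤ -n by omega)
        rw [← h1, inf_idem] at h4
        have h5 : b ^ (-n) = 1 := by rw [← h1, h4]
        have := hpos hb _ h5
        exact ⟨hpos ha m h4, by omega⟩
      · have h1' : a ^ (-m) = b ^ n := by
          rw [zpow_neg, h1, zpow_neg, inv_inv]
        have h4 := zpow_inf_zpow ha' hb' h (show 0 ≤ -m by omega) h3
        rw [← h1', inf_idem] at h4
        have h5 : b ^ n = 1 := by rw [← h1', h4]
        have := hpos ha _ h4
        exact ⟨by omega, hpos hb _ h5⟩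
      · have h4 := one_le_zpow_nonneg ha' (show 0 ≤ -m by omega)
        have h5 := one_le_zpow_nonneg hb' (show 0 ≤ -n by omega)
        have h8 : a ^ (-m) * b ^ (-n) = 1 := by
          rw [← h1, ← zpow_add]; simp
        have h6 : a ^ (-m) ≤ 1 := by rw [← h8]; exact le_mul_of_one_le_right' h5
        have h7 : b ^ (-n) ≤ 1 := by rw [← h8]; exact le_mul_of_one_le_left' h4
        have h9 := hpos ha _ (le_antisymm h6 h4)
        have h10 := hpos hb _ (le_antisymm h7 h5)
        exact ⟨by omega, by omega⟩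
    exact hmn
  · rintro ⟨m, n⟩ ⟨m', n'⟩
    change a ^ (min (Multiplicative.toAdd m) (Multiplicative.toAdd m')) *
      b ^ (min (Multiplicative.toAdd n) (Multiplicative.toAdd n')) =
      a ^ (Multiplicative.toAdd m) * b ^ (Multiplicative.toAdd n) ⊓
      a ^ (Multiplicative.toAdd m') * b ^ (Multiplicative.toAdd n')
    generalize Multiplicative.toAdd m = m at *
    generalize Multiplicative.toAdd n = n at *
    generalize Multiplicative.toAdd m' = m' at *
    generalize Multiplicative.toAdd n' = n' at *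
    rcases le_total m m' with h1 | h1 <;> rcases le_total n n' with h2 | h2
    · rw [min_eq_left h1, min_eq_left h2]; exact (inf_eq_left.mpr (hmono _ _ _ _ h1 h2)).symm
    · rw [min_eq_left h1, min_eq_right h2, inf_comm]; exact (key m n' m' n h1 h2).1.symm
    · rw [min_eq_right h1, min_eq_left h2]; exact (key m' n m n' h1 h2).1.symm
    · rw [min_eq_right h1, min_eq_right h2]; exact (inf_eq_right.mpr (hmono _ _ _ _ h1 h2)).symm
  · rintro ⟨m, n⟩ ⟨m', n'⟩
    change a ^ (max (Multiplicative.toAdd m) (Multiplicative.toAdd m')) *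
      b ^ (max (Multiplicative.toAdd n) (Multiplicative.toAdd n')) =
      a ^ (Multiplicative.toAdd m) * b ^ (Multiplicative.toAdd n) ⊔
      a ^ (Multiplicative.toAdd m') * b ^ (Multiplicative.toAdd n')
    generalize Multiplicative.toAdd m = m at *
    generalize Multiplicative.toAdd n = n at *
    generalize Multiplicative.toAdd m' = m' at *
    generalize Multiplicative.toAdd n' = n' at *
    rcases le_total m m' with h1 | h1 <;> rcases le_total n n' with h2 | h2
    · rw [max_eq_right h1, max_eq_right h2]; exact (sup_eq_right.mpr (hmono _ _ _ _ h1 h2)).symm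
    · rw [max_eq_right h1, max_eq_left h2, sup_comm]; exact (key m n' m' n h1 h2).2.symm
    · rw [max_eq_left h1, max_eq_right h2]; exact (key m' n m n' h1 h2).2.symm
    · rw [max_eq_left h1, max_eq_left h2]; exact (sup_eq_left.mpr (hmono _ _ _ _ h1 h2)).symm

/-- The homomorphism `(m, n) ↦ a ^ m * b ^ n` on the lexicographic product. -/
def homLex (a b : G) (h : Commute a b) : Multiplicative (ℤ ×ₗ ℤ) →* G where
  toFun x := a ^ (ofLex (Multiplicative.toAdd x)).1 * b ^ (ofLex (Multiplicative.toAdd x)).2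
  map_one' := by simp
  map_mul' x y := by
    simp only [toAdd_mul, ofLex_add, Prod.fst_add, Prod.snd_add, zpow_add]
    have := (h.zpow_zpow (ofLex (Multiplicative.toAdd y)).1 (ofLex (Multiplicative.toAdd x)).2).eq
    rw [mul_assoc, mul_assoc, ← mul_assoc (b ^ _) (a ^ _), ← this, mul_assoc]

theorem homLex_isLEmb {a b : G} (hb : 1 < b) (hc : Commute a b) (hab : ∀ n : ℤ, b ^ n ≤ a) :
    IsLEmb (homLex a b hc) := by
  have hb' := hb.le
  have ha' : 1 ≤ a := by simpa using hab 0
  have hpos : ∀ x : Multiplicative (ℤ ×ₗ ℤ), 1 < x → 1 < homLex a b hc x := by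
    intro x hx
    change 1 < a ^ (ofLex (Multiplicative.toAdd x)).1 * b ^ (ofLex (Multiplicative.toAdd x)).2
    have hx' : (0 : ℤ ×ₗ ℤ) < Multiplicative.toAdd x := hx
    rw [Prod.Lex.lt_iff] at hx'
    rcases hx' with h | ⟨h, h'⟩
    · have h1 : (0 : ℤ) < (ofLex (Multiplicative.toAdd x)).1 := h
      set m := (ofLex (Multiplicative.toAdd x)).1
      set n := (ofLex (Multiplicative.toAdd x)).2
      have h2 : b * b ^ (-n) ≤ a := by rw [← zpow_one_add]; exact hab _
      have h3 : b ≤ a * b ^ n := by
        calc b = b * b ^ (-n) * b ^ n := by group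
          _ ≤ a * b ^ n := mulRR h2 _
      exact lt_of_lt_of_le hb (h3.trans (mulRR (le_zpow_pos ha' h1) _))
    · have h1 : (0 : ℤ) = (ofLex (Multiplicative.toAdd x)).1 := h
      have h2 : (0 : ℤ) < (ofLex (Multiplicative.toAdd x)).2 := h'
      rw [← h1, zpow_zero, one_mul]
      exact lt_of_lt_of_le hb (le_zpow_pos hb' h2)
  have hmono : ∀ x y : Multiplicative (ℤ ×ₗ ℤ), x < y → homLex a b hc x < homLex a b hc y := by
    intro x y hxy
    have h1 := hpos (x⁻¹ * y) (by
      rw [lt_inv_mul_iff_mul_lt, mul_one]; exact hxy)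
    rw [map_mul, map_inv] at h1
    refine lt_of_le_of_ne ?_ ?_
    · have := mulLL h1.le (homLex a b hc x)
      rwa [mul_one, mul_inv_cancel_left] at this
    · intro e
      rw [e, inv_mul_cancel] at h1
      exact lt_irrefl _ h1
  have hsm : StrictMono (homLex a b hc) := fun x y h => hmono x y h
  refine ⟨hsm.injective, ?_, ?_⟩
  · intro x y
    rcases le_total x y with h | h
    · rw [inf_eq_left.mpr h]; exact (inf_eq_left.mpr (hsm.monotone h)).symm
    · rw [inf_eq_right.mpr h]; exact (inf_eq_right.mpr (hsm.monotone h)).symm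
  · intro x y
    rcases le_total x y with h | h
    · rw [sup_eq_right.mpr h]; exact (sup_eq_right.mpr (hsm.monotone h)).symm
    · rw [sup_eq_left.mpr h]; exact (sup_eq_left.mpr (hsm.monotone h)).symm

end Emb

/-- An ℓ-embedding is monotone. -/
theorem IsLEmb.mono {A B : Type*} [Group A] [Lattice A] [Group B] [Lattice B] {f : A →* B}
    (hf : IsLEmb f) {x y : A} (h : x ≤ y) : f x ≤ f y := by
  rw [← inf_eq_left.mpr h, hf.2.1]
  exact inf_le_right

end Pool.Agent.Helper539.LG
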