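import Mathlib

/-! Prime right preorders on lattice-ordered groups and two obstructions to amalgamation. -/

namespace Pool.Agent.Helper539.LG

variable {D : Type*} [Group D] [Lattice D] [MulLeftMono D] [MulRightMono D]

theorem mulLL {a b : D} (h : a ≤ b) (c : D) : c * a ≤ c * b := mul_le_mul' le_rfl h

theorem mulRR {a b : D} (h : a ≤ b) (c : D) : a * c ≤ b * c := mul_le_mul' h le_rfl

theorem inf_mul_eq_one {x y z : D} (hx : 1 ≤ x) (hy : 1 ≤ y) (hz : 1 ≤ z)
    (h1 : x ⊓ y = 1) (h2 : x ⊓ z = 1) : x ⊓ (y * z) = 1 := by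
  apply le_antisymm
  · have h3 : x ⊓ (y * z) ≤ (x ⊓ y) * (x ⊓ z) := by
      rw [mul_inf, inf_mul, inf_mul]
      refine le_inf (le_inf ?_ ?_) (le_inf ?_ ?_)
      · exact inf_le_left.trans (le_mul_of_one_le_right' hx)
      · exact inf_le_left.trans (le_mul_of_one_le_left' hy)
      · exact inf_le_left.trans (le_mul_of_one_le_right' hz)
      · exact inf_le_right
    rw [h1, h2, one_mul] at h3
    exact h3
  · exact le_inf hx (one_le_mul hy hz)

theorem conj_inf {x y : D} (h : x ⊓ y = 1) (k : D) : (k * x * k⁻¹) ⊓ (k * y * k⁻¹) = 1 := by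
  rw [← inf_mul, ← mul_inf, h]
  group

theorem pos_inf_pos (g : D) : (g ⊔ 1) ⊓ (g⁻¹ ⊔ 1) = 1 := by
  have h1 : g⁻¹ ⊔ 1 = g⁻¹ * (g ⊔ 1) := by
    rw [mul_sup, inv_mul_cancel, mul_one, sup_comm]
  have h2 : (g ⊔ 1) ⊓ (g⁻¹ * (g ⊔ 1)) = (1 ⊓ g⁻¹) * (g ⊔ 1) := by
    rw [inf_mul, one_mul]
  have h3 : (1 ⊓ g⁻¹ : D) = (g ⊔ 1)⁻¹ := by
    rw [inv_sup, inv_one, inf_comm]
  rw [h1, h2, h3, inv_mul_cancel]

/-- A total right preorder extending the order, prime, and not killing `c`. -/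
theorem exists_preorder {c : D} (hc : 1 ≤ c) (hc1 : c ≠ 1) :
    ∃ R : D → D → Prop, (∀ x y, x ≤ y → R x y) ∧ (∀ x y z, R x y → R y z → R x z) ∧
      (∀ x y, R x y ∨ R y x) ∧ (∀ x y z, R x y → R (x * z) (y * z)) ∧
      (∀ g h, g ⊓ h = 1 → ∀ k, R (k * g) k ∨ R (k * h) k) ∧ ¬ R c 1 := by
  classical
  let S : Set (Set D) := {F | c ∈ F ∧ (∀ x ∈ F, 1 ≤ x) ∧ (∀ x ∈ F, ∀ y ∈ F, x ⊓ y ∈ F) ∧
    (1 : D) ∉ F}
  have hbase : ({c} : Set D) ∈ S := by
    refine ⟨rfl, ?_, ?_, ?_⟩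
    · rintro x rfl; exact hc
    · rintro x rfl y rfl; simp
    · intro h; exact hc1 h.symm
  obtain ⟨F, _, hF⟩ := zorn_subset_nonempty S (by
    intro ch hch hchain hne
    refine ⟨⋃₀ ch, ⟨?_, ?_, ?_, ?_⟩, fun s hs => Set.subset_sUnion_of_mem hs⟩
    · obtain ⟨s, hs⟩ := hne
      exact ⟨s, hs, (hch hs).1⟩
    · rintro x ⟨s, hs, hx⟩
      exact (hch hs).2.1 x hx
    · rintro x ⟨s, hs, hx⟩ y ⟨t, ht, hy⟩
      rcases hchain.total hs ht with h | h
      · exact ⟨t, ht, (hch ht).2.2.1 x (h hx) y hy⟩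
      · exact ⟨s, hs, (hch hs).2.2.1 x hx y (h hy)⟩
    · rintro ⟨s, hs, h1⟩
      exact (hch hs).2.2.2 h1) {c} hbase
  obtain ⟨hcF, hpos, hinf, hone⟩ := hF.prop
  let Z : D → Prop := fun x => ∃ g ∈ F, x ⊓ g = 1
  have hmax : ∀ x, 1 ≤ x → x ∉ F → Z x := by
    intro x hx hxF
    by_contra hZ
    let F' : Set D := F ∪ {x} ∪ {y | ∃ g ∈ F, y = g ⊓ x}
    have hF' : F' ∈ S := by
      refine ⟨Or.inl (Or.inl hcF), ?_, ?_, ?_⟩
      · rintro y ((hy | hy) | ⟨g, hg, rfl⟩)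
        · exact hpos y hy
        · rw [Set.mem_singleton_iff] at hy; rw [hy]; exact hx
        · exact le_inf (hpos g hg) hx
      · rintro y ((hy | hy) | ⟨g, hg, rfl⟩) z ((hz | hz) | ⟨h, hh, rfl⟩)
        · exact Or.inl (Or.inl (hinf y hy z hz))
        · rw [Set.mem_singleton_iff] at hz; subst hz
          exact Or.inr ⟨y, hy, rfl⟩
        · exact Or.inr ⟨y ⊓ h, hinf y hy h hh, by rw [inf_assoc]⟩
        · rw [Set.mem_singleton_iff] at hy; subst hy
          exact Or.inr ⟨z, hz, inf_comm _ _⟩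
        · rw [Set.mem_singleton_iff] at hy hz; subst hy; subst hz
          exact Or.inl (Or.inr (by simp))
        · rw [Set.mem_singleton_iff] at hy; subst hy
          exact Or.inr ⟨h, hh, by rw [inf_comm h y, ← inf_assoc, inf_idem]⟩
        · exact Or.inr ⟨g ⊓ z, hinf g hg z hz, by rw [inf_assoc, inf_assoc, inf_comm x z]⟩
        · rw [Set.mem_singleton_iff] at hz; subst hz
          exact Or.inr ⟨g, hg, by rw [inf_assoc, inf_idem]⟩
        · exact Or.inr ⟨g ⊓ h, hinf g hg h hh, by rw [inf_inf_inf_comm, inf_idem]⟩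
      · rintro ((h | h) | ⟨g, hg, h⟩)
        · exact hone h
        · rw [Set.mem_singleton_iff] at h
          exact hZ ⟨c, hcF, by rw [← h]; exact inf_eq_left.mpr hc⟩
        · exact hZ ⟨g, hg, by rw [inf_comm]; exact h.symm⟩
    have hsub : F ⊆ F' := fun y hy => Or.inl (Or.inl hy)
    have := hF.le_of_ge hF' hsub
    exact hxF (this (Or.inl (Or.inr rfl)))
  have hZ1 : ∀ x y, Z x → 1 ≤ y → y ≤ x → Z y := by
    rintro x y ⟨g, hg, h⟩ hy hyx
    refine ⟨g, hg, le_antisymm ?_ (le_inf hy (hpos g hg))⟩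
    rw [← h]
    exact inf_le_inf_right g hyx
  have hZ2 : ∀ x y, 1 ≤ x → 1 ≤ y → Z x → Z y → Z (x * y) := by
    rintro x y hx hy ⟨g, hg, h⟩ ⟨k, hk, h'⟩
    refine ⟨g ⊓ k, hinf g hg k hk, ?_⟩
    rw [inf_comm]
    have hgk : 1 ≤ g ⊓ k := le_inf (hpos g hg) (hpos k hk)
    apply inf_mul_eq_one hgk hx hy
    · refine le_antisymm ?_ (le_inf hgk hx)
      rw [← h, inf_comm]
      exact inf_le_inf_left x inf_le_left
    · refine le_antisymm ?_ (le_inf hgk hy)
      rw [← h', inf_comm]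
      exact inf_le_inf_left y inf_le_right
  have hZ3 : ∀ g h, g ⊓ h = 1 → Z g ∨ Z h := by
    intro g h hgh
    have hg : 1 ≤ g := by rw [← hgh]; exact inf_le_left
    by_cases hgF : g ∈ F
    · exact Or.inr ⟨g, hgF, by rw [inf_comm]; exact hgh⟩
    · exact Or.inl (hmax g hg hgF)
  have hZ4 : ¬ Z c := by
    rintro ⟨g, hg, h⟩
    apply hone
    rw [← h]
    exact hinf c hcF g hg
  have hZone : Z 1 := ⟨c, hcF, inf_eq_left.mpr hc⟩
  refine ⟨fun x y => Z ((x * y⁻¹) ⊔ 1), ?_, ?_, ?_, ?_, ?_, ?_⟩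
  · intro x y hxy
    have : x * y⁻¹ ≤ 1 := by
      rw [mul_inv_le_iff_le_mul, one_mul]; exact hxy
    simp only [sup_eq_right.mpr this]
    exact hZone
  · intro x y z hxy hyz
    refine hZ1 _ _ (hZ2 _ _ le_sup_right le_sup_right hxy hyz) le_sup_right ?_
    apply sup_le
    · have : x * z⁻¹ = (x * y⁻¹) * (y * z⁻¹) := by group
      rw [this]
      exact mul_le_mul' le_sup_left le_sup_left
    · exact one_le_mul le_sup_right le_sup_right
  · intro x y
    have h := pos_inf_pos (x * y⁻¹)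
    have h2 : (x * y⁻¹)⁻¹ = y * x⁻¹ := by group
    rw [h2] at h
    exact hZ3 _ _ h
  · intro x y z h
    have h2 : x * z * (y * z)⁻¹ = x * y⁻¹ := by group
    rw [h2]
    exact h
  · intro g h hgh k
    have hg : 1 ≤ g := by rw [← hgh]; exact inf_le_left
    have hh : 1 ≤ h := by rw [← hgh]; exact inf_le_right
    have h1 : 1 ≤ k * g * k⁻¹ := by
      have := mulRR (mulLL hg k) k⁻¹
      simpa using this
    have h2 : 1 ≤ k * h * k⁻¹ := by
      have := mulRR (mulLL hh k) k⁻¹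
      simpa using this
    simp only [sup_eq_left.mpr h1, sup_eq_left.mpr h2]
    exact hZ3 _ _ (conj_inf hgh k)
  · have : c * 1⁻¹ ⊔ 1 = c := by rw [inv_one, mul_one]; exact sup_eq_left.mpr hc
    simp only [this]
    exact hZ4

/-- Obstruction over the cardinal sum. -/
theorem no_amalgam_sum {a b c a' t w w' : D} (hc : 1 ≤ c) (hc1 : c ≠ 1) (hca : c ≤ a)
    (ha'a : a' ≤ a) (ht : 1 ≤ t) (htc : t ⊓ c = 1) (h1 : t⁻¹ * a' * t = b)
    (h2 : t⁻¹ * b * t = a') (hw : 1 ≤ w) (hw' : 1 ≤ w') (hwb : w ⊓ b = 1) (hw'a : w' ⊓ a = 1)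
    (hab : a ⊓ b = 1) (h3 : (w * w')⁻¹ * a * (w * w') = b) : False := by
  obtain ⟨R, hle, htr, -, hr, hp, hRc⟩ := exists_preorder hc hc1
  have hRa : ¬ R a 1 := fun h => hRc (htr _ _ _ (hle _ _ hca) h)
  have hRt : R t 1 := by
    rcases hp t c htc 1 with h | h
    · rwa [one_mul] at h
    · rw [one_mul] at h; exact absurd h hRc
  have ht1 : R 1 t⁻¹ := by
    have := hr _ _ t⁻¹ hRt
    rwa [mul_inv_cancel, one_mul] at this
  set u : D := w * w' * t⁻¹ with hu
  set v : D := u * t⁻¹ with hv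
  -- `u * a' = a * u`
  have hua : u * a' = a * u := by
    have e1 : a' = t * b * t⁻¹ := by rw [← h1]; group
    have e2 : w * w' * b = a * (w * w') := by rw [← h3]; group
    calc u * a' = w * w' * b * t⁻¹ := by rw [e1, hu]; group
      _ = a * u := by rw [e2, hu]; group
  have hvb : v * b = a * v := by
    have e1 : t⁻¹ * b = a' * t⁻¹ := by rw [← h2]; group
    calc v * b = u * (t⁻¹ * b) := by rw [hv]; group
      _ = u * a' * t⁻¹ := by rw [e1]; group
      _ = a * v := by rw [hua, hv]; group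
  have hkey : ∀ k, ¬ R (a * k) k := by
    intro k h
    have := hr _ _ k⁻¹ h
    rw [mul_inv_cancel, mul_inv_cancel_right] at this
    exact hRa this
  have hRua : ¬ R (u * a) u := by
    intro h
    apply hkey u
    rw [← hua]
    exact htr _ _ _ (hle _ _ (mulLL ha'a u)) h
  have hRvw : R (v * w) v := by
    rcases hp w b hwb v with h | h
    · exact h
    · rw [hvb] at h; exact absurd h (hkey v)
  have hRuw' : R (u * w') u := by
    rcases hp w' a hw'a u with h | h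
    · exact h
    · exact absurd h hRua
  have hww : (1 : D) ≤ w * w' := one_le_mul hw hw'
  have h1v : R 1 v := by
    have e1 : R t⁻¹ (t⁻¹ * t⁻¹) := by
      have := hr _ _ t⁻¹ ht1
      rwa [one_mul] at this
    have e2 : t⁻¹ * t⁻¹ ≤ v := by
      have := mulRR (mulRR hww t⁻¹) t⁻¹
      rw [one_mul] at this
      exact this
    exact htr _ _ _ ht1 (htr _ _ _ e1 (hle _ _ e2))
  have hRwv : R w v := by
    have := hr _ _ w h1v
    rw [one_mul] at this
    exact htr _ _ _ this hRvw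
  have htinv : t⁻¹ ≤ 1 := inv_le_one'.mpr ht
  have hvu : v ≤ u := by
    have := mulLL htinv u
    rwa [mul_one] at this
  have hRwu : R w u := htr _ _ _ hRwv (hle _ _ hvu)
  have huww : u ≤ w * w' := by
    have := mulLL htinv (w * w')
    rwa [mul_one] at this
  have hRwwu : R (w * w') u := htr _ _ _ (hr _ _ w' hRwu) hRuw'
  have hRwwa : R (w * w' * a) (w * w') := by
    rcases hp a b hab (w * w') with h | h
    · exact h
    · exfalso
      have e2 : w * w' * b = a * (w * w') := by rw [← h3]; group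
      rw [e2] at h
      exact hkey _ h
  apply hRua
  have e3 : R (u * a) (w * w' * a) := hle _ _ (mulRR huww a)
  exact htr _ _ _ e3 (htr _ _ _ hRwwa hRwwu)

/-- Obstruction over the lexicographic product. -/
theorem no_amalgam_lex {a b v a2 s : D} (hv : 1 ≤ v) (hv1 : v ≠ 1) (ha2 : 1 ≤ a2)
    (hva2 : v ⊓ a2 = 1) (hvb : v ⊓ b = 1) (ha : a = v * a2) (hs : 1 ≤ s) (hsa : s ≤ a)
    (h : a ≤ (s⁻¹ * b * s * b) * (s⁻¹ * b * s * b)) : False := by
  obtain ⟨R, hle, htr, -, hr, hp, hRv⟩ := exists_preorder hv hv1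
  have hRa2 : R a2 1 := by
    rcases hp v a2 hva2 1 with h | h
    · rw [one_mul] at h; exact absurd h hRv
    · rwa [one_mul] at h
  have hRb : R b 1 := by
    rcases hp v b hvb 1 with h | h
    · rw [one_mul] at h; exact absurd h hRv
    · rwa [one_mul] at h
  have h1 : R v⁻¹ s⁻¹ := by
    have e1 : R 1 a2⁻¹ := by
      have := hr _ _ a2⁻¹ hRa2
      rwa [mul_inv_cancel, one_mul] at this
    have e2 : R v⁻¹ (a2⁻¹ * v⁻¹) := by
      have := hr _ _ v⁻¹ e1
      rwa [one_mul] at this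
    have e3 : a2⁻¹ * v⁻¹ ≤ s⁻¹ := by
      rw [← mul_inv_rev, ← ha]
      exact inv_le_inv_iff.mpr hsa
    exact htr _ _ _ e2 (hle _ _ e3)
  have hRs : R (s⁻¹ * b) s⁻¹ := by
    rcases hp v b hvb s⁻¹ with h | h
    · exfalso
      have e1 : R (s⁻¹ * v * v) s⁻¹ := htr _ _ _ (hr _ _ v h) h
      have e2 : R v (s⁻¹ * v * v) := by
        have := hr _ _ v (hr _ _ v h1)
        rwa [inv_mul_cancel, one_mul] at this
      have e3 : s⁻¹ ≤ 1 := inv_le_one'.mpr hs
      exact hRv (htr _ _ _ e2 (htr _ _ _ e1 (hle _ _ e3)))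
    · exact h
  have hRβ : R (s⁻¹ * b * s) 1 := by
    have := hr _ _ s hRs
    rwa [inv_mul_cancel] at this
  have hRβb : R (s⁻¹ * b * s * b) 1 := by
    have := hr _ _ b hRβ
    rw [one_mul] at this
    exact htr _ _ _ this hRb
  have hfin : R ((s⁻¹ * b * s * b) * (s⁻¹ * b * s * b)) 1 := by
    have := hr _ _ (s⁻¹ * b * s * b) hRβb
    rw [one_mul] at this
    exact htr _ _ _ this hRβb
  have hva : v ≤ a := by rw [ha]; exact le_mul_of_one_le_right' ha2
  exact hRv (htr _ _ _ (hle _ _ (hva.trans h)) hfin)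

end Pool.Agent.Helper539.LG
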