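import Pool.Agent.Helper539.LGMain

/-! Concrete lattice-ordered groups witnessing the failure of amalgamation over the
lexicographic product. -/

namespace Pool.Agent.Helper539.LG

/-- The profile of `b` on `[0, 1]`. -/
noncomputable def be (y : ℝ) : ℝ := if y ≤ 1 / 4 then 3 * y else (y + 2) / 3

/-- The inverse profile. -/
noncomputable def be' (y : ℝ) : ℝ := if y ≤ 3 / 4 then y / 3 else 3 * y - 2

theorem be'_be (y : ℝ) : be' (be y) = y := by
  unfold be be'; split_ifs <;> linarith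

theorem be_be' (y : ℝ) : be (be' y) = y := by
  unfold be be'; split_ifs <;> linarith

theorem be_mem {y : ℝ} (h : 0 ≤ y) (h' : y < 1) : 0 ≤ be y ∧ be y < 1 := by
  unfold be; constructor <;> split_ifs <;> linarith

theorem be'_mem {y : ℝ} (h : 0 ≤ y) (h' : y < 1) : 0 ≤ be' y ∧ be' y < 1 := by
  unfold be'; constructor <;> split_ifs <;> linarith

theorem be_lt {x y : ℝ} (h : x < y) : be x < be y := by
  unfold be; split_ifs <;> linarith

theorem le_be {y : ℝ} (h : 0 ≤ y) (h' : y < 1) : y ≤ be y := by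
  unfold be; split_ifs <;> linarith

theorem floor_fract_add (n : ℤ) {y : ℝ} (h : 0 ≤ y) (h' : y < 1) :
    ⌊(n : ℝ) + y⌋ = n ∧ Int.fract ((n : ℝ) + y) = y := by
  have h1 : ⌊(n : ℝ) + y⌋ = n := by
    rw [Int.floor_eq_iff]; constructor <;> linarith
  refine ⟨h1, ?_⟩
  rw [Int.fract, h1]; ring

/-- `b`: fixes every integer and is conjugate to `be` on each unit interval. -/
noncomputable def bL : Aut ℝ := mkAut
  (fun x => ⌊x⌋ + be (Int.fract x))
  (fun x => ⌊x⌋ + be' (Int.fract x))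
  (by
    intro x
    have h := be_mem (Int.fract_nonneg x) (Int.fract_lt_one x)
    obtain ⟨h1, h2⟩ := floor_fract_add ⌊x⌋ h.1 h.2
    rw [h1, h2, be'_be, Int.floor_add_fract])
  (by
    intro x
    have h := be'_mem (Int.fract_nonneg x) (Int.fract_lt_one x)
    obtain ⟨h1, h2⟩ := floor_fract_add ⌊x⌋ h.1 h.2
    rw [h1, h2, be_be', Int.floor_add_fract])
  (by
    intro x y h
    dsimp only
    have hx := be_mem (Int.fract_nonneg x) (Int.fract_lt_one x)
    have hy := be_mem (Int.fract_nonneg y) (Int.fract_lt_one y)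
    rcases lt_or_eq_of_le (Int.floor_le_floor h.le) with h1 | h1
    · have h2 : (⌊x⌋ : ℝ) + 1 ≤ ⌊y⌋ := by exact_mod_cast h1
      linarith [hx.2, hy.1]
    · have h2 : Int.fract x < Int.fract y := by
        rw [Int.fract, Int.fract, h1]; linarith
      rw [h1]
      linarith [be_lt h2])

theorem bL_apply (x : ℝ) : bL x = ⌊x⌋ + be (Int.fract x) := rfl

theorem bL_add (n : ℤ) {y : ℝ} (h : 0 ≤ y) (h' : y < 1) : bL ((n : ℝ) + y) = n + be y := by
  obtain ⟨h1, h2⟩ := floor_fract_add n h h'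
  rw [bL_apply, h1, h2]

theorem bL_int (n : ℤ) : bL (n : ℝ) = n := by
  have := bL_add n (le_refl (0 : ℝ)) one_pos
  rw [add_zero] at this
  rw [this, be]; norm_num

/-- Translation by `r`. -/
noncomputable def trR (r : ℝ) : Aut ℝ := mkAut (fun x => x + r) (fun x => x - r)
  (by intro x; ring) (by intro x; ring) (by intro x y h; dsimp only; linarith)

theorem trR_apply (r x : ℝ) : trR r x = x + r := rfl

theorem trR_inv_apply (r x : ℝ) : (trR r)⁻¹ x = x - r := rfl

theorem one_le_bL : 1 ≤ bL := by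
  rw [one_le_iff]
  intro x
  rw [bL_apply]
  have := le_be (Int.fract_nonneg x) (Int.fract_lt_one x)
  linarith [Int.floor_add_fract x]

theorem one_lt_bL : 1 < bL := by
  refine lt_of_le_of_ne one_le_bL ?_
  intro h
  have h1 : (1 : Aut ℝ) (((0 : ℤ) : ℝ) + 1 / 4) = bL (((0 : ℤ) : ℝ) + 1 / 4) := by rw [← h]
  rw [Aut.one_apply, bL_add 0 (by norm_num) (by norm_num), be] at h1
  norm_num at h1

theorem bL_comm : Commute (trR 1) bL := by
  show trR 1 * bL = bL * trR 1
  apply Aut.ext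
  intro x
  rw [Aut.mul_apply, Aut.mul_apply, trR_apply, trR_apply, bL_apply, bL_apply, Int.floor_add_one,
    Int.fract_add_one]
  push_cast
  ring

theorem bL_zpow_int (k : ℤ) (n : ℤ) : (bL ^ k) (n : ℝ) = n := by
  have hnat : ∀ k : ℕ, (bL ^ k) (n : ℝ) = n := by
    intro k
    induction k with
    | zero => rfl
    | succ k ih => rw [pow_succ, Aut.mul_apply, bL_int, ih]
  obtain ⟨k, rfl | rfl⟩ := Int.eq_nat_or_neg k
  · rw [zpow_natCast]; exact hnat k
  · rw [zpow_neg, zpow_natCast]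
    have h := hnat k
    conv_lhs => rw [← h]
    rw [Aut.inv_apply]

theorem bL_zpow_le (k : ℤ) : bL ^ k ≤ trR 1 := by
  intro x
  show (bL ^ k) x ≤ trR 1 x
  rw [trR_apply]
  have h1 : x ≤ ((⌊x⌋ + 1 : ℤ) : ℝ) := by
    push_cast; exact (Int.lt_floor_add_one x).le
  have h2 := (bL ^ k).le_apply.mpr h1
  rw [bL_zpow_int] at h2
  push_cast at h2
  linarith [Int.floor_le x]

/-- The map `T = (s⁻¹ b s) b`. -/
noncomputable def TL : Aut ℝ := (trR (1 / 2))⁻¹ * bL * trR (1 / 2) * bL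

theorem TL_apply (x : ℝ) : TL x = bL (bL x + 1 / 2) - 1 / 2 := rfl

theorem TL_quarter (n : ℤ) : (n : ℝ) + 5 / 4 ≤ TL ((n : ℝ) + 1 / 4) := by
  rw [TL_apply, bL_add n (by norm_num) (by norm_num)]
  have h1 : be (1 / 4) = 3 / 4 := by unfold be; norm_num
  rw [h1]
  have h2 : (n : ℝ) + 3 / 4 + 1 / 2 = ((n + 1 : ℤ) : ℝ) + 1 / 4 := by push_cast; ring
  rw [h2, bL_add (n + 1) (by norm_num) (by norm_num), h1]
  push_cast
  linarith

theorem TL_int (n : ℤ) : (n : ℝ) + 1 / 4 ≤ TL (n : ℝ) := by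
  rw [TL_apply, bL_int, bL_add n (by norm_num) (by norm_num)]
  have h1 : be (1 / 2) = 5 / 6 := by unfold be; norm_num
  rw [h1]
  linarith

theorem TL_sq : trR 1 ≤ TL * TL := by
  intro x
  show trR 1 x ≤ (TL * TL) x
  rw [trR_apply, Aut.mul_apply]
  rcases le_total (1 / 4) (Int.fract x) with h | h
  · have h1 : (⌊x⌋ : ℝ) + 1 / 4 ≤ x := by linarith [Int.floor_add_fract x]
    have h2 := (TL_quarter ⌊x⌋).trans (TL.le_apply.mpr h1)
    have h3 : (((⌊x⌋ + 1 : ℤ)) : ℝ) + 1 / 4 ≤ TL x := by push_cast; linarith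
    have h4 := (TL_quarter (⌊x⌋ + 1)).trans (TL.le_apply.mpr h3)
    push_cast at h4
    linarith [Int.lt_floor_add_one x]
  · have h1 : (⌊x⌋ : ℝ) ≤ x := Int.floor_le x
    have h2 := (TL_int ⌊x⌋).trans (TL.le_apply.mpr h1)
    have h4 := (TL_quarter ⌊x⌋).trans (TL.le_apply.mpr h2)
    linarith [Int.floor_add_fract x]

/-- The ℓ-group `C` over the lexicographic product. -/
abbrev C2 : Type := Multiplicative ℤ × Multiplicative (ℤ ×ₗ ℤ)

/-- `v`. -/
def vC : C2 := (Multiplicative.ofAdd 1, 1)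

/-- `a₂`. -/
def a2C : C2 := (1, Multiplicative.ofAdd (toLex (1, 0)))

/-- `a = v a₂`. -/
def aL : C2 := (Multiplicative.ofAdd 1, Multiplicative.ofAdd (toLex (1, 0)))

/-- `b`. -/
def bC2 : C2 := (1, Multiplicative.ofAdd (toLex (0, 1)))

theorem one_lt_p : (1 : Multiplicative (ℤ ×ₗ ℤ)) < Multiplicative.ofAdd (toLex (1, 0)) := by
  show (0 : ℤ ×ₗ ℤ) < toLex (1, 0)
  decide

theorem one_lt_q : (1 : Multiplicative (ℤ ×ₗ ℤ)) < Multiplicative.ofAdd (toLex (0, 1)) := by
  show (0 : ℤ ×ₗ ℤ) < toLex (0, 1)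
  decide

theorem one_le_vC : 1 ≤ vC := ⟨one_le_g, le_refl _⟩

theorem vC_ne_one : vC ≠ 1 := by
  intro h
  have h1 : (1 : ℤ) = 0 := congrArg Prod.fst h
  norm_num at h1

theorem one_le_a2C : 1 ≤ a2C := ⟨le_refl _, one_lt_p.le⟩

theorem vC_inf_a2C : vC ⊓ a2C = 1 := by
  apply Prod.ext
  · show Multiplicative.ofAdd (1 : ℤ) ⊓ 1 = 1
    exact inf_eq_right.mpr one_le_g
  · show (1 : Multiplicative (ℤ ×ₗ ℤ)) ⊓ Multiplicative.ofAdd (toLex (1, 0)) = 1
    exact inf_eq_left.mpr one_lt_p.le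

theorem vC_inf_bC2 : vC ⊓ bC2 = 1 := by
  apply Prod.ext
  · show Multiplicative.ofAdd (1 : ℤ) ⊓ 1 = 1
    exact inf_eq_right.mpr one_le_g
  · show (1 : Multiplicative (ℤ ×ₗ ℤ)) ⊓ Multiplicative.ofAdd (toLex (0, 1)) = 1
    exact inf_eq_left.mpr one_lt_q.le

theorem aL_eq : aL = vC * a2C := by
  apply Prod.ext
  · show Multiplicative.ofAdd (1 : ℤ) = Multiplicative.ofAdd (1 : ℤ) * 1
    rw [mul_one]
  · show Multiplicative.ofAdd (toLex ((1 : ℤ), (0 : ℤ))) =
      1 * Multiplicative.ofAdd (toLex (1, 0))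
    rw [one_mul]

theorem one_lt_bC2 : 1 < bC2 := by
  refine lt_of_le_of_ne ⟨le_refl _, one_lt_q.le⟩ ?_
  intro h
  have h1 : (1 : Multiplicative (ℤ ×ₗ ℤ)) = Multiplicative.ofAdd (toLex (0, 1)) :=
    congrArg Prod.snd h
  exact one_lt_q.ne h1

theorem bC2_zpow_le (n : ℤ) : bC2 ^ n ≤ aL := by
  refine ⟨?_, ?_⟩
  · show (1 : Multiplicative ℤ) ^ n ≤ Multiplicative.ofAdd 1
    rw [one_zpow]; exact one_le_g
  · show (n • (toLex ((0 : ℤ), (1 : ℤ)))) ≤ toLex (1, 0)
    rw [Prod.Lex.le_iff]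
    left
    show n • (0 : ℤ) < 1
    simp

theorem comm2 : Commute aL bC2 := Commute.all aL bC2

theorem one_le_s : 1 ≤ trR (1 / 2) := by
  rw [one_le_iff]; intro x; rw [trR_apply]; linarith

theorem s_le_a : trR (1 / 2) ≤ trR 1 := by
  intro x
  show trR (1 / 2) x ≤ trR 1 x
  rw [trR_apply, trR_apply]; linarith

universe u

/-- Amalgamation fails over the lexicographic product. -/
theorem lex_main :
    ∃ (B : Type) (_ : Group B) (_ : Lattice B) (_ : MulLeftMono B) (_ : MulRightMono B)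
      (C : Type) (_ : Group C) (_ : Lattice C) (_ : MulLeftMono C) (_ : MulRightMono C)
      (f : Multiplicative (ℤ ×ₗ ℤ) →* B) (g : Multiplicative (ℤ ×ₗ ℤ) →* C),
      IsLEmb f ∧ IsLEmb g ∧
      ∀ (D : Type u) [Group D] [Lattice D] [MulLeftMono D] [MulRightMono D]
        (f' : B →* D) (g' : C →* D), IsLEmb f' → IsLEmb g' → f'.comp f ≠ g'.comp g := by
  refine ⟨Aut ℝ, inferInstance, inferInstance, inferInstance, inferInstance,
    C2, inferInstance, inferInstance, inferInstance, inferInstance,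
    homLex (trR 1) bL bL_comm, homLex aL bC2 comm2,
    homLex_isLEmb one_lt_bL bL_comm bL_zpow_le,
    homLex_isLEmb one_lt_bC2 comm2 bC2_zpow_le, ?_⟩
  intro D _ _ _ _ f' g' hf hg h
  have hx : ∀ x, f' (homLex (trR 1) bL bL_comm x) = g' (homLex aL bC2 comm2 x) := by
    intro x
    exact congrArg (fun φ => φ x) h
  have ea : f' (trR 1) = g' aL := by
    have := hx (Multiplicative.ofAdd (toLex (1, 0)))
    simpa [homLex] using this
  have eb : f' bL = g' bC2 := by
    have := hx (Multiplicative.ofAdd (toLex (0, 1)))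
    simpa [homLex] using this
  refine no_amalgam_lex (a := g' aL) (b := g' bC2) (v := g' vC) (a2 := g' a2C)
    (s := f' (trR (1 / 2))) ?_ ?_ ?_ ?_ ?_ ?_ ?_ ?_ ?_
  · rw [← map_one g']; exact hg.mono one_le_vC
  · rw [← map_one g']; exact fun e => vC_ne_one (hg.1 e)
  · rw [← map_one g']; exact hg.mono one_le_a2C
  · rw [← hg.2.1, vC_inf_a2C, map_one]
  · rw [← hg.2.1, vC_inf_bC2, map_one]
  · rw [← map_mul, ← aL_eq]
  · rw [← map_one f']; exact hf.mono one_le_s
  · rw [← ea]; exact hf.mono s_le_a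
  · have h1 : g' bC2 = f' bL := eb.symm
    rw [h1, ← ea, ← map_inv, ← map_mul, ← map_mul, ← map_mul, ← map_mul]
    exact hf.mono TL_sq

end Pool.Agent.Helper539.LG
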