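import Pool.Agent.Helper539.LGAut

/-! Concrete lattice-ordered groups witnessing the failure of amalgamation. -/

namespace Pool.Agent.Helper539.LG

/-- Order automorphism from a strictly monotone map with an inverse. -/
def mkAut {α : Type*} [LinearOrder α] (f g : α → α) (h1 : ∀ x, g (f x) = x)
    (h2 : ∀ x, f (g x) = x) (hm : StrictMono f) : Aut α :=
  ({ toFun := f, invFun := g, left_inv := h1, right_inv := h2,
     map_rel_iff' := fun {_ _} => hm.le_iff_le } : α ≃o α)

theorem mkAut_apply {α : Type*} [LinearOrder α] (f g : α → α) (h1 : ∀ x, g (f x) = x)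
    (h2 : ∀ x, f (g x) = x) (hm : StrictMono f) (x : α) : mkAut f g h1 h2 hm x = f x := rfl

theorem one_le_iff {α : Type*} [LinearOrder α] {f : Aut α} : 1 ≤ f ↔ ∀ x, x ≤ f x := Iff.rfl

/-! ### The first group over the cardinal sum -/

/-- `w'`: fixes `[3, ∞)` and sends `0` to `2`. -/
noncomputable def w1 : Aut ℝ := mkAut
  (fun x => if x ≤ 0 then x + 2 else if x ≤ 3 then 2 + x / 3 else x)
  (fun y => if y ≤ 2 then y - 2 else if y ≤ 3 then 3 * (y - 2) else y)
  (by intro x; split_ifs <;> linarith)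
  (by intro x; split_ifs <;> linarith)
  (by intro x y h; dsimp only; split_ifs <;> linarith)

/-- `w`: fixes `(-∞, 1]` and sends `2` to `3`. -/
noncomputable def w2 : Aut ℝ := mkAut
  (fun x => if x ≤ 1 then x else if x ≤ 2 then 2 * x - 1 else x + 1)
  (fun y => if y ≤ 1 then y else if y ≤ 3 then (y + 1) / 2 else y - 1)
  (by intro x; split_ifs <;> linarith)
  (by intro x; split_ifs <;> linarith)
  (by intro x y h; dsimp only; split_ifs <;> linarith)

/-- `b`: a bump supported on `(0, 1)`. -/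
noncomputable def bb : Aut ℝ := mkAut
  (fun x => if x ≤ 0 then x else if x ≤ 1 / 3 then 2 * x else if x ≤ 1 then (x + 1) / 2 else x)
  (fun y => if y ≤ 0 then y else if y ≤ 2 / 3 then y / 2 else if y ≤ 1 then 2 * y - 1 else y)
  (by intro x; split_ifs <;> linarith)
  (by intro x; split_ifs <;> linarith)
  (by intro x y h; dsimp only; split_ifs <;> linarith)

/-- `a = (w w') b (w w')⁻¹`. -/
noncomputable def aa : Aut ℝ := w2 * w1 * bb * (w2 * w1)⁻¹

theorem w1_apply (x : ℝ) : w1 x = if x ≤ 0 then x + 2 else if x ≤ 3 then 2 + x / 3 else x := rfl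

theorem w2_apply (x : ℝ) : w2 x = if x ≤ 1 then x else if x ≤ 2 then 2 * x - 1 else x + 1 := rfl

theorem bb_apply (x : ℝ) : bb x =
    if x ≤ 0 then x else if x ≤ 1 / 3 then 2 * x else if x ≤ 1 then (x + 1) / 2 else x := rfl

theorem one_le_w1 : 1 ≤ w1 := by
  rw [one_le_iff]; intro x; rw [w1_apply]; split_ifs <;> linarith

theorem one_le_w2 : 1 ≤ w2 := by
  rw [one_le_iff]; intro x; rw [w2_apply]; split_ifs <;> linarith

theorem one_le_bb : 1 ≤ bb := by
  rw [one_le_iff]; intro x; rw [bb_apply]; split_ifs <;> linarith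

theorem one_lt_bb : 1 < bb := by
  refine lt_of_le_of_ne one_le_bb ?_
  intro h
  have h1 : (1 : Aut ℝ) (1 / 4) = bb (1 / 4) := by rw [← h]
  rw [Aut.one_apply, bb_apply] at h1
  norm_num at h1

theorem one_lt_aa : 1 < aa := by
  have h1 : (1 : Aut ℝ) ≤ aa := by
    have := mulRR (mulLL one_le_bb (w2 * w1)) (w2 * w1)⁻¹
    rwa [mul_one, mul_inv_cancel] at this
  refine lt_of_le_of_ne h1 ?_
  intro h
  have h2 : bb = (w2 * w1)⁻¹ * aa * (w2 * w1) := by rw [aa]; group
  rw [← h, mul_one, inv_mul_cancel] at h2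
  exact absurd one_lt_bb (by rw [h2]; exact lt_irrefl _)

theorem aa_apply_of_le {x : ℝ} (hx : x ≤ 3) : aa x = x := by
  have h3 : (w2 * w1) 0 = 3 := by
    rw [Aut.mul_apply, w1_apply, w2_apply]; norm_num
  have h1 : (w2 * w1)⁻¹ x ≤ 0 := by
    rw [Aut.inv_apply_le, h3]; exact hx
  have h2 : bb ((w2 * w1)⁻¹ x) = (w2 * w1)⁻¹ x := by
    rw [bb_apply, if_pos h1]
  rw [aa, Aut.mul_apply, Aut.mul_apply, h2, Aut.apply_inv]

theorem aa_inf_bb : aa ⊓ bb = 1 := by
  apply Aut.ext
  intro x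
  rw [Aut.inf_apply, Aut.one_apply]
  have h1 := one_le_iff.mp one_lt_aa.le x
  have h2 := one_le_iff.mp one_le_bb x
  rcases le_total x 1 with h | h
  · rw [aa_apply_of_le (by linarith)]; exact min_eq_left h2
  · have h3 : bb x = x := by
      rw [bb_apply]; split_ifs <;> linarith
    rw [h3]; exact min_eq_right h1

theorem w2_inf_bb : w2 ⊓ bb = 1 := by
  apply Aut.ext
  intro x
  rw [Aut.inf_apply, Aut.one_apply]
  have h1 := one_le_iff.mp one_le_w2 x
  have h2 := one_le_iff.mp one_le_bb x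
  rcases le_total x 1 with h | h
  · rw [show w2 x = x by rw [w2_apply, if_pos h]]; exact min_eq_left h2
  · have h3 : bb x = x := by
      rw [bb_apply]; split_ifs <;> linarith
    rw [h3]; exact min_eq_right h1

theorem w1_inf_aa : w1 ⊓ aa = 1 := by
  apply Aut.ext
  intro x
  rw [Aut.inf_apply, Aut.one_apply]
  have h1 := one_le_iff.mp one_le_w1 x
  have h2 := one_le_iff.mp one_lt_aa.le x
  rcases le_total x 3 with h | h
  · rw [aa_apply_of_le h]; exact min_eq_right h1
  · have h3 : w1 x = x := by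
      rw [w1_apply]; split_ifs <;> linarith
    rw [h3]; exact min_eq_left h2

/-! ### The second group over the cardinal sum -/

/-- `(n, k) ↦ (n, k + e n)`. -/
def sh (e : ℤ → ℤ) : Aut (ℤ ×ₗ ℤ) := mkAut
  (fun x => toLex ((ofLex x).1, (ofLex x).2 + e (ofLex x).1))
  (fun x => toLex ((ofLex x).1, (ofLex x).2 - e (ofLex x).1))
  (by intro x; simp) (by intro x; simp)
  (by
    intro x y h
    rw [Prod.Lex.lt_iff] at h ⊢
    rcases h with h | ⟨h, h'⟩
    · exact Or.inl h
    · refine Or.inr ⟨h, ?_⟩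
      show (ofLex x).2 + e (ofLex x).1 < (ofLex y).2 + e (ofLex y).1
      rw [h]; linarith)

/-- `(n, k) ↦ (n + 1, k)`. -/
def tr : Aut (ℤ ×ₗ ℤ) := mkAut
  (fun x => toLex ((ofLex x).1 + 1, (ofLex x).2))
  (fun x => toLex ((ofLex x).1 - 1, (ofLex x).2))
  (by intro x; simp) (by intro x; simp)
  (by
    intro x y h
    rw [Prod.Lex.lt_iff] at h ⊢
    rcases h with h | ⟨h, h'⟩
    · left
      show (ofLex x).1 + 1 < (ofLex y).1 + 1
      linarith
    · right
      refine ⟨?_, h'⟩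
      show (ofLex x).1 + 1 = (ofLex y).1 + 1
      rw [h])

theorem sh_apply (e : ℤ → ℤ) (x : ℤ ×ₗ ℤ) :
    sh e x = toLex ((ofLex x).1, (ofLex x).2 + e (ofLex x).1) := rfl

theorem tr_apply (x : ℤ ×ₗ ℤ) : tr x = toLex ((ofLex x).1 + 1, (ofLex x).2) := rfl

theorem tr_conj (e e' : ℤ → ℤ) (h : ∀ n, e (n + 1) = e' n) : tr⁻¹ * sh e * tr = sh e' := by
  have : sh e * tr = tr * sh e' := by
    apply Aut.ext
    intro x
    rw [Aut.mul_apply, Aut.mul_apply, tr_apply, sh_apply, sh_apply, tr_apply]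
    simp [h]
  rw [mul_assoc, this, inv_mul_cancel_left]

theorem one_le_tr : 1 ≤ tr := by
  rw [one_le_iff]
  intro x
  rw [tr_apply, Prod.Lex.le_iff]
  left
  show (ofLex x).1 < (ofLex x).1 + 1
  linarith

theorem sh_le (e e' : ℤ → ℤ) (h : ∀ n, e n ≤ e' n) : sh e ≤ sh e' := by
  intro x
  show sh e x ≤ sh e' x
  rw [sh_apply, sh_apply, Prod.Lex.le_iff]
  right
  refine ⟨rfl, ?_⟩
  show (ofLex x).2 + e (ofLex x).1 ≤ (ofLex x).2 + e' (ofLex x).1
  linarith [h (ofLex x).1]

theorem sh_zero : sh (fun _ => 0) = 1 := by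
  apply Aut.ext
  intro x
  rw [sh_apply, Aut.one_apply, add_zero]
  rfl

theorem sh_inf (e e' : ℤ → ℤ) : sh e ⊓ sh e' = sh (fun n => min (e n) (e' n)) := by
  apply Aut.ext
  intro x
  rw [Aut.inf_apply]
  rcases le_total (e (ofLex x).1) (e' (ofLex x).1) with h | h
  · rw [min_eq_left]
    · rw [sh_apply, sh_apply, min_eq_left h]
    · rw [sh_apply, sh_apply, Prod.Lex.le_iff]
      right
      refine ⟨rfl, ?_⟩
      show (ofLex x).2 + e (ofLex x).1 ≤ (ofLex x).2 + e' (ofLex x).1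
      linarith
  · rw [min_eq_right]
    · rw [sh_apply, sh_apply, min_eq_right h]
    · rw [sh_apply, sh_apply, Prod.Lex.le_iff]
      right
      refine ⟨rfl, ?_⟩
      show (ofLex x).2 + e' (ofLex x).1 ≤ (ofLex x).2 + e (ofLex x).1
      linarith

theorem sh_ne_one (e : ℤ → ℤ) (n : ℤ) (h : e n ≠ 0) : sh e ≠ 1 := by
  intro h1
  have h2 : sh e (toLex (n, 0)) = (1 : Aut (ℤ ×ₗ ℤ)) (toLex (n, 0)) := by rw [h1]
  rw [sh_apply, Aut.one_apply] at h2
  have h3 := congrArg (fun x => (ofLex x).2) h2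
  simp at h3
  exact h h3

/-- The ℓ-group `C` over the cardinal sum. -/
abbrev C1 : Type := Multiplicative ℤ × Aut (ℤ ×ₗ ℤ)

/-- Indicator of the even integers. -/
def ev (n : ℤ) : ℤ := if Even n then 1 else 0

/-- Indicator of the odd integers. -/
def od (n : ℤ) : ℤ := if Even n then 0 else 1

theorem ev_succ (n : ℤ) : ev (n + 1) = od n := by
  unfold ev od
  by_cases h : Even n
  · have : ¬ Even (n + 1) := by rw [Int.even_add_one]; exact fun h' => h' h
    rw [if_neg this, if_pos h]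
  · have : Even (n + 1) := by rw [Int.even_add_one]; exact h
    rw [if_pos this, if_neg h]

theorem od_succ (n : ℤ) : od (n + 1) = ev n := by
  unfold ev od
  by_cases h : Even n
  · have : ¬ Even (n + 1) := by rw [Int.even_add_one]; exact fun h' => h' h
    rw [if_neg this, if_pos h]
  · have : Even (n + 1) := by rw [Int.even_add_one]; exact h
    rw [if_pos this, if_neg h]

theorem ev_nonneg (n : ℤ) : 0 ≤ ev n := by unfold ev; split_ifs <;> norm_num

theorem od_nonneg (n : ℤ) : 0 ≤ od n := by unfold od; split_ifs <;> norm_num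

/-- `c = (1, 1)`. -/
def cC : C1 := (Multiplicative.ofAdd 1, 1)

/-- `a'`. -/
def aC' : C1 := (1, sh ev)

/-- `a = c a'`. -/
def aC : C1 := (Multiplicative.ofAdd 1, sh ev)

/-- `b`. -/
def bC : C1 := (1, sh od)

/-- `t`. -/
def tC : C1 := (1, tr)

theorem one_le_sh {e : ℤ → ℤ} (h : ∀ n, 0 ≤ e n) : 1 ≤ sh e := by
  rw [← sh_zero]; exact sh_le _ _ h

theorem one_le_g : (1 : Multiplicative ℤ) ≤ Multiplicative.ofAdd 1 := by
  show (0 : ℤ) ≤ 1
  norm_num

theorem one_le_cC : 1 ≤ cC := ⟨one_le_g, le_refl _⟩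

theorem cC_ne_one : cC ≠ 1 := by
  intro h
  have h1 : (1 : ℤ) = 0 := congrArg Prod.fst h
  norm_num at h1

theorem cC_le_aC : cC ≤ aC := ⟨le_refl _, one_le_sh ev_nonneg⟩

theorem aC'_le_aC : aC' ≤ aC := ⟨one_le_g, le_refl _⟩

theorem one_le_tC : 1 ≤ tC := ⟨le_refl _, one_le_tr⟩

theorem tC_inf_cC : tC ⊓ cC = 1 := by
  apply Prod.ext
  · show (1 : Multiplicative ℤ) ⊓ Multiplicative.ofAdd 1 = 1
    exact inf_eq_left.mpr one_le_g
  · show tr ⊓ (1 : Aut (ℤ ×ₗ ℤ)) = 1
    exact inf_eq_right.mpr one_le_tr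

theorem tC_conj1 : tC⁻¹ * aC' * tC = bC := by
  apply Prod.ext
  · show (1 : Multiplicative ℤ)⁻¹ * 1 * 1 = 1
    simp
  · show tr⁻¹ * sh ev * tr = sh od
    exact tr_conj _ _ ev_succ

theorem tC_conj2 : tC⁻¹ * bC * tC = aC' := by
  apply Prod.ext
  · show (1 : Multiplicative ℤ)⁻¹ * 1 * 1 = 1
    simp
  · show tr⁻¹ * sh od * tr = sh ev
    exact tr_conj _ _ od_succ

theorem one_lt_aC : 1 < aC := by
  refine lt_of_le_of_ne (one_le_cC.trans cC_le_aC) ?_
  intro h
  have h1 : (0 : ℤ) = 1 := congrArg Prod.fst h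
  norm_num at h1

theorem one_lt_bC : 1 < bC := by
  refine lt_of_le_of_ne ⟨le_refl _, one_le_sh od_nonneg⟩ ?_
  intro h
  have h1 : (1 : Aut (ℤ ×ₗ ℤ)) = sh od := congrArg Prod.snd h
  refine sh_ne_one od 1 ?_ h1.symm
  unfold od
  rw [if_neg (by decide)]
  norm_num

theorem aC_inf_bC : aC ⊓ bC = 1 := by
  apply Prod.ext
  · show Multiplicative.ofAdd (1 : ℤ) ⊓ 1 = 1
    exact inf_eq_right.mpr one_le_g
  · show sh ev ⊓ sh od = 1
    rw [sh_inf, ← sh_zero]
    congr 1
    funext n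
    unfold ev od
    split_ifs <;> simp

universe u

/-- Amalgamation fails over the cardinal sum. -/
theorem sum_main :
    ∃ (B : Type) (_ : Group B) (_ : Lattice B) (_ : MulLeftMono B) (_ : MulRightMono B)
      (C : Type) (_ : Group C) (_ : Lattice C) (_ : MulLeftMono C) (_ : MulRightMono C)
      (f : Multiplicative ℤ × Multiplicative ℤ →* B)
      (g : Multiplicative ℤ × Multiplicative ℤ →* C),
      IsLEmb f ∧ IsLEmb g ∧
      ∀ (D : Type u) [Group D] [Lattice D] [MulLeftMono D] [MulRightMono D]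
        (f' : B →* D) (g' : C →* D), IsLEmb f' → IsLEmb g' → f'.comp f ≠ g'.comp g := by
  have hcB := commute_of_inf aa_inf_bb
  have hcC := commute_of_inf aC_inf_bC
  refine ⟨Aut ℝ, inferInstance, inferInstance, inferInstance, inferInstance,
    C1, inferInstance, inferInstance, inferInstance, inferInstance,
    homSum aa bb hcB, homSum aC bC hcC, homSum_isLEmb one_lt_aa one_lt_bb aa_inf_bb hcB,
    homSum_isLEmb one_lt_aC one_lt_bC aC_inf_bC hcC, ?_⟩
  intro D _ _ _ _ f' g' hf hg h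
  have hx : ∀ x, f' (homSum aa bb hcB x) = g' (homSum aC bC hcC x) := by
    intro x
    exact congrArg (fun φ => φ x) h
  have ea : f' aa = g' aC := by
    have := hx (Multiplicative.ofAdd 1, 1)
    simpa [homSum] using this
  have eb : f' bb = g' bC := by
    have := hx (1, Multiplicative.ofAdd 1)
    simpa [homSum] using this
  refine no_amalgam_sum (a := g' aC) (b := g' bC) (c := g' cC) (a' := g' aC') (t := g' tC)
    (w := f' w2) (w' := f' w1) ?_ ?_ (hg.mono cC_le_aC) (hg.mono aC'_le_aC) ?_ ?_ ?_ ?_ ?_ ?_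
    ?_ ?_ ?_ ?_
  · rw [← map_one g']; exact hg.mono one_le_cC
  · rw [← map_one g']; exact fun e => cC_ne_one (hg.1 e)
  · rw [← map_one g']; exact hg.mono one_le_tC
  · rw [← hg.2.1, tC_inf_cC, map_one]
  · rw [← map_inv, ← map_mul, ← map_mul, tC_conj1]
  · rw [← map_inv, ← map_mul, ← map_mul, tC_conj2]
  · rw [← map_one f']; exact hf.mono one_le_w2
  · rw [← map_one f']; exact hf.mono one_le_w1
  · rw [← eb, ← hf.2.1, w2_inf_bb, map_one]
  · rw [← ea, ← hf.2.1, w1_inf_aa, map_one]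
  · rw [← hg.2.1, aC_inf_bC, map_one]
  · rw [← ea, ← eb, ← map_mul, ← map_inv, ← map_mul, ← map_mul]
    congr 1
    rw [aa]
    group

end Pool.Agent.Helper539.LG
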