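import Mathlib

/-!
# The iteration: conditions, restrictions, legal conditions

`X` is a well-ordered set of order type `λ⁺`, `Θ` the well-ordered set of coordinates, `Λ` a set
of size `λ`. A condition `p` consists of a function `g` on `{x | x ≤ top}` and, for the
coordinates `j` in a set `supp` of size `≤ λ`, of a subset `y j` of `{x | x ≤ top}`. The values of
`g` satisfying `σ` determine the generic set `S`. `N j γ x` is a set of conditions attached to the
statement `x ∈ A^j_γ`.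
-/

namespace Pool.Agent.Helper539.LadIter

universe u

/-- flat conditions -/
@[ext]
structure Cond (X Θ K : Type u) where
  /-- the last point of the domain -/
  top : X
  /-- the generic function -/
  g : X → K
  /-- the support -/
  supp : Set Θ
  /-- the coordinates -/
  y : Θ → Set X

section

variable {X Θ K : Type u} [LinearOrder X]

/-- extension of flat conditions -/
instance instPreorderCond : Preorder (Cond X Θ K) where
  le q p := p.top ≤ q.top ∧ (∀ x ≤ p.top, q.g x = p.g x) ∧ p.supp ⊆ q.supp ∧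
    ∀ j ∈ p.supp, ∀ x ≤ p.top, (x ∈ q.y j ↔ x ∈ p.y j)
  le_refl p := ⟨le_rfl, fun _ _ => rfl, subset_rfl, fun _ _ _ _ => Iff.rfl⟩
  le_trans r q p h h' := ⟨h'.1.trans h.1, fun x hx => (h.2.1 x (hx.trans h'.1)).trans (h'.2.1 x hx),
    h'.2.2.1.trans h.2.2.1, fun j hj x hx =>
      (h.2.2.2 j (h'.2.2.1 hj) x (hx.trans h'.1)).trans (h'.2.2.2 j hj x hx)⟩

theorem le_def {q p : Cond X Θ K} : q ≤ p ↔ p.top ≤ q.top ∧ (∀ x ≤ p.top, q.g x = p.g x) ∧
    p.supp ⊆ q.supp ∧ ∀ j ∈ p.supp, ∀ x ≤ p.top, (x ∈ q.y j ↔ x ∈ p.y j) := Iff.rfl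

/-- restriction of a condition to a set of coordinates -/
def restr (p : Cond X Θ K) (U : Set Θ) : Cond X Θ K :=
  ⟨p.top, p.g, p.supp ∩ U, fun j => {x | x ∈ p.y j ∧ j ∈ U}⟩

/-- `γ` has cofinality `ω` -/
def CofOmega (γ : X) : Prop := ∃ f : ℕ → X, (∀ n, f n < γ) ∧ ∀ b < γ, ∃ n, b < f n

/-- `y` is unbounded in `γ` -/
def Unb (y : Set X) (γ : X) : Prop := ∀ b < γ, ∃ x ∈ y, b < x ∧ x < γ

/-- well-formed conditions -/
def WF (Λ : Type u) (k0 : K) (p : Cond X Θ K) : Prop :=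
  Nonempty (p.supp ↪ Λ) ∧ (∀ j ∈ p.supp, ∀ x ∈ p.y j, x ≤ p.top) ∧ (∀ j ∉ p.supp, p.y j = ∅) ∧
    ∀ x, p.top < x → p.g x = k0

/-- `r` forces (over the set `L` of conditions) that the set named by `Nγ` is covered by `A` -/
def Covers (L : Set (Cond X Θ K)) (Nγ : X → Set (Cond X Θ K)) (r : Cond X Θ K) (A : Set X) :
    Prop := ∀ x ∉ A, ∀ q ∈ L, q ≤ r → ∀ b ∈ Nγ x, ¬ q ≤ b

/-- the requirement at `γ` -/
def Req (L : Set (Cond X Θ K)) (Nγ : X → Set (Cond X Θ K)) (r : Cond X Θ K) (y : Set X)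
    (γ : X) : Prop :=
  (∃ A : Set X, A.Countable ∧ Covers L Nγ r A ∧ ∃ ξ < γ, ∀ x ∈ y, ξ < x → x < γ → x ∉ A) ∨
    ∀ q ∈ L, q ≤ r → ¬ ∃ A : Set X, A.Countable ∧ Covers L Nγ q A

variable [LinearOrder Θ]

/-- the requirement on the coordinate `j` -/
def ReqAt (σ : K → Prop) (L : Set (Cond X Θ K)) (N : Θ → X → X → Set (Cond X Θ K)) (j : Θ)
    (p : Cond X Θ K) : Prop :=
  ∀ γ ≤ p.top, σ (p.g γ) → CofOmega γ → Unb (p.y j) γ →
    Req L (N j γ) (restr p (Set.Iio j)) (p.y j) γ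

variable [WellFoundedLT Θ]

/-- the legal conditions with support below `j`, by recursion on `j` -/
noncomputable def Lg (Λ : Type u) (k0 : K) (σ : K → Prop)
    (N : Θ → X → X → Set (Cond X Θ K)) : Θ → Set (Cond X Θ K) :=
  WellFounded.fix (wellFounded_lt (α := Θ)) fun j ih =>
    {p | WF Λ k0 p ∧ p.supp ⊆ Set.Iio j ∧ ∀ i, ∀ h : i < j, i ∈ p.supp → ReqAt σ (ih i h) N i p}

/-- the legal conditions -/
def Legal (Λ : Type u) (k0 : K) (σ : K → Prop) (N : Θ → X → X → Set (Cond X Θ K))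
    (p : Cond X Θ K) : Prop :=
  WF Λ k0 p ∧ ∀ i ∈ p.supp, ReqAt σ (Lg Λ k0 σ N i) N i p

open Classical in
/-- amalgamation: `q` on `U`, `p` outside -/
noncomputable def am (U : Set Θ) (q p : Cond X Θ K) : Cond X Θ K :=
  ⟨q.top, q.g, (q.supp ∩ U) ∪ (p.supp \ U), fun j => if j ∈ U then q.y j else p.y j⟩

/-- a common extension of conditions which agree on the common part -/
def unionC (p q : Cond X Θ K) : Cond X Θ K :=
  ⟨p.top, p.g, p.supp ∪ q.supp, fun j => p.y j ∪ q.y j⟩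

open Classical in
/-- adding the point `δ` to the coordinate `j`, with the value `k` of `g` -/
noncomputable def ext (k0 : K) (p : Cond X Θ K) (j : Θ) (δ : X) (k : K) : Cond X Θ K :=
  ⟨δ, fun x => if x ≤ p.top then p.g x else if x = δ then k else k0, insert j p.supp,
    fun i => if i = j then insert δ (p.y j) else p.y i⟩

/-- enlarging the support -/
def pad (p : Cond X Θ K) (V : Set Θ) : Cond X Θ K := ⟨p.top, p.g, p.supp ∪ V, p.y⟩

open Classical in
/-- the canonical lower bound of a chain -/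
noncomputable def lim [Nonempty X] (k0 : K) (C : Set (Cond X Θ K)) : Cond X Θ K :=
  ⟨Classical.epsilon fun d => IsLUB (Cond.top '' C) d,
    fun x => if h : ∃ k, ∃ c ∈ C, x ≤ c.top ∧ c.g x = k then Classical.choose h else k0,
    {j | ∃ c ∈ C, j ∈ c.supp}, fun j => {x | ∃ c ∈ C, x ∈ c.y j}⟩

end

end Pool.Agent.Helper539.LadIter
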