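import Mathlib
import Pool.Agent.Helper539.LadIter

/-!
# Bookkeeping
-/

namespace Pool.Agent.Helper539.LadBook

open Cardinal Pool.Agent.Helper539.LadIter

universe u

/-- codes of conditions -/
abbrev Code (X K M Λ : Type u) : Type u := X × (Λ → K) × (Λ → Option M) × Set (Λ × Λ)

open Classical in
/-- decoding -/
noncomputable def dec {X Θ K M Λ : Type u} [LinearOrder X] (k0 : K)
    (e : ∀ x : X, Set.Iic x ↪ Λ) (c : M → Θ) (t : Code X K M Λ) : Cond X Θ K :=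
  ⟨t.1, fun z => if h : z ≤ t.1 then t.2.1 (e t.1 ⟨z, h⟩) else k0,
    {j | ∃ l m, t.2.2.1 l = some m ∧ c m = j},
    fun j => {z | ∃ h : z ≤ t.1, ∃ l m, t.2.2.1 l = some m ∧ c m = j ∧
      (l, e t.1 ⟨z, h⟩) ∈ t.2.2.2}⟩

theorem dec_surj {X Θ K M Λ : Type u} [LinearOrder X] [Nonempty M] (k0 : K)
    (e : ∀ x : X, Set.Iic x ↪ Λ) (c : M → Θ) (b : Cond X Θ K) (hb : WF Λ k0 b)
    (hc : ∀ j ∈ b.supp, ∃ m, c m = j) : ∃ t : Code X K M Λ, dec k0 e c t = b := by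
  classical
  obtain ⟨⟨i⟩, h1, h2, h3⟩ := hb
  choose! mm hmm using hc
  refine ⟨⟨b.top, fun l => if h : ∃ z : Set.Iic b.top, e b.top z = l then b.g h.choose.1 else k0,
    fun l => if h : ∃ j : b.supp, i j = l then some (mm h.choose.1) else none,
    {p | ∃ (j : b.supp) (z : X) (h : z ≤ b.top), z ∈ b.y j.1 ∧ p = (i j, e b.top ⟨z, h⟩)}⟩, ?_⟩
  have hs : ∀ (l : Λ) (m : M), (if h : ∃ j : b.supp, i j = l then some (mm h.choose.1) else none) =
      some m → ∃ j : b.supp, i j = l ∧ m = mm j.1 := by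
    intro l m h
    split_ifs at h with h'
    exact ⟨h'.choose, h'.choose_spec, (Option.some.inj h).symm⟩
  have hs' : ∀ (j : b.supp), (if h : ∃ j' : b.supp, i j' = i j then some (mm h.choose.1) else none) =
      some (mm j.1) := by
    intro j
    have h : ∃ j' : b.supp, i j' = i j := ⟨j, rfl⟩
    rw [dif_pos h]
    have h4 : h.choose = j := i.injective h.choose_spec
    rw [h4]
  apply Cond.ext
  · rfl
  · funext z
    show (if h : z ≤ b.top then _ else k0) = b.g z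
    by_cases hz : z ≤ b.top
    · rw [dif_pos hz]
      have h : ∃ z' : Set.Iic b.top, e b.top z' = e b.top ⟨z, hz⟩ := ⟨⟨z, hz⟩, rfl⟩
      show (if h : ∃ z' : Set.Iic b.top, e b.top z' = e b.top ⟨z, hz⟩ then b.g h.choose.1 else k0) =
        b.g z
      rw [dif_pos h]
      have h4 : h.choose = ⟨z, hz⟩ := (e b.top).injective h.choose_spec
      rw [h4]
    · rw [dif_neg hz]
      exact (h3 z (not_le.1 hz)).symm
  · ext j
    constructor
    · rintro ⟨l, m, hlm, rfl⟩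
      obtain ⟨j, -, rfl⟩ := hs l m hlm
      rw [hmm j.1 j.2]
      exact j.2
    · intro hj
      exact ⟨i ⟨j, hj⟩, mm j, hs' ⟨j, hj⟩, hmm j hj⟩
  · funext j
    ext z
    constructor
    · rintro ⟨hz, l, m, hlm, rfl, j', z', hz', hy, hp⟩
      obtain ⟨j, hj, rfl⟩ := hs l m hlm
      have e1 : l = i j' := congrArg Prod.fst hp
      have e2 : e b.top ⟨z, hz⟩ = e b.top ⟨z', hz'⟩ := congrArg Prod.snd hp
      have e3 : z = z' := congrArg Subtype.val ((e b.top).injective e2)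
      have e4 : j = j' := i.injective (hj.trans e1)
      subst e3
      subst e4
      rw [hmm j.1 j.2]
      exact hy
    · intro hz
      have hj : j ∈ b.supp := by
        by_contra hj
        rw [h2 j hj] at hz
        exact hz
      exact ⟨h1 j hj z hz, i ⟨j, hj⟩, mm j, hs' ⟨j, hj⟩, hmm j hj, ⟨j, hj⟩, z, h1 j hj z hz, hz, rfl⟩

theorem card_code {X K M Λ : Type u} [Infinite Λ] (hM : #M ^ #Λ = #M) (hM2 : 2 ≤ #M)
    (hX : #X ≤ #M) (hK : #K ≤ #M) : #(Code X K M Λ) ≤ #M ∧ ℵ₀ ≤ #M := by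
  have hΛ : ℵ₀ ≤ #Λ := Cardinal.aleph0_le_mk Λ
  have h2 : (2 : Cardinal) ^ #Λ ≤ #M := by
    calc (2 : Cardinal) ^ #Λ ≤ #M ^ #Λ := Cardinal.power_le_power_right hM2
      _ = #M := hM
  have hMi : ℵ₀ ≤ #M := hΛ.trans ((Cardinal.cantor _).le.trans h2)
  refine ⟨?_, hMi⟩
  have e1 : #(Code X K M Λ) = #X * (#K ^ #Λ * ((#M + 1) ^ #Λ * 2 ^ (#Λ * #Λ))) := by
    simp only [Code, Cardinal.mk_prod, Cardinal.lift_id, Cardinal.mk_pi, Cardinal.prod_const,
      Cardinal.mk_option, Cardinal.mk_set]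
  rw [e1, Cardinal.mul_eq_self hΛ, Cardinal.add_one_eq hMi, hM]
  have e2 : #K ^ #Λ ≤ #M := by
    calc #K ^ #Λ ≤ #M ^ #Λ := Cardinal.power_le_power_right hK
      _ = #M := hM
  calc #X * (#K ^ #Λ * (#M * 2 ^ #Λ)) ≤ #M * (#M * (#M * #M)) := by gcongr
    _ = #M := by rw [Cardinal.mul_eq_self hMi, Cardinal.mul_eq_self hMi, Cardinal.mul_eq_self hMi]

/-- Bookkeeping: a function on `Θ` taking every small name as value cofinally often. -/
theorem bookkeeping {X Θ K M Λ : Type u} [LinearOrder X] [LinearOrder Θ] [WellFoundedLT Θ]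
    [Infinite Λ] (k0 : K) (hle : ∀ x : X, Nonempty (Set.Iic x ↪ Λ))
    (hM : #M ^ #Λ = #M) (hM2 : 2 ≤ #M) (hX : #X ≤ #M) (hK : #K ≤ #M)
    (hΘ : #Θ = 2 ^ #M) (hΘi : ∀ j : Θ, #(Set.Iio j) < #Θ) :
    ∃ N : Θ → X → X → Set (Cond X Θ K), ∀ V : Set Θ, #V ≤ #M →
      ∀ Nm : X → X → Set (Cond X Θ K), (∀ γ x, ∀ b ∈ Nm γ x, WF Λ k0 b ∧ b.supp ⊆ V) →
        ∀ j0 : Θ, ∃ j, j0 ≤ j ∧ N j = Nm := by
  classical
  obtain ⟨hcode, hMi⟩ := card_code (X := X) (K := K) (M := M) (Λ := Λ) hM hM2 hX hK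
  have e : ∀ x : X, Set.Iic x ↪ Λ := fun x => (hle x).some
  haveI hMne : Nonempty M := by
    rw [← Cardinal.mk_ne_zero_iff]
    intro h0
    rw [h0] at hMi
    exact absurd hMi (not_le.2 Cardinal.aleph0_pos)
  haveI hΘne : Nonempty Θ := by
    rw [← Cardinal.mk_ne_zero_iff, hΘ]
    exact Cardinal.power_ne_zero _ two_ne_zero
  let D : Type u := (M → Θ) × (X → X → Set (Code X K M Λ))
  have hMM : (2 ^ #M : Cardinal) ^ #M = 2 ^ #M := by
    rw [← Cardinal.power_mul, Cardinal.mul_eq_self hMi]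
  have hΘinf : ℵ₀ ≤ #Θ := by
    rw [hΘ]
    exact hMi.trans (Cardinal.cantor _).le
  have hD : #D ≤ #Θ := by
    have e1 : #D = #Θ ^ #M * (((2 : Cardinal) ^ #(Code X K M Λ)) ^ #X) ^ #X := by
      simp only [D, Cardinal.mk_prod, Cardinal.lift_id, Cardinal.mk_pi, Cardinal.prod_const,
        Cardinal.mk_set]
    have e2 : (2 : Cardinal) ^ #(Code X K M Λ) ≤ 2 ^ #M :=
      Cardinal.power_le_power_left two_ne_zero hcode
    have e3 : ∀ κ : Cardinal.{u}, κ ≤ 2 ^ #M → κ ^ #X ≤ 2 ^ #M := by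
      intro κ hκ
      calc κ ^ #X ≤ (2 ^ #M : Cardinal) ^ #X := Cardinal.power_le_power_right hκ
        _ ≤ (2 ^ #M : Cardinal) ^ #M :=
          Cardinal.power_le_power_left (Cardinal.power_ne_zero _ two_ne_zero) hX
        _ = 2 ^ #M := hMM
    rw [e1, hΘ, hMM]
    calc (2 ^ #M : Cardinal) * (((2 : Cardinal) ^ #(Code X K M Λ)) ^ #X) ^ #X
        ≤ 2 ^ #M * 2 ^ #M := by
          gcongr
          exact e3 _ (e3 _ e2)
      _ = 2 ^ #M := Cardinal.mul_eq_self (by rw [← hΘ]; exact hΘinf)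
  have hΘD : #(Θ × D) ≤ #Θ := by
    rw [Cardinal.mk_prod, Cardinal.lift_id, Cardinal.lift_id]
    calc #Θ * #D ≤ #Θ * #Θ := by gcongr
      _ = #Θ := Cardinal.mul_eq_self hΘinf
  obtain ⟨f⟩ : Nonempty (Θ × D ↪ Θ) := hΘD
  haveI hDne : Nonempty D := ⟨(fun _ => hΘne.some, fun _ _ => ∅)⟩
  let decode : D → X → X → Set (Cond X Θ K) := fun d γ x => dec k0 e d.1 '' (d.2 γ x)
  refine ⟨fun j => decode (Function.invFun f j).2, ?_⟩
  intro V hV Nm hNm j0
  obtain ⟨g⟩ : Nonempty (V ↪ M) := hV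
  let c : M → Θ := fun m => if h : ∃ v : V, g v = m then h.choose.1 else hΘne.some
  have hc : ∀ j ∈ V, ∃ m, c m = j := by
    intro j hj
    refine ⟨g ⟨j, hj⟩, ?_⟩
    have h : ∃ v : V, g v = g ⟨j, hj⟩ := ⟨⟨j, hj⟩, rfl⟩
    show (if h : ∃ v : V, g v = g ⟨j, hj⟩ then h.choose.1 else hΘne.some) = j
    rw [dif_pos h]
    have h4 : h.choose = ⟨j, hj⟩ := g.injective h.choose_spec
    rw [h4]
  let d : D := (c, fun γ x => {t | dec k0 e c t ∈ Nm γ x})
  have hd : decode d = Nm := by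
    funext γ x
    ext b
    constructor
    · rintro ⟨t, ht, rfl⟩
      exact ht
    · intro hb
      obtain ⟨hw, hs⟩ := hNm γ x b hb
      obtain ⟨t, ht⟩ := dec_surj (M := M) (Λ := Λ) k0 e c b hw (fun j hj => hc j (hs hj))
      refine ⟨t, ?_, ht⟩
      show dec k0 e c t ∈ Nm γ x
      rw [ht]
      exact hb
  by_contra hcon
  push Not at hcon
  have hlt : ∀ t : Θ, f (t, d) < j0 := by
    intro t
    by_contra hnl
    apply hcon (f (t, d)) (not_lt.1 hnl)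
    show decode (Function.invFun f (f (t, d))).2 = Nm
    rw [Function.leftInverse_invFun f.injective (t, d)]
    exact hd
  have hle2 : #Θ ≤ #(Set.Iio j0) := by
    refine Cardinal.mk_le_of_injective (f := fun t : Θ => (⟨f (t, d), hlt t⟩ : Set.Iio j0)) ?_
    intro t t' h
    have h5 : f (t, d) = f (t', d) := congrArg Subtype.val h
    exact congrArg Prod.fst (f.injective h5)
  exact absurd hle2 (not_le.2 (hΘi j0))

end Pool.Agent.Helper539.LadBook
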