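import Mathlib
import Pool.Agent.Helper539.LadIter

/-!
# Restrictions of conditions
-/

namespace Pool.Agent.Helper539.LadBasic

open Pool.Agent.Helper539.LadIter

universe u

variable {X Θ K : Type u} [LinearOrder X] [LinearOrder Θ] [WellFoundedLT Θ]
  {Λ : Type u} {k0 : K} {σ : K → Prop} {N : Θ → X → X → Set (Cond X Θ K)}


theorem restr_restr (p : Cond X Θ K) (U V : Set Θ) : restr (restr p U) V = restr p (U ∩ V) := by
  apply Cond.ext
  · rfl
  · rfl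
  · exact Set.inter_assoc _ _ _
  · funext j
    ext x
    exact and_assoc

theorem le_restr (p : Cond X Θ K) (U : Set Θ) : p ≤ restr p U := by
  refine ⟨le_rfl, fun _ _ => rfl, Set.inter_subset_left, fun j hj x _ => ?_⟩
  exact ⟨fun h => ⟨h, hj.2⟩, fun h => h.1⟩

theorem restr_mono {p q : Cond X Θ K} (h : q ≤ p) (U : Set Θ) : restr q U ≤ restr p U := by
  refine ⟨h.1, h.2.1, Set.inter_subset_inter_left _ h.2.2.1, fun j hj x hx => ?_⟩
  have := h.2.2.2 j hj.1 x hx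
  exact ⟨fun h' => ⟨this.1 h'.1, h'.2⟩, fun h' => ⟨this.2 h'.1, h'.2⟩⟩

theorem restr_anti (p : Cond X Θ K) {U V : Set Θ} (h : U ⊆ V) : restr p V ≤ restr p U := by
  refine ⟨le_rfl, fun _ _ => rfl, Set.inter_subset_inter_right _ h, fun j hj x _ => ?_⟩
  exact ⟨fun h' => ⟨h'.1, hj.2⟩, fun h' => ⟨h'.1, h h'.2⟩⟩

theorem restr_eq_self {p : Cond X Θ K} (hp : WF Λ k0 p) {U : Set Θ} (h : p.supp ⊆ U) :
    restr p U = p := by
  apply Cond.ext
  · rfl
  · rfl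
  · exact Set.inter_eq_left.2 h
  · funext j
    ext x
    constructor
    · exact fun h' => h'.1
    · intro hx
      refine ⟨hx, ?_⟩
      by_contra hj
      have : p.y j = ∅ := hp.2.2.1 j (fun h' => hj (h h'))
      rw [this] at hx
      exact hx

theorem wf_restr {p : Cond X Θ K} (hp : WF Λ k0 p) (U : Set Θ) : WF Λ k0 (restr p U) := by
  obtain ⟨⟨e⟩, h1, h2, h3⟩ := hp
  refine ⟨⟨(Set.embeddingOfSubset (p.supp ∩ U) p.supp Set.inter_subset_left).trans e⟩,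
    fun j hj x hx => h1 j hj.1 x hx.1, fun j hj => ?_, h3⟩
  ext x
  refine ⟨fun hx => ?_, fun hx => hx.elim⟩
  by_cases hjs : j ∈ p.supp
  · exact absurd ⟨hjs, hx.2⟩ hj
  · have := h2 j hjs
    rw [← this]
    exact hx.1

/-- `q ≤ p` if and only if `restr q p.supp ≤ p`, and so on: to be below a condition supported
in `U` only the part in `U` matters -/
theorem restr_le_of_le {p q : Cond X Θ K} (h : q ≤ p) {U : Set Θ} (hU : p.supp ⊆ U) :
    restr q U ≤ p := by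
  refine ⟨h.1, h.2.1, fun j hj => ⟨h.2.2.1 hj, hU hj⟩, fun j hj x hx => ?_⟩
  have := h.2.2.2 j hj x hx
  exact ⟨fun h' => this.1 h'.1, fun h' => ⟨this.2 h', hU hj⟩⟩

theorem Covers.mono {L : Set (Cond X Θ K)} {Nγ : X → Set (Cond X Θ K)} {r r' : Cond X Θ K}
    {A : Set X} (h : Covers L Nγ r A) (hr : r' ≤ r) : Covers L Nγ r' A :=
  fun x hx q hq hqr b hb => h x hx q hq (hqr.trans hr) b hb

theorem Req.mono {L : Set (Cond X Θ K)} {Nγ : X → Set (Cond X Θ K)} {r r' : Cond X Θ K}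
    {y y' : Set X} {γ : X} (h : Req L Nγ r y γ) (hr : r' ≤ r)
    (hy : ∀ x < γ, x ∈ y' → x ∈ y) : Req L Nγ r' y' γ := by
  rcases h with ⟨A, hA, hc, ξ, hξ, hξA⟩ | h
  · exact Or.inl ⟨A, hA, Covers.mono hc hr, ξ, hξ, fun x hx h1 h2 => hξA x (hy x h2 hx) h1 h2⟩
  · exact Or.inr fun q hq hqr => h q hq (hqr.trans hr)

theorem lg_eq (j : Θ) : Lg Λ k0 σ N j = {p | WF Λ k0 p ∧ p.supp ⊆ Set.Iio j ∧
    ∀ i, i < j → i ∈ p.supp → ReqAt σ (Lg Λ k0 σ N i) N i p} := by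
  unfold Lg
  rw [WellFounded.fix_eq]

theorem mem_lg {j : Θ} {p : Cond X Θ K} :
    p ∈ Lg Λ k0 σ N j ↔ Legal Λ k0 σ N p ∧ p.supp ⊆ Set.Iio j := by
  rw [lg_eq]
  constructor
  · rintro ⟨h1, h2, h3⟩
    exact ⟨⟨h1, fun i hi => h3 i (h2 hi) hi⟩, h2⟩
  · rintro ⟨⟨h1, h3⟩, h2⟩
    exact ⟨h1, h2, fun i _ hi => h3 i hi⟩

theorem legal_restr {p : Cond X Θ K} (hp : Legal Λ k0 σ N p) {U : Set Θ} (hU : IsLowerSet U) :
    Legal Λ k0 σ N (restr p U) := by
  refine ⟨wf_restr hp.1 U, fun i hi γ hγ hσ hc hu => ?_⟩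
  have hiU : i ∈ U := hi.2
  have hy : (restr p U).y i = p.y i := by
    ext x
    exact ⟨fun h => h.1, fun h => ⟨h, hiU⟩⟩
  have hr : restr (restr p U) (Set.Iio i) = restr p (Set.Iio i) := by
    rw [restr_restr]
    congr 1
    exact Set.inter_eq_right.2 fun j hj => hU (le_of_lt hj) hiU
  rw [hy] at hu ⊢
  rw [hr]
  exact hp.2 i hi.1 γ hγ hσ hc hu

end Pool.Agent.Helper539.LadBasic
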