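import Mathlib
import Pool.Agent.Helper539.LadIter
import Pool.Agent.Helper539.LadBasic

/-!
# Amalgamation of conditions
-/

namespace Pool.Agent.Helper539.LadAm

open Pool.Agent.Helper539.LadIter Pool.Agent.Helper539.LadBasic

universe u

variable {X Θ K : Type u} [LinearOrder X] [LinearOrder Θ] [WellFoundedLT Θ]
  {Λ : Type u} {k0 : K} {σ : K → Prop} {N : Θ → X → X → Set (Cond X Θ K)}


/-- to be proved -/
theorem am_le_left {U : Set Θ} {p q : Cond X Θ K} (h : restr q U ≤ restr p U) : am U q p ≤ p := by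
  obtain ⟨h1, h2, h3, h4⟩ := h
  refine ⟨h1, h2, ?_, ?_⟩
  · intro j hj
    by_cases hU : j ∈ U
    · exact Or.inl (h3 ⟨hj, hU⟩)
    · exact Or.inr ⟨hj, hU⟩
  · intro j hj x hx
    by_cases hU : j ∈ U
    · have h5 := h4 j ⟨hj, hU⟩ x hx
      have e : (am U q p).y j = q.y j := if_pos hU
      rw [e]
      constructor
      · intro hq; exact (h5.1 ⟨hq, hU⟩).1
      · intro hp; exact (h5.2 ⟨hp, hU⟩).1
    · have e : (am U q p).y j = p.y j := if_neg hU
      rw [e]

/-- to be proved -/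
theorem restr_am {U : Set Θ} {p q : Cond X Θ K} : restr (am U q p) U = restr q U := by
  ext j
  · rfl
  · rfl
  · constructor
    · rintro ⟨h1 | h1, h2⟩
      · exact h1
      · exact absurd h2 h1.2
    · intro h
      exact ⟨Or.inl h, h.2⟩
  · rename_i x
    by_cases hU : j ∈ U
    · have e : (am U q p).y j = q.y j := if_pos hU
      change (x ∈ (am U q p).y j ∧ j ∈ U) ↔ (x ∈ q.y j ∧ j ∈ U)
      rw [e]
    · change (x ∈ (am U q p).y j ∧ j ∈ U) ↔ (x ∈ q.y j ∧ j ∈ U)
      simp [hU]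

/-- to be proved -/
theorem legal_am [Infinite Λ] {U : Set Θ} (hU : IsLowerSet U) {p q : Cond X Θ K}
    (hp : Legal Λ k0 σ N p) (hq : Legal Λ k0 σ N q) (h : restr q U ≤ restr p U) :
    Legal Λ k0 σ N (am U q p) := by
  have htop : p.top ≤ q.top := h.1
  have hg : ∀ x ≤ p.top, q.g x = p.g x := h.2.1
  have hsupp : ∀ j, j ∈ (am U q p).supp → (j ∈ U ∧ j ∈ q.supp) ∨ (j ∉ U ∧ j ∈ p.supp) := by
    rintro j (⟨h1, h2⟩ | ⟨h1, h2⟩)
    · exact Or.inl ⟨h2, h1⟩
    · exact Or.inr ⟨h2, h1⟩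
  have ypos : ∀ j ∈ U, (am U q p).y j = q.y j := fun j hj => if_pos hj
  have yneg : ∀ j, j ∉ U → (am U q p).y j = p.y j := fun j hj => if_neg hj
  refine ⟨⟨?_, ?_, ?_, hq.1.2.2.2⟩, ?_⟩
  · rw [← Cardinal.le_def]
    have h1 : Cardinal.mk ((am U q p).supp) ≤ Cardinal.mk ((q.supp ∪ p.supp : Set Θ)) := by
      apply Cardinal.mk_le_mk_of_subset
      intro j hj
      rcases hsupp j hj with h | h
      · exact Or.inl h.2
      · exact Or.inr h.2
    refine h1.trans ((Cardinal.mk_union_le _ _).trans ?_)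
    have h2 : Cardinal.mk q.supp ≤ Cardinal.mk Λ := Cardinal.le_def _ _ |>.2 hq.1.1
    have h3 : Cardinal.mk p.supp ≤ Cardinal.mk Λ := Cardinal.le_def _ _ |>.2 hp.1.1
    calc Cardinal.mk q.supp + Cardinal.mk p.supp ≤ Cardinal.mk Λ + Cardinal.mk Λ :=
          add_le_add h2 h3
      _ = Cardinal.mk Λ := Cardinal.add_eq_self (Cardinal.aleph0_le_mk Λ)
  · intro j hj x hx
    rcases hsupp j hj with h | h
    · rw [ypos j h.1] at hx
      exact hq.1.2.1 j h.2 x hx
    · rw [yneg j h.1] at hx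
      exact (hp.1.2.1 j h.2 x hx).trans htop
  · intro j hj
    by_cases hjU : j ∈ U
    · rw [ypos j hjU]
      exact hq.1.2.2.1 j (fun h' => hj (Or.inl ⟨h', hjU⟩))
    · rw [yneg j hjU]
      exact hp.1.2.2.1 j (fun h' => hj (Or.inr ⟨h', hjU⟩))
  · intro i hi γ hγ hσ hc hu
    rcases hsupp i hi with h' | h'
    · have e1 : restr (am U q p) (Set.Iio i) = restr q (Set.Iio i) := by
        have e2 : U ∩ Set.Iio i = Set.Iio i :=
          Set.inter_eq_right.2 (fun x hx => hU (le_of_lt hx) h'.1)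
        rw [← e2, ← restr_restr, restr_am, restr_restr]
      rw [ypos i h'.1] at hu ⊢
      rw [e1]
      exact hq.2 i h'.2 γ hγ hσ hc hu
    · rw [yneg i h'.1] at hu ⊢
      have hγp : γ ≤ p.top := by
        by_contra hcon
        push Not at hcon
        obtain ⟨x, hx, hx1, -⟩ := hu p.top hcon
        exact absurd (hp.1.2.1 i h'.2 x hx) (not_le.2 hx1)
      have hσ' : σ (p.g γ) := by
        rw [← hg γ hγp]; exact hσ
      exact Req.mono (hp.2 i h'.2 γ hγp hσ' hc hu) (restr_mono (am_le_left h) _) (fun x _ hx => hx)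

end Pool.Agent.Helper539.LadAm
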