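import Mathlib

/-!
# Distributivity of chain-closed preorders
-/

namespace Pool.Agent.Helper539.LadDist

universe u v

theorem dist_low {Λ : Type u} {S : Type v} [Preorder S]
    (hS : ∀ C : Set S, IsChain (· ≤ ·) C → C.Nonempty → (∃ f : C → Λ, Function.Injective f) →
      ∃ l, ∀ c ∈ C, l ≤ c)
    {ι : Type*} (e : ι → Λ) (he : Function.Injective e) (h : ι → S) (A : Set ι) (hA : A.Nonempty)
    (hch : ∀ a ∈ A, ∀ b ∈ A, h a ≤ h b ∨ h b ≤ h a) : ∃ l, ∀ a ∈ A, l ≤ h a := by
  classical
  have hC : IsChain (· ≤ ·) (h '' A) := by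
    rintro _ ⟨a, ha, rfl⟩ _ ⟨b, hb, rfl⟩ _
    exact hch a ha b hb
  have hf : ∃ f : (h '' A) → Λ, Function.Injective f := by
    let p : (h '' A) → ι := fun c => c.2.choose
    have hp : ∀ c, h (p c) = c := fun c => c.2.choose_spec.2
    refine ⟨fun c => e (p c), fun c c' hcc => Subtype.ext ?_⟩
    have h1 : p c = p c' := he hcc
    rw [← hp c, ← hp c', h1]
  obtain ⟨l, hl⟩ := hS (h '' A) hC (hA.image h) hf
  exact ⟨l, fun a ha => hl _ ⟨a, ha, rfl⟩⟩

theorem dist_emb {Λ : Type u} [Infinite Λ] {T : Type u} (hT : Nonempty (T ↪ Λ)) :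
    ∃ e : Option T → Λ, Function.Injective e := by
  have h1 : Cardinal.mk (Option T) ≤ Cardinal.mk Λ := by
    rw [Cardinal.mk_option]
    have h2 : Cardinal.mk T ≤ Cardinal.mk Λ := hT
    calc Cardinal.mk T + 1 ≤ Cardinal.mk Λ + 1 := by gcongr
      _ = Cardinal.mk Λ := Cardinal.add_one_eq (Cardinal.aleph0_le_mk Λ)
  obtain ⟨e⟩ := (Cardinal.le_def _ _).1 h1
  exact ⟨e, e.injective⟩

/-- In a preorder in which the chains of size `≤ |Λ|` have lower bounds, the intersection of
`≤ |Λ|` open dense sets is dense. -/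
theorem dist {Λ : Type u} [Infinite Λ] {S : Type v} [Preorder S]
    (hS : ∀ C : Set S, IsChain (· ≤ ·) C → C.Nonempty → (∃ f : C → Λ, Function.Injective f) →
      ∃ l, ∀ c ∈ C, l ≤ c)
    {T : Type u} (hT : Nonempty (T ↪ Λ)) (D : T → Set S)
    (hopen : ∀ t, ∀ s ∈ D t, ∀ s' ≤ s, s' ∈ D t)
    (hdense : ∀ t, ∀ s, ∃ s' ≤ s, s' ∈ D t) (s : S) : ∃ s' ≤ s, ∀ t, s' ∈ D t := by
  classical
  obtain ⟨e, he⟩ := dist_emb hT
  have wf : WellFounded (@WellOrderingRel T) := WellOrderingRel.isWellOrder.wf
  have tri : ∀ a b : T, WellOrderingRel a b ∨ a = b ∨ WellOrderingRel b a := fun a b =>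
    trichotomous_of WellOrderingRel a b
  let step : (t : T) → ((t' : T) → WellOrderingRel t' t → S) → S := fun t G =>
    if h : ∃ x, x ∈ D t ∧ x ≤ s ∧ ∀ t' (h : WellOrderingRel t' t), x ≤ G t' h then h.choose else s
  let g : T → S := wf.fix step
  have hg : ∀ t, g t = step t (fun t' _ => g t') := fun t => wf.fix_eq step t
  have key : ∀ t, g t ∈ D t ∧ g t ≤ s ∧ ∀ t', WellOrderingRel t' t → g t ≤ g t' := by
    intro t
    induction t using wf.induction with
    | h t ih =>
      have hex : ∃ x, x ∈ D t ∧ x ≤ s ∧ ∀ t' (_ : WellOrderingRel t' t), x ≤ g t' := by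
        obtain ⟨l, hl⟩ := dist_low hS e he (fun o : Option T => o.elim s g)
          {o | ∀ t', o = some t' → WellOrderingRel t' t} ⟨none, fun t' h => by simp at h⟩ (by
            rintro (_ | a) ha (_ | b) hb
            · exact Or.inl le_rfl
            · exact Or.inr (ih b (hb b rfl)).2.1
            · exact Or.inl (ih a (ha a rfl)).2.1
            · rcases tri a b with h | h | h
              · exact Or.inr ((ih b (hb b rfl)).2.2 a h)
              · subst h
                exact Or.inl le_rfl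
              · exact Or.inl ((ih a (ha a rfl)).2.2 b h))
        obtain ⟨x, hx1, hx2⟩ := hdense t l
        refine ⟨x, hx2, hx1.trans (hl none (fun t' h => by simp at h)), fun t' ht' => ?_⟩
        exact hx1.trans (hl (some t') (fun t'' h => by
          rw [← Option.some.inj h]
          exact ht'))
      have hgt : g t = hex.choose := by
        rw [hg t]
        exact dif_pos hex
      rw [hgt]
      exact ⟨hex.choose_spec.1, hex.choose_spec.2.1, hex.choose_spec.2.2⟩
  obtain ⟨l, hl⟩ := dist_low hS e he (fun o : Option T => o.elim s g) Set.univ ⟨none, trivial⟩ (by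
    rintro (_ | a) _ (_ | b) _
    · exact Or.inl le_rfl
    · exact Or.inr (key b).2.1
    · exact Or.inl (key a).2.1
    · rcases tri a b with h | h | h
      · exact Or.inr ((key b).2.2 a h)
      · subst h
        exact Or.inl le_rfl
      · exact Or.inl ((key a).2.2 b h))
  exact ⟨l, hl none trivial, fun t => hopen t _ (key t).1 l (hl (some t) trivial)⟩

/-- In such a preorder, a descending transfinite construction below each condition. -/
theorem dist_nat {Λ : Type u} [Infinite Λ] {S : Type v} [Preorder S]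
    (hS : ∀ C : Set S, IsChain (· ≤ ·) C → C.Nonempty → (∃ f : C → Λ, Function.Injective f) →
      ∃ l, ∀ c ∈ C, l ≤ c)
    (f : ℕ → S) (hf : ∀ n, f (n + 1) ≤ f n) : ∃ l, ∀ n, l ≤ f n := by
  have hanti : Antitone f := antitone_nat_of_succ_le hf
  obtain ⟨l, hl⟩ := dist_low hS (Infinite.natEmbedding Λ) (Infinite.natEmbedding Λ).injective f
    Set.univ ⟨0, trivial⟩ (fun a _ b _ => by
      rcases le_total a b with h | h
      · exact Or.inr (hanti h)
      · exact Or.inl (hanti h))
  exact ⟨l, fun n => hl n trivial⟩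

end Pool.Agent.Helper539.LadDist
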