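import Mathlib
import Pool.Agent.Helper539.LadIter
import Pool.Agent.Helper539.LadBasic

/-!
# Lower bounds of chains of conditions
-/

namespace Pool.Agent.Helper539.LadLim

open Pool.Agent.Helper539.LadIter Pool.Agent.Helper539.LadBasic

universe u

variable {X Θ K : Type u} [LinearOrder X] [LinearOrder Θ] [WellFoundedLT Θ]
  {Λ : Type u} {k0 : K} {σ : K → Prop} {N : Θ → X → X → Set (Cond X Θ K)}


variable [WellFoundedLT X] [Nonempty X]


open Classical in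
theorem lim_g_aux {K : Type u} (P Q : K → Prop) (k0 : K) (h : P = Q) :
    (if h : ∃ k, P k then Classical.choose h else k0) =
      (if h : ∃ k, Q k then Classical.choose h else k0) := by
  subst h; rfl

/-- to be proved -/
theorem restr_lim (C : Set (Cond X Θ K)) (U : Set Θ) :
    restr (lim k0 C) U = lim k0 ((fun c => restr c U) '' C) := by
  apply Cond.ext
  · have e : Cond.top '' C = Cond.top '' ((fun c => restr c U) '' C) := by
      rw [Set.image_image]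
      rfl
    show (Classical.epsilon fun d => IsLUB (Cond.top '' C) d) =
      (Classical.epsilon fun d => IsLUB (Cond.top '' ((fun c => restr c U) '' C)) d)
    rw [← e]
  · funext x
    refine lim_g_aux (fun k => ∃ c ∈ C, x ≤ c.top ∧ c.g x = k)
      (fun k => ∃ c ∈ (fun c => restr c U) '' C, x ≤ c.top ∧ c.g x = k) k0 ?_
    funext k
    apply propext
    constructor
    · rintro ⟨c, hc, h1, h2⟩
      exact ⟨restr c U, ⟨c, hc, rfl⟩, h1, h2⟩
    · rintro ⟨_, ⟨c, hc, rfl⟩, h1, h2⟩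
      exact ⟨c, hc, h1, h2⟩
  · ext j
    constructor
    · rintro ⟨⟨c, hc, h1⟩, h2⟩
      exact ⟨restr c U, ⟨c, hc, rfl⟩, h1, h2⟩
    · rintro ⟨_, ⟨c, hc, rfl⟩, h1, h2⟩
      exact ⟨⟨c, hc, h1⟩, h2⟩
  · funext j
    ext x
    constructor
    · rintro ⟨⟨c, hc, h1⟩, h2⟩
      exact ⟨restr c U, ⟨c, hc, rfl⟩, h1, h2⟩
    · rintro ⟨_, ⟨c, hc, rfl⟩, h1, h2⟩
      exact ⟨⟨c, hc, h1⟩, h2⟩

/-- to be proved -/
theorem lim_top (hbd : ∀ f : Λ → X, ∃ b, ∀ n, f n < b) {C : Set (Cond X Θ K)}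
    (hne : C.Nonempty) (hsm : Nonempty (C ↪ Λ)) : IsLUB (Cond.top '' C) (lim k0 C).top := by
  obtain ⟨e⟩ := hsm
  obtain ⟨c0, hc0⟩ := hne
  have : Nonempty C := ⟨⟨c0, hc0⟩⟩
  obtain ⟨b, hb⟩ := hbd (fun l => (Function.invFun e l : C).1.top)
  have hU : (upperBounds (Cond.top '' C)).Nonempty := by
    refine ⟨b, ?_⟩
    rintro _ ⟨c, hc, rfl⟩
    have h1 := hb (e ⟨c, hc⟩)
    simp only [Function.leftInverse_invFun e.injective ⟨c, hc⟩] at h1
    exact h1.le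
  have hex : ∃ d, IsLUB (Cond.top '' C) d := by
    refine ⟨wellFounded_lt.min _ hU, wellFounded_lt.min_mem _ hU, ?_⟩
    intro b' hb'
    exact not_lt.mp (wellFounded_lt.not_lt_min _ hb')
  exact Classical.epsilon_spec hex

theorem lim_g {C : Set (Cond X Θ K)} (hC : IsChain (· ≤ ·) C) {c : Cond X Θ K} (hc : c ∈ C) {x : X}
    (hx : x ≤ c.top) : (lim k0 C).g x = c.g x := by
  have h : ∃ k, ∃ c ∈ C, x ≤ c.top ∧ c.g x = k := ⟨_, c, hc, hx, rfl⟩
  have e : (lim k0 C).g x = Classical.choose h := dif_pos h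
  rw [e]
  obtain ⟨c', hc', hx', he⟩ := Classical.choose_spec h
  rw [← he]
  rcases hC.total hc hc' with h1 | h1
  · exact ((le_def.mp h1).2.1 x hx').symm
  · exact (le_def.mp h1).2.1 x hx

theorem lim_g0 {C : Set (Cond X Θ K)} {x : X}
    (hx : ∀ c ∈ C, ¬ x ≤ c.top) : (lim k0 C).g x = k0 := by
  have hno : ¬ ∃ k, ∃ c ∈ C, x ≤ c.top ∧ c.g x = k := by
    rintro ⟨k, c, hc, h1, _⟩
    exact hx c hc h1
  exact dif_neg hno

/-- to be proved -/
theorem lim_le (hbd : ∀ f : Λ → X, ∃ b, ∀ n, f n < b) {C : Set (Cond X Θ K)}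
    (hC : IsChain (· ≤ ·) C) (hne : C.Nonempty) (hsm : Nonempty (C ↪ Λ))
    (hl : ∀ c ∈ C, WF Λ k0 c) : ∀ c ∈ C, lim k0 C ≤ c := by
  intro c hc
  have htop := lim_top (k0 := k0) hbd hne hsm
  refine le_def.mpr ⟨htop.1 ⟨c, hc, rfl⟩, fun x hx => lim_g hC hc hx, fun j hj => ⟨c, hc, hj⟩, ?_⟩
  intro j hj x hx
  constructor
  · rintro ⟨c', hc', hx'⟩
    rcases hC.total hc hc' with h1 | h1
    · by_cases hj' : j ∈ c'.supp
      · exact ((le_def.mp h1).2.2.2 j hj' x ((hl c' hc').2.1 j hj' x hx')).mpr hx'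
      · rw [(hl c' hc').2.2.1 j hj'] at hx'
        exact absurd hx' (Set.notMem_empty x)
    · exact ((le_def.mp h1).2.2.2 j hj x hx).mp hx'
  · intro hx'
    exact ⟨c, hc, hx'⟩

/-- to be proved -/
theorem legal_lim [Infinite Λ] (hbd : ∀ f : Λ → X, ∃ b, ∀ n, f n < b)
    {C : Set (Cond X Θ K)} (hC : IsChain (· ≤ ·) C) (hne : C.Nonempty) (hsm : Nonempty (C ↪ Λ))
    (hk0 : ¬ σ k0) (hl : ∀ c ∈ C, Legal Λ k0 σ N c) : Legal Λ k0 σ N (lim k0 C) := by
  have hwf : ∀ c ∈ C, WF Λ k0 c := fun c hc => (hl c hc).1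
  have htop := lim_top (k0 := k0) hbd hne hsm
  have hle := lim_le hbd hC hne hsm hwf
  refine ⟨⟨?_, ?_, ?_, ?_⟩, ?_⟩
  · obtain ⟨e⟩ := hsm
    have h1 : ∀ j : (lim k0 C).supp, ∃ c : C, j.1 ∈ c.1.supp := by
      rintro ⟨j, c, hc, hj⟩
      exact ⟨⟨c, hc⟩, hj⟩
    choose φ hφ using h1
    have h2 : ∀ c : C, Nonempty (c.1.supp ↪ Λ) := fun c => (hwf c.1 c.2).1
    let ψ : ∀ c : C, c.1.supp ↪ Λ := fun c => (h2 c).some
    have hinj : Function.Injective (fun j : (lim k0 C).supp => (e (φ j), ψ (φ j) ⟨j.1, hφ j⟩)) := by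
      intro j j' hjj
      simp only [Prod.mk.injEq] at hjj
      have h3 : φ j = φ j' := e.injective hjj.1
      have h4 := hjj.2
      have key : ∀ (c c' : C) (hcc : c = c') (h : j.1 ∈ c.1.supp) (h' : j'.1 ∈ c'.1.supp),
          ψ c ⟨j.1, h⟩ = ψ c' ⟨j'.1, h'⟩ → j.1 = j'.1 := by
        intro c c' hcc h h' hh
        subst hcc
        have h5 := (ψ c).injective hh
        exact Subtype.mk.inj h5
      exact Subtype.ext (key _ _ h3 _ _ h4)
    have hcard : Cardinal.mk (Λ × Λ) ≤ Cardinal.mk Λ := by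
      rw [Cardinal.mk_prod, Cardinal.lift_id, Cardinal.mul_eq_self (Cardinal.aleph0_le_mk Λ)]
    obtain ⟨ι⟩ := Cardinal.le_def _ _ |>.mp hcard
    exact ⟨(⟨_, hinj⟩ : (lim k0 C).supp ↪ Λ × Λ).trans ι⟩
  · rintro j _ x ⟨c, hc, hx⟩
    by_cases hj : j ∈ c.supp
    · exact ((hwf c hc).2.1 j hj x hx).trans (htop.1 ⟨c, hc, rfl⟩)
    · rw [(hwf c hc).2.2.1 j hj] at hx
      exact absurd hx (Set.notMem_empty x)
  · intro j hj
    ext x
    constructor
    · rintro ⟨c, hc, hx⟩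
      have hj' : j ∉ c.supp := fun h => hj ⟨c, hc, h⟩
      rw [(hwf c hc).2.2.1 j hj'] at hx
      exact hx
    · intro hx; exact absurd hx (Set.notMem_empty x)
  · intro x hx
    apply lim_g0
    intro c hc h1
    exact absurd (h1.trans (htop.1 ⟨c, hc, rfl⟩)) (not_le.mpr hx)
  · rintro j ⟨c1, hc1, hj1⟩ γ hγ hσ hcof hunb
    have h2 : ∃ c2 ∈ C, γ ≤ c2.top := by
      by_contra hno
      push Not at hno
      rw [lim_g0 (fun c hc => not_le.mpr (hno c hc))] at hσ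
      exact hk0 hσ
    obtain ⟨c2, hc2, hγ2⟩ := h2
    obtain ⟨c, hc, hcj, hcγ⟩ : ∃ c ∈ C, j ∈ c.supp ∧ γ ≤ c.top := by
      rcases hC.total hc1 hc2 with h | h
      · exact ⟨c1, hc1, hj1, hγ2.trans (le_def.mp h).1⟩
      · exact ⟨c2, hc2, (le_def.mp h).2.2.1 hj1, hγ2⟩
    have hlc := hle c hc
    have hy : ∀ x ≤ c.top, (x ∈ (lim k0 C).y j ↔ x ∈ c.y j) := (le_def.mp hlc).2.2.2 j hcj
    have hreq := (hl c hc).2 j hcj γ hcγ (by rw [← lim_g hC hc hcγ]; exact hσ) hcof (by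
      intro b hb
      obtain ⟨x, hx, hbx, hxγ⟩ := hunb b hb
      exact ⟨x, (hy x (hxγ.le.trans hcγ)).mp hx, hbx, hxγ⟩)
    exact Req.mono hreq (restr_mono hlc _) (fun x hx hxy => (hy x (hx.le.trans hcγ)).mp hxy)

end Pool.Agent.Helper539.LadLim
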