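import Mathlib

/-!
# A block disjoint from a countable set
-/

namespace Pool.Agent.Helper539.LadOpt

universe u

/-- Among uncountably many pairwise disjoint sets one is disjoint from a given countable set. -/
theorem exists_disjoint {X Ω : Type u} [Uncountable Ω] (Y : Ω → Set X) (A : Set X)
    (hA : A.Countable) (hY : ∀ o o', o ≠ o' → ∀ x, x ∈ Y o → x ∉ Y o') :
    ∃ o, ∀ x ∈ Y o, x ∉ A := by
  by_contra hcon
  push Not at hcon
  choose f hf hfA using hcon
  have : Countable A := hA.to_subtype
  have hinj : Function.Injective (fun o => (⟨f o, hfA o⟩ : A)) := by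
    intro o o' h
    by_contra hne
    have h' : f o = f o' := congrArg Subtype.val h
    exact hY o o' hne (f o) (hf o) (h' ▸ hf o')
  exact not_countable (α := Ω) hinj.countable

end Pool.Agent.Helper539.LadOpt
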