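import Mathlib

/-!
# Sequences with history
-/

namespace Pool.Agent.Helper539.LadSeq

universe u

/-- construction of a sequence with history -/
theorem seq_rec {Z : Type u} (Inv : ℕ → (ℕ → Z) → Prop)
    (dep : ∀ n f f', (∀ m ≤ n, f m = f' m) → Inv n f → Inv n f')
    (h0 : ∃ f, Inv 0 f) (hs : ∀ n f, Inv n f → ∃ z, Inv (n + 1) (Function.update f (n + 1) z)) :
    ∃ f, ∀ n, Inv n f := by
  classical
  obtain ⟨f0, hf0⟩ := h0
  let F : (n : ℕ) → {f : ℕ → Z // Inv n f} := fun n =>
    Nat.rec (motive := fun n => {f : ℕ → Z // Inv n f}) ⟨f0, hf0⟩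
      (fun n g => ⟨Function.update g.1 (n + 1) (hs n g.1 g.2).choose, (hs n g.1 g.2).choose_spec⟩) n
  have hF : ∀ n, (F (n + 1)).1 = Function.update (F n).1 (n + 1) (hs n (F n).1 (F n).2).choose :=
    fun n => rfl
  have hag : ∀ m k j, j ≤ m → (F (m + k)).1 j = (F m).1 j := by
    intro m k
    induction k with
    | zero => intro j _; rfl
    | succ k ih =>
      intro j hj
      rw [← add_assoc, hF, Function.update_of_ne (by omega)]
      exact ih j hj
  refine ⟨fun n => (F n).1 n, fun n => ?_⟩
  refine dep n (F n).1 _ ?_ (F n).2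
  intro m hm
  obtain ⟨k, rfl⟩ := Nat.exists_eq_add_of_le hm
  exact hag m k m le_rfl

/-- construction of a sequence when each step depends only on the previous values -/
theorem seq_choice {Z : Type u} [Nonempty Z] (Pr : ℕ → (ℕ → Z) → Prop)
    (dep : ∀ n f f', (∀ m ≤ n, f m = f' m) → Pr n f → Pr n f')
    (hs : ∀ n f, ∃ z, Pr n (Function.update f n z)) : ∃ f, ∀ n, Pr n f := by
  classical
  obtain ⟨f, hf⟩ := seq_rec (fun n f => ∀ m ≤ n, Pr m f)
    (fun n f f' h h1 m hm => dep m f f' (fun j hj => h j (hj.trans hm)) (h1 m hm))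
    (by
      obtain ⟨z, hz⟩ := hs 0 (fun _ => Classical.arbitrary Z)
      exact ⟨_, fun m hm => by
        have : m = 0 := by omega
        subst this
        exact hz⟩)
    (by
      intro n f h
      obtain ⟨z, hz⟩ := hs (n + 1) f
      refine ⟨z, fun m hm => ?_⟩
      rcases Nat.lt_or_ge n m with h1 | h1
      · have : m = n + 1 := by omega
        subst this
        exact hz
      · refine dep m f _ ?_ (h m h1)
        intro j hj
        rw [Function.update_of_ne (by omega)])
  exact ⟨f, fun n => hf n n le_rfl⟩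

end Pool.Agent.Helper539.LadSeq
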