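import Mathlib
import Pool.Agent.Helper539.LadBasic

/-!
# Systems of conditions indexed by branches
-/

namespace Pool.Agent.Helper539.LadSys

open Pool.Agent.Helper539.LadIter Pool.Agent.Helper539.LadBasic

universe u

section

variable {X Θ K Ω : Type u} [LinearOrder X] [LinearOrder Θ]

/-- `τ` and `τ'` agree on the active coordinates in `U` at the levels below `n` -/
def Agree (B : ℕ → Set Θ) (n : ℕ) (U : Set Θ) (τ τ' : ℕ → Θ → Ω) : Prop :=
  ∀ m < n, ∀ j ∈ B m, j ∈ U → τ m j = τ' m j

/-- coherence of a system of conditions -/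
def Coh (B : ℕ → Set Θ) (n : ℕ) (Q : (ℕ → Θ → Ω) → Cond X Θ K) : Prop :=
  ∀ U, IsLowerSet U → ∀ τ τ', Agree B n U τ τ' → restr (Q τ) U = restr (Q τ') U

end

end Pool.Agent.Helper539.LadSys
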