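import Mathlib
import Pool.Agent.Helper539.LadIter
import Pool.Agent.Helper539.LadBasic

/-!
# Unions, one point extensions, padding
-/

namespace Pool.Agent.Helper539.LadUn

open Pool.Agent.Helper539.LadIter Pool.Agent.Helper539.LadBasic

universe u

variable {X Θ K : Type u} [LinearOrder X] [LinearOrder Θ] [WellFoundedLT Θ]
  {Λ : Type u} {k0 : K} {σ : K → Prop} {N : Θ → X → X → Set (Cond X Θ K)}


theorem not_unb_empty {γ : X} (hc : CofOmega γ) {y : Set X} (hy : y = ∅) (h : Unb y γ) : False := by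
  obtain ⟨f, hf, -⟩ := hc
  obtain ⟨x, hx, -⟩ := h (f 0) (hf 0)
  rw [hy] at hx
  exact hx

theorem reqAt_of {L : Set (Cond X Θ K)} {N : Θ → X → X → Set (Cond X Θ K)} {i : Θ}
    {p r : Cond X Θ K} (h : ReqAt σ L N i p) (hr : r ≤ p)
    (h1 : ∀ γ ≤ r.top, σ (r.g γ) → γ ≤ p.top ∧ p.g γ = r.g γ)
    (h2 : ∀ x ≤ p.top, x ∈ r.y i → x ∈ p.y i) : ReqAt σ L N i r := by
  intro γ hγ hσ hc hu
  obtain ⟨h3, h4⟩ := h1 γ hγ hσ
  have hu' : Unb (p.y i) γ := by
    intro b hb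
    obtain ⟨x, hx, hbx, hxγ⟩ := hu b hb
    exact ⟨x, h2 x (hxγ.le.trans h3) hx, hbx, hxγ⟩
  exact Req.mono (h γ h3 (by rw [h4]; exact hσ) hc hu') (restr_mono hr _)
    (fun x hx hx' => h2 x (hx.le.trans h3) hx')

/-- to be proved -/
theorem union_spec [Infinite Λ] {p q : Cond X Θ K} (hp : Legal Λ k0 σ N p)
    (hq : Legal Λ k0 σ N q) (ht : p.top = q.top) (hg : p.g = q.g)
    (hy : ∀ j ∈ p.supp, j ∈ q.supp → p.y j = q.y j) :
    Legal Λ k0 σ N (unionC p q) ∧ unionC p q ≤ p ∧ unionC p q ≤ q := by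
  have e1 : ∀ j ∈ p.supp, p.y j ∪ q.y j = p.y j := by
    intro j hj
    by_cases hjq : j ∈ q.supp
    · rw [hy j hj hjq, Set.union_self]
    · rw [hq.1.2.2.1 j hjq, Set.union_empty]
  have e2 : ∀ j ∈ q.supp, p.y j ∪ q.y j = q.y j := by
    intro j hj
    by_cases hjp : j ∈ p.supp
    · rw [hy j hjp hj, Set.union_self]
    · rw [hp.1.2.2.1 j hjp, Set.empty_union]
  have l1 : unionC p q ≤ p := by
    refine ⟨le_rfl, fun _ _ => rfl, Set.subset_union_left, fun j hj x _ => ?_⟩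
    change x ∈ p.y j ∪ q.y j ↔ x ∈ p.y j
    rw [e1 j hj]
  have l2 : unionC p q ≤ q := by
    refine ⟨ht.symm.le, fun x _ => ?_, Set.subset_union_right, fun j hj x _ => ?_⟩
    · change p.g x = q.g x
      rw [hg]
    · change x ∈ p.y j ∪ q.y j ↔ x ∈ q.y j
      rw [e2 j hj]
  refine ⟨⟨⟨?_, ?_, ?_, ?_⟩, ?_⟩, l1, l2⟩
  · rw [← Cardinal.le_def]
    have h1 : Cardinal.mk p.supp ≤ Cardinal.mk Λ := (Cardinal.le_def _ _).mpr hp.1.1
    have h2 : Cardinal.mk q.supp ≤ Cardinal.mk Λ := (Cardinal.le_def _ _).mpr hq.1.1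
    calc Cardinal.mk ↥(p.supp ∪ q.supp) ≤ Cardinal.mk p.supp + Cardinal.mk q.supp :=
          Cardinal.mk_union_le _ _
      _ ≤ Cardinal.mk Λ + Cardinal.mk Λ := add_le_add h1 h2
      _ = Cardinal.mk Λ := Cardinal.add_eq_self (Cardinal.infinite_iff.mp inferInstance)
  · intro j hj x hx
    rcases hj with hj | hj
    · have hx' : x ∈ p.y j ∪ q.y j := hx
      rw [e1 j hj] at hx'
      exact hp.1.2.1 j hj x hx'
    · have hx' : x ∈ p.y j ∪ q.y j := hx
      rw [e2 j hj] at hx'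
      exact (hq.1.2.1 j hj x hx').trans ht.symm.le
  · intro j hj
    have h1 : j ∉ p.supp := fun h => hj (Or.inl h)
    have h2 : j ∉ q.supp := fun h => hj (Or.inr h)
    change p.y j ∪ q.y j = ∅
    rw [hp.1.2.2.1 j h1, hq.1.2.2.1 j h2, Set.union_empty]
  · intro x hx
    exact hp.1.2.2.2 x hx
  · intro i hi
    rcases hi with hi | hi
    · refine reqAt_of (hp.2 i hi) l1 (fun γ hγ _ => ⟨hγ, rfl⟩) (fun x _ hx => ?_)
      have hx' : x ∈ p.y i ∪ q.y i := hx
      rwa [e1 i hi] at hx'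
    · refine reqAt_of (hq.2 i hi) l2 (fun γ hγ _ => ⟨hγ.trans ht.le, ?_⟩) (fun x _ hx => ?_)
      · change q.g γ = p.g γ
        rw [hg]
      · have hx' : x ∈ p.y i ∪ q.y i := hx
        rwa [e2 i hi] at hx'

/-- to be proved: adding a point -/
theorem ext_spec [Infinite Λ] {p : Cond X Θ K} (hp : Legal Λ k0 σ N p) (j : Θ) {δ : X}
    (hδ : p.top < δ) {k : K} (hk : ¬ σ k) (hk0 : ¬ σ k0) :
    Legal Λ k0 σ N (ext k0 p j δ k) ∧ ext k0 p j δ k ≤ p := by
  classical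
  have gy : ∀ i, (ext k0 p j δ k).y i = if i = j then insert δ (p.y j) else p.y i := by
    intro i
    simp only [ext]
  have gg : ∀ x, (ext k0 p j δ k).g x = if x ≤ p.top then p.g x else if x = δ then k else k0 := by
    intro x
    simp only [ext]
  have hmem : ∀ i, ∀ x ≤ p.top, x ∈ (ext k0 p j δ k).y i ↔ x ∈ p.y i := by
    intro i x hx
    rw [gy i]
    by_cases hij : i = j
    · subst hij
      rw [if_pos rfl, Set.mem_insert_iff]
      constructor
      · rintro (rfl | h)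
        · exact absurd hx (not_le.mpr hδ)
        · exact h
      · exact Or.inr
    · rw [if_neg hij]
  have l1 : ext k0 p j δ k ≤ p := by
    refine ⟨hδ.le, fun x hx => ?_, Set.subset_insert _ _, fun i _ x hx => hmem i x hx⟩
    rw [gg x, if_pos hx]
  have hsig : ∀ γ, σ ((ext k0 p j δ k).g γ) → γ ≤ p.top := by
    intro γ h
    by_contra hγ
    rw [gg γ, if_neg hγ] at h
    split_ifs at h
    · exact hk h
    · exact hk0 h
  refine ⟨⟨⟨?_, ?_, ?_, ?_⟩, ?_⟩, l1⟩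
  · rw [← Cardinal.le_def]
    have h1 : Cardinal.mk p.supp ≤ Cardinal.mk Λ := (Cardinal.le_def _ _).mpr hp.1.1
    have hinf : Cardinal.aleph0 ≤ Cardinal.mk Λ := Cardinal.infinite_iff.mp inferInstance
    calc Cardinal.mk ↥(insert j p.supp) ≤ Cardinal.mk p.supp + 1 := Cardinal.mk_insert_le
      _ ≤ Cardinal.mk Λ + 1 := add_le_add h1 le_rfl
      _ ≤ Cardinal.mk Λ + Cardinal.mk Λ :=
          add_le_add le_rfl (Cardinal.one_le_aleph0.trans hinf)
      _ = Cardinal.mk Λ := Cardinal.add_eq_self hinf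
  · intro i _ x hx
    change x ≤ δ
    rw [gy i] at hx
    by_cases hij : i = j
    · rw [if_pos hij, Set.mem_insert_iff] at hx
      rcases hx with rfl | hx
      · exact le_rfl
      · by_cases hjp : j ∈ p.supp
        · exact (hp.1.2.1 j hjp x hx).trans hδ.le
        · rw [hp.1.2.2.1 j hjp] at hx
          exact hx.elim
    · rw [if_neg hij] at hx
      by_cases hip : i ∈ p.supp
      · exact (hp.1.2.1 i hip x hx).trans hδ.le
      · rw [hp.1.2.2.1 i hip] at hx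
        exact hx.elim
  · intro i hi
    have hij : i ≠ j := fun h => hi (Or.inl h)
    have hip : i ∉ p.supp := fun h => hi (Or.inr h)
    rw [gy i, if_neg hij, hp.1.2.2.1 i hip]
  · intro x hx
    have hx' : δ < x := hx
    rw [gg x, if_neg (not_le.mpr (hδ.trans hx')), if_neg (ne_of_gt hx')]
  · intro i _
    by_cases hip : i ∈ p.supp
    · exact reqAt_of (hp.2 i hip) l1
        (fun γ _ hσ => ⟨hsig γ hσ, by rw [gg γ, if_pos (hsig γ hσ)]⟩)
        (fun x hx hx' => (hmem i x hx).mp hx')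
    · intro γ _ hσ hc hu
      exfalso
      have hγ := hsig γ hσ
      refine not_unb_empty hc (hp.1.2.2.1 i hip) ?_
      intro b hb
      obtain ⟨x, hx, hbx, hxγ⟩ := hu b hb
      exact ⟨x, (hmem i x (hxγ.le.trans hγ)).mp hx, hbx, hxγ⟩

/-- to be proved: enlarging the support -/
theorem pad_spec {p : Cond X Θ K} (hp : Legal Λ k0 σ N p) (V : Set Θ)
    (hV : Nonempty (↥(p.supp ∪ V) ↪ Λ)) :
    Legal Λ k0 σ N (pad p V) ∧ pad p V ≤ p := by
  have l1 : pad p V ≤ p :=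
    ⟨le_rfl, fun _ _ => rfl, Set.subset_union_left, fun _ _ _ _ => Iff.rfl⟩
  refine ⟨⟨⟨hV, ?_, ?_, ?_⟩, ?_⟩, l1⟩
  · intro i _ x hx
    by_cases hip : i ∈ p.supp
    · exact hp.1.2.1 i hip x hx
    · have hx' : x ∈ p.y i := hx
      rw [hp.1.2.2.1 i hip] at hx'
      exact hx'.elim
  · intro i hi
    exact hp.1.2.2.1 i (fun h => hi (Or.inl h))
  · intro x hx
    exact hp.1.2.2.2 x hx
  · intro i _
    by_cases hip : i ∈ p.supp
    · exact reqAt_of (hp.2 i hip) l1 (fun γ hγ _ => ⟨hγ, rfl⟩) (fun x _ hx => hx)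
    · intro γ _ _ hc hu
      exact (not_unb_empty hc (hp.1.2.2.1 i hip) hu).elim

end Pool.Agent.Helper539.LadUn
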