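import Mathlib
import Pool.Agent.Helper539.LadSys
import Pool.Agent.Helper539.LadAm
import Pool.Agent.Helper539.LadUn
import Pool.Agent.Helper539.LadLim
import Pool.Agent.Helper539.LadDist
import Pool.Agent.Helper539.LadSeq
import Pool.Agent.Helper539.LadOpt

/-!
# One level of the tree of conditions
-/

namespace Pool.Agent.Helper539.LadLevel

open Pool.Agent.Helper539.LadIter Pool.Agent.Helper539.LadBasic Pool.Agent.Helper539.LadSys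
  Pool.Agent.Helper539.LadAm Pool.Agent.Helper539.LadUn Pool.Agent.Helper539.LadLim
  Pool.Agent.Helper539.LadDist Pool.Agent.Helper539.LadSeq Pool.Agent.Helper539.LadOpt

universe u

variable {X Θ K Ω : Type u} [LinearOrder X] [LinearOrder Θ] [WellFoundedLT Θ]
  [WellFoundedLT X] {Λ : Type u} {k0 : K} {σ : K → Prop} {N : Θ → X → X → Set (Cond X Θ K)}


section auxlevel

/-- extension of a partial branch by a default value -/
noncomputable def exB (B : ℕ → Set Θ) (n : ℕ) (ω : Ω)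
    (t : {a : ℕ × Θ // a.1 ≤ n ∧ a.2 ∈ B a.1} → Ω) : ℕ → Θ → Ω :=
  open Classical in fun m j => if h : m ≤ n ∧ j ∈ B m then t ⟨(m, j), h⟩ else ω

omit [LinearOrder X] [WellFoundedLT X] [WellFoundedLT Θ] in
theorem exB_agree (B : ℕ → Set Θ) (n : ℕ) (ω : Ω) (τ : ℕ → Θ → Ω) :
    Agree B (n + 1) Set.univ (exB B n ω (fun a => τ a.1.1 a.1.2)) τ := by
  intro m hm j hj _
  unfold exB
  rw [dif_pos ⟨Nat.lt_succ_iff.1 hm, hj⟩]

theorem coh_eq {B : ℕ → Set Θ} {n : ℕ} {Q : (ℕ → Θ → Ω) → Cond X Θ K}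
    (hcoh : Coh B n Q) (hQ : ∀ τ, Legal Λ k0 σ N (Q τ)) {τ τ' : ℕ → Θ → Ω}
    (h : Agree B n Set.univ τ τ') : Q τ = Q τ' := by
  have h1 := hcoh Set.univ (fun _ _ _ _ => Set.mem_univ _) τ τ' h
  rw [restr_eq_self (hQ τ).1 (Set.subset_univ _), restr_eq_self (hQ τ').1 (Set.subset_univ _)] at h1
  exact h1

theorem coh_top {B : ℕ → Set Θ} {n : ℕ} {Q : (ℕ → Θ → Ω) → Cond X Θ K}
    (hcoh : Coh B n Q) (τ τ' : ℕ → Θ → Ω) : (Q τ).top = (Q τ').top := by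
  have h1 := hcoh ∅ (fun _ _ _ h => h) τ τ' (fun m _ j _ hj => absurd hj (Set.notMem_empty _))
  have h2 : (restr (Q τ) ∅).top = (restr (Q τ') ∅).top := by rw [h1]
  exact h2

/-- systems of conditions below `Q` -/
structure SysB (Λ : Type u) (k0 : K) (σ : K → Prop) (N : Θ → X → X → Set (Cond X Θ K))
    (B : ℕ → Set Θ) (n : ℕ) (Q : (ℕ → Θ → Ω) → Cond X Θ K) where
  R : (ℕ → Θ → Ω) → Cond X Θ K
  legal : ∀ τ, Legal Λ k0 σ N (R τ)
  coh : Coh B (n + 1) R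
  le : ∀ τ, R τ ≤ Q τ

/-- new points of incompatible branches are different -/
def DisjB (B : ℕ → Set Θ) (n : ℕ) (R' R : (ℕ → Θ → Ω) → Cond X Θ K) : Prop :=
  ∀ j ∈ B n, ∀ τ τ', Agree B (n + 1) (Set.Iio j) τ τ' → τ n j ≠ τ' n j →
    ∀ x, (R τ).top < x → x ∈ (R' τ).y j → x ∉ (R' τ').y j

/-- the preorder on systems -/
def preB (B : ℕ → Set Θ) (n : ℕ) (Q : (ℕ → Θ → Ω) → Cond X Θ K)
    (hsup : ∀ τ, B n ⊆ (Q τ).supp) : Preorder (SysB Λ k0 σ N B n Q) where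
  le R' R := (∀ τ, R'.R τ ≤ R.R τ) ∧ DisjB B n R'.R R.R
  le_refl R := by
    refine ⟨fun τ => le_refl _, ?_⟩
    intro j hj τ τ' _ _ x hx hx'
    exfalso
    have hjs : j ∈ (R.R τ).supp := (R.le τ).2.2.1 (hsup τ hj)
    exact absurd ((R.legal τ).1.2.1 j hjs x hx') (not_le.2 hx)
  le_trans R'' R' R h h' := by
    refine ⟨fun τ => (h.1 τ).trans (h'.1 τ), ?_⟩
    intro j hj τ τ' hag hne x hx hx1 hx2
    rcases lt_or_ge (R'.R τ).top x with hlt | hge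
    · exact h.2 j hj τ τ' hag hne x hlt hx1 hx2
    · have hjs : j ∈ (R'.R τ).supp := (R'.le τ).2.2.1 (hsup τ hj)
      have hjs' : j ∈ (R'.R τ').supp := (R'.le τ').2.2.1 (hsup τ' hj)
      have hge' : x ≤ (R'.R τ').top := by rw [← coh_top R'.coh τ τ']; exact hge
      have e1 := ((h.1 τ).2.2.2 j hjs x hge).1 hx1
      have e2 := ((h.1 τ').2.2.2 j hjs' x hge').1 hx2
      exact h'.2 j hj τ τ' hag hne x hx e1 e2

theorem chain_three {S : Type*} [Preorder S] {C : Set S} (hC : IsChain (· ≤ ·) C) {a b c : S}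
    (ha : a ∈ C) (hb : b ∈ C) (hc : c ∈ C) : ∃ d ∈ C, d ≤ a ∧ d ≤ b ∧ d ≤ c := by
  rcases hC.total ha hb with h1 | h1 <;> rcases hC.total ha hc with h2 | h2 <;>
    rcases hC.total hb hc with h3 | h3
  · exact ⟨a, ha, le_refl _, h1, h2⟩
  · exact ⟨a, ha, le_refl _, h1, h2⟩
  · exact ⟨c, hc, h2, h2.trans h1, le_refl _⟩
  · exact ⟨c, hc, h2, h2.trans h1, le_refl _⟩
  · exact ⟨b, hb, h1, le_refl _, h3⟩
  · exact ⟨b, hb, h1, le_refl _, h1.trans h2⟩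
  · exact ⟨b, hb, h1, le_refl _, h3⟩
  · exact ⟨c, hc, h2, h3, le_refl _⟩

/-- lower bounds of chains of systems -/
theorem chainB [Nonempty X] [Infinite Λ] (hbd : ∀ f : Λ → X, ∃ b, ∀ n, f n < b)
    (hk0 : ¬ σ k0) (B : ℕ → Set Θ) (n : ℕ) (Q : (ℕ → Θ → Ω) → Cond X Θ K)
    (hsup : ∀ τ, B n ⊆ (Q τ).supp) :
    letI := preB (Λ := Λ) (k0 := k0) (σ := σ) (N := N) B n Q hsup
    ∀ C : Set (SysB Λ k0 σ N B n Q), IsChain (· ≤ ·) C → C.Nonempty →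
      (∃ f : C → Λ, Function.Injective f) → ∃ l, ∀ c ∈ C, l ≤ c := by
  letI := preB (Λ := Λ) (k0 := k0) (σ := σ) (N := N) B n Q hsup
  intro C hC hne ⟨f, hf⟩
  have hchain : ∀ τ, IsChain (· ≤ ·) ((fun R : SysB Λ k0 σ N B n Q => R.R τ) '' C) := by
    rintro τ _ ⟨R1, h1, rfl⟩ _ ⟨R2, h2, rfl⟩ _
    rcases hC.total h1 h2 with h | h
    · exact Or.inl (h.1 τ)
    · exact Or.inr (h.1 τ)
  have hnon : ∀ τ, ((fun R : SysB Λ k0 σ N B n Q => R.R τ) '' C).Nonempty := fun τ => hne.image _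
  have hsm : ∀ τ, Nonempty (((fun R : SysB Λ k0 σ N B n Q => R.R τ) '' C) ↪ Λ) := by
    intro τ
    have hex : ∀ c : ((fun R : SysB Λ k0 σ N B n Q => R.R τ) '' C), ∃ R : C, R.1.R τ = c.1 := by
      rintro ⟨_, R, hR, rfl⟩
      exact ⟨⟨R, hR⟩, rfl⟩
    choose g hg using hex
    refine ⟨⟨fun c => f (g c), ?_⟩⟩
    intro c c' hcc
    have h1 := hf hcc
    apply Subtype.ext
    rw [← hg c, ← hg c', h1]
  have hleg : ∀ τ, ∀ c ∈ ((fun R : SysB Λ k0 σ N B n Q => R.R τ) '' C), Legal Λ k0 σ N c := by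
    rintro τ _ ⟨R, hR, rfl⟩
    exact R.legal τ
  have hlimle : ∀ τ, ∀ R ∈ C, lim k0 ((fun R : SysB Λ k0 σ N B n Q => R.R τ) '' C) ≤ R.R τ := by
    intro τ R hR
    exact lim_le hbd (hchain τ) (hnon τ) (hsm τ) (fun c hc => (hleg τ c hc).1) _ ⟨R, hR, rfl⟩
  obtain ⟨R0, hR0⟩ := hne
  refine ⟨⟨fun τ => lim k0 ((fun R : SysB Λ k0 σ N B n Q => R.R τ) '' C), ?_, ?_, ?_⟩, ?_⟩
  · intro τ
    exact legal_lim hbd (hchain τ) (hnon τ) (hsm τ) hk0 (hleg τ)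
  · intro U hU τ τ' hag
    rw [restr_lim, restr_lim, Set.image_image, Set.image_image]
    congr 1
    apply Set.image_congr
    intro R _
    exact R.coh U hU τ τ' hag
  · intro τ
    exact (hlimle τ R0 hR0).trans (R0.le τ)
  · intro R hR
    refine ⟨fun τ => hlimle τ R hR, ?_⟩
    intro j hj τ τ' hag hne x hx hx1 hx2
    obtain ⟨_, ⟨R1, hR1, rfl⟩, hx1⟩ := hx1
    obtain ⟨_, ⟨R2, hR2, rfl⟩, hx2⟩ := hx2
    obtain ⟨R3, hR3, h31, h32, h3⟩ := chain_three hC hR1 hR2 hR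
    have hj1 : j ∈ (R1.R τ).supp := (R1.le τ).2.2.1 (hsup τ hj)
    have hj2 : j ∈ (R2.R τ').supp := (R2.le τ').2.2.1 (hsup τ' hj)
    have e1 := ((h31.1 τ).2.2.2 j hj1 x ((R1.legal τ).1.2.1 j hj1 x hx1)).2 hx1
    have e2 := ((h32.1 τ').2.2.2 j hj2 x ((R2.legal τ').1.2.1 j hj2 x hx2)).2 hx2
    exact h3.2 j hj τ τ' hag hne x hx e1 e2

omit [WellFoundedLT X] in
theorem am_univ (p q : Cond X Θ K) : am Set.univ q p = q := by
  unfold am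
  apply Cond.ext
  · rfl
  · rfl
  · simp
  · funext j
    simp

/-- density -/
theorem denseB [Infinite Λ]
    (B : ℕ → Set Θ) (n : ℕ) (Q : (ℕ → Θ → Ω) → Cond X Θ K)
    (hsup : ∀ τ, B n ⊆ (Q τ).supp)
    (E : Cond X Θ K → Cond X Θ K)
    (hE : ∀ p, Legal Λ k0 σ N p → Legal Λ k0 σ N (E p) ∧ E p ≤ p)
    (τ : ℕ → Θ → Ω) (R : SysB Λ k0 σ N B n Q) :
    letI := preB (Λ := Λ) (k0 := k0) (σ := σ) (N := N) B n Q hsup
    ∃ R' ≤ R, ∃ r, Legal Λ k0 σ N r ∧ r ≤ Q τ ∧ R'.R τ ≤ E r := by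
  letI := preB (Λ := Λ) (k0 := k0) (σ := σ) (N := N) B n Q hsup
  obtain ⟨hEl, hEle⟩ := hE (R.R τ) (R.legal τ)
  have hU : ∀ υ : ℕ → Θ → Ω, IsLowerSet {j | Agree B (n + 1) (Set.Iic j) τ υ} := by
    intro υ j i hij hj m hm l hl hli
    exact hj m hm l hl (le_trans hli hij)
  have hag : ∀ υ : ℕ → Θ → Ω, Agree B (n + 1) {j | Agree B (n + 1) (Set.Iic j) τ υ} τ υ := by
    intro υ m hm j hj hjU
    exact hjU m hm j hj le_rfl
  have hres : ∀ υ : ℕ → Θ → Ω, restr (E (R.R τ)) {j | Agree B (n + 1) (Set.Iic j) τ υ} ≤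
      restr (R.R υ) {j | Agree B (n + 1) (Set.Iic j) τ υ} := by
    intro υ
    rw [← R.coh _ (hU υ) τ υ (hag υ)]
    exact restr_mono hEle _
  have hle : ∀ υ : ℕ → Θ → Ω,
      am {j | Agree B (n + 1) (Set.Iic j) τ υ} (E (R.R τ)) (R.R υ) ≤ R.R υ :=
    fun υ => am_le_left (hres υ)
  refine ⟨⟨fun υ => am {j | Agree B (n + 1) (Set.Iic j) τ υ} (E (R.R τ)) (R.R υ), ?_, ?_, ?_⟩,
    ⟨hle, ?_⟩, R.R τ, R.legal τ, R.le τ, ?_⟩
  · intro υ
    exact legal_am (hU υ) (R.legal υ) hEl (hres υ)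
  · intro U hUl υ υ' hυ
    have hiff : ∀ j ∈ U, (j ∈ {j | Agree B (n + 1) (Set.Iic j) τ υ} ↔
        j ∈ {j | Agree B (n + 1) (Set.Iic j) τ υ'}) := by
      intro j hj
      constructor
      · intro h m hm l hl hlj
        rw [h m hm l hl hlj]
        exact hυ m hm l hl (hUl hlj hj)
      · intro h m hm l hl hlj
        rw [h m hm l hl hlj]
        exact (hυ m hm l hl (hUl hlj hj)).symm
    have hR := R.coh U hUl υ υ' hυ
    have hsupp : ∀ j ∈ U, (j ∈ (R.R υ).supp ↔ j ∈ (R.R υ').supp) := by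
      intro j hj
      have h1 : (R.R υ).supp ∩ U = (R.R υ').supp ∩ U := congrArg Cond.supp hR
      have h2 : j ∈ (R.R υ).supp ∩ U ↔ j ∈ (R.R υ').supp ∩ U := by rw [h1]
      simpa [hj] using h2
    have hy : ∀ j ∈ U, (R.R υ).y j = (R.R υ').y j := by
      intro j hj
      have h1 : (fun j => {x | x ∈ (R.R υ).y j ∧ j ∈ U}) =
          (fun j => {x | x ∈ (R.R υ').y j ∧ j ∈ U}) := congrArg Cond.y hR
      have h2 := congrFun h1 j
      ext x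
      have h3 : x ∈ {x | x ∈ (R.R υ).y j ∧ j ∈ U} ↔ x ∈ {x | x ∈ (R.R υ').y j ∧ j ∈ U} := by
        have h2' : {x | x ∈ (R.R υ).y j ∧ j ∈ U} = {x | x ∈ (R.R υ').y j ∧ j ∈ U} := h2
        rw [h2']
      simpa [hj] using h3
    unfold restr am
    apply Cond.ext
    · rfl
    · rfl
    · ext j
      simp only [Set.mem_inter_iff, Set.mem_union, Set.mem_diff]
      constructor
      · rintro ⟨h, hj⟩
        refine ⟨?_, hj⟩
        rcases h with h | h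
        · exact Or.inl ⟨h.1, (hiff j hj).1 h.2⟩
        · exact Or.inr ⟨(hsupp j hj).1 h.1, fun hc => h.2 ((hiff j hj).2 hc)⟩
      · rintro ⟨h, hj⟩
        refine ⟨?_, hj⟩
        rcases h with h | h
        · exact Or.inl ⟨h.1, (hiff j hj).2 h.2⟩
        · exact Or.inr ⟨(hsupp j hj).2 h.1, fun hc => h.2 ((hiff j hj).1 hc)⟩
    · funext j
      by_cases hj : j ∈ U
      · by_cases h : j ∈ {j | Agree B (n + 1) (Set.Iic j) τ υ}
        · have h' := (hiff j hj).1 h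
          simp only [if_pos h, if_pos h']
        · have h' : ¬ j ∈ {j | Agree B (n + 1) (Set.Iic j) τ υ'} := fun hc => h ((hiff j hj).2 hc)
          simp only [if_neg h, if_neg h', hy j hj]
      · simp only [hj, and_false]
  · intro υ
    exact (hle υ).trans (R.le υ)
  · intro j hj υ υ' hυ hne x hx hx1 hx2
    have key : ∀ υ₁ : ℕ → Θ → Ω, (R.R υ₁).top < x →
        x ∈ (am {j | Agree B (n + 1) (Set.Iic j) τ υ₁} (E (R.R τ)) (R.R υ₁)).y j →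
        j ∈ {j | Agree B (n + 1) (Set.Iic j) τ υ₁} := by
      intro υ₁ hlt hxm
      by_contra hc
      have h1 : x ∈ (R.R υ₁).y j := by
        unfold am at hxm
        simp only [if_neg hc] at hxm
        exact hxm
      have hjs : j ∈ (R.R υ₁).supp := (R.le υ₁).2.2.1 (hsup υ₁ hj)
      exact absurd ((R.legal υ₁).1.2.1 j hjs x h1) (not_le.2 hlt)
    have k1 := key υ hx hx1
    have k2 := key υ' (by rw [← coh_top R.coh υ υ']; exact hx) hx2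
    apply hne
    rw [← k1 n (Nat.lt_succ_self n) j hj le_rfl, ← k2 n (Nat.lt_succ_self n) j hj le_rfl]
  · have hu : {j : Θ | Agree B (n + 1) (Set.Iic j) τ τ} = Set.univ := by
      ext j
      simp only [Set.mem_univ, iff_true]
      intro m _ l _ _
      rfl
    show am {j | Agree B (n + 1) (Set.Iic j) τ τ} (E (R.R τ)) (R.R τ) ≤ E (R.R τ)
    rw [hu, am_univ]

end auxlevel

/-- one level of the tree of conditions -/
theorem level [Nonempty X] [Infinite Λ] [Nonempty Ω] (hbd : ∀ f : Λ → X, ∃ b, ∀ n, f n < b)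
    (hk0 : ¬ σ k0) (B : ℕ → Set Θ) (n : ℕ) (Q : (ℕ → Θ → Ω) → Cond X Θ K)
    (hQ : ∀ τ, Legal Λ k0 σ N (Q τ)) (hcoh : Coh B n Q) (hsup : ∀ τ, B n ⊆ (Q τ).supp)
    (hsmall : Nonempty (({a : ℕ × Θ // a.1 ≤ n ∧ a.2 ∈ B a.1} → Ω) ↪ Λ))
    (E : Cond X Θ K → Cond X Θ K)
    (hE : ∀ p, Legal Λ k0 σ N p → Legal Λ k0 σ N (E p) ∧ E p ≤ p) :
    ∃ Q' : (ℕ → Θ → Ω) → Cond X Θ K, (∀ τ, Legal Λ k0 σ N (Q' τ)) ∧ Coh B (n + 1) Q' ∧
      (∀ τ, Q' τ ≤ Q τ) ∧ (∀ τ, ∃ r, Legal Λ k0 σ N r ∧ r ≤ Q τ ∧ Q' τ ≤ E r) ∧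
      ∀ j ∈ B n, ∀ τ τ', Agree B (n + 1) (Set.Iio j) τ τ' → τ n j ≠ τ' n j →
        ∀ x, (Q τ).top < x → x ∈ (Q' τ).y j → x ∉ (Q' τ').y j := by
  letI := preB (Λ := Λ) (k0 := k0) (σ := σ) (N := N) B n Q hsup
  obtain ⟨ω⟩ := ‹Nonempty Ω›
  have hcoh1 : Coh B (n + 1) Q := by
    intro U hU τ τ' hag
    exact hcoh U hU τ τ' (fun m hm => hag m (hm.trans (Nat.lt_succ_self n)))
  obtain ⟨R, hR, hRD⟩ := dist (Λ := Λ) (chainB hbd hk0 B n Q hsup) hsmall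
    (fun t => {R : SysB Λ k0 σ N B n Q | ∃ r, Legal Λ k0 σ N r ∧ r ≤ Q (exB B n ω t) ∧
      R.R (exB B n ω t) ≤ E r})
    (by
      rintro t s ⟨r, hr1, hr2, hr3⟩ s' hs'
      exact ⟨r, hr1, hr2, (hs'.1 _).trans hr3⟩)
    (by
      intro t s
      exact denseB B n Q hsup E hE (exB B n ω t) s)
    ⟨Q, hQ, hcoh1, fun τ => le_refl _⟩
  refine ⟨R.R, R.legal, R.coh, R.le, ?_, hR.2⟩
  intro τ
  obtain ⟨r, hr1, hr2, hr3⟩ := hRD (fun a => τ a.1.1 a.1.2)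
  refine ⟨r, hr1, ?_, ?_⟩
  · rw [← coh_eq hcoh1 hQ (exB_agree B n ω τ)]
    exact hr2
  · rw [← coh_eq R.coh R.legal (exB_agree B n ω τ)]
    exact hr3

/-- making the supports equal -/
theorem pad_system [Infinite Λ] [Nonempty Ω] (B : ℕ → Set Θ) (n : ℕ)
    (Q : (ℕ → Θ → Ω) → Cond X Θ K) (hQ : ∀ τ, Legal Λ k0 σ N (Q τ)) (hcoh : Coh B (n + 1) Q)
    (hsmall : Nonempty (({a : ℕ × Θ // a.1 ≤ n ∧ a.2 ∈ B a.1} → Ω) ↪ Λ)) :
    ∃ V : Set Θ, (∀ τ, Legal Λ k0 σ N (pad (Q τ) V) ∧ pad (Q τ) V ≤ Q τ ∧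
      (pad (Q τ) V).supp = V) ∧ Coh B (n + 1) fun τ => pad (Q τ) V := by
  obtain ⟨ω⟩ := ‹Nonempty Ω›
  have hVeq : ∀ τ, (Q τ).supp ⊆ ⋃ t : ({a : ℕ × Θ // a.1 ≤ n ∧ a.2 ∈ B a.1} → Ω),
      (Q (exB B n ω t)).supp := by
    intro τ
    rw [← coh_eq hcoh hQ (exB_agree B n ω τ)]
    exact Set.subset_iUnion (fun t => (Q (exB B n ω t)).supp) (fun a => τ a.1.1 a.1.2)
  have hcard : Nonempty ((⋃ t : ({a : ℕ × Θ // a.1 ≤ n ∧ a.2 ∈ B a.1} → Ω),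
      (Q (exB B n ω t)).supp : Set Θ) ↪ Λ) := by
    rw [← Cardinal.le_def]
    have hinf : Cardinal.aleph0 ≤ Cardinal.mk Λ := Cardinal.aleph0_le_mk Λ
    have h1 : Cardinal.mk ({a : ℕ × Θ // a.1 ≤ n ∧ a.2 ∈ B a.1} → Ω) ≤ Cardinal.mk Λ := by
      rw [Cardinal.le_def]; exact hsmall
    calc Cardinal.mk (⋃ t : ({a : ℕ × Θ // a.1 ≤ n ∧ a.2 ∈ B a.1} → Ω),
          (Q (exB B n ω t)).supp : Set Θ)
        ≤ Cardinal.sum fun t : ({a : ℕ × Θ // a.1 ≤ n ∧ a.2 ∈ B a.1} → Ω) =>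
            Cardinal.mk (Q (exB B n ω t)).supp := Cardinal.mk_iUnion_le_sum_mk
      _ ≤ Cardinal.sum fun t : ({a : ℕ × Θ // a.1 ≤ n ∧ a.2 ∈ B a.1} → Ω) =>
            Cardinal.mk Λ := by
          apply Cardinal.sum_le_sum
          intro t
          rw [Cardinal.le_def]
          exact (hQ _).1.1
      _ = Cardinal.mk ({a : ℕ × Θ // a.1 ≤ n ∧ a.2 ∈ B a.1} → Ω) * Cardinal.mk Λ := by
          rw [Cardinal.sum_const']
      _ ≤ Cardinal.mk Λ * Cardinal.mk Λ := mul_le_mul_left h1 _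
      _ = Cardinal.mk Λ := Cardinal.mul_eq_self hinf
  obtain ⟨V, hV⟩ : ∃ V : Set Θ, V = ⋃ t : ({a : ℕ × Θ // a.1 ≤ n ∧ a.2 ∈ B a.1} → Ω),
      (Q (exB B n ω t)).supp := ⟨_, rfl⟩
  rw [← hV] at hcard
  have hsub : ∀ τ, (Q τ).supp ⊆ V := by intro τ; rw [hV]; exact hVeq τ
  have hun : ∀ τ, (Q τ).supp ∪ V = V := fun τ => Set.union_eq_self_of_subset_left (hsub τ)
  refine ⟨V, ?_, ?_⟩
  · intro τ
    have h1 := pad_spec (hQ τ) V (by rw [hun τ]; exact hcard)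
    exact ⟨h1.1, h1.2, hun τ⟩
  · intro U hU τ τ' hag
    have h := hcoh U hU τ τ' hag
    have e1 : (restr (Q τ) U).top = (restr (Q τ') U).top := by rw [h]
    have e2 : (restr (Q τ) U).g = (restr (Q τ') U).g := by rw [h]
    have e4 : (fun j => {x | x ∈ (Q τ).y j ∧ j ∈ U}) =
          (fun j => {x | x ∈ (Q τ').y j ∧ j ∈ U}) := congrArg Cond.y h
    unfold restr pad
    apply Cond.ext
    · exact e1
    · exact e2
    · show ((Q τ).supp ∪ V) ∩ U = ((Q τ').supp ∪ V) ∩ U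
      rw [hun, hun]
    · exact e4

end Pool.Agent.Helper539.LadLevel
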