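import Mathlib
import Pool.Agent.Helper539.LadLevel

/-!
# Choosing a branch
-/

namespace Pool.Agent.Helper539.LadBranch

open Pool.Agent.Helper539.LadIter Pool.Agent.Helper539.LadBasic Pool.Agent.Helper539.LadSys
  Pool.Agent.Helper539.LadAm Pool.Agent.Helper539.LadUn Pool.Agent.Helper539.LadLim
  Pool.Agent.Helper539.LadDist Pool.Agent.Helper539.LadSeq Pool.Agent.Helper539.LadOpt

universe u

variable {X Θ K Ω : Type u} [LinearOrder X] [LinearOrder Θ] [WellFoundedLT Θ]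
  [WellFoundedLT X] {Λ : Type u} {k0 : K} {σ : K → Prop} {N : Θ → X → X → Set (Cond X Θ K)}


theorem restr_congr_supp {p : Cond X Θ K} (hp : WF Λ k0 p) {U V : Set Θ}
    (h : ∀ j ∈ p.supp, (j ∈ U ↔ j ∈ V)) : restr p U = restr p V := by
  have hy := hp.2.2.1
  apply Cond.ext
  · rfl
  · rfl
  · ext j
    simp only [restr, Set.mem_inter_iff]
    exact ⟨fun ⟨a, b⟩ => ⟨a, (h j a).1 b⟩, fun ⟨a, b⟩ => ⟨a, (h j a).2 b⟩⟩
  · funext j
    ext x
    simp only [restr, Set.mem_setOf_eq]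
    constructor
    · rintro ⟨a, b⟩
      have hj : j ∈ p.supp := by
        by_contra hc
        rw [hy j hc] at a
        exact a
      exact ⟨a, (h j hj).1 b⟩
    · rintro ⟨a, b⟩
      have hj : j ∈ p.supp := by
        by_contra hc
        rw [hy j hc] at a
        exact a
      exact ⟨a, (h j hj).2 b⟩

theorem y_eq_of_restr {p p' : Cond X Θ K} {U : Set Θ} (h : restr p U = restr p' U) {j : Θ}
    (hj : j ∈ U) : p.y j = p'.y j := by
  have h1 : (restr p U).y j = (restr p' U).y j := by rw [h]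
  ext x
  have h2 : x ∈ (restr p U).y j ↔ x ∈ (restr p' U).y j := by rw [h1]
  simp only [restr, Set.mem_setOf_eq, hj, and_true] at h2
  exact h2

theorem mem_supp_of_y {p : Cond X Θ K} (hp : WF Λ k0 p) {j : Θ} {x : X} (hx : x ∈ p.y j) :
    j ∈ p.supp := by
  by_contra hc
  rw [hp.2.2.1 j hc] at hx
  exact hx

theorem coh_base {B : ℕ → Set Θ} {n : ℕ} {Q : (ℕ → Θ → Ω) → Cond X Θ K} (h : Coh B n Q)
    (τ τ' : ℕ → Θ → Ω) : (Q τ).top = (Q τ').top ∧ (Q τ).g = (Q τ').g := by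
  have h1 := h ∅ isLowerSet_empty τ τ' (by intro m _ j _ hj; exact absurd hj (Set.notMem_empty j))
  refine ⟨?_, ?_⟩
  · have h2 := congrArg Cond.top h1
    exact h2
  · have h2 := congrArg Cond.g h1
    exact h2

theorem dec_le {Q : ℕ → (ℕ → Θ → Ω) → Cond X Θ K} (hdec : ∀ n τ, Q (n + 1) τ ≤ Q n τ)
    (τ : ℕ → Θ → Ω) {m n : ℕ} (h : m ≤ n) : Q n τ ≤ Q m τ := by
  induction n, h using Nat.le_induction with
  | base => exact le_refl _
  | succ n _ ih => exact le_trans (hdec n τ) ih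

/-- if `x` is in the coordinate `i` at some level, then also at every level `n` whose domain
contains `x` -/
theorem y_level {Q : ℕ → (ℕ → Θ → Ω) → Cond X Θ K} (hQ : ∀ n τ, Legal Λ k0 σ N (Q n τ))
    (hdec : ∀ n τ, Q (n + 1) τ ≤ Q n τ) (τ : ℕ → Θ → Ω) {i : Θ} {n m : ℕ}
    (hi : i ∈ (Q n τ).supp) {x : X} (hx : x ≤ (Q n τ).top) (hxm : x ∈ (Q m τ).y i) :
    x ∈ (Q n τ).y i := by
  rcases le_total n m with h | h
  · exact ((dec_le hdec τ h).2.2.2 i hi x hx).1 hxm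
  · have him := mem_supp_of_y (hQ m τ).1 hxm
    have hxt := (hQ m τ).1.2.1 i him x hxm
    exact ((dec_le hdec τ h).2.2.2 i him x hxt).2 hxm

/-- the new condition -/
theorem new_cond [Infinite Λ] {Q : ℕ → (ℕ → Θ → Ω) → Cond X Θ K}
    (hQ : ∀ n τ, Legal Λ k0 σ N (Q n τ)) (hdec : ∀ n τ, Q (n + 1) τ ≤ Q n τ)
    (hsupp : ∀ n τ τ', (Q n τ).supp = (Q n τ').supp)
    (htop : ∀ n τ, (Q n τ).top < (Q (n + 1) τ).top)
    {B : ℕ → Set Θ} (hB : Monotone B) (hBs : ∀ n τ, B n ⊆ (Q n τ).supp)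
    {δ : X} {τ : ℕ → Θ → Ω} (hδ : IsLUB (Set.range fun n => (Q n τ).top) δ)
    {i : Θ} (hiB : ∃ m, i ∈ B m) {q : Cond X Θ K} (hq : q ∈ Lg Λ k0 σ N i)
    (hqQ : ∀ n, q ≤ restr (Q n τ) (Set.Iio i)) (hqδ : δ ≤ q.top)
    {A : Set X} (hA : A.Countable)
    (hc : Covers (Lg Λ k0 σ N i) (N i δ) q A ∨
      ∀ q' ∈ Lg Λ k0 σ N i, q' ≤ q → ¬ ∃ A : Set X, A.Countable ∧ Covers (Lg Λ k0 σ N i) (N i δ) q' A)
    (hP : ∀ n, i ∈ B n → ∀ x, (Q n τ).top < x → x ∈ (Q (n + 1) τ).y i → x ∉ A) :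
    ∃ q' : Cond X Θ K, Legal Λ k0 σ N q' ∧ q' ≤ q ∧ q'.supp ⊆ Set.Iic i ∧
      ∀ n, q' ≤ restr (Q n τ) (Set.Iic i) := by
  classical
  obtain ⟨hql, hqs⟩ := mem_lg.1 hq
  have hiq : i ∉ q.supp := fun h => lt_irrefl i (hqs h)
  obtain ⟨m0, hm0⟩ := hiB
  have hlt : ∀ n, (Q n τ).top < δ := fun n =>
    lt_of_lt_of_le (htop n τ) (hδ.1 ⟨n + 1, rfl⟩)
  let y' : Θ → Set X := fun j => if j = i then {x | ∃ n, x ∈ (Q n τ).y i} else q.y j
  let q' : Cond X Θ K := ⟨q.top, q.g, insert i q.supp, y'⟩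
  have hyi : q'.y i = {x | ∃ n, x ∈ (Q n τ).y i} := by simp [q', y']
  have hyj : ∀ j, j ≠ i → q'.y j = q.y j := by
    intro j hj
    simp [q', y', hj]
  have hyδ : ∀ x ∈ q'.y i, x < δ := by
    intro x hx
    rw [hyi] at hx
    obtain ⟨n, hx⟩ := hx
    have h1 := mem_supp_of_y (hQ n τ).1 hx
    exact lt_of_le_of_lt ((hQ n τ).1.2.1 i h1 x hx) (hlt n)
  have hq'q : q' ≤ q := by
    refine ⟨le_refl _, fun _ _ => rfl, Set.subset_insert _ _, fun j hj x _ => ?_⟩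
    rw [hyj j (fun h => hiq (h ▸ hj))]
  have hrestr : restr q' (Set.Iio i) = q := by
    apply Cond.ext
    · rfl
    · rfl
    · ext j
      simp only [restr, q', Set.mem_inter_iff, Set.mem_insert_iff, Set.mem_Iio]
      constructor
      · rintro ⟨h1 | h1, h2⟩
        · exact absurd h2 (by rw [h1]; exact lt_irrefl i)
        · exact h1
      · intro h
        exact ⟨Or.inr h, hqs h⟩
    · funext j
      ext x
      change (x ∈ q'.y j ∧ j ∈ Set.Iio i) ↔ x ∈ q.y j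
      constructor
      · rintro ⟨h1, h2⟩
        rwa [hyj j (ne_of_lt h2)] at h1
      · intro h
        have hj : j < i := hqs (mem_supp_of_y hql.1 h)
        exact ⟨by rw [hyj j (ne_of_lt hj)]; exact h, hj⟩
  have hwf : WF Λ k0 q' := by
    refine ⟨?_, ?_, ?_, ?_⟩
    · obtain ⟨e⟩ := hql.1.1
      have h1 : Cardinal.mk ↥(insert i q.supp) ≤ Cardinal.mk Λ := by
        refine (Cardinal.mk_insert_le).trans ?_
        have h2 : Cardinal.mk q.supp ≤ Cardinal.mk Λ := ⟨e⟩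
        have h3 : Cardinal.aleph0 ≤ Cardinal.mk Λ := Cardinal.aleph0_le_mk Λ
        calc Cardinal.mk q.supp + 1 ≤ Cardinal.mk Λ + Cardinal.mk Λ :=
              add_le_add h2 (Cardinal.one_le_aleph0.trans h3)
          _ = Cardinal.mk Λ := Cardinal.add_eq_self h3
      exact h1
    · intro j hj x hx
      by_cases h : j = i
      · rw [h] at hx
        exact (hyδ x hx).le.trans hqδ
      · rw [hyj j h] at hx
        exact hql.1.2.1 j (mem_supp_of_y hql.1 hx) x hx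
    · intro j hj
      have h1 : j ≠ i := fun h => hj (by rw [h]; exact Set.mem_insert _ _)
      rw [hyj j h1]
      exact hql.1.2.2.1 j (fun h => hj (Set.mem_insert_of_mem _ h))
    · exact hql.1.2.2.2
  have hBsupp : ∀ n, m0 ≤ n → i ∈ B n := fun n hn => hB hn hm0
  refine ⟨q', ⟨hwf, ?_⟩, hq'q, ?_, ?_⟩
  · intro j hj
    by_cases hji : j = i
    · subst hji
      intro γ hγ hσ hcof hunb
      rw [hrestr]
      have hγδ : γ ≤ δ := by
        by_contra hcon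
        push Not at hcon
        obtain ⟨x, hx, hx1, hx2⟩ := hunb δ hcon
        exact absurd (hyδ x hx) (not_lt.2 hx1.le)
      rcases lt_or_eq_of_le hγδ with hlt' | heq
      · obtain ⟨n0, hn0⟩ : ∃ n, γ < (Q n τ).top := by
          by_contra hcon
          push Not at hcon
          have : δ ≤ γ := hδ.2 (by rintro _ ⟨n, rfl⟩; exact hcon n)
          exact absurd hlt' (not_lt.2 this)
        let n := max n0 m0
        have hn1 : j ∈ (Q n τ).supp := hBs n τ (hBsupp n (le_max_right _ _))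
        have hn2 : γ ≤ (Q n τ).top := hn0.le.trans (dec_le hdec τ (le_max_left n0 m0)).1
        have hg : (Q n τ).g γ = q.g γ := ((hqQ n).2.1 γ hn2).symm
        have hyy : ∀ x < γ, x ∈ q'.y j → x ∈ (Q n τ).y j := by
          intro x hx hxy
          rw [hyi] at hxy
          obtain ⟨m, hxm⟩ := hxy
          exact y_level hQ hdec τ hn1 (hx.le.trans hn2) hxm
        have hR := (hQ n τ).2 j hn1 γ hn2 (by rw [hg]; exact hσ) hcof (by
          intro b hb
          obtain ⟨x, hx, hx1, hx2⟩ := hunb b hb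
          exact ⟨x, hyy x hx2 hx, hx1, hx2⟩)
        exact Req.mono hR (hqQ n) hyy
      · rw [heq]
        rcases hc with hc | hc
        · refine Or.inl ⟨A, hA, hc, (Q m0 τ).top, hlt m0, ?_⟩
          intro x hx hx1 hx2
          rw [hyi] at hx
          obtain ⟨m, hxm⟩ := hx
          have hjm := mem_supp_of_y (hQ m τ).1 hxm
          have hxt := (hQ m τ).1.2.1 j hjm x hxm
          have hex : ∃ n, x ≤ (Q n τ).top := ⟨m, hxt⟩
          obtain ⟨n, hn⟩ : ∃ n, Nat.find hex = n + 1 := by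
            refine ⟨Nat.find hex - 1, ?_⟩
            have : Nat.find hex ≠ 0 := by
              intro h0
              have h1 := Nat.find_spec hex
              rw [h0] at h1
              have h2 := (dec_le hdec τ (Nat.zero_le m0)).1
              exact absurd hx1 (not_lt.2 (h1.trans h2))
            omega
          have h1 : x ≤ (Q (n + 1) τ).top := by
            have := Nat.find_spec hex
            rwa [hn] at this
          have h2 : (Q n τ).top < x := by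
            have := Nat.find_min hex (m := n) (by omega)
            exact not_le.1 this
          have h3 : m0 ≤ n := by
            by_contra hcon
            push Not at hcon
            have := (dec_le hdec τ (Nat.succ_le_of_lt hcon)).1
            exact absurd hx1 (not_lt.2 (h1.trans this))
          have h4 : j ∈ (Q (n + 1) τ).supp := hBs _ _ (hBsupp (n + 1) (by omega))
          exact hP n (hBsupp n h3) x h2 (y_level hQ hdec τ h4 h1 hxm)
        · exact Or.inr hc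
    · have hjq : j ∈ q.supp := by
        rcases hj with h | h
        · exact absurd h hji
        · exact h
      have hji' : j < i := hqs hjq
      have hR := hql.2 j hjq
      have hrr : restr q' (Set.Iio j) = restr q (Set.Iio j) := by
        rw [← hrestr, restr_restr]
        have : Set.Iio i ∩ Set.Iio j = Set.Iio j :=
          Set.inter_eq_right.2 (Set.Iio_subset_Iio hji'.le)
        rw [this]
      intro γ hγ hσ hcof hunb
      rw [hrr, hyj j hji]
      rw [hyj j hji] at hunb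
      exact hR γ hγ hσ hcof hunb
  · intro j hj
    rcases hj with h | h
    · exact le_of_eq h
    · exact (hqs h).le
  · intro n
    refine ⟨(hqQ n).1, (hqQ n).2.1, ?_, ?_⟩
    · rintro j ⟨hj1, hj2⟩
      rcases eq_or_lt_of_le hj2 with h | h
      · exact Or.inl h
      · exact Or.inr ((hqQ n).2.2.1 ⟨hj1, h⟩)
    · rintro j ⟨hj1, hj2⟩ x hx
      rcases eq_or_lt_of_le hj2 with h | h
      · subst h
        rw [hyi]
        constructor
        · rintro ⟨m, hm⟩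
          exact ⟨y_level hQ hdec τ hj1 hx hm, le_refl j⟩
        · rintro ⟨h1, _⟩
          exact ⟨n, h1⟩
      · rw [hyj j (ne_of_lt h)]
        have h1 := (hqQ n).2.2.2 j ⟨hj1, h⟩ x hx
        constructor
        · intro h2
          exact ⟨(h1.1 h2).1, h.le⟩
        · rintro ⟨h2, _⟩
          exact h1.2 ⟨h2, h⟩

/-- the states of the construction -/
structure Good (Λ : Type u) (k0 : K) (σ : K → Prop) (N : Θ → X → X → Set (Cond X Θ K))
    (Q : ℕ → (ℕ → Θ → Ω) → Cond X Θ K) (q0 : Cond X Θ K)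
    (s : Set Θ × (ℕ → Θ → Ω) × Cond X Θ K) : Prop where
  lower : IsLowerSet s.1
  cl : ∀ j ∈ s.1, ∃ i ∈ s.1, (∃ n τ, i ∈ (Q n τ).supp) ∧ j ≤ i
  legal : Legal Λ k0 σ N s.2.2
  supp : s.2.2.supp ⊆ s.1
  le0 : s.2.2 ≤ q0
  le : ∀ n, s.2.2 ≤ restr (Q n s.2.1) s.1

/-- the order of the states -/
def SLe (s s' : Set Θ × (ℕ → Θ → Ω) × Cond X Θ K) : Prop :=
  s = s' ∨ (s.1 ⊂ s'.1 ∧ (∀ m, ∀ j ∈ s.1, s.2.1 m j = s'.2.1 m j) ∧ s'.2.2 ≤ s.2.2)

theorem SLe.trans {s s' s'' : Set Θ × (ℕ → Θ → Ω) × Cond X Θ K} (h : SLe s s')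
    (h' : SLe s' s'') : SLe s s'' := by
  rcases h with rfl | ⟨h1, h2, h3⟩
  · exact h'
  rcases h' with rfl | ⟨h1', h2', h3'⟩
  · exact Or.inr ⟨h1, h2, h3⟩
  · exact Or.inr ⟨h1.trans h1', fun m j hj => (h2 m j hj).trans (h2' m j (h1.1 hj)),
      le_trans h3' h3⟩

theorem sle_agree {s s' : Set Θ × (ℕ → Θ → Ω) × Cond X Θ K} (h : SLe s s' ∨ SLe s' s)
    {j : Θ} (hj : j ∈ s.1) (hj' : j ∈ s'.1) (m : ℕ) : s.2.1 m j = s'.2.1 m j := by
  rcases h with (rfl | ⟨_, h2, _⟩) | (rfl | ⟨_, h2, _⟩)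
  · rfl
  · exact h2 m j hj
  · rfl
  · exact (h2 m j hj').symm

/-- upper bounds of chains of states without greatest element -/
theorem chain_bound [Nonempty X] [Infinite Λ] (hbd : ∀ f : Λ → X, ∃ b, ∀ n, f n < b)
    (hk0 : ¬ σ k0) {B : ℕ → Set Θ} {Q : ℕ → (ℕ → Θ → Ω) → Cond X Θ K}
    (hcoh : ∀ n, Coh B n (Q n)) (hSg : Nonempty ({i | ∃ n τ, i ∈ (Q n τ).supp} ↪ Λ))
    (hsupp : ∀ n τ τ', (Q n τ).supp = (Q n τ').supp)
    {q0 : Cond X Θ K} (c : Set (Set Θ × (ℕ → Θ → Ω) × Cond X Θ K)) (hne : c.Nonempty)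
    (hg : ∀ s ∈ c, Good Λ k0 σ N Q q0 s) (hch : ∀ s ∈ c, ∀ s' ∈ c, SLe s s' ∨ SLe s' s)
    (hmax : ¬ ∃ m ∈ c, ∀ a ∈ c, SLe a m) (τ0 : ℕ → Θ → Ω) :
    ∃ s, Good Λ k0 σ N Q q0 s ∧ ∀ a ∈ c, SLe a s := by
  classical
  -- every member has a strictly larger one
  have hbig : ∀ s ∈ c, ∃ s' ∈ c, s.1 ⊂ s'.1 ∧ SLe s s' := by
    intro s hs
    by_contra hcon
    push Not at hcon
    apply hmax
    refine ⟨s, hs, fun a ha => ?_⟩
    rcases hch a ha s hs with h | h
    · exact h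
    · rcases h with h | h
      · exact Or.inl h.symm
      · exact absurd (Or.inr h) (hcon a ha h.1)
  have hmiss : ∀ s ∈ c, ∃ i, (∃ n τ, i ∈ (Q n τ).supp) ∧ i ∉ s.1 := by
    intro s hs
    obtain ⟨s', hs', hlt, _⟩ := hbig s hs
    obtain ⟨j, hj, hjs⟩ := Set.exists_of_ssubset hlt
    obtain ⟨i, hi, hiS, hji⟩ := (hg s' hs').cl j hj
    exact ⟨i, hiS, fun h => hjs ((hg s hs).lower hji h)⟩
  have hmin : ∀ s : c, ∃ i, ((∃ n τ, i ∈ (Q n τ).supp) ∧ i ∉ (s : Set Θ × (ℕ → Θ → Ω) × Cond X Θ K).1) ∧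
      ∀ j, (∃ n τ, j ∈ (Q n τ).supp) → j ∉ (s : Set Θ × (ℕ → Θ → Ω) × Cond X Θ K).1 → i ≤ j := by
    intro s
    obtain ⟨i, hi⟩ := hmiss s.1 s.2
    have hne : {i | (∃ n τ, i ∈ (Q n τ).supp) ∧ i ∉ (s : Set Θ × (ℕ → Θ → Ω) × Cond X Θ K).1}.Nonempty := ⟨i, hi⟩
    refine ⟨wellFounded_lt.min _ hne, wellFounded_lt.min_mem _ hne, fun j h1 h2 => ?_⟩
    exact not_lt.1 (wellFounded_lt.not_lt_min _ (show j ∈ {i | (∃ n τ, i ∈ (Q n τ).supp) ∧ i ∉ (s : Set Θ × (ℕ → Θ → Ω) × Cond X Θ K).1} from ⟨h1, h2⟩))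
  choose μ hμ1 hμ2 using hmin
  have hμlt : ∀ s s' : c, s.1.1 ⊂ s'.1.1 → μ s ≠ μ s' := by
    intro s s' hlt heq
    obtain ⟨j, hj, hjs⟩ := Set.exists_of_ssubset hlt
    obtain ⟨i, hi, hiS, hji⟩ := (hg s'.1 s'.2).cl j hj
    have his : i ∉ s.1.1 := fun h => hjs ((hg s.1 s.2).lower hji h)
    have h1 := hμ2 s i hiS his
    have h2 : μ s ∈ s'.1.1 := (hg s'.1 s'.2).lower h1 hi
    rw [heq] at h2
    exact (hμ1 s').2 h2
  let C : Set (Cond X Θ K) := (fun s => s.2.2) '' c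
  have hCne : C.Nonempty := hne.image _
  have hCch : IsChain (· ≤ ·) C := by
    rintro _ ⟨s, hs, rfl⟩ _ ⟨s', hs', rfl⟩ _
    rcases hch s hs s' hs' with (rfl | h) | (rfl | h)
    · exact Or.inl (le_refl _)
    · exact Or.inr h.2.2
    · exact Or.inl (le_refl _)
    · exact Or.inl h.2.2
  have hCsm : Nonempty (C ↪ Λ) := by
    obtain ⟨e⟩ := hSg
    have hpre : ∀ q : C, ∃ s : c, s.1.2.2 = q.1 := by
      rintro ⟨_, s, hs, rfl⟩
      exact ⟨⟨s, hs⟩, rfl⟩
    choose pr hpr using hpre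
    refine ⟨⟨fun q => e ⟨μ (pr q), (hμ1 (pr q)).1⟩, ?_⟩⟩
    intro q q' h
    have h1 : μ (pr q) = μ (pr q') := congrArg Subtype.val (e.injective h)
    have h2 : pr q = pr q' := by
      by_contra hcon
      rcases hch _ (pr q).2 _ (pr q').2 with (h3 | h3) | (h3 | h3)
      · exact hcon (Subtype.ext h3)
      · exact hμlt _ _ h3.1 h1
      · exact hcon (Subtype.ext h3.symm)
      · exact hμlt _ _ h3.1 h1.symm
    apply Subtype.ext
    rw [← hpr q, ← hpr q', h2]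
  have hCl : ∀ d ∈ C, Legal Λ k0 σ N d := by
    rintro _ ⟨s, hs, rfl⟩
    exact (hg s hs).legal
  have hlim := lim_le (k0 := k0) (Λ := Λ) hbd hCch hCne hCsm (fun d hd => (hCl d hd).1)
  let U : Set Θ := {j | ∃ s ∈ c, j ∈ s.1}
  let τ : ℕ → Θ → Ω := fun m j => if h : ∃ s ∈ c, j ∈ s.1 then (Classical.choose h).2.1 m j
    else τ0 m j
  have hτ : ∀ s ∈ c, ∀ m, ∀ j ∈ s.1, s.2.1 m j = τ m j := by
    intro s hs m j hj
    have h : ∃ s ∈ c, j ∈ s.1 := ⟨s, hs, hj⟩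
    have hcs := Classical.choose_spec h
    have h1 : τ m j = (Classical.choose h).2.1 m j := by
      simp only [τ]
      rw [dif_pos h]
    rw [h1]
    exact sle_agree (hch s hs _ hcs.1) hj hcs.2 m
  have hsub : ∀ s ∈ c, s.1 ⊂ U := by
    intro s hs
    obtain ⟨s', hs', hlt, _⟩ := hbig s hs
    refine ⟨fun j hj => ⟨s, hs, hj⟩, fun h => hlt.2 fun j hj => h ⟨s', hs', hj⟩⟩
  have hres : ∀ s ∈ c, ∀ n, lim k0 C ≤ restr (Q n τ) s.1 := by
    intro s hs n
    have h1 : restr (Q n s.2.1) s.1 = restr (Q n τ) s.1 :=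
      hcoh n s.1 (hg s hs).lower _ _ (fun m _ j _ hj => hτ s hs m j hj)
    rw [← h1]
    exact le_trans (hlim s.2.2 ⟨s, hs, rfl⟩) ((hg s hs).le n)
  obtain ⟨s0, hs0⟩ := hne
  refine ⟨(U, τ, lim k0 C), ⟨?_, ?_, ?_, ?_, ?_, ?_⟩, ?_⟩
  · rintro a b hab ⟨s, hs, ha⟩
    exact ⟨s, hs, (hg s hs).lower hab ha⟩
  · rintro j ⟨s, hs, hj⟩
    obtain ⟨i, hi, h1, h2⟩ := (hg s hs).cl j hj
    exact ⟨i, ⟨s, hs, hi⟩, h1, h2⟩
  · exact legal_lim hbd hCch hCne hCsm hk0 hCl
  · rintro j ⟨_, ⟨s, hs, rfl⟩, hj⟩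
    exact ⟨s, hs, (hg s hs).supp hj⟩
  · exact le_trans (hlim s0.2.2 ⟨s0, hs0, rfl⟩) (hg s0 hs0).le0
  · intro n
    refine ⟨(hres s0 hs0 n).1, (hres s0 hs0 n).2.1, ?_, ?_⟩
    · rintro j ⟨hj, s, hs, hjs⟩
      exact (hres s hs n).2.2.1 ⟨hj, hjs⟩
    · rintro j ⟨hj, s, hs, hjs⟩ x hx
      have h1 := (hres s hs n).2.2.2 j ⟨hj, hjs⟩ x hx
      constructor
      · intro h2
        exact ⟨(h1.1 h2).1, s, hs, hjs⟩
      · rintro ⟨h2, _⟩
        exact h1.2 ⟨h2, hjs⟩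
  · intro a ha
    exact Or.inr ⟨hsub a ha, fun m j hj => hτ a ha m j hj, hlim a.2.2 ⟨a, ha, rfl⟩⟩

/-- choosing a branch through the tree of conditions -/
theorem branch [Nonempty X] [Infinite Λ] [Uncountable Ω] (hbd : ∀ f : Λ → X, ∃ b, ∀ n, f n < b)
    (hk0 : ¬ σ k0) {k : K} (hk : σ k) (B : ℕ → Set Θ) (hB : Monotone B)
    (Q : ℕ → (ℕ → Θ → Ω) → Cond X Θ K) (hQ : ∀ n τ, Legal Λ k0 σ N (Q n τ))
    (hcoh : ∀ n, Coh B n (Q n)) (hdec : ∀ n τ, Q (n + 1) τ ≤ Q n τ)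
    (hsupp : ∀ n τ τ', (Q n τ).supp = (Q n τ').supp)
    (hBs : ∀ n τ, B n ⊆ (Q n τ).supp) (hcov : ∀ n τ, ∀ j ∈ (Q n τ).supp, ∃ m, j ∈ B m)
    (htop : ∀ n τ, (Q n τ).top < (Q (n + 1) τ).top)
    (hdisj : ∀ n, ∀ j ∈ B n, ∀ τ τ', Agree B (n + 1) (Set.Iio j) τ τ' → τ n j ≠ τ' n j →
        ∀ x, (Q n τ).top < x → x ∈ (Q (n + 1) τ).y j → x ∉ (Q (n + 1) τ').y j) :
    ∃ τ q, Legal Λ k0 σ N q ∧ (∀ n, q ≤ Q n τ) ∧
      ∃ δ, IsLUB (Set.range fun n => (Q n τ).top) δ ∧ δ ≤ q.top ∧ σ (q.g δ) := by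
  classical
  let τ0 : ℕ → Θ → Ω := fun _ _ => Classical.arbitrary Ω
  have hbase : ∀ n (τ τ' : ℕ → Θ → Ω), (Q n τ).top = (Q n τ').top ∧ (Q n τ).g = (Q n τ').g :=
    fun n τ τ' => coh_base (hcoh n) τ τ'
  obtain ⟨b, hb⟩ : ∃ b, ∀ n, (Q n τ0).top < b := by
    let e : ℕ ↪ Λ := Infinite.natEmbedding Λ
    obtain ⟨b, hb⟩ := hbd (fun l => (Q (Function.invFun e l) τ0).top)
    refine ⟨b, fun n => ?_⟩
    have h1 : (Q (Function.invFun e (e n)) τ0).top < b := hb (e n)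
    rwa [Function.leftInverse_invFun e.injective n] at h1
  obtain ⟨δ, hδ⟩ : ∃ δ, IsLUB (Set.range fun n => (Q n τ0).top) δ := by
    have hne : (upperBounds (Set.range fun n => (Q n τ0).top)).Nonempty :=
      ⟨b, by rintro _ ⟨n, rfl⟩; exact (hb n).le⟩
    exact ⟨wellFounded_lt.min _ hne, wellFounded_lt.min_mem _ hne,
      fun x hx => not_lt.1 (wellFounded_lt.not_lt_min _ hx)⟩
  have hδτ : ∀ τ : ℕ → Θ → Ω, IsLUB (Set.range fun n => (Q n τ).top) δ := by
    intro τ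
    have h1 : (fun n => (Q n τ).top) = fun n => (Q n τ0).top :=
      funext fun n => (hbase n τ τ0).1
    rw [h1]
    exact hδ
  have hlt : ∀ n, (Q n τ0).top < δ := fun n =>
    lt_of_lt_of_le (htop n τ0) (hδ.1 ⟨n + 1, rfl⟩)
  let q0 : Cond X Θ K := ⟨δ, fun x => if h : ∃ n, x ≤ (Q n τ0).top then
    (Q (Classical.choose h) τ0).g x else if x = δ then k else k0, ∅, fun _ => ∅⟩
  have hq0g : ∀ n x, x ≤ (Q n τ0).top → q0.g x = (Q n τ0).g x := by
    intro n x hx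
    have h : ∃ n, x ≤ (Q n τ0).top := ⟨n, hx⟩
    have h1 : q0.g x = (Q (Classical.choose h) τ0).g x := by
      change (if h : ∃ n, x ≤ (Q n τ0).top then (Q (Classical.choose h) τ0).g x else
        if x = δ then k else k0) = _
      rw [dif_pos h]
    rw [h1]
    have h2 := Classical.choose_spec h
    rcases le_total (Classical.choose h) n with h3 | h3
    · exact ((dec_le hdec τ0 h3).2.1 x h2).symm
    · exact (dec_le hdec τ0 h3).2.1 x hx
  have hq0n : ∀ x, (¬ ∃ n, x ≤ (Q n τ0).top) → q0.g x = if x = δ then k else k0 := by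
    intro x hx
    change (if h : ∃ n, x ≤ (Q n τ0).top then (Q (Classical.choose h) τ0).g x else
        if x = δ then k else k0) = _
    rw [dif_neg hx]
  have hq0δ : q0.g δ = k := by
    rw [hq0n δ (by rintro ⟨n, hn⟩; exact absurd hn (not_le.2 (hlt n))), if_pos rfl]
  have hq0l : Legal Λ k0 σ N q0 := by
    refine ⟨⟨?_, ?_, ?_, ?_⟩, ?_⟩
    · exact ⟨⟨fun x => x.2.elim, fun x => x.2.elim⟩⟩
    · intro j hj
      exact hj.elim
    · intro j _
      rfl
    · intro x hx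
      have hx' : δ < x := hx
      rw [hq0n x (by rintro ⟨n, hn⟩; exact absurd (hn.trans (hlt n).le) (not_le.2 hx')),
        if_neg (ne_of_gt hx')]
    · intro j hj
      exact hj.elim
  have hq0le : ∀ n, q0 ≤ restr (Q n τ0) ∅ := by
    intro n
    refine ⟨(hlt n).le, fun x hx => hq0g n x hx, ?_, ?_⟩
    · rintro j ⟨_, hj⟩
      exact hj
    · rintro j ⟨_, hj⟩
      exact hj.elim
  have hSg : Nonempty ({i | ∃ n τ, i ∈ (Q n τ).supp} ↪ Λ) := by
    have h1 : ∀ n, Nonempty ((Q n τ0).supp ↪ Λ) := fun n => (hQ n τ0).1.1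
    let e : ∀ n, (Q n τ0).supp ↪ Λ := fun n => Classical.choice (h1 n)
    have h2 : ∀ i : {i | ∃ n τ, i ∈ (Q n τ).supp}, ∃ n, i.1 ∈ (Q n τ0).supp := by
      rintro ⟨i, n, τ, hi⟩
      exact ⟨n, by rw [hsupp n τ0 τ]; exact hi⟩
    choose ν hν using h2
    let en : ℕ ↪ Λ := Infinite.natEmbedding Λ
    have h3 : Cardinal.mk (Λ × Λ) = Cardinal.mk Λ := by
      rw [Cardinal.mk_prod]
      simp only [Cardinal.lift_id]
      exact Cardinal.mul_eq_self (Cardinal.aleph0_le_mk Λ)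
    obtain ⟨eq⟩ := Cardinal.eq.1 h3
    refine ⟨⟨fun i => eq (en (ν i), e (ν i) ⟨i.1, hν i⟩), ?_⟩⟩
    intro i i' h
    have h4 := eq.injective h
    simp only [Prod.mk.injEq] at h4
    obtain ⟨h5, h6⟩ := h4
    have h7 := en.injective h5
    have h8 : ∀ (a b : ℕ) (ha : i.1 ∈ (Q a τ0).supp) (hb : i'.1 ∈ (Q b τ0).supp), a = b →
        e a ⟨i.1, ha⟩ = e b ⟨i'.1, hb⟩ → i.1 = i'.1 := by
      rintro a _ ha hb rfl h
      have h9 := (e a).injective h
      exact congrArg (fun z : (Q a τ0).supp => z.1) h9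
    exact Subtype.ext (h8 _ _ _ _ h7 h6)
  have hinit : Good Λ k0 σ N Q q0 (∅, τ0, q0) := by
    refine ⟨isLowerSet_empty, ?_, hq0l, ?_, le_refl _, hq0le⟩
    · intro j hj
      exact hj.elim
    · intro j hj
      exact hj
  obtain ⟨⟨⟨U, τ, q⟩, hG⟩, hM⟩ := exists_maximal_of_chains_bounded
    (α := {s : Set Θ × (ℕ → Θ → Ω) × Cond X Θ K // Good Λ k0 σ N Q q0 s})
    (r := fun a b => SLe a.1 b.1) (by
      intro c hc
      by_cases hcne : c.Nonempty
      · by_cases hcm : ∃ m ∈ c, ∀ a ∈ c, SLe a.1 m.1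
        · obtain ⟨m, _, hm⟩ := hcm
          exact ⟨m, hm⟩
        · obtain ⟨s, hs1, hs2⟩ := chain_bound (Λ := Λ) (k0 := k0) (σ := σ) (N := N) (q0 := q0)
            hbd hk0 hcoh hSg hsupp (Subtype.val '' c)
            (hcne.image _) (by rintro _ ⟨s, _, rfl⟩; exact s.2) (by
              rintro _ ⟨s, hs, rfl⟩ _ ⟨s', hs', rfl⟩
              by_cases heq : s = s'
              · exact Or.inl (Or.inl (congrArg Subtype.val heq))
              · exact hc hs hs' heq) (by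
              rintro ⟨_, ⟨m, hm, rfl⟩, h⟩
              exact hcm ⟨m, hm, fun a ha => h a.1 ⟨a, ha, rfl⟩⟩) τ0
          exact ⟨⟨s, hs1⟩, fun a ha => hs2 a.1 ⟨a, ha, rfl⟩⟩
      · exact ⟨⟨_, hinit⟩, fun a ha => absurd ⟨a, ha⟩ hcne⟩)
    (fun h h' => SLe.trans h h')
  have hUl : IsLowerSet U := hG.lower
  have hqle : ∀ n, q ≤ restr (Q n τ) U := hG.le
  have hfull : ∀ i, (∃ n τ, i ∈ (Q n τ).supp) → i ∈ U := by
    by_contra hcon
    push Not at hcon
    have hne : {i | (∃ n τ, i ∈ (Q n τ).supp) ∧ i ∉ U}.Nonempty := hcon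
    obtain ⟨i, ⟨hiS, hiU⟩, himin⟩ : ∃ i, ((∃ n τ, i ∈ (Q n τ).supp) ∧ i ∉ U) ∧
        ∀ j, (∃ n τ, j ∈ (Q n τ).supp) → j ∉ U → i ≤ j :=
      ⟨wellFounded_lt.min _ hne, wellFounded_lt.min_mem _ hne, fun j h1 h2 =>
        not_lt.1 (wellFounded_lt.not_lt_min _
          (show j ∈ {i | (∃ n τ, i ∈ (Q n τ).supp) ∧ i ∉ U} from ⟨h1, h2⟩))⟩
    have hUi : ∀ j ∈ U, j < i := by
      intro j hj
      by_contra hc
      exact hiU (hUl (not_lt.1 hc) hj)
    have hqi : q ∈ Lg Λ k0 σ N i := mem_lg.2 ⟨hG.legal, fun j hj => hUi j (hG.supp hj)⟩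
    obtain ⟨q1, hq1, hq1q, A, hA, hcA⟩ : ∃ q1 ∈ Lg Λ k0 σ N i, q1 ≤ q ∧ ∃ A : Set X, A.Countable ∧
        (Covers (Lg Λ k0 σ N i) (N i δ) q1 A ∨ ∀ q' ∈ Lg Λ k0 σ N i, q' ≤ q1 →
          ¬ ∃ A : Set X, A.Countable ∧ Covers (Lg Λ k0 σ N i) (N i δ) q' A) := by
      by_cases h : ∃ q1 ∈ Lg Λ k0 σ N i, q1 ≤ q ∧ ∃ A : Set X, A.Countable ∧
          Covers (Lg Λ k0 σ N i) (N i δ) q1 A
      · obtain ⟨q1, h1, h2, A, h3, h4⟩ := h
        exact ⟨q1, h1, h2, A, h3, Or.inl h4⟩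
      · push Not at h
        refine ⟨q, hqi, le_refl _, ∅, Set.countable_empty, Or.inr ?_⟩
        rintro q' h1 h2 ⟨A, h3, h4⟩
        exact h q' h1 h2 A h3 h4
    let upd : (ℕ → Ω) → ℕ → Θ → Ω := fun o m => Function.update (τ m) i (o m)
    have hupd : ∀ o m j, j ≠ i → upd o m j = τ m j := by
      intro o m j hj
      exact Function.update_of_ne hj _ _
    have hupdi : ∀ o m, upd o m i = o m := by
      intro o m
      exact Function.update_self _ _ _
    obtain ⟨o, ho⟩ := seq_choice (Z := Ω) (fun n o => i ∈ B n → ∀ x, (Q n (upd o)).top < x →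
        x ∈ (Q (n + 1) (upd o)).y i → x ∉ A) (by
          intro n f f' hff hP hiB x hx1 hx2
          have h1 : restr (Q (n + 1) (upd f)) (Set.Iic i) = restr (Q (n + 1) (upd f')) (Set.Iic i) := by
            apply hcoh (n + 1) _ (isLowerSet_Iic i)
            intro m hm j _ _
            by_cases hj : j = i
            · rw [hj, hupdi, hupdi]
              exact hff m (by omega)
            · rw [hupd _ _ _ hj, hupd _ _ _ hj]
          have h2 := y_eq_of_restr h1 (Set.mem_Iic.2 (le_refl i))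
          refine hP hiB x ?_ ?_
          · rw [(hbase n (upd f) (upd f')).1]
            exact hx1
          · rw [h2]
            exact hx2) (by
          intro n f
          by_cases hiB : i ∈ B n
          · obtain ⟨z, hz⟩ := exists_disjoint (Ω := Ω)
              (fun z => {x | (Q n τ0).top < x ∧ x ∈ (Q (n + 1) (upd (Function.update f n z))).y i})
              A hA (by
                rintro z z' hzz x ⟨hx1, hx2⟩ ⟨_, hx3⟩
                refine hdisj n i hiB (upd (Function.update f n z)) (upd (Function.update f n z'))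
                  ?_ ?_ x ?_ hx2 hx3
                · intro m _ j _ hj
                  rw [hupd _ _ _ (ne_of_lt hj), hupd _ _ _ (ne_of_lt hj)]
                · rw [hupdi, hupdi, Function.update_self, Function.update_self]
                  exact hzz
                · rw [(hbase n _ τ0).1]
                  exact hx1)
            refine ⟨z, fun _ x hx1 hx2 => hz x ⟨?_, hx2⟩⟩
            rw [(hbase n τ0 (upd (Function.update f n z))).1]
            exact hx1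
          · exact ⟨Classical.arbitrary Ω, fun h => absurd h hiB⟩)
    have hagree : ∀ m, ∀ j ∈ U, τ m j = upd o m j := fun m j hj =>
      (hupd o m j (ne_of_lt (hUi j hj))).symm
    have hq1le : ∀ n, q1 ≤ restr (Q n (upd o)) (Set.Iio i) := by
      intro n
      have h1 : restr (Q n τ) U = restr (Q n (upd o)) U :=
        hcoh n U hUl _ _ (fun m _ j _ hj => hagree m j hj)
      have h2 : restr (Q n (upd o)) U = restr (Q n (upd o)) (Set.Iio i) := by
        apply restr_congr_supp (hQ n (upd o)).1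
        intro j hj
        constructor
        · intro h
          exact hUi j h
        · intro h
          by_contra hc
          exact absurd h (not_lt.2 (himin j ⟨n, _, hj⟩ hc))
      rw [← h2, ← h1]
      exact le_trans hq1q (hqle n)
    have hiB : ∃ m, i ∈ B m := by
      obtain ⟨n, τ1, h⟩ := hiS
      exact hcov n τ1 i h
    have hq1q0 : q1 ≤ q0 := le_trans hq1q hG.le0
    obtain ⟨q', h1, h2, h3, h4⟩ := new_cond hQ hdec hsupp htop hB hBs (hδτ (upd o)) hiB hq1 hq1le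
      hq1q0.1 hA hcA ho
    have hG' : Good Λ k0 σ N Q q0 (Set.Iic i, upd o, q') := by
      refine ⟨isLowerSet_Iic i, ?_, h1, h3, le_trans h2 hq1q0, h4⟩
      intro j hj
      exact ⟨i, Set.mem_Iic.2 (le_refl i), hiS, hj⟩
    have hS : SLe (Set.Iic i, upd o, q') (U, τ, q) := by
      refine hM ⟨_, hG'⟩ (Or.inr ⟨⟨fun j hj => (hUi j hj).le, fun h => hiU (h (le_refl i))⟩,
        hagree, le_trans h2 hq1q⟩)
    rcases hS with h | h
    · have h5 : Set.Iic i = U := congrArg Prod.fst h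
      exact hiU (by rw [← h5]; exact Set.mem_Iic.2 (le_refl i))
    · exact hiU (h.1.1 (Set.mem_Iic.2 (le_refl i)))
  have hle0 : q ≤ q0 := hG.le0
  refine ⟨τ, q, hG.legal, ?_, δ, hδτ τ, hle0.1, ?_⟩
  · intro n
    have h1 := hqle n
    rwa [restr_eq_self (hQ n τ).1 (fun j hj => hfull j ⟨n, τ, hj⟩)] at h1
  · have h1 : q.g δ = q0.g δ := hle0.2.1 δ (le_refl δ)
    rw [h1, hq0δ]
    exact hk

end Pool.Agent.Helper539.LadBranch
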