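import Mathlib

/-!
# Small sets closed under operations
-/

namespace Pool.Agent.Helper539.LadClos

open Cardinal

universe u

/-- Arity of the constructors. -/
def Ar (Λ D : Type u) : Option (D × Λ) → Type u
  | none => PEmpty
  | some _ => Λ

/-- Evaluation. -/
def ev {Λ Θ D : Type u} (θ0 : Θ) (F : D → (Λ → Θ) → Λ → Θ) : WType (Ar Λ D) → Θ
  | ⟨none, _⟩ => θ0
  | ⟨some (d, l), f⟩ => F d (fun x => ev θ0 F (f x)) l

/-- Closing off a set under `|D|` many operations with `Λ` arguments and `Λ` values, where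
`|D| ≤ μ = μ ^ |Λ|`: the result has cardinality at most `μ`. -/
theorem closure_small {Λ Θ D M : Type u} [Infinite Λ] (hD : #D ≤ #M) (hM : #M ^ #Λ = #M)
    (hM2 : 2 ≤ #M) (θ0 : Θ) (F : D → (Λ → Θ) → Λ → Θ) :
    ∃ A : Set Θ, θ0 ∈ A ∧ #A ≤ #M ∧ ∀ d c, (∀ l, c l ∈ A) → ∀ l, F d c l ∈ A := by
  refine ⟨Set.range (ev θ0 F), ⟨⟨none, fun x => x.elim⟩, ?_⟩, ?_, ?_⟩
  · simp [ev]
  · refine Cardinal.mk_range_le.trans ?_
    have hLam : #Λ < #M := by
      calc #Λ < 2 ^ #Λ := Cardinal.cantor _
        _ ≤ #M ^ #Λ := Cardinal.power_le_power_right hM2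
        _ = #M := hM
    have hinf : ℵ₀ ≤ #M := (Cardinal.aleph0_le_mk Λ).trans hLam.le
    apply WType.cardinalMk_le_of_le
    rw [show (Cardinal.sum fun a : Option (D × Λ) => #M ^ #(Ar Λ D a)) =
      #((a : Option (D × Λ)) × (Ar Λ D a → M)) from by simp [Cardinal.mk_sigma]]
    have hcard : #(Option (D × Λ)) ≤ #M := by
      rw [Cardinal.mk_option, Cardinal.mk_prod, Cardinal.lift_id, Cardinal.lift_id]
      exact Cardinal.add_le_of_le hinf (Cardinal.mul_le_of_le hinf hD hLam.le)
        (Cardinal.one_le_aleph0.trans hinf)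
    rw [Cardinal.mk_sigma]
    refine (Cardinal.sum_le_sum _ (fun _ => #M) ?_).trans ?_
    · intro a
      rcases a with _ | a
      · have : #(Ar Λ D none → M) = 1 := by
          have hU : Unique (Ar Λ D none → M) := by
            unfold Ar
            infer_instance
          exact Cardinal.mk_eq_one _
        rw [this]
        exact Cardinal.one_le_aleph0.trans hinf
      · have : #(Ar Λ D (some a) → M) = #M ^ #Λ := by
          show #(Λ → M) = _
          simp
        rw [this, hM]
    · rw [Cardinal.sum_const, Cardinal.lift_id, Cardinal.lift_id]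
      exact Cardinal.mul_le_of_le hinf hcard le_rfl
  · intro d c hc l
    choose f hf using hc
    refine ⟨⟨some (d, l), f⟩, ?_⟩
    simp only [ev]
    congr 1
    funext x
    exact hf x

end Pool.Agent.Helper539.LadClos
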