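import Mathlib
import Pool.Agent.Helper539.LadUn
import Pool.Agent.Helper539.LadClos

/-!
# The chain condition
-/

namespace Pool.Agent.Helper539.LadCC

open Cardinal Pool.Agent.Helper539.LadIter Pool.Agent.Helper539.LadBasic
  Pool.Agent.Helper539.LadUn Pool.Agent.Helper539.LadClos

universe u

variable {X Θ K : Type u} [LinearOrder X] [LinearOrder Θ] [WellFoundedLT Θ]
  {Λ : Type u} {k0 : K} {σ : K → Prop} {N : Θ → X → X → Set (Cond X Θ K)}


/-- code of a function on `Iic x` -/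
noncomputable def antichains_small_gc (k0 : K) (e : ∀ x : X, Set.Iic x ↪ Λ) (x : X) (g : X → K) :
    Λ → K :=
  Function.extend (fun w : Set.Iic x => e x w) (fun w => g w) (fun _ => k0)

/-- code of a subset of `Iic x` -/
def antichains_small_yc (e : ∀ x : X, Set.Iic x ↪ Λ) (x : X) (s : Set X) : Set Λ :=
  {l | ∃ w : Set.Iic x, w.1 ∈ s ∧ e x w = l}

theorem antichains_small_gc_inj (e : ∀ x : X, Set.Iic x ↪ Λ) (x : X) (g g' : X → K)
    (h : antichains_small_gc k0 e x g = antichains_small_gc k0 e x g')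
    (h1 : ∀ w, x < w → g w = k0) (h2 : ∀ w, x < w → g' w = k0) : g = g' := by
  funext w
  rcases le_or_gt w x with hw | hw
  · have h3 := congrFun h (e x ⟨w, hw⟩)
    unfold antichains_small_gc at h3
    have hinj : Function.Injective (fun w : Set.Iic x => e x w) := (e x).injective
    have h4 : ∀ f : X → K, Function.extend (fun w : Set.Iic x => e x w)
        (fun w => f w) (fun _ => k0) (e x ⟨w, hw⟩) = f w := fun f =>
      hinj.extend_apply (fun w : Set.Iic x => f w) (fun _ => k0) ⟨w, hw⟩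
    rwa [h4, h4] at h3
  · rw [h1 w hw, h2 w hw]

theorem antichains_small_yc_inj (e : ∀ x : X, Set.Iic x ↪ Λ) (x : X) (s s' : Set X)
    (h : antichains_small_yc e x s = antichains_small_yc e x s')
    (h1 : ∀ w ∈ s, w ≤ x) (h2 : ∀ w ∈ s', w ≤ x) : s = s' := by
  have key : ∀ t t' : Set X, antichains_small_yc e x t = antichains_small_yc e x t' →
      (∀ w ∈ t, w ≤ x) → t ⊆ t' := by
    intro t t' htt ht w hw
    have h3 : e x ⟨w, ht w hw⟩ ∈ antichains_small_yc e x t := ⟨⟨w, ht w hw⟩, hw, rfl⟩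
    rw [htt] at h3
    obtain ⟨w', hw', he⟩ := h3
    have := (e x).injective he
    rw [this] at hw'
    exact hw'
  exact Set.Subset.antisymm (key s s' h h1) (key s' s h.symm h2)

open Classical in
/-- an enumeration of a set by `Λ` -/
noncomputable def antichains_small_en (Λ : Type u) (θ0 : Θ) (S : Set Θ) : Λ → Θ :=
  if h : Nonempty (S ↪ Λ) then Function.extend (fun s : S => h.some s) (fun s => s.1) (fun _ => θ0)
  else fun _ => θ0

theorem antichains_small_en_mem (θ0 : Θ) (S : Set Θ) (h : Nonempty (S ↪ Λ)) (j : Θ) (hj : j ∈ S) :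
    ∃ l, antichains_small_en Λ θ0 S l = j := by
  refine ⟨h.some ⟨j, hj⟩, ?_⟩
  unfold antichains_small_en
  rw [dif_pos h]
  have hinj : Function.Injective (fun s : S => h.some s) := h.some.injective
  exact hinj.extend_apply (fun s : S => s.1) (fun _ => θ0) ⟨j, hj⟩

/-- the relation searched for -/
def antichains_small_P {A' : Type u} (k0 : K) (e : ∀ x : X, Set.Iic x ↪ Λ)
    (Z : A' → Set (Cond X Θ K)) (d : A' × X × (Λ → K) × (Λ → Set Λ) × Set Λ) (c : Λ → Θ)
    (z : Cond X Θ K) : Prop :=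
  z ∈ Z d.1 ∧ z.top = d.2.1 ∧ antichains_small_gc k0 e d.2.1 z.g = d.2.2.1 ∧
    ∀ l ∈ d.2.2.2.2, c l ∈ z.supp ∧ antichains_small_yc e d.2.1 (z.y (c l)) = d.2.2.2.1 l

open Classical in
/-- the operations -/
noncomputable def antichains_small_F {A' : Type u} (k0 : K) (e : ∀ x : X, Set.Iic x ↪ Λ)
    (Z : A' → Set (Cond X Θ K)) (θ0 : Θ) (d : A' × X × (Λ → K) × (Λ → Set Λ) × Set Λ)
    (c : Λ → Θ) : Λ → Θ :=
  if h : ∃ z, antichains_small_P k0 e Z d c z then antichains_small_en Λ θ0 (Classical.choose h).supp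
  else fun _ => θ0

theorem antichains_small_card {M A' : Type u} [Infinite Λ]
    (hM : #M ^ #Λ = #M) (hM2 : 2 ≤ #M) (hX : #X ≤ #M) (hK : #K ≤ #M) (hA : #A' ≤ #M) :
    #(A' × X × (Λ → K) × (Λ → Set Λ) × Set Λ) ≤ #M := by
  have h1 : (2 : Cardinal) ^ #Λ ≤ #M := by
    calc (2 : Cardinal) ^ #Λ ≤ #M ^ #Λ := Cardinal.power_le_power_right hM2
      _ = #M := hM
  have hinf : ℵ₀ ≤ #M := by
    calc ℵ₀ ≤ #Λ := Cardinal.aleph0_le_mk Λ
      _ ≤ 2 ^ #Λ := (Cardinal.cantor _).le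
      _ ≤ #M := h1
  have h2 : #(Λ → K) ≤ #M := by
    rw [← Cardinal.power_def]
    calc #K ^ #Λ ≤ #M ^ #Λ := Cardinal.power_le_power_right hK
      _ = #M := hM
  have h3 : #(Set Λ) ≤ #M := by rw [Cardinal.mk_set]; exact h1
  have h4 : #(Λ → Set Λ) ≤ #M := by
    rw [← Cardinal.power_def]
    calc #(Set Λ) ^ #Λ ≤ #M ^ #Λ := Cardinal.power_le_power_right h3
      _ = #M := hM
  simp only [Cardinal.mk_prod, Cardinal.lift_id]
  exact Cardinal.mul_le_of_le hinf hA (Cardinal.mul_le_of_le hinf hX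
    (Cardinal.mul_le_of_le hinf h2 (Cardinal.mul_le_of_le hinf h4 h3)))

/-- The chain condition, in the form: families of antichains have small supports. -/
theorem antichains_small {M A' : Type u} [Infinite Λ] [Nonempty Θ]
    (hle : ∀ x : X, Nonempty (Set.Iic x ↪ Λ))
    (hM : #M ^ #Λ = #M) (hM2 : 2 ≤ #M) (hX : #X ≤ #M) (hK : #K ≤ #M) (hA : #A' ≤ #M)
    (Z : A' → Set (Cond X Θ K)) (hZ : ∀ a, ∀ z ∈ Z a, Legal Λ k0 σ N z)
    (hanti : ∀ a, ∀ z ∈ Z a, ∀ z' ∈ Z a, (∃ u, Legal Λ k0 σ N u ∧ u ≤ z ∧ u ≤ z') → z = z') :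
    ∃ V : Set Θ, #V ≤ #M ∧ ∀ a, ∀ z ∈ Z a, z.supp ⊆ V := by
  classical
  let e : ∀ x : X, Set.Iic x ↪ Λ := fun x => (hle x).some
  obtain ⟨θ0⟩ := (inferInstance : Nonempty Θ)
  obtain ⟨V, hV0, hVM, hVF⟩ := closure_small (Λ := Λ) (M := M)
    (antichains_small_card (Λ := Λ) hM hM2 hX hK hA) hM hM2 θ0
    (antichains_small_F k0 e Z θ0)
  refine ⟨V, hVM, fun a z hz => ?_⟩
  obtain ⟨ι⟩ := (hZ a z hz).1.1
  let c : Λ → Θ := fun l =>
    if h : ∃ j : z.supp, ι j = l ∧ j.1 ∈ V then (Classical.choose h).1 else θ0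
  let U : Set Λ := {l | ∃ j : z.supp, ι j = l ∧ j.1 ∈ V}
  have hcV : ∀ l, c l ∈ V := by
    intro l
    by_cases h : ∃ j : z.supp, ι j = l ∧ j.1 ∈ V
    · have : c l = (Classical.choose h).1 := dif_pos h
      rw [this]
      exact (Classical.choose_spec h).2
    · have : c l = θ0 := dif_neg h
      rw [this]
      exact hV0
  have hcj : ∀ j : z.supp, j.1 ∈ V → c (ι j) = j.1 := by
    intro j hj
    have h : ∃ j' : z.supp, ι j' = ι j ∧ j'.1 ∈ V := ⟨j, rfl, hj⟩
    have h1 : c (ι j) = (Classical.choose h).1 := dif_pos h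
    rw [h1, ι.injective (Classical.choose_spec h).1]
  have hcU : ∀ l ∈ U, c l ∈ z.supp := by
    rintro l ⟨j, hjl, hjV⟩
    rw [← hjl, hcj j hjV]
    exact j.2
  let d : A' × X × (Λ → K) × (Λ → Set Λ) × Set Λ :=
    (a, z.top, antichains_small_gc k0 e z.top z.g,
      fun l => antichains_small_yc e z.top (z.y (c l)), U)
  have hP : antichains_small_P k0 e Z d c z :=
    ⟨hz, rfl, rfl, fun l hl => ⟨hcU l hl, rfl⟩⟩
  have hex : ∃ z', antichains_small_P k0 e Z d c z' := ⟨z, hP⟩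
  obtain ⟨w1, w2, w3, w4⟩ := Classical.choose_spec hex
  have hFe : antichains_small_F k0 e Z θ0 d c =
      antichains_small_en Λ θ0 (Classical.choose hex).supp := dif_pos hex
  have hFV := hVF d c hcV
  rw [hFe] at hFV
  generalize Classical.choose hex = z' at w1 w2 w3 w4 hFV
  have hL := hZ a z hz
  have hL' := hZ a z' w1
  have hsub : z'.supp ⊆ V := by
    intro j hj
    obtain ⟨l, hl⟩ := antichains_small_en_mem (Λ := Λ) θ0 z'.supp hL'.1.1 j hj
    rw [← hl]
    exact hFV l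
  have htop : z.top = z'.top := w2.symm
  have hg : z.g = z'.g := by
    refine antichains_small_gc_inj (k0 := k0) e z.top z.g z'.g w3.symm hL.1.2.2.2 ?_
    rw [htop]
    exact hL'.1.2.2.2
  have hy : ∀ j ∈ z.supp, j ∈ z'.supp → z.y j = z'.y j := by
    intro j hj hj'
    have hjV : j ∈ V := hsub hj'
    have h5 := (w4 (ι ⟨j, hj⟩) ⟨⟨j, hj⟩, rfl, hjV⟩).2
    have h6 : c (ι ⟨j, hj⟩) = j := hcj ⟨j, hj⟩ hjV
    have h7 : antichains_small_yc e z.top (z'.y j) = antichains_small_yc e z.top (z.y j) := by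
      have h8 : antichains_small_yc e z.top (z'.y (c (ι ⟨j, hj⟩))) =
        antichains_small_yc e z.top (z.y (c (ι ⟨j, hj⟩))) := h5
      rwa [h6] at h8
    refine antichains_small_yc_inj e z.top _ _ h7.symm (fun w hw => hL.1.2.1 j hj w hw) ?_
    rw [htop]
    exact fun w hw => hL'.1.2.1 j hj' w hw
  obtain ⟨u1, u2, u3⟩ := union_spec hL hL' htop hg hy
  have hzz : z = z' := hanti a z hz z' w1 ⟨_, u1, u2, u3⟩
  rw [hzz]
  exact hsub

end Pool.Agent.Helper539.LadCC
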