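import Mathlib

/-!
# The forcing relation

A sentence of the forcing language of a preordered set `P` of conditions is represented by the
set of the conditions which force it. Negation, conjunction and universal quantification are the
primitive connectives, with their usual forcing clauses; the other connectives are defined from
them classically. A name for a subset of a ground model set `X` is a map sending `x : X` to the
set of the conditions attached to `x`. (Following the library of helper669.)
-/

namespace Pool.Agent.Helper539.SPForcing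

universe u v w

section

variable {P : Type u} [Preorder P]

/-- `p` forces `not φ` iff no `q ≤ p` forces `φ`. -/
def fnot (φ : Set P) : Set P := {p | ∀ q ≤ p, q ∉ φ}

/-- `p` forces `φ and ψ` iff it forces both. -/
def fand (φ ψ : Set P) : Set P := {p | p ∈ φ ∧ p ∈ ψ}

/-- `p` forces `for all i, φ i` iff it forces every `φ i`. -/
def fall {ι : Sort v} (φ : ι → Set P) : Set P := {p | ∀ i, p ∈ φ i}

/-- `φ implies ψ` is `not (φ and not ψ)`. -/
def fimp (φ ψ : Set P) : Set P := fnot (fand φ (fnot ψ))

/-- `φ or ψ` is `not (not φ and not ψ)`. -/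
def for' (φ ψ : Set P) : Set P := fnot (fand (fnot φ) (fnot ψ))

/-- `there is i with φ i` is `not for all i, not φ i`. -/
def fex {ι : Sort v} (φ : ι → Set P) : Set P := fnot (fall fun i => fnot (φ i))

/-- An absolute statement about ground model objects. -/
def fground (h : Prop) : Set P := {_p | h}

/-- `p` forces that the generic filter meets the set `N` of conditions:
the set of `r` lying below some member of `N` is dense below `p`. -/
def meets (N : Set P) : Set P := {p | ∀ q ≤ p, ∃ r ≤ q, ∃ s ∈ N, r ≤ s}

/-- The relation named by `R` is a function from `X` to `Y`. -/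
def IsFun {X : Type v} {Y : Type w} (R : X → Y → Set P) : Set P :=
  fand (fall fun x => fex fun y => meets (R x y))
    (fall fun x => fall fun y => fall fun y' =>
      fimp (fand (meets (R x y)) (meets (R x y'))) (fground (y = y')))

/-- The relation named by `R` is injective. -/
def IsInj {X : Type v} {Y : Type w} (R : X → Y → Set P) : Set P :=
  fall fun x => fall fun x' => fall fun y =>
    fimp (fand (meets (R x y)) (meets (R x' y))) (fground (x = x'))

/-- The relation named by `R` is onto `Y`. -/
def IsOnto {X : Type v} {Y : Type w} (R : X → Y → Set P) : Set P :=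
  fall fun y => fex fun x => meets (R x y)

/-- The subset of `X` named by `A` has the same cardinality as `X`:
some injective function from `X` to `X` takes all its values in `A`. -/
def HasFullSize {X : Type v} (A : X → Set P) : Set P :=
  fex fun R : X → X → Set P =>
    fand (IsFun R) (fand (IsInj R)
      (fall fun x => fall fun y => fimp (meets (R x y)) (meets (A y))))

/-- The strong polarized relation (for all `c : X × Y → 2` there are `A ⊆ X` and `B ⊆ Y`
with `|A| = |X|`, `|B| = |Y|` and `c` constant on `A × B`) in the generic extension.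
The colouring is given by the set `{(x, y) : c (x, y) = 1}`. -/
def Polarized (P : Type u) [Preorder P] (X : Type v) (Y : Type w) : Set P :=
  fall fun c : X → Y → Set P =>
    fex fun A : X → Set P => fex fun B : Y → Set P =>
      fand (HasFullSize A) (fand (HasFullSize B)
        (for'
          (fall fun x => fall fun y => fimp (fand (meets (A x)) (meets (B y))) (meets (c x y)))
          (fall fun x => fall fun y =>
            fimp (fand (meets (A x)) (meets (B y))) (fnot (meets (c x y))))))

/-- The named set `x` of natural numbers is infinite. -/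
def InfSet (x : ℕ → Set P) : Set P :=
  fall fun N : ℕ => fex fun k : ℕ => fand (fground (N ≤ k)) (meets (x k))

/-- `s` splits `x`: both `x ∩ s` and `x \ s` are infinite. -/
def FSplits (s x : ℕ → Set P) : Set P :=
  fand
    (fall fun N : ℕ => fex fun k : ℕ => fand (fground (N ≤ k)) (fand (meets (x k)) (meets (s k))))
    (fall fun N : ℕ => fex fun k : ℕ =>
      fand (fground (N ≤ k)) (fand (meets (x k)) (fnot (meets (s k)))))

/-- In the extension there is a splitting family indexed by `Y`: a family of sets of natural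
numbers such that every infinite set of natural numbers is split by some member. -/
def HasSplittingFamily (P : Type u) [Preorder P] (Y : Type v) : Set P :=
  fex fun S : Y → ℕ → Set P =>
    fall fun x : ℕ → Set P => fimp (InfSet x) (fex fun y => FSplits (S y) x)

/-- In the extension the well-ordered set `X` has order type `ω₁`: it is uncountable (no function
from `ℕ` to `X` is onto) and all its initial segments `{b | b ≤ a}` are countable (images of
functions on `ℕ`). -/
def IsOmegaOne (P : Type u) [Preorder P] (X : Type v) [LinearOrder X] : Set P :=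
  fand (fnot (fex fun R : ℕ → X → Set P => fand (IsFun R) (IsOnto R)))
    (fall fun a : X => fex fun R : ℕ → Set.Iic a → Set P => fand (IsFun R) (IsOnto R))

end

/-! ### General facts -/

section

variable {P : Type u} [Preorder P]

theorem mem_fex {ι : Sort v} {φ : ι → Set P} {p : P} :
    p ∈ fex φ ↔ ∀ q ≤ p, ∃ r ≤ q, ∃ i, r ∈ φ i := by
  simp only [fex, fnot, fall, Set.mem_ofPred_eq, not_forall, not_not]
  constructor
  · intro h q hq
    obtain ⟨i, r, hr, h'⟩ := h q hq
    exact ⟨r, hr, i, h'⟩
  · intro h q hq
    obtain ⟨r, hr, i, h'⟩ := h q hq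
    exact ⟨i, r, hr, h'⟩

theorem mem_fimp {φ ψ : Set P} {p : P} :
    p ∈ fimp φ ψ ↔ ∀ q ≤ p, q ∈ φ → ∃ r ≤ q, r ∈ ψ := by
  simp only [fimp, fnot, fand, Set.mem_ofPred_eq, not_and, not_forall, not_not]
  constructor
  · intro h q hq h'
    obtain ⟨r, hr, h''⟩ := h q hq h'
    exact ⟨r, hr, h''⟩
  · intro h q hq h'
    obtain ⟨r, hr, h''⟩ := h q hq h'
    exact ⟨r, hr, h''⟩

theorem mem_for {φ ψ : Set P} {p : P} :
    p ∈ for' φ ψ ↔ ∀ q ≤ p, ∃ r ≤ q, r ∈ φ ∨ r ∈ ψ := by
  simp only [for', fnot, fand, Set.mem_ofPred_eq, not_and_or, not_forall, not_not]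
  constructor
  · intro h q hq
    rcases h q hq with ⟨r, hr, h'⟩ | ⟨r, hr, h'⟩
    · exact ⟨r, hr, Or.inl h'⟩
    · exact ⟨r, hr, Or.inr h'⟩
  · intro h q hq
    obtain ⟨r, hr, h' | h'⟩ := h q hq
    · exact Or.inl ⟨r, hr, h'⟩
    · exact Or.inr ⟨r, hr, h'⟩

theorem mem_fand {φ ψ : Set P} {p : P} : p ∈ fand φ ψ ↔ p ∈ φ ∧ p ∈ ψ := Iff.rfl

theorem mem_fall {ι : Sort v} {φ : ι → Set P} {p : P} : p ∈ fall φ ↔ ∀ i, p ∈ φ i := Iff.rfl

theorem mem_fground {h : Prop} {p : P} : p ∈ fground (P := P) h ↔ h := Iff.rfl

/-- The statement `φ` is preserved by passing to stronger conditions. -/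
def Down (φ : Set P) : Prop := ∀ p ∈ φ, ∀ q ≤ p, q ∈ φ

theorem down_fnot (φ : Set P) : Down (fnot φ) :=
  fun _ hp _ hq r hr => hp r (hr.trans hq)

theorem down_fand {φ ψ : Set P} (h : Down φ) (h' : Down ψ) : Down (fand φ ψ) :=
  fun _ hp _ hq => ⟨h _ hp.1 _ hq, h' _ hp.2 _ hq⟩

theorem down_fall {ι : Sort v} {φ : ι → Set P} (h : ∀ i, Down (φ i)) : Down (fall φ) :=
  fun _ hp _ hq i => h i _ (hp i) _ hq

theorem down_fex {ι : Sort v} (φ : ι → Set P) : Down (fex φ) := down_fnot _

theorem down_for (φ ψ : Set P) : Down (for' φ ψ) := down_fnot _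

theorem down_fimp (φ ψ : Set P) : Down (fimp φ ψ) := down_fnot _

theorem down_fground (h : Prop) : Down (fground (P := P) h) := fun _ hp _ _ => hp

theorem down_meets (N : Set P) : Down (meets N) :=
  fun _ hp _ hq r hr => hp r (hr.trans hq)

theorem down_IsFun {X : Type v} {Y : Type w} (R : X → Y → Set P) : Down (IsFun R) :=
  down_fand (down_fall fun _ => down_fex _)
    (down_fall fun _ => down_fall fun _ => down_fall fun _ => down_fimp _ _)

theorem down_IsInj {X : Type v} {Y : Type w} (R : X → Y → Set P) : Down (IsInj R) :=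
  down_fall fun _ => down_fall fun _ => down_fall fun _ => down_fimp _ _

theorem down_IsOnto {X : Type v} {Y : Type w} (R : X → Y → Set P) : Down (IsOnto R) :=
  down_fall fun _ => down_fex _

theorem down_HasFullSize {X : Type v} (A : X → Set P) : Down (HasFullSize A) := down_fex _

theorem down_InfSet (x : ℕ → Set P) : Down (InfSet x) := down_fall fun _ => down_fex _

theorem down_FSplits (s x : ℕ → Set P) : Down (FSplits s x) :=
  down_fand (down_fall fun _ => down_fex _) (down_fall fun _ => down_fex _)

theorem mem_fex_of_mem {ι : Sort v} {φ : ι → Set P} {p : P} (i : ι) (hd : Down (φ i))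
    (h : p ∈ φ i) : p ∈ fex φ :=
  mem_fex.2 fun q hq => ⟨q, le_rfl, i, hd _ h _ hq⟩

theorem meets_of_mem {N : Set P} {p : P} (h : p ∈ N) : p ∈ meets N :=
  fun q hq => ⟨q, le_rfl, p, h, hq⟩

theorem meets_of_le {N : Set P} {p s : P} (hs : s ∈ N) (h : p ≤ s) : p ∈ meets N :=
  fun q hq => ⟨q, le_rfl, s, hs, hq.trans h⟩

theorem meets_of_dense {N : Set P} {p : P} (h : ∀ q ≤ p, ∃ r ≤ q, r ∈ meets N) : p ∈ meets N := by
  intro q hq
  obtain ⟨r, hr, h'⟩ := h q hq
  obtain ⟨r', hr', s, hs, hle⟩ := h' r le_rfl
  exact ⟨r', hr'.trans hr, s, hs, hle⟩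

/-- for a set closed downwards -/
theorem exists_of_meets {N : Set P} (hN : Down N) {p : P} (h : p ∈ meets N) :
    ∃ q ≤ p, q ∈ N := by
  obtain ⟨r, hr, s, hs, hle⟩ := h p le_rfl
  exact ⟨r, hr, hN s hs r hle⟩

theorem IsFun.total {X : Type v} {Y : Type w} {R : X → Y → Set P} {p : P} (h : p ∈ IsFun R)
    (x : X) : ∃ q ≤ p, ∃ y, q ∈ meets (R x y) := mem_fex.1 (h.1 x) p le_rfl

theorem IsFun.unique {X : Type v} {Y : Type w} {R : X → Y → Set P} {p : P} (h : p ∈ IsFun R)
    {x : X} {y y' : Y} (h1 : p ∈ meets (R x y)) (h2 : p ∈ meets (R x y')) : y = y' := by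
  obtain ⟨r, _, hr⟩ := mem_fimp.1 (h.2 x y y') p le_rfl ⟨h1, h2⟩
  exact hr

end

end Pool.Agent.Helper539.SPForcing
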