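import Mathlib
import Pool.Agent.Helper539.SPForcing

/-!
# Ladder systems and pair guessing: ground model notions and forced statements

Everything is relative to well-ordered sets of the ground model: `X` (of order type `λ⁺` in the
applications), `I` (of order type `cf λ`) and `Λ` (of order type `λ`).
-/

namespace Pool.Agent.Helper539.LadDefs

open Pool.Agent.Helper539.SPForcing

universe u v w z

/-! ### Ground model notions -/

section Ground

variable {X : Type v} [LinearOrder X]

/-- `C` is unbounded in the well-ordered set `X`. -/
def Unbounded (C : Set X) : Prop := ∀ b : X, ∃ c ∈ C, b < c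

/-- `C` is closed in `X`: if `d` is not the least element of `X` and the elements of `C` below `d`
are unbounded in `d`, then `d` is in `C`. -/
def Closed (C : Set X) : Prop :=
  ∀ d : X, (∃ b, b < d) → (∀ b < d, ∃ c ∈ C, b < c ∧ c < d) → d ∈ C

/-- closed unbounded subsets of `X` -/
def Club (C : Set X) : Prop := Unbounded C ∧ Closed C

/-- `S` is stationary in `X`. -/
def Stationary (S : Set X) : Prop := ∀ C : Set X, Club C → ∃ a ∈ S, a ∈ C

/-- The principle `♦_S`: there is `⟨D_a : a ∈ S⟩` with `D_a ⊆ a` such that for every `Z ⊆ X` the
set of the `a ∈ S` with `Z ∩ a = D_a` is stationary. -/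
def Diamond (S : Set X) : Prop :=
  ∃ D : X → Set X, ∀ Z : Set X, Stationary {a ∈ S | ∀ b < a, b ∈ Z ↔ b ∈ D a}

/-- The principle `♣⁻_S` (for sets of cardinality at most `|I|`): there is `⟨A_a : a ∈ S⟩` with
`|A_a| ≤ |I|` such that for every unbounded `Y ⊆ X` the set of the `a ∈ S` with
`sup (Y ∩ A_a ∩ a) = a` is stationary. -/
def ClubMinus (I : Type w) (S : Set X) : Prop :=
  ∃ A : X → Set X, (∀ a ∈ S, A a = ∅ ∨ ∃ g : I → X, A a ⊆ Set.range g) ∧
    ∀ Y : Set X, Unbounded Y → Stationary {a ∈ S | ∀ c < a, ∃ b ∈ Y, b ∈ A a ∧ c < b ∧ b < a}

end Ground

/-! ### Cohen forcing -/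

/-- The finite partial functions from `J` to `{0, 1}` (the values outside the finite domain
`dom` do not matter). -/
structure Fn (J : Type u) where
  /-- the domain -/
  dom : Finset J
  /-- the values -/
  val : J → Bool

/-- `p` is stronger than `q` if it extends `q`. -/
instance instPreorderFn (J : Type u) : Preorder (Fn J) where
  le p q := q.dom ⊆ p.dom ∧ ∀ j ∈ q.dom, p.val j = q.val j
  le_refl p := ⟨subset_rfl, fun _ _ => rfl⟩
  le_trans p q r h h' := ⟨h'.1.trans h.1, fun j hj => (h.2 j (h'.1 hj)).trans (h'.2 j hj)⟩

/-! ### Forced statements -/

section Forced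

variable {P : Type u} [Preorder P] {X : Type v} [LinearOrder X]

/-- `φ ↔ ψ` -/
def fiff (φ ψ : Set P) : Set P := fand (fimp φ ψ) (fimp ψ φ)

/-- `C` is an unbounded subset of `X`. -/
def FUnbounded (C : X → Set P) : Set P :=
  fall fun b : X => fex fun c : X => fand (fground (b < c)) (meets (C c))

/-- `C` is a closed subset of `X`. -/
def FClosed (C : X → Set P) : Set P :=
  fall fun d : X => fimp
    (fand (fground (∃ b, b < d))
      (fall fun b : X => fimp (fground (b < d))
        (fex fun c : X => fand (fground (b < c ∧ c < d)) (meets (C c)))))
    (meets (C d))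

/-- `C` is a closed unbounded subset of `X`. -/
def FClub (C : X → Set P) : Set P := fand (FUnbounded C) (FClosed C)

/-- The ground model set `S` is a stationary subset of `X` in the extension. -/
def FStationary (P : Type u) [Preorder P] (S : Set X) : Set P :=
  fall fun C : X → Set P => fimp (FClub C) (fex fun a : S => meets (C a))

/-- The function `g : A → X` is strictly increasing, with values below `a` and unbounded in `a`:
its range is a cofinal subset of `a` whose increasing enumeration is `g`. -/
def FLadder {I : Type w} [LinearOrder I] (a : X) (g : I → X → Set P) : Set P :=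
  fand (IsFun g)
    (fand (fall fun i : I => fall fun j : I => fall fun x : X => fall fun y : X =>
      fimp (fand (fground (i < j)) (fand (meets (g i x)) (meets (g j y)))) (fground (x < y)))
    (fand (fall fun i : I => fall fun x : X => fimp (meets (g i x)) (fground (x < a)))
      (fall fun b : X => fimp (fground (b < a))
        (fex fun i : I => fex fun x : X => fand (meets (g i x)) (fground (b < x))))))

/-- The function `f` takes the same value at the members `ev i` and `od i` of the ladder `g`,
for all `i`. -/
def FPairConstant {I : Type w} {M : Type z} (ev od : I → I) (f : X → M → Set P)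
    (g : I → X → Set P) : Set P :=
  fall fun i : I => fall fun x : X => fall fun y : X =>
    fimp (fand (meets (g (ev i) x)) (meets (g (od i) y)))
      (fall fun m : M => fiff (meets (f x m)) (meets (f y m)))

/-- No ladder system on `S` is pair-guessing for `M`-valued functions: for every sequence of
ladders `L a` (`a ∈ S`) there are a function `f : X → M` and a closed unbounded `C ⊆ X` such
that for every `a ∈ S ∩ C` the function `f` is not constant on all the pairs of `L a`. -/
def NoPairGuessing (P : Type u) [Preorder P] (S : Set X) (I : Type w) [LinearOrder I]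
    (ev od : I → I) (M : Type z) : Set P :=
  fall fun L : S → I → X → Set P => fimp (fall fun a : S => FLadder (a : X) (L a))
    (fex fun f : X → M → Set P => fand (IsFun f)
      (fex fun C : X → Set P => fand (FClub C)
        (fall fun a : S => fimp (meets (C a)) (fnot (FPairConstant ev od f (L a))))))

/-- `B` is the image of `A` under some function. -/
def FImage (P : Type u) [Preorder P] (A : Type v) (B : Type w) : Set P :=
  fex fun R : A → B → Set P => fand (IsFun R) (IsOnto R)

/-- The well-ordered set `Λ` is (of order type) a cardinal: it is not the image of a proper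
initial segment. -/
def FCardinal (P : Type u) [Preorder P] (Λ : Type v) [LinearOrder Λ] : Set P :=
  fall fun a : Λ => fnot (FImage P (Set.Iio a) Λ)

/-- `X` is the successor cardinal of `Λ`: it is not an image of `Λ`, but its nonempty proper
initial segments are. -/
def FSucc (P : Type u) [Preorder P] (Λ : Type w) (X : Type v) [LinearOrder X] : Set P :=
  fand (fnot (FImage P Λ X)) (fall fun x : X => fimp (fground (∃ y, y < x)) (FImage P Λ (Set.Iio x)))

/-- The well-ordered set `I` is regular: no function from a proper initial segment of `I` to
`I` is unbounded in `I`. -/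
def FRegular (P : Type u) [Preorder P] (I : Type w) [LinearOrder I] : Set P :=
  fall fun i : I => fnot (fex fun R : Set.Iio i → I → Set P => fand (IsFun R)
    (fall fun b : I => fex fun j : Set.Iio i => fex fun c : I =>
      fand (meets (R j c)) (fground (b ≤ c))))

/-- `2 ^ |Λ| ≤ |X|`: there is a family of subsets of `Λ` indexed by `X` which contains all the
subsets of `Λ`. -/
def FPowLe (P : Type u) [Preorder P] (Λ : Type w) (X : Type v) : Set P :=
  fex fun Z : X → Λ → Set P => fall fun A : Λ → Set P => fex fun x : X => fall fun a : Λ =>
    fiff (meets (A a)) (meets (Z x a))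

/-- `|X| ≤ 2 ^ ℵ₀`: there is a family of pairwise distinct subsets of `ℕ` indexed by `X`. -/
def FLeContinuum (P : Type u) [Preorder P] (X : Type v) : Set P :=
  fex fun c : X → ℕ → Set P => fall fun x : X => fall fun x' : X =>
    fimp (fnot (fground (x = x'))) (fex fun n : ℕ => fnot (fiff (meets (c x n)) (meets (c x' n))))

end Forced

end Pool.Agent.Helper539.LadDefs
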