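import Mathlib
import Pool.Agent.Helper539.LadDefs

/-!
# Closed unbounded sets of a well-ordered set
-/

namespace Pool.Agent.Helper539.LadClub
open Pool.Agent.Helper539.LadDefs
universe v w
variable {X : Type v} [LinearOrder X] [WellFoundedLT X]

theorem aux_lub {ι : Type w} (f : ι → X) (hb : ∃ b, ∀ n, f n < b) :
    ∃ d, (∀ n, f n < d) ∧ ∀ b < d, ∃ n, b ≤ f n := by
  have hwf : WellFounded (fun a b : X => a < b) := wellFounded_lt
  obtain ⟨b, hb⟩ := hb
  have hne : {b : X | ∀ n, f n < b}.Nonempty := ⟨b, hb⟩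
  refine ⟨hwf.min _ hne, hwf.min_mem _ hne, ?_⟩
  intro c hc
  by_contra hcon
  push Not at hcon
  exact hwf.not_lt_min {b : X | ∀ n, f n < b} (show c ∈ {b : X | ∀ n, f n < b} from hcon) hc

theorem aux_closed {C : Set X} (hC : Closed C) (f : ℕ → X) (d : X) (h1 : ∀ n, f n < d)
    (h2 : ∀ b < d, ∃ n, b ≤ f n) (h3 : ∀ n, ∃ c ∈ C, f n < c ∧ c < d) : d ∈ C := by
  apply hC d ⟨f 0, h1 0⟩
  intro b hb
  obtain ⟨n, hn⟩ := h2 b hb
  obtain ⟨c, hc, hc1, hc2⟩ := h3 n
  exact ⟨c, hc, lt_of_le_of_lt hn hc1, hc2⟩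

/-- closure points of `h` in a club form a club -/
theorem club_closure (hω : ∀ f : ℕ → X, ∃ b, ∀ n, f n < b)
    (hs : ∀ (a : X) (f : Set.Iio a → X), ∃ b, ∀ n, f n < b) {C : Set X} (hC : Club C) (h : X → X) :
    Club {d | d ∈ C ∧ ∀ b < d, h b < d} := by
  obtain ⟨hU, hCl⟩ := hC
  constructor
  · intro b0
    have hex : ∀ a : X, ∃ c ∈ C, a < c ∧ ∀ b < a, h b < c := by
      intro a
      obtain ⟨β, hβ⟩ := hs a (fun b => h b.1)
      obtain ⟨c, hc, hc1⟩ := hU (max a β)
      refine ⟨c, hc, lt_of_le_of_lt (le_max_left _ _) hc1, ?_⟩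
      intro b hb
      exact (hβ ⟨b, hb⟩).trans (lt_of_le_of_lt (le_max_right _ _) hc1)
    choose g hg1 hg2 hg3 using hex
    obtain ⟨c, hc⟩ : ∃ c : ℕ → X, c = fun n => g^[n + 1] b0 := ⟨_, rfl⟩
    have hcs : ∀ n, c (n + 1) = g (c n) := by
      intro n
      rw [hc]
      exact Function.iterate_succ_apply' g (n + 1) b0
    have hc0 : c 0 = g b0 := by
      rw [hc]
      rfl
    obtain ⟨d, hd1, hd2⟩ := aux_lub c (hω c)
    refine ⟨d, ⟨?_, ?_⟩, ?_⟩
    · apply aux_closed hCl c d hd1 hd2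
      intro n
      exact ⟨c (n + 1), by rw [hcs]; exact hg1 _, by rw [hcs]; exact hg2 _, hd1 _⟩
    · intro b hb
      obtain ⟨n, hn⟩ := hd2 b hb
      have h1 : b < c (n + 1) := by
        rw [hcs]
        exact lt_of_le_of_lt hn (hg2 _)
      have h2 := hg3 (c (n + 1)) b h1
      rw [← hcs] at h2
      exact h2.trans (hd1 _)
    · have h1 := hg2 b0
      rw [← hc0] at h1
      exact h1.trans (hd1 0)
  · intro d hd1 hd2
    constructor
    · apply hCl d hd1
      intro b hb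
      obtain ⟨c, hc, hc1, hc2⟩ := hd2 b hb
      exact ⟨c, hc.1, hc1, hc2⟩
    · intro b hb
      obtain ⟨c, hc, hc1, hc2⟩ := hd2 b hb
      exact (hc.2 b hc1).trans hc2

theorem club_inter (hω : ∀ f : ℕ → X, ∃ b, ∀ n, f n < b) {C D : Set X} (hC : Club C)
    (hD : Club D) : Club {d | d ∈ C ∧ d ∈ D} := by
  obtain ⟨hCU, hCC⟩ := hC
  obtain ⟨hDU, hDC⟩ := hD
  constructor
  · intro b0
    choose g hg1 hg2 using hCU
    choose k hk1 hk2 using hDU
    obtain ⟨c, hc⟩ : ∃ c : ℕ → X, c = fun n => (fun x => g (k x))^[n] b0 := ⟨_, rfl⟩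
    have hcs : ∀ n, c (n + 1) = g (k (c n)) := by
      intro n
      rw [hc]
      exact Function.iterate_succ_apply' _ n b0
    have hc0 : c 0 = b0 := by
      rw [hc]
      rfl
    obtain ⟨d, hd1, hd2⟩ := aux_lub c (hω c)
    have h1 : ∀ n, c n < k (c n) := fun n => hk2 _
    have h2 : ∀ n, k (c n) < c (n + 1) := by
      intro n
      rw [hcs]
      exact hg2 _
    refine ⟨d, ⟨?_, ?_⟩, ?_⟩
    · apply aux_closed hCC c d hd1 hd2
      intro n
      exact ⟨c (n + 1), by rw [hcs]; exact hg1 _, (h1 n).trans (h2 n), hd1 _⟩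
    · apply aux_closed hDC c d hd1 hd2
      intro n
      exact ⟨k (c n), hk1 _, h1 n, (h2 n).trans (hd1 _)⟩
    · have h3 := hd1 0
      rwa [hc0] at h3
  · intro d hd1 hd2
    constructor
    · apply hCC d hd1
      intro b hb
      obtain ⟨c, hc, hc1, hc2⟩ := hd2 b hb
      exact ⟨c, hc.1, hc1, hc2⟩
    · apply hDC d hd1
      intro b hb
      obtain ⟨c, hc, hc1, hc2⟩ := hd2 b hb
      exact ⟨c, hc.2, hc1, hc2⟩

/-- the intersection of a family of clubs indexed by `Λ`, if all `Λ`-sequences are bounded -/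
theorem club_iInter {Λ : Type w} [Infinite Λ] (hb : ∀ f : Λ → X, ∃ b, ∀ n, f n < b)
    (C : Λ → Set X) (hC : ∀ l, Club (C l)) : Club {d | ∀ l, d ∈ C l} := by
  classical
  have hω : ∀ f : ℕ → X, ∃ b, ∀ n, f n < b := by
    intro f
    obtain ⟨b, hb'⟩ := hb (fun l => f (Function.invFun (Infinite.natEmbedding Λ) l))
    refine ⟨b, fun n => ?_⟩
    have h1 := hb' (Infinite.natEmbedding Λ n)
    simp only [Function.leftInverse_invFun (Infinite.natEmbedding Λ).injective n] at h1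
    exact h1
  constructor
  · intro b0
    have hex : ∀ a : X, ∃ β : X, ∀ l, ∃ c ∈ C l, a < c ∧ c < β := by
      intro a
      have h1 : ∀ l, ∃ c ∈ C l, a < c := fun l => (hC l).1 a
      choose g hg1 hg2 using h1
      obtain ⟨β, hβ⟩ := hb g
      exact ⟨β, fun l => ⟨g l, hg1 l, hg2 l, hβ l⟩⟩
    choose β hβ using hex
    obtain ⟨c, hc⟩ : ∃ c : ℕ → X, c = fun n => β^[n] b0 := ⟨_, rfl⟩
    have hcs : ∀ n, c (n + 1) = β (c n) := by
      intro n
      rw [hc]
      exact Function.iterate_succ_apply' _ n b0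
    have hc0 : c 0 = b0 := by
      rw [hc]
      rfl
    obtain ⟨d, hd1, hd2⟩ := aux_lub c (hω c)
    refine ⟨d, ?_, ?_⟩
    · intro l
      apply aux_closed (hC l).2 c d hd1 hd2
      intro n
      obtain ⟨e, he, he1, he2⟩ := hβ (c n) l
      rw [← hcs] at he2
      exact ⟨e, he, he1, he2.trans (hd1 _)⟩
    · have h3 := hd1 0
      rwa [hc0] at h3
  · intro d hd1 hd2 l
    apply (hC l).2 d hd1
    intro b hb'
    obtain ⟨c, hc, hc1, hc2⟩ := hd2 b hb'
    exact ⟨c, hc l, hc1, hc2⟩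

/-- increasing enumeration of (a subset of) an unbounded set, if initial segments are bounded -/
theorem exists_enum (hs : ∀ (a : X) (f : Set.Iio a → X), ∃ b, ∀ n, f n < b) {Y : Set X}
    (hY : Unbounded Y) : ∃ y : X → X, StrictMono y ∧ (∀ x, y x ∈ Y) ∧ ∀ x, x ≤ y x := by
  classical
  have hwf : WellFounded (fun a b : X => a < b) := wellFounded_lt
  have hex : ∀ (x : X) (f : Set.Iio x → X), ∃ c, c ∈ Y ∧ x < c ∧ ∀ n, f n < c := by
    intro x f
    obtain ⟨β, hβ⟩ := hs x f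
    obtain ⟨c, hc, hc1⟩ := hY (max x β)
    exact ⟨c, hc, lt_of_le_of_lt (le_max_left _ _) hc1,
      fun n => (hβ n).trans (lt_of_le_of_lt (le_max_right _ _) hc1)⟩
  choose G hG1 hG2 hG3 using hex
  obtain ⟨y, hy⟩ : ∃ y : X → X, ∀ x, y x = G x (fun b => y b.1) := by
    refine ⟨hwf.fix (fun x ih => G x (fun b => ih b.1 b.2)), ?_⟩
    intro x
    rw [WellFounded.fix_eq]
  refine ⟨y, ?_, ?_, ?_⟩
  · intro a b hab
    rw [hy b]
    exact hG3 b (fun c => y c.1) ⟨a, hab⟩
  · intro x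
    rw [hy x]
    exact hG1 _ _
  · intro x
    rw [hy x]
    exact (hG2 _ _).le

/-- If `|X|` is the successor of `|Λ|` then all the `Λ`-sequences in `X` are bounded. -/
theorem bounded_of_succ {Λ : Type w} [Infinite Λ] (hle : ∀ x : X, Nonempty (Set.Iio x ↪ Λ))
    (hn : IsEmpty (X ↪ Λ)) (f : Λ → X) : ∃ b, ∀ n, f n < b := by
  classical
  by_contra hcon
  push Not at hcon
  choose N hN using hcon
  have e : ∀ x : X, Set.Iio x ↪ Λ := fun x => (hle x).some
  have hemb : Nonempty (X ↪ Λ × Option Λ) := by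
    refine ⟨⟨fun b => (N b, if h : b < f (N b) then some (e (f (N b)) ⟨b, h⟩) else none), ?_⟩⟩
    intro b b' hbb
    have h1 : N b = N b' := congrArg Prod.fst hbb
    have h2 : (if h : b < f (N b) then some (e (f (N b)) ⟨b, h⟩) else none) =
      (if h : b' < f (N b') then some (e (f (N b')) ⟨b', h⟩) else none) := congrArg Prod.snd hbb
    have h3 := hN b
    have h4 := hN b'
    rw [← h1] at h2 h4
    by_cases h5 : b < f (N b)
    · by_cases h6 : b' < f (N b)
      · rw [dif_pos h5, dif_pos h6] at h2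
        have h7 := (e (f (N b))).injective (Option.some.inj h2)
        exact congrArg Subtype.val h7
      · rw [dif_pos h5, dif_neg h6] at h2
        exact absurd h2 (by simp)
    · by_cases h6 : b' < f (N b)
      · rw [dif_neg h5, dif_pos h6] at h2
        exact absurd h2.symm (by simp)
      · have h7 : b = f (N b) := le_antisymm h3 (not_lt.mp h5)
        have h8 : b' = f (N b) := le_antisymm h4 (not_lt.mp h6)
        exact h7.trans h8.symm
  have hΛ : Nonempty (Λ × Option Λ ↪ Λ) := by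
    rw [← Cardinal.le_def, Cardinal.mk_prod, Cardinal.mk_option, Cardinal.lift_id,
      Cardinal.lift_id]
    have h1 : Cardinal.aleph0 ≤ Cardinal.mk Λ := Cardinal.aleph0_le_mk Λ
    have h2 : Cardinal.mk Λ + 1 = Cardinal.mk Λ := Cardinal.add_one_eq h1
    rw [h2, Cardinal.mul_eq_self h1]
  obtain ⟨e1⟩ := hemb
  obtain ⟨e2⟩ := hΛ
  exact hn.false (e1.trans e2)

end Pool.Agent.Helper539.LadClub
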