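import Mathlib

/-!
# Maximal antichains
-/

namespace Pool.Agent.Helper539.LadAnti

universe u

/-- maximal antichains in a set `D` of conditions -/
theorem exists_maximal_antichain {P : Type u} [Preorder P] (D : Set P) :
    ∃ Z ⊆ D, (∀ z ∈ Z, ∀ z' ∈ Z, (∃ u, u ≤ z ∧ u ≤ z') → z = z') ∧
      ∀ p ∈ D, ∃ z ∈ Z, ∃ u, u ≤ p ∧ u ≤ z := by
  obtain ⟨Z, hZ⟩ := zorn_subset
    {Z : Set P | Z ⊆ D ∧ ∀ z ∈ Z, ∀ z' ∈ Z, (∃ u, u ≤ z ∧ u ≤ z') → z = z'} (by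
      intro c hc hch
      refine ⟨⋃₀ c, ⟨?_, ?_⟩, fun s hs => Set.subset_sUnion_of_mem hs⟩
      · exact Set.sUnion_subset fun s hs => (hc hs).1
      · rintro z ⟨s, hs, hz⟩ z' ⟨s', hs', hz'⟩ hu
        rcases hch.total hs hs' with h | h
        · exact (hc hs').2 z (h hz) z' hz' hu
        · exact (hc hs).2 z hz z' (h hz') hu)
  refine ⟨Z, hZ.prop.1, hZ.prop.2, fun p hp => ?_⟩
  by_contra hcon
  push Not at hcon
  have h1 : insert p Z ∈ {Z : Set P | Z ⊆ D ∧ ∀ z ∈ Z, ∀ z' ∈ Z, (∃ u, u ≤ z ∧ u ≤ z') → z = z'} := by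
    refine ⟨Set.insert_subset hp hZ.prop.1, ?_⟩
    intro z hz z' hz' hu
    obtain ⟨u, hu1, hu2⟩ := hu
    rcases hz with rfl | hz
    · rcases hz' with rfl | hz'
      · rfl
      · exact absurd hu2 (hcon z' hz' u hu1)
    · rcases hz' with rfl | hz'
      · exact absurd hu1 (hcon z hz u hu2)
      · exact hZ.prop.2 z hz z' hz' ⟨u, hu1, hu2⟩
  have h2 : insert p Z ⊆ Z := hZ.le_of_ge h1 (Set.subset_insert p Z)
  have h3 : p ∈ Z := h2 (Set.mem_insert p Z)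
  exact hcon p h3 p le_rfl le_rfl

end Pool.Agent.Helper539.LadAnti
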