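import Mathlib
import Pool.Agent.Helper539.LadDefs

/-!
# Common extensions and one point extensions of Cohen conditions
-/

namespace Pool.Agent.Helper539.LadFn

open Pool.Agent.Helper539.SPForcing Pool.Agent.Helper539.LadDefs

universe u

variable {J : Type u}

open Classical in
/-- the union of two conditions (the first one wins) -/
noncomputable def un (p q : Fn J) : Fn J where
  dom := p.dom ∪ q.dom
  val j := if j ∈ p.dom then p.val j else q.val j

theorem un_le_left (p q : Fn J) : un p q ≤ p := by
  classical
  refine ⟨fun j hj => Finset.mem_union_left _ hj, fun j hj => ?_⟩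
  simp [un, hj]

theorem un_le_right {p q r : Fn J} (h : r ≤ p) (h' : r ≤ q) : un p q ≤ q := by
  classical
  refine ⟨fun j hj => Finset.mem_union_right _ hj, fun j hj => ?_⟩
  by_cases hp : j ∈ p.dom
  · simp only [un, hp, if_true]
    rw [← h.2 j hp, h'.2 j hj]
  · simp [un, hp]

theorem mem_un {p q : Fn J} {j : J} : j ∈ (un p q).dom ↔ j ∈ p.dom ∨ j ∈ q.dom := by
  classical
  exact Finset.mem_union

open Classical in
/-- adding the value `b` at `j` -/
noncomputable def upd (p : Fn J) (j : J) (b : Bool) : Fn J where
  dom := insert j p.dom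
  val i := if i = j then b else p.val i

theorem upd_le {p : Fn J} {j : J} {b : Bool} (h : j ∉ p.dom) : upd p j b ≤ p := by
  classical
  refine ⟨fun i hi => Finset.mem_insert_of_mem hi, fun i hi => ?_⟩
  have : i ≠ j := fun e => h (e ▸ hi)
  simp [upd, this]

theorem mem_upd {p : Fn J} {i j : J} {b : Bool} : i ∈ (upd p j b).dom ↔ i = j ∨ i ∈ p.dom := by
  classical
  exact Finset.mem_insert

theorem upd_val {p : Fn J} {j : J} {b : Bool} : (upd p j b).val j = b := by
  simp [upd]

end Pool.Agent.Helper539.LadFn
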