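import Mathlib
import Pool.Agent.Helper539.LadDefs

/-!
# Forced statements about a named set `S`
-/

namespace Pool.Agent.Helper539.LadForced

open Pool.Agent.Helper539.SPForcing Pool.Agent.Helper539.LadDefs

universe u v w z

variable {P : Type u} [Preorder P] {X : Type v} [LinearOrder X]

/-- The set named by `S` is a stationary subset of `X`. -/
def FStationaryName (S : X → Set P) : Set P :=
  fall fun C : X → Set P => fimp (FClub C) (fex fun a : X => fand (meets (S a)) (meets (C a)))

/-- `a` has cofinality `ω`: a ground model function `ℕ → X` has range unbounded in `a`. -/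
def CofinalityOmega (a : X) : Prop := ∃ f : ℕ → X, (∀ n, f n < a) ∧ ∀ b < a, ∃ n, b < f n

/-- No ladder system on the set named by `S` is pair-guessing for `M`-valued functions: for every
sequence of ladders `L a` (`a ∈ S`) of order type `I` there are a function `f : X → M` and a
closed unbounded `C ⊆ X` such that for every `a ∈ S ∩ C` the function `f` is not constant on all
the pairs of `L a`. -/
def NoPairGuessingName (S : X → Set P) (I : Type w) [LinearOrder I] (ev od : I → I)
    (M : Type z) : Set P :=
  fall fun L : X → I → X → Set P =>
    fimp (fall fun a : X => fimp (meets (S a)) (FLadder a (L a)))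
      (fex fun f : X → M → Set P => fand (IsFun f)
        (fex fun C : X → Set P => fand (FClub C)
          (fall fun a : X => fimp (fand (meets (S a)) (meets (C a)))
            (fnot (FPairConstant ev od f (L a))))))

/-- The negated form of the question, in the extension, for the well-ordered sets `Λ` and `X` of
the ground model. The conjuncts say:
* `Λ` is (of order type) a cardinal;
* `Λ` is longer than `ω`;
* a function `ℕ → Λ` is strictly increasing and unbounded (so `Λ` is singular of cofinality `ω`);
* `X` is the successor cardinal of `Λ`;
* `2 ^ |Λ| ≤ |X|`, that is, `2 ^ λ = λ⁺`;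
* there are at least `|X|` many subsets of `ℕ`, so `Λ` is not a strong limit;
* there is a set `S ⊆ X` of points of cofinality `ω` which is stationary in `X` and such that no
  ladder system on `S` is pair-guessing for `M`-valued functions (`ev i = 2 i`, `od i = 2 i + 1`). -/
def LadderGuessingFails (P : Type u) [Preorder P] (Λ X : Type v) [LinearOrder Λ]
    [LinearOrder X] (M : Type z) : Set P :=
  fand (FCardinal P Λ)
    (fand (fground (∃ a : Λ, Infinite (Set.Iio a)))
    (fand (fground (∃ f : ℕ → Λ, StrictMono f ∧ ∀ b, ∃ n, b < f n))
    (fand (FSucc P Λ X)
    (fand (FPowLe P Λ X)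
    (fand (FLeContinuum P X)
    (fex fun S : X → Set P =>
      fand (fall fun a : X => fimp (meets (S a)) (fground (CofinalityOmega a)))
        (fand (FStationaryName S)
          (NoPairGuessingName S ℕ (fun i => 2 * i) (fun i => 2 * i + 1) M))))))))

end Pool.Agent.Helper539.LadForced
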