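import Mathlib
import Pool.Agent.Helper539.LadForced
import Pool.Agent.Helper539.LadFnB
import Pool.Agent.Helper539.LadIter

/-!
# The forcing notion and the names
-/

namespace Pool.Agent.Helper539.LadPT

open Pool.Agent.Helper539.SPForcing Pool.Agent.Helper539.LadDefs Pool.Agent.Helper539.LadFn
  Pool.Agent.Helper539.LadForced Pool.Agent.Helper539.LadIter

universe u z

variable {X Θ K : Type u} [LinearOrder X] [LinearOrder Θ] [WellFoundedLT Θ]

/-- the forcing notion of the legal conditions -/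
abbrev PT (Λ : Type u) (k0 : K) (σ : K → Prop) (N : Θ → X → X → Set (Cond X Θ K)) : Type u :=
  {p : Cond X Θ K // Legal Λ k0 σ N p}

/-- The name of the generic set `S`: the points `x` of cofinality `ω` with `σ (g x)`. -/
def SName {Λ : Type u} {k0 : K} {σ : K → Prop} {N : Θ → X → X → Set (Cond X Θ K)} (x : X) :
    Set (PT Λ k0 σ N × Fn (X × X)) :=
  {s | x ≤ s.1.1.top ∧ σ (s.1.1.g x) ∧ CofinalityOmega x}

/-- The name of the function `x ↦ c (ξ, x)`, where `ξ` is the least element of `y j` which is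
`≥ x`. -/
def fName {Λ : Type u} {k0 : K} {σ : K → Prop} {N : Θ → X → X → Set (Cond X Θ K)} (j : Θ)
    {M : Type z} (val : Bool → M) (x : X) (m : M) : Set (PT Λ k0 σ N × Fn (X × X)) :=
  {s | j ∈ s.1.1.supp ∧ ∃ ξ, x ≤ ξ ∧ ξ ∈ s.1.1.y j ∧ (∀ η, x ≤ η → η < ξ → η ∉ s.1.1.y j) ∧
    (ξ, x) ∈ s.2.dom ∧ m = val (s.2.val (ξ, x))}

/-- The name of the club of the limit points of `y j`. -/
def CName {Λ : Type u} {k0 : K} {σ : K → Prop} {N : Θ → X → X → Set (Cond X Θ K)} (j : Θ)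
    (γ : X) : Set (PT Λ k0 σ N × Fn (X × X)) :=
  {s | j ∈ s.1.1.supp ∧ γ ≤ s.1.1.top ∧ Unb (s.1.1.y j) γ ∧ ∃ b, b < γ}

end Pool.Agent.Helper539.LadPT
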