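import Mathlib
import Pool.Agent.Helper539.LadFnB

/-!
# Products with Cohen forcing
-/

namespace Pool.Agent.Helper539.LadProd

open Pool.Agent.Helper539.SPForcing Pool.Agent.Helper539.LadDefs Pool.Agent.Helper539.LadFn

universe u v w

open Classical in
/-- a canonical condition -/
noncomputable def tt {J : Type v} (A B : Finset J) : Fn J := ⟨A, fun j => decide (j ∈ B)⟩

theorem stage {P : Type u} [Preorder P] {J : Type v}
    (D : Set (P × Fn J)) (hD : ∀ q ∈ D, ∀ r ≤ q, r ∈ D) (S : Finset (Fn J)) :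
    ∀ p : P, ∃ p₁ ≤ p, ∃ W : Finset (Fn J), ∀ t ∈ S,
      (∃ q ∈ W, q ≤ t ∧ (p₁, q) ∈ D) ∨ (∀ p'' ≤ p₁, ∀ q ≤ t, (p'', q) ∉ D) := by
  classical
  induction S using Finset.induction_on with
  | empty => exact fun p => ⟨p, le_rfl, ∅, by simp⟩
  | insert t S _ ih =>
    intro p
    obtain ⟨p₁, hp₁, W, hW⟩ := ih p
    by_cases h : ∃ p'' ≤ p₁, ∃ q ≤ t, (p'', q) ∈ D
    · obtain ⟨p₂, hp₂, q, hq, hqD⟩ := h
      refine ⟨p₂, hp₂.trans hp₁, insert q W, fun t' ht' => ?_⟩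
      rcases Finset.mem_insert.1 ht' with rfl | ht'
      · exact Or.inl ⟨q, Finset.mem_insert_self _ _, hq, hqD⟩
      · rcases hW t' ht' with ⟨q', hq', hle, hqD'⟩ | h2
        · exact Or.inl ⟨q', Finset.mem_insert_of_mem hq', hle, hD _ hqD' _ ⟨hp₂, le_rfl⟩⟩
        · exact Or.inr fun p'' hp'' => h2 p'' (hp''.trans hp₂)
    · refine ⟨p₁, hp₁, W, fun t' ht' => ?_⟩
      rcases Finset.mem_insert.1 ht' with rfl | ht'
      · right
        intro p'' hp'' q hq hqD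
        exact h ⟨p'', hp'', q, hq, hqD⟩
      · exact hW t' ht'

/-- Products of an `ω`-closed and the Cohen forcing: below `p` there is `p'` deciding countably
many Cohen conditions in the open dense set `D`, predense below `c`. -/
theorem predense2 {P : Type u} [Preorder P]
    (hP : ∀ f : ℕ → P, (∀ n, f (n + 1) ≤ f n) → ∃ l, ∀ n, l ≤ f n) {J : Type v}
    (D : Set (P × Fn J)) (hD : ∀ q ∈ D, ∀ r ≤ q, r ∈ D) (p : P) (c : Fn J)
    (hd : ∀ q ≤ (p, c), ∃ r ≤ q, r ∈ D) :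
    ∃ p' ≤ p, ∃ W : ℕ → Fn J, (∀ n, (p', W n) ∈ D) ∧ ∀ q ≤ c, ∃ n, ∃ r ≤ q, r ≤ W n := by
  classical
  have step : ∀ x : P × Finset (Fn J), ∃ y : P × Finset (Fn J), y.1 ≤ x.1 ∧ x.2 ⊆ y.2 ∧
      ∀ A B : Finset J, A ⊆ x.2.biUnion Fn.dom → B ⊆ x.2.biUnion Fn.dom →
        (∃ q ∈ y.2, q ≤ tt A B ∧ (y.1, q) ∈ D) ∨ (∀ p'' ≤ y.1, ∀ q ≤ tt A B, (p'', q) ∉ D) := by
    rintro ⟨p₀, W₀⟩
    obtain ⟨p₁, hp₁, W, hW⟩ := stage D hD
      (((W₀.biUnion Fn.dom).powerset ×ˢ (W₀.biUnion Fn.dom).powerset).image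
        fun x => tt x.1 x.2) p₀
    refine ⟨(p₁, W₀ ∪ W), hp₁, Finset.subset_union_left, fun A B hA hB => ?_⟩
    rcases hW (tt A B) (Finset.mem_image.2 ⟨(A, B), Finset.mem_product.2
      ⟨Finset.mem_powerset.2 hA, Finset.mem_powerset.2 hB⟩, rfl⟩) with ⟨q, hq, h⟩ | h
    · exact Or.inl ⟨q, Finset.mem_union_right _ hq, h⟩
    · exact Or.inr h
  choose g hg1 hg2 hg3 using step
  set f : ℕ → P × Finset (Fn J) := fun n => g^[n] (p, ∅) with hf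
  have hfs : ∀ n, f (n + 1) = g (f n) := fun n => Function.iterate_succ_apply' _ _ _
  have hf0 : f 0 = (p, ∅) := rfl
  obtain ⟨p', hp'⟩ := hP (fun n => (f n).1) fun n => by
    simp only [hfs]
    exact hg1 _
  have hmono : Monotone fun n => (f n).2 := monotone_nat_of_le_succ fun n => by
    simp only [hfs]
    exact hg2 _
  set M : ℕ → Finset J := fun n => (f n).2.biUnion Fn.dom with hM
  have hMmono : Monotone M := fun m n h => Finset.biUnion_subset_biUnion_of_subset_left _ (hmono h)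
  have key : ∀ q ≤ c, ∃ w, (∃ n, w ∈ (f n).2) ∧ (p', w) ∈ D ∧ ∃ r ≤ q, r ≤ w := by
    intro q hq
    have hpp : p' ≤ p := by simpa [hf0] using hp' 0
    obtain ⟨⟨p'', q''⟩, ⟨hle1, hle2⟩, hmem⟩ := hd (p', q) ⟨hpp, hq⟩
    simp only at hle1 hle2
    obtain ⟨N, hN⟩ : ∃ N, ∀ j ∈ q''.dom, (∃ n, j ∈ M n) → j ∈ M N := by
      have : ∀ j : J, ∃ n, (∃ n, j ∈ M n) → j ∈ M n := by
        intro j
        by_cases h : ∃ n, j ∈ M n
        · obtain ⟨n, hn⟩ := h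
          exact ⟨n, fun _ => hn⟩
        · exact ⟨0, fun h' => absurd h' h⟩
      choose k hk using this
      exact ⟨q''.dom.sup k, fun j hj h => hMmono (Finset.le_sup hj) (hk j h)⟩
    set A := q''.dom.filter (· ∈ M N) with hA
    set B := A.filter (fun j => q''.val j = true) with hB
    have hAM : A ⊆ M N := fun j hj => (Finset.mem_filter.1 hj).2
    have hBM : B ⊆ M N := (Finset.filter_subset _ _).trans hAM
    have hqt : q'' ≤ tt A B := by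
      refine ⟨Finset.filter_subset _ _, fun j hj => ?_⟩
      have hj' : j ∈ A := hj
      have hjB : j ∈ B ↔ q''.val j = true := by
        rw [hB, Finset.mem_filter]
        exact ⟨fun h => h.2, fun h => ⟨hj', h⟩⟩
      change q''.val j = decide (j ∈ B)
      by_cases hv : q''.val j = true
      · rw [hv, decide_eq_true (hjB.2 hv)]
      · rw [decide_eq_false fun h => hv (hjB.1 h)]
        simpa using hv
    rcases hg3 (f N) A B hAM hBM with ⟨w, hw, hwt, hwD⟩ | h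
    · rw [← hfs] at hw hwD
      refine ⟨w, ⟨N + 1, hw⟩, hD _ hwD _ ⟨hp' (N + 1), le_rfl⟩, un w q'', ?_, un_le_left _ _⟩
      refine le_trans ?_ hle2
      refine ⟨fun j hj => Finset.mem_union_right _ hj, fun j hj => ?_⟩
      by_cases hjw : j ∈ w.dom
      · simp only [un, hjw, if_true]
        have hjM : j ∈ M (N + 1) := Finset.mem_biUnion.2 ⟨w, hw, hjw⟩
        have hjA : j ∈ A := Finset.mem_filter.2 ⟨hj, hN j hj ⟨_, hjM⟩⟩
        rw [hwt.2 j hjA, hqt.2 j hjA]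
      · simp [un, hjw]
    · rw [← hfs] at h
      exact absurd hmem (h p'' (hle1.trans (hp' (N + 1))) q'' hqt)
  have hcount : {w : Fn J | (∃ n, w ∈ (f n).2) ∧ (p', w) ∈ D}.Countable := by
    have h1 : (⋃ n, (((f n).2 : Finset (Fn J)) : Set (Fn J))).Countable :=
      Set.countable_iUnion fun n => (f n).2.countable_toSet
    refine h1.mono ?_
    rintro w ⟨⟨n, hn⟩, _⟩
    exact Set.mem_iUnion.2 ⟨n, hn⟩
  obtain ⟨w0, hw0, hw0', _⟩ := key c le_rfl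
  obtain ⟨W, hW⟩ := hcount.exists_eq_range ⟨w0, hw0, hw0'⟩
  refine ⟨p', by simpa [hf0] using hp' 0, W, fun n => ?_, fun q hq => ?_⟩
  · have : W n ∈ {w : Fn J | (∃ n, w ∈ (f n).2) ∧ (p', w) ∈ D} := by
      rw [hW]
      exact ⟨n, rfl⟩
    exact this.2
  · obtain ⟨w, hw, hw', r, hr, hr'⟩ := key q hq
    have : w ∈ Set.range W := by
      rw [← hW]
      exact ⟨hw, hw'⟩
    obtain ⟨n, rfl⟩ := this
    exact ⟨n, r, hr, hr'⟩

/-- The same for `≤ |Λ|` many open dense sets, if the small intersections of open dense subsets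
of `P` are dense. -/
theorem many {P : Type u} [Preorder P]
    (hP : ∀ f : ℕ → P, (∀ n, f (n + 1) ≤ f n) → ∃ l, ∀ n, l ≤ f n) {T : Type w}
    (hdist : ∀ D : T → Set P, (∀ t, ∀ s ∈ D t, ∀ s' ≤ s, s' ∈ D t) →
      (∀ t, ∀ s, ∃ s' ≤ s, s' ∈ D t) → ∀ s, ∃ s' ≤ s, ∀ t, s' ∈ D t) {J : Type v}
    (D : T → Set (P × Fn J)) (hD : ∀ t, ∀ q ∈ D t, ∀ r ≤ q, r ∈ D t) (p : P) (c : Fn J)
    (hd : ∀ t, ∀ q ≤ (p, c), ∃ r ≤ q, r ∈ D t) :
    ∃ p' ≤ p, ∃ W : T → ℕ → Fn J, (∀ t n, (p', W t n) ∈ D t) ∧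
      ∀ t, ∀ q ≤ c, ∃ n, ∃ r ≤ q, r ≤ W t n := by
  classical
  obtain ⟨p', hp', h⟩ := hdist
    (fun t => {s | (∃ W : ℕ → Fn J, (∀ n, (s, W n) ∈ D t) ∧ ∀ q ≤ c, ∃ n, ∃ r ≤ q, r ≤ W n) ∨
      ∀ s' ≤ s, ¬ s' ≤ p}) (by
      rintro t s (⟨W, hW, hW'⟩ | hs) s' hs'
      · exact Or.inl ⟨W, fun n => hD t _ (hW n) _ ⟨hs', le_rfl⟩, hW'⟩
      · exact Or.inr fun s'' hs'' => hs s'' (hs''.trans hs')) (by
      intro t s
      by_cases h : ∃ s' ≤ s, s' ≤ p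
      · obtain ⟨s', hs', hsp⟩ := h
        obtain ⟨p', hp', W, hW, hW'⟩ := predense2 hP (D t) (hD t) s' c
          (fun q hq => hd t q (hq.trans ⟨hsp, le_rfl⟩))
        exact ⟨p', hp'.trans hs', Or.inl ⟨W, hW, hW'⟩⟩
      · exact ⟨s, le_rfl, Or.inr fun s' hs' hsp => h ⟨s', hs', hsp⟩⟩) p
  have h' : ∀ t, ∃ W : ℕ → Fn J, (∀ n, (p', W n) ∈ D t) ∧ ∀ q ≤ c, ∃ n, ∃ r ≤ q, r ≤ W n := by
    intro t
    rcases h t with h1 | h1
    · exact h1
    · exact absurd hp' (h1 p' le_rfl)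
  choose W hW hW' using h'
  exact ⟨p', hp', W, hW, hW'⟩

/-- A named function on `T` takes only countably many values at each point. -/
theorem cover2 {P : Type u} [Preorder P]
    (hP : ∀ f : ℕ → P, (∀ n, f (n + 1) ≤ f n) → ∃ l, ∀ n, l ≤ f n) {T : Type w}
    (hdist : ∀ D : T → Set P, (∀ t, ∀ s ∈ D t, ∀ s' ≤ s, s' ∈ D t) →
      (∀ t, ∀ s, ∃ s' ≤ s, s' ∈ D t) → ∀ s, ∃ s' ≤ s, ∀ t, s' ∈ D t) {J : Type v} {B : Type w}
    (F : T → B → Set (P × Fn J)) {r : P × Fn J} (hr : r ∈ IsFun F) :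
    ∃ r' ≤ r, ∃ ψ : T → ℕ → B, ∀ t, ∀ q ≤ r', ∃ s ≤ q, ∃ n, s ∈ meets (F t (ψ t n)) := by
  classical
  obtain ⟨p, c⟩ := r
  obtain ⟨p', hp', W, hW, hW'⟩ := many hP hdist (fun t => {s | ∃ b, s ∈ meets (F t b)})
    (by
      rintro t q ⟨b, hb⟩ r hr
      exact ⟨b, down_meets _ _ hb _ hr⟩) p c (by
      intro t q hq
      obtain ⟨q', hq', y, hy⟩ := IsFun.total (down_IsFun F _ hr q hq) t
      exact ⟨q', hq', y, hy⟩)
  choose ψ hψ using hW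
  refine ⟨(p', c), ⟨hp', le_rfl⟩, ψ, ?_⟩
  rintro t ⟨a, b⟩ ⟨hq1, hq2⟩
  obtain ⟨n, r, hr1, hr2⟩ := hW' t b hq2
  exact ⟨(a, r), ⟨le_rfl, hr1⟩, n, down_meets _ _ (hψ t n) _ ⟨hq1, hr2⟩⟩

theorem not_image2 {P : Type u} [Preorder P]
    (hP : ∀ f : ℕ → P, (∀ n, f (n + 1) ≤ f n) → ∃ l, ∀ n, l ≤ f n) {T : Type w}
    (hdist : ∀ D : T → Set P, (∀ t, ∀ s ∈ D t, ∀ s' ≤ s, s' ∈ D t) →
      (∀ t, ∀ s, ∃ s' ≤ s, s' ∈ D t) → ∀ s, ∃ s' ≤ s, ∀ t, s' ∈ D t) {J : Type v} {B : Type w}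
    (h : IsEmpty (B ↪ T × ℕ)) (r : P × Fn J) : r ∈ fnot (FImage (P × Fn J) T B) := by
  classical
  intro q hq hqI
  obtain ⟨q', hq', F, hF, hO⟩ := mem_fex.1 hqI q le_rfl
  obtain ⟨r', hr', ψ, hψ⟩ := cover2 hP hdist F hF
  have hsurj : Function.Surjective fun x : T × ℕ => ψ x.1 x.2 := by
    intro b
    obtain ⟨s, hs, t, hst⟩ := mem_fex.1 (hO b) r' hr'
    obtain ⟨s', hs', n, hn⟩ := hψ t s hs
    refine ⟨(t, n), ?_⟩
    exact IsFun.unique (down_IsFun F _ hF s' (hs'.trans (hs.trans hr'))) hn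
      (down_meets _ _ hst _ hs')
  exact h.false ⟨Function.surjInv hsurj, Function.injective_surjInv hsurj⟩

end Pool.Agent.Helper539.LadProd
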