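import Mathlib
import Pool.Agent.Helper539.LadPT
import Pool.Agent.Helper539.LadUn
import Pool.Agent.Helper539.LadProd
import Pool.Agent.Helper539.LadAnti

/-!
# The names of the function and of the club
-/

namespace Pool.Agent.Helper539.LadFName

open Cardinal Pool.Agent.Helper539.SPForcing Pool.Agent.Helper539.LadDefs
  Pool.Agent.Helper539.LadFn Pool.Agent.Helper539.LadForced Pool.Agent.Helper539.LadIter
  Pool.Agent.Helper539.LadBasic Pool.Agent.Helper539.LadUn Pool.Agent.Helper539.LadProd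
  Pool.Agent.Helper539.LadAnti Pool.Agent.Helper539.LadPT

universe u v w z

variable {X Θ K : Type u} [LinearOrder X] [WellFoundedLT X] [LinearOrder Θ] [WellFoundedLT Θ]
  {Λ : Type u} {k0 : K} {σ : K → Prop} {N : Θ → X → X → Set (Cond X Θ K)}


theorem isFun_fName_h1 [Infinite Λ] (hnm : ∀ x : X, ∃ y, x < y) (hk0 : ¬ σ k0) (j : Θ)
    (p : PT Λ k0 σ N) (a : X) :
    ∃ (p' : PT Λ k0 σ N), p' ≤ p ∧ a < p'.1.top ∧ p.1.top < p'.1.top ∧ j ∈ p'.1.supp ∧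
      p'.1.top ∈ p'.1.y j := by
  obtain ⟨δ, hδ⟩ := hnm (max p.1.top a)
  have hδ1 : p.1.top < δ := lt_of_le_of_lt (le_max_left _ _) hδ
  have hδ2 : a < δ := lt_of_le_of_lt (le_max_right _ _) hδ
  obtain ⟨h1, h2⟩ := ext_spec p.2 j hδ1 hk0 hk0
  refine ⟨⟨ext k0 p.1 j δ k0, h1⟩, h2, hδ2, hδ1, Set.mem_insert _ _, ?_⟩
  show δ ∈ (if j = j then insert δ (p.1.y j) else p.1.y j)
  rw [if_pos rfl]
  exact Set.mem_insert _ _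

theorem isFun_fName_h2 (j : Θ) {M : Type z} (val : Bool → M) (x : X) (m : M)
    (s t : PT Λ k0 σ N × Fn (X × X)) (hs : s ∈ fName j val x m) (ht : t ≤ s) :
    ∃ ξ, x ≤ ξ ∧ ξ ∈ t.1.1.y j ∧ (∀ η, x ≤ η → η < ξ → η ∉ t.1.1.y j) ∧
      m = val (t.2.val (ξ, x)) := by
  obtain ⟨hj, ξ, h1, h2, h3, h4, h5⟩ := hs
  have hle : t.1.1 ≤ s.1.1 := ht.1
  obtain ⟨a1, a2, a3, a4⟩ := hle
  have hξ : ξ ≤ s.1.1.top := s.1.2.1.2.1 j hj ξ h2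
  refine ⟨ξ, h1, (a4 j hj ξ hξ).2 h2, fun η hη1 hη2 hη3 => ?_, ?_⟩
  · exact h3 η hη1 hη2 ((a4 j hj η (hη2.le.trans hξ)).1 hη3)
  · rw [h5, ht.2.2 (ξ, x) h4]

/-- `fName j val` is a function -/
theorem isFun_fName [Infinite Λ] (hnm : ∀ x : X, ∃ y, x < y) (hk0 : ¬ σ k0) (j : Θ) {M : Type z}
    (val : Bool → M) (r : PT Λ k0 σ N × Fn (X × X)) :
    r ∈ IsFun (fName (Λ := Λ) (k0 := k0) (σ := σ) (N := N) j val) := by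
  classical
  refine ⟨fun x => mem_fex.2 fun q _ => ?_, fun x m m' => mem_fimp.2 fun q _ hq => ?_⟩
  · obtain ⟨p', hp', h1, h2, h3, h4⟩ := isFun_fName_h1 hnm hk0 j q.1 x
    obtain ⟨ξ, ⟨hξ1, hξ2⟩, hξ3⟩ := WellFounded.has_min (wellFounded_lt (α := X))
      {ξ | x ≤ ξ ∧ ξ ∈ p'.1.y j} ⟨p'.1.top, h1.le, h4⟩
    obtain ⟨c', hc', hc2⟩ : ∃ c' ≤ q.2, (ξ, x) ∈ c'.dom := by
      by_cases h : (ξ, x) ∈ q.2.dom
      · exact ⟨q.2, le_rfl, h⟩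
      · exact ⟨upd q.2 (ξ, x) false, upd_le h, mem_upd.2 (Or.inl rfl)⟩
    refine ⟨(p', c'), ⟨hp', hc'⟩, val (c'.val (ξ, x)), meets_of_mem ?_⟩
    exact ⟨h3, ξ, hξ1, hξ2, fun η hη1 hη2 hη3 => hξ3 η ⟨hη1, hη3⟩ hη2, hc2, rfl⟩
  · refine ⟨q, le_rfl, ?_⟩
    obtain ⟨t, ht, s1, hs1, hts1⟩ := hq.1 q le_rfl
    obtain ⟨t', ht', s2, hs2, hts2⟩ := hq.2 t ht
    obtain ⟨ξ1, a1, a2, a3, a4⟩ := isFun_fName_h2 j val x m s1 t' hs1 (ht'.trans hts1)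
    obtain ⟨ξ2, b1, b2, b3, b4⟩ := isFun_fName_h2 j val x m' s2 t' hs2 hts2
    have hξ : ξ1 = ξ2 := by
      rcases lt_trichotomy ξ1 ξ2 with h | h | h
      · exact absurd a2 (b3 ξ1 a1 h)
      · exact h
      · exact absurd b2 (a3 ξ2 b1 h)
    show m = m'
    rw [a4, b4, hξ]

theorem club_CName_h1 [Infinite Λ] (hnm : ∀ x : X, ∃ y, x < y) (hk0 : ¬ σ k0)
    (hP : ∀ f : ℕ → PT Λ k0 σ N, (∀ n, f (n + 1) ≤ f n) → ∃ l, ∀ n, l ≤ f n) (j : Θ)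
    (p : PT Λ k0 σ N) (b : X) :
    ∃ (l : PT Λ k0 σ N) (γ : X), l ≤ p ∧ b < γ ∧ j ∈ l.1.supp ∧ γ ≤ l.1.top ∧
      Unb (l.1.y j) γ := by
  classical
  choose E hE1 hE2 hE3 hE4 hE5 using
    fun p : PT Λ k0 σ N => isFun_fName_h1 hnm hk0 j p b
  let f : ℕ → PT Λ k0 σ N := fun n => Nat.rec p (fun _ q => E q) n
  have hf : ∀ n, f (n + 1) = E (f n) := fun n => rfl
  obtain ⟨l, hl⟩ := hP f (fun n => by rw [hf]; exact hE1 _)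
  let δ : ℕ → X := fun n => (f (n + 1)).1.top
  have hδb : ∀ n, b < δ n := fun n => by
    show b < (f (n + 1)).1.top
    rw [hf]; exact hE2 _
  have hδlt : ∀ n, δ n < δ (n + 1) := fun n => by
    show (f (n + 1)).1.top < (f (n + 1 + 1)).1.top
    rw [hf (n + 1)]; exact hE3 _
  have hj : ∀ n, j ∈ (f (n + 1)).1.supp := fun n => by rw [hf]; exact hE4 _
  have hδy : ∀ n, δ n ∈ (f (n + 1)).1.y j := fun n => by
    show (f (n + 1)).1.top ∈ (f (n + 1)).1.y j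
    rw [hf]; exact hE5 _
  have hle : ∀ n, l.1 ≤ (f n).1 := hl
  have hδl : ∀ n, δ n ≤ l.1.top := fun n => (hle (n + 1)).1
  have hδly : ∀ n, δ n ∈ l.1.y j := fun n =>
    ((hle (n + 1)).2.2.2 j (hj n) (δ n) le_rfl).2 (hδy n)
  obtain ⟨γ, hγ1, hγ2⟩ := WellFounded.has_min (wellFounded_lt (α := X))
    {γ | ∀ n, δ n ≤ γ} ⟨l.1.top, hδl⟩
  have hγ3 : ∀ b' < γ, ∃ n, b' < δ n := by
    intro b' hb'
    by_contra hcon
    push Not at hcon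
    exact hγ2 b' hcon hb'
  refine ⟨l, γ, hl 0, lt_of_lt_of_le (hδb 0) (hγ1 0), (hle 1).2.2.1 (hj 0), ?_, ?_⟩
  · by_contra hcon
    push Not at hcon
    exact hγ2 l.1.top hδl hcon
  · intro b' hb'
    obtain ⟨n, hn⟩ := hγ3 b' hb'
    exact ⟨δ n, hδly n, hn, lt_of_lt_of_le (hδlt n) (hγ1 (n + 1))⟩

/-- `CName j` is a club -/
theorem club_CName [Infinite Λ] (hnm : ∀ x : X, ∃ y, x < y) (hk0 : ¬ σ k0)
    (hP : ∀ f : ℕ → PT Λ k0 σ N, (∀ n, f (n + 1) ≤ f n) → ∃ l, ∀ n, l ≤ f n) (j : Θ)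
    (r : PT Λ k0 σ N × Fn (X × X)) :
    r ∈ FClub (CName (Λ := Λ) (k0 := k0) (σ := σ) (N := N) j) := by
  refine ⟨fun b => mem_fex.2 fun q _ => ?_, fun d => mem_fimp.2 fun q _ hq => ?_⟩
  · obtain ⟨l, γ, h1, h2, h3, h4, h5⟩ := club_CName_h1 hnm hk0 hP j q.1 b
    exact ⟨(l, q.2), ⟨h1, le_rfl⟩, γ, h2, meets_of_mem ⟨h3, h4, h5, b, h2⟩⟩
  · obtain ⟨hb, H⟩ := hq
    obtain ⟨p', hp', h1, h2, h3, h4⟩ := isFun_fName_h1 hnm hk0 j q.1 d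
    have hle : ((p', q.2) : PT Λ k0 σ N × Fn (X × X)) ≤ q := ⟨hp', le_rfl⟩
    refine ⟨(p', q.2), hle, meets_of_mem ⟨h3, h1.le, ?_, hb⟩⟩
    intro b hbd
    obtain ⟨r1, hr1, hr1'⟩ := mem_fimp.1 (H b) (p', q.2) hle hbd
    obtain ⟨r2, hr2, c, hc, hr2'⟩ := mem_fex.1 hr1' r1 le_rfl
    obtain ⟨r3, hr3, s, hs, hr3s⟩ := hr2' r2 le_rfl
    obtain ⟨e1, e2, e3, -⟩ := hs
    obtain ⟨x, hx1, hx2, hx3⟩ := e3 b hc.1
    have hxs : x ∈ r3.1.1.y j :=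
      ((hr3s.1 : r3.1.1 ≤ s.1.1).2.2.2 j e1 x (hx3.le.trans e2)).2 hx1
    have hle3 : r3 ≤ (p', q.2) := (hr3.trans hr2).trans hr1
    have hxp : x ∈ p'.1.y j :=
      ((hle3.1 : r3.1.1 ≤ p'.1).2.2.2 j h3 x ((hx3.trans hc.2).le.trans h1.le)).1 hxs
    exact ⟨x, hxp, hx2, hx3.trans hc.2⟩

end Pool.Agent.Helper539.LadFName
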