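import Mathlib
import Pool.Agent.Helper539.LadPT
import Pool.Agent.Helper539.LadUn
import Pool.Agent.Helper539.LadProd
import Pool.Agent.Helper539.LadAnti

/-!
# The main argument
-/

namespace Pool.Agent.Helper539.LadKey

open Cardinal Pool.Agent.Helper539.SPForcing Pool.Agent.Helper539.LadDefs
  Pool.Agent.Helper539.LadFn Pool.Agent.Helper539.LadForced Pool.Agent.Helper539.LadIter
  Pool.Agent.Helper539.LadBasic Pool.Agent.Helper539.LadUn Pool.Agent.Helper539.LadProd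
  Pool.Agent.Helper539.LadAnti Pool.Agent.Helper539.LadPT

universe u v w z

variable {X Θ K : Type u} [LinearOrder X] [WellFoundedLT X] [LinearOrder Θ] [WellFoundedLT Θ]
  {Λ : Type u} {k0 : K} {σ : K → Prop} {N : Θ → X → X → Set (Cond X Θ K)}


theorem key_down {P : Type*} [Preorder P] {Y : Type*} [LinearOrder Y] {I : Type*} [LinearOrder I]
    (a : Y) (g : I → Y → Set P) : Down (FLadder a g) :=
  down_fand (down_IsFun _) (down_fand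
    (down_fall fun _ => down_fall fun _ => down_fall fun _ => down_fall fun _ => down_fimp _ _)
    (down_fand (down_fall fun _ => down_fall fun _ => down_fimp _ _)
      (down_fall fun _ => down_fimp _ _)))

theorem key_bound {Y : Type*} [LinearOrder Y] {a ξ0 : Y} (h0 : ξ0 < a) (s : Finset (Y × Y)) :
    ∃ γ1, ξ0 ≤ γ1 ∧ γ1 < a ∧ ∀ i ∈ s, i.1 < a → i.1 ≤ γ1 := by
  classical
  induction s using Finset.induction_on with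
  | empty => exact ⟨ξ0, le_rfl, h0, fun i hi => absurd hi (Finset.notMem_empty i)⟩
  | insert b s _ ih =>
    obtain ⟨γ, h1, h2, h3⟩ := ih
    by_cases hb : b.1 < a
    · refine ⟨max γ b.1, h1.trans (le_max_left _ _), max_lt h2 hb, fun i hi hia => ?_⟩
      rcases Finset.mem_insert.1 hi with h | h
      · rw [h]; exact le_max_right _ _
      · exact (h3 i h hia).trans (le_max_left _ _)
    · refine ⟨γ, h1, h2, fun i hi hia => ?_⟩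
      rcases Finset.mem_insert.1 hi with h | h
      · rw [h] at hia; exact absurd hia hb
      · exact h3 i h hia

theorem key_least {Y : Type*} [LinearOrder Y] [WellFoundedLT Y] {y : Set Y} {a x : Y}
    (hU : Unb y a) (hx : x < a) : ∃ ξ, x ≤ ξ ∧ ξ < a ∧ ξ ∈ y ∧ ∀ η, x ≤ η → η < ξ → η ∉ y := by
  classical
  obtain ⟨b, hb, hxb, hba⟩ := hU x hx
  have hne : {ξ | x ≤ ξ ∧ ξ ∈ y}.Nonempty := ⟨b, hxb.le, hb⟩
  refine ⟨WellFounded.min (wellFounded_lt (α := Y)) _ hne, ?_, ?_, ?_, ?_⟩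
  · exact (WellFounded.min_mem (wellFounded_lt (α := Y)) _ hne).1
  · exact (WellFounded.min_le (wellFounded_lt (α := Y)) (show b ∈ {ξ | x ≤ ξ ∧ ξ ∈ y} from
      ⟨hxb.le, hb⟩)).trans_lt hba
  · exact (WellFounded.min_mem (wellFounded_lt (α := Y)) _ hne).2
  · intro η h1 h2 h3
    exact WellFounded.not_lt_min (wellFounded_lt (α := Y)) _ (show η ∈ {ξ | x ≤ ξ ∧ ξ ∈ y} from
      ⟨h1, h3⟩) h2

theorem key_small {j : Θ} {Z : X → Set (PT Λ k0 σ N)} {h : X → PT Λ k0 σ N → Set X}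
    (hcount : ∀ γ z, (h γ z).Countable)
    (hanti : ∀ γ, ∀ z ∈ Z γ, ∀ z' ∈ Z γ, (∃ u, u ≤ z ∧ u ≤ z') → z = z')
    (hN : ∀ γ x, N j γ x = {b | ∃ z ∈ Z γ, x ∈ h γ z ∧ b = z.1}) {a : X}
    {z p : PT Λ k0 σ N} (hz : z ∈ Z a) (hzs : z.1.supp ⊆ Set.Iio j) (hpz : p ≤ z)
    (hR : Req (Lg Λ k0 σ N j) (N j a) (restr p.1 (Set.Iio j)) (p.1.y j) a) :
    ∃ ξ0 < a, ∀ x ∈ p.1.y j, ξ0 < x → x < a → x ∉ h a z := by
  have hρL : restr p.1 (Set.Iio j) ∈ Lg Λ k0 σ N j :=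
    mem_lg.2 ⟨legal_restr p.2 (isLowerSet_Iio j), Set.inter_subset_right⟩
  have hρz : restr p.1 (Set.Iio j) ≤ z.1 := restr_le_of_le hpz hzs
  rcases hR with ⟨A, _, hCov, ξ0, hξ0, hA⟩ | hR
  · refine ⟨ξ0, hξ0, fun x hx h1 h2 h3 => ?_⟩
    refine hCov x (hA x hx h1 h2) _ hρL le_rfl z.1 ?_ hρz
    rw [hN]
    exact ⟨z, hz, h3, rfl⟩
  · exfalso
    refine hR _ hρL le_rfl ⟨h a z, hcount a z, ?_⟩
    intro x hx q' hq' hq'ρ b hb hq'b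
    rw [hN] at hb
    obtain ⟨z', hz', hx', rfl⟩ := hb
    have hu : z = z' := hanti a z hz z' hz'
      ⟨⟨q', (mem_lg.1 hq').1⟩, (hq'ρ.trans hρz : q' ≤ z.1), hq'b⟩
    rw [← hu] at hx'
    exact hx hx'

theorem key_unique {j : Θ} {M : Type z} {val : Bool → M} (hval : val true ≠ val false)
    {t : PT Λ k0 σ N × Fn (X × X)} {x2 ξ2 : X} (hj : j ∈ t.1.1.supp)
    (h1 : x2 ≤ ξ2) (h2 : ξ2 ∈ t.1.1.y j) (h3 : ∀ η, x2 ≤ η → η < ξ2 → η ∉ t.1.1.y j)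
    (h4 : (ξ2, x2) ∈ t.2.dom) (h5 : t.2.val (ξ2, x2) = false)
    {r : PT Λ k0 σ N × Fn (X × X)} (hr : r ≤ t) (h6 : r ∈ meets (fName j val x2 (val true))) :
    False := by
  obtain ⟨r7, hr7, s, ⟨hjs, ξ', g1, g2, g3, g4, g5⟩, hs⟩ := h6 r le_rfl
  have hrt : r7 ≤ t := hr7.trans hr
  have e1 : r7.1.1 ≤ t.1.1 := hrt.1
  have e2 : r7.1.1 ≤ s.1.1 := hs.1
  have e3 : r7.2 ≤ t.2 := hrt.2
  have e4 : r7.2 ≤ s.2 := hs.2
  have t1 : ξ2 ≤ t.1.1.top := t.1.2.1.2.1 j hj ξ2 h2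
  have t2 : ξ' ≤ s.1.1.top := s.1.2.1.2.1 j hjs ξ' g2
  have m1 : ξ2 ∈ r7.1.1.y j := (e1.2.2.2 j hj ξ2 t1).2 h2
  have m2 : ξ' ∈ r7.1.1.y j := (e2.2.2.2 j hjs ξ' t2).2 g2
  have heq : ξ' = ξ2 := by
    rcases lt_trichotomy ξ' ξ2 with hlt | heq | hlt
    · exact absurd ((e1.2.2.2 j hj ξ' (hlt.le.trans t1)).1 m2) (h3 ξ' g1 hlt)
    · exact heq
    · exact absurd ((e2.2.2.2 j hjs ξ2 (hlt.le.trans t2)).1 m1) (g3 ξ2 h1 hlt)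
  subst heq
  apply hval
  rw [g5, ← e4.2 _ g4, e3.2 _ h4, h5]

/-- the main argument -/
theorem key [Infinite Λ] (hnm : ∀ x : X, ∃ y, x < y) (hk0 : ¬ σ k0)
    {ev od : ℕ → ℕ} (hev : ∀ i, ev i < od i) (hcof : ∀ j, ∃ i, j ≤ ev i)
    {M : Type z} (val : Bool → M) (hval : val true ≠ val false)
    {p0 : PT Λ k0 σ N} {c0 : Fn (X × X)} (L : X → ℕ → X → Set (PT Λ k0 σ N × Fn (X × X)))
    (hL : ((p0, c0) : PT Λ k0 σ N × Fn (X × X)) ∈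
      fall fun a : X => fimp (meets (SName a)) (FLadder a (L a)))
    (j : Θ) (Z : X → Set (PT Λ k0 σ N)) (h : X → PT Λ k0 σ N → Set X)
    (hcount : ∀ γ z, (h γ z).Countable)
    (hZ : ∀ γ, ∀ z ∈ Z γ, z ≤ p0 ∧ γ ≤ z.1.top ∧ z.1.supp ⊆ Set.Iio j)
    (hanti : ∀ γ, ∀ z ∈ Z γ, ∀ z' ∈ Z γ, (∃ u, u ≤ z ∧ u ≤ z') → z = z')
    (hpre : ∀ γ, ∀ p ≤ p0, ∃ z ∈ Z γ, ∃ u, u ≤ p ∧ u ≤ z)
    (hN : ∀ γ x, N j γ x = {b | ∃ z ∈ Z γ, x ∈ h γ z ∧ b = z.1})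
    (hW : ∀ γ, ∀ z ∈ Z γ, σ (z.1.g γ) → CofOmega γ → ∀ n, ∃ W : ℕ → Fn (X × X),
        (∀ m, ∃ x, (z, W m) ∈ meets (L γ n x)) ∧
        (∀ m, ∀ i ∈ (W m).dom, i.1 ∈ h γ z) ∧
        ∀ q ≤ c0, ∃ m, ∃ r ≤ q, r ≤ W m) (a : X) :
    ((p0, c0) : PT Λ k0 σ N × Fn (X × X)) ∈ fimp (fand (meets (SName a)) (meets (CName j a)))
      (fnot (FPairConstant ev od (fName j val) (L a))) := by
  classical
  refine mem_fimp.2 fun r hr hSC => ?_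
  obtain ⟨hS, hC⟩ := hSC
  obtain ⟨ra, hra, sa, hsa, hlea⟩ := hS r le_rfl
  obtain ⟨rb, hrb, sb, hsb, hleb⟩ := hC ra hra
  have hrbr : rb ≤ r := hrb.trans hra
  obtain ⟨rc, hrc, hLrc⟩ := mem_fimp.1 (hL a) rb (hrbr.trans hr) (down_meets _ _ hS _ hrbr)
  have hrc0 : rc ≤ (p0, c0) := (hrc.trans hrbr).trans hr
  obtain ⟨z, hz, u, hu, huz⟩ := hpre a rc.1 hrc0.1
  have hr1c : ((u, rc.2) : PT Λ k0 σ N × Fn (X × X)) ≤ rc := ⟨hu, le_rfl⟩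
  refine ⟨(u, rc.2), hr1c.trans (hrc.trans hrbr), fun t ht hPC => ?_⟩
  have htrc : t ≤ rc := ht.trans hr1c
  have ht0 : t ≤ (p0, c0) := htrc.trans hrc0
  have hpz : t.1 ≤ z := ht.1.trans huz
  obtain ⟨hzp0, hztop, hzs⟩ := hZ a z hz
  have hta : t.1.1 ≤ sa.1.1 := ((htrc.trans (hrc.trans hrb)).trans hlea).1
  have htb : t.1.1 ≤ sb.1.1 := ((htrc.trans hrc).trans hleb).1
  obtain ⟨hsa1, hsa2, hsa3⟩ := hsa
  obtain ⟨hsb1, hsb2, hsb3, -⟩ := hsb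
  have hatop : a ≤ t.1.1.top := hsa1.trans hta.1
  have hσ : σ (t.1.1.g a) := by rw [hta.2.1 a hsa1]; exact hsa2
  have hjs : j ∈ t.1.1.supp := htb.2.2.1 hsb1
  have hUnb : Unb (t.1.1.y j) a := by
    intro b hb
    obtain ⟨x, hx, h1, h2⟩ := hsb3 b hb
    exact ⟨x, (htb.2.2.2 j hsb1 x (h2.le.trans hsb2)).2 hx, h1, h2⟩
  have hcofa : CofOmega a := hsa3
  have hpz' : t.1.1 ≤ z.1 := hpz
  have hσz : σ (z.1.g a) := by rw [← hpz'.2.1 a hztop]; exact hσ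
  have hReq := (t.1.2.2 j hjs) a hatop hσ hcofa hUnb
  obtain ⟨ξ0, hξ0, hξ0'⟩ := key_small hcount hanti hN hz hzs hpz hReq
  obtain ⟨γ1, hγ0, hγa, hγ⟩ := key_bound hξ0 t.2.dom
  have hLa := key_down _ _ _ hLrc _ htrc
  obtain ⟨t1, ht1, hex⟩ := mem_fimp.1 (hLa.2.2.2 γ1) t le_rfl hγa
  obtain ⟨t2, ht2, i0, hex2⟩ := mem_fex.1 hex t1 le_rfl
  obtain ⟨t3, ht3, x, hx, hγx⟩ := mem_fex.1 hex2 t2 le_rfl
  have hγx : γ1 < x := hγx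
  have ht3t : t3 ≤ t := (ht3.trans ht2).trans ht1
  obtain ⟨i, hi⟩ := hcof i0
  obtain ⟨W1, hW1D, hW1d, hW1p⟩ := hW a z hz hσz hcofa (ev i)
  obtain ⟨W2, hW2D, hW2d, hW2p⟩ := hW a z hz hσz hcofa (od i)
  obtain ⟨m, r', hr', hr'W⟩ := hW1p t3.2 (ht3t.trans ht0).2
  obtain ⟨x1, hx1⟩ := hW1D m
  have hxx1 : x ≤ x1 := by
    have h40 : ((t3.1, r') : PT Λ k0 σ N × Fn (X × X)) ≤ t3 := ⟨le_rfl, hr'⟩
    have hm1 : ((t3.1, r') : PT Λ k0 σ N × Fn (X × X)) ∈ meets (L a i0 x) :=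
      down_meets _ _ hx _ h40
    have hm2 : ((t3.1, r') : PT Λ k0 σ N × Fn (X × X)) ∈ meets (L a (ev i) x1) :=
      down_meets _ _ hx1 _ ⟨ht3t.1.trans hpz, hr'W⟩
    have h4 : ((t3.1, r') : PT Λ k0 σ N × Fn (X × X)) ≤ t := h40.trans ht3t
    rcases hi.lt_or_eq with hlt | heq
    · obtain ⟨_, _, h5⟩ := mem_fimp.1 (hLa.2.1 i0 (ev i) x x1) _ h4 ⟨hlt, hm1, hm2⟩
      exact le_of_lt h5
    · rw [← heq] at hm2
      exact (IsFun.unique (down_IsFun _ _ hLa.1 _ h4) hm1 hm2).le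
  have hr't : r' ≤ t.2 := hr'.trans ht3t.2
  set s1 := un t.2 (W1 m) with hs1
  have hs1t : s1 ≤ t.2 := un_le_left _ _
  have hs1w : s1 ≤ W1 m := un_le_right hr't hr'W
  obtain ⟨m2, r'', hr'', hr''W⟩ := hW2p s1 (hs1t.trans ht0.2)
  obtain ⟨x2, hx2⟩ := hW2D m2
  set s2 := un s1 (W2 m2) with hs2
  have hs2s1 : s2 ≤ s1 := un_le_left _ _
  have hs2w : s2 ≤ W2 m2 := un_le_right hr'' hr''W
  have hT2t : ((t.1, s2) : PT Λ k0 σ N × Fn (X × X)) ≤ t := ⟨le_rfl, hs2s1.trans hs1t⟩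
  have hm1 : ((t.1, s2) : PT Λ k0 σ N × Fn (X × X)) ∈ meets (L a (ev i) x1) :=
    down_meets _ _ hx1 _ ⟨hpz, hs2s1.trans hs1w⟩
  have hm2 : ((t.1, s2) : PT Λ k0 σ N × Fn (X × X)) ∈ meets (L a (od i) x2) :=
    down_meets _ _ hx2 _ ⟨hpz, hs2w⟩
  have hx12 : x1 < x2 := by
    obtain ⟨_, _, h5⟩ := mem_fimp.1 (hLa.2.1 (ev i) (od i) x1 x2) _ hT2t ⟨hev i, hm1, hm2⟩
    exact h5
  have hx2a : x2 < a := by
    obtain ⟨_, _, h5⟩ := mem_fimp.1 (hLa.2.2.1 (od i) x2) _ hT2t hm2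
    exact h5
  obtain ⟨ξ1, u1, u2, u3, u4⟩ := key_least hUnb (hx12.trans hx2a)
  obtain ⟨ξ2, v1, v2, v3, v4⟩ := key_least hUnb hx2a
  have hfree : ∀ ξ x', ξ ∈ t.1.1.y j → x1 ≤ ξ → ξ < a → (ξ, x') ∉ s2.dom := by
    intro ξ x' h1 h2 h3 h4
    have h5 : γ1 < ξ := (hγx.trans_le hxx1).trans_le h2
    have h6 : ξ ∉ h a z := hξ0' ξ h1 (hγ0.trans_lt h5) h3
    rcases mem_un.1 h4 with h7 | h7
    · rcases mem_un.1 h7 with h8 | h8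
      · exact absurd (hγ _ h8 h3) (not_le.2 h5)
      · exact h6 (hW1d m _ h8)
    · exact h6 (hW2d m2 _ h7)
  have hne : (ξ2, x2) ≠ (ξ1, x1) := fun h => absurd (congrArg Prod.snd h) hx12.ne'
  set s3 := upd s2 (ξ1, x1) true with hs3d
  have hs3 : s3 ≤ s2 := upd_le (hfree ξ1 x1 u3 u1 u2)
  have hfree2 : (ξ2, x2) ∉ s3.dom := by
    intro h
    rcases mem_upd.1 h with h | h
    · exact hne h
    · exact hfree ξ2 x2 v3 (hx12.le.trans v1) v2 h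
  set s4 := upd s3 (ξ2, x2) false with hs4d
  have hs4 : s4 ≤ s3 := upd_le hfree2
  have hd1 : (ξ1, x1) ∈ s3.dom := mem_upd.2 (Or.inl rfl)
  have hv1 : s4.val (ξ1, x1) = true := by
    rw [hs4.2 _ hd1]
    exact upd_val
  have hv2 : s4.val (ξ2, x2) = false := upd_val
  have hd2 : (ξ2, x2) ∈ s4.dom := mem_upd.2 (Or.inl rfl)
  have hT42 : ((t.1, s4) : PT Λ k0 σ N × Fn (X × X)) ≤ (t.1, s2) := ⟨le_rfl, hs4.trans hs3⟩
  have hT4t : ((t.1, s4) : PT Λ k0 σ N × Fn (X × X)) ≤ t := hT42.trans hT2t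
  obtain ⟨r5, hr5, h5⟩ := mem_fimp.1 (hPC i x1 x2) _ hT4t
    ⟨down_meets _ _ hm1 _ hT42, down_meets _ _ hm2 _ hT42⟩
  have hmem1 : ((t.1, s4) : PT Λ k0 σ N × Fn (X × X)) ∈ fName j val x1 (val true) :=
    ⟨hjs, ξ1, u1, u3, u4, hs4.1 hd1, by rw [hv1]⟩
  obtain ⟨r6, hr6, h6⟩ := mem_fimp.1 (h5 (val true)).1 r5 le_rfl (meets_of_le hmem1 hr5)
  exact key_unique hval (t := (t.1, s4)) hjs v1 v3 v4 hd2 hv2 (hr6.trans hr5) h6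

end Pool.Agent.Helper539.LadKey
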