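import Mathlib

/-!
# Cardinal arithmetic of sets of ordinals
-/

namespace Pool.Agent.Helper539.LadOrd

open Cardinal Ordinal Order

theorem mkI (c : Cardinal.{0}) : #(Set.Iio c.ord) = Cardinal.lift.{1} c := by
  rw [Cardinal.mk_Iio_ordinal, card_ord]

theorem mkSub {a : Ordinal.{0}} (x : Set.Iio a) :
    #(Set.Iio x) = Cardinal.lift.{1} (x : Ordinal.{0}).card := by
  rw [← Cardinal.mk_Iio_ordinal]
  apply Cardinal.mk_congr
  exact
    { toFun := fun y => ⟨y.1.1, y.2⟩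
      invFun := fun y => ⟨⟨y.1, Set.mem_Iio.mpr (lt_trans (Set.mem_Iio.mp y.2) (Set.mem_Iio.mp x.2))⟩, y.2⟩
      left_inv := fun y => rfl
      right_inv := fun y => rfl }

theorem cardlt {c : Cardinal.{0}} (x : Set.Iio c.ord) : (x : Ordinal.{0}).card < c :=
  lt_ord.mp x.2

theorem infinite_Iio {c : Cardinal.{0}} (h : ℵ₀ ≤ c) : Infinite (Set.Iio c.ord) := by
  rw [Cardinal.infinite_iff, mkI, Cardinal.aleph0_le_lift]
  exact h

theorem le_succ' {lam : Cardinal.{0}} (x : Set.Iio (succ lam).ord) :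
    Nonempty (Set.Iio x ↪ Set.Iio lam.ord) := by
  rw [← Cardinal.le_def, mkSub, mkI, Cardinal.lift_le]
  exact Order.lt_succ_iff.mp (cardlt x)

theorem not_emb (lam : Cardinal.{0}) : IsEmpty (Set.Iio (succ lam).ord ↪ Set.Iio lam.ord) := by
  rw [← not_nonempty_iff, ← Cardinal.le_def, mkI, mkI, Cardinal.lift_le, not_le]
  exact Order.lt_succ lam

theorem pow_emb {lam : Cardinal.{0}} (h : (2 : Cardinal.{0}) ^ lam = succ lam) :
    Nonempty (Set (Set.Iio lam.ord) ↪ Set.Iio (succ lam).ord) := by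
  rw [← Cardinal.le_def, Cardinal.mk_set, mkI, mkI, ← Cardinal.lift_two_power, h]

theorem small_pow {lam : Cardinal.{0}} (h : ∀ ν < lam, (2 : Cardinal.{0}) ^ ν < lam)
    (hs : lam.ord.cof < lam) : Nonempty (Set (Set.Iio lam.ord.cof.ord) ↪ Set.Iio lam.ord) := by
  rw [← Cardinal.le_def, Cardinal.mk_set, mkI, mkI, ← Cardinal.lift_two_power, Cardinal.lift_le]
  exact (h _ hs).le

theorem names {lam : Cardinal.{0}} (h0 : ℵ₀ ≤ lam) (h : (2 : Cardinal.{0}) ^ lam = succ lam) :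
    Nonempty ((Set.Iio lam.ord → ℕ → (Finset (Set.Iio (succ lam).ord × ℕ) ×
      Finset (Set.Iio (succ lam).ord × ℕ)) × Bool) ↪ Set.Iio (succ lam).ord) := by
  have hI : #(Set.Iio lam.ord) = Cardinal.lift.{1} lam := mkI lam
  have hK : #(Set.Iio (succ lam).ord) = Cardinal.lift.{1} (succ lam) := mkI (succ lam)
  set L : Cardinal.{1} := Cardinal.lift.{1} lam with hL
  set κ : Cardinal.{1} := Cardinal.lift.{1} (succ lam) with hκ
  have hL0 : ℵ₀ ≤ L := by rw [hL, Cardinal.aleph0_le_lift]; exact h0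
  have hκ0 : ℵ₀ ≤ κ := by
    rw [hκ, Cardinal.aleph0_le_lift]; exact h0.trans (Order.le_succ lam)
  have h2L : (2 : Cardinal.{1}) ^ L = κ := by
    rw [hL, ← Cardinal.lift_two_power, h]
  have hY : #(Set.Iio (succ lam).ord × ℕ) = κ := by
    rw [Cardinal.mk_prod, hK, Cardinal.mk_nat, Cardinal.lift_aleph0, Cardinal.lift_id',
      Cardinal.mul_aleph0_eq hκ0]
  haveI : Infinite (Set.Iio (succ lam).ord × ℕ) := by
    rw [Cardinal.infinite_iff, hY]
    exact hκ0
  have hF : #(Finset (Set.Iio (succ lam).ord × ℕ)) = κ := by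
    rw [Cardinal.mk_finset_of_infinite, hY]
  have hX : #((Finset (Set.Iio (succ lam).ord × ℕ) × Finset (Set.Iio (succ lam).ord × ℕ)) × Bool)
      = κ := by
    rw [Cardinal.mk_prod, Cardinal.mk_prod, hF]
    simp only [Cardinal.lift_id, Cardinal.mul_eq_self hκ0, Cardinal.mk_bool, Cardinal.lift_ofNat]
    have h2 : (2 : Cardinal.{1}) ≤ κ := Cardinal.ofNat_lt_aleph0.le.trans hκ0
    rw [Cardinal.lift_uzero]
    exact Cardinal.mul_eq_left hκ0 h2 two_ne_zero
  rw [← Cardinal.le_def, Cardinal.mk_arrow, Cardinal.mk_arrow, hX, hI, hK, Cardinal.mk_nat]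
  simp only [Cardinal.lift_id, Cardinal.lift_id', Cardinal.lift_aleph0]
  rw [← Cardinal.power_mul, Cardinal.aleph0_mul_eq hL0]
  conv_lhs => rw [← h2L]
  rw [← Cardinal.power_mul, Cardinal.mul_eq_self hL0, h2L]

theorem card_not_image {lam : Cardinal.{0}} (h : ℵ₀ < lam) (a : Set.Iio lam.ord) :
    IsEmpty (Set.Iio lam.ord ↪ Set.Iio a × ℕ) := by
  rw [← not_nonempty_iff, ← Cardinal.le_def, mkI, Cardinal.mk_prod, mkSub, Cardinal.mk_nat,
    Cardinal.lift_aleph0, Cardinal.lift_id', not_le]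
  have h1 : Cardinal.lift.{1} (a : Ordinal.{0}).card < Cardinal.lift.{1} lam :=
    Cardinal.lift_lt.mpr (cardlt a)
  have h2 : (ℵ₀ : Cardinal.{1}) < Cardinal.lift.{1} lam := by
    rw [← Cardinal.lift_aleph0.{1, 0}, Cardinal.lift_lt]
    exact h
  exact Cardinal.mul_lt_of_lt h2.le h1 h2

theorem succ_not_image {lam : Cardinal.{0}} (h0 : ℵ₀ ≤ lam) :
    IsEmpty (Set.Iio (succ lam).ord ↪ Set.Iio lam.ord × ℕ) := by
  rw [← not_nonempty_iff, ← Cardinal.le_def, mkI, Cardinal.mk_prod, mkI, Cardinal.mk_nat,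
    Cardinal.lift_aleph0, Cardinal.lift_id', not_le]
  have h2 : (ℵ₀ : Cardinal.{1}) ≤ Cardinal.lift.{1} lam := Cardinal.aleph0_le_lift.mpr h0
  rw [Cardinal.mul_aleph0_eq h2, Cardinal.lift_lt]
  exact Order.lt_succ lam

/-- an infinite regular cardinal is either `ω` or regular uncountable -/
theorem regular_cases {c : Cardinal.{0}} (h : c.IsRegular) :
    (∀ (i : Set.Iio c.ord) (f : Set.Iio i × ℕ → Set.Iio c.ord), ∃ b, ∀ x, f x < b) ∨
      (∀ i : Set.Iio c.ord, (Set.Iio i).Finite) := by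
  rcases h.aleph0_le.eq_or_lt with h1 | h1
  · right
    intro i
    rw [← Cardinal.lt_aleph0_iff_set_finite, mkSub, Cardinal.lift_lt_aleph0, h1]
    exact cardlt i
  · left
    intro i f
    have hlt : #(Set.Iio i × ℕ) < Cardinal.lift.{1} c := by
      rw [Cardinal.mk_prod, mkSub, Cardinal.mk_nat, Cardinal.lift_aleph0, Cardinal.lift_id']
      have h3 : Cardinal.lift.{1} (i : Ordinal.{0}).card < Cardinal.lift.{1} c :=
        Cardinal.lift_lt.mpr (cardlt i)
      have h2 : (ℵ₀ : Cardinal.{1}) < Cardinal.lift.{1} c := by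
        rw [← Cardinal.lift_aleph0.{1, 0}, Cardinal.lift_lt]
        exact h1
      exact Cardinal.mul_lt_of_lt h2.le h3 h2
    have hsup : ⨆ x, ((f x : Ordinal.{0}) + 1) < c.ord := by
      apply Ordinal.lift_iSup_add_one_lt_of_lt_cof
      · rw [← Ordinal.lift_cof, h.cof_ord, Cardinal.lift_uzero]
        exact hlt
      · exact fun x => (f x).2
    refine ⟨⟨_, hsup⟩, fun x => ?_⟩
    rw [← Subtype.coe_lt_coe]
    have h4 : (f x : Ordinal.{0}) + 1 ≤ ⨆ x, ((f x : Ordinal.{0}) + 1) :=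
      le_ciSup (Ordinal.bddAbove_of_small) x
    exact (lt_add_one _).trans_le h4

theorem exists_gt {c : Cardinal.{0}} (h : ℵ₀ ≤ c) (i : Set.Iio c.ord) : ∃ j, i < j := by
  have h1 : IsSuccLimit c.ord := Cardinal.isSuccLimit_ord h
  refine ⟨⟨(i : Ordinal.{0}) + 1, h1.succ_lt i.2⟩, ?_⟩
  rw [← Subtype.coe_lt_coe]
  exact lt_add_one _

/-- an increasing cofinal map from the cofinality -/
theorem exists_ladder {c : Cardinal.{0}} {a : Ordinal.{0}} (h : a.cof = c) (h0 : ℵ₀ ≤ c) :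
    ∃ g : Set.Iio c.ord → Set.Iio a, StrictMono g ∧ ∀ b, ∃ i, b < g i := by
  obtain ⟨s, hs, hs'⟩ := Ordinal.exists_ord_cof_eq (Set.Iio a)
  rw [Ordinal.cof_Iio, ← Ordinal.lift_cof, h, ← Cardinal.lift_ord] at hs'
  have h1 : typeLT (Set.Iio c.ord) = Ordinal.lift.{1} c.ord := by
    rw [← Ordinal.typein_ordinal]
    rfl
  rw [← h1, Ordinal.type_eq] at hs'
  obtain ⟨e⟩ := hs'
  let e' : s ≃o Set.Iio c.ord := OrderIso.ofRelIsoLT e
  have hmono : StrictMono (fun i : Set.Iio c.ord => ((e'.symm i : s) : Set.Iio a)) := by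
    intro x y hxy
    exact (Subtype.strictMono_coe _) (e'.symm.strictMono hxy)
  refine ⟨fun i => (e'.symm i : s), hmono, ?_⟩
  intro b
  obtain ⟨y, hy, hby⟩ := hs b
  obtain ⟨j, hj⟩ := exists_gt h0 (e' ⟨y, hy⟩)
  refine ⟨j, lt_of_le_of_lt hby ?_⟩
  have h2 := hmono hj
  simpa using h2

/-- the map `i ↦ 2 * i` (respectively `i ↦ 2 * i + 1`) on the ordinals below an infinite cardinal -/
theorem two_mul_lt {c : Cardinal.{0}} (h : ℵ₀ ≤ c) {i : Ordinal.{0}} (hi : i < c.ord) :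
    2 * i < c.ord ∧ 2 * i + 1 < c.ord ∧ i ≤ 2 * i := by
  have h1 : IsSuccLimit c.ord := Cardinal.isSuccLimit_ord h
  have h2 : 2 * i < c.ord := by
    rw [Cardinal.lt_ord, Ordinal.card_mul]
    apply Cardinal.mul_lt_of_lt h
    · have h3 : Ordinal.card 2 = 2 := by simp
      rw [h3]
      exact Cardinal.ofNat_lt_aleph0.trans_le h
    · exact Cardinal.lt_ord.mp hi
  exact ⟨h2, h1.succ_lt h2, Ordinal.le_mul_right i (by norm_num)⟩

end Pool.Agent.Helper539.LadOrd
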