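import Mathlib

/-!
# Cardinal facts for the final theorem
-/

namespace Pool.Agent.Helper539.LadOrd2

open Cardinal Ordinal Order

theorem j29141_mkI (κ : Cardinal.{0}) : #(Set.Iio κ.ord) = Cardinal.lift.{1} κ := by
  rw [Cardinal.mk_Iio_ordinal, card_ord]

theorem j29141_infI {lam : Cardinal.{0}} (h0 : ℵ₀ ≤ lam) : Infinite (Set.Iio lam.ord) := by
  rw [← aleph0_le_mk_iff, j29141_mkI, aleph0_le_lift]
  exact h0

theorem iic_emb {lam : Cardinal.{0}} (h0 : ℵ₀ ≤ lam) (x : Set.Iio (succ lam).ord) :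
    Nonempty (Set.Iic x ↪ Set.Iio lam.ord) := by
  rw [← Cardinal.le_def, j29141_mkI]
  have h1 : (x : Ordinal.{0}).card ≤ lam := by
    have := x.2
    rw [Set.mem_Iio, lt_ord] at this
    exact lt_succ_iff.1 this
  have h2 : ((x : Ordinal.{0}) + 1).card ≤ lam := by
    rw [card_add_one]
    exact (add_le_add_left h1 1).trans (add_one_eq h0).le
  have h3 : #(Set.Iio ((x : Ordinal.{0}) + 1)) ≤ Cardinal.lift.{1} lam := by
    rw [Cardinal.mk_Iio_ordinal, Cardinal.lift_le]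
    exact h2
  refine le_trans ?_ h3
  refine Cardinal.mk_le_of_injective (f := fun y : Set.Iic x =>
    (⟨(y : Set.Iio (succ lam).ord), ?_⟩ : Set.Iio ((x : Ordinal.{0}) + 1))) ?_
  · have h5 : ((y : Set.Iio (succ lam).ord) : Ordinal.{0}) ≤ x := y.2
    exact lt_succ_of_le h5
  · intro a b hab
    have h5 := Subtype.ext_iff.1 hab
    exact Subtype.ext (Subtype.ext h5)

theorem pow_set {Λ : Type 1} [Infinite Λ] : #(Set Λ) ^ #Λ = #(Set Λ) := by
  rw [mk_set, ← power_mul, mul_eq_self (aleph0_le_mk Λ)]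

theorem two_le_set {Λ : Type 1} [Infinite Λ] : 2 ≤ #(Set Λ) := by
  have h1 : ℵ₀ ≤ #Λ := aleph0_le_mk Λ
  rw [mk_set]
  exact ((ofNat_lt_aleph0 (n := 2)).le.trans h1).trans (cantor _).le

theorem succ_le_set {lam : Cardinal.{0}} (h0 : ℵ₀ ≤ lam) :
    #(Set.Iio (succ lam).ord) ≤ #(Set (Set.Iio lam.ord)) := by
  rw [j29141_mkI, mk_set, j29141_mkI, ← lift_two_power, Cardinal.lift_le]
  exact succ_le_of_lt (cantor lam)

theorem codes_le_set {lam : Cardinal.{0}} (h0 : ℵ₀ ≤ lam) :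
    #(Bool × (Set.Iio lam.ord → ℕ → (Finset (Set.Iio (succ lam).ord × Set.Iio (succ lam).ord) ×
      Finset (Set.Iio (succ lam).ord × Set.Iio (succ lam).ord)) × Bool)) ≤
      #(Set (Set.Iio lam.ord)) := by
  have i1 : Infinite (Set.Iio lam.ord) := j29141_infI h0
  have i2 : Infinite (Set.Iio (succ lam).ord) := j29141_infI (h0.trans (le_succ lam))
  have hk : ℵ₀ ≤ #(Set (Set.Iio lam.ord)) := aleph0_le_mk _
  have s1 : #(Finset (Set.Iio (succ lam).ord × Set.Iio (succ lam).ord)) ≤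
      #(Set (Set.Iio lam.ord)) := by
    rw [mk_finset_of_infinite, mk_prod, Cardinal.lift_id, mul_eq_self (aleph0_le_mk _)]
    exact succ_le_set h0
  have hb : #Bool ≤ ℵ₀ := mk_le_aleph0
  have s2 : #((Finset (Set.Iio (succ lam).ord × Set.Iio (succ lam).ord) ×
      Finset (Set.Iio (succ lam).ord × Set.Iio (succ lam).ord)) × Bool) ≤
      #(Set (Set.Iio lam.ord)) := by
    rw [mk_prod, Cardinal.lift_uzero, mk_prod, Cardinal.lift_id]
    refine (mul_le_mul' (mul_le_mul' s1 s1) ((lift_le_aleph0.2 hb).trans hk)).trans ?_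
    rw [mul_eq_self hk, mul_eq_self hk]
  have s3 : #(Set.Iio lam.ord → ℕ → (Finset (Set.Iio (succ lam).ord × Set.Iio (succ lam).ord) ×
      Finset (Set.Iio (succ lam).ord × Set.Iio (succ lam).ord)) × Bool) ≤
      #(Set (Set.Iio lam.ord)) := by
    rw [mk_arrow, mk_arrow, Cardinal.lift_id, Cardinal.lift_id, mk_nat, lift_aleph0, Cardinal.lift_uzero, ← power_mul]
    refine (power_le_power_right s2).trans ?_
    have : ℵ₀ * #(Set.Iio lam.ord) = #(Set.Iio lam.ord) :=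
      aleph0_mul_eq (aleph0_le_mk _)
    rw [this, pow_set]
  rw [mk_prod, Cardinal.lift_uzero]
  refine (mul_le_mul' ((lift_le_aleph0.2 hb).trans hk) s3).trans ?_
  rw [mul_eq_self hk]

/-- the set of coordinates -/
abbrev TH (lam : Cardinal.{0}) : Type 1 := Set.Iio ((2 : Cardinal.{0}) ^ ((2 : Cardinal.{0}) ^ lam)).ord

theorem card_TH {lam : Cardinal.{0}} : #(TH lam) = 2 ^ #(Set (Set.Iio lam.ord)) := by
  unfold TH
  rw [j29141_mkI, mk_set, j29141_mkI, lift_two_power, lift_two_power]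

theorem iio_TH {lam : Cardinal.{0}} (j : TH lam) : #(Set.Iio j) < #(TH lam) := by
  have h1 : #(Set.Iio (j : Ordinal.{0})) < #(TH lam) := by
    unfold TH
    rw [Cardinal.mk_Iio_ordinal, j29141_mkI, Cardinal.lift_lt]
    exact lt_ord.1 j.2
  refine lt_of_le_of_lt ?_ h1
  refine Cardinal.mk_le_of_injective (f := fun y : Set.Iio j =>
    (⟨(y : TH lam), ?_⟩ : Set.Iio (j : Ordinal.{0}))) ?_
  · exact (y.2 : (y : TH lam) < j)
  · intro a b hab
    have h5 := Subtype.ext_iff.1 hab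
    exact Subtype.ext (Subtype.ext h5)

theorem nonempty_TH {lam : Cardinal.{0}} : Nonempty (TH lam) := by
  rw [← mk_ne_zero_iff, card_TH]
  exact power_ne_zero _ two_ne_zero

/-- König: the cofinality of `2 ^ (2 ^ lam)` is greater than `2 ^ lam` -/
theorem cof_TH {lam : Cardinal.{0}} (h0 : ℵ₀ ≤ lam) (V : Set (TH lam))
    (hV : #V ≤ #(Set (Set.Iio lam.ord))) : ∃ j0, ∀ j ∈ V, j < j0 := by
  have h1 : (2 : Cardinal.{0}) ^ lam < ((2 : Cardinal.{0}) ^ ((2 : Cardinal.{0}) ^ lam)).ord.cof :=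
    lt_cof_ord_power (h0.trans (cantor lam).le) one_lt_two
  have h2 : #(Subtype.val '' V : Set Ordinal.{0}) <
      (Ordinal.lift.{1} ((2 : Cardinal.{0}) ^ ((2 : Cardinal.{0}) ^ lam)).ord).cof := by
    rw [← lift_cof]
    refine lt_of_le_of_lt (mk_image_le.trans hV) ?_
    rw [mk_set, j29141_mkI, ← lift_two_power, Cardinal.lift_lt]
    exact h1
  have h3 := sSup_add_one_lt_of_lt_cof h2 (by
    rintro _ ⟨j, _, rfl⟩
    exact j.2)
  refine ⟨⟨_, h3⟩, fun j hj => ?_⟩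
  have h4 : (j : Ordinal.{0}) + 1 ≤ sSup ((· + 1) '' (Subtype.val '' V : Set Ordinal.{0})) := by
    apply le_csSup
    · refine ⟨((2 : Cardinal.{0}) ^ ((2 : Cardinal.{0}) ^ lam)).ord, ?_⟩
      rintro _ ⟨_, ⟨j, _, rfl⟩, rfl⟩
      exact add_one_le_of_lt j.2
    · exact ⟨_, ⟨j, hj, rfl⟩, rfl⟩
  have h5 : (j : Ordinal.{0}) < sSup ((· + 1) '' (Subtype.val '' V : Set Ordinal.{0})) :=
    lt_of_lt_of_le (lt_add_one (j : Ordinal.{0})) h4
  exact h5

/-- a cofinal sequence -/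
theorem cofinal_seq {lam : Cardinal.{0}} (h0 : ℵ₀ < lam) (hcof : lam.ord.cof = ℵ₀) :
    ∃ f : ℕ → Set.Iio lam.ord, StrictMono f ∧ ∀ b, ∃ n, b < f n := by
  have hc : Order.cof (Set.Iio lam.ord) = ℵ₀ := by
    rw [cof_Iio, ← lift_cof, hcof, lift_aleph0]
  obtain ⟨s, hs, hs2⟩ := Order.exists_cof_eq (Set.Iio lam.ord)
  have hne : Nonempty (Set.Iio lam.ord) := (j29141_infI h0.le).nonempty
  have hsc : s.Countable := by
    rw [← le_aleph0_iff_set_countable, hs2, hc]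
  have hsne : s.Nonempty := by
    obtain ⟨a⟩ := hne
    obtain ⟨b, hb, -⟩ := hs a
    exact ⟨b, hb⟩
  obtain ⟨g, hg⟩ := hsc.exists_eq_range hsne
  have hsucc : ∀ a : Set.Iio lam.ord, ∃ b : Set.Iio lam.ord, a < b := by
    intro a
    have hl : Order.IsSuccLimit lam.ord := isSuccLimit_ord h0.le
    exact ⟨⟨succ (a : Ordinal.{0}), hl.succ_lt a.2⟩, lt_succ (a : Ordinal.{0})⟩
  choose S hS using hsucc
  let f : ℕ → Set.Iio lam.ord := fun n => Nat.rec (S (g 0)) (fun n x => S (max x (g n))) n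
  have hf : ∀ n, f (n + 1) = S (max (f n) (g n)) := fun n => rfl
  refine ⟨f, strictMono_nat_of_lt_succ fun n => ?_, fun b => ?_⟩
  · rw [hf]
    exact (le_max_left _ _).trans_lt (hS _)
  · obtain ⟨c, hc, hbc⟩ := hs b
    rw [hg] at hc
    obtain ⟨n, rfl⟩ := hc
    refine ⟨n + 1, hbc.trans_lt ?_⟩
    rw [hf]
    exact (le_max_right _ _).trans_lt (hS _)

/-- small sets exhausting a strong limit cardinal of cofinality `ω` -/
theorem exhaust {lam : Cardinal.{0}} (h0 : ℵ₀ < lam) (hcof : lam.ord.cof = ℵ₀)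
    (hs : ∀ ν < lam, (2 : Cardinal.{0}) ^ ν < lam) :
    ∃ Λn : ℕ → Set (Set.Iio lam.ord), Monotone Λn ∧ (∀ l, ∃ n, l ∈ Λn n) ∧
      ∀ n, Nonempty ((ℕ × ℕ × ↥(Λn n) → ULift.{1} (Set ℕ)) ↪ Set.Iio lam.ord) := by
  obtain ⟨f, hf, hf2⟩ := cofinal_seq h0 hcof
  refine ⟨fun n => Set.Iio (f n), fun a b hab => Set.Iio_subset_Iio (hf.monotone hab),
    fun l => hf2 l, fun n => ?_⟩
  rw [← Cardinal.le_def, j29141_mkI]
  have h1 : #(Set.Iio (f n)) ≤ Cardinal.lift.{1} (f n : Ordinal.{0}).card := by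
    rw [← Cardinal.mk_Iio_ordinal]
    refine Cardinal.mk_le_of_injective (f := fun y : Set.Iio (f n) =>
      (⟨(y : Set.Iio lam.ord), ?_⟩ : Set.Iio (f n : Ordinal.{0}))) ?_
    · exact (y.2 : (y : Set.Iio lam.ord) < f n)
    · intro a b hab
      have h5 := Subtype.ext_iff.1 hab
      exact Subtype.ext (Subtype.ext h5)
  have h2 : (f n : Ordinal.{0}).card < lam := lt_ord.1 (f n).2
  have h3 : #(ℕ × ℕ × ↥(Set.Iio (f n))) ≤
      Cardinal.lift.{1} (ℵ₀ * (ℵ₀ * (f n : Ordinal.{0}).card)) := by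
    simp only [mk_prod, Cardinal.lift_mul, lift_aleph0, mk_nat, Cardinal.lift_uzero]
    exact mul_le_mul' le_rfl (mul_le_mul' le_rfl h1)
  have h4 : ℵ₀ * (ℵ₀ * (f n : Ordinal.{0}).card) < lam := by
    apply mul_lt_of_lt h0.le h0
    exact mul_lt_of_lt h0.le h0 h2
  rw [mk_arrow, Cardinal.lift_id, Cardinal.lift_id, mk_uLift, mk_set, mk_nat, lift_two_power, lift_aleph0,
    ← power_mul]
  calc (2 : Cardinal.{1}) ^ (ℵ₀ * #(ℕ × ℕ × ↥(Set.Iio (f n)))) ≤
      (2 : Cardinal.{1}) ^ (ℵ₀ * Cardinal.lift.{1} (ℵ₀ * (ℵ₀ * (f n : Ordinal.{0}).card))) :=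
        power_le_power_left two_ne_zero (mul_le_mul' le_rfl h3)
    _ = Cardinal.lift.{1} ((2 : Cardinal.{0}) ^ (ℵ₀ * (ℵ₀ * (ℵ₀ * (f n : Ordinal.{0}).card)))) := by
        simp only [lift_two_power, Cardinal.lift_mul, lift_aleph0]
    _ ≤ Cardinal.lift.{1} lam := by
        rw [Cardinal.lift_le]
        exact (hs _ (mul_lt_of_lt h0.le h0 h4)).le

theorem uncountable_opt : Uncountable (ULift.{1} (Set ℕ)) := by
  rw [← aleph0_lt_mk_iff, mk_uLift, mk_set, mk_nat, lift_two_power, lift_aleph0]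
  exact cantor _

theorem not_nat_image {lam : Cardinal.{0}} (h0 : ℵ₀ < lam) :
    IsEmpty (Set.Iio lam.ord ↪ ℕ × ℕ) := by
  refine ⟨fun e => ?_⟩
  have h1 : Countable (Set.Iio lam.ord) := e.countable
  have h2 := mk_le_aleph0_iff.2 h1
  rw [j29141_mkI, lift_le_aleph0] at h2
  exact absurd h2 h0.not_ge

/-- there is a strong limit cardinal of cofinality `ω` greater than `ω` -/
theorem exists_strong_limit : ∃ lam : Cardinal.{0}, ℵ₀ < lam ∧ lam.ord.cof = ℵ₀ ∧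
    ∀ ν < lam, (2 : Cardinal.{0}) ^ ν < lam := by
  refine ⟨ℶ_ ω, ?_, ?_, ?_⟩
  · rw [← beth_zero, beth_lt_beth]
    exact omega0_pos
  · have h := cof_map_of_isNormal (f := fun o : Ordinal.{0} => (ℶ_ o).ord)
      (isNormal_ord.comp isNormal_beth) isSuccLimit_omega0
    exact h.trans cof_omega0
  · intro ν hν
    have h : IsStrongLimit (ℶ_ (ω : Ordinal.{0})) :=
      isStrongLimit_beth.2 isSuccLimit_omega0.isSuccPrelimit
    exact h.isStrongPrelimit hν

end Pool.Agent.Helper539.LadOrd2
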