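import Mathlib
import Pool.Agent.Helper539.LadPT
import Pool.Agent.Helper539.LadUn
import Pool.Agent.Helper539.LadProd
import Pool.Agent.Helper539.LadAnti

/-!
# Nice names in the extension
-/

namespace Pool.Agent.Helper539.LadPow2

open Cardinal Pool.Agent.Helper539.SPForcing Pool.Agent.Helper539.LadDefs
  Pool.Agent.Helper539.LadFn Pool.Agent.Helper539.LadForced Pool.Agent.Helper539.LadIter
  Pool.Agent.Helper539.LadBasic Pool.Agent.Helper539.LadUn Pool.Agent.Helper539.LadProd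
  Pool.Agent.Helper539.LadAnti Pool.Agent.Helper539.LadPT

universe u v w z

variable {X Θ K : Type u} [LinearOrder X] [WellFoundedLT X] [LinearOrder Θ] [WellFoundedLT Θ]
  {Λ : Type u}


/-- `2 ^ λ ≤ λ⁺` in the extension: the generic function enumerates all the codes of nice names. -/
theorem pow2 [Infinite Λ] [Nonempty Θ] (hnm : ∀ x : X, ∃ y, x < y) {Q : Type u}
    (e : Fn (X × X) → Q) (he : ∀ p q, e p = e q → p ≤ q) (k0 : Bool × (Λ → ℕ → Q × Bool))
    (hk0 : k0.1 = false)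
    (N : Θ → X → X → Set (Cond X Θ (Bool × (Λ → ℕ → Q × Bool))))
    (hP : ∀ f : ℕ → PT Λ k0 (fun k => k.1 = true) N, (∀ n, f (n + 1) ≤ f n) → ∃ l, ∀ n, l ≤ f n)
    (hdist : ∀ D : Λ → Set (PT Λ k0 (fun k => k.1 = true) N),
      (∀ t, ∀ s ∈ D t, ∀ s' ≤ s, s' ∈ D t) →
      (∀ t, ∀ s, ∃ s' ≤ s, s' ∈ D t) → ∀ s, ∃ s' ≤ s, ∀ t, s' ∈ D t)
    (r : PT Λ k0 (fun k => k.1 = true) N × Fn (X × X)) :
    r ∈ FPowLe (PT Λ k0 (fun k => k.1 = true) N × Fn (X × X)) Λ X := by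
  classical
  set PP := PT Λ k0 (fun k : Bool × (Λ → ℕ → Q × Bool) => k.1 = true) N × Fn (X × X) with hPP
  let Z : X → Λ → Set PP := fun x a => {s | x ≤ s.1.1.top ∧ ∃ n, ∃ w : Fn (X × X),
    e w = ((s.1.1.g x).2 a n).1 ∧ ((s.1.1.g x).2 a n).2 = true ∧ s.2 ≤ w}
  refine mem_fex_of_mem Z (down_fall fun _ => down_fex _) ?_
  intro A
  refine mem_fex.2 ?_
  rintro ⟨p, c⟩ _
  obtain ⟨p', hp', W, hW, hpre⟩ := many hP hdist
    (fun a => {s : PP | s ∈ meets (A a) ∨ s ∈ fnot (meets (A a))})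
    (by
      rintro a s (hs | hs) t ht
      · exact Or.inl (down_meets _ s hs t ht)
      · exact Or.inr (down_fnot _ s hs t ht)) p c
    (by
      intro a s _
      by_cases h : ∃ t ≤ s, t ∈ meets (A a)
      · obtain ⟨t, ht, ht'⟩ := h
        exact ⟨t, ht, Or.inl ht'⟩
      · push Not at h
        exact ⟨s, le_rfl, Or.inr h⟩)
  obtain ⟨x, hx⟩ := hnm p'.1.top
  obtain ⟨j⟩ := (inferInstance : Nonempty Θ)
  let k : Bool × (Λ → ℕ → Q × Bool) :=
    (false, fun a n => (e (W a n), decide ((p', W a n) ∈ meets (A a))))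
  have hspec := ext_spec p'.2 j hx (k := k) (by simp [k]) (by simp [hk0])
  let p2 : PT Λ k0 (fun k : Bool × (Λ → ℕ → Q × Bool) => k.1 = true) N :=
    ⟨LadIter.ext k0 p'.1 j x k, hspec.1⟩
  have hp2 : p2 ≤ p' := hspec.2
  have hp2top : p2.1.top = x := rfl
  have hp2g : p2.1.g x = k := by
    show (if x ≤ p'.1.top then p'.1.g x else if x = x then k else k0) = k
    rw [if_neg (not_le.mpr hx), if_pos rfl]
  refine ⟨(p2, c), ⟨hp2.trans hp', le_rfl⟩, x, ?_⟩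
  intro a
  have hgx : ∀ t : PP, t ≤ (p2, c) → x ≤ t.1.1.top ∧ t.1.1.g x = k := by
    intro t ht
    have h1 : t.1.1 ≤ p2.1 := ht.1
    have h2 := le_def.1 h1
    refine ⟨by rw [← hp2top]; exact h2.1, ?_⟩
    rw [h2.2.1 x (by rw [hp2top]), hp2g]
  refine ⟨mem_fimp.2 ?_, mem_fimp.2 ?_⟩
  · intro t ht htA
    obtain ⟨n, u, hu, huW⟩ := hpre a t.2 ht.2
    have hst : ((t.1, u) : PP) ≤ t := ⟨le_rfl, hu⟩
    refine ⟨(t.1, u), hst, meets_of_mem ?_⟩
    obtain ⟨h1, h2⟩ := hgx t ht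
    have hsW : ((t.1, u) : PP) ≤ (p', W a n) := ⟨(show t.1 ≤ p2 from ht.1).trans hp2, huW⟩
    have hin : ((p', W a n) : PP) ∈ meets (A a) := by
      rcases hW a n with h3 | h3
      · exact h3
      · exact absurd (down_meets _ t htA _ hst) (h3 _ hsW)
    refine ⟨h1, n, W a n, ?_, ?_, huW⟩
    · show e (W a n) = ((t.1.1.g x).2 a n).1
      rw [h2]
    · show ((t.1.1.g x).2 a n).2 = true
      rw [h2]
      exact decide_eq_true hin
  · intro t ht htZ
    obtain ⟨r1, hr1, s, hs, hle⟩ := htZ t le_rfl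
    obtain ⟨hs1, n, w, hw1, hw2, hw3⟩ := hs
    obtain ⟨h1, h2⟩ := hgx r1 (hr1.trans ht)
    have h3 : s.1.1.g x = k := by
      rw [← h2]
      exact ((le_def.1 (show r1.1.1 ≤ s.1.1 from hle.1)).2.1 x hs1).symm
    rw [h3] at hw1 hw2
    have hin : ((p', W a n) : PP) ∈ meets (A a) := of_decide_eq_true hw2
    have hwW : w ≤ W a n := he _ _ hw1
    refine ⟨r1, hr1, down_meets _ _ hin _ ⟨?_, ?_⟩⟩
    · exact (show r1.1 ≤ p2 from (hr1.trans ht).1).trans hp2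
    · exact ((show r1.2 ≤ s.2 from hle.2).trans hw3).trans hwW

/-- the Cohen reals are distinct -/
theorem cont2 {P : Type u} [Preorder P] (ι : ℕ → X) (hι : Function.Injective ι)
    (r : P × Fn (X × X)) : r ∈ FLeContinuum (P × Fn (X × X)) X := by
  classical
  refine mem_fex_of_mem (fun (x : X) (n : ℕ) => {s : P × Fn (X × X) |
    (x, ι n) ∈ s.2.dom ∧ s.2.val (x, ι n) = true})
    (down_fall fun _ => down_fall fun _ => down_fimp _ _) ?_
  intro x x'
  refine mem_fimp.2 ?_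
  intro q _ hq
  have hxx : x ≠ x' := by
    intro h
    exact hq q le_rfl h
  have hfin : ∀ y : X, {n : ℕ | (y, ι n) ∈ q.2.dom}.Finite := by
    intro y
    have hinj : Function.Injective (fun n : ℕ => (y, ι n)) := by
      intro m n h
      exact hι (Prod.mk.inj h).2
    exact q.2.dom.finite_toSet.preimage hinj.injOn
  obtain ⟨n, hn⟩ := ((hfin x).union (hfin x')).exists_notMem
  rw [Set.mem_union, not_or] at hn
  obtain ⟨hn1, hn2⟩ := hn
  have hn1' : (x, ι n) ∉ q.2.dom := hn1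
  have hn2' : (x', ι n) ∉ q.2.dom := hn2
  have hne : (x', ι n) ≠ (x, ι n) := fun h => hxx (Prod.mk.inj h).1.symm
  set u1 := upd q.2 (x, ι n) true with hu1
  have hn2'' : (x', ι n) ∉ u1.dom := by
    rw [hu1, mem_upd, not_or]
    exact ⟨hne, hn2'⟩
  set u2 := upd u1 (x', ι n) false with hu2
  have hle1 : u1 ≤ q.2 := upd_le hn1'
  have hle2 : u2 ≤ u1 := upd_le hn2''
  have hm1 : (x, ι n) ∈ u1.dom := mem_upd.2 (Or.inl rfl)
  have hv1 : u1.val (x, ι n) = true := upd_val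
  have hm2 : (x', ι n) ∈ u2.dom := mem_upd.2 (Or.inl rfl)
  have hv2 : u2.val (x', ι n) = false := upd_val
  refine ⟨(q.1, u2), ⟨le_rfl, hle2.trans hle1⟩, ?_⟩
  refine mem_fex_of_mem n (down_fnot _) ?_
  intro s hs hiff
  have hs2 : s.2 ≤ u2 := hs.2
  have hs1 : s.2 ≤ u1 := hs2.trans hle2
  have hsin : s ∈ meets {s : P × Fn (X × X) | (x, ι n) ∈ s.2.dom ∧ s.2.val (x, ι n) = true} := by
    refine meets_of_mem ⟨hs1.1 hm1, ?_⟩
    rw [hs1.2 _ hm1, hv1]
  obtain ⟨s', hs', hmt⟩ := mem_fimp.1 hiff.1 s le_rfl hsin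
  obtain ⟨s'', hs'', t, ⟨ht1, ht2⟩, hst⟩ := hmt s' le_rfl
  have h1 : s''.2.val (x', ι n) = true := by
    rw [(show s''.2 ≤ t.2 from hst.2).2 _ ht1, ht2]
  have h2 : s''.2.val (x', ι n) = false := by
    have h3 : s''.2 ≤ u2 := (show s''.2 ≤ s'.2 from hs''.2).trans
      ((show s'.2 ≤ s.2 from hs'.2).trans hs2)
    rw [h3.2 _ hm2, hv2]
  rw [h1] at h2
  exact absurd h2 (by decide)

end Pool.Agent.Helper539.LadPow2
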