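import Mathlib
import Pool.Agent.Helper539.LadPT
import Pool.Agent.Helper539.LadUn
import Pool.Agent.Helper539.LadProd
import Pool.Agent.Helper539.LadAnti

/-!
# The generic set is stationary
-/

namespace Pool.Agent.Helper539.LadStat2

open Cardinal Pool.Agent.Helper539.SPForcing Pool.Agent.Helper539.LadDefs
  Pool.Agent.Helper539.LadFn Pool.Agent.Helper539.LadForced Pool.Agent.Helper539.LadIter
  Pool.Agent.Helper539.LadBasic Pool.Agent.Helper539.LadUn Pool.Agent.Helper539.LadProd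
  Pool.Agent.Helper539.LadAnti Pool.Agent.Helper539.LadPT

universe u v w z

variable {X Θ K : Type u} [LinearOrder X] [WellFoundedLT X] [LinearOrder Θ] [WellFoundedLT Θ]
  {Λ : Type u} {k0 : K} {σ : K → Prop} {N : Θ → X → X → Set (Cond X Θ K)}


theorem stat2_step [Infinite Λ] [Nonempty Θ] (hnm : ∀ x : X, ∃ y, x < y)
    (hω : ∀ f : ℕ → X, ∃ b, ∀ n, f n < b) (hk0 : ¬ σ k0)
    (hP : ∀ f : ℕ → PT Λ k0 σ N, (∀ n, f (n + 1) ≤ f n) → ∃ l, ∀ n, l ≤ f n)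
    (C : X → Set (PT Λ k0 σ N × Fn (X × X))) (p1 : PT Λ k0 σ N) (c1 : Fn (X × X))
    (hU : (p1, c1) ∈ FUnbounded C) (p : Cond X Θ K) :
    ∃ e : Cond X Θ K, (Legal Λ k0 σ N p → Legal Λ k0 σ N e ∧ e ≤ p ∧ p.top < e.top) ∧
      ∀ hp : Legal Λ k0 σ N p, p ≤ p1.1 → ∃ p' : PT Λ k0 σ N, e ≤ p'.1 ∧
        ∃ (W : ℕ → Fn (X × X)) (x : ℕ → X), (∀ n, p.top < x n ∧ x n < e.top ∧
          (p', W n) ∈ meets (C (x n))) ∧ ∀ q ≤ c1, ∃ n, ∃ r ≤ q, r ≤ W n := by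
  obtain ⟨j⟩ := (inferInstance : Nonempty Θ)
  by_cases hp : Legal Λ k0 σ N p ∧ p ≤ p1.1
  · obtain ⟨hp, hpp⟩ := hp
    have hd : ∀ q ≤ ((⟨p, hp⟩ : PT Λ k0 σ N), c1), ∃ r ≤ q,
        r ∈ {s : PT Λ k0 σ N × Fn (X × X) | ∃ x, p.top < x ∧ s ∈ meets (C x)} := by
      intro q hq
      have hq1 : q ≤ (p1, c1) := ⟨hq.1.trans hpp, hq.2⟩
      obtain ⟨r, hr, x, hx1, hx2⟩ := mem_fex.1 (hU p.top) q hq1
      exact ⟨r, hr, x, hx1, hx2⟩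
    obtain ⟨p', hp', W, hW1, hW2⟩ := predense2 hP
      {s : PT Λ k0 σ N × Fn (X × X) | ∃ x, p.top < x ∧ s ∈ meets (C x)}
      (by
        rintro q ⟨x, hx1, hx2⟩ r hr
        exact ⟨x, hx1, down_meets _ _ hx2 _ hr⟩) ⟨p, hp⟩ c1 hd
    choose x hx1 hx2 using hW1
    obtain ⟨b, hb⟩ := hω x
    obtain ⟨g, hg⟩ := hnm (max b p'.1.top)
    have hg1 : b < g := lt_of_le_of_lt (le_max_left _ _) hg
    have hg2 : p'.1.top < g := lt_of_le_of_lt (le_max_right _ _) hg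
    have hext := ext_spec (N := N) p'.2 j hg2 hk0 hk0
    have hpp' : p'.1 ≤ p := hp'
    refine ⟨ext k0 p'.1 j g k0, fun _ => ⟨hext.1, hext.2.trans hpp', ?_⟩, fun _ _ =>
      ⟨p', hext.2, W, x, fun n => ⟨hx1 n, ?_, hx2 n⟩, hW2⟩⟩
    · exact lt_of_le_of_lt hpp'.1 hg2
    · exact (hb n).trans hg1
  · obtain ⟨g, hg⟩ := hnm p.top
    refine ⟨ext k0 p j g k0, fun hl => ?_, fun hl hle => absurd ⟨hl, hle⟩ hp⟩
    have hext := ext_spec (N := N) hl j hg hk0 hk0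
    exact ⟨hext.1, hext.2, hg⟩

/-- the generic set `S` is stationary in the extension -/
theorem stat2 [Infinite Λ] [Nonempty Θ] (hnm : ∀ x : X, ∃ y, x < y)
    (hω : ∀ f : ℕ → X, ∃ b, ∀ n, f n < b) (hk0 : ¬ σ k0)
    (hP : ∀ f : ℕ → PT Λ k0 σ N, (∀ n, f (n + 1) ≤ f n) → ∃ l, ∀ n, l ≤ f n)
    (hchain : ∀ E : Cond X Θ K → Cond X Θ K,
      (∀ p, Legal Λ k0 σ N p → Legal Λ k0 σ N (E p) ∧ E p ≤ p ∧ p.top < (E p).top) →
      ∀ p0, Legal Λ k0 σ N p0 → ∃ (r : ℕ → Cond X Θ K) (q : Cond X Θ K),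
        (∀ n, Legal Λ k0 σ N (r n)) ∧ r 0 ≤ p0 ∧ (∀ n, r (n + 1) ≤ E (r n)) ∧
        Legal Λ k0 σ N q ∧ (∀ n, q ≤ r n) ∧ ∃ δ, IsLUB (Set.range fun n => (r n).top) δ ∧
          δ ≤ q.top ∧ σ (q.g δ) ∧ CofOmega δ)
    (ρ : PT Λ k0 σ N × Fn (X × X)) :
    ρ ∈ FStationaryName (SName (Λ := Λ) (k0 := k0) (σ := σ) (N := N)) := by
  intro C
  rw [mem_fimp]
  intro q0 _ hq0
  refine ⟨q0, le_rfl, ?_⟩
  rw [mem_fex]
  rintro ⟨p1, c1⟩ hq1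
  have hdown : Down (FClub C) := down_fand (down_fall fun _ => down_fex _)
    (down_fall fun _ => down_fimp _ _)
  have hclub := hdown _ hq0 _ hq1
  choose E hE1 hE2 using stat2_step hnm hω hk0 hP C p1 c1 hclub.1
  obtain ⟨r, q, hrl, hr0, hrs, hql, hqr, δ, hlub, hδq, hδσ, hδc⟩ := hchain E hE1 p1.1 p1.2
  have hrp : ∀ n, r n ≤ p1.1 := by
    intro n
    induction n with
    | zero => exact hr0
    | succ n ih => exact (hrs n).trans ((hE1 (r n) (hrl n)).2.1.trans ih)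
  have htop : ∀ n, (r n).top ≤ δ := fun n => hlub.1 ⟨n, rfl⟩
  have hEt : ∀ n, (E (r n)).top ≤ δ := fun n => (hrs n).1.trans (htop (n + 1))
  refine ⟨(⟨q, hql⟩, c1), ⟨(hqr 0).trans hr0, le_rfl⟩, δ, ?_, ?_⟩
  · exact meets_of_mem ⟨hδq, hδσ, hδc⟩
  · apply meets_of_dense
    intro s hs
    have hs1 : s ≤ (p1, c1) := hs.trans ⟨(hqr 0).trans hr0, le_rfl⟩
    refine mem_fimp.1 (hclub.2 δ) s hs1 ⟨?_, ?_⟩
    · exact ⟨(r 0).top, lt_of_lt_of_le (hE1 (r 0) (hrl 0)).2.2 (hEt 0)⟩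
    · intro b
      rw [mem_fimp]
      intro s' hs' hb
      refine ⟨s', le_rfl, ?_⟩
      rw [mem_fex]
      intro s'' hs''
      have hb' : b < δ := hb
      obtain ⟨_, ⟨n, rfl⟩, hn⟩ := (lt_isLUB_iff hlub).1 hb'
      obtain ⟨p', hep, W, x, hx, hW⟩ := hE2 (r n) (hrl n) (hrp n)
      have hle : s'' ≤ ((⟨q, hql⟩ : PT Λ k0 σ N), c1) := hs''.trans (hs'.trans hs)
      obtain ⟨m, u, hu1, hu2⟩ := hW s''.2 hle.2
      have hlt := hx m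
      refine ⟨(s''.1, u), ⟨le_rfl, hu1⟩, x m, ⟨?_, ?_⟩, ?_⟩
      · exact lt_trans hn hlt.1
      · exact lt_of_lt_of_le hlt.2.1 (hEt n)
      · refine down_meets _ _ hlt.2.2 _ ⟨?_, hu2⟩
        have h1 : s''.1.1 ≤ q := hle.1
        exact h1.trans ((hqr (n + 1)).trans ((hrs n).trans hep))

end Pool.Agent.Helper539.LadStat2
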