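import Mathlib
import Pool.Agent.Helper539.LadStatP
import Pool.Agent.Helper539.LadBranch
import Pool.Agent.Helper539.LadPow2
import Pool.Agent.Helper539.LadFName
import Pool.Agent.Helper539.LadStat2
import Pool.Agent.Helper539.LadNex
import Pool.Agent.Helper539.LadKey
import Pool.Agent.Helper539.LadCC
import Pool.Agent.Helper539.LadBook
import Pool.Agent.Helper539.LadOrd
import Pool.Agent.Helper539.LadOrd2
import Pool.Agent.Helper539.LadGround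
import Pool.Agent.Helper539.LadClub

/-!
# The forcing notion: assembling the parts
-/

namespace Pool.Agent.Helper539.LadAll

open Pool.Agent.Helper539.SPForcing Pool.Agent.Helper539.LadDefs
  Pool.Agent.Helper539.LadFn Pool.Agent.Helper539.LadForced Pool.Agent.Helper539.LadIter
  Pool.Agent.Helper539.LadBasic Pool.Agent.Helper539.LadPT

universe u v z

section closure

variable {X Θ K : Type u} [LinearOrder X] [WellFoundedLT X] [LinearOrder Θ] [WellFoundedLT Θ]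
  {Λ : Type u} {k0 : K} {σ : K → Prop} {N : Θ → X → X → Set (Cond X Θ K)}

/-- small chains have lower bounds -/
theorem chain_closed [Nonempty X] [Infinite Λ] (hbd : ∀ f : Λ → X, ∃ b, ∀ n, f n < b)
    (hk0 : ¬ σ k0) (C : Set (PT Λ k0 σ N)) (hC : IsChain (· ≤ ·) C) (hne : C.Nonempty)
    (hf : ∃ f : C → Λ, Function.Injective f) : ∃ l, ∀ c ∈ C, l ≤ c := by
  obtain ⟨f, hf⟩ := hf
  have hC' : IsChain (· ≤ ·) (Subtype.val '' C : Set (Cond X Θ K)) := by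
    rintro _ ⟨a, ha, rfl⟩ _ ⟨b, hb, rfl⟩ hab
    exact hC ha hb fun h => hab (by rw [h])
  have hne' : (Subtype.val '' C : Set (Cond X Θ K)).Nonempty := hne.image _
  have hsm : Nonempty (↥(Subtype.val '' C : Set (Cond X Θ K)) ↪ Λ) := by
    refine ⟨⟨fun c => f ⟨⟨c.1, ?_⟩, ?_⟩, ?_⟩⟩
    · obtain ⟨a, _, h⟩ := c.2
      rw [← h]
      exact a.2
    · obtain ⟨a, ha, h⟩ := c.2
      have : (⟨c.1, by rw [← h]; exact a.2⟩ : PT Λ k0 σ N) = a := Subtype.ext h.symm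
      rw [this]
      exact ha
    · intro c c' h
      have := hf h
      have := congrArg (fun s => s.1.1) this
      exact Subtype.ext this
  have hl : ∀ c ∈ (Subtype.val '' C : Set (Cond X Θ K)), Legal Λ k0 σ N c := by
    rintro _ ⟨a, _, rfl⟩
    exact a.2
  refine ⟨⟨lim k0 (Subtype.val '' C), LadLim.legal_lim hbd hC' hne' hsm hk0 hl⟩, fun c hc => ?_⟩
  exact LadLim.lim_le hbd hC' hne' hsm (fun c hc => (hl c hc).1) c.1 ⟨c, hc, rfl⟩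

theorem nat_closed [Nonempty X] [Infinite Λ] (hbd : ∀ f : Λ → X, ∃ b, ∀ n, f n < b)
    (hk0 : ¬ σ k0) (f : ℕ → PT Λ k0 σ N) (hf : ∀ n, f (n + 1) ≤ f n) : ∃ l, ∀ n, l ≤ f n :=
  LadDist.dist_nat (Λ := Λ) (chain_closed hbd hk0) f hf

theorem small_dist [Nonempty X] [Infinite Λ] (hbd : ∀ f : Λ → X, ∃ b, ∀ n, f n < b)
    (hk0 : ¬ σ k0) {T : Type v} (hT : ∃ f : T → Λ, Function.Injective f)
    (D : T → Set (PT Λ k0 σ N)) (hopen : ∀ t, ∀ s ∈ D t, ∀ s' ≤ s, s' ∈ D t)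
    (hdense : ∀ t, ∀ s, ∃ s' ≤ s, s' ∈ D t) (s : PT Λ k0 σ N) : ∃ s' ≤ s, ∀ t, s' ∈ D t := by
  obtain ⟨f, hf⟩ := hT
  let D' : Set.range f → Set (PT Λ k0 σ N) := fun l => D (Classical.choose l.2)
  obtain ⟨s', hs', h⟩ := LadDist.dist (Λ := Λ) (chain_closed hbd hk0)
    (T := Set.range f) ⟨⟨Subtype.val, Subtype.val_injective⟩⟩ D' (fun t => hopen _)
    (fun t => hdense _) s
  refine ⟨s', hs', fun t => ?_⟩
  have h1 := h ⟨f t, t, rfl⟩
  have h2 : Classical.choose (⟨t, rfl⟩ : ∃ y, f y = f t) = t :=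
    hf (Classical.choose_spec (⟨t, rfl⟩ : ∃ y, f y = f t))
  have h3 : D' ⟨f t, t, rfl⟩ = D t := by
    show D (Classical.choose (⟨t, rfl⟩ : ∃ y, f y = f t)) = D t
    rw [h2]
  rw [h3] at h1
  exact h1

/-- catching the generic set -/
theorem chain_exists {Ω : Type u} [Nonempty X] [Infinite Λ] [Uncountable Ω]
    (hbd : ∀ f : Λ → X, ∃ b, ∀ n, f n < b) (hk0 : ¬ σ k0) {k : K} (hk : σ k)
    (Λn : ℕ → Set Λ) (hΛm : Monotone Λn) (hΛc : ∀ l, ∃ n, l ∈ Λn n)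
    (hΛ : ∀ n, Nonempty ((ℕ × ℕ × ↥(Λn n) → Ω) ↪ Λ))
    (E : Cond X Θ K → Cond X Θ K)
    (hE : ∀ p, Legal Λ k0 σ N p → Legal Λ k0 σ N (E p) ∧ E p ≤ p ∧ p.top < (E p).top)
    (p0 : Cond X Θ K) (hp0 : Legal Λ k0 σ N p0) :
    ∃ (r : ℕ → Cond X Θ K) (q : Cond X Θ K),
      (∀ n, Legal Λ k0 σ N (r n)) ∧ r 0 ≤ p0 ∧ (∀ n, r (n + 1) ≤ E (r n)) ∧
      Legal Λ k0 σ N q ∧ (∀ n, q ≤ r n) ∧ ∃ δ, IsLUB (Set.range fun n => (r n).top) δ ∧
        δ ≤ q.top ∧ σ (q.g δ) ∧ CofOmega δ := by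
  obtain ⟨B, Q, h1, h2, h3, h4, h5, h6, h7, h8, h9, h10, h11⟩ :=
    LadStatP.levels (Ω := Ω) hbd hk0 Λn hΛm hΛc hΛ E hE hp0
  obtain ⟨τ, q, hq, hqQ, δ, hδ, hδq, hσ⟩ :=
    LadBranch.branch hbd hk0 hk B h1 Q h2 h3 h5 h6 h7 h8 h9 h10
  choose r hr1 hr2 hr3 using fun n => h11 n τ
  have htopQ : ∀ n, (Q n τ).top ≤ (r n).top := fun n => (hr2 n).1
  have htopr : ∀ n, (r n).top < (Q (n + 1) τ).top := fun n =>
    ((hE _ (hr1 n)).2.2).trans_le (hr3 n).1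
  refine ⟨r, q, hr1, (hr2 0).trans (h4 τ), fun n => (hr2 (n + 1)).trans (hr3 n), hq, fun n =>
    ((hqQ (n + 1)).trans (hr3 n)).trans (hE _ (hr1 n)).2.1, δ, ⟨?_, ?_⟩, hδq, hσ, ?_⟩
  · rintro _ ⟨n, rfl⟩
    exact (htopr n).le.trans (hδ.1 ⟨n + 1, rfl⟩)
  · intro b hb
    apply hδ.2
    rintro _ ⟨n, rfl⟩
    exact (htopQ n).trans (hb ⟨n, rfl⟩)
  · refine ⟨fun n => (Q n τ).top, fun n => (h9 n τ).trans_le (hδ.1 ⟨n + 1, rfl⟩), fun b hb => ?_⟩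
    by_contra hcon
    push Not at hcon
    refine absurd (hδ.2 (?_ : b ∈ upperBounds _)) (not_le.2 hb)
    rintro _ ⟨n, rfl⟩
    exact hcon n

end closure

end Pool.Agent.Helper539.LadAll
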