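import Mathlib
import Pool.Agent.Helper539.LadAll

/-!
# The final assembly
-/

namespace Pool.Agent.Helper539.LadFinal

open Cardinal Order Pool.Agent.Helper539.SPForcing Pool.Agent.Helper539.LadDefs
  Pool.Agent.Helper539.LadFn Pool.Agent.Helper539.LadForced Pool.Agent.Helper539.LadIter
  Pool.Agent.Helper539.LadBasic Pool.Agent.Helper539.LadPT Pool.Agent.Helper539.LadAll

universe u v z

open Classical in
/-- the finite data of a Cohen condition -/
noncomputable def enc {J : Type u} (p : Fn J) : Finset J × Finset J :=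
  (p.dom, p.dom.filter fun j => p.val j = true)

theorem enc_le {J : Type u} (p q : Fn J) (h : enc p = enc q) : p ≤ q := by
  classical
  have h1 : p.dom = q.dom := congrArg Prod.fst h
  have h2 : (p.dom.filter fun j => p.val j = true) = q.dom.filter fun j => q.val j = true :=
    congrArg Prod.snd h
  refine ⟨h1 ▸ subset_rfl, fun j hj => ?_⟩
  have h3 : j ∈ (p.dom.filter fun j => p.val j = true) ↔
      j ∈ q.dom.filter fun j => q.val j = true := by rw [h2]
  simp only [Finset.mem_filter, h1, hj, true_and] at h3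
  cases hp : p.val j <;> cases hq : q.val j <;> simp_all

/-- the colour set may be any set with at least two elements -/
theorem noPairGuessing {X Θ K M' : Type u} [LinearOrder X] [WellFoundedLT X] [LinearOrder Θ]
    [WellFoundedLT Θ] {Λ : Type u} {k0 : K} {σ : K → Prop} {N : Θ → X → X → Set (Cond X Θ K)}
    [Nonempty X] [Infinite Λ] [Nonempty Θ] (hbd : ∀ f : Λ → X, ∃ b, ∀ n, f n < b)
    (hnm : ∀ x : X, ∃ y, x < y) (hk0 : ¬ σ k0) (hle : ∀ x : X, Nonempty (Set.Iic x ↪ Λ))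
    (hM : #M' ^ #Λ = #M') (hM2 : 2 ≤ #M') (hX : #X ≤ #M') (hK : #K ≤ #M')
    (hbook : ∀ V : Set Θ, #V ≤ #M' →
      ∀ Nm : X → X → Set (Cond X Θ K), (∀ γ x, ∀ b ∈ Nm γ x, WF Λ k0 b ∧ b.supp ⊆ V) →
        ∀ j0 : Θ, ∃ j, j0 ≤ j ∧ N j = Nm)
    (hcf : ∀ V : Set Θ, #V ≤ #M' → ∃ j0, ∀ j ∈ V, j < j0)
    (M : Type z) [Nontrivial M] (r : PT Λ k0 σ N × Fn (X × X)) :
    r ∈ NoPairGuessingName (SName (Λ := Λ) (k0 := k0) (σ := σ) (N := N)) ℕ
      (fun i => 2 * i) (fun i => 2 * i + 1) M := by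
  classical
  intro L
  refine mem_fimp.2 fun q hq hL => ⟨q, le_rfl, ?_⟩
  have hnat : ∃ f : ℕ → Λ, Function.Injective f :=
    ⟨Infinite.natEmbedding Λ, (Infinite.natEmbedding Λ).injective⟩
  obtain ⟨j, Z, h, h1, h2, h3, h4, h5, h6⟩ := LadNex.names_exist (M := M') hnm hk0
    (nat_closed hbd hk0) (small_dist hbd hk0 hnat) hbook
    (fun Z hZ hanti => LadCC.antichains_small (M := M') (A' := X) hle hM hM2 hX hK hX Z hZ hanti)
    hcf (p0 := q.1) (c0 := q.2) L hL
  obtain ⟨m0, m1, hm⟩ := exists_pair_ne M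
  let val : Bool → M := fun b => if b then m1 else m0
  have hval : val true ≠ val false := by
    simp only [val]
    exact fun h => hm (by simpa using h.symm)
  refine mem_fex_of_mem (fName (Λ := Λ) (k0 := k0) (σ := σ) (N := N) j val)
    (down_fand (down_IsFun _) (down_fex _)) ⟨LadFName.isFun_fName hnm hk0 j val q, ?_⟩
  refine mem_fex_of_mem (CName (Λ := Λ) (k0 := k0) (σ := σ) (N := N) j)
    (down_fand (down_fand (down_fall fun _ => down_fex _) (down_fall fun _ => down_fimp _ _))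
      (down_fall fun _ => down_fimp _ _))
    ⟨LadFName.club_CName hnm hk0 (nat_closed hbd hk0) j q, fun a => ?_⟩
  exact LadKey.key hnm hk0 (ev := fun i => 2 * i) (od := fun i => 2 * i + 1) (fun i => by
    show 2 * i < 2 * i + 1
    omega) (fun i => ⟨i, by
    show i ≤ 2 * i
    omega⟩) val hval L hL j Z h h1 h2 h3 h4 h5 h6 a

theorem main {lam : Cardinal.{0}} (h0 : ℵ₀ < lam) (hcof : lam.ord.cof = ℵ₀)
    (hs : ∀ ν < lam, (2 : Cardinal.{0}) ^ ν < lam) :
    ∃ (P : Type 1) (_ : Preorder P), Nonempty P ∧ ∀ (M : Type z) [Nontrivial M] (p : P),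
      p ∈ LadderGuessingFails P (Set.Iio lam.ord) (Set.Iio (succ lam).ord) M := by
  classical
  let X : Type 1 := Set.Iio (succ lam).ord
  let Λ : Type 1 := Set.Iio lam.ord
  let Q : Type 1 := Finset (X × X) × Finset (X × X)
  let K : Type 1 := Bool × (Λ → ℕ → Q × Bool)
  let M' : Type 1 := Set Λ
  let Θ : Type 1 := LadOrd2.TH lam
  have iΛ : Infinite Λ := LadOrd.infinite_Iio h0.le
  have iX : Infinite X := LadOrd.infinite_Iio (h0.le.trans (le_succ lam))
  have hbd : ∀ f : Λ → X, ∃ b, ∀ n, f n < b :=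
    LadClub.bounded_of_succ LadOrd.le_succ' (LadOrd.not_emb lam)
  have hnm : ∀ x : X, ∃ y, x < y := fun x => LadOrd.exists_gt (h0.le.trans (le_succ lam)) x
  have hω : ∀ f : ℕ → X, ∃ b, ∀ n, f n < b := by
    intro f
    obtain ⟨b, hb⟩ := hbd fun l => f (Function.invFun (Infinite.natEmbedding Λ) l)
    refine ⟨b, fun n => ?_⟩
    have := hb (Infinite.natEmbedding Λ n)
    rwa [Function.leftInverse_invFun (Infinite.natEmbedding Λ).injective n] at this
  have hle : ∀ x : X, Nonempty (Set.Iic x ↪ Λ) := LadOrd2.iic_emb h0.le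
  let σ : K → Prop := fun k => k.1 = true
  let k0 : K := (false, fun _ _ => ((∅, ∅), false))
  have hk0 : ¬ σ k0 := by simp [σ, k0]
  have hk1 : σ ((true, k0.2) : K) := rfl
  obtain ⟨N, hN⟩ := LadBook.bookkeeping (X := X) (Θ := Θ) (K := K) (M := M') (Λ := Λ) k0 hle
    LadOrd2.pow_set LadOrd2.two_le_set (LadOrd2.succ_le_set h0.le) (LadOrd2.codes_le_set h0.le)
    LadOrd2.card_TH LadOrd2.iio_TH
  have iΘ : Nonempty Θ := LadOrd2.nonempty_TH
  have iX' : Nonempty X := inferInstance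
  have hP := nat_closed (Λ := Λ) (k0 := k0) (σ := σ) (N := N) hbd hk0
  obtain ⟨Λn, hΛm, hΛc, hΛ⟩ := LadOrd2.exhaust h0 hcof hs
  have iΩ : Uncountable (ULift.{1} (Set ℕ)) := LadOrd2.uncountable_opt
  obtain ⟨x0⟩ := iX'
  have hne : Nonempty (PT Λ k0 σ N) :=
    ⟨⟨⟨x0, fun _ => k0, ∅, fun _ => ∅⟩, ⟨⟨⟨fun x => x.2.elim, fun x => x.2.elim⟩⟩,
      fun j hj => hj.elim, fun _ _ => rfl, fun _ _ => rfl⟩, fun j hj => hj.elim⟩⟩
  refine ⟨PT Λ k0 σ N × Fn (X × X), inferInstance, ?_, fun M _ p => ?_⟩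
  · obtain ⟨p⟩ := hne
    exact ⟨(p, ⟨∅, fun _ => false⟩)⟩
  have hΛX : ∀ p : PT Λ k0 σ N × Fn (X × X), p ∈ fnot (FImage _ Λ X) := fun p =>
    LadProd.not_image2 hP (small_dist hbd hk0 ⟨id, Function.injective_id⟩)
      (LadOrd.succ_not_image h0.le) p
  refine ⟨fun a => LadProd.not_image2 hP (small_dist hbd hk0
    ⟨Subtype.val, Subtype.val_injective⟩) (LadOrd.card_not_image h0 a) p, ?_, ?_,
    LadGround.succ_of hle hΛX p, ?_, ?_, ?_⟩
  · -- an infinite proper initial segment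
    obtain ⟨f, hf, hf'⟩ := LadOrd2.cofinal_seq h0 hcof
    by_contra hcon
    have hfin : ∀ a : Λ, (Set.Iio a).Finite := fun a => by
      by_contra h
      exact hcon ⟨a, Set.infinite_coe_iff.2 h⟩
    have hcov : (Set.univ : Set Λ) = ⋃ n, Set.Iio (f n) := by
      ext x
      simp only [Set.mem_univ, Set.mem_iUnion, true_iff]
      exact hf' x
    have hc : (Set.univ : Set Λ).Countable := by
      rw [hcov]
      exact Set.countable_iUnion fun n => (hfin _).countable
    have : Countable Λ := Set.countable_univ_iff.1 hc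
    obtain ⟨g, hg⟩ := exists_injective_nat Λ
    exact (LadOrd2.not_nat_image h0).elim ⟨fun x => (g x, 0), fun x y h =>
      hg (congrArg Prod.fst h)⟩
  · exact LadOrd2.cofinal_seq h0 hcof
  · exact LadPow2.pow2 hnm enc enc_le k0 rfl N hP (small_dist hbd hk0
      ⟨id, Function.injective_id⟩) p
  · exact LadPow2.cont2 (Infinite.natEmbedding X) (Infinite.natEmbedding X).injective p
  · refine mem_fex_of_mem (SName (Λ := Λ) (k0 := k0) (σ := σ) (N := N))
      (down_fand (down_fall fun _ => down_fimp _ _) (down_fand (down_fall fun _ => down_fimp _ _)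
        (down_fall fun _ => down_fimp _ _))) ⟨fun a => ?_, ?_, ?_⟩
    · refine mem_fimp.2 fun q _ hq => ?_
      obtain ⟨r, hr, s, hs', _⟩ := hq q le_rfl
      exact ⟨q, le_rfl, hs'.2.2⟩
    · exact LadStat2.stat2 hnm hω hk0 hP (fun E hE p0 hp0 =>
        chain_exists (Ω := ULift.{1} (Set ℕ)) hbd hk0 hk1 Λn hΛm hΛc hΛ E hE p0 hp0) p
    · exact noPairGuessing (M' := M') hbd hnm hk0 hle LadOrd2.pow_set LadOrd2.two_le_set
        (LadOrd2.succ_le_set h0.le) (LadOrd2.codes_le_set h0.le) hN (LadOrd2.cof_TH h0.le) M p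

end Pool.Agent.Helper539.LadFinal
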