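import Mathlib
import Pool.Agent.Helper539.LadDefs

/-!
# Ground model surjections
-/

namespace Pool.Agent.Helper539.LadGround

open Pool.Agent.Helper539.SPForcing Pool.Agent.Helper539.LadDefs

universe u v w

/-- ground model surjections are surjections in the extension -/
theorem image_of_surj {P : Type u} [Preorder P] {A : Type v} {B : Type w} (f : A → B)
    (hf : Function.Surjective f) (p : P) : p ∈ FImage P A B := by
  have key : ∀ (a : A) (b : B) (q : P), q ∈ meets (P := P) ({_r | f a = b}) ↔ f a = b := by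
    intro a b q
    constructor
    · intro h
      obtain ⟨r, _, s, hs, _⟩ := h q le_rfl
      exact hs
    · intro h
      exact meets_of_mem h
  refine mem_fex_of_mem (fun a b => {_r | f a = b}) (down_fand (down_IsFun _) (down_IsOnto _)) ⟨⟨?_, ?_⟩, ?_⟩
  · intro a
    exact mem_fex_of_mem (f a) (down_meets _) ((key a (f a) p).2 rfl)
  · intro a b b'
    rw [mem_fimp]
    intro q _ h
    refine ⟨q, le_rfl, ?_⟩
    have h1 := (key a b q).1 h.1
    have h2 := (key a b' q).1 h.2
    exact h1.symm.trans h2
  · intro b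
    obtain ⟨a, ha⟩ := hf b
    exact mem_fex_of_mem a (down_meets _) ((key a b p).2 ha)

theorem succ_of {P : Type u} [Preorder P] {Λ : Type w} {X : Type v} [LinearOrder X]
    [Nonempty Λ] (hle : ∀ x : X, Nonempty (Set.Iic x ↪ Λ))
    (hn : ∀ p : P, p ∈ fnot (FImage P Λ X)) (p : P) : p ∈ FSucc P Λ X := by
  refine ⟨hn p, ?_⟩
  intro x
  rw [mem_fimp]
  intro q _ h
  obtain ⟨y, hy⟩ : ∃ y, y < x := h
  refine ⟨q, le_rfl, ?_⟩
  obtain ⟨e⟩ := hle x
  haveI : Nonempty (Set.Iio x) := ⟨⟨y, hy⟩⟩
  let e' : Set.Iio x → Λ := fun z => e ⟨z.1, le_of_lt z.2⟩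
  have he' : Function.Injective e' := by
    intro z z' h
    have h1 := e.injective h
    apply Subtype.ext
    exact congrArg (fun w : Set.Iic x => (w : X)) h1
  exact image_of_surj (Function.invFun e') (Function.invFun_surjective he') q

end Pool.Agent.Helper539.LadGround
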