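import Mathlib
import Pool.Agent.Helper539.LadIter
import Pool.Agent.Helper539.LadBasic
import Pool.Agent.Helper539.LadAm
import Pool.Agent.Helper539.LadLim
import Pool.Agent.Helper539.LadUn

/-!
# The iteration for colourings with `λ` colours: legal conditions

Conditions are the flat conditions of `LadIter`. The elements of the coordinates `y j` are
markers. Every point `ν` of `X` has a label `lab ν`, an element of the set `Λ` of size `λ`. The
colour of `x` in the coordinate `j` will be a pair consisting of the label of the next marker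
above `x` and of an element of `Λ` depending on `x` and on this marker.
-/

namespace Pool.Agent.Helper539.LbIter

open Pool.Agent.Helper539.LadIter hiding Req ReqAt Lg Legal

universe u

/-- labels of the points of `X` -/
class HasLab (X : Type u) (Λ : outParam (Type u)) where
  /-- the label of a point -/
  lab : X → Λ

section

variable {X Θ K : Type u} [LinearOrder X]

/-- `ν` is the least element of `y` above `x` -/
def Next (y : Set X) (x ν : X) : Prop := x < ν ∧ ν ∈ y ∧ ∀ η, x < η → η < ν → η ∉ y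

/-- beyond `ξ`, different next markers below `γ` of points of `A` have different labels -/
def Spread {Λ : Type u} [HasLab X Λ] (A y : Set X) (ξ γ : X) : Prop :=
  ∀ x ∈ A, ∀ x' ∈ A, ξ < x → ξ < x' → ∀ ν ν', Next y x ν → Next y x' ν' → ν < γ → ν' < γ →
    HasLab.lab ν = HasLab.lab ν' → ν = ν'

/-- the requirement at `γ` -/
def Req {Λ : Type u} [HasLab X Λ] (L : Set (Cond X Θ K)) (Nγ : X → Set (Cond X Θ K))
    (r : Cond X Θ K) (y : Set X) (γ : X) : Prop :=
  (∃ A : Set X, A.Countable ∧ Covers L Nγ r A ∧ ∃ ξ < γ, Spread A y ξ γ) ∨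
    ∀ q ∈ L, q ≤ r → ¬ ∃ A : Set X, A.Countable ∧ Covers L Nγ q A

variable [LinearOrder Θ]

/-- the requirement on the coordinate `j` -/
def ReqAt {Λ : Type u} [HasLab X Λ] (σ : K → Prop) (L : Set (Cond X Θ K))
    (N : Θ → X → X → Set (Cond X Θ K)) (j : Θ) (p : Cond X Θ K) : Prop :=
  ∀ γ ≤ p.top, σ (p.g γ) → CofOmega γ → Unb (p.y j) γ →
    Req L (N j γ) (restr p (Set.Iio j)) (p.y j) γ

variable [WellFoundedLT Θ]

/-- the legal conditions with support below `j`, by recursion on `j` -/
noncomputable def Lg (Λ : Type u) [HasLab X Λ] (k0 : K) (σ : K → Prop)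
    (N : Θ → X → X → Set (Cond X Θ K)) : Θ → Set (Cond X Θ K) :=
  WellFounded.fix (wellFounded_lt (α := Θ)) fun j ih =>
    {p | WF Λ k0 p ∧ p.supp ⊆ Set.Iio j ∧ ∀ i, ∀ h : i < j, i ∈ p.supp → ReqAt σ (ih i h) N i p}

/-- the legal conditions -/
def Legal (Λ : Type u) [HasLab X Λ] (k0 : K) (σ : K → Prop) (N : Θ → X → X → Set (Cond X Θ K))
    (p : Cond X Θ K) : Prop :=
  WF Λ k0 p ∧ ∀ i ∈ p.supp, ReqAt σ (Lg Λ k0 σ N i) N i p

/-- raising the top to `T` and adding the markers `W` -/
def addW (p : Cond X Θ K) (T : X) (W : Θ → Set X) : Cond X Θ K :=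
  ⟨T, p.g, p.supp, fun j => p.y j ∪ W j⟩

end

end Pool.Agent.Helper539.LbIter
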