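import Mathlib
import Pool.Agent.Helper539.LbIter

/-!
# Restrictions, amalgamations, unions, limits of legal conditions
-/

namespace Pool.Agent.Helper539.LbBasic

open Pool.Agent.Helper539.LadIter hiding Req ReqAt Lg Legal
open Pool.Agent.Helper539.LadBasic hiding Req.mono lg_eq mem_lg legal_restr
open Pool.Agent.Helper539.LadAm hiding legal_am
open Pool.Agent.Helper539.LadUn hiding reqAt_of union_spec ext_spec pad_spec
open Pool.Agent.Helper539.LadLim hiding legal_lim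
open Pool.Agent.Helper539.LbIter

universe u

variable {X Θ K : Type u} [LinearOrder X] [LinearOrder Θ] [WellFoundedLT Θ]
  {Λ : Type u} [HasLab X Λ] {k0 : K} {σ : K → Prop} {N : Θ → X → X → Set (Cond X Θ K)}

omit [LinearOrder Θ] [WellFoundedLT Θ] [HasLab X Λ] in
theorem next_congr {y y' : Set X} {γ : X} (hy : ∀ x < γ, (x ∈ y' ↔ x ∈ y)) {x ν : X}
    (hν : ν < γ) (h : Next y' x ν) : Next y x ν :=
  ⟨h.1, (hy ν hν).1 h.2.1, fun η h1 h2 h3 => h.2.2 η h1 h2 ((hy η (h2.trans hν)).2 h3)⟩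

theorem Req.mono {L : Set (Cond X Θ K)} {Nγ : X → Set (Cond X Θ K)} {r r' : Cond X Θ K}
    {y y' : Set X} {γ : X} (h : LbIter.Req L Nγ r y γ) (hr : r' ≤ r)
    (hy : ∀ x < γ, (x ∈ y' ↔ x ∈ y)) : LbIter.Req L Nγ r' y' γ := by
  rcases h with ⟨A, hA, hc, ξ, hξ, hξA⟩ | h
  · refine Or.inl ⟨A, hA, Covers.mono hc hr, ξ, hξ, ?_⟩
    intro x hx x' hx' h1 h2 ν ν' hν hν' h3 h4 hlab
    exact hξA x hx x' hx' h1 h2 ν ν' (next_congr hy h3 hν) (next_congr hy h4 hν') h3 h4 hlab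
  · exact Or.inr fun q hq hqr => h q hq (hqr.trans hr)

theorem lg_eq (j : Θ) : Lg Λ k0 σ N j = {p | WF Λ k0 p ∧ p.supp ⊆ Set.Iio j ∧
    ∀ i, i < j → i ∈ p.supp → ReqAt σ (Lg Λ k0 σ N i) N i p} := by
  unfold Lg
  rw [WellFounded.fix_eq]

theorem mem_lg {j : Θ} {p : Cond X Θ K} :
    p ∈ Lg Λ k0 σ N j ↔ Legal Λ k0 σ N p ∧ p.supp ⊆ Set.Iio j := by
  rw [lg_eq]
  constructor
  · rintro ⟨h1, h2, h3⟩
    exact ⟨⟨h1, fun i hi => h3 i (h2 hi) hi⟩, h2⟩
  · rintro ⟨⟨h1, h3⟩, h2⟩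
    exact ⟨h1, h2, fun i _ hi => h3 i hi⟩

theorem legal_restr {p : Cond X Θ K} (hp : Legal Λ k0 σ N p) {U : Set Θ} (hU : IsLowerSet U) :
    Legal Λ k0 σ N (restr p U) := by
  refine ⟨wf_restr hp.1 U, fun i hi γ hγ hσ hc hu => ?_⟩
  have hiU : i ∈ U := hi.2
  have hy : (restr p U).y i = p.y i := by
    ext x
    exact ⟨fun h => h.1, fun h => ⟨h, hiU⟩⟩
  have hr : restr (restr p U) (Set.Iio i) = restr p (Set.Iio i) := by
    rw [restr_restr]
    congr 1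
    exact Set.inter_eq_right.2 fun j hj => hU (le_of_lt hj) hiU
  rw [hy] at hu ⊢
  rw [hr]
  exact hp.2 i hi.1 γ hγ hσ hc hu

theorem legal_am [Infinite Λ] {U : Set Θ} (hU : IsLowerSet U) {p q : Cond X Θ K}
    (hp : Legal Λ k0 σ N p) (hq : Legal Λ k0 σ N q) (h : restr q U ≤ restr p U) :
    Legal Λ k0 σ N (am U q p) := by
  have htop : p.top ≤ q.top := h.1
  have hg : ∀ x ≤ p.top, q.g x = p.g x := h.2.1
  have hsupp : ∀ j, j ∈ (am U q p).supp → (j ∈ U ∧ j ∈ q.supp) ∨ (j ∉ U ∧ j ∈ p.supp) := by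
    rintro j (⟨h1, h2⟩ | ⟨h1, h2⟩)
    · exact Or.inl ⟨h2, h1⟩
    · exact Or.inr ⟨h2, h1⟩
  have ypos : ∀ j ∈ U, (am U q p).y j = q.y j := fun j hj => if_pos hj
  have yneg : ∀ j, j ∉ U → (am U q p).y j = p.y j := fun j hj => if_neg hj
  refine ⟨⟨?_, ?_, ?_, hq.1.2.2.2⟩, ?_⟩
  · rw [← Cardinal.le_def]
    have h1 : Cardinal.mk ((am U q p).supp) ≤ Cardinal.mk ((q.supp ∪ p.supp : Set Θ)) := by
      apply Cardinal.mk_le_mk_of_subset
      intro j hj
      rcases hsupp j hj with h | h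
      · exact Or.inl h.2
      · exact Or.inr h.2
    refine h1.trans ((Cardinal.mk_union_le _ _).trans ?_)
    have h2 : Cardinal.mk q.supp ≤ Cardinal.mk Λ := Cardinal.le_def _ _ |>.2 hq.1.1
    have h3 : Cardinal.mk p.supp ≤ Cardinal.mk Λ := Cardinal.le_def _ _ |>.2 hp.1.1
    calc Cardinal.mk q.supp + Cardinal.mk p.supp ≤ Cardinal.mk Λ + Cardinal.mk Λ :=
          add_le_add h2 h3
      _ = Cardinal.mk Λ := Cardinal.add_eq_self (Cardinal.aleph0_le_mk Λ)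
  · intro j hj x hx
    rcases hsupp j hj with h | h
    · rw [ypos j h.1] at hx
      exact hq.1.2.1 j h.2 x hx
    · rw [yneg j h.1] at hx
      exact (hp.1.2.1 j h.2 x hx).trans htop
  · intro j hj
    by_cases hjU : j ∈ U
    · rw [ypos j hjU]
      exact hq.1.2.2.1 j (fun h' => hj (Or.inl ⟨h', hjU⟩))
    · rw [yneg j hjU]
      exact hp.1.2.2.1 j (fun h' => hj (Or.inr ⟨h', hjU⟩))
  · intro i hi γ hγ hσ hc hu
    rcases hsupp i hi with h' | h'
    · have e1 : restr (am U q p) (Set.Iio i) = restr q (Set.Iio i) := by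
        have e2 : U ∩ Set.Iio i = Set.Iio i :=
          Set.inter_eq_right.2 (fun x hx => hU (le_of_lt hx) h'.1)
        rw [← e2, ← restr_restr, restr_am, restr_restr]
      rw [ypos i h'.1] at hu ⊢
      rw [e1]
      exact hq.2 i h'.2 γ hγ hσ hc hu
    · rw [yneg i h'.1] at hu ⊢
      have hγp : γ ≤ p.top := by
        by_contra hcon
        push Not at hcon
        obtain ⟨x, hx, hx1, -⟩ := hu p.top hcon
        exact absurd (hp.1.2.1 i h'.2 x hx) (not_le.2 hx1)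
      have hσ' : σ (p.g γ) := by
        rw [← hg γ hγp]; exact hσ
      exact Req.mono (hp.2 i h'.2 γ hγp hσ' hc hu) (restr_mono (am_le_left h) _)
        (fun x _ => Iff.rfl)

theorem reqAt_of {L : Set (Cond X Θ K)} {N : Θ → X → X → Set (Cond X Θ K)} {i : Θ}
    {p r : Cond X Θ K} (h : ReqAt σ L N i p) (hr : r ≤ p)
    (h1 : ∀ γ ≤ r.top, σ (r.g γ) → γ ≤ p.top ∧ p.g γ = r.g γ)
    (h2 : ∀ x ≤ p.top, (x ∈ r.y i ↔ x ∈ p.y i)) : ReqAt σ L N i r := by
  intro γ hγ hσ hc hu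
  obtain ⟨h3, h4⟩ := h1 γ hγ hσ
  have hu' : Unb (p.y i) γ := by
    intro b hb
    obtain ⟨x, hx, hbx, hxγ⟩ := hu b hb
    exact ⟨x, (h2 x (hxγ.le.trans h3)).1 hx, hbx, hxγ⟩
  exact Req.mono (h γ h3 (by rw [h4]; exact hσ) hc hu') (restr_mono hr _)
    (fun x hx => h2 x (hx.le.trans h3))

theorem union_spec [Infinite Λ] {p q : Cond X Θ K} (hp : Legal Λ k0 σ N p)
    (hq : Legal Λ k0 σ N q) (ht : p.top = q.top) (hg : p.g = q.g)
    (hy : ∀ j ∈ p.supp, j ∈ q.supp → p.y j = q.y j) :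
    Legal Λ k0 σ N (unionC p q) ∧ unionC p q ≤ p ∧ unionC p q ≤ q := by
  have e1 : ∀ j ∈ p.supp, p.y j ∪ q.y j = p.y j := by
    intro j hj
    by_cases hjq : j ∈ q.supp
    · rw [hy j hj hjq, Set.union_self]
    · rw [hq.1.2.2.1 j hjq, Set.union_empty]
  have e2 : ∀ j ∈ q.supp, p.y j ∪ q.y j = q.y j := by
    intro j hj
    by_cases hjp : j ∈ p.supp
    · rw [hy j hjp hj, Set.union_self]
    · rw [hp.1.2.2.1 j hjp, Set.empty_union]
  have l1 : unionC p q ≤ p := by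
    refine ⟨le_rfl, fun _ _ => rfl, Set.subset_union_left, fun j hj x _ => ?_⟩
    change x ∈ p.y j ∪ q.y j ↔ x ∈ p.y j
    rw [e1 j hj]
  have l2 : unionC p q ≤ q := by
    refine ⟨ht.symm.le, fun x _ => ?_, Set.subset_union_right, fun j hj x _ => ?_⟩
    · change p.g x = q.g x
      rw [hg]
    · change x ∈ p.y j ∪ q.y j ↔ x ∈ q.y j
      rw [e2 j hj]
  refine ⟨⟨⟨?_, ?_, ?_, ?_⟩, ?_⟩, l1, l2⟩
  · rw [← Cardinal.le_def]
    have h1 : Cardinal.mk p.supp ≤ Cardinal.mk Λ := (Cardinal.le_def _ _).mpr hp.1.1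
    have h2 : Cardinal.mk q.supp ≤ Cardinal.mk Λ := (Cardinal.le_def _ _).mpr hq.1.1
    calc Cardinal.mk ↥(p.supp ∪ q.supp) ≤ Cardinal.mk p.supp + Cardinal.mk q.supp :=
          Cardinal.mk_union_le _ _
      _ ≤ Cardinal.mk Λ + Cardinal.mk Λ := add_le_add h1 h2
      _ = Cardinal.mk Λ := Cardinal.add_eq_self (Cardinal.infinite_iff.mp inferInstance)
  · intro j hj x hx
    rcases hj with hj | hj
    · have hx' : x ∈ p.y j ∪ q.y j := hx
      rw [e1 j hj] at hx'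
      exact hp.1.2.1 j hj x hx'
    · have hx' : x ∈ p.y j ∪ q.y j := hx
      rw [e2 j hj] at hx'
      exact (hq.1.2.1 j hj x hx').trans ht.symm.le
  · intro j hj
    have h1 : j ∉ p.supp := fun h => hj (Or.inl h)
    have h2 : j ∉ q.supp := fun h => hj (Or.inr h)
    change p.y j ∪ q.y j = ∅
    rw [hp.1.2.2.1 j h1, hq.1.2.2.1 j h2, Set.union_empty]
  · intro x hx
    exact hp.1.2.2.2 x hx
  · intro i hi
    rcases hi with hi | hi
    · refine reqAt_of (hp.2 i hi) l1 (fun γ hγ _ => ⟨hγ, rfl⟩) (fun x _ => ?_)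
      change x ∈ p.y i ∪ q.y i ↔ _
      rw [e1 i hi]
    · refine reqAt_of (hq.2 i hi) l2 (fun γ hγ _ => ⟨hγ.trans ht.le, ?_⟩) (fun x _ => ?_)
      · change q.g γ = p.g γ
        rw [hg]
      · change x ∈ p.y i ∪ q.y i ↔ _
        rw [e2 i hi]

theorem ext_spec [Infinite Λ] {p : Cond X Θ K} (hp : Legal Λ k0 σ N p) (j : Θ) {δ : X}
    (hδ : p.top < δ) {k : K} (hk : ¬ σ k) (hk0 : ¬ σ k0) :
    Legal Λ k0 σ N (ext k0 p j δ k) ∧ ext k0 p j δ k ≤ p := by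
  classical
  have gy : ∀ i, (ext k0 p j δ k).y i = if i = j then insert δ (p.y j) else p.y i := by
    intro i
    simp only [ext]
  have gg : ∀ x, (ext k0 p j δ k).g x = if x ≤ p.top then p.g x else if x = δ then k else k0 := by
    intro x
    simp only [ext]
  have hmem : ∀ i, ∀ x ≤ p.top, x ∈ (ext k0 p j δ k).y i ↔ x ∈ p.y i := by
    intro i x hx
    rw [gy i]
    by_cases hij : i = j
    · subst hij
      rw [if_pos rfl, Set.mem_insert_iff]
      constructor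
      · rintro (rfl | h)
        · exact absurd hx (not_le.mpr hδ)
        · exact h
      · exact Or.inr
    · rw [if_neg hij]
  have l1 : ext k0 p j δ k ≤ p := by
    refine ⟨hδ.le, fun x hx => ?_, Set.subset_insert _ _, fun i _ x hx => hmem i x hx⟩
    rw [gg x, if_pos hx]
  have hsig : ∀ γ, σ ((ext k0 p j δ k).g γ) → γ ≤ p.top := by
    intro γ h
    by_contra hγ
    rw [gg γ, if_neg hγ] at h
    split_ifs at h
    · exact hk h
    · exact hk0 h
  refine ⟨⟨⟨?_, ?_, ?_, ?_⟩, ?_⟩, l1⟩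
  · rw [← Cardinal.le_def]
    have h1 : Cardinal.mk p.supp ≤ Cardinal.mk Λ := (Cardinal.le_def _ _).mpr hp.1.1
    have hinf : Cardinal.aleph0 ≤ Cardinal.mk Λ := Cardinal.infinite_iff.mp inferInstance
    calc Cardinal.mk ↥(insert j p.supp) ≤ Cardinal.mk p.supp + 1 := Cardinal.mk_insert_le
      _ ≤ Cardinal.mk Λ + 1 := add_le_add h1 le_rfl
      _ ≤ Cardinal.mk Λ + Cardinal.mk Λ :=
          add_le_add le_rfl (Cardinal.one_le_aleph0.trans hinf)
      _ = Cardinal.mk Λ := Cardinal.add_eq_self hinf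
  · intro i _ x hx
    change x ≤ δ
    rw [gy i] at hx
    by_cases hij : i = j
    · rw [if_pos hij, Set.mem_insert_iff] at hx
      rcases hx with rfl | hx
      · exact le_rfl
      · by_cases hjp : j ∈ p.supp
        · exact (hp.1.2.1 j hjp x hx).trans hδ.le
        · rw [hp.1.2.2.1 j hjp] at hx
          exact hx.elim
    · rw [if_neg hij] at hx
      by_cases hip : i ∈ p.supp
      · exact (hp.1.2.1 i hip x hx).trans hδ.le
      · rw [hp.1.2.2.1 i hip] at hx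
        exact hx.elim
  · intro i hi
    have hij : i ≠ j := fun h => hi (Or.inl h)
    have hip : i ∉ p.supp := fun h => hi (Or.inr h)
    rw [gy i, if_neg hij, hp.1.2.2.1 i hip]
  · intro x hx
    have hx' : δ < x := hx
    rw [gg x, if_neg (not_le.mpr (hδ.trans hx')), if_neg (ne_of_gt hx')]
  · intro i _
    by_cases hip : i ∈ p.supp
    · exact reqAt_of (hp.2 i hip) l1
        (fun γ _ hσ => ⟨hsig γ hσ, by rw [gg γ, if_pos (hsig γ hσ)]⟩)
        (fun x hx => hmem i x hx)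
    · intro γ _ hσ hc hu
      exfalso
      have hγ := hsig γ hσ
      refine not_unb_empty hc (hp.1.2.2.1 i hip) ?_
      intro b hb
      obtain ⟨x, hx, hbx, hxγ⟩ := hu b hb
      exact ⟨x, (hmem i x (hxγ.le.trans hγ)).mp hx, hbx, hxγ⟩

theorem pad_spec {p : Cond X Θ K} (hp : Legal Λ k0 σ N p) (V : Set Θ)
    (hV : Nonempty (↥(p.supp ∪ V) ↪ Λ)) :
    Legal Λ k0 σ N (pad p V) ∧ pad p V ≤ p := by
  have l1 : pad p V ≤ p :=
    ⟨le_rfl, fun _ _ => rfl, Set.subset_union_left, fun _ _ _ _ => Iff.rfl⟩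
  refine ⟨⟨⟨hV, ?_, ?_, ?_⟩, ?_⟩, l1⟩
  · intro i _ x hx
    by_cases hip : i ∈ p.supp
    · exact hp.1.2.1 i hip x hx
    · have hx' : x ∈ p.y i := hx
      rw [hp.1.2.2.1 i hip] at hx'
      exact hx'.elim
  · intro i hi
    exact hp.1.2.2.1 i (fun h => hi (Or.inl h))
  · intro x hx
    exact hp.1.2.2.2 x hx
  · intro i _
    by_cases hip : i ∈ p.supp
    · exact reqAt_of (hp.2 i hip) l1 (fun γ hγ _ => ⟨hγ, rfl⟩) (fun x _ => Iff.rfl)
    · intro γ _ _ hc hu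
      exact (not_unb_empty hc (hp.1.2.2.1 i hip) hu).elim

/-- raising the top and adding markers above the old top -/
theorem addW_spec {p : Cond X Θ K} (hp : Legal Λ k0 σ N p) (hk0 : ¬ σ k0) {T : X}
    (hT : p.top ≤ T) {W : Θ → Set X} (hW : ∀ j, ∀ x ∈ W j, p.top < x ∧ x ≤ T)
    (hWs : ∀ j ∉ p.supp, W j = ∅) :
    Legal Λ k0 σ N (addW p T W) ∧ addW p T W ≤ p := by
  have hmem : ∀ i, ∀ x ≤ p.top, x ∈ (addW p T W).y i ↔ x ∈ p.y i := by
    intro i x hx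
    constructor
    · rintro (h | h)
      · exact h
      · exact absurd hx (not_le.2 (hW i x h).1)
    · exact fun h => Or.inl h
  have l1 : addW p T W ≤ p := ⟨hT, fun _ _ => rfl, subset_rfl, fun i _ x hx => hmem i x hx⟩
  refine ⟨⟨⟨hp.1.1, ?_, ?_, ?_⟩, ?_⟩, l1⟩
  · rintro i hi x (hx | hx)
    · exact (hp.1.2.1 i hi x hx).trans hT
    · exact (hW i x hx).2
  · intro i hi
    change p.y i ∪ W i = ∅
    rw [hp.1.2.2.1 i hi, hWs i hi, Set.union_empty]
  · intro x hx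
    exact hp.1.2.2.2 x (lt_of_le_of_lt hT hx)
  · intro i hi
    refine reqAt_of (hp.2 i hi) l1 (fun γ _ hσ => ⟨?_, rfl⟩) (fun x hx => hmem i x hx)
    by_contra hγ
    apply hk0
    rw [← hp.1.2.2.2 γ (not_le.1 hγ)]
    exact hσ

theorem legal_lim [Infinite Λ] [WellFoundedLT X] [Nonempty X]
    (hbd : ∀ f : Λ → X, ∃ b, ∀ n, f n < b)
    {C : Set (Cond X Θ K)} (hC : IsChain (· ≤ ·) C) (hne : C.Nonempty) (hsm : Nonempty (C ↪ Λ))
    (hk0 : ¬ σ k0) (hl : ∀ c ∈ C, Legal Λ k0 σ N c) : Legal Λ k0 σ N (lim k0 C) := by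
  have hwf : ∀ c ∈ C, WF Λ k0 c := fun c hc => (hl c hc).1
  have htop := lim_top (k0 := k0) hbd hne hsm
  have hle := lim_le hbd hC hne hsm hwf
  refine ⟨⟨?_, ?_, ?_, ?_⟩, ?_⟩
  · obtain ⟨e⟩ := hsm
    have h1 : ∀ j : (lim k0 C).supp, ∃ c : C, j.1 ∈ c.1.supp := by
      rintro ⟨j, c, hc, hj⟩
      exact ⟨⟨c, hc⟩, hj⟩
    choose φ hφ using h1
    have h2 : ∀ c : C, Nonempty (c.1.supp ↪ Λ) := fun c => (hwf c.1 c.2).1
    let ψ : ∀ c : C, c.1.supp ↪ Λ := fun c => (h2 c).some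
    have hinj : Function.Injective (fun j : (lim k0 C).supp => (e (φ j), ψ (φ j) ⟨j.1, hφ j⟩)) := by
      intro j j' hjj
      simp only [Prod.mk.injEq] at hjj
      have h3 : φ j = φ j' := e.injective hjj.1
      have h4 := hjj.2
      have key : ∀ (c c' : C) (hcc : c = c') (h : j.1 ∈ c.1.supp) (h' : j'.1 ∈ c'.1.supp),
          ψ c ⟨j.1, h⟩ = ψ c' ⟨j'.1, h'⟩ → j.1 = j'.1 := by
        intro c c' hcc h h' hh
        subst hcc
        have h5 := (ψ c).injective hh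
        exact Subtype.mk.inj h5
      exact Subtype.ext (key _ _ h3 _ _ h4)
    have hcard : Cardinal.mk (Λ × Λ) ≤ Cardinal.mk Λ := by
      rw [Cardinal.mk_prod, Cardinal.lift_id, Cardinal.mul_eq_self (Cardinal.aleph0_le_mk Λ)]
    obtain ⟨ι⟩ := Cardinal.le_def _ _ |>.mp hcard
    exact ⟨(⟨_, hinj⟩ : (lim k0 C).supp ↪ Λ × Λ).trans ι⟩
  · rintro j _ x ⟨c, hc, hx⟩
    by_cases hj : j ∈ c.supp
    · exact ((hwf c hc).2.1 j hj x hx).trans (htop.1 ⟨c, hc, rfl⟩)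
    · rw [(hwf c hc).2.2.1 j hj] at hx
      exact absurd hx (Set.notMem_empty x)
  · intro j hj
    ext x
    constructor
    · rintro ⟨c, hc, hx⟩
      have hj' : j ∉ c.supp := fun h => hj ⟨c, hc, h⟩
      rw [(hwf c hc).2.2.1 j hj'] at hx
      exact hx
    · intro hx; exact absurd hx (Set.notMem_empty x)
  · intro x hx
    apply lim_g0
    intro c hc h1
    exact absurd (h1.trans (htop.1 ⟨c, hc, rfl⟩)) (not_le.mpr hx)
  · rintro j ⟨c1, hc1, hj1⟩ γ hγ hσ hcof hunb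
    have h2 : ∃ c2 ∈ C, γ ≤ c2.top := by
      by_contra hno
      push Not at hno
      rw [lim_g0 (fun c hc => not_le.mpr (hno c hc))] at hσ
      exact hk0 hσ
    obtain ⟨c2, hc2, hγ2⟩ := h2
    obtain ⟨c, hc, hcj, hcγ⟩ : ∃ c ∈ C, j ∈ c.supp ∧ γ ≤ c.top := by
      rcases hC.total hc1 hc2 with h | h
      · exact ⟨c1, hc1, hj1, hγ2.trans (le_def.mp h).1⟩
      · exact ⟨c2, hc2, (le_def.mp h).2.2.1 hj1, hγ2⟩
    have hlc := hle c hc
    have hy : ∀ x ≤ c.top, (x ∈ (lim k0 C).y j ↔ x ∈ c.y j) := (le_def.mp hlc).2.2.2 j hcj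
    have hreq := (hl c hc).2 j hcj γ hcγ (by rw [← lim_g hC hc hcγ]; exact hσ) hcof (by
      intro b hb
      obtain ⟨x, hx, hbx, hxγ⟩ := hunb b hb
      exact ⟨x, (hy x (hxγ.le.trans hcγ)).mp hx, hbx, hxγ⟩)
    exact Req.mono hreq (restr_mono hlc _) (fun x hx => hy x (hx.le.trans hcγ))

end Pool.Agent.Helper539.LbBasic
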