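import Mathlib
import Pool.Agent.Helper539.LadSys
import Pool.Agent.Helper539.LbIter

/-!
# Controlled markers
-/

namespace Pool.Agent.Helper539.LbCtl

open Pool.Agent.Helper539.LadIter hiding Req ReqAt Lg Legal
open Pool.Agent.Helper539.LbIter Pool.Agent.Helper539.LadSys

universe u

/-- At the level `n` there are sets `c τ j` of controlled markers such that different controlled
markers of a branch have different labels, the controlled markers of branches which split at `j`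
have different labels, and uncontrolled new markers of such branches are separated. -/
def Ctl {X Θ K Ω Λ : Type u} [LinearOrder X] [LinearOrder Θ] [HasLab X Λ] (B : ℕ → Set Θ) (n : ℕ)
    (Q Q' : (ℕ → Θ → Ω) → Cond X Θ K) : Prop :=
  ∃ c : (ℕ → Θ → Ω) → Θ → Set X, ∀ j ∈ B n,
    (∀ τ, ∀ ν ∈ c τ j, ∀ ν' ∈ c τ j, HasLab.lab ν = HasLab.lab ν' → ν = ν') ∧
    ∀ τ τ', Agree B (n + 1) (Set.Iio j) τ τ' → τ n j ≠ τ' n j →
      (∀ ν ∈ c τ j, ∀ ν' ∈ c τ' j, HasLab.lab ν ≠ HasLab.lab ν') ∧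
      ∀ z ∈ (Q' τ).y j, (Q τ).top < z → z ∉ c τ j → ∀ z' ∈ (Q' τ').y j, (Q τ').top < z' →
        z' ∉ c τ' j → z ≤ z' → ∃ ν ∈ (Q' τ').y j, z < ν ∧ ν < z'

/-- Among uncountably many siblings one is good for a given countable set `A`: the next marker of
a point of `A`, if it is above `top`, has a label different from those of the other next markers
of points of `A`. -/
theorem exists_good {X Ω Λ : Type u} [LinearOrder X] [HasLab X Λ] [Uncountable Ω] {A : Set X}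
    (hA : A.Countable) (top : X) (y0 : Set X) (y : Ω → Set X) (c : Ω → Set X)
    (h0 : ∀ o, ∀ x ≤ top, (x ∈ y o ↔ x ∈ y0))
    (h1 : ∀ o, ∀ ν ∈ c o, ∀ ν' ∈ c o, HasLab.lab ν = HasLab.lab ν' → ν = ν')
    (h2 : ∀ o o', o ≠ o' → ∀ ν ∈ c o, ∀ ν' ∈ c o', HasLab.lab ν ≠ HasLab.lab ν')
    (h3 : ∀ o o', o ≠ o' → ∀ z ∈ y o, top < z → z ∉ c o → ∀ z' ∈ y o', top < z' → z' ∉ c o' →
      z ≤ z' → ∃ ν ∈ y o', z < ν ∧ ν < z') :
    ∃ o, ∀ x ∈ A, ∀ x' ∈ A, ∀ ν ν', Next (y o) x ν → Next (y o) x' ν' → top < ν →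
      HasLab.lab ν = HasLab.lab ν' → ν = ν' := by
  classical
  have cb1 : {o : Ω | ∃ x ∈ A, ∃ z, Next (y o) x z ∧ top < z ∧ z ∉ c o}.Countable := by
    have hch : ∀ o : Ω, ∃ x : X, (∃ x ∈ A, ∃ z, Next (y o) x z ∧ top < z ∧ z ∉ c o) →
        (x ∈ A ∧ ∃ z, Next (y o) x z ∧ top < z ∧ z ∉ c o) := by
      intro o
      by_cases h : ∃ x ∈ A, ∃ z, Next (y o) x z ∧ top < z ∧ z ∉ c o
      · obtain ⟨x, hx, hz⟩ := h
        exact ⟨x, fun _ => ⟨hx, hz⟩⟩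
      · exact ⟨top, fun h' => absurd h' h⟩
    choose φ hφ using hch
    refine Set.MapsTo.countable_of_injOn (f := φ) (t := A) (fun o ho => (hφ o ho).1) ?_ hA
    intro o ho o' ho' heq
    by_contra hne
    obtain ⟨-, z, hz, hzt, hzc⟩ := hφ o ho
    obtain ⟨-, z', hz', hzt', hzc'⟩ := hφ o' ho'
    rcases le_total z z' with hle | hle
    · obtain ⟨ν, hν, h4, h5⟩ := h3 o o' hne z hz.2.1 hzt hzc z' hz'.2.1 hzt' hzc' hle
      refine hz'.2.2 ν ?_ h5 hν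
      rw [← heq]
      exact hz.1.trans h4
    · obtain ⟨ν, hν, h4, h5⟩ := h3 o' o (Ne.symm hne) z' hz'.2.1 hzt' hzc' z hz.2.1 hzt hzc hle
      refine hz.2.2 ν ?_ h5 hν
      rw [heq]
      exact hz'.1.trans h4
  have cb2 : {o : Ω | ∃ x' ∈ A, ∃ ν', Next y0 x' ν' ∧ ∃ ν ∈ c o,
      HasLab.lab ν = HasLab.lab ν'}.Countable := by
    have hch : ∀ o : Ω, ∃ x : X, (∃ x' ∈ A, ∃ ν', Next y0 x' ν' ∧ ∃ ν ∈ c o,
      HasLab.lab ν = HasLab.lab ν') → (x ∈ A ∧ ∃ ν', Next y0 x ν' ∧ ∃ ν ∈ c o,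
      HasLab.lab ν = HasLab.lab ν') := by
      intro o
      by_cases h : ∃ x' ∈ A, ∃ ν', Next y0 x' ν' ∧ ∃ ν ∈ c o, HasLab.lab ν = HasLab.lab ν'
      · obtain ⟨x, hx, hz⟩ := h
        exact ⟨x, fun _ => ⟨hx, hz⟩⟩
      · exact ⟨top, fun h' => absurd h' h⟩
    choose φ hφ using hch
    refine Set.MapsTo.countable_of_injOn (f := φ) (t := A) (fun o ho => (hφ o ho).1) ?_ hA
    intro o ho o' ho' heq
    by_contra hne
    obtain ⟨-, ν₁, hν₁, μ₁, hμ₁, e₁⟩ := hφ o ho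
    obtain ⟨-, ν₂, hν₂, μ₂, hμ₂, e₂⟩ := hφ o' ho'
    have huniq : ν₁ = ν₂ := by
      rcases lt_trichotomy ν₁ ν₂ with h | h | h
      · exact absurd hν₁.2.1 (hν₂.2.2 ν₁ (by rw [← heq]; exact hν₁.1) h)
      · exact h
      · exact absurd hν₂.2.1 (hν₁.2.2 ν₂ (by rw [heq]; exact hν₂.1) h)
    apply h2 o o' hne μ₁ hμ₁ μ₂ hμ₂
    rw [e₁, e₂, huniq]
  have hex : ∃ o : Ω, o ∉ {o : Ω | ∃ x ∈ A, ∃ z, Next (y o) x z ∧ top < z ∧ z ∉ c o} ∪
      {o : Ω | ∃ x' ∈ A, ∃ ν', Next y0 x' ν' ∧ ∃ ν ∈ c o, HasLab.lab ν = HasLab.lab ν'} := by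
    by_contra hcon
    push Not at hcon
    exact Set.not_countable_univ ((cb1.union cb2).mono (fun o _ => hcon o))
  obtain ⟨o, ho⟩ := hex
  rw [Set.mem_union, not_or] at ho
  obtain ⟨ho1, ho2⟩ := ho
  refine ⟨o, fun x hx x' hx' ν ν' hν hν' ht hlab => ?_⟩
  have hνc : ν ∈ c o := by
    by_contra hn
    exact ho1 ⟨x, hx, ν, hν, ht, hn⟩
  rcases lt_or_ge top ν' with ht' | ht'
  · have hνc' : ν' ∈ c o := by
      by_contra hn
      exact ho1 ⟨x', hx', ν', hν', ht', hn⟩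
    exact h1 o ν hνc ν' hνc' hlab
  · exfalso
    apply ho2
    refine ⟨x', hx', ν', ⟨hν'.1, (h0 o ν' ht').1 hν'.2.1, ?_⟩, ν, hνc, hlab⟩
    intro η h6 h7 h8
    exact hν'.2.2 η h6 h7 ((h0 o η (h7.le.trans ht')).2 h8)


end Pool.Agent.Helper539.LbCtl
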