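import Mathlib
import Pool.Agent.Helper539.LbBasic
import Pool.Agent.Helper539.LbCtl
import Pool.Agent.Helper539.LadDist

/-!
# One level of the tree of conditions
-/

namespace Pool.Agent.Helper539.LbLevel

open Pool.Agent.Helper539.LadIter hiding Req ReqAt Lg Legal
open Pool.Agent.Helper539.LadBasic hiding Req.mono lg_eq mem_lg legal_restr
open Pool.Agent.Helper539.LadAm hiding legal_am
open Pool.Agent.Helper539.LadUn hiding reqAt_of union_spec ext_spec pad_spec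
open Pool.Agent.Helper539.LadLim hiding legal_lim
open Pool.Agent.Helper539.LbIter Pool.Agent.Helper539.LbBasic Pool.Agent.Helper539.LadSys
  Pool.Agent.Helper539.LbCtl Pool.Agent.Helper539.LadDist

universe u

variable {X Θ K Ω : Type u} [LinearOrder X] [LinearOrder Θ] [WellFoundedLT Θ]
  [WellFoundedLT X] {Λ : Type u} [HasLab X Λ] {k0 : K} {σ : K → Prop}
  {N : Θ → X → X → Set (Cond X Θ K)}

/-- Systems of conditions below `Q`, with the controlled markers `c` and the set `done` of the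
branches which have been treated. -/
structure SysC (Λ : Type u) [HasLab X Λ] (k0 : K) (σ : K → Prop)
    (N : Θ → X → X → Set (Cond X Θ K)) (B : ℕ → Set Θ) (n : ℕ)
    (Q : (ℕ → Θ → Ω) → Cond X Θ K) {T : Type u} (κ : Ω → T → Λ) (br : T → ℕ → Θ → Ω)
    (E : Cond X Θ K → Cond X Θ K) where
  /-- the conditions -/
  R : (ℕ → Θ → Ω) → Cond X Θ K
  /-- the controlled markers -/
  c : (ℕ → Θ → Ω) → Θ → Set X
  /-- the branches which have been treated -/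
  done : Set T
  legal : ∀ τ, Legal Λ k0 σ N (R τ)
  coh : Coh B (n + 1) R
  le : ∀ τ, R τ ≤ Q τ
  good : ∀ t ∈ done, ∃ r, Legal Λ k0 σ N r ∧ r ≤ Q (br t) ∧ R (br t) ≤ E r
  csub : ∀ τ, ∀ j ∈ B n, ∀ ν ∈ c τ j, ν ∈ (R τ).y j ∧ (Q τ).top < ν
  clab : ∀ τ, ∀ j ∈ B n, ∀ ν ∈ c τ j, ∃ t ∈ done, HasLab.lab ν = κ (τ n j) t
  cinj : ∀ τ, ∀ j ∈ B n, ∀ ν ∈ c τ j, ∀ ν' ∈ c τ j, HasLab.lab ν = HasLab.lab ν' → ν = ν'
  sep1 : ∀ j ∈ B n, ∀ τ τ', Agree B (n + 1) (Set.Iio j) τ τ' → τ n j ≠ τ' n j →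
    ∀ z ∈ (R τ).y j, (Q τ).top < z → z ∉ c τ j → ∀ z' ∈ (R τ').y j, (Q τ').top < z' →
      z' ∉ c τ' j → z ≤ z' → ∃ ν ∈ (R τ').y j, z < ν ∧ ν < z'
  sep2 : ∀ j ∈ B n, ∀ τ τ', Agree B (n + 1) (Set.Iio j) τ τ' → τ n j ≠ τ' n j →
    ∀ z ∈ (R τ).y j, (Q τ).top < z → z ∉ c τ j → ∃ ν ∈ (R τ').y j, z < ν

/-- the preorder on systems -/
def preC (B : ℕ → Set Θ) (n : ℕ) (Q : (ℕ → Θ → Ω) → Cond X Θ K)
    {T : Type u} (κ : Ω → T → Λ) (br : T → ℕ → Θ → Ω) (E : Cond X Θ K → Cond X Θ K)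
    (hsup : ∀ τ, B n ⊆ (Q τ).supp) : Preorder (SysC Λ k0 σ N B n Q κ br E) where
  le R' R := (∀ τ, R'.R τ ≤ R.R τ) ∧ R.done ⊆ R'.done ∧
    ∀ τ, ∀ j ∈ B n, ∀ x, x ∈ R.c τ j ↔ (x ∈ R'.c τ j ∧ x ≤ (R.R τ).top)
  le_refl R := by
    refine ⟨fun τ => le_refl _, subset_rfl, fun τ j hj x => ⟨fun h => ⟨h, ?_⟩, fun h => h.1⟩⟩
    exact (R.legal τ).1.2.1 j ((R.le τ).2.2.1 (hsup τ hj)) x (R.csub τ j hj x h).1
  le_trans R'' R' R h h' := by
    refine ⟨fun τ => (h.1 τ).trans (h'.1 τ), h'.2.1.trans h.2.1, fun τ j hj x => ?_⟩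
    constructor
    · intro hx
      obtain ⟨h1, h2⟩ := (h'.2.2 τ j hj x).1 hx
      exact ⟨((h.2.2 τ j hj x).1 h1).1, h2⟩
    · rintro ⟨h1, h2⟩
      exact (h'.2.2 τ j hj x).2 ⟨(h.2.2 τ j hj x).2 ⟨h1, h2.trans (h'.1 τ).1⟩, h2⟩

theorem chain_three {S : Type*} [Preorder S] {C : Set S} (hC : IsChain (· ≤ ·) C) {a b c : S}
    (ha : a ∈ C) (hb : b ∈ C) (hc : c ∈ C) : ∃ d ∈ C, d ≤ a ∧ d ≤ b ∧ d ≤ c := by
  rcases hC.total ha hb with h1 | h1 <;> rcases hC.total ha hc with h2 | h2 <;>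
    rcases hC.total hb hc with h3 | h3
  · exact ⟨a, ha, le_refl _, h1, h2⟩
  · exact ⟨a, ha, le_refl _, h1, h2⟩
  · exact ⟨c, hc, h2, h2.trans h1, le_refl _⟩
  · exact ⟨c, hc, h2, h2.trans h1, le_refl _⟩
  · exact ⟨b, hb, h1, le_refl _, h3⟩
  · exact ⟨b, hb, h1, le_refl _, h1.trans h2⟩
  · exact ⟨b, hb, h1, le_refl _, h3⟩
  · exact ⟨c, hc, h2, h3, le_refl _⟩

omit [WellFoundedLT Θ] [WellFoundedLT X] in
theorem coh_top {B : ℕ → Set Θ} {n : ℕ} {Q : (ℕ → Θ → Ω) → Cond X Θ K}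
    (hcoh : Coh B n Q) (τ τ' : ℕ → Θ → Ω) : (Q τ).top = (Q τ').top := by
  have h1 := hcoh ∅ (fun _ _ _ h => h) τ τ' (fun m _ j _ hj => absurd hj (Set.notMem_empty _))
  have h2 : (restr (Q τ) ∅).top = (restr (Q τ') ∅).top := by rw [h1]
  exact h2



/-- TARGET: lower bounds of chains of systems -/
theorem chainC [Nonempty X] [Infinite Λ] (hbd : ∀ f : Λ → X, ∃ b, ∀ n, f n < b)
    (hk0 : ¬ σ k0) (B : ℕ → Set Θ) (n : ℕ) (Q : (ℕ → Θ → Ω) → Cond X Θ K)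
    {T : Type u} (κ : Ω → T → Λ) (br : T → ℕ → Θ → Ω) (E : Cond X Θ K → Cond X Θ K)
    (hsup : ∀ τ, B n ⊆ (Q τ).supp) :
    letI := preC (Λ := Λ) (k0 := k0) (σ := σ) (N := N) B n Q κ br E hsup
    ∀ C : Set (SysC Λ k0 σ N B n Q κ br E), IsChain (· ≤ ·) C → C.Nonempty →
      (∃ f : C → Λ, Function.Injective f) → ∃ l, ∀ c ∈ C, l ≤ c := by
  letI := preC (Λ := Λ) (k0 := k0) (σ := σ) (N := N) B n Q κ br E hsup
  intro C hC hne ⟨f, hf⟩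
  have hchain : ∀ τ, IsChain (· ≤ ·)
      ((fun R : SysC Λ k0 σ N B n Q κ br E => R.R τ) '' C) := by
    rintro τ _ ⟨R1, h1, rfl⟩ _ ⟨R2, h2, rfl⟩ _
    rcases hC.total h1 h2 with h | h
    · exact Or.inl (h.1 τ)
    · exact Or.inr (h.1 τ)
  have hnon : ∀ τ, ((fun R : SysC Λ k0 σ N B n Q κ br E => R.R τ) '' C).Nonempty :=
    fun τ => hne.image _
  have hsm : ∀ τ, Nonempty (((fun R : SysC Λ k0 σ N B n Q κ br E => R.R τ) '' C) ↪ Λ) := by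
    intro τ
    have hex : ∀ c : ((fun R : SysC Λ k0 σ N B n Q κ br E => R.R τ) '' C),
        ∃ R : C, R.1.R τ = c.1 := by
      rintro ⟨_, R, hR, rfl⟩
      exact ⟨⟨R, hR⟩, rfl⟩
    choose g hg using hex
    refine ⟨⟨fun c => f (g c), ?_⟩⟩
    intro c c' hcc
    have h1 := hf hcc
    apply Subtype.ext
    rw [← hg c, ← hg c', h1]
  have hleg : ∀ τ, ∀ c ∈ ((fun R : SysC Λ k0 σ N B n Q κ br E => R.R τ) '' C),
      Legal Λ k0 σ N c := by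
    rintro τ _ ⟨R, hR, rfl⟩
    exact R.legal τ
  have hlimle : ∀ τ, ∀ R ∈ C,
      lim k0 ((fun R : SysC Λ k0 σ N B n Q κ br E => R.R τ) '' C) ≤ R.R τ := by
    intro τ R hR
    exact lim_le hbd (hchain τ) (hnon τ) (hsm τ) (fun c hc => (hleg τ c hc).1) _ ⟨R, hR, rfl⟩
  have hsupR : ∀ (R : SysC Λ k0 σ N B n Q κ br E) (τ) (j), j ∈ B n → j ∈ (R.R τ).supp :=
    fun R τ j hj => (R.le τ).2.2.1 (hsup τ hj)
  have hup : ∀ (R R' : SysC Λ k0 σ N B n Q κ br E), R' ≤ R → ∀ (τ) (j), j ∈ B n →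
      ∀ x ∈ (R.R τ).y j, x ∈ (R'.R τ).y j := by
    intro R R' h τ j hj x hx
    exact ((h.1 τ).2.2.2 j (hsupR R τ j hj) x
      ((R.legal τ).1.2.1 j (hsupR R τ j hj) x hx)).2 hx
  obtain ⟨R0, hR0⟩ := hne
  refine ⟨{
    R := fun τ => lim k0 ((fun R : SysC Λ k0 σ N B n Q κ br E => R.R τ) '' C)
    c := fun τ j => {x | ∃ R ∈ C, x ∈ R.c τ j}
    done := {t | ∃ R ∈ C, t ∈ R.done}
    legal := fun τ => legal_lim hbd (hchain τ) (hnon τ) (hsm τ) hk0 (hleg τ)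
    coh := ?_
    le := fun τ => (hlimle τ R0 hR0).trans (R0.le τ)
    good := ?_
    csub := ?_
    clab := ?_
    cinj := ?_
    sep1 := ?_
    sep2 := ?_ }, ?_⟩
  · intro U hU τ τ' hag
    rw [restr_lim, restr_lim, Set.image_image, Set.image_image]
    congr 1
    apply Set.image_congr
    intro R _
    exact R.coh U hU τ τ' hag
  · rintro t ⟨R, hR, ht⟩
    obtain ⟨r, h1, h2, h3⟩ := R.good t ht
    exact ⟨r, h1, h2, (hlimle _ R hR).trans h3⟩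
  · rintro τ j hj ν ⟨R, hR, hν⟩
    obtain ⟨h1, h2⟩ := R.csub τ j hj ν hν
    exact ⟨⟨_, ⟨R, hR, rfl⟩, h1⟩, h2⟩
  · rintro τ j hj ν ⟨R, hR, hν⟩
    obtain ⟨t, h1, h2⟩ := R.clab τ j hj ν hν
    exact ⟨t, ⟨R, hR, h1⟩, h2⟩
  · rintro τ j hj ν ⟨R1, hR1, hν⟩ ν' ⟨R2, hR2, hν'⟩ hlab
    obtain ⟨R3, hR3, h31, h32, _⟩ := chain_three hC hR1 hR2 hR2
    exact R3.cinj τ j hj ν ((h31.2.2 τ j hj ν).1 hν).1 ν' ((h32.2.2 τ j hj ν').1 hν').1 hlab
  · rintro j hj τ τ' hag hne z ⟨_, ⟨R1, hR1, rfl⟩, hz⟩ hzQ hzc z' ⟨_, ⟨R2, hR2, rfl⟩, hz'⟩ hzQ'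
      hzc' hzz
    obtain ⟨R3, hR3, h31, h32, _⟩ := chain_three hC hR1 hR2 hR2
    obtain ⟨ν, h1, h2, h3⟩ := R3.sep1 j hj τ τ' hag hne z (hup R1 R3 h31 τ j hj z hz) hzQ
      (fun h => hzc ⟨R3, hR3, h⟩) z' (hup R2 R3 h32 τ' j hj z' hz') hzQ'
      (fun h => hzc' ⟨R3, hR3, h⟩) hzz
    exact ⟨ν, ⟨_, ⟨R3, hR3, rfl⟩, h1⟩, h2, h3⟩
  · rintro j hj τ τ' hag hne z ⟨_, ⟨R1, hR1, rfl⟩, hz⟩ hzQ hzc
    obtain ⟨ν, h1, h2⟩ := R1.sep2 j hj τ τ' hag hne z hz hzQ (fun h => hzc ⟨R1, hR1, h⟩)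
    exact ⟨ν, ⟨_, ⟨R1, hR1, rfl⟩, h1⟩, h2⟩
  · intro R hR
    refine ⟨fun τ => hlimle τ R hR, fun t ht => ⟨R, hR, ht⟩, fun τ j hj x => ?_⟩
    constructor
    · intro hx
      exact ⟨⟨R, hR, hx⟩, (R.legal τ).1.2.1 j (hsupR R τ j hj) x (R.csub τ j hj x hx).1⟩
    · rintro ⟨⟨R2, hR2, hx⟩, hle⟩
      rcases hC.total hR2 hR with h | h
      · exact (h.2.2 τ j hj x).2 ⟨hx, hle⟩
      · exact ((h.2.2 τ j hj x).1 hx).1




omit [WellFoundedLT Θ] [WellFoundedLT X] [HasLab X Λ] in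
theorem am_univ (p q : Cond X Θ K) : am Set.univ q p = q := by
  unfold am
  apply Cond.ext
  · rfl
  · rfl
  · simp
  · funext j
    simp

/-- the set of the coordinates where the branch `υ` follows `τ` -/
def UU (B : ℕ → Set Θ) (n : ℕ) (τ υ : ℕ → Θ → Ω) : Set Θ :=
  {j | Agree B (n + 1) (Set.Iic j) τ υ}

/-- the new markers -/
def WW (B : ℕ → Set Θ) (n : ℕ) (τ : ℕ → Θ → Ω) (ν : Ω → X) (υ : ℕ → Θ → Ω) (j : Θ) : Set X :=
  {x | j ∈ B n ∧ j ∉ UU B n τ υ ∧ x = ν (υ n j)}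

/-- the new system -/
noncomputable def RR (B : ℕ → Set Θ) (n : ℕ) (τ : ℕ → Θ → Ω) (ν : Ω → X) (T1 : X)
    (e : Cond X Θ K) (R : (ℕ → Θ → Ω) → Cond X Θ K) (υ : ℕ → Θ → Ω) : Cond X Θ K :=
  addW (am (UU B n τ υ) e (R υ)) T1 (WW B n τ ν υ)

omit [WellFoundedLT Θ] [WellFoundedLT X] [HasLab X Λ] [LinearOrder X] in
theorem UU_lower (B : ℕ → Set Θ) (n : ℕ) (τ υ : ℕ → Θ → Ω) : IsLowerSet (UU B n τ υ) := by
  intro j i hij hj m hm l hl hli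
  exact hj m hm l hl (le_trans hli hij)

omit [WellFoundedLT Θ] [WellFoundedLT X] [HasLab X Λ] [LinearOrder X] in
theorem UU_agree (B : ℕ → Set Θ) (n : ℕ) (τ υ : ℕ → Θ → Ω) :
    Agree B (n + 1) (UU B n τ υ) τ υ := by
  intro m hm j hj hjU
  exact hjU m hm j hj le_rfl

omit [WellFoundedLT Θ] [WellFoundedLT X] [HasLab X Λ] [LinearOrder X] in
theorem UU_iff {B : ℕ → Set Θ} {n : ℕ} (τ : ℕ → Θ → Ω) {υ υ' : ℕ → Θ → Ω} {U : Set Θ}
    (hUl : IsLowerSet U) (hυ : Agree B (n + 1) U υ υ') {j : Θ} (hj : j ∈ U) :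
    (j ∈ UU B n τ υ ↔ j ∈ UU B n τ υ') := by
  constructor
  · intro h m hm l hl hlj
    rw [h m hm l hl hlj]
    exact hυ m hm l hl (hUl hlj hj)
  · intro h m hm l hl hlj
    rw [h m hm l hl hlj]
    exact (hυ m hm l hl (hUl hlj hj)).symm

omit [WellFoundedLT Θ] [WellFoundedLT X] [HasLab X Λ] in
theorem RR_coh {B : ℕ → Set Θ} {n : ℕ} (τ : ℕ → Θ → Ω) (ν : Ω → X) (T1 : X)
    (e : Cond X Θ K) {R : (ℕ → Θ → Ω) → Cond X Θ K} (hR0 : Coh B (n + 1) R) :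
    Coh B (n + 1) (RR B n τ ν T1 e R) := by
  intro U hUl υ υ' hυ
  have hiff : ∀ j ∈ U, (j ∈ UU B n τ υ ↔ j ∈ UU B n τ υ') := fun j hj => UU_iff τ hUl hυ hj
  have hR := hR0 U hUl υ υ' hυ
  have hsupp : ∀ j ∈ U, (j ∈ (R υ).supp ↔ j ∈ (R υ').supp) := by
    intro j hj
    have h1 : (R υ).supp ∩ U = (R υ').supp ∩ U := congrArg Cond.supp hR
    have h2 : j ∈ (R υ).supp ∩ U ↔ j ∈ (R υ').supp ∩ U := by rw [h1]
    simpa [hj] using h2
  have hy : ∀ j ∈ U, (R υ).y j = (R υ').y j := by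
    intro j hj
    have h1 : (fun j => {x | x ∈ (R υ).y j ∧ j ∈ U}) =
        (fun j => {x | x ∈ (R υ').y j ∧ j ∈ U}) := congrArg Cond.y hR
    have h2 := congrFun h1 j
    ext x
    have h3 : x ∈ {x | x ∈ (R υ).y j ∧ j ∈ U} ↔ x ∈ {x | x ∈ (R υ').y j ∧ j ∈ U} := by
      have h2' : {x | x ∈ (R υ).y j ∧ j ∈ U} = {x | x ∈ (R υ').y j ∧ j ∈ U} := h2
      rw [h2']
    simpa [hj] using h3
  have hW : ∀ j ∈ U, WW B n τ ν υ j = WW B n τ ν υ' j := by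
    intro j hj
    ext x
    constructor
    · rintro ⟨h1, h2, h3⟩
      exact ⟨h1, fun hc => h2 ((hiff j hj).2 hc), by
        rw [h3, hυ n (Nat.lt_succ_self n) j h1 hj]⟩
    · rintro ⟨h1, h2, h3⟩
      exact ⟨h1, fun hc => h2 ((hiff j hj).1 hc), by
        rw [h3, hυ n (Nat.lt_succ_self n) j h1 hj]⟩
  unfold restr RR addW am
  apply Cond.ext
  · rfl
  · rfl
  · ext j
    simp only [Set.mem_inter_iff, Set.mem_union, Set.mem_diff]
    constructor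
    · rintro ⟨h, hj⟩
      refine ⟨?_, hj⟩
      rcases h with h | h
      · exact Or.inl ⟨h.1, (hiff j hj).1 h.2⟩
      · exact Or.inr ⟨(hsupp j hj).1 h.1, fun hc => h.2 ((hiff j hj).2 hc)⟩
    · rintro ⟨h, hj⟩
      refine ⟨?_, hj⟩
      rcases h with h | h
      · exact Or.inl ⟨h.1, (hiff j hj).2 h.2⟩
      · exact Or.inr ⟨(hsupp j hj).2 h.1, fun hc => h.2 ((hiff j hj).1 hc)⟩
  · funext j
    by_cases hj : j ∈ U
    · by_cases h : j ∈ UU B n τ υ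
      · have h' := (hiff j hj).1 h
        simp only [if_pos h, if_pos h', hW j hj]
      · have h' : ¬ j ∈ UU B n τ υ' := fun hc => h ((hiff j hj).2 hc)
        simp only [if_neg h, if_neg h', hy j hj, hW j hj]
    · simp only [hj, and_false]

/-- TARGET: density -/
theorem denseC [Infinite Λ] (hk0 : ¬ σ k0) (hlab : ∀ (x : X) (l : Λ), ∃ ν, x < ν ∧ HasLab.lab ν = l)
    (hΩ : ∀ f : Ω → X, ∃ b, ∀ o, f o < b)
    (B : ℕ → Set Θ) (n : ℕ) (Q : (ℕ → Θ → Ω) → Cond X Θ K)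
    {T : Type u} (κ : Ω → T → Λ) (hκ : ∀ o t o' t', κ o t = κ o' t' → o = o' ∧ t = t')
    (br : T → ℕ → Θ → Ω) (E : Cond X Θ K → Cond X Θ K)
    (hE : ∀ p, Legal Λ k0 σ N p → Legal Λ k0 σ N (E p) ∧ E p ≤ p)
    (hsup : ∀ τ, B n ⊆ (Q τ).supp) (t : T) (R : SysC Λ k0 σ N B n Q κ br E) :
    letI := preC (Λ := Λ) (k0 := k0) (σ := σ) (N := N) B n Q κ br E hsup
    ∃ R' ≤ R, t ∈ R'.done := by
  letI := preC (Λ := Λ) (k0 := k0) (σ := σ) (N := N) B n Q κ br E hsup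
  by_cases ht : t ∈ R.done
  · exact ⟨R, le_refl R, ht⟩
  obtain ⟨hEl, hEle⟩ := hE (R.R (br t)) (R.legal (br t))
  have hcoh := R.coh
  have hres : ∀ υ : ℕ → Θ → Ω, restr (E (R.R (br t))) (UU B n (br t) υ) ≤
      restr (R.R υ) (UU B n (br t) υ) := by
    intro υ
    rw [← R.coh _ (UU_lower B n (br t) υ) (br t) υ (UU_agree B n (br t) υ)]
    exact restr_mono hEle _
  have hle0 : ∀ υ : ℕ → Θ → Ω,
      am (UU B n (br t) υ) (E (R.R (br t))) (R.R υ) ≤ R.R υ := fun υ => am_le_left (hres υ)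
  have hamleg : ∀ υ : ℕ → Θ → Ω,
      Legal Λ k0 σ N (am (UU B n (br t) υ) (E (R.R (br t))) (R.R υ)) :=
    fun υ => legal_am (UU_lower B n (br t) υ) (R.legal υ) hEl (hres υ)
  -- markers
  choose ν hν1 hν2 using fun o : Ω => hlab (E (R.R (br t))).top (κ o t)
  obtain ⟨b, hb⟩ := hΩ ν
  have hBs : ∀ υ, ∀ j ∈ B n, j ∈ (R.R υ).supp := fun υ j hj => (R.le υ).2.2.1 (hsup υ hj)
  have hspec : ∀ υ : ℕ → Θ → Ω,
      Legal Λ k0 σ N (RR B n (br t) ν (max b (E (R.R (br t))).top) (E (R.R (br t))) R.R υ) ∧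
      RR B n (br t) ν (max b (E (R.R (br t))).top) (E (R.R (br t))) R.R υ ≤
        am (UU B n (br t) υ) (E (R.R (br t))) (R.R υ) := by
    intro υ
    apply addW_spec (hamleg υ) hk0
    · exact le_max_right _ _
    · intro j x hx
      obtain ⟨_, _, hx3⟩ := hx
      rw [hx3]
      exact ⟨hν1 _, (hb _).le.trans (le_max_left _ _)⟩
    · intro j hj
      by_contra hne
      obtain ⟨x, hx⟩ := Set.nonempty_iff_ne_empty.2 hne
      obtain ⟨hx1, hx2, -⟩ := hx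
      apply hj
      right
      exact ⟨hBs υ j hx1, hx2⟩
  have hle : ∀ υ : ℕ → Θ → Ω,
      RR B n (br t) ν (max b (E (R.R (br t))).top) (E (R.R (br t))) R.R υ ≤ R.R υ :=
    fun υ => (hspec υ).2.trans (hle0 υ)
  have htop : ∀ υ, (R.R υ).top = (R.R (br t)).top := fun υ => coh_top hcoh υ (br t)
  have htop' : ∀ υ, (R.R υ).top ≤ (E (R.R (br t))).top := by
    intro υ; rw [htop υ]; exact hEle.1
  have hF5 : ∀ υ, ∀ j ∈ B n, ∀ x ≤ (R.R (br t)).top,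
      (x ∈ (RR B n (br t) ν (max b (E (R.R (br t))).top) (E (R.R (br t))) R.R υ).y j ↔
        x ∈ (R.R υ).y j) := by
    intro υ j hj x hx
    exact (hle υ).2.2.2 j (hBs υ j hj) x (by rw [htop υ]; exact hx)
  have hF6 : ∀ υ, ∀ j ∈ B n, ∀ x ∈ (R.R υ).y j, x ≤ (R.R (br t)).top := by
    intro υ j hj x hx
    rw [← htop υ]
    exact (R.legal υ).1.2.1 j (hBs υ j hj) x hx
  have hF7 : ∀ υ, ∀ j ∈ B n, ∀ x, (R.R (br t)).top < x →
      x ∈ (RR B n (br t) ν (max b (E (R.R (br t))).top) (E (R.R (br t))) R.R υ).y j →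
      (j ∈ UU B n (br t) υ ∧ x ≤ (E (R.R (br t))).top) ∨
        (j ∉ UU B n (br t) υ ∧ x ∈ WW B n (br t) ν υ j) := by
    intro υ j hj x hx hxy
    have hxy' : x ∈ (am (UU B n (br t) υ) (E (R.R (br t))) (R.R υ)).y j ∪
        WW B n (br t) ν υ j := hxy
    by_cases hjU : j ∈ UU B n (br t) υ
    · left
      refine ⟨hjU, ?_⟩
      rcases hxy' with h | h
      · have h1 : x ∈ (E (R.R (br t))).y j := by
          unfold am at h
          simp only [if_pos hjU] at h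
          exact h
        have hjs : j ∈ (E (R.R (br t))).supp := hEle.2.2.1 (hBs (br t) j hj)
        exact hEl.1.2.1 j hjs x h1
      · exact absurd hjU h.2.1
    · right
      refine ⟨hjU, ?_⟩
      rcases hxy' with h | h
      · have h1 : x ∈ (R.R υ).y j := by
          unfold am at h
          simp only [if_neg hjU] at h
          exact h
        exact absurd (hF6 υ j hj x h1) (not_le.2 hx)
      · exact h
  have hWmem : ∀ υ, ∀ j ∈ B n, j ∉ UU B n (br t) υ → ν (υ n j) ∈ WW B n (br t) ν υ j :=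
    fun υ j hj hjU => ⟨hj, hjU, rfl⟩
  have hWtop : ∀ υ j, ∀ x ∈ WW B n (br t) ν υ j, (E (R.R (br t))).top < x := by
    intro υ j x hx
    obtain ⟨-, -, h3⟩ := hx
    rw [h3]
    exact hν1 _
  have hUeq : ∀ υ, ∀ j ∈ B n, j ∈ UU B n (br t) υ → (br t) n j = υ n j := by
    intro υ j hj hjU
    exact hjU n (Nat.lt_succ_self n) j hj le_rfl
  refine ⟨⟨RR B n (br t) ν (max b (E (R.R (br t))).top) (E (R.R (br t))) R.R,
    fun υ j => R.c υ j ∪ WW B n (br t) ν υ j, insert t R.done,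
    fun υ => (hspec υ).1, RR_coh (br t) ν _ _ hcoh, fun υ => (hle υ).trans (R.le υ),
    ?_, ?_, ?_, ?_, ?_, ?_⟩, ⟨hle, Set.subset_insert _ _, ?_⟩, Set.mem_insert _ _⟩
  · -- good
    intro t' ht'
    rcases ht' with rfl | ht'
    · refine ⟨R.R (br t'), R.legal _, R.le _, ?_⟩
      have hu : UU B n (br t') (br t') = Set.univ := by
        ext j
        simp only [Set.mem_univ, iff_true]
        intro m _ l _ _
        rfl
      have h := (hspec (br t')).2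
      rw [hu, am_univ] at h
      exact h
    · obtain ⟨r, h1, h2, h3⟩ := R.good t' ht'
      exact ⟨r, h1, h2, (hle _).trans h3⟩
  · -- csub
    intro υ j hj x hx
    rcases hx with hx | hx
    · obtain ⟨h1, h2⟩ := R.csub υ j hj x hx
      exact ⟨(hF5 υ j hj x (hF6 υ j hj x h1)).2 h1, h2⟩
    · refine ⟨Or.inr hx, ?_⟩
      have h1 : (Q υ).top ≤ (R.R υ).top := (R.le υ).1
      exact lt_of_le_of_lt (h1.trans (htop' υ)) (hWtop υ j x hx)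
  · -- clab
    intro υ j hj x hx
    rcases hx with hx | hx
    · obtain ⟨t', h1, h2⟩ := R.clab υ j hj x hx
      exact ⟨t', Set.mem_insert_of_mem _ h1, h2⟩
    · refine ⟨t, Set.mem_insert _ _, ?_⟩
      obtain ⟨-, -, h3⟩ := hx
      rw [h3]
      exact hν2 _
  · -- cinj
    intro υ j hj x hx x' hx' hxx
    rcases hx with hx | hx <;> rcases hx' with hx' | hx'
    · exact R.cinj υ j hj x hx x' hx' hxx
    · exfalso
      obtain ⟨t', h1, h2⟩ := R.clab υ j hj x hx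
      obtain ⟨-, -, h3⟩ := hx'
      rw [h2, h3, hν2] at hxx
      exact ht ((hκ _ _ _ _ hxx).2 ▸ h1)
    · exfalso
      obtain ⟨t', h1, h2⟩ := R.clab υ j hj x' hx'
      obtain ⟨-, -, h3⟩ := hx
      rw [h2, h3, hν2] at hxx
      exact ht ((hκ _ _ _ _ hxx).2 ▸ h1)
    · rw [hx.2.2, hx'.2.2]
  · -- sep1
    intro j hj υ υ' hag hne z hz hQz hzc z' hz' hQz' hzc' hzz
    rcases le_or_gt z' (R.R (br t)).top with h' | h'
    · have h := hzz.trans h'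
      obtain ⟨η, h1, h2, h3⟩ := R.sep1 j hj υ υ' hag hne z ((hF5 υ j hj z h).1 hz) hQz
        (fun hc => hzc (Or.inl hc)) z' ((hF5 υ' j hj z' h').1 hz') hQz'
        (fun hc => hzc' (Or.inl hc)) hzz
      exact ⟨η, (hF5 υ' j hj η (h3.le.trans h')).2 h1, h2, h3⟩
    · rcases hF7 υ' j hj z' h' hz' with ⟨hU', -⟩ | ⟨-, hW'⟩
      · rcases le_or_gt z (R.R (br t)).top with h | h
        · obtain ⟨η, h1, h2⟩ := R.sep2 j hj υ υ' hag hne z ((hF5 υ j hj z h).1 hz) hQz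
            (fun hc => hzc (Or.inl hc))
          have h3 := hF6 υ' j hj η h1
          exact ⟨η, (hF5 υ' j hj η h3).2 h1, h2, lt_of_le_of_lt h3 h'⟩
        · exfalso
          rcases hF7 υ j hj z h hz with ⟨hU, -⟩ | ⟨-, hW⟩
          · apply hne
            rw [← hUeq υ j hj hU, ← hUeq υ' j hj hU']
          · exact hzc (Or.inr hW)
      · exact absurd (Or.inr hW') hzc'
  · -- sep2
    intro j hj υ υ' hag hne z hz hQz hzc
    rcases le_or_gt z (R.R (br t)).top with h | h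
    · obtain ⟨η, h1, h2⟩ := R.sep2 j hj υ υ' hag hne z ((hF5 υ j hj z h).1 hz) hQz
        (fun hc => hzc (Or.inl hc))
      exact ⟨η, (hF5 υ' j hj η (hF6 υ' j hj η h1)).2 h1, h2⟩
    · rcases hF7 υ j hj z h hz with ⟨hU, hze⟩ | ⟨-, hW⟩
      · have hU' : j ∉ UU B n (br t) υ' := by
          intro hU'
          apply hne
          rw [← hUeq υ j hj hU, ← hUeq υ' j hj hU']
        exact ⟨ν (υ' n j), Or.inr (hWmem υ' j hj hU'), lt_of_le_of_lt hze (hν1 _)⟩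
      · exact absurd (Or.inr hW) hzc
  · -- order
    intro υ j hj x
    constructor
    · intro hx
      refine ⟨Or.inl hx, ?_⟩
      rw [htop υ]
      exact hF6 υ j hj x (R.csub υ j hj x hx).1
    · rintro ⟨hx, hxt⟩
      rcases hx with hx | hx
      · exact hx
      · exact absurd (hxt.trans (htop' υ)) (not_le.2 (hWtop υ j x hx))


/-- extension of a partial branch by a default value -/
noncomputable def exB (B : ℕ → Set Θ) (n : ℕ) (ω : Ω)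
    (t : {a : ℕ × Θ // a.1 ≤ n ∧ a.2 ∈ B a.1} → Ω) : ℕ → Θ → Ω :=
  open Classical in fun m j => if h : m ≤ n ∧ j ∈ B m then t ⟨(m, j), h⟩ else ω

theorem exB_agree (B : ℕ → Set Θ) (n : ℕ) (ω : Ω) (τ : ℕ → Θ → Ω) :
    Agree B (n + 1) Set.univ (exB B n ω (fun a => τ a.1.1 a.1.2)) τ := by
  intro m hm j hj _
  unfold exB
  rw [dif_pos ⟨Nat.lt_succ_iff.1 hm, hj⟩]

theorem coh_eq {B : ℕ → Set Θ} {n : ℕ} {Q : (ℕ → Θ → Ω) → Cond X Θ K}
    (hcoh : Coh B n Q) (hQ : ∀ τ, Legal Λ k0 σ N (Q τ)) {τ τ' : ℕ → Θ → Ω}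
    (h : Agree B n Set.univ τ τ') : Q τ = Q τ' := by
  have h1 := hcoh Set.univ (fun _ _ _ _ => Set.mem_univ _) τ τ' h
  rw [restr_eq_self (hQ τ).1 (Set.subset_univ _), restr_eq_self (hQ τ').1 (Set.subset_univ _)] at h1
  exact h1



/-- one level of the tree of conditions -/
theorem level [Nonempty X] [Infinite Λ] [Nonempty Ω] (hbd : ∀ f : Λ → X, ∃ b, ∀ n, f n < b)
    (hk0 : ¬ σ k0) (hlab : ∀ (x : X) (l : Λ), ∃ ν, x < ν ∧ HasLab.lab ν = l)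
    (hΩ : Nonempty (Ω ↪ Λ)) (B : ℕ → Set Θ) (n : ℕ) (Q : (ℕ → Θ → Ω) → Cond X Θ K)
    (hQ : ∀ τ, Legal Λ k0 σ N (Q τ)) (hcoh : Coh B n Q) (hsup : ∀ τ, B n ⊆ (Q τ).supp)
    (hsmall : Nonempty (({a : ℕ × Θ // a.1 ≤ n ∧ a.2 ∈ B a.1} → Ω) ↪ Λ))
    (E : Cond X Θ K → Cond X Θ K)
    (hE : ∀ p, Legal Λ k0 σ N p → Legal Λ k0 σ N (E p) ∧ E p ≤ p) :
    ∃ Q' : (ℕ → Θ → Ω) → Cond X Θ K, (∀ τ, Legal Λ k0 σ N (Q' τ)) ∧ Coh B (n + 1) Q' ∧
      (∀ τ, Q' τ ≤ Q τ) ∧ (∀ τ, ∃ r, Legal Λ k0 σ N r ∧ r ≤ Q τ ∧ Q' τ ≤ E r) ∧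
      Ctl B n Q Q' := by
  obtain ⟨eΩ⟩ := hΩ
  have hsm := hsmall
  obtain ⟨eT⟩ := hsm
  obtain ⟨ω⟩ := ‹Nonempty Ω›
  have hcard : Cardinal.mk (Λ × Λ) ≤ Cardinal.mk Λ := by
    rw [Cardinal.mk_prod, Cardinal.lift_id, Cardinal.mul_eq_self (Cardinal.aleph0_le_mk Λ)]
  obtain ⟨φ⟩ := Cardinal.le_def _ _ |>.mp hcard
  let κ : Ω → ({a : ℕ × Θ // a.1 ≤ n ∧ a.2 ∈ B a.1} → Ω) → Λ := fun o t => φ (eΩ o, eT t)
  have hκ : ∀ o t o' t', κ o t = κ o' t' → o = o' ∧ t = t' := by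
    intro o t o' t' h
    have h1 := φ.injective h
    exact ⟨eΩ.injective (Prod.mk.inj h1).1, eT.injective (Prod.mk.inj h1).2⟩
  have hΩ' : ∀ f : Ω → X, ∃ b, ∀ o, f o < b := by
    intro f
    obtain ⟨b, hb⟩ := hbd fun l => f (Function.invFun eΩ l)
    refine ⟨b, fun o => ?_⟩
    have := hb (eΩ o)
    rwa [Function.leftInverse_invFun eΩ.injective o] at this
  letI := preC (Λ := Λ) (k0 := k0) (σ := σ) (N := N) B n Q κ (exB B n ω) E hsup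
  have hcoh1 : Coh B (n + 1) Q := by
    intro U hU τ τ' hag
    exact hcoh U hU τ τ' (fun m hm => hag m (hm.trans (Nat.lt_succ_self n)))
  have hno : ∀ τ, ∀ j ∈ B n, ∀ z ∈ (Q τ).y j, ¬ (Q τ).top < z := fun τ j hj z hz =>
    not_lt.2 ((hQ τ).1.2.1 j (hsup τ hj) z hz)
  obtain ⟨R, hR, hRD⟩ := dist (Λ := Λ) (chainC hbd hk0 B n Q κ (exB B n ω) E hsup) hsmall
    (fun t => {R : SysC Λ k0 σ N B n Q κ (exB B n ω) E | t ∈ R.done})
    (by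
      intro t s hs s' hs'
      exact hs'.2.1 hs)
    (by
      intro t s
      exact denseC hk0 hlab hΩ' B n Q κ hκ (exB B n ω) E hE hsup t s)
    ⟨Q, fun _ _ => ∅, ∅, hQ, hcoh1, fun τ => le_refl _, fun t ht => ht.elim,
      fun τ j _ ν hν => hν.elim, fun τ j _ ν hν => hν.elim, fun τ j _ ν hν => hν.elim,
      fun j hj τ _ _ _ z hz hz' => absurd hz' (hno τ j hj z hz),
      fun j hj τ _ _ _ z hz hz' => absurd hz' (hno τ j hj z hz)⟩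
  refine ⟨R.R, R.legal, R.coh, R.le, ?_, R.c, fun j hj => ⟨fun τ => R.cinj τ j hj, ?_⟩⟩
  · intro τ
    obtain ⟨r, hr1, hr2, hr3⟩ := R.good _ (hRD (fun a => τ a.1.1 a.1.2))
    refine ⟨r, hr1, ?_, ?_⟩
    · rw [← coh_eq hcoh1 hQ (exB_agree B n ω τ)]
      exact hr2
    · rw [← coh_eq R.coh R.legal (exB_agree B n ω τ)]
      exact hr3
  · intro τ τ' hag hne
    refine ⟨?_, R.sep1 j hj τ τ' hag hne⟩
    intro ν hν ν' hν' h
    obtain ⟨t, _, ht⟩ := R.clab τ j hj ν hν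
    obtain ⟨t', _, ht'⟩ := R.clab τ' j hj ν' hν'
    exact hne (hκ _ _ _ _ (ht.symm.trans (h.trans ht'))).1


/-- making the supports equal -/
theorem pad_system [Infinite Λ] [Nonempty Ω] (B : ℕ → Set Θ) (n : ℕ)
    (Q : (ℕ → Θ → Ω) → Cond X Θ K) (hQ : ∀ τ, Legal Λ k0 σ N (Q τ)) (hcoh : Coh B (n + 1) Q)
    (hsmall : Nonempty (({a : ℕ × Θ // a.1 ≤ n ∧ a.2 ∈ B a.1} → Ω) ↪ Λ)) :
    ∃ V : Set Θ, (∀ τ, Legal Λ k0 σ N (pad (Q τ) V) ∧ pad (Q τ) V ≤ Q τ ∧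
      (pad (Q τ) V).supp = V) ∧ Coh B (n + 1) fun τ => pad (Q τ) V := by
  obtain ⟨ω⟩ := ‹Nonempty Ω›
  have hVeq : ∀ τ, (Q τ).supp ⊆ ⋃ t : ({a : ℕ × Θ // a.1 ≤ n ∧ a.2 ∈ B a.1} → Ω),
      (Q (exB B n ω t)).supp := by
    intro τ
    rw [← coh_eq hcoh hQ (exB_agree B n ω τ)]
    exact Set.subset_iUnion (fun t => (Q (exB B n ω t)).supp) (fun a => τ a.1.1 a.1.2)
  have hcard : Nonempty ((⋃ t : ({a : ℕ × Θ // a.1 ≤ n ∧ a.2 ∈ B a.1} → Ω),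
      (Q (exB B n ω t)).supp : Set Θ) ↪ Λ) := by
    rw [← Cardinal.le_def]
    have hinf : Cardinal.aleph0 ≤ Cardinal.mk Λ := Cardinal.aleph0_le_mk Λ
    have h1 : Cardinal.mk ({a : ℕ × Θ // a.1 ≤ n ∧ a.2 ∈ B a.1} → Ω) ≤ Cardinal.mk Λ := by
      rw [Cardinal.le_def]; exact hsmall
    calc Cardinal.mk (⋃ t : ({a : ℕ × Θ // a.1 ≤ n ∧ a.2 ∈ B a.1} → Ω),
          (Q (exB B n ω t)).supp : Set Θ)
        ≤ Cardinal.sum fun t : ({a : ℕ × Θ // a.1 ≤ n ∧ a.2 ∈ B a.1} → Ω) =>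
            Cardinal.mk (Q (exB B n ω t)).supp := Cardinal.mk_iUnion_le_sum_mk
      _ ≤ Cardinal.sum fun t : ({a : ℕ × Θ // a.1 ≤ n ∧ a.2 ∈ B a.1} → Ω) =>
            Cardinal.mk Λ := by
          apply Cardinal.sum_le_sum
          intro t
          rw [Cardinal.le_def]
          exact (hQ _).1.1
      _ = Cardinal.mk ({a : ℕ × Θ // a.1 ≤ n ∧ a.2 ∈ B a.1} → Ω) * Cardinal.mk Λ := by
          rw [Cardinal.sum_const']
      _ ≤ Cardinal.mk Λ * Cardinal.mk Λ := mul_le_mul_left h1 _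
      _ = Cardinal.mk Λ := Cardinal.mul_eq_self hinf
  obtain ⟨V, hV⟩ : ∃ V : Set Θ, V = ⋃ t : ({a : ℕ × Θ // a.1 ≤ n ∧ a.2 ∈ B a.1} → Ω),
      (Q (exB B n ω t)).supp := ⟨_, rfl⟩
  rw [← hV] at hcard
  have hsub : ∀ τ, (Q τ).supp ⊆ V := by intro τ; rw [hV]; exact hVeq τ
  have hun : ∀ τ, (Q τ).supp ∪ V = V := fun τ => Set.union_eq_self_of_subset_left (hsub τ)
  refine ⟨V, ?_, ?_⟩
  · intro τ
    have h1 := pad_spec (hQ τ) V (by rw [hun τ]; exact hcard)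
    exact ⟨h1.1, h1.2, hun τ⟩
  · intro U hU τ τ' hag
    have h := hcoh U hU τ τ' hag
    have e1 : (restr (Q τ) U).top = (restr (Q τ') U).top := by rw [h]
    have e2 : (restr (Q τ) U).g = (restr (Q τ') U).g := by rw [h]
    have e4 : (fun j => {x | x ∈ (Q τ).y j ∧ j ∈ U}) =
          (fun j => {x | x ∈ (Q τ').y j ∧ j ∈ U}) := congrArg Cond.y h
    unfold restr pad
    apply Cond.ext
    · exact e1
    · exact e2
    · show ((Q τ).supp ∪ V) ∩ U = ((Q τ').supp ∪ V) ∩ U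
      rw [hun, hun]
    · exact e4


end Pool.Agent.Helper539.LbLevel
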