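import Mathlib
import Pool.Agent.Helper539.LadForced

/-!
# The forced statement: `λ` colours at a strong limit cardinal
-/

namespace Pool.Agent.Helper539.LbForced

open Pool.Agent.Helper539.SPForcing Pool.Agent.Helper539.LadDefs Pool.Agent.Helper539.LadForced

universe u v

/-- `Λ` is a strong limit: for every `a : Λ` there is `b : Λ` with `2 ^ |a| ≤ |b|`, that is,
there is a family of subsets of the initial segment below `a`, indexed by the initial segment
below `b`, which contains all the subsets of the initial segment below `a`. -/
def FStrongLimit (P : Type u) [Preorder P] (Λ : Type v) [LinearOrder Λ] : Set P :=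
  fall fun a : Λ => fex fun b : Λ => FPowLe P (Set.Iio a) (Set.Iio b)

/-- The negated form of the question, in the extension, for the well-ordered sets `Λ` and `X` of
the ground model. The conjuncts say:
* `Λ` is (of order type) a cardinal;
* `Λ` is longer than `ω`;
* a function `ℕ → Λ` is strictly increasing and unbounded (so `Λ` is singular of cofinality `ω`);
* `Λ` is a strong limit;
* `X` is the successor cardinal of `Λ`;
* `2 ^ |Λ| ≤ |X|`, that is, `2 ^ λ = λ⁺`;
* there is a set `S ⊆ X` of points of cofinality `ω` which is stationary in `X` and such that for
  every ladder system on `S` there are a function `f : X → Λ` (a colouring with `λ` colours) and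
  a closed unbounded `C ⊆ X` such that no `a ∈ S ∩ C` satisfies `f (a_{2 i}) = f (a_{2 i + 1})`
  for all `i`. -/
def LambdaGuessingFails (P : Type u) [Preorder P] (Λ X : Type v) [LinearOrder Λ]
    [LinearOrder X] : Set P :=
  fand (FCardinal P Λ)
    (fand (fground (∃ a : Λ, Infinite (Set.Iio a)))
    (fand (fground (∃ f : ℕ → Λ, StrictMono f ∧ ∀ b, ∃ n, b < f n))
    (fand (FStrongLimit P Λ)
    (fand (FSucc P Λ X)
    (fand (FPowLe P Λ X)
    (fex fun S : X → Set P =>
      fand (fall fun a : X => fimp (meets (S a)) (fground (CofinalityOmega a)))
        (fand (FStationaryName S)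
          (NoPairGuessingName S ℕ (fun i => 2 * i) (fun i => 2 * i + 1) Λ))))))))

end Pool.Agent.Helper539.LbForced
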