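import Mathlib
import Pool.Agent.Helper539.LbForced
import Pool.Agent.Helper539.LbBasic

/-!
# The forcing notion and the names
-/

namespace Pool.Agent.Helper539.LbPT

open Pool.Agent.Helper539.SPForcing Pool.Agent.Helper539.LadDefs Pool.Agent.Helper539.LadForced
open Pool.Agent.Helper539.LadIter hiding Req ReqAt Lg Legal
open Pool.Agent.Helper539.LbIter

universe u z

variable {X Θ K : Type u} [LinearOrder X] [LinearOrder Θ] [WellFoundedLT Θ]

/-- the forcing notion of the legal conditions -/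
abbrev PT (Λ : Type u) [HasLab X Λ] (k0 : K) (σ : K → Prop)
    (N : Θ → X → X → Set (Cond X Θ K)) : Type u :=
  {p : Cond X Θ K // Legal Λ k0 σ N p}

/-- The name of the generic set `S`: the points `x` of cofinality `ω` with `σ (g x)`. -/
def SName {Λ : Type u} [HasLab X Λ] {k0 : K} {σ : K → Prop} {N : Θ → X → X → Set (Cond X Θ K)}
    (x : X) : Set (PT Λ k0 σ N) :=
  {s | x ≤ s.1.top ∧ σ (s.1.g x) ∧ CofinalityOmega x}

/-- The name of the function `x ↦ π (lab ν) (e ν x)`, where `ν` is the least element of `y j`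
above `x`. -/
def fName {Λ : Type u} [HasLab X Λ] {k0 : K} {σ : K → Prop} {N : Θ → X → X → Set (Cond X Θ K)}
    (j : Θ) {M : Type z} (π : Λ → Λ → M) (e : X → X → Λ) (x : X) (m : M) :
    Set (PT Λ k0 σ N) :=
  {s | j ∈ s.1.supp ∧ ∃ ν, Next (s.1.y j) x ν ∧ m = π (HasLab.lab ν) (e ν x)}

/-- The name of the club of the limit points of `y j`. -/
def CName {Λ : Type u} [HasLab X Λ] {k0 : K} {σ : K → Prop} {N : Θ → X → X → Set (Cond X Θ K)}
    (j : Θ) (γ : X) : Set (PT Λ k0 σ N) :=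
  {s | j ∈ s.1.supp ∧ γ ≤ s.1.top ∧ Unb (s.1.y j) γ ∧ ∃ b, b < γ}

end Pool.Agent.Helper539.LbPT
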