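import Mathlib
import Pool.Agent.Helper539.LbPT

/-!
# The names of the function and of the club
-/

namespace Pool.Agent.Helper539.LbFName

open Pool.Agent.Helper539.SPForcing Pool.Agent.Helper539.LadDefs Pool.Agent.Helper539.LadForced
open Pool.Agent.Helper539.LadIter hiding Req ReqAt Lg Legal
open Pool.Agent.Helper539.LbIter Pool.Agent.Helper539.LbBasic Pool.Agent.Helper539.LbPT

universe u z

variable {X Θ K : Type u} [LinearOrder X] [WellFoundedLT X] [LinearOrder Θ] [WellFoundedLT Θ]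
  {Λ : Type u} [HasLab X Λ] {k0 : K} {σ : K → Prop} {N : Θ → X → X → Set (Cond X Θ K)}

theorem h1 [Infinite Λ] (hnm : ∀ x : X, ∃ y, x < y) (hk0 : ¬ σ k0) (j : Θ)
    (p : PT Λ k0 σ N) (a : X) :
    ∃ (p' : PT Λ k0 σ N), p' ≤ p ∧ a < p'.1.top ∧ p.1.top < p'.1.top ∧ j ∈ p'.1.supp ∧
      p'.1.top ∈ p'.1.y j := by
  obtain ⟨δ, hδ⟩ := hnm (max p.1.top a)
  have hδ1 : p.1.top < δ := lt_of_le_of_lt (le_max_left _ _) hδ
  have hδ2 : a < δ := lt_of_le_of_lt (le_max_right _ _) hδ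
  obtain ⟨h1, h2⟩ := ext_spec p.2 j hδ1 hk0 hk0
  refine ⟨⟨LadIter.ext k0 p.1 j δ k0, h1⟩, h2, hδ2, hδ1, Set.mem_insert _ _, ?_⟩
  show δ ∈ (if j = j then insert δ (p.1.y j) else p.1.y j)
  rw [if_pos rfl]
  exact Set.mem_insert _ _

omit [WellFoundedLT X] in
theorem next_down {j : Θ} {s t : PT Λ k0 σ N} (hj : j ∈ s.1.supp) {x ν : X}
    (h : Next (s.1.y j) x ν) (ht : t ≤ s) : Next (t.1.y j) x ν := by
  have hle : t.1 ≤ s.1 := ht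
  obtain ⟨a1, a2, a3, a4⟩ := hle
  have hν : ν ≤ s.1.top := s.2.1.2.1 j hj ν h.2.1
  exact ⟨h.1, (a4 j hj ν hν).2 h.2.1, fun η e1 e2 e3 =>
    h.2.2 η e1 e2 ((a4 j hj η (e2.le.trans hν)).1 e3)⟩

omit [WellFoundedLT X] in
theorem next_unique {y : Set X} {x ν ν' : X} (h : Next y x ν) (h' : Next y x ν') : ν = ν' := by
  rcases lt_trichotomy ν ν' with hlt | heq | hlt
  · exact absurd h.2.1 (h'.2.2 ν h.1 hlt)
  · exact heq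
  · exact absurd h'.2.1 (h.2.2 ν' h'.1 hlt)

/-- `fName j π e` is a function -/
theorem isFun_fName [Infinite Λ] (hnm : ∀ x : X, ∃ y, x < y) (hk0 : ¬ σ k0) (j : Θ) {M : Type z}
    (π : Λ → Λ → M) (e : X → X → Λ) (r : PT Λ k0 σ N) :
    r ∈ IsFun (fName (Λ := Λ) (k0 := k0) (σ := σ) (N := N) j π e) := by
  classical
  refine ⟨fun x => mem_fex.2 fun q _ => ?_, fun x m m' => mem_fimp.2 fun q _ hq => ?_⟩
  · obtain ⟨p', hp', e1, e2, e3, e4⟩ := h1 hnm hk0 j q x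
    obtain ⟨ξ, ⟨hξ1, hξ2⟩, hξ3⟩ := WellFounded.has_min (wellFounded_lt (α := X))
      {ξ | x < ξ ∧ ξ ∈ p'.1.y j} ⟨p'.1.top, e1, e4⟩
    exact ⟨p', hp', _, meets_of_mem ⟨e3, ξ, ⟨hξ1, hξ2, fun η hη1 hη2 hη3 =>
      hξ3 η ⟨hη1, hη3⟩ hη2⟩, rfl⟩⟩
  · refine ⟨q, le_rfl, ?_⟩
    obtain ⟨t, ht, s1, ⟨hj1, ν1, a1, a2⟩, hts1⟩ := hq.1 q le_rfl
    obtain ⟨t', ht', s2, ⟨hj2, ν2, b1, b2⟩, hts2⟩ := hq.2 t ht
    have c1 := next_down hj1 a1 (ht'.trans hts1)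
    have c2 := next_down hj2 b1 hts2
    show m = m'
    rw [a2, b2, next_unique c1 c2]

theorem club_h1 [Infinite Λ] (hnm : ∀ x : X, ∃ y, x < y) (hk0 : ¬ σ k0)
    (hP : ∀ f : ℕ → PT Λ k0 σ N, (∀ n, f (n + 1) ≤ f n) → ∃ l, ∀ n, l ≤ f n) (j : Θ)
    (p : PT Λ k0 σ N) (b : X) :
    ∃ (l : PT Λ k0 σ N) (γ : X), l ≤ p ∧ b < γ ∧ j ∈ l.1.supp ∧ γ ≤ l.1.top ∧
      Unb (l.1.y j) γ := by
  classical
  choose E hE1 hE2 hE3 hE4 hE5 using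
    fun p : PT Λ k0 σ N => h1 hnm hk0 j p b
  let f : ℕ → PT Λ k0 σ N := fun n => Nat.rec p (fun _ q => E q) n
  have hf : ∀ n, f (n + 1) = E (f n) := fun n => rfl
  obtain ⟨l, hl⟩ := hP f (fun n => by rw [hf]; exact hE1 _)
  let δ : ℕ → X := fun n => (f (n + 1)).1.top
  have hδb : ∀ n, b < δ n := fun n => by
    show b < (f (n + 1)).1.top
    rw [hf]; exact hE2 _
  have hδlt : ∀ n, δ n < δ (n + 1) := fun n => by
    show (f (n + 1)).1.top < (f (n + 1 + 1)).1.top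
    rw [hf (n + 1)]; exact hE3 _
  have hj : ∀ n, j ∈ (f (n + 1)).1.supp := fun n => by rw [hf]; exact hE4 _
  have hδy : ∀ n, δ n ∈ (f (n + 1)).1.y j := fun n => by
    show (f (n + 1)).1.top ∈ (f (n + 1)).1.y j
    rw [hf]; exact hE5 _
  have hle : ∀ n, l.1 ≤ (f n).1 := hl
  have hδl : ∀ n, δ n ≤ l.1.top := fun n => (hle (n + 1)).1
  have hδly : ∀ n, δ n ∈ l.1.y j := fun n =>
    ((hle (n + 1)).2.2.2 j (hj n) (δ n) le_rfl).2 (hδy n)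
  obtain ⟨γ, hγ1, hγ2⟩ := WellFounded.has_min (wellFounded_lt (α := X))
    {γ | ∀ n, δ n ≤ γ} ⟨l.1.top, hδl⟩
  have hγ3 : ∀ b' < γ, ∃ n, b' < δ n := by
    intro b' hb'
    by_contra hcon
    push Not at hcon
    exact hγ2 b' hcon hb'
  refine ⟨l, γ, hl 0, lt_of_lt_of_le (hδb 0) (hγ1 0), (hle 1).2.2.1 (hj 0), ?_, ?_⟩
  · by_contra hcon
    push Not at hcon
    exact hγ2 l.1.top hδl hcon
  · intro b' hb'
    obtain ⟨n, hn⟩ := hγ3 b' hb'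
    exact ⟨δ n, hδly n, hn, lt_of_lt_of_le (hδlt n) (hγ1 (n + 1))⟩

/-- `CName j` is a club -/
theorem club_CName [Infinite Λ] (hnm : ∀ x : X, ∃ y, x < y) (hk0 : ¬ σ k0)
    (hP : ∀ f : ℕ → PT Λ k0 σ N, (∀ n, f (n + 1) ≤ f n) → ∃ l, ∀ n, l ≤ f n) (j : Θ)
    (r : PT Λ k0 σ N) :
    r ∈ FClub (CName (Λ := Λ) (k0 := k0) (σ := σ) (N := N) j) := by
  refine ⟨fun b => mem_fex.2 fun q _ => ?_, fun d => mem_fimp.2 fun q _ hq => ?_⟩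
  · obtain ⟨l, γ, h1, h2, h3, h4, h5⟩ := club_h1 hnm hk0 hP j q b
    exact ⟨l, h1, γ, h2, meets_of_mem ⟨h3, h4, h5, b, h2⟩⟩
  · obtain ⟨hb, H⟩ := hq
    obtain ⟨p', hp', e1, e2, e3, e4⟩ := h1 hnm hk0 j q d
    refine ⟨p', hp', meets_of_mem ⟨e3, e1.le, ?_, hb⟩⟩
    intro b hbd
    obtain ⟨r1, hr1, hr1'⟩ := mem_fimp.1 (H b) p' hp' hbd
    obtain ⟨r2, hr2, c, hc, hr2'⟩ := mem_fex.1 hr1' r1 le_rfl
    obtain ⟨r3, hr3, s, hs, hr3s⟩ := hr2' r2 le_rfl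
    obtain ⟨f1, f2, f3, -⟩ := hs
    obtain ⟨x, hx1, hx2, hx3⟩ := f3 b hc.1
    have hxs : x ∈ r3.1.y j :=
      ((hr3s : r3.1 ≤ s.1).2.2.2 j f1 x (hx3.le.trans f2)).2 hx1
    have hle3 : r3 ≤ p' := (hr3.trans hr2).trans hr1
    have hxp : x ∈ p'.1.y j :=
      ((hle3 : r3.1 ≤ p'.1).2.2.2 j e3 x ((hx3.trans hc.2).le.trans e1.le)).1 hxs
    exact ⟨x, hxp, hx2, hx3.trans hc.2⟩

end Pool.Agent.Helper539.LbFName
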