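import Mathlib
import Pool.Agent.Helper539.LbPT
import Pool.Agent.Helper539.LbFName

/-!
# The main argument
-/

namespace Pool.Agent.Helper539.LbKey

open Cardinal Pool.Agent.Helper539.SPForcing Pool.Agent.Helper539.LadDefs
  Pool.Agent.Helper539.LadForced
open Pool.Agent.Helper539.LadIter hiding Req ReqAt Lg Legal
open Pool.Agent.Helper539.LadBasic hiding Req.mono lg_eq mem_lg legal_restr
open Pool.Agent.Helper539.LbIter Pool.Agent.Helper539.LbBasic Pool.Agent.Helper539.LbPT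
  Pool.Agent.Helper539.LbFName

universe u z

variable {X Θ K : Type u} [LinearOrder X] [WellFoundedLT X] [LinearOrder Θ] [WellFoundedLT Θ]
  {Λ : Type u} [HasLab X Λ] {k0 : K} {σ : K → Prop} {N : Θ → X → X → Set (Cond X Θ K)}

theorem key_down {P : Type*} [Preorder P] {Y : Type*} [LinearOrder Y] {I : Type*} [LinearOrder I]
    (a : Y) (g : I → Y → Set P) : Down (FLadder a g) :=
  down_fand (down_IsFun _) (down_fand
    (down_fall fun _ => down_fall fun _ => down_fall fun _ => down_fall fun _ => down_fimp _ _)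
    (down_fand (down_fall fun _ => down_fall fun _ => down_fimp _ _)
      (down_fall fun _ => down_fimp _ _)))

theorem key_next {Y : Type*} [LinearOrder Y] [WellFoundedLT Y] {y : Set Y} {a x : Y}
    (hU : Unb y a) (hx : x < a) : ∃ ν, Next y x ν ∧ ν < a := by
  classical
  obtain ⟨b, hb, hxb, hba⟩ := hU x hx
  have hne : {ξ | x < ξ ∧ ξ ∈ y}.Nonempty := ⟨b, hxb, hb⟩
  refine ⟨WellFounded.min (wellFounded_lt (α := Y)) _ hne, ⟨?_, ?_, ?_⟩, ?_⟩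
  · exact (WellFounded.min_mem (wellFounded_lt (α := Y)) _ hne).1
  · exact (WellFounded.min_mem (wellFounded_lt (α := Y)) _ hne).2
  · intro η h1 h2 h3
    exact WellFounded.not_lt_min (wellFounded_lt (α := Y)) _ (show η ∈ {ξ | x < ξ ∧ ξ ∈ y} from
      ⟨h1, h3⟩) h2
  · exact (WellFounded.min_le (wellFounded_lt (α := Y)) (show b ∈ {ξ | x < ξ ∧ ξ ∈ y} from
      ⟨hxb, hb⟩)).trans_lt hba

theorem key_small {j : Θ} {Z : X → Set (PT Λ k0 σ N)} {h : X → PT Λ k0 σ N → ℕ → X}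
    (hanti : ∀ γ, ∀ z ∈ Z γ, ∀ z' ∈ Z γ, (∃ u, u ≤ z ∧ u ≤ z') → z = z')
    (hN : ∀ γ x, N j γ x = {b | ∃ z ∈ Z γ, x ∈ Set.range (h γ z) ∧ b = z.1}) {a : X}
    {z p : PT Λ k0 σ N} (hz : z ∈ Z a) (hzs : z.1.supp ⊆ Set.Iio j) (hpz : p ≤ z)
    (hR : Req (Lg Λ k0 σ N j) (N j a) (restr p.1 (Set.Iio j)) (p.1.y j) a) :
    ∃ ξ0 < a, Spread (Set.range (h a z)) (p.1.y j) ξ0 a := by
  have hρL : restr p.1 (Set.Iio j) ∈ Lg Λ k0 σ N j :=
    mem_lg.2 ⟨legal_restr p.2 (isLowerSet_Iio j), Set.inter_subset_right⟩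
  have hρz : restr p.1 (Set.Iio j) ≤ z.1 := restr_le_of_le hpz hzs
  rcases hR with ⟨A, _, hCov, ξ0, hξ0, hA⟩ | hR
  · have hsub : ∀ x ∈ Set.range (h a z), x ∈ A := by
      intro x hx
      by_contra hxA
      refine hCov x hxA _ hρL le_rfl z.1 ?_ hρz
      rw [hN]
      exact ⟨z, hz, hx, rfl⟩
    exact ⟨ξ0, hξ0, fun x hx x' hx' => hA x (hsub x hx) x' (hsub x' hx')⟩
  · exfalso
    refine hR _ hρL le_rfl ⟨Set.range (h a z), Set.countable_range _, ?_⟩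
    intro x hx q' hq' hq'ρ b hb hq'b
    rw [hN] at hb
    obtain ⟨z', hz', hx', rfl⟩ := hb
    have hu : z = z' := hanti a z hz z' hz'
      ⟨⟨q', (mem_lg.1 hq').1⟩, (hq'ρ.trans hρz : q' ≤ z.1), hq'b⟩
    rw [← hu] at hx'
    exact hx hx'

/-- the main argument -/
theorem key [Infinite Λ] {ev od : ℕ → ℕ} (hev : ∀ i, ev i < od i) (hcof : ∀ j, ∃ i, j ≤ ev i)
    {M : Type z} (π : Λ → Λ → M) (hπ : ∀ a b a' b', π a b = π a' b' → a = a' ∧ b = b')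
    (e : X → X → Λ) (he : ∀ ν x x', x < ν → x' < ν → e ν x = e ν x' → x = x')
    {p0 : PT Λ k0 σ N} (L : X → ℕ → X → Set (PT Λ k0 σ N))
    (hL : p0 ∈ fall fun a : X => fimp (meets (SName a)) (FLadder a (L a)))
    (j : Θ) (Z : X → Set (PT Λ k0 σ N)) (h : X → PT Λ k0 σ N → ℕ → X)
    (hZ : ∀ γ, ∀ z ∈ Z γ, z ≤ p0 ∧ γ ≤ z.1.top ∧ z.1.supp ⊆ Set.Iio j)
    (hanti : ∀ γ, ∀ z ∈ Z γ, ∀ z' ∈ Z γ, (∃ u, u ≤ z ∧ u ≤ z') → z = z')
    (hpre : ∀ γ, ∀ p ≤ p0, ∃ z ∈ Z γ, ∃ u, u ≤ p ∧ u ≤ z)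
    (hN : ∀ γ x, N j γ x = {b | ∃ z ∈ Z γ, x ∈ Set.range (h γ z) ∧ b = z.1})
    (hW : ∀ γ, ∀ z ∈ Z γ, σ (z.1.g γ) → CofOmega γ → ∀ n, z ∈ meets (L γ n (h γ z n))) (a : X) :
    p0 ∈ fimp (fand (meets (SName a)) (meets (CName j a)))
      (fnot (FPairConstant ev od (fName j π e) (L a))) := by
  classical
  refine mem_fimp.2 fun r hr hSC => ?_
  obtain ⟨hS, hC⟩ := hSC
  obtain ⟨ra, hra, sa, hsa, hlea⟩ := hS r le_rfl
  obtain ⟨rb, hrb, sb, hsb, hleb⟩ := hC ra hra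
  have hrbr : rb ≤ r := hrb.trans hra
  obtain ⟨rc, hrc, hLrc⟩ := mem_fimp.1 (hL a) rb (hrbr.trans hr) (down_meets _ _ hS _ hrbr)
  have hrc0 : rc ≤ p0 := (hrc.trans hrbr).trans hr
  obtain ⟨z, hz, u, hu, huz⟩ := hpre a rc hrc0
  refine ⟨u, hu.trans (hrc.trans hrbr), fun t ht hPC => ?_⟩
  have htrc : t ≤ rc := ht.trans hu
  have hpz : t ≤ z := ht.trans huz
  obtain ⟨hzp0, hztop, hzs⟩ := hZ a z hz
  have hta : t.1 ≤ sa.1 := (htrc.trans (hrc.trans hrb)).trans hlea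
  have htb : t.1 ≤ sb.1 := (htrc.trans hrc).trans hleb
  obtain ⟨hsa1, hsa2, hsa3⟩ := hsa
  obtain ⟨hsb1, hsb2, hsb3, -⟩ := hsb
  have hatop : a ≤ t.1.top := hsa1.trans hta.1
  have hσ : σ (t.1.g a) := by rw [hta.2.1 a hsa1]; exact hsa2
  have hjs : j ∈ t.1.supp := htb.2.2.1 hsb1
  have hUnb : Unb (t.1.y j) a := by
    intro b hb
    obtain ⟨x, hx, h1, h2⟩ := hsb3 b hb
    exact ⟨x, (htb.2.2.2 j hsb1 x (h2.le.trans hsb2)).2 hx, h1, h2⟩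
  have hcofa : CofOmega a := hsa3
  have hpz' : t.1 ≤ z.1 := hpz
  have hσz : σ (z.1.g a) := by rw [← hpz'.2.1 a hztop]; exact hσ
  have hReq := (t.2.2 j hjs) a hatop hσ hcofa hUnb
  obtain ⟨ξ0, hξ0, hspread⟩ := key_small hanti hN hz hzs hpz hReq
  have hLa := key_down _ _ _ hLrc _ htrc
  have hWt : ∀ n, t ∈ meets (L a n (h a z n)) := fun n =>
    down_meets _ _ (hW a z hz hσz hcofa n) _ hpz
  -- the ladder is increasing, below `a` and unbounded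
  have hmono : ∀ m n, m < n → h a z m < h a z n := by
    intro m n hmn
    obtain ⟨_, _, h5⟩ := mem_fimp.1 (hLa.2.1 m n (h a z m) (h a z n)) t le_rfl
      ⟨hmn, hWt m, hWt n⟩
    exact h5
  have hlt : ∀ n, h a z n < a := by
    intro n
    obtain ⟨_, _, h5⟩ := mem_fimp.1 (hLa.2.2.1 n (h a z n)) t le_rfl (hWt n)
    exact h5
  obtain ⟨t1, ht1, hex⟩ := mem_fimp.1 (hLa.2.2.2 ξ0) t le_rfl hξ0
  obtain ⟨t2, ht2, i0, hex2⟩ := mem_fex.1 hex t1 le_rfl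
  obtain ⟨t3, ht3, x, hx, hγx⟩ := mem_fex.1 hex2 t2 le_rfl
  have hγx : ξ0 < x := hγx
  have ht3t : t3 ≤ t := (ht3.trans ht2).trans ht1
  have hxi : x = h a z i0 := IsFun.unique (down_IsFun _ _ hLa.1 _ ht3t) hx
    (down_meets _ _ (hWt i0) _ ht3t)
  obtain ⟨i, hi⟩ := hcof i0
  have hle : h a z i0 ≤ h a z (ev i) := by
    rcases hi.lt_or_eq with hl | heq
    · exact (hmono _ _ hl).le
    · rw [heq]
  have hξ1 : ξ0 < h a z (ev i) := by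
    rw [hxi] at hγx
    exact lt_of_lt_of_le hγx hle
  have hξ2 : ξ0 < h a z (od i) := hξ1.trans (hmono _ _ (hev i))
  obtain ⟨ν1, hν1, hν1a⟩ := key_next hUnb (hlt (ev i))
  obtain ⟨ν2, hν2, hν2a⟩ := key_next hUnb (hlt (od i))
  obtain ⟨r5, hr5, h5⟩ := mem_fimp.1 (hPC i (h a z (ev i)) (h a z (od i))) t le_rfl
    ⟨hWt (ev i), hWt (od i)⟩
  have hmem1 : t ∈ fName j π e (h a z (ev i)) (π (HasLab.lab ν1) (e ν1 (h a z (ev i)))) :=
    ⟨hjs, ν1, hν1, rfl⟩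
  obtain ⟨r6, hr6, h6⟩ := mem_fimp.1 (h5 (π (HasLab.lab ν1) (e ν1 (h a z (ev i))))).1 r5 le_rfl
    (meets_of_le hmem1 hr5)
  obtain ⟨r7, hr7, s, ⟨hjs', ν', hν', hval⟩, hs⟩ := h6 r6 le_rfl
  have hr7t : r7 ≤ t := (hr7.trans hr6).trans hr5
  have c1 := next_down hjs hν2 hr7t
  have c2 := next_down hjs' hν' hs
  have heq := next_unique c1 c2
  rw [← heq] at hval
  obtain ⟨g1, g2⟩ := hπ _ _ _ _ hval
  have hνν : ν1 = ν2 := hspread _ ⟨ev i, rfl⟩ _ ⟨od i, rfl⟩ hξ1 hξ2 ν1 ν2 hν1 hν2 hν1a hν2a g1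
  rw [hνν] at g2 hν1
  have := he ν2 _ _ hν1.1 hν2.1 g2
  exact absurd this (ne_of_lt (hmono _ _ (hev i)))

end Pool.Agent.Helper539.LbKey
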