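import Mathlib
import Pool.Agent.Helper539.LadDefs

/-!
# Distributive forcing notions
-/

namespace Pool.Agent.Helper539.LbGen

open Pool.Agent.Helper539.SPForcing Pool.Agent.Helper539.LadDefs

universe u v w

variable {P : Type u} [Preorder P]

/-- a name for a subset of `A` is decided densely -/
theorem decide_set {A : Type v}
    (hdist : ∀ D : A → Set P, (∀ t, ∀ s ∈ D t, ∀ s' ≤ s, s' ∈ D t) →
      (∀ t, ∀ s, ∃ s' ≤ s, s' ∈ D t) → ∀ s, ∃ s' ≤ s, ∀ t, s' ∈ D t)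
    (Nm : A → Set P) (r : P) :
    ∃ r' ≤ r, ∃ G : Set A, (∀ a ∈ G, r' ∈ meets (Nm a)) ∧ ∀ a ∉ G, r' ∈ fnot (meets (Nm a)) := by
  obtain ⟨r', hr', h⟩ := hdist (fun a => {s : P | s ∈ meets (Nm a) ∨ s ∈ fnot (meets (Nm a))})
    (by
      rintro a s (hs | hs) t ht
      · exact Or.inl (down_meets _ s hs t ht)
      · exact Or.inr (down_fnot _ s hs t ht))
    (by
      intro a s
      by_cases h : ∃ t ≤ s, t ∈ meets (Nm a)
      · obtain ⟨t, ht, ht'⟩ := h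
        exact ⟨t, ht, Or.inl ht'⟩
      · push Not at h
        exact ⟨s, le_rfl, Or.inr h⟩) r
  refine ⟨r', hr', {a | r' ∈ meets (Nm a)}, fun a ha => ha, fun a ha => ?_⟩
  rcases h a with h1 | h1
  · exact absurd h1 ha
  · exact h1

/-- a name for a function on `T` is decided densely -/
theorem decide_fun {T : Type v} {B : Type w}
    (hdist : ∀ D : T → Set P, (∀ t, ∀ s ∈ D t, ∀ s' ≤ s, s' ∈ D t) →
      (∀ t, ∀ s, ∃ s' ≤ s, s' ∈ D t) → ∀ s, ∃ s' ≤ s, ∀ t, s' ∈ D t)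
    (F : T → B → Set P) {r : P} (hr : ∀ t, ∀ q ≤ r, ∃ q' ≤ q, ∃ b, q' ∈ meets (F t b)) :
    ∃ r' ≤ r, ∃ f : T → B, ∀ t, r' ∈ meets (F t (f t)) := by
  obtain ⟨r', hr', h⟩ := hdist
    (fun t => {s : P | (∃ b, s ∈ meets (F t b)) ∨ ∀ s' ≤ s, ¬ s' ≤ r})
    (by
      rintro t s (⟨b, hs⟩ | hs) s' hs'
      · exact Or.inl ⟨b, down_meets _ s hs s' hs'⟩
      · exact Or.inr fun s'' hs'' => hs s'' (hs''.trans hs'))
    (by
      intro t s
      by_cases h : ∃ s' ≤ s, s' ≤ r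
      · obtain ⟨s', hs', hsr⟩ := h
        obtain ⟨q', hq', b, hb⟩ := hr t s' hsr
        exact ⟨q', hq'.trans hs', Or.inl ⟨b, hb⟩⟩
      · push Not at h
        exact ⟨s, le_rfl, Or.inr h⟩) r
  have h' : ∀ t, ∃ b, r' ∈ meets (F t b) := by
    intro t
    rcases h t with h1 | h1
    · exact h1
    · exact absurd hr' (h1 r' le_rfl)
  choose f hf using h'
  exact ⟨r', hr', f, hf⟩

theorem not_image {T : Type v} {B : Type w}
    (hdist : ∀ D : T → Set P, (∀ t, ∀ s ∈ D t, ∀ s' ≤ s, s' ∈ D t) →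
      (∀ t, ∀ s, ∃ s' ≤ s, s' ∈ D t) → ∀ s, ∃ s' ≤ s, ∀ t, s' ∈ D t)
    (h : ∀ f : T → B, ¬ Function.Surjective f) (r : P) : r ∈ fnot (FImage P T B) := by
  intro q hq hqI
  obtain ⟨q', hq', F, hF, hO⟩ := mem_fex.1 hqI q le_rfl
  obtain ⟨r', hr', f, hf⟩ := decide_fun hdist F (r := q') (fun t q hq => by
    exact IsFun.total (down_IsFun _ _ hF _ hq) t)
  refine h f fun b => ?_
  obtain ⟨s, hs, t, hst⟩ := mem_fex.1 (hO b) r' hr'
  exact ⟨t, IsFun.unique (down_IsFun F _ hF s (hs.trans hr')) (down_meets _ _ (hf t) _ hs) hst⟩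

/-- power set bounds of the ground model are preserved -/
theorem small_pow {A : Type v} {B : Type w}
    (hdist : ∀ D : A → Set P, (∀ t, ∀ s ∈ D t, ∀ s' ≤ s, s' ∈ D t) →
      (∀ t, ∀ s, ∃ s' ≤ s, s' ∈ D t) → ∀ s, ∃ s' ≤ s, ∀ t, s' ∈ D t)
    (f : B → Set A) (hf : Function.Surjective f) (r : P) : r ∈ FPowLe P A B := by
  refine mem_fex_of_mem (fun b a => {_s | a ∈ f b}) (down_fall fun _ => down_fex _) ?_
  intro Nm
  refine mem_fex.2 fun q _ => ?_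
  obtain ⟨r', hr', G, h1, h2⟩ := decide_set hdist Nm q
  obtain ⟨b, hb⟩ := hf G
  refine ⟨r', hr', b, fun a => ⟨mem_fimp.2 fun t ht hta => ?_, mem_fimp.2 fun t ht hta => ?_⟩⟩
  · refine ⟨t, le_rfl, meets_of_mem ?_⟩
    show a ∈ f b
    rw [hb]
    by_contra hcon
    exact h2 a hcon t ht hta
  · obtain ⟨_, _, _, hs, _⟩ := hta t le_rfl
    have hs' : a ∈ f b := hs
    rw [hb] at hs'
    exact ⟨t, le_rfl, down_meets _ _ (h1 a hs') _ ht⟩

end Pool.Agent.Helper539.LbGen
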