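import Mathlib
import Pool.Agent.Helper539.LbPT
import Pool.Agent.Helper539.LbGen
import Pool.Agent.Helper539.LadAnti

/-!
# Antichains deciding the ladders
-/

namespace Pool.Agent.Helper539.LbNex

open Cardinal Pool.Agent.Helper539.SPForcing Pool.Agent.Helper539.LadDefs
  Pool.Agent.Helper539.LadForced Pool.Agent.Helper539.LadAnti
open Pool.Agent.Helper539.LadIter hiding Req ReqAt Lg Legal
open Pool.Agent.Helper539.LbIter Pool.Agent.Helper539.LbBasic Pool.Agent.Helper539.LbPT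
  Pool.Agent.Helper539.LbGen

universe u

variable {X Θ K : Type u} [LinearOrder X] [WellFoundedLT X] [LinearOrder Θ] [WellFoundedLT Θ]
  {Λ : Type u} [HasLab X Λ] {k0 : K} {σ : K → Prop} {N : Θ → X → X → Set (Cond X Θ K)}

/-- Antichains of conditions deciding the ladder at `γ`, and a coordinate `j` of the iteration
which takes care of the corresponding name. -/
theorem names_exist {M : Type u} [Infinite Λ] [Nonempty Θ] (hnm : ∀ x : X, ∃ y, x < y)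
    (hk0 : ¬ σ k0)
    (hdist : ∀ D : ℕ → Set (PT Λ k0 σ N), (∀ t, ∀ s ∈ D t, ∀ s' ≤ s, s' ∈ D t) →
      (∀ t, ∀ s, ∃ s' ≤ s, s' ∈ D t) → ∀ s, ∃ s' ≤ s, ∀ t, s' ∈ D t)
    (hbook : ∀ V : Set Θ, #V ≤ #M →
      ∀ Nm : X → X → Set (Cond X Θ K), (∀ γ x, ∀ b ∈ Nm γ x, WF Λ k0 b ∧ b.supp ⊆ V) →
        ∀ j0 : Θ, ∃ j, j0 ≤ j ∧ N j = Nm)
    (hcc : ∀ Z : X → Set (Cond X Θ K), (∀ a, ∀ z ∈ Z a, Legal Λ k0 σ N z) →
      (∀ a, ∀ z ∈ Z a, ∀ z' ∈ Z a, (∃ u, Legal Λ k0 σ N u ∧ u ≤ z ∧ u ≤ z') → z = z') →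
      ∃ V : Set Θ, #V ≤ #M ∧ ∀ a, ∀ z ∈ Z a, z.supp ⊆ V)
    (hcf : ∀ V : Set Θ, #V ≤ #M → ∃ j0, ∀ j ∈ V, j < j0)
    {p0 : PT Λ k0 σ N} (L : X → ℕ → X → Set (PT Λ k0 σ N))
    (hL : p0 ∈ fall fun a : X => fimp (meets (SName a)) (FLadder a (L a))) :
    ∃ (j : Θ) (Z : X → Set (PT Λ k0 σ N)) (h : X → PT Λ k0 σ N → ℕ → X),
      (∀ γ, ∀ z ∈ Z γ, z ≤ p0 ∧ γ ≤ z.1.top ∧ z.1.supp ⊆ Set.Iio j) ∧
      (∀ γ, ∀ z ∈ Z γ, ∀ z' ∈ Z γ, (∃ u, u ≤ z ∧ u ≤ z') → z = z') ∧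
      (∀ γ, ∀ p ≤ p0, ∃ z ∈ Z γ, ∃ u, u ≤ p ∧ u ≤ z) ∧
      (∀ γ x, N j γ x = {b | ∃ z ∈ Z γ, x ∈ Set.range (h γ z) ∧ b = z.1}) ∧
      ∀ γ, ∀ z ∈ Z γ, σ (z.1.g γ) → CofOmega γ → ∀ n, z ∈ meets (L γ n (h γ z n)) := by
  classical
  -- the open dense sets
  set D : X → Set (PT Λ k0 σ N) := fun γ => {p | p ≤ p0 ∧ γ ≤ p.1.top ∧
    (σ (p.1.g γ) → CofOmega γ → ∃ f : ℕ → X, ∀ n, p ∈ meets (L γ n (f n)))} with hD
  have hdense : ∀ γ, ∀ p ≤ p0, ∃ p' ≤ p, p' ∈ D γ := by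
    intro γ p hp
    obtain ⟨j⟩ := ‹Nonempty Θ›
    obtain ⟨δ, hδ⟩ := hnm (max γ p.1.top)
    have hδ1 : γ < δ := lt_of_le_of_lt (le_max_left _ _) hδ
    have hδ2 : p.1.top < δ := lt_of_le_of_lt (le_max_right _ _) hδ
    obtain ⟨hl, hle⟩ := ext_spec p.2 j hδ2 hk0 hk0
    set p1 : PT Λ k0 σ N := ⟨LadIter.ext k0 p.1 j δ k0, hl⟩ with hp1
    have hp1p : p1 ≤ p := hle
    have htop : γ ≤ p1.1.top := hδ1.le
    by_cases hc : σ (p1.1.g γ) ∧ CofOmega γ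
    · have hmem : p1 ∈ meets (SName γ) := meets_of_mem ⟨htop, hc.1, hc.2⟩
      have hLγ := mem_fimp.1 (hL γ)
      obtain ⟨p', hp', f, hf⟩ := decide_fun hdist (fun n x => L γ n x) (r := p1)
        (by
          intro n q hq
          have hq0 : q ≤ p0 := hq.trans (hp1p.trans hp)
          obtain ⟨r, hr, hr'⟩ := hLγ q hq0 (down_meets _ _ hmem _ hq)
          obtain ⟨r', hr1, x, hx⟩ := IsFun.total hr'.1 n
          exact ⟨r', hr1.trans hr, x, hx⟩)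
      refine ⟨p', hp'.trans hp1p, (hp'.trans hp1p).trans hp, ?_, ?_⟩
      · exact htop.trans (show p1.1.top ≤ p'.1.top from (show p'.1 ≤ p1.1 from hp').1)
      · intro _ _
        exact ⟨f, hf⟩
    · exact ⟨p1, hp1p, hp1p.trans hp, htop, fun h1 h2 => absurd ⟨h1, h2⟩ hc⟩
  choose Z hZD hZa hZm using fun γ : X => exists_maximal_antichain (D γ)
  have hh : ∀ (γ : X) (z : PT Λ k0 σ N), ∃ f : ℕ → X, z ∈ D γ → σ (z.1.g γ) → CofOmega γ →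
      ∀ n, z ∈ meets (L γ n (f n)) := by
    intro γ z
    by_cases hc : z ∈ D γ ∧ σ (z.1.g γ) ∧ CofOmega γ
    · obtain ⟨hzD, h1, h2⟩ := hc
      obtain ⟨f, hf⟩ := hzD.2.2 h1 h2
      exact ⟨f, fun _ _ _ => hf⟩
    · exact ⟨fun _ => γ, fun h1 h2 h3 => absurd ⟨h1, h2, h3⟩ hc⟩
  choose h hW using hh
  obtain ⟨V, hVM, hVs⟩ := hcc (fun γ => Subtype.val '' Z γ)
    (by
      rintro a _ ⟨z, _, rfl⟩
      exact z.2)
    (by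
      rintro a _ ⟨z, hz, rfl⟩ _ ⟨z', hz', rfl⟩ ⟨u, hu, hu1, hu2⟩
      exact congrArg Subtype.val (hZa a z hz z' hz' ⟨⟨u, hu⟩, hu1, hu2⟩))
  obtain ⟨j0, hj0⟩ := hcf V hVM
  obtain ⟨j, hj, hNj⟩ := hbook V hVM
    (fun γ x => {b | ∃ z ∈ Z γ, x ∈ Set.range (h γ z) ∧ b = z.1})
    (by
      rintro γ x b ⟨z, hz, _, rfl⟩
      exact ⟨z.2.1, hVs γ _ ⟨z, hz, rfl⟩⟩) j0
  refine ⟨j, Z, h, ?_, hZa, ?_, ?_, ?_⟩
  · intro γ z hz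
    have hzD := hZD γ hz
    refine ⟨hzD.1, hzD.2.1, ?_⟩
    intro i hi
    exact lt_of_lt_of_le (hj0 i (hVs γ _ ⟨z, hz, rfl⟩ hi)) hj
  · intro γ p hp
    obtain ⟨p', hp', hp'D⟩ := hdense γ p hp
    obtain ⟨z, hz, u, hu1, hu2⟩ := hZm γ p' hp'D
    exact ⟨z, hz, u, hu1.trans hp', hu2⟩
  · intro γ x
    rw [hNj]
  · intro γ z hz h1 h2
    exact hW γ z (hZD γ hz) h1 h2

end Pool.Agent.Helper539.LbNex
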