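import Mathlib
import Pool.Agent.Helper539.LadOrd
import Pool.Agent.Helper539.LadOrd2

/-!
# Labels, embeddings and cardinal facts
-/

namespace Pool.Agent.Helper539.LbOrd

open Cardinal Order

universe u v

/-- a labelling in which every label occurs cofinally often -/
theorem exists_lab {X Λ : Type u} [LinearOrder X] [Infinite X] [Nonempty Λ] (hΛX : #Λ ≤ #X)
    (hle : ∀ x : X, Nonempty (Set.Iic x ↪ Λ)) (hno : IsEmpty (X ↪ Λ)) :
    ∃ lab : X → Λ, ∀ (x : X) (l : Λ), ∃ ν, x < ν ∧ lab ν = l := by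
  have h1 : #(X × Λ) ≤ #X := by
    rw [mk_prod, Cardinal.lift_id, Cardinal.lift_id]
    calc #X * #Λ ≤ #X * #X := mul_le_mul' le_rfl hΛX
      _ = #X := mul_eq_self (aleph0_le_mk X)
  obtain ⟨f⟩ := h1
  haveI : Nonempty (X × Λ) := inferInstance
  refine ⟨fun ν => (Function.invFun f ν).2, fun x l => ?_⟩
  by_contra hcon
  push Not at hcon
  have h2 : ∀ t : X, f (t, l) ≤ x := by
    intro t
    by_contra ht
    refine hcon (f (t, l)) (not_le.1 ht) ?_
    rw [Function.leftInverse_invFun f.injective (t, l)]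
  obtain ⟨e⟩ := hle x
  refine hno.false ⟨fun t => e ⟨f (t, l), h2 t⟩, fun t t' h => ?_⟩
  have h3 := congrArg Subtype.val (e.injective h)
  exact congrArg Prod.fst (f.injective h3)

/-- injections of the initial segments of `X` -/
theorem exists_inj {X Λ : Type u} [LinearOrder X] [Nonempty Λ]
    (hle : ∀ x : X, Nonempty (Set.Iic x ↪ Λ)) :
    ∃ e : X → X → Λ, ∀ ν x x', x < ν → x' < ν → e ν x = e ν x' → x = x' := by
  classical
  let φ : ∀ x : X, Set.Iic x ↪ Λ := fun x => (hle x).some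
  obtain ⟨l0⟩ := (inferInstance : Nonempty Λ)
  refine ⟨fun ν x => if h : x ≤ ν then φ ν ⟨x, h⟩ else l0, fun ν x x' h h' he => ?_⟩
  simp only [dif_pos h.le, dif_pos h'.le] at he
  exact congrArg Subtype.val ((φ ν).injective he)

/-- an injection of pairs -/
theorem exists_pair {Λ : Type u} [Infinite Λ] :
    ∃ π : Λ → Λ → Λ, ∀ a b a' b', π a b = π a' b' → a = a' ∧ b = b' := by
  have h : #(Λ × Λ) ≤ #Λ := by
    rw [mk_prod, Cardinal.lift_id, mul_eq_self (aleph0_le_mk Λ)]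
  obtain ⟨f⟩ := h
  exact ⟨fun a b => f (a, b), fun a b a' b' h => Prod.mk.inj (f.injective h)⟩

theorem bool_set {Λ : Type u} [Infinite Λ] : #(Bool × Set Λ) ≤ #(Set Λ) := by
  have hk : ℵ₀ ≤ #(Set Λ) := aleph0_le_mk _
  rw [mk_prod, Cardinal.lift_uzero]
  refine (mul_le_mul' ((lift_le_aleph0.2 mk_le_aleph0).trans hk) le_rfl).trans ?_
  rw [mul_eq_self hk]

theorem opt_emb {lam : Cardinal.{0}} (h0 : ℵ₀ < lam)
    (hs : ∀ ν < lam, (2 : Cardinal.{0}) ^ ν < lam) :
    Nonempty (ULift.{1} (Set ℕ) ↪ Set.Iio lam.ord) := by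
  rw [← Cardinal.le_def, LadOrd.mkI, mk_uLift, mk_set, mk_nat, lift_two_power, lift_aleph0,
    ← lift_aleph0.{1, 0}, ← lift_two_power, Cardinal.lift_le]
  exact (hs _ h0).le

/-- strong limits: the power set of a proper initial segment is the image of one -/
theorem strong {lam : Cardinal.{0}}
    (hs : ∀ ν < lam, (2 : Cardinal.{0}) ^ ν < lam) (a : Set.Iio lam.ord) :
    ∃ (b : Set.Iio lam.ord) (f : Set.Iio b → Set (Set.Iio a)), Function.Surjective f := by
  have h1 : (2 : Cardinal.{0}) ^ (a : Ordinal.{0}).card < lam := hs _ (LadOrd.cardlt a)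
  refine ⟨⟨((2 : Cardinal.{0}) ^ (a : Ordinal.{0}).card).ord, ord_lt_ord.2 h1⟩, ?_⟩
  have h2 : #(Set.Iio (⟨((2 : Cardinal.{0}) ^ (a : Ordinal.{0}).card).ord,
      ord_lt_ord.2 h1⟩ : Set.Iio lam.ord)) = #(Set (Set.Iio a)) := by
    rw [LadOrd.mkSub, mk_set, LadOrd.mkSub, ← lift_two_power, card_ord]
  obtain ⟨e⟩ := Cardinal.eq.1 h2
  exact ⟨e, e.surjective⟩

theorem no_surj {A B : Type u} {C : Type v} (h : IsEmpty (B ↪ A × C)) (c : C) (f : A → B) :
    ¬ Function.Surjective f := by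
  intro hf
  refine h.false ⟨fun b => (Function.surjInv hf b, c), fun b b' hb => ?_⟩
  exact Function.injective_surjInv hf (congrArg Prod.fst hb)

end Pool.Agent.Helper539.LbOrd
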