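import Mathlib
import Pool.Agent.Helper539.LbPT
import Pool.Agent.Helper539.LbGen

/-!
# The generic function enumerates the subsets of `Λ`
-/

namespace Pool.Agent.Helper539.LbPow

open Pool.Agent.Helper539.SPForcing Pool.Agent.Helper539.LadDefs Pool.Agent.Helper539.LadForced
open Pool.Agent.Helper539.LadIter hiding Req ReqAt Lg Legal
open Pool.Agent.Helper539.LbIter Pool.Agent.Helper539.LbBasic Pool.Agent.Helper539.LbPT
  Pool.Agent.Helper539.LbGen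

universe u

variable {X Θ : Type u} [LinearOrder X] [WellFoundedLT X] [LinearOrder Θ] [WellFoundedLT Θ]
  {Λ : Type u} [HasLab X Λ]

/-- `2 ^ λ ≤ λ⁺` in the extension -/
theorem pow [Infinite Λ] [Nonempty Θ] (hnm : ∀ x : X, ∃ y, x < y) (k0 : Bool × Set Λ)
    (hk0 : k0.1 = false) (N : Θ → X → X → Set (Cond X Θ (Bool × Set Λ)))
    (hdist : ∀ D : Λ → Set (PT Λ k0 (fun k => k.1 = true) N),
      (∀ t, ∀ s ∈ D t, ∀ s' ≤ s, s' ∈ D t) →
      (∀ t, ∀ s, ∃ s' ≤ s, s' ∈ D t) → ∀ s, ∃ s' ≤ s, ∀ t, s' ∈ D t)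
    (r : PT Λ k0 (fun k => k.1 = true) N) :
    r ∈ FPowLe (PT Λ k0 (fun k => k.1 = true) N) Λ X := by
  classical
  let Z : X → Λ → Set (PT Λ k0 (fun k => k.1 = true) N) :=
    fun x a => {s | x ≤ s.1.top ∧ a ∈ (s.1.g x).2}
  refine mem_fex_of_mem Z (down_fall fun _ => down_fex _) ?_
  intro Nm
  refine mem_fex.2 fun q _ => ?_
  obtain ⟨p', hp', G, h1, h2⟩ := decide_set hdist Nm q
  obtain ⟨x, hx⟩ := hnm p'.1.top
  obtain ⟨j⟩ := (inferInstance : Nonempty Θ)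
  let k : Bool × Set Λ := (false, G)
  have hspec := ext_spec p'.2 j hx (k := k) (by simp [k]) (by simp [hk0])
  let p2 : PT Λ k0 (fun k : Bool × Set Λ => k.1 = true) N :=
    ⟨LadIter.ext k0 p'.1 j x k, hspec.1⟩
  have hp2 : p2 ≤ p' := hspec.2
  have hp2top : p2.1.top = x := rfl
  have hp2g : p2.1.g x = k := by
    show (if x ≤ p'.1.top then p'.1.g x else if x = x then k else k0) = k
    rw [if_neg (not_le.mpr hx), if_pos rfl]
  have hgx : ∀ t : PT Λ k0 (fun k => k.1 = true) N, t ≤ p2 → x ≤ t.1.top ∧ t.1.g x = k := by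
    intro t ht
    have h1 : t.1 ≤ p2.1 := ht
    have h2 := le_def.1 h1
    refine ⟨by rw [← hp2top]; exact h2.1, ?_⟩
    rw [h2.2.1 x (by rw [hp2top]), hp2g]
  refine ⟨p2, hp2.trans hp', x, fun a => ⟨mem_fimp.2 fun t ht hta => ?_,
    mem_fimp.2 fun t ht hta => ?_⟩⟩
  · refine ⟨t, le_rfl, meets_of_mem ?_⟩
    obtain ⟨e1, e2⟩ := hgx t ht
    refine ⟨e1, ?_⟩
    rw [e2]
    show a ∈ G
    by_contra hcon
    exact h2 a hcon t (ht.trans hp2) hta
  · obtain ⟨r1, hr1, s, ⟨hs1, hs2⟩, hle⟩ := hta t le_rfl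
    obtain ⟨e1, e2⟩ := hgx r1 (hr1.trans ht)
    have e3 : s.1.g x = k := by
      rw [← e2]
      exact ((le_def.1 (show r1.1 ≤ s.1 from hle)).2.1 x hs1).symm
    rw [e3] at hs2
    have hs3 : a ∈ G := hs2
    exact ⟨t, le_rfl, down_meets _ _ (h1 a hs3) _ (ht.trans hp2)⟩

end Pool.Agent.Helper539.LbPow
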