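import Mathlib
import Pool.Agent.Helper539.LbPT

/-!
# The generic set is stationary
-/

namespace Pool.Agent.Helper539.LbStat

open Pool.Agent.Helper539.SPForcing Pool.Agent.Helper539.LadDefs Pool.Agent.Helper539.LadForced
open Pool.Agent.Helper539.LadIter hiding Req ReqAt Lg Legal
open Pool.Agent.Helper539.LbIter Pool.Agent.Helper539.LbBasic Pool.Agent.Helper539.LbPT

universe u

variable {X Θ K : Type u} [LinearOrder X] [WellFoundedLT X] [LinearOrder Θ] [WellFoundedLT Θ]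
  {Λ : Type u} [HasLab X Λ] {k0 : K} {σ : K → Prop} {N : Θ → X → X → Set (Cond X Θ K)}

theorem stat_step [Infinite Λ] [Nonempty Θ] (hnm : ∀ x : X, ∃ y, x < y) (hk0 : ¬ σ k0)
    (C : X → Set (PT Λ k0 σ N)) (p1 : PT Λ k0 σ N) (hU : p1 ∈ FUnbounded C) (p : Cond X Θ K) :
    ∃ e : Cond X Θ K, (Legal Λ k0 σ N p → Legal Λ k0 σ N e ∧ e ≤ p ∧ p.top < e.top) ∧
      ∀ _ : Legal Λ k0 σ N p, p ≤ p1.1 → ∃ (p' : PT Λ k0 σ N) (x : X), e ≤ p'.1 ∧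
        p.top < x ∧ x < e.top ∧ p' ∈ meets (C x) := by
  obtain ⟨j⟩ := (inferInstance : Nonempty Θ)
  by_cases hp : Legal Λ k0 σ N p ∧ p ≤ p1.1
  · obtain ⟨hp, hpp⟩ := hp
    obtain ⟨p', hp', x, hx1, hx2⟩ := mem_fex.1 (hU p.top) (⟨p, hp⟩ : PT Λ k0 σ N) hpp
    have hx1 : p.top < x := hx1
    obtain ⟨g, hg⟩ := hnm (max x p'.1.top)
    have hg1 : x < g := lt_of_le_of_lt (le_max_left _ _) hg
    have hg2 : p'.1.top < g := lt_of_le_of_lt (le_max_right _ _) hg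
    have hext := ext_spec (N := N) p'.2 j hg2 hk0 hk0
    have hpp' : p'.1 ≤ p := hp'
    refine ⟨LadIter.ext k0 p'.1 j g k0, fun _ => ⟨hext.1, hext.2.trans hpp', ?_⟩, fun _ _ =>
      ⟨p', x, hext.2, hx1, hg1, hx2⟩⟩
    exact lt_of_le_of_lt hpp'.1 hg2
  · obtain ⟨g, hg⟩ := hnm p.top
    refine ⟨LadIter.ext k0 p j g k0, fun hl => ?_, fun hl hle => absurd ⟨hl, hle⟩ hp⟩
    have hext := ext_spec (N := N) hl j hg hk0 hk0
    exact ⟨hext.1, hext.2, hg⟩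

/-- the generic set `S` is stationary in the extension -/
theorem stat [Infinite Λ] [Nonempty Θ] (hnm : ∀ x : X, ∃ y, x < y) (hk0 : ¬ σ k0)
    (hchain : ∀ E : Cond X Θ K → Cond X Θ K,
      (∀ p, Legal Λ k0 σ N p → Legal Λ k0 σ N (E p) ∧ E p ≤ p ∧ p.top < (E p).top) →
      ∀ p0, Legal Λ k0 σ N p0 → ∃ (r : ℕ → Cond X Θ K) (q : Cond X Θ K),
        (∀ n, Legal Λ k0 σ N (r n)) ∧ r 0 ≤ p0 ∧ (∀ n, r (n + 1) ≤ E (r n)) ∧
        Legal Λ k0 σ N q ∧ (∀ n, q ≤ r n) ∧ ∃ δ, IsLUB (Set.range fun n => (r n).top) δ ∧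
          δ ≤ q.top ∧ σ (q.g δ) ∧ CofOmega δ)
    (ρ : PT Λ k0 σ N) :
    ρ ∈ FStationaryName (SName (Λ := Λ) (k0 := k0) (σ := σ) (N := N)) := by
  intro C
  rw [mem_fimp]
  intro q0 _ hq0
  refine ⟨q0, le_rfl, ?_⟩
  rw [mem_fex]
  intro p1 hq1
  have hdown : Down (FClub C) := down_fand (down_fall fun _ => down_fex _)
    (down_fall fun _ => down_fimp _ _)
  have hclub := hdown _ hq0 _ hq1
  choose E hE1 hE2 using stat_step hnm hk0 C p1 hclub.1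
  obtain ⟨r, q, hrl, hr0, hrs, hql, hqr, δ, hlub, hδq, hδσ, hδc⟩ := hchain E hE1 p1.1 p1.2
  have hrp : ∀ n, r n ≤ p1.1 := by
    intro n
    induction n with
    | zero => exact hr0
    | succ n ih => exact (hrs n).trans ((hE1 (r n) (hrl n)).2.1.trans ih)
  have htop : ∀ n, (r n).top ≤ δ := fun n => hlub.1 ⟨n, rfl⟩
  have hEt : ∀ n, (E (r n)).top ≤ δ := fun n => (hrs n).1.trans (htop (n + 1))
  have hqp : (⟨q, hql⟩ : PT Λ k0 σ N) ≤ p1 := (hqr 0).trans hr0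
  refine ⟨⟨q, hql⟩, hqp, δ, ?_, ?_⟩
  · exact meets_of_mem ⟨hδq, hδσ, hδc⟩
  · apply meets_of_dense
    intro s hs
    have hs1 : s ≤ p1 := hs.trans hqp
    refine mem_fimp.1 (hclub.2 δ) s hs1 ⟨?_, ?_⟩
    · exact ⟨(r 0).top, lt_of_lt_of_le (hE1 (r 0) (hrl 0)).2.2 (hEt 0)⟩
    · intro b
      rw [mem_fimp]
      intro s' hs' hb
      refine ⟨s', le_rfl, ?_⟩
      rw [mem_fex]
      intro s'' hs''
      have hb' : b < δ := hb
      obtain ⟨_, ⟨n, rfl⟩, hn⟩ := (lt_isLUB_iff hlub).1 hb'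
      obtain ⟨p', x, hep, hx1, hx2, hx3⟩ := hE2 (r n) (hrl n) (hrp n)
      have hle : s'' ≤ (⟨q, hql⟩ : PT Λ k0 σ N) := hs''.trans (hs'.trans hs)
      refine ⟨s'', le_rfl, x, ⟨lt_trans hn hx1, lt_of_lt_of_le hx2 (hEt n)⟩, ?_⟩
      refine down_meets _ _ hx3 _ ?_
      have h1 : s''.1 ≤ q := hle
      exact h1.trans ((hqr (n + 1)).trans ((hrs n).trans hep))

end Pool.Agent.Helper539.LbStat
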