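import Mathlib
import Pool.Agent.Helper539.LbLevel
import Pool.Agent.Helper539.LadSeq

/-!
# The sequence of levels
-/

namespace Pool.Agent.Helper539.LbStatP

open Pool.Agent.Helper539.LadIter hiding Req ReqAt Lg Legal
open Pool.Agent.Helper539.LadBasic hiding Req.mono lg_eq mem_lg legal_restr
open Pool.Agent.Helper539.LadAm hiding legal_am
open Pool.Agent.Helper539.LadUn hiding reqAt_of union_spec ext_spec pad_spec
open Pool.Agent.Helper539.LadLim hiding legal_lim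
open Pool.Agent.Helper539.LbIter Pool.Agent.Helper539.LbBasic Pool.Agent.Helper539.LadSys
  Pool.Agent.Helper539.LbCtl Pool.Agent.Helper539.LadDist Pool.Agent.Helper539.LadSeq
  Pool.Agent.Helper539.LbLevel

universe u

variable {X Θ K Ω : Type u} [LinearOrder X] [LinearOrder Θ] [WellFoundedLT Θ]
  [WellFoundedLT X] {Λ : Type u} [HasLab X Λ] {k0 : K} {σ : K → Prop}
  {N : Θ → X → X → Set (Cond X Θ K)}


/-- auxiliary for `levels`: the active coordinates -/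
def lvB (enc : Set Θ → Θ → Λ) (Λn : ℕ → Set Λ) (τ0 : ℕ → Θ → Ω)
    (q : ℕ → (ℕ → Θ → Ω) → Cond X Θ K) (m : ℕ) : Set Θ :=
  {j | ∃ k ≤ m, j ∈ (q k τ0).supp ∧ enc (q k τ0).supp j ∈ Λn m}

omit [LinearOrder X] [LinearOrder Θ] [WellFoundedLT Θ] [WellFoundedLT X] in
theorem lvB_congr (enc : Set Θ → Θ → Λ) (Λn : ℕ → Set Λ) (τ0 : ℕ → Θ → Ω)
    {q q' : ℕ → (ℕ → Θ → Ω) → Cond X Θ K} {m : ℕ} (h : ∀ k ≤ m, q k = q' k) :
    lvB enc Λn τ0 q m = lvB enc Λn τ0 q' m := by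
  ext j
  constructor
  · rintro ⟨k, hk, h1, h2⟩
    rw [h k hk] at h1 h2
    exact ⟨k, hk, h1, h2⟩
  · rintro ⟨k, hk, h1, h2⟩
    rw [← h k hk] at h1 h2
    exact ⟨k, hk, h1, h2⟩

omit [LinearOrder X] [LinearOrder Θ] [WellFoundedLT Θ] [WellFoundedLT X] in
theorem lv_agree_congr {B B' : ℕ → Set Θ} {n : ℕ} (h : ∀ m < n, B m = B' m) {U : Set Θ}
    {τ τ' : ℕ → Θ → Ω} (hA : Agree B n U τ τ') : Agree B' n U τ τ' :=
  fun m hm j hj hjU => hA m hm j (by rw [h m hm]; exact hj) hjU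

omit [LinearOrder X] [WellFoundedLT Θ] [WellFoundedLT X] in
theorem lv_coh_congr {B B' : ℕ → Set Θ} {n : ℕ} (h : ∀ m < n, B m = B' m)
    {Q : (ℕ → Θ → Ω) → Cond X Θ K} (hc : Coh B n Q) : Coh B' n Q :=
  fun U hU τ τ' hA => hc U hU τ τ' (lv_agree_congr (fun m hm => (h m hm).symm) hA)

omit [WellFoundedLT Θ] [WellFoundedLT X] in
theorem ctl_congr {B B' : ℕ → Set Θ} {n : ℕ} (h : ∀ m ≤ n, B m = B' m)
    {Q Q' : (ℕ → Θ → Ω) → Cond X Θ K} (hc : Ctl B n Q Q') : Ctl B' n Q Q' := by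
  obtain ⟨c, hc⟩ := hc
  refine ⟨c, fun j hj => ?_⟩
  rw [← h n le_rfl] at hj
  refine ⟨(hc j hj).1, fun τ τ' hA hne => (hc j hj).2 τ τ' ?_ hne⟩
  exact lv_agree_congr (fun m hm => (h m (Nat.lt_succ_iff.1 hm)).symm) hA

/-- auxiliary for `levels`: the invariant -/
def lvInv (Λ : Type u) [HasLab X Λ] (k0 : K) (σ : K → Prop) (N : Θ → X → X → Set (Cond X Θ K))
    (enc : Set Θ → Θ → Λ) (Λn : ℕ → Set Λ) (τ0 : ℕ → Θ → Ω)
    (E : Cond X Θ K → Cond X Θ K) (p0 : Cond X Θ K) (n : ℕ)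
    (q : ℕ → (ℕ → Θ → Ω) → Cond X Θ K) : Prop :=
  (q 0 = fun _ => p0) ∧
  (∀ m ≤ n, (∀ τ, Legal Λ k0 σ N (q m τ)) ∧ Coh (lvB enc Λn τ0 q) m (q m) ∧
    ∀ τ τ', (q m τ).supp = (q m τ').supp) ∧
  (∀ m < n, (∀ τ, q (m + 1) τ ≤ q m τ) ∧ (∀ τ, (q m τ).top < (q (m + 1) τ).top) ∧
    Ctl (lvB enc Λn τ0 q) m (q m) (q (m + 1)) ∧
    ∀ τ, ∃ r, Legal Λ k0 σ N r ∧ r ≤ q m τ ∧ q (m + 1) τ ≤ E r)

omit [WellFoundedLT X] in
theorem lvInv_congr (enc : Set Θ → Θ → Λ) (Λn : ℕ → Set Λ) (τ0 : ℕ → Θ → Ω)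
    (E : Cond X Θ K → Cond X Θ K) (p0 : Cond X Θ K) (n : ℕ)
    (q q' : ℕ → (ℕ → Θ → Ω) → Cond X Θ K) (h : ∀ m ≤ n, q m = q' m)
    (hI : lvInv Λ k0 σ N enc Λn τ0 E p0 n q) : lvInv Λ k0 σ N enc Λn τ0 E p0 n q' := by
  obtain ⟨h0, h1, h2⟩ := hI
  have hB : ∀ m ≤ n, lvB enc Λn τ0 q m = lvB enc Λn τ0 q' m := fun m hm =>
    lvB_congr enc Λn τ0 (fun k hk => h k (hk.trans hm))
  refine ⟨by rw [← h 0 (Nat.zero_le _)]; exact h0, ?_, ?_⟩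
  · intro m hm
    obtain ⟨a1, a2, a3⟩ := h1 m hm
    rw [← h m hm]
    exact ⟨a1, lv_coh_congr (fun i hi => hB i (by omega)) a2, a3⟩
  · intro m hm
    obtain ⟨a1, a2, a3, a4⟩ := h2 m hm
    rw [← h m hm.le, ← h (m + 1) hm]
    exact ⟨a1, a2, ctl_congr (fun i hi => hB i (by omega)) a3, a4⟩

omit [WellFoundedLT X] in
theorem lvInv_supp {enc : Set Θ → Θ → Λ} {Λn : ℕ → Set Λ} {τ0 : ℕ → Θ → Ω}
    {E : Cond X Θ K → Cond X Θ K} {p0 : Cond X Θ K} {n : ℕ}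
    {q : ℕ → (ℕ → Θ → Ω) → Cond X Θ K}
    (hI : lvInv Λ k0 σ N enc Λn τ0 E p0 n q) (τ : ℕ → Θ → Ω) {k m : ℕ} (hkm : k ≤ m)
    (hm : m ≤ n) : (q k τ).supp ⊆ (q m τ).supp := by
  obtain ⟨h0, h1, h2⟩ := hI
  induction m, hkm using Nat.le_induction with
  | base => exact subset_rfl
  | succ m hkm ih =>
    exact (ih (by omega)).trans ((h2 m (by omega)).1 τ).2.2.1

omit [WellFoundedLT X] in
theorem lvInv_small [Nonempty Ω] {enc : Set Θ → Θ → Λ}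
    (henc : ∀ V : Set Θ, Nonempty (V ↪ Λ) → Set.InjOn (enc V) V) {Λn : ℕ → Set Λ}
    (hΛm : Monotone Λn) (hΛ : ∀ n, Nonempty ((ℕ × ℕ × ↥(Λn n) → Ω) ↪ Λ)) {τ0 : ℕ → Θ → Ω}
    {E : Cond X Θ K → Cond X Θ K} {p0 : Cond X Θ K} {n : ℕ}
    {q : ℕ → (ℕ → Θ → Ω) → Cond X Θ K}
    (hI : lvInv Λ k0 σ N enc Λn τ0 E p0 n q) :
    Nonempty (({a : ℕ × Θ // a.1 ≤ n ∧ a.2 ∈ lvB enc Λn τ0 q a.1} → Ω) ↪ Λ) := by
  classical
  obtain ⟨h0, h1, h2⟩ := hI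
  have hch : ∀ a : {a : ℕ × Θ // a.1 ≤ n ∧ a.2 ∈ lvB enc Λn τ0 q a.1},
      ∃ k, k ≤ a.1.1 ∧ a.1.2 ∈ (q k τ0).supp ∧ enc (q k τ0).supp a.1.2 ∈ Λn n := by
    rintro ⟨⟨m, j⟩, hm, k, hk, hj, he⟩
    exact ⟨k, hk, hj, hΛm hm he⟩
  choose kk hk1 hk2 hk3 using hch
  set e : {a : ℕ × Θ // a.1 ≤ n ∧ a.2 ∈ lvB enc Λn τ0 q a.1} → ℕ × ℕ × ↥(Λn n) :=
    fun a => (a.1.1, kk a, ⟨enc (q (kk a) τ0).supp a.1.2, hk3 a⟩) with he
  have hinj : Function.Injective e := by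
    intro a b hab
    have e1 : a.1.1 = b.1.1 := congrArg (fun p : ℕ × ℕ × ↥(Λn n) => p.1) hab
    have e2 : kk a = kk b := congrArg (fun p : ℕ × ℕ × ↥(Λn n) => p.2.1) hab
    have e3 : enc (q (kk a) τ0).supp a.1.2 = enc (q (kk b) τ0).supp b.1.2 :=
      congrArg (fun p : ℕ × ℕ × ↥(Λn n) => (p.2.2 : Λ)) hab
    rw [← e2] at e3
    have hkn : kk a ≤ n := (hk1 a).trans a.2.1
    have hne : Nonempty ((q (kk a) τ0).supp ↪ Λ) := ((h1 (kk a) hkn).1 τ0).1.1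
    have e4 : a.1.2 = b.1.2 := henc _ hne (hk2 a) (by rw [e2]; exact hk2 b) e3
    exact Subtype.ext (Prod.ext e1 e4)
  obtain ⟨φ⟩ := hΛ n
  obtain ⟨o⟩ := (inferInstance : Nonempty Ω)
  exact ⟨⟨fun f => φ (Function.extend e f (fun _ => o)), fun f g hfg =>
    Function.extend_injective hinj (fun _ => o) (φ.injective hfg)⟩⟩

theorem lvInv_step [Nonempty X] [Infinite Λ] [Nonempty Ω]
    (hbd : ∀ f : Λ → X, ∃ b, ∀ n, f n < b)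
    (hk0 : ¬ σ k0) (hlab : ∀ (x : X) (l : Λ), ∃ ν, x < ν ∧ HasLab.lab ν = l)
    (hΩ : Nonempty (Ω ↪ Λ)) {enc : Set Θ → Θ → Λ}
    (henc : ∀ V : Set Θ, Nonempty (V ↪ Λ) → Set.InjOn (enc V) V) {Λn : ℕ → Set Λ}
    (hΛm : Monotone Λn) (hΛ : ∀ n, Nonempty ((ℕ × ℕ × ↥(Λn n) → Ω) ↪ Λ)) {τ0 : ℕ → Θ → Ω}
    {E : Cond X Θ K → Cond X Θ K}
    (hE : ∀ p, Legal Λ k0 σ N p → Legal Λ k0 σ N (E p) ∧ E p ≤ p ∧ p.top < (E p).top)
    {p0 : Cond X Θ K} {n : ℕ}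
    {q : ℕ → (ℕ → Θ → Ω) → Cond X Θ K}
    (hI : lvInv Λ k0 σ N enc Λn τ0 E p0 n q) :
    ∃ z, lvInv Λ k0 σ N enc Λn τ0 E p0 (n + 1) (Function.update q (n + 1) z) := by
  have hsmall := lvInv_small henc hΛm hΛ hI
  obtain ⟨g1, g2, g3⟩ := hI.2.1 n le_rfl
  have hsup : ∀ τ, lvB enc Λn τ0 q n ⊆ (q n τ).supp := by
    rintro τ j ⟨k, hk, hj, -⟩
    rw [g3 τ τ0]
    exact lvInv_supp hI τ0 hk le_rfl hj
  obtain ⟨Q', c1, c2, c3, c4, c5⟩ := level hbd hk0 hlab hΩ (lvB enc Λn τ0 q) n (q n) g1 g2 hsup hsmall E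
    (fun p hp => ⟨(hE p hp).1, (hE p hp).2.1⟩)
  obtain ⟨V, d1, d2⟩ := pad_system (lvB enc Λn τ0 q) n Q' c1 c2 hsmall
  refine ⟨fun τ => pad (Q' τ) V, ?_⟩
  set q' := Function.update q (n + 1) (fun τ => pad (Q' τ) V) with hq'
  have hqm : ∀ m ≤ n, q m = q' m := by
    intro m hm
    rw [hq', Function.update_of_ne (by omega)]
  have hqn : q' (n + 1) = fun τ => pad (Q' τ) V := by
    rw [hq', Function.update_self]
  have hI' := lvInv_congr enc Λn τ0 E p0 n q q' hqm hI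
  have hB : ∀ m ≤ n, lvB enc Λn τ0 q m = lvB enc Λn τ0 q' m := fun m hm =>
    lvB_congr enc Λn τ0 (fun k hk => hqm k (hk.trans hm))
  refine ⟨hI'.1, ?_, ?_⟩
  · intro m hm
    rcases Nat.lt_or_ge n m with h | h
    · have hm' : m = n + 1 := by omega
      subst hm'
      rw [hqn]
      refine ⟨fun τ => (d1 τ).1, lv_coh_congr (fun i hi => hB i (by omega)) d2, ?_⟩
      intro τ τ'
      show (pad (Q' τ) V).supp = (pad (Q' τ') V).supp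
      rw [(d1 τ).2.2, (d1 τ').2.2]
    · exact hI'.2.1 m h
  · intro m hm
    rcases Nat.lt_or_ge m n with h | h
    · exact hI'.2.2 m h
    · have hm' : m = n := by omega
      subst hm'
      rw [hqn, ← hqm m le_rfl]
      have hle : ∀ τ, pad (Q' τ) V ≤ Q' τ := fun τ => (d1 τ).2.1
      refine ⟨fun τ => (hle τ).trans (c3 τ), fun τ => ?_, ?_, fun τ => ?_⟩
      · obtain ⟨r, r1, r2, r3⟩ := c4 τ
        have t1 : (q m τ).top ≤ r.top := r2.1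
        have t2 : r.top < (E r).top := (hE r r1).2.2
        have t3 : (E r).top ≤ (Q' τ).top := r3.1
        exact lt_of_le_of_lt t1 (lt_of_lt_of_le t2 t3)
      · exact ctl_congr (fun i hi => hB i (by omega)) c5
      · obtain ⟨r, r1, r2, r3⟩ := c4 τ
        exact ⟨r, r1, r2, (hle τ).trans r3⟩

/-- TARGET: a sequence of levels -/
theorem levels [Nonempty X] [Infinite Λ] [Nonempty Ω] (hbd : ∀ f : Λ → X, ∃ b, ∀ n, f n < b)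
    (hk0 : ¬ σ k0) (hlab : ∀ (x : X) (l : Λ), ∃ ν, x < ν ∧ HasLab.lab ν = l)
    (hΩ : Nonempty (Ω ↪ Λ)) (Λn : ℕ → Set Λ) (hΛm : Monotone Λn) (hΛc : ∀ l, ∃ n, l ∈ Λn n)
    (hΛ : ∀ n, Nonempty ((ℕ × ℕ × ↥(Λn n) → Ω) ↪ Λ))
    (E : Cond X Θ K → Cond X Θ K)
    (hE : ∀ p, Legal Λ k0 σ N p → Legal Λ k0 σ N (E p) ∧ E p ≤ p ∧ p.top < (E p).top)
    {p0 : Cond X Θ K} (hp0 : Legal Λ k0 σ N p0) :
    ∃ (B : ℕ → Set Θ) (Q : ℕ → (ℕ → Θ → Ω) → Cond X Θ K), Monotone B ∧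
      (∀ n τ, Legal Λ k0 σ N (Q n τ)) ∧ (∀ n, Coh B n (Q n)) ∧ (∀ τ, Q 0 τ ≤ p0) ∧
      (∀ n τ, Q (n + 1) τ ≤ Q n τ) ∧ (∀ n τ τ', (Q n τ).supp = (Q n τ').supp) ∧
      (∀ n τ, B n ⊆ (Q n τ).supp) ∧ (∀ n τ, ∀ j ∈ (Q n τ).supp, ∃ m, j ∈ B m) ∧
      (∀ n τ, (Q n τ).top < (Q (n + 1) τ).top) ∧
      (∀ n, Ctl B n (Q n) (Q (n + 1))) ∧
      ∀ n τ, ∃ r, Legal Λ k0 σ N r ∧ r ≤ Q n τ ∧ Q (n + 1) τ ≤ E r := by
  classical
  obtain ⟨o⟩ := (inferInstance : Nonempty Ω)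
  obtain ⟨l0⟩ := (inferInstance : Nonempty Λ)
  have henc : ∃ enc : Set Θ → Θ → Λ, ∀ V : Set Θ, Nonempty (V ↪ Λ) → Set.InjOn (enc V) V := by
    have h : ∀ V : Set Θ, ∃ e : Θ → Λ, Nonempty (V ↪ Λ) → Set.InjOn e V := by
      intro V
      by_cases hV : Nonempty (V ↪ Λ)
      · obtain ⟨φ⟩ := hV
        refine ⟨fun j => if h : j ∈ V then φ ⟨j, h⟩ else l0, fun _ => ?_⟩
        intro a ha b hb hab
        simp only [dif_pos ha, dif_pos hb] at hab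
        exact congrArg Subtype.val (φ.injective hab)
      · exact ⟨fun _ => l0, fun h => absurd h hV⟩
    choose enc henc using h
    exact ⟨enc, henc⟩
  obtain ⟨enc, henc⟩ := henc
  obtain ⟨q, hq⟩ := seq_rec (Z := (ℕ → Θ → Ω) → Cond X Θ K)
    (lvInv Λ k0 σ N enc Λn (fun _ _ => o) E p0)
    (fun n f f' h hI => lvInv_congr enc Λn (fun _ _ => o) E p0 n f f' h hI)
    ⟨fun _ _ => p0, rfl, fun m hm => ⟨fun _ => hp0, fun U _ τ τ' _ => rfl, fun _ _ => rfl⟩,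
      fun m hm => absurd hm (Nat.not_lt_zero m)⟩
    (fun n f hI => lvInv_step hbd hk0 hlab hΩ henc hΛm hΛ hE hI)
  refine ⟨lvB enc Λn (fun _ _ => o) q, q, ?_, fun n => ((hq n).2.1 n le_rfl).1,
    fun n => ((hq n).2.1 n le_rfl).2.1, ?_, fun n => ((hq (n + 1)).2.2 n (Nat.lt_succ_self n)).1,
    fun n => ((hq n).2.1 n le_rfl).2.2, ?_, ?_,
    fun n => ((hq (n + 1)).2.2 n (Nat.lt_succ_self n)).2.1,
    fun n => ((hq (n + 1)).2.2 n (Nat.lt_succ_self n)).2.2.1,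
    fun n => ((hq (n + 1)).2.2 n (Nat.lt_succ_self n)).2.2.2⟩
  · rintro m m' hmm j ⟨k, hk, h1, h2⟩
    exact ⟨k, hk.trans hmm, h1, hΛm hmm h2⟩
  · intro τ
    rw [(hq 0).1]
  · rintro n τ j ⟨k, hk, hj, -⟩
    rw [((hq n).2.1 n le_rfl).2.2 τ (fun _ _ => o)]
    exact lvInv_supp (hq n) (fun _ _ => o) hk le_rfl hj
  · intro n τ j hj
    rw [((hq n).2.1 n le_rfl).2.2 τ (fun _ _ => o)] at hj
    obtain ⟨m, hm⟩ := hΛc (enc (q n (fun _ _ => o)).supp j)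
    exact ⟨max m n, n, le_max_right _ _, hj, hΛm (le_max_left _ _) hm⟩


end Pool.Agent.Helper539.LbStatP
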