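import Mathlib
import Pool.Agent.Helper539.LbAll

/-!
# The final assembly
-/

namespace Pool.Agent.Helper539.LbFinal

open Cardinal Order Pool.Agent.Helper539.SPForcing Pool.Agent.Helper539.LadDefs
  Pool.Agent.Helper539.LadForced Pool.Agent.Helper539.LbForced
open Pool.Agent.Helper539.LadIter hiding Req ReqAt Lg Legal
open Pool.Agent.Helper539.LbIter Pool.Agent.Helper539.LbBasic Pool.Agent.Helper539.LbPT
  Pool.Agent.Helper539.LbAll

universe u

/-- no ladder system on the generic set guesses equal pairs for `λ` colours -/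
theorem noPairGuessing {X Θ K M' : Type u} [LinearOrder X] [WellFoundedLT X] [LinearOrder Θ]
    [WellFoundedLT Θ] {Λ : Type u} [HasLab X Λ] {k0 : K} {σ : K → Prop}
    {N : Θ → X → X → Set (Cond X Θ K)}
    [Nonempty X] [Infinite Λ] [Nonempty Θ] (hbd : ∀ f : Λ → X, ∃ b, ∀ n, f n < b)
    (hnm : ∀ x : X, ∃ y, x < y) (hk0 : ¬ σ k0) (hle : ∀ x : X, Nonempty (Set.Iic x ↪ Λ))
    (hM : #M' ^ #Λ = #M') (hM2 : 2 ≤ #M') (hX : #X ≤ #M') (hK : #K ≤ #M')
    (hbook : ∀ V : Set Θ, #V ≤ #M' →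
      ∀ Nm : X → X → Set (Cond X Θ K), (∀ γ x, ∀ b ∈ Nm γ x, WF Λ k0 b ∧ b.supp ⊆ V) →
        ∀ j0 : Θ, ∃ j, j0 ≤ j ∧ N j = Nm)
    (hcf : ∀ V : Set Θ, #V ≤ #M' → ∃ j0, ∀ j ∈ V, j < j0) (r : PT Λ k0 σ N) :
    r ∈ NoPairGuessingName (SName (Λ := Λ) (k0 := k0) (σ := σ) (N := N)) ℕ
      (fun i => 2 * i) (fun i => 2 * i + 1) Λ := by
  classical
  intro L
  refine mem_fimp.2 fun q hq hL => ⟨q, le_rfl, ?_⟩
  have hnat : ∃ f : ℕ → Λ, Function.Injective f :=
    ⟨Infinite.natEmbedding Λ, (Infinite.natEmbedding Λ).injective⟩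
  obtain ⟨j, Z, h, h2, h3, h4, h5, h6⟩ := LbNex.names_exist (M := M') hnm hk0
    (small_dist hbd hk0 hnat) hbook
    (fun Z hZ hanti => LbCC.antichains_small (M := M') (A' := X) hle hM hM2 hX hK hX Z hZ hanti)
    hcf (p0 := q) L hL
  obtain ⟨π, hπ⟩ := LbOrd.exists_pair (Λ := Λ)
  obtain ⟨e, he⟩ := LbOrd.exists_inj (X := X) (Λ := Λ) hle
  refine mem_fex_of_mem (fName (Λ := Λ) (k0 := k0) (σ := σ) (N := N) j π e)
    (down_fand (down_IsFun _) (down_fex _)) ⟨LbFName.isFun_fName hnm hk0 j π e q, ?_⟩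
  refine mem_fex_of_mem (CName (Λ := Λ) (k0 := k0) (σ := σ) (N := N) j)
    (down_fand (down_fand (down_fall fun _ => down_fex _) (down_fall fun _ => down_fimp _ _))
      (down_fall fun _ => down_fimp _ _))
    ⟨LbFName.club_CName hnm hk0 (nat_closed hbd hk0) j q, fun a => ?_⟩
  exact LbKey.key (ev := fun i => 2 * i) (od := fun i => 2 * i + 1) (fun i => by
    show 2 * i < 2 * i + 1
    omega) (fun i => ⟨i, by
    show i ≤ 2 * i
    omega⟩) π hπ e he L hL j Z h h2 h3 h4 h5 h6 a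

theorem main {lam : Cardinal.{0}} (h0 : ℵ₀ < lam) (hcof : lam.ord.cof = ℵ₀)
    (hs : ∀ ν < lam, (2 : Cardinal.{0}) ^ ν < lam) :
    ∃ (P : Type 1) (_ : Preorder P), Nonempty P ∧
      ∀ p : P, p ∈ LambdaGuessingFails P (Set.Iio lam.ord) (Set.Iio (succ lam).ord) := by
  classical
  let X : Type 1 := Set.Iio (succ lam).ord
  let Λ : Type 1 := Set.Iio lam.ord
  let K : Type 1 := Bool × Set Λ
  let M' : Type 1 := Set Λ
  let Θ : Type 1 := LadOrd2.TH lam
  have iΛ : Infinite Λ := LadOrd.infinite_Iio h0.le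
  have iX : Infinite X := LadOrd.infinite_Iio (h0.le.trans (le_succ lam))
  have hbd : ∀ f : Λ → X, ∃ b, ∀ n, f n < b :=
    LadClub.bounded_of_succ LadOrd.le_succ' (LadOrd.not_emb lam)
  have hnm : ∀ x : X, ∃ y, x < y := fun x => LadOrd.exists_gt (h0.le.trans (le_succ lam)) x
  have hle : ∀ x : X, Nonempty (Set.Iic x ↪ Λ) := LadOrd2.iic_emb h0.le
  have hΛX : #Λ ≤ #X := by
    rw [LadOrd.mkI, LadOrd.mkI, Cardinal.lift_le]
    exact le_succ lam
  obtain ⟨lab, hlab⟩ := LbOrd.exists_lab (X := X) (Λ := Λ) hΛX hle (LadOrd.not_emb lam)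
  letI iL : HasLab X Λ := ⟨lab⟩
  let σ : K → Prop := fun k => k.1 = true
  let k0 : K := (false, ∅)
  have hk0 : ¬ σ k0 := by simp [σ, k0]
  have hk1 : σ ((true, ∅) : K) := rfl
  obtain ⟨N, hN⟩ := LadBook.bookkeeping (X := X) (Θ := Θ) (K := K) (M := M') (Λ := Λ) k0 hle
    LadOrd2.pow_set LadOrd2.two_le_set (LadOrd2.succ_le_set h0.le) LbOrd.bool_set
    LadOrd2.card_TH LadOrd2.iio_TH
  have iΘ : Nonempty Θ := LadOrd2.nonempty_TH
  have iX' : Nonempty X := inferInstance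
  obtain ⟨Λn, hΛm, hΛc, hΛ⟩ := LadOrd2.exhaust h0 hcof hs
  have iΩ : Uncountable (ULift.{1} (Set ℕ)) := LadOrd2.uncountable_opt
  have hΩ : Nonempty (ULift.{1} (Set ℕ) ↪ Λ) := LbOrd.opt_emb h0 hs
  obtain ⟨x0⟩ := iX'
  have hne : Nonempty (PT Λ k0 σ N) :=
    ⟨⟨⟨x0, fun _ => k0, ∅, fun _ => ∅⟩, ⟨⟨⟨fun x => x.2.elim, fun x => x.2.elim⟩⟩,
      fun j hj => hj.elim, fun _ _ => rfl, fun _ _ => rfl⟩, fun j hj => hj.elim⟩⟩
  refine ⟨PT Λ k0 σ N, inferInstance, hne, fun p => ?_⟩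
  have hΛX : ∀ p : PT Λ k0 σ N, p ∈ fnot (FImage _ Λ X) := fun p =>
    LbGen.not_image (small_dist hbd hk0 ⟨id, Function.injective_id⟩)
      (fun f => LbOrd.no_surj (LadOrd.succ_not_image h0.le) 0 f) p
  refine ⟨fun a => LbGen.not_image (small_dist hbd hk0 ⟨Subtype.val, Subtype.val_injective⟩)
    (fun f => LbOrd.no_surj (LadOrd.card_not_image h0 a) 0 f) p, ?_, ?_, fun a => ?_,
    LadGround.succ_of hle hΛX p, ?_, ?_⟩
  · -- an infinite proper initial segment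
    obtain ⟨f, hf, hf'⟩ := LadOrd2.cofinal_seq h0 hcof
    by_contra hcon
    have hfin : ∀ a : Λ, (Set.Iio a).Finite := fun a => by
      by_contra h
      exact hcon ⟨a, Set.infinite_coe_iff.2 h⟩
    have hcov : (Set.univ : Set Λ) = ⋃ n, Set.Iio (f n) := by
      ext x
      simp only [Set.mem_univ, Set.mem_iUnion, true_iff]
      exact hf' x
    have hc : (Set.univ : Set Λ).Countable := by
      rw [hcov]
      exact Set.countable_iUnion fun n => (hfin _).countable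
    have : Countable Λ := Set.countable_univ_iff.1 hc
    obtain ⟨g, hg⟩ := exists_injective_nat Λ
    exact (LadOrd2.not_nat_image h0).elim ⟨fun x => (g x, 0), fun x y h =>
      hg (congrArg Prod.fst h)⟩
  · exact LadOrd2.cofinal_seq h0 hcof
  · -- strong limit
    obtain ⟨b, f, hf⟩ := LbOrd.strong hs a
    exact mem_fex_of_mem b (down_fex _) (LbGen.small_pow
      (small_dist hbd hk0 ⟨Subtype.val, Subtype.val_injective⟩) f hf p)
  · exact LbPow.pow hnm k0 rfl N (small_dist hbd hk0 ⟨id, Function.injective_id⟩) p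
  · refine mem_fex_of_mem (SName (Λ := Λ) (k0 := k0) (σ := σ) (N := N))
      (down_fand (down_fall fun _ => down_fimp _ _) (down_fand (down_fall fun _ => down_fimp _ _)
        (down_fall fun _ => down_fimp _ _))) ⟨fun a => ?_, ?_, ?_⟩
    · refine mem_fimp.2 fun q _ hq => ?_
      obtain ⟨r, hr, s, hs', _⟩ := hq q le_rfl
      exact ⟨q, le_rfl, hs'.2.2⟩
    · exact LbStat.stat hnm hk0 (fun E hE p0 hp0 =>
        chain_exists (Ω := ULift.{1} (Set ℕ)) hbd hk0 hk1 hlab hΩ Λn hΛm hΛc hΛ E hE p0 hp0) p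
    · exact noPairGuessing (M' := M') hbd hnm hk0 hle LadOrd2.pow_set LadOrd2.two_le_set
        (LadOrd2.succ_le_set h0.le) LbOrd.bool_set hN (LadOrd2.cof_TH h0.le) p

end Pool.Agent.Helper539.LbFinal
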