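import Pool.Agent.Helper539.Basic
import Pool.Agent.Helper539.Random
import Pool.Agent.Helper539.Embed

namespace Pool.Agent.Helper539

open Finset

/-- adjacency in the host graph. -/
def hostAdj {H q N k : ℕ} (c : (Fin q × Fin N) → (Fin H ⊕ (Fin q × Fin N)) → Fin k) (κ : Fin k) :
    (Fin H ⊕ (Fin q × Fin N)) → (Fin H ⊕ (Fin q × Fin N)) → Prop
  | Sum.inl a, Sum.inl b => a ≠ b
  | Sum.inl a, Sum.inr w => c w (Sum.inl a) = κ
  | Sum.inr w, Sum.inl a => c w (Sum.inl a) = κ
  | Sum.inr w, Sum.inr w' => (w.1 < w'.1 ∧ c w' (Sum.inr w) = κ) ∨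
      (w'.1 < w.1 ∧ c w (Sum.inr w') = κ)

/-- the host graph: a complete graph on `H` vertices, `q` independent classes of `N` vertices,
and between them the edges of colour `κ`. -/
def host {H q N k : ℕ} (c : (Fin q × Fin N) → (Fin H ⊕ (Fin q × Fin N)) → Fin k) (κ : Fin k) :
    SimpleGraph (Fin H ⊕ (Fin q × Fin N)) where
  Adj := hostAdj c κ
  symm := ⟨by
    rintro (a | w) (b | w') h
    · exact Ne.symm h
    · exact h
    · exact h
    · exact Or.symm h⟩
  loopless := ⟨by
    rintro (a | w) h
    · exact h rfl
    · rcases h with h | h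
      · exact lt_irrefl _ h.1
      · exact lt_irrefl _ h.1⟩

theorem host_edge_card_le {H q N k : ℕ} (c : (Fin q × Fin N) → (Fin H ⊕ (Fin q × Fin N)) → Fin k)
    (κ : Fin k) :
    (host c κ).edgeSet.ncard ≤ H * H +
      (univ.filter (fun p : (Fin q × Fin N) × (Fin H ⊕ (Fin q × Fin N)) => c p.1 p.2 = κ)).card := by
  classical
  let P1 : Finset (Sym2 (Fin H ⊕ (Fin q × Fin N))) :=
    (univ : Finset (Fin H × Fin H)).image (fun p => s(Sum.inl p.1, Sum.inl p.2))
  let P2 : Finset (Sym2 (Fin H ⊕ (Fin q × Fin N))) :=
    (univ.filter (fun p : (Fin q × Fin N) × (Fin H ⊕ (Fin q × Fin N)) => c p.1 p.2 = κ)).image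
      (fun p => s(p.2, Sum.inr p.1))
  have hsub : (host c κ).edgeSet ⊆ ((P1 ∪ P2 : Finset _) : Set (Sym2 (Fin H ⊕ (Fin q × Fin N)))) := by
    intro e he
    induction e using Sym2.ind with
    | _ x y =>
      rw [SimpleGraph.mem_edgeSet] at he
      rw [mem_coe, mem_union]
      rcases x with a | w <;> rcases y with b | w'
      · left
        exact mem_image.2 ⟨(a, b), mem_univ _, rfl⟩
      · right
        exact mem_image.2 ⟨(w', Sum.inl a), by rw [mem_filter]; exact ⟨mem_univ _, he⟩, rfl⟩
      · right
        exact mem_image.2 ⟨(w, Sum.inl b), by rw [mem_filter]; exact ⟨mem_univ _, he⟩,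
          Sym2.eq_swap⟩
      · right
        rcases he with he | he
        · exact mem_image.2 ⟨(w', Sum.inr w), by rw [mem_filter]; exact ⟨mem_univ _, he.2⟩, rfl⟩
        · exact mem_image.2 ⟨(w, Sum.inr w'), by rw [mem_filter]; exact ⟨mem_univ _, he.2⟩,
            Sym2.eq_swap⟩
  calc (host c κ).edgeSet.ncard
      ≤ ((P1 ∪ P2 : Finset _) : Set (Sym2 (Fin H ⊕ (Fin q × Fin N)))).ncard :=
        Set.ncard_le_ncard hsub (Finset.finite_toSet _)
    _ = (P1 ∪ P2).card := Set.ncard_coe_finset _
    _ ≤ P1.card + P2.card := card_union_le _ _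
    _ ≤ _ := by
        refine Nat.add_le_add ?_ card_image_le
        refine card_image_le.trans ?_
        simp [card_univ]

/-- some colour is used on at most the average number of pairs. -/
theorem exists_sparse_color {Y X : Type*} [Fintype Y] [Fintype X] {k : ℕ} (hk : 0 < k)
    (c : Y → X → Fin k) :
    ∃ κ : Fin k, k * (univ.filter (fun p : Y × X => c p.1 p.2 = κ)).card ≤
      Fintype.card Y * Fintype.card X := by
  classical
  by_contra hcon
  push Not at hcon
  have h1 : ∑ κ : Fin k, (univ.filter (fun p : Y × X => c p.1 p.2 = κ)).card =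
      Fintype.card Y * Fintype.card X := by
    have := Finset.card_eq_sum_card_fiberwise (s := (univ : Finset (Y × X)))
      (t := (univ : Finset (Fin k))) (f := fun p => c p.1 p.2) (fun _ _ => mem_coe.2 (mem_univ _))
    rw [card_univ, Fintype.card_prod] at this
    rw [this]
  have h2 : ∑ κ : Fin k, (Fintype.card Y * Fintype.card X) <
      ∑ κ : Fin k, k * (univ.filter (fun p : Y × X => c p.1 p.2 = κ)).card := by
    have : Nonempty (Fin k) := ⟨⟨0, hk⟩⟩
    exact Finset.sum_lt_sum_of_nonempty univ_nonempty (fun κ _ => hcon κ)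
  have h3 : ∑ κ : Fin k, k * (univ.filter (fun p : Y × X => c p.1 p.2 = κ)).card =
      k * (Fintype.card Y * Fintype.card X) := by
    rw [← h1, Finset.mul_sum]
  rw [h3] at h2
  simp at h2

theorem host_robust {V : Type*} [Fintype V] [DecidableEq V] (G : SimpleGraph V)
    [DecidableRel G.Adj] {H q k D M Δ n t : ℕ}
    (c : (Fin q × Fin (4 * n)) → (Fin H ⊕ (Fin q × Fin (4 * n))) → Fin k) (κ : Fin k)
    (hP : ∀ (j : Fin q) (a : Fin M → Fin D → (Fin H ⊕ (Fin q × Fin (4 * n)))),
      (∀ l l', l ≠ l' → ∀ d d', a l d ≠ a l' d') →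
      (univ.filter (fun b : Fin (4 * n) => ∀ l, ∃ d, c (j, b) (a l d) ≠ κ)).card < n)
    (col : V → Fin q)
    (hcol : ∀ u v, G.Adj u v → G.degree u ≤ D → G.degree v ≤ D → col u ≠ col v)
    (hn : Fintype.card V ≤ n) (hΔ : ∀ v, G.degree v ≤ Δ)
    (hHi : (univ.filter (fun v => D < G.degree v)).card + 2 * t + q * (M * D) ≤ H)
    (hA2 : 2 * t + q * (M * D) ≤ 2 * n)
    (hA3 : M * (M * (D * Δ + 1) + q * (M * D)) + 2 * t ≤ 3 * n)
    (hA4 : M * (D * Δ + 1) ≤ n)
    (S : Finset (Fin H ⊕ (Fin q × Fin (4 * n)))) (hS : S.card ≤ 2 * t) :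
    ∃ φ : V → (Fin H ⊕ (Fin q × Fin (4 * n))), Function.Injective φ ∧ (∀ v, φ v ∉ S) ∧
      ∀ u v, G.Adj u v → (host c κ).Adj (φ u) (φ v) := by
  classical
  by_cases hV : Nonempty V
  swap
  · rw [not_nonempty_iff] at hV
    exact ⟨fun v => isEmptyElim v, fun v => isEmptyElim v, fun v => isEmptyElim v,
      fun v => isEmptyElim v⟩
  have hVpos : 0 < Fintype.card V := Fintype.card_pos
  have hnpos : 0 < 4 * n := by omega
  -- the sets removed from one class
  have hclass : ∀ (j : Fin q) (R : Finset (Fin H ⊕ (Fin q × Fin (4 * n)))),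
      (univ.filter (fun b : Fin (4 * n) => (Sum.inr (j, b) : Fin H ⊕ (Fin q × Fin (4 * n))) ∈ R)).card
        ≤ R.card := by
    intro j R
    refine card_le_card_of_injOn (fun b => Sum.inr (j, b)) ?_ ?_
    · intro b hb
      simpa using hb
    · intro b _ b' _ h
      simpa using h
  have hlive : ∀ (j : Fin q) (R : Finset (Fin H ⊕ (Fin q × Fin (4 * n)))),
      4 * n ≤ (univ.filter (fun b : Fin (4 * n) =>
        (Sum.inr (j, b) : Fin H ⊕ (Fin q × Fin (4 * n))) ∉ R)).card + R.card := by
    intro j R
    have h1 := card_filter_add_card_filter_not (s := (univ : Finset (Fin (4 * n))))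
      (fun b => (Sum.inr (j, b) : Fin H ⊕ (Fin q × Fin (4 * n))) ∈ R)
    have h2 := hclass j R
    rw [card_univ, Fintype.card_fin] at h1
    omega
  -- hitting sets
  have hZex : ∀ j : Fin q, ∃ Z : Finset (Fin H ⊕ (Fin q × Fin (4 * n))), Z.card ≤ M * D ∧
      ∀ A : Finset (Fin H ⊕ (Fin q × Fin (4 * n))), A.Nonempty → A.card ≤ D →
      ((univ.filter (fun b : Fin (4 * n) =>
        (Sum.inr (j, b) : Fin H ⊕ (Fin q × Fin (4 * n))) ∉ S)).filter
          (fun b => ∀ x ∈ A, c (j, b) x = κ)).card < M * (D * Δ + 1) + q * (M * D) →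
        ¬ Disjoint A Z := by
    intro j
    refine exists_hitting (hP j) _ _ ?_
    have := hlive j S
    omega
  choose Z hZcard hZ using hZex
  let ZZ : Finset (Fin H ⊕ (Fin q × Fin (4 * n))) := univ.biUnion Z
  have hZZ : ZZ.card ≤ q * (M * D) := by
    refine (card_biUnion_le_card_mul _ _ (M * D) (fun j _ => hZcard j)).trans ?_
    simp
  have hZsub : ∀ j, Z j ⊆ ZZ := fun j => subset_biUnion_of_mem Z (mem_univ j)
  have hSZ : (S ∪ ZZ).card ≤ 2 * t + q * (M * D) := (card_union_le _ _).trans (by omega)
  -- high degree vertices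
  obtain ⟨h, hinj, hh⟩ : ∃ h : {v // D < G.degree v} → Fin H, Function.Injective h ∧
      ∀ v, (Sum.inl (h v) : Fin H ⊕ (Fin q × Fin (4 * n))) ∉ S ∪ ZZ := by
    let av : Finset (Fin H) := univ.filter (fun a =>
      (Sum.inl a : Fin H ⊕ (Fin q × Fin (4 * n))) ∉ S ∪ ZZ)
    have hav : H ≤ av.card + (S ∪ ZZ).card := by
      have h1 := card_filter_add_card_filter_not (s := (univ : Finset (Fin H)))
        (fun a => (Sum.inl a : Fin H ⊕ (Fin q × Fin (4 * n))) ∈ S ∪ ZZ)
      have h2 : (univ.filter (fun a : Fin H =>
          (Sum.inl a : Fin H ⊕ (Fin q × Fin (4 * n))) ∈ S ∪ ZZ)).card ≤ (S ∪ ZZ).card := by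
        refine card_le_card_of_injOn (fun b => Sum.inl b) ?_ ?_
        · intro b hb
          simpa using hb
        · intro b _ b' _ h
          simpa using h
      rw [card_univ, Fintype.card_fin] at h1
      simp only [av]
      omega
    have hcard : Fintype.card {v // D < G.degree v} ≤ Fintype.card av := by
      rw [Fintype.card_subtype, Fintype.card_coe]
      omega
    obtain ⟨e⟩ := Function.Embedding.nonempty_of_card_le hcard
    refine ⟨fun v => (e v : Fin H), fun u v huv => e.injective (Subtype.ext huv), fun v => ?_⟩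
    have := (e v).2
    simp only [av, mem_filter] at this
    exact this.2
  let Φ : (V → Fin (4 * n)) → V → (Fin H ⊕ (Fin q × Fin (4 * n))) := fun f v =>
    if hv : D < G.degree v then Sum.inl (h ⟨v, hv⟩) else Sum.inr (col v, f v)
  have hΦhi : ∀ f v (hv : D < G.degree v), Φ f v = Sum.inl (h ⟨v, hv⟩) := by
    intro f v hv
    simp only [Φ, dif_pos hv]
  have hΦlo : ∀ f v, ¬ D < G.degree v → Φ f v = Sum.inr (col v, f v) := by
    intro f v hv
    simp only [Φ, dif_neg hv]
  -- main induction
  have main : ∀ j : ℕ, j ≤ q → ∃ f : V → Fin (4 * n),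
      (∀ v, ¬ D < G.degree v → (col v).1 < j →
        (Sum.inr (col v, f v) : Fin H ⊕ (Fin q × Fin (4 * n))) ∉ S ∪ ZZ) ∧
      (∀ u v, ¬ D < G.degree u → ¬ D < G.degree v → col u = col v → (col v).1 < j →
        f u = f v → u = v) ∧
      (∀ v, ¬ D < G.degree v → (col v).1 < j → ∀ u, G.Adj v u →
        (D < G.degree u ∨ col u < col v) → c (col v, f v) (Φ f u) = κ) := by
    intro j
    induction j with
    | zero =>
      intro _
      refine ⟨fun _ => ⟨0, hnpos⟩, ?_, ?_, ?_⟩
      · intro v _ hv
        exact absurd hv (Nat.not_lt_zero _)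
      · intro u v _ _ _ hv
        exact absurd hv (Nat.not_lt_zero _)
      · intro v _ hv
        exact absurd hv (Nat.not_lt_zero _)
    | succ j ih =>
      intro hj
      obtain ⟨f, hf1, hf2, hf3⟩ := ih (by omega)
      let jj : Fin q := ⟨j, by omega⟩
      let I : Finset V := univ.filter (fun v => ¬ D < G.degree v ∧ col v = jj)
      let A : V → Finset (Fin H ⊕ (Fin q × Fin (4 * n))) := fun v =>
        ((G.neighborFinset v).filter (fun u => D < G.degree u ∨ col u < jj)).image (Φ f)
      let live : Finset (Fin (4 * n)) := univ.filter (fun b : Fin (4 * n) =>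
        (Sum.inr (jj, b) : Fin H ⊕ (Fin q × Fin (4 * n))) ∉ S ∪ ZZ)
      have hlive2 : 2 * n ≤ live.card := by
        have := hlive jj (S ∪ ZZ)
        simp only [live]
        omega
      have hIcard : I.card ≤ n := (card_le_univ _).trans hn
      -- injectivity on placed vertices
      have hplaced : ∀ u u', (D < G.degree u ∨ col u < jj) → (D < G.degree u' ∨ col u' < jj) →
          Φ f u = Φ f u' → u = u' := by
        intro u u' hu hu' heq
        by_cases h1 : D < G.degree u
        · by_cases h2 : D < G.degree u'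
          · rw [hΦhi f u h1, hΦhi f u' h2] at heq
            have := hinj (Sum.inl_injective heq)
            exact congrArg Subtype.val this
          · rw [hΦhi f u h1, hΦlo f u' h2] at heq
            exact absurd heq (by simp)
        · by_cases h2 : D < G.degree u'
          · rw [hΦlo f u h1, hΦhi f u' h2] at heq
            exact absurd heq (by simp)
          · rw [hΦlo f u h1, hΦlo f u' h2] at heq
            have h3 := Sum.inr_injective heq
            simp only [Prod.mk.injEq] at h3
            rcases hu' with hu' | hu'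
            · exact absurd hu' h2
            · exact hf2 u u' h1 h2 h3.1 hu' h3.2
      have hplacedSZ : ∀ u, (D < G.degree u ∨ col u < jj) → Φ f u ∉ S ∪ ZZ := by
        intro u hu
        by_cases h1 : D < G.degree u
        · rw [hΦhi f u h1]
          exact hh _
        · rcases hu with hu | hu
          · exact absurd hu h1
          · rw [hΦlo f u h1]
            exact hf1 u h1 hu
      have hAD : ∀ v ∈ I, (A v).card ≤ D := by
        intro v hv
        simp only [I, mem_filter, mem_univ, true_and] at hv
        refine card_image_le.trans ((card_filter_le _ _).trans ?_)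
        rw [SimpleGraph.card_neighborFinset_eq_degree]
        omega
      have hA1 : ∀ v ∈ I, M * (D * Δ + 1) ≤
          (live.filter (fun b => ∀ x ∈ A v, c (jj, b) x = κ)).card := by
        intro v hv
        by_cases hAe : A v = ∅
        · have : live.filter (fun b => ∀ x ∈ A v, c (jj, b) x = κ) = live := by
            apply filter_true_of_mem
            intro b _ x hx
            rw [hAe] at hx
            exact absurd hx (notMem_empty x)
          rw [this]
          omega
        · have hdisj : Disjoint (A v) (Z jj) := by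
            rw [Finset.disjoint_left]
            intro x hx hxZ
            simp only [A, mem_image, mem_filter] at hx
            obtain ⟨u, ⟨_, hu⟩, rfl⟩ := hx
            exact hplacedSZ u hu (mem_union_right _ (hZsub jj hxZ))
          have h1 : ¬ ((univ.filter (fun b : Fin (4 * n) =>
              (Sum.inr (jj, b) : Fin H ⊕ (Fin q × Fin (4 * n))) ∉ S)).filter
              (fun b => ∀ x ∈ A v, c (jj, b) x = κ)).card < M * (D * Δ + 1) + q * (M * D) :=
            fun hlt => hZ jj (A v) (Finset.nonempty_iff_ne_empty.2 hAe) (hAD v hv) hlt hdisj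
          have h2 : (univ.filter (fun b : Fin (4 * n) =>
              (Sum.inr (jj, b) : Fin H ⊕ (Fin q × Fin (4 * n))) ∉ S)).filter
              (fun b => ∀ x ∈ A v, c (jj, b) x = κ) ⊆
              (live.filter (fun b => ∀ x ∈ A v, c (jj, b) x = κ)) ∪
              (univ.filter (fun b : Fin (4 * n) =>
                (Sum.inr (jj, b) : Fin H ⊕ (Fin q × Fin (4 * n))) ∈ ZZ)) := by
            intro b hb
            simp only [mem_filter, mem_univ, true_and, mem_union, live] at hb ⊢
            by_cases hbZ : (Sum.inr (jj, b) : Fin H ⊕ (Fin q × Fin (4 * n))) ∈ ZZ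
            · exact Or.inr hbZ
            · exact Or.inl ⟨by rintro (h | h); exacts [hb.1 h, hbZ h], hb.2⟩
          have h3 := (card_le_card h2).trans (card_union_le _ _)
          have h4 := hclass jj ZZ
          omega
      have hfar : ∀ T ⊆ I, M * (D * Δ + 1) ≤ T.card → ∃ s : Fin M → V, (∀ l, s l ∈ T) ∧
          ∀ l l', l ≠ l' → Disjoint (A (s l)) (A (s l')) := by
        intro T hT hTc
        obtain ⟨s, hsT, hs⟩ := exists_far G hΔ T (fun v hv => by
          have := hT hv
          simp only [I, mem_filter, mem_univ, true_and] at this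
          omega) M hTc
        refine ⟨s, hsT, fun l l' hll' => ?_⟩
        rw [Finset.disjoint_left]
        intro x hx hx'
        simp only [A, mem_image, mem_filter, SimpleGraph.mem_neighborFinset] at hx hx'
        obtain ⟨u, ⟨hu1, hu2⟩, rfl⟩ := hx
        obtain ⟨u', ⟨hu1', hu2'⟩, heq⟩ := hx'
        have := hplaced u' u hu2' hu2 heq
        subst this
        exact hs l l' hll' _ ⟨hu1, hu1'⟩
      obtain ⟨g, hginj, hg⟩ := hall_step (cj := fun b x => c (jj, b) x) (hP jj) I A live
        (M * (D * Δ + 1)) (by omega) hA1 hAD hfar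
      let f' : V → Fin (4 * n) := fun v => if hv : v ∈ I then g ⟨v, hv⟩ else f v
      have hf'I : ∀ v (hv : v ∈ I), f' v = g ⟨v, hv⟩ := fun v hv => by simp only [f', dif_pos hv]
      have hf'n : ∀ v, v ∉ I → f' v = f v := fun v hv => by simp only [f', dif_neg hv]
      have hmemI : ∀ v, v ∈ I ↔ ¬ D < G.degree v ∧ col v = jj := fun v => by
        simp only [I, mem_filter, mem_univ, true_and]
      have hΦ' : ∀ u, (D < G.degree u ∨ col u < jj) → Φ f' u = Φ f u := by
        intro u hu
        by_cases h1 : D < G.degree u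
        · rw [hΦhi f' u h1, hΦhi f u h1]
        · rcases hu with hu | hu
          · exact absurd hu h1
          · rw [hΦlo f' u h1, hΦlo f u h1, hf'n]
            rw [hmemI]
            rintro ⟨_, h3⟩
            rw [h3] at hu
            exact lt_irrefl _ hu
      refine ⟨f', ?_, ?_, ?_⟩
      · intro v hv hvj
        by_cases hvI : v ∈ I
        · rw [hf'I v hvI]
          have := hg ⟨v, hvI⟩
          simp only [live, mem_filter, mem_univ, true_and] at this
          rw [((hmemI v).1 hvI).2]
          exact this.1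
        · rw [hf'n v hvI]
          apply hf1 v hv
          have : (col v).1 ≠ j := fun h => hvI ((hmemI v).2 ⟨hv, Fin.ext h⟩)
          omega
      · intro u v hu hv huv hvj heq
        by_cases hvI : v ∈ I
        · have huI : u ∈ I := (hmemI u).2 ⟨hu, huv.trans ((hmemI v).1 hvI).2⟩
          rw [hf'I v hvI, hf'I u huI] at heq
          exact congrArg Subtype.val (hginj heq)
        · have huI : u ∉ I := fun h => hvI ((hmemI v).2 ⟨hv, huv.symm.trans ((hmemI u).1 h).2⟩)
          rw [hf'n v hvI, hf'n u huI] at heq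
          apply hf2 u v hu hv huv _ heq
          have : (col v).1 ≠ j := fun h => hvI ((hmemI v).2 ⟨hv, Fin.ext h⟩)
          omega
      · intro v hv hvj u hvu hu
        by_cases hvI : v ∈ I
        · have hcv : col v = jj := ((hmemI v).1 hvI).2
          rw [hcv] at hu ⊢
          rw [hΦ' u hu, hf'I v hvI]
          have := hg ⟨v, hvI⟩
          simp only [mem_filter] at this
          apply this.2
          simp only [A, mem_image, mem_filter, SimpleGraph.mem_neighborFinset]
          exact ⟨u, ⟨hvu, hu⟩, rfl⟩
        · have hvj' : (col v).1 < j := by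
            have : (col v).1 ≠ j := fun h => hvI ((hmemI v).2 ⟨hv, Fin.ext h⟩)
            omega
          rw [hf'n v hvI, hΦ' u]
          · exact hf3 v hv hvj' u hvu hu
          · rcases hu with hu | hu
            · exact Or.inl hu
            · right
              exact lt_trans hu (by exact hvj')
  obtain ⟨f, hf1, hf2, hf3⟩ := main q le_rfl
  refine ⟨Φ f, ?_, ?_, ?_⟩
  · intro u v huv
    by_cases h1 : D < G.degree u
    · by_cases h2 : D < G.degree v
      · rw [hΦhi f u h1, hΦhi f v h2] at huv
        have := hinj (Sum.inl_injective huv)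
        exact congrArg Subtype.val this
      · rw [hΦhi f u h1, hΦlo f v h2] at huv
        exact absurd huv (by simp)
    · by_cases h2 : D < G.degree v
      · rw [hΦlo f u h1, hΦhi f v h2] at huv
        exact absurd huv (by simp)
      · rw [hΦlo f u h1, hΦlo f v h2] at huv
        have h3 := Sum.inr_injective huv
        simp only [Prod.mk.injEq] at h3
        exact hf2 u v h1 h2 h3.1 (col v).2 h3.2
  · intro v hvS
    by_cases h1 : D < G.degree v
    · rw [hΦhi f v h1] at hvS
      exact hh _ (mem_union_left _ hvS)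
    · rw [hΦlo f v h1] at hvS
      exact hf1 v h1 (col v).2 (mem_union_left _ hvS)
  · intro u v huv
    by_cases h1 : D < G.degree u
    · by_cases h2 : D < G.degree v
      · rw [hΦhi f u h1, hΦhi f v h2]
        intro heq
        have := hinj heq
        exact huv.ne (congrArg Subtype.val this)
      · have := hf3 v h2 (col v).2 u huv.symm (Or.inl h1)
        rw [hΦhi f u h1] at this
        rw [hΦhi f u h1, hΦlo f v h2]
        exact this
    · by_cases h2 : D < G.degree v
      · have := hf3 u h1 (col u).2 v huv (Or.inl h2)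
        rw [hΦhi f v h2] at this
        rw [hΦlo f u h1, hΦhi f v h2]
        exact this
      · have hne := hcol u v huv (not_lt.1 h1) (not_lt.1 h2)
        rcases lt_or_gt_of_ne hne with hlt | hlt
        · have := hf3 v h2 (col v).2 u huv.symm (Or.inr hlt)
          rw [hΦlo f u h1] at this
          rw [hΦlo f u h1, hΦlo f v h2]
          exact Or.inl ⟨hlt, this⟩
        · have := hf3 u h1 (col u).2 v huv (Or.inr hlt)
          rw [hΦlo f v h2] at this
          rw [hΦlo f u h1, hΦlo f v h2]
          exact Or.inr ⟨hlt, this⟩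

end Pool.Agent.Helper539
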