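import Mathlib

/-!
# Counting below a regular uncountable cardinal `κ` with `κ^{<κ} = κ`

The cardinal is given as a well-ordered set `K`. `LeK K X` says `|X| ≤ κ`, and `Sm K X` says
that `X` embeds into a proper initial segment of `K`, that is, `|X| < κ`.
-/

namespace Pool.Agent.Helper539.SGCount

universe u v w

set_option linter.unusedSectionVars false

/-- `K` is a well-ordered set of order type a regular uncountable cardinal `κ = κ^{<κ}`
(formulated with embeddings). -/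
class Reg (K : Type u) [LinearOrder K] : Prop where
  wf : WellFoundedLT K
  bdd : ∀ (a : K) (f : Set.Iio a → K), ∃ b, ∀ i, f i < b
  nat : ∃ a : K, Nonempty (ℕ ↪ Set.Iio a)
  prod : ∀ a b : K, ∃ c : K, Nonempty (Set.Iio a × Set.Iio b ↪ Set.Iio c)
  sq : Nonempty (K × K ↪ K)
  pow : ∀ a : K, Nonempty ((Set.Iio a → K) ↪ K)

/-- `|X| ≤ κ` -/
def LeK (K : Type u) (X : Type v) : Prop := Nonempty (X ↪ K)

/-- `|X| < κ` -/
class Sm (K : Type u) [LinearOrder K] (X : Type v) : Prop where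
  ex : ∃ a : K, Nonempty (X ↪ Set.Iio a)

variable {K : Type u} [LinearOrder K] {X : Type v} {Y : Type w}

section

theorem sm_of_injective [hY : Sm K Y] {f : X → Y} (hf : Function.Injective f) : Sm K X := by
  obtain ⟨a, ⟨e⟩⟩ := hY.ex
  exact ⟨a, ⟨⟨fun x => e (f x), fun x y h => hf (e.injective h)⟩⟩⟩

theorem sm_of_surjective [Sm K X] {f : X → Y} (hf : Function.Surjective f) : Sm K Y :=
  sm_of_injective (Function.injective_surjInv hf)

theorem sm_map [Sm K Y] (e : X ≃ Y) : Sm K X := sm_of_injective e.injective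

instance sm_Iio (a : K) : Sm K (Set.Iio a) := ⟨a, ⟨Function.Embedding.refl _⟩⟩

theorem sm_subset {s t : Set X} (h : s ⊆ t) [Sm K t] : Sm K s :=
  sm_of_injective (f := fun x : s => (⟨x.1, h x.2⟩ : t)) fun x y hxy => by
    have := congrArg Subtype.val hxy
    exact Subtype.ext this

instance sm_image (f : X → Y) (s : Set X) [Sm K s] : Sm K (f '' s) :=
  sm_of_surjective (f := fun x : s => (⟨f x.1, ⟨x.1, x.2, rfl⟩⟩ : f '' s)) (by
    rintro ⟨_, x, hx, rfl⟩
    exact ⟨⟨x, hx⟩, rfl⟩)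

instance sm_range (f : X → Y) [Sm K X] : Sm K (Set.range f) :=
  sm_of_surjective Set.rangeFactorization_surjective

instance sm_lift (X : Type v) [Sm K X] : Sm K (ULift.{w} X) :=
  sm_of_injective (f := ULift.down) ULift.down_injective

theorem sm_univ_iff : Sm K (@Set.univ X) ↔ Sm K X :=
  ⟨fun _ => sm_map (Equiv.Set.univ X).symm, fun _ => sm_map (Equiv.Set.univ X)⟩

end

variable [hK : Reg K]

instance (priority := 50) wf_of_reg : WellFoundedLT K := hK.wf

theorem sm_nat : Sm K ℕ := by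
  obtain ⟨a, h⟩ := hK.nat
  exact ⟨a, h⟩

instance (priority := 100) Sm.of_countable (X : Type v) [Countable X] : Sm K X := by
  have := sm_nat (K := K)
  obtain ⟨f, hf⟩ := exists_injective_nat X
  exact sm_of_injective hf

theorem exists_gt' (x : K) : ∃ y, x < y := by
  obtain ⟨a, ⟨e⟩⟩ := hK.nat
  obtain ⟨b, hb⟩ := hK.bdd a fun _ => x
  exact ⟨b, hb (e 0)⟩

instance sm_Iic (a : K) : Sm K (Set.Iic a) := by
  obtain ⟨b, hb⟩ := exists_gt' a
  exact sm_of_injective (f := fun x : Set.Iic a => (⟨x.1, lt_of_le_of_lt x.2 hb⟩ : Set.Iio b))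
    fun x y hxy => Subtype.ext (by
      have h1 := congrArg (fun z : Set.Iio b => z.1) hxy
      exact h1)

/-- functions on small sets are bounded -/
theorem exists_lt_range {C : Type v} [hC : Sm K C] (f : C → K) : ∃ b : K, ∀ c, f c < b := by
  classical
  obtain ⟨a, ⟨e⟩⟩ := hC.ex
  by_cases hne : Nonempty C
  · obtain ⟨c0⟩ := hne
    obtain ⟨b, hb⟩ := hK.bdd a fun i => if h : ∃ c, e c = i then f h.choose else f c0
    refine ⟨b, fun c => ?_⟩
    have h1 : ∃ c', e c' = e c := ⟨c, rfl⟩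
    have h2 := hb (e c)
    rw [dif_pos h1, e.injective h1.choose_spec] at h2
    exact h2
  · obtain ⟨a, ⟨e⟩⟩ := hK.nat
    exact ⟨a, fun c => absurd ⟨c⟩ hne⟩

theorem exists_lt_of_small (S : Set K) [Sm K S] : ∃ b : K, ∀ s ∈ S, s < b := by
  obtain ⟨b, hb⟩ := exists_lt_range (fun s : S => s.1)
  exact ⟨b, fun s hs => hb ⟨s, hs⟩⟩

instance sm_prod [hX : Sm K X] [hY : Sm K Y] : Sm K (X × Y) := by
  obtain ⟨a, ⟨e⟩⟩ := hX.ex
  obtain ⟨b, ⟨f⟩⟩ := hY.ex
  obtain ⟨c, h⟩ := hK.prod a b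
  have : Sm K (Set.Iio a × Set.Iio b) := ⟨c, h⟩
  exact sm_of_injective (f := Prod.map e f) (e.injective.prodMap f.injective)

instance sm_sigma {Z : X → Type w} [Sm K X] [hZ : ∀ x, Sm K (Z x)] : Sm K (Σ x, Z x) := by
  choose b hb using fun x => (hZ x).ex
  obtain ⟨c, hc⟩ := exists_lt_range b
  let e : ∀ x, Z x ↪ Set.Iio (b x) := fun x => (hb x).some
  refine sm_of_injective (Y := X × Set.Iio c)
    (f := fun p => (p.1, ⟨(e p.1 p.2).1, lt_trans (e p.1 p.2).2 (hc p.1)⟩)) ?_
  rintro ⟨x, z⟩ ⟨x', z'⟩ h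
  obtain ⟨h1, h2⟩ := Prod.mk.inj h
  subst h1
  have h3 : (e x z).1 = (e x z').1 := congrArg (fun z : Set.Iio c => z.1) h2
  rw [(e x).injective (Subtype.ext h3)]

theorem sm_iUnion {ι : Type w} [Sm K ι] (s : ι → Set X) [∀ i, Sm K (s i)] :
    Sm K (⋃ i, s i) := by
  refine sm_of_surjective (X := Σ i, s i)
    (f := fun p => ⟨p.2.1, Set.mem_iUnion.2 ⟨p.1, p.2.2⟩⟩) ?_
  rintro ⟨x, hx⟩
  obtain ⟨i, hi⟩ := Set.mem_iUnion.1 hx
  exact ⟨⟨i, x, hi⟩, rfl⟩

theorem sm_union (s t : Set X) [Sm K s] [Sm K t] : Sm K (s ∪ t : Set X) := by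
  rw [Set.union_eq_iUnion]
  have : ∀ b : Bool, Sm K (cond b s t : Set X) := by
    rintro (_ | _)
    · assumption
    · assumption
  exact sm_iUnion _

instance sm_sum [Sm K X] [Sm K Y] : Sm K (X ⊕ Y) := by
  have h1 : Sm K (Set.range (Sum.inl : X → X ⊕ Y)) := inferInstance
  have h2 : Sm K (Set.range (Sum.inr : Y → X ⊕ Y)) := inferInstance
  have h3 := sm_union (K := K) (Set.range (Sum.inl : X → X ⊕ Y)) (Set.range (Sum.inr : Y → X ⊕ Y))
  rw [Set.range_inl_union_range_inr] at h3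
  exact sm_univ_iff.1 h3

theorem sm_list [Sm K X] : Sm K (List X) := by
  have h1 : ∀ n : ℕ, Sm K (Fin n → X) := by
    intro n
    induction n with
    | zero => exact Sm.of_countable _
    | succ n ih => exact sm_map (Fin.consEquiv fun _ => X).symm
  have h2 : Sm K (Σ n, (Fin n → X)) := inferInstance
  exact sm_map List.equivSigmaTuple

theorem sm_finset [Sm K X] : Sm K (Finset X) := by
  classical
  have := sm_list (K := K) (X := X)
  exact sm_of_surjective (f := List.toFinset) List.toFinset_surjective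

/-! ### Sets of size at most `κ` -/

theorem LeK.of_inj {X : Type v} {Y : Type w} (h : LeK K Y) (f : X → Y)
    (hf : Function.Injective f) : LeK K X := by
  obtain ⟨e⟩ := h
  exact ⟨⟨fun x => e (f x), fun x y hxy => hf (e.injective hxy)⟩⟩

theorem LeK.of_surj {X : Type v} {Y : Type w} (h : LeK K X) (f : X → Y)
    (hf : Function.Surjective f) : LeK K Y :=
  h.of_inj (Function.surjInv hf) (Function.injective_surjInv hf)

theorem LeK.of_small {X : Type v} (h : Sm K X) : LeK K X := by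
  obtain ⟨a, ⟨e⟩⟩ := h.ex
  exact ⟨⟨fun x => (e x).1, fun x y hxy => e.injective (Subtype.ext hxy)⟩⟩

theorem LeK.sigma {X : Type v} (h : LeK K X) (Y : X → Type w) (hY : ∀ x, LeK K (Y x)) :
    LeK K (Σ x, Y x) := by
  obtain ⟨e⟩ := h
  obtain ⟨q⟩ := hK.sq
  let g : ∀ x, Y x ↪ K := fun x => Classical.choice (hY x)
  refine ⟨⟨fun p => q (e p.1, g p.1 p.2), ?_⟩⟩
  rintro ⟨x, y⟩ ⟨x', y'⟩ hxy
  have h1 := q.injective hxy
  simp only [Prod.mk.injEq] at h1
  have h2 : x = x' := e.injective h1.1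
  subst h2
  rw [(g x).injective h1.2]

theorem LeK.prod {X : Type v} {Y : Type w} (h : LeK K X) (h' : LeK K Y) : LeK K (X × Y) := by
  have h1 := h.sigma (fun _ => Y) (fun _ => h')
  exact h1.of_inj (fun p => ⟨p.1, p.2⟩) (fun p p' hp => by
    cases p; cases p'
    simp only [Sigma.mk.injEq, heq_eq_eq] at hp
    rw [hp.1, hp.2])

theorem leK_K : LeK K K := ⟨Function.Embedding.refl _⟩

/-- functions from a small type -/
theorem LeK.fun_small {W : Type w} [hW : Sm K W] {X : Type v} (h : LeK K X) : LeK K (W → X) := by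
  classical
  obtain ⟨e⟩ := h
  obtain ⟨a, ⟨i⟩⟩ := hW.ex
  obtain ⟨c, ⟨e0⟩⟩ := hK.nat
  have h1 : LeK K (Set.Iio a → K) := hK.pow a
  refine h1.of_inj (fun g => Function.extend i (fun w => e (g w)) fun _ => c) ?_
  intro g g' hgg
  funext w
  have h2 := congrFun hgg (i w)
  simp only [i.injective.extend_apply] at h2
  exact e.injective h2

/-- small subsets -/
theorem LeK.smallSets {X : Type v} (h : LeK K X) : LeK K {S : Set X // Sm K S} := by
  classical
  obtain ⟨e⟩ := h
  have h1 : LeK K (Σ a : K, (Set.Iio a → Prop)) := by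
    refine leK_K.sigma _ fun a => ?_
    obtain ⟨c, ⟨e0⟩⟩ := hK.nat
    have h2 : LeK K Prop := ⟨⟨fun p => if p then (e0 0).1 else (e0 1).1, by
      intro p q hpq
      have hne : (e0 0).1 ≠ (e0 1).1 := fun h => by
        have := e0.injective (Subtype.ext h)
        omega
      by_cases hp : p <;> by_cases hq : q <;> simp [hp, hq] at hpq ⊢
      · exact absurd hpq fun h => hne h
      · exact absurd hpq fun h => hne h.symm⟩⟩
    exact h2.fun_small
  have hb : ∀ S : {S : Set X // Sm K S}, ∃ b : K, ∀ s ∈ S.1, e s < b := by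
    rintro ⟨S, hS⟩
    obtain ⟨b, hb⟩ := exists_lt_range (fun s : S => e s.1)
    exact ⟨b, fun s hs => hb ⟨s, hs⟩⟩
  choose b hb using hb
  refine h1.of_inj (fun S => ⟨b S, fun i => ∃ s ∈ S.1, e s = i.1⟩) ?_
  let G : (Σ a : K, (Set.Iio a → Prop)) → Set X := fun p => {x | ∃ i, p.2 i ∧ i.1 = e x}
  have hG : ∀ S : {S : Set X // Sm K S},
      G ⟨b S, fun i => ∃ s ∈ S.1, e s = i.1⟩ = S.1 := by
    intro S
    ext x
    constructor
    · rintro ⟨i, ⟨s, hs, hsi⟩, hi⟩
      have : s = x := e.injective (hsi.trans hi)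
      rw [← this]; exact hs
    · intro hx
      exact ⟨⟨e x, hb S x hx⟩, ⟨x, hx, rfl⟩, rfl⟩
  intro S T hST
  apply Subtype.ext
  rw [← hG S, ← hG T]
  exact congrArg G hST

theorem LeK.finset {X : Type v} (h : LeK K X) : LeK K (Finset X) := by
  refine h.smallSets.of_inj (fun s => ⟨(s : Set X), inferInstance⟩) ?_
  intro s t hst
  exact Finset.coe_injective (congrArg Subtype.val hst)

end Pool.Agent.Helper539.SGCount
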