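import Mathlib

/-!
# Finite support iterations over the collapse of all `a < κ` to countable sets

The well-ordered set `K` stands for a cardinal `κ`. Points are pairs of a
sequence of functions `ℕ → [0, a]` (`a < κ`) and of a sequence of functions `ℕ → ℕ` indexed by
a well-ordered type `J`. Conditions consist of finitely many finite approximations, together
with promises (open sets of points) attached to finitely many coordinates in `J`.
-/

namespace Pool.Agent.Helper539.SGIter

universe u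

set_option linter.unusedSectionVars false

/-! ### Initial segments of sequences -/

/-- the initial segment of length `n` -/
def pre {α : Type*} (g : ℕ → α) (n : ℕ) : List α := (List.range n).map g

section pre

variable {α : Type*}

@[simp] theorem length_pre (g : ℕ → α) (n : ℕ) : (pre g n).length = n := by simp [pre]

theorem pre_succ (g : ℕ → α) (n : ℕ) : pre g (n + 1) = pre g n ++ [g n] := by
  simp [pre, List.range_succ]

@[simp] theorem pre_zero (g : ℕ → α) : pre g 0 = [] := rfl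

theorem pre_prefix (g : ℕ → α) {n m : ℕ} (h : n ≤ m) : pre g n <+: pre g m := by
  induction m, h using Nat.le_induction with
  | base => exact List.prefix_refl _
  | succ m _ ih => exact ih.trans (by rw [pre_succ]; exact List.prefix_append _ _)

theorem eq_pre_of_prefix {g : ℕ → α} {n : ℕ} {s : List α} (h : s <+: pre g n) :
    s = pre g s.length := by
  have h1 : s.length ≤ n := by simpa using h.length_le
  have h2 := pre_prefix g h1
  exact (List.prefix_of_prefix_length_le h h2 (by simp)).eq_of_length (by simp)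

theorem eq_pre_of_prefix' {g : ℕ → α} {s t : List α} (h : s <+: t) (ht : t = pre g t.length) :
    s = pre g s.length := by
  rw [ht] at h
  exact eq_pre_of_prefix h

theorem prefix_of_pre {g : ℕ → α} {s t : List α} (hs : s = pre g s.length)
    (ht : t = pre g t.length) (h : s.length ≤ t.length) : s <+: t := by
  rw [hs, ht]
  exact pre_prefix g h

theorem exists_eq_pre [Nonempty α] (l : List α) : ∃ g : ℕ → α, l = pre g l.length := by
  classical
  refine ⟨fun i => if h : i < l.length then l[i] else Classical.arbitrary α, ?_⟩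
  apply List.ext_getElem
  · simp
  · intro i h1 h2
    simp only [pre, List.getElem_map, List.getElem_range]
    rw [dif_pos h1]

/-- a sequence of lists increasing for the prefix order has a common extension -/
theorem exists_common [Nonempty α] (l : ℕ → List α) (h : ∀ n, l n <+: l (n + 1)) :
    ∃ g : ℕ → α, ∀ n, l n = pre g (l n).length := by
  classical
  have hmono : ∀ {m n}, m ≤ n → l m <+: l n := by
    intro m n hmn
    induction n, hmn using Nat.le_induction with
    | base => exact List.prefix_refl _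
    | succ n _ ih => exact ih.trans (h n)
  let g : ℕ → α := fun i =>
    if hi : ∃ m, i < (l m).length then (l hi.choose)[i]'hi.choose_spec
    else Classical.arbitrary α
  have hg : ∀ m i (hi : i < (l m).length), g i = (l m)[i] := by
    intro m i hi
    have hex : ∃ m, i < (l m).length := ⟨m, hi⟩
    have h1 : g i = (l hex.choose)[i]'hex.choose_spec := by
      simp only [g]; rw [dif_pos hex]
    rw [h1]
    rcases le_total hex.choose m with h2 | h2
    · exact (hmono h2).getElem hex.choose_spec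
    · exact ((hmono h2).getElem hi).symm
  refine ⟨g, fun n => ?_⟩
  apply List.ext_getElem
  · simp
  · intro i h1 h2
    simp only [pre, List.getElem_map, List.getElem_range]
    exact (hg n i h1).symm

end pre

/-! ### Points and conditions -/

/-- the points -/
abbrev Om (K : Type u) [LinearOrder K] (J : Type u) : Type u :=
  ((a : K) → ℕ → Set.Iic a) × (J → ℕ → ℕ)

/-- the promises: for every node and every number an open set of points -/
abbrev Pr (K : Type u) [LinearOrder K] (J : Type u) : Type u := List ℕ → ℕ → Set (Om K J)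

/-- Conditions: finitely many nonempty finite approximations of the generic surjections, at
each coordinate of `J` a stem and a finite set of promises, almost all of them trivial. -/
@[ext] structure Rep (K : Type u) [LinearOrder K] (J : Type u) where
  c : (a : K) → List (Set.Iic a)
  st : J → List ℕ
  pr : J → Finset (Pr K J)
  finc : {a | c a ≠ []}.Finite
  fin : {η | st η ≠ [] ∨ pr η ≠ ∅}.Finite

variable {K : Type u} [LinearOrder K] {J : Type u} [LinearOrder J]

/-- the set of points obeying the part of `r` below `ξ` -/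
def bs (r : Rep K J) (ξ : J) : Set (Om K J) :=
  {w | (∀ a, r.c a = pre (w.1 a) (r.c a).length) ∧
    ∀ η < ξ, r.st η = pre (w.2 η) (r.st η).length ∧
      ∀ R ∈ r.pr η, ∀ n, (r.st η).length ≤ n → w ∈ R (pre (w.2 η) n) (w.2 η n)}

theorem bs_anti (r : Rep K J) {η ξ : J} (h : η ≤ ξ) : bs r ξ ⊆ bs r η :=
  fun _ hw => ⟨hw.1, fun ζ hζ => hw.2 ζ (hζ.trans_le h)⟩

/-- the order of conditions -/
def RLe (r' r : Rep K J) : Prop :=
  (∀ a, r.c a <+: r'.c a) ∧
  ∀ η, r.st η <+: r'.st η ∧ r.pr η ⊆ r'.pr η ∧ ∀ R ∈ r.pr η, ∀ s m, s ++ [m] <+: r'.st η →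
    (r.st η).length ≤ s.length → bs r' η ⊆ R s m

theorem bs_mono {r r' : Rep K J} (h : RLe r' r) (ξ : J) : bs r' ξ ⊆ bs r ξ := by
  intro w hw
  refine ⟨fun a => eq_pre_of_prefix' (h.1 a) (hw.1 a), fun η hη => ?_⟩
  obtain ⟨h1, h2, h3⟩ := h.2 η
  obtain ⟨h4, h5⟩ := hw.2 η hη
  refine ⟨eq_pre_of_prefix' h1 h4, fun R hR n hn => ?_⟩
  by_cases hn' : n < (r'.st η).length
  · refine h3 R hR _ _ ?_ (by simpa using hn) (bs_anti r' hη.le hw)
    rw [← pre_succ, h4]
    exact pre_prefix _ hn'
  · exact h5 R (h2 hR) n (not_lt.1 hn')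

instance : Preorder (Rep K J) where
  le r' r := RLe r' r
  le_refl r := ⟨fun _ => List.prefix_refl _, fun η => ⟨List.prefix_refl _, Finset.Subset.refl _,
    fun _ _ s m h h' => by
      have := h.length_le
      simp at this
      omega⟩⟩
  le_trans a b c hab hbc := ⟨fun i => (hbc.1 i).trans (hab.1 i), fun η => by
    obtain ⟨h1, h2, h3⟩ := hab.2 η
    obtain ⟨h4, h5, h6⟩ := hbc.2 η
    refine ⟨h4.trans h1, h5.trans h2, fun R hR s m hs hlen => ?_⟩
    by_cases hb : s.length < (b.st η).length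
    · have h7 : s ++ [m] <+: b.st η :=
        List.prefix_of_prefix_length_le hs h1 (by simp; omega)
      exact (bs_mono hab η).trans (h6 R hR s m h7 hlen)
    · exact h3 R (h5 hR) s m hs (not_lt.1 hb)⟩

theorem le_def {r' r : Rep K J} : r' ≤ r ↔ (∀ a, r.c a <+: r'.c a) ∧
    ∀ η, r.st η <+: r'.st η ∧ r.pr η ⊆ r'.pr η ∧ ∀ R ∈ r.pr η, ∀ s m, s ++ [m] <+: r'.st η →
    (r.st η).length ≤ s.length → bs r' η ⊆ R s m := Iff.rfl

theorem bs_le {r r' : Rep K J} (h : r' ≤ r) (ξ : J) : bs r' ξ ⊆ bs r ξ := bs_mono h ξ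

theorem le_c {r r' : Rep K J} (h : r' ≤ r) (a : K) : r.c a <+: r'.c a := h.1 a
theorem le_st {r r' : Rep K J} (h : r' ≤ r) (η : J) : r.st η <+: r'.st η := (h.2 η).1
theorem le_pr {r r' : Rep K J} (h : r' ≤ r) (η : J) : r.pr η ⊆ r'.pr η := (h.2 η).2.1
theorem le_new {r r' : Rep K J} (h : r' ≤ r) {η : J} {R : Pr K J} (hR : R ∈ r.pr η) {s : List ℕ}
    {m : ℕ} (hs : s ++ [m] <+: r'.st η) (hl : (r.st η).length ≤ s.length) : bs r' η ⊆ R s m :=
  (h.2 η).2.2 R hR s m hs hl

/-- for new elements of the stem nothing has to be checked if the stem does not change -/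
theorem no_new {s t : List ℕ} {m : ℕ} (h : s ++ [m] <+: t) (h' : t.length ≤ s.length) : False := by
  have := h.length_le
  simp at this
  omega

/-- the trivial condition -/
def one (K : Type u) [LinearOrder K] (J : Type u) : Rep K J where
  c _ := []
  st _ := []
  pr _ := ∅
  finc := by simp
  fin := by simp

instance : Nonempty (Rep K J) := ⟨one K J⟩

theorem le_one (r : Rep K J) : r ≤ one K J := ⟨fun _ => List.nil_prefix, fun _ =>
  ⟨List.nil_prefix, Finset.empty_subset _, fun R hR => absurd hR (Finset.notMem_empty R)⟩⟩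

open Classical in
/-- `q` below `ξ` and `r` from `ξ` on; the collapsing part is that of `q` -/
noncomputable def glue (q r : Rep K J) (ξ : J) : Rep K J where
  c := q.c
  st η := if η < ξ then q.st η else r.st η
  pr η := if η < ξ then q.pr η else r.pr η
  finc := q.finc
  fin := by
    refine (q.fin.union r.fin).subset fun η hη => ?_
    by_cases h : η < ξ
    · left; simpa [h] using hη
    · right; simpa [h] using hη

/-- the part of `r` below `ξ` -/
noncomputable def res (r : Rep K J) (ξ : J) : Rep K J := glue r (one K J) ξ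

@[simp] theorem glue_c (q r : Rep K J) (ξ : J) : (glue q r ξ).c = q.c := rfl
@[simp] theorem res_c (r : Rep K J) (ξ : J) : (res r ξ).c = r.c := rfl

theorem glue_st_lt {q r : Rep K J} {ξ η : J} (h : η < ξ) : (glue q r ξ).st η = q.st η := if_pos h
theorem glue_st_ge {q r : Rep K J} {ξ η : J} (h : ξ ≤ η) : (glue q r ξ).st η = r.st η :=
  if_neg (not_lt.2 h)
theorem glue_pr_lt {q r : Rep K J} {ξ η : J} (h : η < ξ) : (glue q r ξ).pr η = q.pr η := if_pos h
theorem glue_pr_ge {q r : Rep K J} {ξ η : J} (h : ξ ≤ η) : (glue q r ξ).pr η = r.pr η :=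
  if_neg (not_lt.2 h)

theorem res_st_lt {q : Rep K J} {ξ η : J} (h : η < ξ) : (res q ξ).st η = q.st η := if_pos h
theorem res_st_ge {q : Rep K J} {ξ η : J} (h : ξ ≤ η) : (res q ξ).st η = [] := if_neg (not_lt.2 h)
theorem res_pr_lt {q : Rep K J} {ξ η : J} (h : η < ξ) : (res q ξ).pr η = q.pr η := if_pos h
theorem res_pr_ge {q : Rep K J} {ξ η : J} (h : ξ ≤ η) : (res q ξ).pr η = ∅ := if_neg (not_lt.2 h)

theorem bs_congr {r r' : Rep K J} {ξ : J} (hc : r.c = r'.c)
    (h : ∀ η < ξ, r.st η = r'.st η ∧ r.pr η = r'.pr η) : bs r ξ = bs r' ξ := by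
  ext w
  simp only [bs, Set.mem_ofPred_eq, hc]
  constructor <;> rintro ⟨hw1, hw⟩ <;> refine ⟨hw1, fun η hη => ?_⟩
  · obtain ⟨h1, h2⟩ := h η hη
    rw [← h1, ← h2]; exact hw η hη
  · obtain ⟨h1, h2⟩ := h η hη
    rw [h1, h2]; exact hw η hη

theorem bs_glue {q r : Rep K J} {ξ η : J} (h : η ≤ ξ) : bs (glue q r ξ) η = bs q η :=
  bs_congr rfl fun _ hζ => ⟨glue_st_lt (hζ.trans_le h), glue_pr_lt (hζ.trans_le h)⟩

theorem bs_res {q : Rep K J} {ξ η : J} (h : η ≤ ξ) : bs (res q ξ) η = bs q η := bs_glue h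

theorem le_res (r : Rep K J) (ξ : J) : r ≤ res r ξ := ⟨fun _ => List.prefix_refl _, fun η => by
  by_cases h : η < ξ
  · rw [res_st_lt h, res_pr_lt h]
    exact (le_refl r).2 η
  · rw [res_st_ge (not_lt.1 h), res_pr_ge (not_lt.1 h)]
    exact ⟨List.nil_prefix, Finset.empty_subset _,
      fun R hR => absurd hR (Finset.notMem_empty R)⟩⟩

/-- the condition is trivial from `ξ` on -/
def Below (q : Rep K J) (ξ : J) : Prop := ∀ η, ξ ≤ η → q.st η = [] ∧ q.pr η = ∅

theorem below_res (r : Rep K J) (ξ : J) : Below (res r ξ) ξ :=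
  fun _ h => ⟨res_st_ge h, res_pr_ge h⟩

theorem Below.mono {q : Rep K J} {ξ ξ' : J} (h : Below q ξ) (h' : ξ ≤ ξ') : Below q ξ' :=
  fun η hη => h η (h'.trans hη)

theorem bs_below {q : Rep K J} {ξ ζ : J} (h : Below q ξ) (h' : ξ ≤ ζ) : bs q ζ = bs q ξ := by
  refine Set.Subset.antisymm (bs_anti q h') fun w hw => ⟨hw.1, fun η hη => ?_⟩
  by_cases hη' : η < ξ
  · exact hw.2 η hη'
  · obtain ⟨h1, h2⟩ := h η (not_lt.1 hη')
    rw [h1, h2]
    simp

theorem res_eq_self {q : Rep K J} {ξ : J} (h : Below q ξ) : res q ξ = q := by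
  ext1
  · rfl
  · funext η
    by_cases hη : η < ξ
    · exact res_st_lt hη
    · rw [res_st_ge (not_lt.1 hη), (h η (not_lt.1 hη)).1]
  · funext η
    by_cases hη : η < ξ
    · exact res_pr_lt hη
    · rw [res_pr_ge (not_lt.1 hη), (h η (not_lt.1 hη)).2]

theorem res_mono {r q : Rep K J} (h : r ≤ q) (ξ : J) : res r ξ ≤ res q ξ := ⟨h.1, fun η => by
  by_cases hη : η < ξ
  · rw [res_st_lt hη, res_pr_lt hη, res_st_lt hη, res_pr_lt hη]
    obtain ⟨h1, h2, h3⟩ := h.2 η
    refine ⟨h1, h2, fun R hR s m hs hl => ?_⟩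
    rw [bs_res hη.le]
    exact h3 R hR s m hs hl
  · rw [res_st_ge (not_lt.1 hη), res_pr_ge (not_lt.1 hη), res_st_ge (not_lt.1 hη),
      res_pr_ge (not_lt.1 hη)]
    exact ⟨List.nil_prefix, Finset.empty_subset _,
      fun R hR => absurd hR (Finset.notMem_empty R)⟩⟩

theorem res_le {r q : Rep K J} {ξ : J} (h : r ≤ q) (hq : Below q ξ) : res r ξ ≤ q := by
  have := res_mono h ξ
  rwa [res_eq_self hq] at this

theorem glue_le {q r : Rep K J} {ξ : J} (h : q ≤ res r ξ) : glue q r ξ ≤ r := ⟨h.1, fun η => by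
  by_cases hη : η < ξ
  · rw [glue_st_lt hη, glue_pr_lt hη, bs_glue hη.le]
    have := h.2 η
    rwa [res_st_lt hη, res_pr_lt hη] at this
  · rw [glue_st_ge (not_lt.1 hη), glue_pr_ge (not_lt.1 hη)]
    exact ⟨List.prefix_refl _, Finset.Subset.refl _, fun _ _ _ _ h h' => (no_new h h').elim⟩⟩

theorem glue_le_left {q r : Rep K J} {ξ : J} (h : Below q ξ) : glue q r ξ ≤ q :=
  ⟨fun _ => List.prefix_refl _, fun η => by
  by_cases hη : η < ξ
  · rw [glue_st_lt hη, glue_pr_lt hη]
    exact ⟨List.prefix_refl _, Finset.Subset.refl _, fun _ _ _ _ h h' => (no_new h h').elim⟩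
  · obtain ⟨h1, h2⟩ := h η (not_lt.1 hη)
    rw [h1, h2]
    exact ⟨List.nil_prefix, Finset.empty_subset _,
      fun R hR => absurd hR (Finset.notMem_empty R)⟩⟩

/-- all promises are admissible -/
def Adm (RR : J → Set (Pr K J)) (r : Rep K J) : Prop := ∀ η, ∀ R ∈ r.pr η, R ∈ RR η

/-- valid conditions below `ξ` -/
def Vd (RR : J → Set (Pr K J)) (ξ : J) : Set (Rep K J) := {r | Adm RR r ∧ Below r ξ}

theorem adm_glue {RR : J → Set (Pr K J)} {q r : Rep K J} (hq : Adm RR q) (hr : Adm RR r) (ξ : J) :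
    Adm RR (glue q r ξ) := fun η => by
  by_cases hη : η < ξ
  · rw [glue_pr_lt hη]; exact hq η
  · rw [glue_pr_ge (not_lt.1 hη)]; exact hr η

omit [LinearOrder J] in
theorem adm_one (RR : J → Set (Pr K J)) : Adm RR (one K J) :=
  fun _ _ hR => absurd hR (Finset.notMem_empty _)

theorem below_one (ξ : J) : Below (one K J) ξ := fun _ _ => ⟨rfl, rfl⟩

theorem one_mem (RR : J → Set (Pr K J)) (ξ : J) : one K J ∈ Vd RR ξ := ⟨adm_one RR, below_one ξ⟩

theorem adm_res {RR : J → Set (Pr K J)} {q : Rep K J} (hq : Adm RR q) (ξ : J) : Adm RR (res q ξ) :=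
  adm_glue hq (adm_one RR) ξ

theorem res_mem {RR : J → Set (Pr K J)} {q : Rep K J} (hq : Adm RR q) (ξ : J) : res q ξ ∈ Vd RR ξ :=
  ⟨adm_res hq ξ, below_res q ξ⟩

theorem Vd_mono {RR : J → Set (Pr K J)} {ξ ξ' : J} (h : ξ ≤ ξ') : Vd RR ξ ⊆ Vd RR ξ' :=
  fun _ hr => ⟨hr.1, hr.2.mono h⟩

theorem glue_mem {RR : J → Set (Pr K J)} {q r : Rep K J} {τ η : J} (hq : q ∈ Vd RR η)
    (hr : r ∈ Vd RR τ) (h : η ≤ τ) : glue q r η ∈ Vd RR τ :=
  ⟨adm_glue hq.1 hr.1 η, fun ζ hζ => by
    rw [glue_st_ge (h.trans hζ), glue_pr_ge (h.trans hζ)]; exact hr.2 ζ hζ⟩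

/-- open sets of points for the iteration below `ξ` -/
def Op (B : Set (Rep K J)) (ξ : J) (U : Set (Om K J)) : Prop :=
  ∀ w ∈ U, ∃ q ∈ B, w ∈ bs q ξ ∧ bs q ξ ⊆ U

structure Good (RR : J → Set (Pr K J)) (ξ : J) : Prop where
  opn : ∀ R ∈ RR ξ, ∀ s m, Op (Vd RR ξ) ξ (R s m)
  amal : ∀ F : Finset (Pr K J), (∀ R ∈ F, R ∈ RR ξ) → ∀ s, ∀ q ∈ Vd RR ξ, ∀ N : ℕ,
    ∃ q' ∈ Vd RR ξ, q' ≤ q ∧ ∃ m, N ≤ m ∧ ∀ R ∈ F, bs q' ξ ⊆ R s m

/-! ## Compatibility -/

/-- the support -/
def supp (r : Rep K J) : Set J := {η | r.st η ≠ [] ∨ r.pr η ≠ ∅}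

omit [LinearOrder J] in
theorem notMem_supp {r : Rep K J} {η : J} (h : η ∉ supp r) : r.st η = [] ∧ r.pr η = ∅ := by
  simpa [supp] using h

theorem exists_list {RR : J → Set (Pr K J)} {ξ : J} {w : Om K J}
    (ih : ∀ r r' : Rep K J, Adm RR r → Adm RR r' → w ∈ bs r ξ → w ∈ bs r' ξ →
      ∃ q ∈ Vd RR ξ, q ≤ res r ξ ∧ q ≤ res r' ξ ∧ w ∈ bs q ξ)
    (hne : ∃ q ∈ Vd RR ξ, w ∈ bs q ξ)
    (S : Set (Rep K J)) (hS : S.Finite) : (∀ q ∈ S, q ∈ Vd RR ξ ∧ w ∈ bs q ξ) →
    ∃ q ∈ Vd RR ξ, w ∈ bs q ξ ∧ ∀ q' ∈ S, q ≤ q' := by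
  induction S, hS using Set.Finite.induction_on with
  | empty =>
    intro _
    obtain ⟨q, h1, h2⟩ := hne
    exact ⟨q, h1, h2, by simp⟩
  | @insert a S _ _ ih' =>
    intro h
    obtain ⟨q, hq, hw, hle⟩ := ih' fun q hq => h q (Set.mem_insert_of_mem a hq)
    obtain ⟨ha, haw⟩ := h a (Set.mem_insert a S)
    obtain ⟨q', hq', h1, h2, h3⟩ := ih q a hq.1 ha.1 hw haw
    rw [res_eq_self hq.2] at h1
    rw [res_eq_self ha.2] at h2
    refine ⟨q', hq', h3, fun b hb => ?_⟩
    rcases Set.mem_insert_iff.1 hb with rfl | hb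
    · exact h2
    · exact h1.trans (hle b hb)

theorem exists_max_lt {S : Set J} (hS : S.Finite) (ξ : J) (h : ∃ η ∈ S, η < ξ) :
    ∃ η ∈ S, η < ξ ∧ ∀ ζ ∈ S, ζ < ξ → ζ ≤ η := by
  obtain ⟨η, hη, hm⟩ := (hS.subset (Set.inter_subset_left (t := Set.Iio ξ))).exists_maximal
    (by obtain ⟨η, h1, h2⟩ := h; exact ⟨η, h1, h2⟩)
  refine ⟨η, hη.1, hη.2, fun ζ h1 h2 => ?_⟩
  by_contra h3
  exact h3 (hm ⟨h1, h2⟩ (not_le.1 h3).le)

/-- the condition with only a collapsing part -/
def base (c : (a : K) → List (Set.Iic a)) (h : {a | c a ≠ []}.Finite) : Rep K J where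
  c := c
  st _ := []
  pr _ := ∅
  finc := h
  fin := by simp

/-- the two collapsing parts obeyed by a point have a common extension obeyed by it -/
theorem exists_c (r r' : Rep K J) (w : Om K J) (h : ∀ a, r.c a = pre (w.1 a) (r.c a).length)
    (h' : ∀ a, r'.c a = pre (w.1 a) (r'.c a).length) :
    ∃ c : (a : K) → List (Set.Iic a), {a | c a ≠ []}.Finite ∧ (∀ a, r.c a <+: c a) ∧
      (∀ a, r'.c a <+: c a) ∧ ∀ a, c a = pre (w.1 a) (c a).length := by
  refine ⟨fun a => pre (w.1 a) (max (r.c a).length (r'.c a).length), ?_, fun a => ?_, fun a => ?_,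
    fun a => by simp⟩
  · refine (r.finc.union r'.finc).subset fun a ha => ?_
    by_contra hcon
    simp only [Set.mem_union, Set.mem_ofPred_eq, not_or, not_not] at hcon
    apply ha
    simp [hcon.1, hcon.2]
  · rw [h a]
    exact pre_prefix _ (by simp)
  · rw [h' a]
    exact pre_prefix _ (by simp)

variable [WellFoundedLT J]

theorem inter_point {RR : J → Set (Pr K J)} (w : Om K J) (ξ : J) (hG : ∀ ζ < ξ, Good RR ζ) :
    ∀ r r' : Rep K J, Adm RR r → Adm RR r' → w ∈ bs r ξ → w ∈ bs r' ξ →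
      ∃ q ∈ Vd RR ξ, q ≤ res r ξ ∧ q ≤ res r' ξ ∧ w ∈ bs q ξ := by
  classical
  induction ξ using WellFoundedLT.induction with
  | ind ξ IH =>
    intro r r' hr hr' hw hw'
    by_cases hS : ∃ η ∈ supp r ∪ supp r', η < ξ
    swap
    · obtain ⟨c, hc1, hc2, hc3, hc4⟩ := exists_c r r' w hw.1 hw'.1
      have htriv : ∀ a : Rep K J, (∀ η ∈ supp a, ¬ η < ξ) → (∀ i, a.c i <+: c i) →
          base c hc1 ≤ res a ξ := by
        intro a ha hca
        refine ⟨hca, fun η => ?_⟩
        have h1 : (res a ξ).st η = [] ∧ (res a ξ).pr η = ∅ := by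
          by_cases hη : η < ξ
          · have := notMem_supp (r := a) (η := η) fun h => ha η h hη
            rw [res_st_lt hη, res_pr_lt hη]; exact this
          · exact ⟨res_st_ge (not_lt.1 hη), res_pr_ge (not_lt.1 hη)⟩
        rw [h1.1, h1.2]
        exact ⟨List.nil_prefix, Finset.empty_subset _,
          fun R hR => absurd hR (Finset.notMem_empty R)⟩
      refine ⟨base c hc1, ⟨fun _ _ hR => absurd hR (Finset.notMem_empty _),
        fun _ _ => ⟨rfl, rfl⟩⟩, htriv r (fun η h h' => hS ⟨η, Or.inl h, h'⟩) hc2,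
        htriv r' (fun η h h' => hS ⟨η, Or.inr h, h'⟩) hc3, ⟨hc4, fun η _ => ?_⟩⟩
      simp [base]
    · obtain ⟨η, _, hη, hmax⟩ := exists_max_lt (r.fin.union r'.fin) ξ hS
      set N := max (r.st η).length (r'.st η).length with hN
      -- the auxiliary conditions
      have key : ∀ (R : Pr K J) (i : ℕ), (R ∈ r.pr η ∪ r'.pr η) →
          ∃ q ∈ Vd RR η, (w ∈ R (pre (w.2 η) i) (w.2 η i) →
            w ∈ bs q η ∧ bs q η ⊆ R (pre (w.2 η) i) (w.2 η i)) := by
        intro R i hR
        by_cases hwR : w ∈ R (pre (w.2 η) i) (w.2 η i)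
        · have hRR : R ∈ RR η := by
            rcases Finset.mem_union.1 hR with h | h
            · exact hr η R h
            · exact hr' η R h
          obtain ⟨q, hq, h1, h2⟩ := (hG η hη).opn R hRR _ _ w hwR
          exact ⟨q, hq, fun _ => ⟨h1, h2⟩⟩
        · exact ⟨one K J, one_mem RR η, fun h => absurd h hwR⟩
      choose! qf hqf1 hqf2 using key
      set S : Set (Rep K J) := {res r η, res r' η} ∪
        (fun x : Pr K J × ℕ => qf x.1 x.2) '' {x | x.1 ∈ r.pr η ∪ r'.pr η ∧ x.2 < N ∧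
          w ∈ x.1 (pre (w.2 η) x.2) (w.2 η x.2)} with hSdef
      have hSfin : S.Finite := by
        refine Set.Finite.union (by simp) (Set.Finite.image _ ?_)
        refine (((r.pr η ∪ r'.pr η).finite_toSet).prod (Set.finite_lt_nat N)).subset ?_
        rintro ⟨R, i⟩ ⟨h1, h2, _⟩
        exact ⟨h1, h2⟩
      have hwr : w ∈ bs (res r η) η := by rw [bs_res le_rfl]; exact bs_anti r hη.le hw
      obtain ⟨q, hq, hwq, hle⟩ := exists_list (RR := RR) (ξ := η) (w := w)
        (fun a b ha hb h1 h2 => IH η hη (fun ζ hζ => hG ζ (hζ.trans hη)) a b ha hb h1 h2)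
        ⟨res r η, res_mem hr η, hwr⟩
        S hSfin (by
          rintro a ((rfl | rfl) | ⟨⟨R, i⟩, ⟨h1, h2, h3⟩, rfl⟩)
          · exact ⟨res_mem hr η, hwr⟩
          · exact ⟨res_mem hr' η, by rw [bs_res le_rfl]; exact bs_anti r' hη.le hw'⟩
          · exact ⟨hqf1 R i h1, (hqf2 R i h1 h3).1⟩)
      have hq1 : q ≤ res r η := hle _ (Or.inl (Or.inl rfl))
      have hq2 : q ≤ res r' η := hle _ (Or.inl (Or.inr rfl))
      let z : Rep K J :=
        { c := q.c
          st := fun ζ => if ζ < η then q.st ζ else if ζ = η then pre (w.2 η) N else []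
          pr := fun ζ => if ζ < η then q.pr ζ else if ζ = η then r.pr η ∪ r'.pr η else ∅
          finc := q.finc
          fin := by
            refine (q.fin.union (Set.finite_singleton η)).subset fun ζ hζ => ?_
            by_cases h1 : ζ < η
            · left; simpa [h1] using hζ
            · by_cases h2 : ζ = η
              · right; exact h2
              · simp [h1, h2] at hζ }
      have hz1 : ∀ {ζ}, ζ < η → z.st ζ = q.st ζ := fun h => if_pos h
      have hz2 : ∀ {ζ}, ζ < η → z.pr ζ = q.pr ζ := fun h => if_pos h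
      have hz3 : z.st η = pre (w.2 η) N := by simp [z]
      have hz4 : z.pr η = r.pr η ∪ r'.pr η := by simp [z]
      have hz5 : ∀ {ζ}, η < ζ → z.st ζ = [] := fun h => by simp [z, h.not_gt, h.ne']
      have hz6 : ∀ {ζ}, η < ζ → z.pr ζ = ∅ := fun h => by simp [z, h.not_gt, h.ne']
      have hbz : bs z η = bs q η := bs_congr rfl fun ζ hζ => ⟨hz1 hζ, hz2 hζ⟩
      have hgen : ∀ a : Rep K J, (∀ R ∈ a.pr η, R ∈ r.pr η ∪ r'.pr η) → (a.st η).length ≤ N →
          w ∈ bs a ξ → q ≤ res a η → (∀ ζ, η < ζ → ζ < ξ → ζ ∉ supp a) → z ≤ res a ξ := by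
        intro a ha1 ha2 ha3 ha4 ha5
        refine ⟨ha4.1, fun ζ => ?_⟩
        rcases lt_trichotomy ζ η with h | rfl | h
        · rw [res_st_lt (h.trans hη), res_pr_lt (h.trans hη), hz1 h, hz2 h]
          have := ha4.2 ζ
          rw [res_st_lt h, res_pr_lt h] at this
          rwa [bs_congr (r := z) (r' := q) rfl
            fun ζ' hζ' => ⟨hz1 (hζ'.trans h), hz2 (hζ'.trans h)⟩]
        · rw [res_st_lt hη, res_pr_lt hη, hz3, hz4, hbz]
          have h1 : a.st ζ = pre (w.2 ζ) (a.st ζ).length := (ha3.2 ζ hη).1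
          refine ⟨?_, ha1, fun R hR s m hs hl => ?_⟩
          · rw [h1]
            exact pre_prefix _ ha2
          · have hs1 : s ++ [m] = pre (w.2 ζ) (s ++ [m]).length := eq_pre_of_prefix hs
            have hs2 : s = pre (w.2 ζ) s.length ∧ m = w.2 ζ s.length := by
              rw [List.length_append, List.length_singleton, pre_succ] at hs1
              have h3 := List.append_inj hs1 (by simp)
              exact ⟨h3.1, by simpa using h3.2⟩
            have hsN : s.length < N := by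
              have := hs.length_le
              simp at this
              omega
            have h1 : w ∈ R (pre (w.2 ζ) s.length) (w.2 ζ s.length) :=
              (ha3.2 ζ hη).2 R hR s.length hl
            have h2 : q ≤ qf R s.length := hle _ (Or.inr ⟨⟨R, s.length⟩, ⟨ha1 R hR, hsN, h1⟩, rfl⟩)
            have h4 := (bs_le h2 ζ).trans (hqf2 R s.length (ha1 R hR) h1).2
            rwa [← hs2.1, ← hs2.2] at h4
        · rw [hz5 h, hz6 h]
          by_cases h' : ζ < ξ
          · obtain ⟨h1, h2⟩ := notMem_supp (ha5 ζ h h')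
            rw [res_st_lt h', res_pr_lt h', h1, h2]
            exact ⟨List.prefix_refl _, Finset.Subset.refl _,
              fun R hR => absurd hR (Finset.notMem_empty R)⟩
          · rw [res_st_ge (not_lt.1 h'), res_pr_ge (not_lt.1 h')]
            exact ⟨List.prefix_refl _, Finset.Subset.refl _,
              fun R hR => absurd hR (Finset.notMem_empty R)⟩
      refine ⟨z, ⟨fun ζ R hR => ?_, fun ζ hζ => ⟨hz5 (hη.trans_le hζ), hz6 (hη.trans_le hζ)⟩⟩,
        ?_, ?_, hwq.1, ?_⟩
      · rcases lt_trichotomy ζ η with h | rfl | h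
        · rw [hz2 h] at hR; exact hq.1 ζ R hR
        · rw [hz4] at hR
          rcases Finset.mem_union.1 hR with h | h
          · exact hr _ R h
          · exact hr' _ R h
        · rw [hz6 h] at hR; exact absurd hR (Finset.notMem_empty R)
      · exact hgen r (fun R hR => Finset.mem_union_left _ hR) (le_max_left _ _) hw hq1
          fun ζ h1 h2 h3 => absurd (hmax ζ (Or.inl h3) h2) (not_le.2 h1)
      · exact hgen r' (fun R hR => Finset.mem_union_right _ hR) (le_max_right _ _) hw' hq2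
          fun ζ h1 h2 h3 => absurd (hmax ζ (Or.inr h3) h2) (not_le.2 h1)
      · intro ζ hζ
        rcases lt_trichotomy ζ η with h | rfl | h
        · rw [hz1 h, hz2 h]; exact hwq.2 ζ h
        · rw [hz3, hz4]
          refine ⟨by simp, fun R hR n hn => ?_⟩
          rw [length_pre] at hn
          rcases Finset.mem_union.1 hR with h | h
          · exact (hw.2 ζ hζ).2 R h n ((le_max_left _ _).trans hn)
          · exact (hw'.2 ζ hζ).2 R h n ((le_max_right _ _).trans hn)
        · rw [hz5 h, hz6 h]; simp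

/-! ## Extending stems -/

open Classical in
/-- append `m` to the stem at `η` -/
noncomputable def push (r : Rep K J) (η : J) (m : ℕ) : Rep K J where
  c := r.c
  st := Function.update r.st η (r.st η ++ [m])
  pr := r.pr
  finc := r.finc
  fin := by
    refine (r.fin.union (Set.finite_singleton η)).subset fun ζ hζ => ?_
    by_cases h : ζ = η
    · right; exact h
    · left; simpa [Function.update_of_ne h] using hζ

theorem push_st_self (r : Rep K J) (η : J) (m : ℕ) : (push r η m).st η = r.st η ++ [m] := by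
  simp [push]

theorem push_st_ne (r : Rep K J) {η ζ : J} (m : ℕ) (h : ζ ≠ η) : (push r η m).st ζ = r.st ζ := by
  simp [push, Function.update_of_ne h]

theorem push_pr (r : Rep K J) (η : J) (m : ℕ) : (push r η m).pr = r.pr := rfl

@[simp] theorem push_c (r : Rep K J) (η : J) (m : ℕ) : (push r η m).c = r.c := rfl

theorem bs_push (r : Rep K J) {η ξ : J} (m : ℕ) (h : ξ ≤ η) : bs (push r η m) ξ = bs r ξ :=
  bs_congr rfl fun _ hζ => ⟨push_st_ne r m (hζ.trans_le h).ne, rfl⟩

theorem push_le {r : Rep K J} {η : J} {m : ℕ}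
    (h : ∀ R ∈ r.pr η, bs r η ⊆ R (r.st η) m) : push r η m ≤ r :=
  ⟨fun _ => List.prefix_refl _, fun ζ => by
  by_cases hζ : ζ = η
  · subst hζ
    rw [push_st_self, push_pr, bs_push r m le_rfl]
    refine ⟨List.prefix_append _ _, Finset.Subset.refl _, fun R hR s i hs hl => ?_⟩
    have h1 := hs.length_le
    simp only [List.length_append, List.length_cons, List.length_nil, Nat.zero_add] at h1
    have h2 : s.length = (r.st ζ).length := by omega
    have h3 := List.append_inj (hs.eq_of_length (by simp [h2])) h2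
    have h4 : i = m := by simpa using h3.2
    rw [h3.1, h4]
    exact h R hR
  · rw [push_st_ne r m hζ, push_pr]
    exact ⟨List.prefix_refl _, Finset.Subset.refl _, fun _ _ _ _ h h' => (no_new h h').elim⟩⟩

theorem push_mem {RR : J → Set (Pr K J)} {r : Rep K J} {τ η : J} (hr : r ∈ Vd RR τ) (hη : η < τ)
    (m : ℕ) : push r η m ∈ Vd RR τ :=
  ⟨hr.1, fun ζ hζ => ⟨by rw [push_st_ne r m (hη.trans_le hζ).ne']; exact (hr.2 ζ hζ).1,
    (hr.2 ζ hζ).2⟩⟩

theorem exists_longer {RR : J → Set (Pr K J)} {τ : J} (hG : ∀ ζ < τ, Good RR ζ) {r : Rep K J}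
    {η : J} (hr : r ∈ Vd RR τ) (hη : η < τ) :
    ∃ r' ∈ Vd RR τ, r' ≤ r ∧ (r'.st η).length = (r.st η).length + 1 := by
  obtain ⟨q, hq, hle, m, _, hm⟩ := (hG η hη).amal (r.pr η) (hr.1 η) (r.st η) (res r η)
    (res_mem hr.1 η) 0
  refine ⟨push (glue q r η) η m, push_mem (glue_mem hq hr hη.le) hη m, ?_, ?_⟩
  · refine le_trans (push_le fun R hR => ?_) (glue_le hle)
    rw [glue_pr_ge le_rfl] at hR
    rw [glue_st_ge le_rfl, bs_glue le_rfl]
    exact hm R hR
  · rw [push_st_self, glue_st_ge le_rfl]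
    simp

theorem length_mono {r r' : Rep K J} (h : r' ≤ r) (η : J) :
    (r.st η).length ≤ (r'.st η).length := (le_st h η).length_le

theorem exists_long {RR : J → Set (Pr K J)} {τ : J} (hG : ∀ ζ < τ, Good RR ζ) {r : Rep K J}
    {η : J} (hr : r ∈ Vd RR τ) (hη : η < τ) (N : ℕ) :
    ∃ r' ∈ Vd RR τ, r' ≤ r ∧ N ≤ (r'.st η).length := by
  induction N with
  | zero => exact ⟨r, hr, le_rfl, Nat.zero_le _⟩
  | succ N ih =>
    obtain ⟨r', h1, h2, h3⟩ := ih
    obtain ⟨r'', h4, h5, h6⟩ := exists_longer hG h1 hη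
    exact ⟨r'', h4, h5.trans h2, by omega⟩

theorem exists_long_all {RR : J → Set (Pr K J)} {τ : J} (hG : ∀ ζ < τ, Good RR ζ) {r : Rep K J}
    (hr : r ∈ Vd RR τ) (N : ℕ) :
    ∃ r' ∈ Vd RR τ, r' ≤ r ∧ ∀ η ∈ supp r, N ≤ (r'.st η).length := by
  have key : ∀ S : Set J, S.Finite → (∀ η ∈ S, η < τ) →
      ∃ r' ∈ Vd RR τ, r' ≤ r ∧ ∀ η ∈ S, N ≤ (r'.st η).length := by
    intro S hS
    induction S, hS using Set.Finite.induction_on with
    | empty => intro _; exact ⟨r, hr, le_rfl, by simp⟩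
    | @insert a S _ _ ih =>
      intro h
      obtain ⟨r', h1, h2, h3⟩ := ih fun η hη => h η (Set.mem_insert_of_mem a hη)
      obtain ⟨r'', h4, h5, h6⟩ := exists_long hG h1 (h a (Set.mem_insert a S)) N
      refine ⟨r'', h4, h5.trans h2, fun η hη => ?_⟩
      rcases Set.mem_insert_iff.1 hη with rfl | hη
      · exact h6
      · exact (h3 η hη).trans (length_mono h5 η)
  refine key (supp r) r.fin fun η hη => ?_
  by_contra h
  obtain ⟨h1, h2⟩ := hr.2 η (not_lt.1 h)
  rcases hη with h | h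
  · exact h h1
  · exact h h2

theorem supp_mono {r r' : Rep K J} (h : r' ≤ r) : supp r ⊆ supp r' := by
  intro η hη
  by_contra h'
  obtain ⟨h1, h2⟩ := notMem_supp h'
  obtain ⟨h3, h4, _⟩ := h.2 η
  rw [h1, List.prefix_nil] at h3
  rw [h2, Finset.subset_empty] at h4
  rcases hη with h | h
  · exact h h3
  · exact h h4

/-- a decreasing sequence of conditions with growing stems has a common point -/
theorem exists_limit (r : ℕ → Rep K J) (hr : ∀ n, r (n + 1) ≤ r n)
    (hgrow : ∀ n, ∀ η ∈ supp (r n), n ≤ ((r (n + 1)).st η).length) :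
    ∃ w : Om K J, ∀ ξ n, w ∈ bs (r n) ξ := by
  classical
  have hanti : ∀ {m n}, m ≤ n → r n ≤ r m := by
    intro m n h
    induction n, h using Nat.le_induction with
    | base => exact le_rfl
    | succ n _ ih => exact (hr n).trans ih
  have hgrow' : ∀ n, ∀ η ∈ supp (r n), ∀ N, ∃ m, N < ((r m).st η).length := by
    intro n η hη N
    refine ⟨max n (N + 1) + 1, ?_⟩
    have := hgrow (max n (N + 1)) η (supp_mono (hanti (le_max_left _ _)) hη)
    have h2 : N + 1 ≤ max n (N + 1) := le_max_right _ _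
    omega
  have hf : ∀ a : K, ∃ g : ℕ → Set.Iic a, ∀ n, (r n).c a = pre g ((r n).c a).length := by
    intro a
    have : Nonempty (Set.Iic a) := ⟨⟨a, Set.mem_Iic.2 le_rfl⟩⟩
    exact exists_common (fun n => (r n).c a) fun n => le_c (hr n) a
  choose f hf using hf
  have hg : ∀ η : J, ∃ g : ℕ → ℕ, ∀ n, (r n).st η = pre g ((r n).st η).length :=
    fun η => exists_common (fun n => (r n).st η) fun n => le_st (hr n) η
  choose g hg using hg
  refine ⟨(f, g), fun ξ => ?_⟩
  induction ξ using WellFoundedLT.induction with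
  | ind ξ IH =>
    intro n
    refine ⟨fun a => hf a n, fun η hη => ⟨hg η n, fun R hR i hi => ?_⟩⟩
    have hsupp : η ∈ supp (r n) := by
      right
      intro h
      rw [h] at hR
      exact absurd hR (Finset.notMem_empty R)
    obtain ⟨m, hm⟩ := hgrow' n η hsupp i
    have hm' : i < ((r (max m n)).st η).length :=
      hm.trans_le (length_mono (hanti (le_max_left _ _)) η)
    refine le_new (hanti (le_max_right m n)) hR ?_ (by simpa using hi) (IH η hη _)
    show pre (g η) i ++ [g η i] <+: _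
    rw [← pre_succ, hg η (max m n)]
    exact pre_prefix _ hm'

theorem bs_nonempty {RR : J → Set (Pr K J)} {τ : J} (hG : ∀ ζ < τ, Good RR ζ) {r : Rep K J}
    (hr : r ∈ Vd RR τ) : ∃ w : Om K J, ∀ ξ, w ∈ bs r ξ := by
  choose! f hf1 hf2 hf3 using fun (r : Rep K J) (N : ℕ) (h : r ∈ Vd RR τ) =>
    exists_long_all hG h N
  let s : ℕ → Rep K J := fun n => Nat.rec r (fun n q => f q n) n
  have hs : ∀ n, s n ∈ Vd RR τ := by
    intro n
    induction n with
    | zero => exact hr
    | succ n ih => exact hf1 (s n) n ih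
  obtain ⟨w, hw⟩ := exists_limit s (fun n => hf2 (s n) n (hs n)) fun n => hf3 (s n) n (hs n)
  exact ⟨w, fun ξ => hw ξ 0⟩

/-- two conditions are compatible as soon as some point obeys both -/
theorem compat_of_point {RR : J → Set (Pr K J)} {τ : J} (hG : ∀ ζ < τ, Good RR ζ) {r r' : Rep K J}
    (hr : r ∈ Vd RR τ) (hr' : r' ∈ Vd RR τ) {w : Om K J} (hw : w ∈ bs r τ) (hw' : w ∈ bs r' τ) :
    ∃ q ∈ Vd RR τ, q ≤ r ∧ q ≤ r' ∧ w ∈ bs q τ := by
  obtain ⟨q, h1, h2, h3, h4⟩ := inter_point w τ hG r r' hr.1 hr'.1 hw hw'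
  rw [res_eq_self hr.2] at h2
  rw [res_eq_self hr'.2] at h3
  exact ⟨q, h1, h2, h3, h4⟩

/-- two conditions with matching stems are compatible -/
theorem compat_of_stems {RR : J → Set (Pr K J)} {r r' : Rep K J} {τ : J}
    (hr : r ∈ Vd RR τ) (hr' : r' ∈ Vd RR τ)
    (hc : ∀ a, r.c a ≠ [] → r'.c a ≠ [] → r.c a = r'.c a)
    (h : ∀ η ∈ supp r, η ∈ supp r' → r.st η = r'.st η) :
    ∃ q ∈ Vd RR τ, q ≤ r ∧ q ≤ r' := by
  classical
  let z : Rep K J :=
    { c := fun a => if r.c a = [] then r'.c a else r.c a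
      st := fun η => if η ∈ supp r then r.st η else r'.st η
      pr := fun η => r.pr η ∪ r'.pr η
      finc := by
        refine (r.finc.union r'.finc).subset fun a ha => ?_
        by_contra h'
        simp only [Set.mem_union, Set.mem_ofPred_eq, not_or, not_not] at h'
        simp [h'.1, h'.2] at ha
      fin := by
        refine (r.fin.union r'.fin).subset fun η hη => ?_
        by_contra h'
        rw [Set.mem_union, not_or] at h'
        obtain ⟨h1, h2⟩ := notMem_supp (r := r) h'.1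
        obtain ⟨h3, h4⟩ := notMem_supp (r := r') h'.2
        simp [h1, h2, h3, h4] at hη }
  refine ⟨z, ⟨fun η R hR => ?_, fun η hη => ?_⟩, ⟨fun a => ?_, fun η => ?_⟩,
    ⟨fun a => ?_, fun η => ?_⟩⟩
  · rcases Finset.mem_union.1 hR with h | h
    · exact hr.1 η R h
    · exact hr'.1 η R h
  · obtain ⟨h1, h2⟩ := hr.2 η hη
    obtain ⟨h3, h4⟩ := hr'.2 η hη
    simp [z, h1, h2, h3, h4]
  · by_cases h1 : r.c a = []
    · rw [h1]; exact List.nil_prefix
    · have : z.c a = r.c a := if_neg h1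
      rw [this]
  · by_cases h1 : η ∈ supp r
    · have : z.st η = r.st η := if_pos h1
      rw [this]
      exact ⟨List.prefix_refl _, Finset.subset_union_left,
        fun _ _ _ _ h h' => (no_new h h').elim⟩
    · obtain ⟨h2, h3⟩ := notMem_supp h1
      rw [h2, h3]
      exact ⟨List.nil_prefix, Finset.empty_subset _, fun R hR => absurd hR (Finset.notMem_empty R)⟩
  · by_cases h1 : r.c a = []
    · have : z.c a = r'.c a := if_pos h1
      rw [this]
    · have h3 : z.c a = r.c a := if_neg h1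
      by_cases h2 : r'.c a = []
      · rw [h2]; exact List.nil_prefix
      · rw [h3, hc a h1 h2]
  · by_cases h1 : η ∈ supp r'
    · have : z.st η = r'.st η := by
        by_cases h2 : η ∈ supp r
        · have : z.st η = r.st η := if_pos h2
          rw [this, h η h2 h1]
        · exact if_neg h2
      rw [this]
      exact ⟨List.prefix_refl _, Finset.subset_union_right,
        fun _ _ _ _ h h' => (no_new h h').elim⟩
    · obtain ⟨h2, h3⟩ := notMem_supp h1
      rw [h2, h3]
      exact ⟨List.nil_prefix, Finset.empty_subset _, fun R hR => absurd hR (Finset.notMem_empty R)⟩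

end Pool.Agent.Helper539.SGIter
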