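import Mathlib
import Pool.Agent.Helper539.SGIter
import Pool.Agent.Helper539.SGCount
import Pool.Agent.Helper539.SGDelta

/-!
# One step of the iteration: names, sparse sequences, admissible promises
-/

namespace Pool.Agent.Helper539.SGStep

universe u

set_option linter.unusedSectionVars false

open Pool.Agent.Helper539.SGIter Pool.Agent.Helper539.SGDelta
open Pool.Agent.Helper539.SGCount

set_option linter.unusedSectionVars false

variable {K : Type u} [LinearOrder K] [OrderBot K] [Reg K]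
  {J : Type u} [LinearOrder J]

/-- `q` forces that the set named by `Y` is infinite -/
def Inf (B : Set (Rep K J)) (ξ : J) (Y : ℕ → Set (Om K J)) (q : Rep K J) : Prop :=
  ∀ q' ∈ B, q' ≤ q → ∀ N : ℕ, ∃ q'' ∈ B, q'' ≤ q' ∧ ∃ n, N ≤ n ∧ bs q'' ξ ⊆ Y n

/-- the set `S_a` (for `s = true`) of the zeros of the generic map `ℕ → [0, a]`, or its
complement (for `s = false`) -/
def Ss (a : K) (s : Bool) (m : ℕ) : Set (Om K J) := {w | ((w.1 a m : K) = ⊥) ↔ s = true}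

/-- finite intersections of the sets named by `G` -/
def GG (G : K → ℕ → Set (Om K J)) (u : Finset K) (n : ℕ) : Set (Om K J) :=
  {w | ∀ d ∈ u, w ∈ G d n}

/-- the name of the set of all `n` in the finite intersection given by `u` such that
`(n, m)` is in the set named by `x` for some `m` in (or outside) `S_b` -/
def Kx (G : K → ℕ → Set (Om K J)) (x : ℕ → ℕ → Set (Om K J)) (b : K) (s : Bool) (u : Finset K)
    (n : ℕ) : Set (Om K J) :=
  {w | (∃ m, w ∈ x n m ∧ w ∈ Ss b s m) ∧ w ∈ GG G u n}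

/-- every infinite set is hit by all but fewer than `κ` many `E i` -/
def HT (B : Set (Rep K J)) (ξ : J) (E : K → ℕ → Set (Om K J)) : Prop :=
  (∀ i n, Op B ξ (E i n)) ∧ ∀ Y : ℕ → Set (Om K J), (∀ n, Op B ξ (Y n)) → ∃ β : K, ∀ i, β ≤ i →
    ∀ q ∈ B, Inf B ξ Y q → Inf B ξ (fun n => Y n ∩ E i n) q

/-- the sequence `G` is sparse -/
structure Sparse (B : Set (Rep K J)) (ξ : J) (G : K → ℕ → Set (Om K J)) : Prop where
  op : ∀ d n, Op B ξ (G d n)
  fi : ∀ u : Finset K, ∀ q ∈ B, Inf B ξ (GG G u) q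
  sp : ∀ x : ℕ → ℕ → Set (Om K J), (∀ n m, Op B ξ (x n m)) → ∃ g : K, ∀ d, g ≤ d → ∀ b ≤ d,
    ∀ s : Bool, ∀ u : Finset K, (∀ e ∈ u, e < d) → ∀ q ∈ B, Inf B ξ (Kx G x b s u) q →
      Inf B ξ (Kx G x b s (insert d u)) q

/-- small names of pairs `(u, N)` -/
def PhiOk (B : Set (Rep K J)) (φ : List ℕ → Set (Rep K J × Finset K × ℕ)) : Prop :=
  ∀ s, (∀ x ∈ φ s, x.1 ∈ B) ∧ Sm K (φ s) ∧
    ∀ q ∈ B, ∃ x ∈ φ s, ∃ q' ∈ B, q' ≤ q ∧ q' ≤ x.1

/-- the promise given by such names: at the node `s` only elements `m ≥ N` of the finite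
intersection given by `u` are allowed -/
def Rp (ξ : J) (G : K → ℕ → Set (Om K J)) (φ : List ℕ → Set (Rep K J × Finset K × ℕ)) : Pr K J :=
  fun s m => {w | ∃ x ∈ φ s, w ∈ bs x.1 ξ ∧ x.2.2 ≤ m ∧ w ∈ GG G x.2.1 m}

open Classical in
/-- the given sequence, if it is legal -/
noncomputable def Ev (B : Set (Rep K J)) (ξ : J) (E : K → ℕ → Set (Om K J)) :
    K → ℕ → Set (Om K J) :=
  if HT B ξ E then E else fun _ _ => Set.univ

open Classical in
/-- the chosen indices -/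
noncomputable def ix (B : Set (Rep K J)) (ξ : J) (E : K → ℕ → Set (Om K J)) : K → K :=
  if h : ∃ i : K → K, StrictMono i ∧ Sparse B ξ (fun d => Ev B ξ E (i d)) then h.choose else id

/-- the chosen sparse sequence -/
noncomputable def Gv (B : Set (Rep K J)) (ξ : J) (E : K → ℕ → Set (Om K J)) :
    K → ℕ → Set (Om K J) := fun d => Ev B ξ E (ix B ξ E d)

/-- the admissible promises at stage `ξ` -/
def RStep (B : Set (Rep K J)) (ξ : J) (E : K → ℕ → Set (Om K J)) : Set (Pr K J) :=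
  {R | ∃ φ, PhiOk B φ ∧ R = Rp ξ (Gv B ξ E) φ}

variable [WellFoundedLT J]

/-- the admissible promises, by recursion; `𝔸 ξ` is the sequence of names given for stage `ξ` -/
noncomputable def RR (𝔸 : J → K → ℕ → Set (Om K J)) : J → Set (Pr K J) :=
  WellFoundedLT.fix (motive := fun _ : J => Set (Pr K J)) fun ξ f =>
    RStep {r | (∀ η, ∀ h : η < ξ, ∀ R ∈ r.pr η, R ∈ f η h) ∧ Below r ξ} ξ (𝔸 ξ)

theorem RR_eq (𝔸 : J → K → ℕ → Set (Om K J)) (ξ : J) :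
    RR 𝔸 ξ = RStep (Vd (RR 𝔸) ξ) ξ (𝔸 ξ) := by
  rw [RR, WellFoundedLT.fix_eq]
  congr 1
  ext r
  constructor
  · rintro ⟨h1, h2⟩
    refine ⟨fun η R hR => ?_, h2⟩
    by_cases hη : η < ξ
    · exact h1 η hη R hR
    · rw [(h2 η (not_lt.1 hη)).2] at hR
      exact absurd hR (Finset.notMem_empty R)
  · rintro ⟨h1, h2⟩
    exact ⟨fun η _ R hR => h1 η R hR, h2⟩

/-- the conditions below `ξ` -/
abbrev BB (𝔸 : J → K → ℕ → Set (Om K J)) (ξ : J) : Set (Rep K J) := Vd (RR 𝔸) ξ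

/-- the sparse sequence at stage `ξ` -/
noncomputable abbrev GA (𝔸 : J → K → ℕ → Set (Om K J)) (ξ : J) : K → ℕ → Set (Om K J) :=
  Gv (BB 𝔸 ξ) ξ (𝔸 ξ)

theorem mem_RR {𝔸 : J → K → ℕ → Set (Om K J)} {ξ : J} {R : Pr K J} :
    R ∈ RR 𝔸 ξ ↔ ∃ φ, PhiOk (BB 𝔸 ξ) φ ∧ R = Rp ξ (GA 𝔸 ξ) φ := by
  rw [RR_eq]
  rfl

/-! ### Open sets -/

theorem Op_bs {B : Set (Rep K J)} {ξ : J} {q : Rep K J} (hq : q ∈ B) : Op B ξ (bs q ξ) :=
  fun _ hw => ⟨q, hq, hw, subset_rfl⟩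

theorem Op_iUnion {B : Set (Rep K J)} {ξ : J} {ι : Sort*} {U : ι → Set (Om K J)}
    (h : ∀ i, Op B ξ (U i)) : Op B ξ (⋃ i, U i) := by
  intro w hw
  obtain ⟨i, hi⟩ := Set.mem_iUnion.1 hw
  obtain ⟨q, hq, h1, h2⟩ := h i w hi
  exact ⟨q, hq, h1, h2.trans (Set.subset_iUnion U i)⟩

/-- a condition deciding the generic function `ℕ → [0,a]` up to `m` -/
theorem exists_base_point (RR' : J → Set (Pr K J)) (ξ : J) (w : Om K J) (a : K) (m : ℕ) :
    ∃ q ∈ Vd RR' ξ, w ∈ bs q ξ ∧ ∀ v ∈ bs q ξ, v.1 a m = w.1 a m := by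
  classical
  let c : (b : K) → List (Set.Iic b) := fun b => if b = a then pre (w.1 b) (m + 1) else []
  have hc : {b | c b ≠ []}.Finite := by
    refine (Set.finite_singleton a).subset fun b hb => ?_
    by_contra h
    have : b ≠ a := h
    simp [c, this] at hb
  have hca : c a = pre (w.1 a) (m + 1) := by simp [c]
  refine ⟨SGIter.base c hc, ⟨fun _ _ hR => absurd hR (Finset.notMem_empty _),
    fun _ _ => ⟨rfl, rfl⟩⟩, ⟨fun b => ?_, fun η _ => by simp [SGIter.base]⟩, fun v hv => ?_⟩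
  · show c b = pre (w.1 b) (c b).length
    by_cases hb : b = a
    · subst hb
      rw [hca, length_pre]
    · have : c b = [] := by simp [c, hb]
      rw [this]; simp
  · have h1 : c a = pre (v.1 a) (c a).length := hv.1 a
    rw [hca, length_pre, pre_succ, pre_succ] at h1
    have h2 := List.append_inj h1 (by simp)
    have h3 : w.1 a m = v.1 a m := by simpa using h2.2
    exact h3.symm

theorem Op_Ss (RR' : J → Set (Pr K J)) (ξ : J) (a : K) (s : Bool) (m : ℕ) :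
    Op (Vd RR' ξ) ξ (Ss a s m) := by
  intro w hw
  obtain ⟨q, hq, h1, h2⟩ := exists_base_point RR' ξ w a m
  refine ⟨q, hq, h1, fun v hv => ?_⟩
  show ((v.1 a m : K) = ⊥) ↔ s = true
  rw [h2 v hv]
  exact hw

section

variable {RR' : J → Set (Pr K J)} {ξ : J}

theorem Op_univ : Op (Vd RR' ξ) ξ Set.univ := by
  intro w _
  obtain ⟨q, hq, h1, _⟩ := exists_base_point RR' ξ w ⊥ 0
  exact ⟨q, hq, h1, Set.subset_univ _⟩

theorem Op_inter (hG : ∀ ζ < ξ, Good RR' ζ) {U V : Set (Om K J)} (hU : Op (Vd RR' ξ) ξ U)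
    (hV : Op (Vd RR' ξ) ξ V) : Op (Vd RR' ξ) ξ (U ∩ V) := by
  rintro w ⟨hw1, hw2⟩
  obtain ⟨q, hq, h1, h2⟩ := hU w hw1
  obtain ⟨q', hq', h3, h4⟩ := hV w hw2
  obtain ⟨r, hr, h5, h6, h7⟩ := compat_of_point hG hq hq' h1 h3
  exact ⟨r, hr, h7, fun v hv => ⟨h2 (bs_le h5 ξ hv), h4 (bs_le h6 ξ hv)⟩⟩

theorem Op_GG (hG : ∀ ζ < ξ, Good RR' ζ) {G : K → ℕ → Set (Om K J)}
    (h : ∀ d n, Op (Vd RR' ξ) ξ (G d n)) (u : Finset K) (n : ℕ) :
    Op (Vd RR' ξ) ξ (GG G u n) := by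
  classical
  induction u using Finset.induction_on with
  | empty =>
    have : GG G (∅ : Finset K) n = Set.univ := by
      ext w; simp [GG]
    rw [this]
    exact Op_univ
  | insert d u _ ih =>
    have : GG G (insert d u) n = G d n ∩ GG G u n := by
      ext w; simp [GG]
    rw [this]
    exact Op_inter hG (h d n) ih

theorem Op_Kx (hG : ∀ ζ < ξ, Good RR' ζ) {G : K → ℕ → Set (Om K J)}
    (h : ∀ d n, Op (Vd RR' ξ) ξ (G d n)) {x : ℕ → ℕ → Set (Om K J)}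
    (hx : ∀ n m, Op (Vd RR' ξ) ξ (x n m)) (b : K) (s : Bool) (u : Finset K) (n : ℕ) :
    Op (Vd RR' ξ) ξ (Kx G x b s u n) := by
  have : Kx G x b s u n = (⋃ m, (x n m ∩ Ss b s m)) ∩ GG G u n := by
    ext w; simp [Kx]
  rw [this]
  exact Op_inter hG (Op_iUnion fun m => Op_inter hG (hx n m) (Op_Ss RR' ξ b s m)) (Op_GG hG h u n)

/-- inside an open set met by `bs q`, there is a stronger condition -/
theorem Op_exists_le (hG : ∀ ζ < ξ, Good RR' ζ) {U : Set (Om K J)} (hU : Op (Vd RR' ξ) ξ U)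
    {q : Rep K J} (hq : q ∈ Vd RR' ξ) {w : Om K J} (hw : w ∈ bs q ξ) (hwU : w ∈ U) :
    ∃ q' ∈ Vd RR' ξ, q' ≤ q ∧ w ∈ bs q' ξ ∧ bs q' ξ ⊆ U := by
  obtain ⟨r, hr, h1, h2⟩ := hU w hwU
  obtain ⟨q', hq', h3, h4, h5⟩ := compat_of_point hG hq hr hw h1
  exact ⟨q', hq', h3, h5, (bs_le h4 ξ).trans h2⟩

/-- if `bs q` is covered by open sets, some stronger condition lies in one of them -/
theorem exists_le_of_cover (hG : ∀ ζ < ξ, Good RR' ζ) {ι : Sort*} {U : ι → Set (Om K J)}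
    (hU : ∀ i, Op (Vd RR' ξ) ξ (U i)) {q : Rep K J} (hq : q ∈ Vd RR' ξ)
    (hsub : bs q ξ ⊆ ⋃ i, U i) : ∃ i, ∃ q' ∈ Vd RR' ξ, q' ≤ q ∧ bs q' ξ ⊆ U i := by
  obtain ⟨w, hw⟩ := bs_nonempty hG hq
  obtain ⟨i, hi⟩ := Set.mem_iUnion.1 (hsub (hw ξ))
  obtain ⟨q', hq', h1, _, h2⟩ := Op_exists_le hG (hU i) hq (hw ξ) hi
  exact ⟨i, q', hq', h1, h2⟩

end

/-! ### Infinite sets -/

section

variable {B : Set (Rep K J)} {ξ : J}

theorem Inf.mono_q {Y : ℕ → Set (Om K J)} {q q' : Rep K J} (h : Inf B ξ Y q) (hq : q' ≤ q) :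
    Inf B ξ Y q' := fun r hr hle => h r hr (hle.trans hq)

theorem Inf.dense {Y Y' : ℕ → Set (Om K J)} {q : Rep K J} (h : Inf B ξ Y q)
    (hd : ∀ n, ∀ r ∈ B, r ≤ q → bs r ξ ⊆ Y n → ∃ r' ∈ B, r' ≤ r ∧ bs r' ξ ⊆ Y' n) :
    Inf B ξ Y' q := by
  intro q' hq' hle N
  obtain ⟨r, hr, h1, n, hn, h2⟩ := h q' hq' hle N
  obtain ⟨r', hr', h3, h4⟩ := hd n r hr (h1.trans hle) h2
  exact ⟨r', hr', h3.trans h1, n, hn, h4⟩

theorem Inf.mono {Y Y' : ℕ → Set (Om K J)} {q : Rep K J} (h : Inf B ξ Y q)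
    (hd : ∀ n, Y n ⊆ Y' n) : Inf B ξ Y' q :=
  h.dense fun n r hr _ h2 => ⟨r, hr, le_rfl, h2.trans (hd n)⟩

end

/-! ### The chain condition -/

section

variable {RR' : J → Set (Pr K J)} {ξ : J}

/-- compatibility below `ξ` -/
def Cpt (B : Set (Rep K J)) (p q : Rep K J) : Prop := ∃ r ∈ B, r ≤ p ∧ r ≤ q

/-- among more than small many conditions there are two compatible ones -/
theorem exists_cpt {Y : Type u} (hY : ¬ Sm K Y) (f : Y → Rep K J)
    (hf : ∀ y, f y ∈ Vd RR' ξ) : ∃ y y', y ≠ y' ∧ Cpt (Vd RR' ξ) (f y) (f y') := by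
  classical
  let V : K ⊕ J → Type u := fun i => match i with
    | Sum.inl a => List (Set.Iic a)
    | Sum.inr _ => ULift.{u} (List ℕ)
  have hlist : ∀ (α : Type u), Sm K α → Sm K (List α) := by
    intro α hα
    exact sm_list
  have hV : ∀ i, Sm K (V i) := by
    rintro (a | η)
    · exact hlist _ (sm_Iic a)
    · exact sm_lift _
  obtain ⟨y, y', hne, h⟩ := exists_agree (I := K ⊕ J) (V := V) hV
    (fun y => Sum.inl '' {a | (f y).c a ≠ []} ∪ Sum.inr '' supp (f y))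
    (fun y => ((f y).finc.image _).union ((f y).fin.image _))
    (fun y i => match i with
      | Sum.inl a => (f y).c a
      | Sum.inr η => ULift.up ((f y).st η)) hY
  refine ⟨y, y', hne, compat_of_stems (hf y) (hf y') (fun a h1 h2 => ?_) fun η h1 h2 => ?_⟩
  · exact h (Sum.inl a) (Or.inl ⟨a, h1, rfl⟩) (Or.inl ⟨a, h2, rfl⟩)
  · have := h (Sum.inr η) (Or.inr ⟨η, h1, rfl⟩) (Or.inr ⟨η, h2, rfl⟩)
    exact congrArg ULift.down this

/-- Inside every set `D` of conditions there is a small antichain compatible with all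
elements of `D`. -/
theorem exists_antichain (D : Set (Rep K J)) (hD : D ⊆ Vd RR' ξ) :
    ∃ A ⊆ D, Sm K A ∧ (∀ p ∈ D, ∃ a ∈ A, Cpt (Vd RR' ξ) a p) := by
  obtain ⟨A, hA⟩ := zorn_subset
    {A : Set (Rep K J) | A ⊆ D ∧ ∀ a ∈ A, ∀ b ∈ A, Cpt (Vd RR' ξ) a b → a = b} (by
      intro c hc hchain
      refine ⟨⋃₀ c, ⟨Set.sUnion_subset fun s hs => (hc hs).1, ?_⟩,
        fun s hs => Set.subset_sUnion_of_mem hs⟩
      rintro a ⟨s, hs, ha⟩ b ⟨t, ht, hb⟩ hab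
      rcases hchain.total hs ht with h | h
      · exact (hc ht).2 a (h ha) b hb hab
      · exact (hc hs).2 a ha b (h hb) hab)
  refine ⟨A, hA.prop.1, ?_, fun p hp => ?_⟩
  · by_contra hsm
    obtain ⟨y, y', hne, h⟩ := exists_cpt (RR' := RR') (ξ := ξ) hsm (fun a : A => a.1)
      fun a => hD (hA.prop.1 a.2)
    exact hne (Subtype.ext (hA.prop.2 y.1 y.2 y'.1 y'.2 h))
  · by_contra hcon
    push Not at hcon
    have hp' : p ∉ A := fun h => hcon p h ⟨p, hD hp, le_rfl, le_rfl⟩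
    have hmem : insert p A ∈
        {A : Set (Rep K J) | A ⊆ D ∧ ∀ a ∈ A, ∀ b ∈ A, Cpt (Vd RR' ξ) a b → a = b} := by
      refine ⟨Set.insert_subset hp hA.prop.1, ?_⟩
      rintro a (rfl | ha) b (rfl | hb) hab
      · rfl
      · obtain ⟨s, h0, h1, h2⟩ := hab
        exact absurd ⟨s, h0, h2, h1⟩ (hcon b hb)
      · exact absurd hab (hcon a ha)
      · exact hA.prop.2 a ha b hb hab
    exact hp' (hA.le_of_ge hmem (Set.subset_insert p A) (Set.mem_insert p A))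

/-- every open set is equivalent to a small one -/
theorem exists_small_open (U : Set (Om K J)) : ∃ A : Set (Rep K J), A ⊆ Vd RR' ξ ∧ Sm K A ∧
    (∀ a ∈ A, bs a ξ ⊆ U) ∧ ∀ q ∈ Vd RR' ξ, bs q ξ ⊆ U →
      ∃ q' ∈ Vd RR' ξ, q' ≤ q ∧ ∃ a ∈ A, q' ≤ a := by
  obtain ⟨A, h1, h2, h3⟩ := exists_antichain (RR' := RR') (ξ := ξ)
    {q | q ∈ Vd RR' ξ ∧ bs q ξ ⊆ U} fun q hq => hq.1
  refine ⟨A, fun a ha => (h1 ha).1, h2, fun a ha => (h1 ha).2, fun q hq hU => ?_⟩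
  obtain ⟨a, ha, r, hr, h4, h5⟩ := h3 q ⟨hq, hU⟩
  exact ⟨r, hr, h5, a, ha, h4⟩

end

end Pool.Agent.Helper539.SGStep
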