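import Mathlib
import Pool.Agent.Helper539.SGStep

/-!
# Finitely many promises reduce to one pair
-/

namespace Pool.Agent.Helper539.SGReduce

universe u

set_option linter.unusedSectionVars false

open Pool.Agent.Helper539.SGIter Pool.Agent.Helper539.SGDelta Pool.Agent.Helper539.SGStep
open Pool.Agent.Helper539.SGCount

variable {K : Type u} [LinearOrder K] [OrderBot K] [Reg K]
  {J : Type u} [LinearOrder J] [WellFoundedLT J]

/-- finitely many admissible promises reduce to one pair `(u, N)` -/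
theorem reduce {𝔸 : J → K → ℕ → Set (Om K J)} {ξ : J} (F : Finset (Pr K J)) :
    (∀ R ∈ F, R ∈ RR 𝔸 ξ) → ∀ s, ∀ q ∈ BB 𝔸 ξ,
    ∃ q' ∈ BB 𝔸 ξ, q' ≤ q ∧ ∃ u : Finset K, ∃ N : ℕ, ∀ R ∈ F, ∀ m, N ≤ m →
      bs q' ξ ∩ GG (GA 𝔸 ξ) u m ⊆ R s m := by
  classical
  induction F using Finset.induction_on with
  | empty => exact fun _ s q hq => ⟨q, hq, le_rfl, ∅, 0, by simp⟩
  | insert R F _ ih =>
    intro hF s q hq
    obtain ⟨q1, hq1, hle1, u1, N1, h1⟩ := ih (fun R' hR' => hF R' (Finset.mem_insert_of_mem hR'))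
      s q hq
    obtain ⟨φ, hφ, rfl⟩ := mem_RR.1 (hF R (Finset.mem_insert_self _ _))
    obtain ⟨_, _, h2⟩ := hφ s
    obtain ⟨x, hx, q2, hq2, h3, h4⟩ := h2 q1 hq1
    refine ⟨q2, hq2, h3.trans hle1, u1 ∪ x.2.1, max N1 x.2.2, fun R' hR' m hm w hw => ?_⟩
    have hGG : ∀ v : Finset K, v ⊆ u1 ∪ x.2.1 → w ∈ GG (GA 𝔸 ξ) v m :=
      fun v hv d hd => hw.2 d (hv hd)
    rcases Finset.mem_insert.1 hR' with rfl | hR'
    · exact ⟨x, hx, bs_le h4 ξ hw.1, (le_max_right _ _).trans hm,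
        hGG _ Finset.subset_union_right⟩
    · exact h1 R' hR' m ((le_max_left _ _).trans hm)
        ⟨bs_le h3 ξ hw.1, hGG _ Finset.subset_union_left⟩

end Pool.Agent.Helper539.SGReduce
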