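import Mathlib
import Pool.Agent.Helper539.SGReduce

/-!
# The preservation property
-/

namespace Pool.Agent.Helper539.SGStar

universe u

set_option linter.unusedSectionVars false

open Pool.Agent.Helper539.SGIter Pool.Agent.Helper539.SGDelta Pool.Agent.Helper539.SGStep
open Pool.Agent.Helper539.SGCount

variable {K : Type u} [LinearOrder K] [OrderBot K] [Reg K]
  {J : Type u} [LinearOrder J] [WellFoundedLT J]

/-- `a` is closed under `h` -/
def Closed (h : K → K) (a : K) : Prop := ⊥ < a ∧ ∀ b < a, h b < a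

/-- For every name of an infinite set there is `h : κ → κ` such that the set is split by `S_a`
for all `a` closed under `h`. -/
def Star (𝔸 : J → K → ℕ → Set (Om K J)) (ξ : J) : Prop :=
  ∀ Y : ℕ → Set (Om K J), (∀ n, Op (BB 𝔸 ξ) ξ (Y n)) → ∃ h : K → K, ∀ a, Closed h a →
    ∀ q ∈ BB 𝔸 ξ, Inf (BB 𝔸 ξ) ξ Y q → ∀ s, Inf (BB 𝔸 ξ) ξ (fun n => Y n ∩ Ss a s n) q

end Pool.Agent.Helper539.SGStar
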