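import Mathlib
import Pool.Agent.Helper539.SGMx

/-!
# The successor step: infinitely many values
-/

namespace Pool.Agent.Helper539.SGInfMu

universe u

set_option linter.unusedSectionVars false

open Pool.Agent.Helper539.SGIter Pool.Agent.Helper539.SGDelta Pool.Agent.Helper539.SGStep
open Pool.Agent.Helper539.SGStar Pool.Agent.Helper539.SGMk Pool.Agent.Helper539.SGMx
open Pool.Agent.Helper539.SGReduce
open Pool.Agent.Helper539.SGCount

variable {K : Type u} [LinearOrder K] [OrderBot K] [Reg K]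
  {J : Type u} [LinearOrder J] [WellFoundedLT J]

variable {𝔸 : J → K → ℕ → Set (Om K J)} {η ξ : J} {X : ℕ → Set (Om K J)}

/-- the image of the function giving the least favoured number is infinite -/
theorem inf_Mu (h : IsSuc η ξ) (hG : ∀ ζ, Good (RR 𝔸) ζ) {k : ℕ} {q : Rep K J} {t : List ℕ}
    (hq : q ∈ BB 𝔸 η) (hno : NoFav 𝔸 η ξ X k q t) (hpos : Pos 𝔸 η ξ X k q t) (u : Finset K) :
    Inf (BB 𝔸 η) η (Mu 𝔸 η ξ X k t u) q := by
  classical
  by_contra hcon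
  unfold Inf at hcon
  push Not at hcon
  obtain ⟨q', hq', hle', N, hstar⟩ := hcon
  -- the property P
  have key : ∃ m, k ≤ m ∧ ∃ q1 ∈ BB 𝔸 η, q1 ≤ q' ∧ ∀ q2 ∈ BB 𝔸 η, q2 ≤ q1 →
      ∀ (u' : Finset K) (N' : ℕ), ∃ q'' ∈ BB 𝔸 η, q'' ≤ q2 ∧ ∃ x, N' ≤ x ∧
        bs q'' η ⊆ GG (GA 𝔸 η) u' x ∧ bs q'' η ⊆ Mx 𝔸 η ξ X k t x m := by
    by_contra hP
    push Not at hP
    have hind : ∀ n, ∃ qs ∈ BB 𝔸 η, qs ≤ q' ∧ ∃ (U : Finset K) (Ns : ℕ), u ⊆ U ∧
        ∀ m, k ≤ m → m < n → ∀ q'' ∈ BB 𝔸 η, q'' ≤ qs → ∀ x, Ns ≤ x →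
          bs q'' η ⊆ GG (GA 𝔸 η) U x → ¬ bs q'' η ⊆ Mx 𝔸 η ξ X k t x m := by
      intro n
      induction n with
      | zero => exact ⟨q', hq', le_rfl, u, 0, Finset.Subset.refl _, fun m _ hm => by omega⟩
      | succ n ih =>
        obtain ⟨qs, hqs, hles, U, Ns, hU, hall⟩ := ih
        by_cases hk : k ≤ n
        · obtain ⟨q2, hq2, hle2, u', N', hno'⟩ := hP n hk qs hqs hles
          refine ⟨q2, hq2, hle2.trans hles, U ∪ u', max Ns N',
            hU.trans Finset.subset_union_left, ?_⟩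
          intro m hkm hm q'' hq'' hle'' x hx hGG
          rcases Nat.lt_succ_iff_lt_or_eq.1 hm with hm' | rfl
          · exact hall m hkm hm' q'' hq'' (hle''.trans hle2) x ((le_max_left _ _).trans hx)
              (hGG.trans fun w hw d hd => hw d (Finset.mem_union_left _ hd))
          · exact hno' q'' hq'' hle'' x ((le_max_right _ _).trans hx)
              (hGG.trans fun w hw d hd => hw d (Finset.mem_union_right _ hd))
        · exact ⟨qs, hqs, hles, U, Ns, hU, fun m hkm hm => by omega⟩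
    obtain ⟨qs, hqs, hles, U, Ns, hU, hall⟩ := hind N
    obtain ⟨q'', hq'', hle'', x, hx, hGG, m0, hk0, hfav⟩ :=
      hpos qs hqs (hles.trans hle') U Ns
    obtain ⟨r', hr', hler, m, hkm, _, hMx⟩ := exists_Mx hq'' hk0 hfav
    have hGr : bs r' η ⊆ GG (GA 𝔸 η) U x := (bs_le hler η).trans hGG
    by_cases hmN : m < N
    · exact hall m hkm hmN r' hr' (hler.trans hle'') x hx hGr hMx
    · refine hstar r' hr' (hler.trans (hle''.trans hles)) m (not_lt.1 hmN) ?_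
      intro w hw
      exact Set.mem_iUnion.2 ⟨x, hMx hw, fun d hd => hGr hw d (hU hd)⟩
  obtain ⟨m, hkm, q1, hq1, hle1, hP⟩ := key
  refine hno q1 hq1 (hle1.trans hle') m hkm ?_
  intro q2 hq2 hle2 Φ hΦ
  obtain ⟨q3, hq3, hle3, u', N', hred⟩ := reduce Φ hΦ t q2 hq2
  obtain ⟨q'', hq'', hle'', x, hx, hGG, hMx⟩ := hP q3 hq3 (hle3.trans hle2) u' N'
  have hfav := fav_of_Mx hG hq'' hMx
  obtain ⟨r, hr, hr1, hr2⟩ := hfav q'' hq'' le_rfl Φ hΦ
  refine ⟨r, hr, hr1.trans (mk_step (hle''.trans hle3) fun R hR => ?_), hr2⟩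
  intro w hw
  exact hred R hR x hx ⟨bs_le hle'' η hw, hGG hw⟩

end Pool.Agent.Helper539.SGInfMu
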