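import Mathlib
import Pool.Agent.Helper539.SGInfMu
import Pool.Agent.Helper539.SGInfKx

/-!
# The successor step: splitting
-/

namespace Pool.Agent.Helper539.SGClaimB

universe u

set_option linter.unusedSectionVars false

open Pool.Agent.Helper539.SGIter Pool.Agent.Helper539.SGDelta Pool.Agent.Helper539.SGStep
open Pool.Agent.Helper539.SGStar Pool.Agent.Helper539.SGMk Pool.Agent.Helper539.SGMx
open Pool.Agent.Helper539.SGReduce Pool.Agent.Helper539.SGInfMu Pool.Agent.Helper539.SGInfKx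
open Pool.Agent.Helper539.SGCount

variable {K : Type u} [LinearOrder K] [OrderBot K] [Reg K]
  {J : Type u} [LinearOrder J] [WellFoundedLT J]

variable {𝔸 : J → K → ℕ → Set (Om K J)} {η ξ : J} {X : ℕ → Set (Om K J)}

/-- finite sets of ordinals at most `b` -/
theorem small_finsets (b : K) : Sm K {u : Finset K // ∀ e ∈ u, e ≤ b} := by
  classical
  have h1 : Sm K (Set.Iic b) := sm_Iic b
  have h2 : Sm K (Finset (Set.Iic b)) := sm_finset
  refine sm_of_injective (f := fun u : {u : Finset K // ∀ e ∈ u, e ≤ b} =>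
    (u.1.subtype (· ∈ Set.Iic b) : Finset (Set.Iic b))) ?_
  intro u v huv
  apply Subtype.ext
  ext e
  have key : ∀ x : Set.Iic b, x.1 ∈ u.1 ↔ x.1 ∈ v.1 := fun x => by
    have := Finset.ext_iff.1 huv x
    simpa using this
  constructor
  · intro he
    exact (key ⟨e, u.2 e he⟩).1 he
  · intro he
    exact (key ⟨e, v.2 e he⟩).2 he

/-- Claim B: conditions in the class `ZZ` have extensions forcing a large element of `X` into `S_a`, or outside. -/
theorem claimB (h : IsSuc η ξ) (hG : ∀ ζ, Good (RR 𝔸) ζ) (hsp : Sparse (BB 𝔸 η) η (GA 𝔸 η))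
    (hstar : Star 𝔸 η) : ∃ hh : K → K, ∀ a, Closed hh a → ∀ k q t, ZZ 𝔸 η ξ X k q t →
      ∀ Φ : Finset (Pr K J), (∀ R ∈ Φ, R ∈ RR 𝔸 η) → ∀ s, ∃ r ∈ BB 𝔸 ξ, r ≤ mk η q t Φ ∧
        ∃ m, k ≤ m ∧ bs r ξ ⊆ X m ∩ Ss a s m := by
  classical
  have H1 : ∀ t : List ℕ, ∃ g : K → K, ∀ a, Closed g a →
      ∀ q ∈ BB 𝔸 η, Inf (BB 𝔸 η) η (Hn 𝔸 η ξ X t) q → ∀ s,
        Inf (BB 𝔸 η) η (fun n => Hn 𝔸 η ξ X t n ∩ Ss a s n) q :=
    fun t => hstar (Hn 𝔸 η ξ X t) fun m => Op_Hn t m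
  have H2 : ∀ (k : ℕ) (t : List ℕ) (u : Finset K), ∃ g : K → K, ∀ a, Closed g a →
      ∀ q ∈ BB 𝔸 η, Inf (BB 𝔸 η) η (Mu 𝔸 η ξ X k t u) q → ∀ s,
        Inf (BB 𝔸 η) η (fun n => Mu 𝔸 η ξ X k t u n ∩ Ss a s n) q :=
    fun k t u => hstar (Mu 𝔸 η ξ X k t u) fun m => Op_Mu hG hsp k t u m
  have H3 := fun (k : ℕ) (t : List ℕ) => hsp.sp (Mx 𝔸 η ξ X k t) fun x m => Op_Mx k t x m
  choose g1 hg1 using H1
  choose g2 hg2 using H2
  choose g3 hg3 using H3
  have H4 : ∀ b : K, ∃ c : K, ∀ i : List ℕ × ℕ × {u : Finset K // ∀ e ∈ u, e ≤ b} × Set.Iic b,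
      max (g1 i.1 i.2.2.2.1) (max (g2 i.2.1 i.1 i.2.2.1.1 i.2.2.2.1) (g3 i.2.1 i.1)) < c := by
    intro b
    have hs1 : Sm K {u : Finset K // ∀ e ∈ u, e ≤ b} := small_finsets b
    have hs2 : Sm K (Set.Iic b) := sm_Iic b
    exact exists_lt_range _
  choose hh hhh using H4
  refine ⟨hh, fun a ha k q t hz => ?_⟩
  have ha0 : (⊥ : K) < a := ha.1
  have e1 : ∀ t, Closed (g1 t) a := by
    intro t
    refine ⟨ha.1, fun b hb => lt_of_le_of_lt ?_ ((hhh b (t, 0, ⟨∅, by simp⟩,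
      ⟨b, Set.mem_Iic.2 le_rfl⟩)).trans (ha.2 b hb))⟩
    exact le_max_left _ _
  have e2 : ∀ (k : ℕ) (t : List ℕ) (u : Finset K), (∀ e ∈ u, e < a) → Closed (g2 k t u) a := by
    intro k t u hu
    refine ⟨ha.1, fun b hb => ?_⟩
    -- the maximum of `b` and of the elements of `u`
    obtain ⟨b1, hb1, hbb, hub⟩ : ∃ b1, b1 < a ∧ b ≤ b1 ∧ ∀ e ∈ u, e ≤ b1 := by
      refine ⟨(insert b u).max' (Finset.insert_nonempty _ _), ?_, ?_, ?_⟩
      · rw [Finset.max'_lt_iff]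
        intro e he
        rcases Finset.mem_insert.1 he with rfl | he
        · exact hb
        · exact hu e he
      · exact Finset.le_max' _ _ (Finset.mem_insert_self _ _)
      · intro e he
        exact Finset.le_max' _ _ (Finset.mem_insert_of_mem he)
    refine lt_of_le_of_lt ?_ ((hhh b1 (t, k, ⟨u, hub⟩, ⟨b, Set.mem_Iic.2 hbb⟩)).trans
      (ha.2 b1 hb1))
    exact (le_max_left _ _).trans (le_max_right _ _)
  have e3 : ∀ k t, g3 k t < a := by
    intro k t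
    refine lt_of_le_of_lt ?_ ((hhh ⊥ (t, k, ⟨∅, by simp⟩, ⟨⊥, Set.mem_Iic.2 le_rfl⟩)).trans
      (ha.2 ⊥ ha0))
    exact (le_max_right _ _).trans (le_max_right _ _)
  -- a condition below `mk η q' t' Φ'` inherits the part below `η`
  have e4 : ∀ {r q' : Rep K J} {t' : List ℕ} {Φ' : Finset (Pr K J)}, r ≤ mk η q' t' Φ' →
      bs r ξ ⊆ bs q' η := by
    intro r q' t' Φ' hr
    refine (bs_anti r h.1.le).trans ((bs_le hr η).trans ?_)
    rw [bs_mk le_rfl]
  induction hz with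
  | b1 q t hq hinf =>
    intro Φ hΦ s
    obtain ⟨q'', hq'', hle, m, hkm, hsub⟩ := hg1 t a (e1 t) q hq hinf s q hq le_rfl k
    have hf := fav_of_Hn hG hq'' (hsub.trans Set.inter_subset_left)
    obtain ⟨r, hr, hrle, hrX⟩ := hf q'' hq'' le_rfl Φ hΦ
    exact ⟨r, hr, hrle.trans (mk_mono hle (Finset.Subset.refl _)), m, hkm,
      Set.subset_inter hrX ((e4 hrle).trans (hsub.trans Set.inter_subset_right))⟩
  | b2 q t hq hno hpos =>
    intro Φ hΦ s
    obtain ⟨q1, hq1, hle1, u0, N0, hred⟩ := reduce Φ hΦ t q hq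
    set u := u0.filter (· < a) with hu
    have hua : ∀ e ∈ u, e < a := fun e he => (Finset.mem_filter.1 he).2
    have i1 := hg2 k t u a (e2 k t u hua) q hq (inf_Mu h hG hq hno hpos u) s
    have i2 := inf_Kx hG hsp.op (i1.mono_q hle1)
    have i3 : ∀ v : Finset K, (∀ d ∈ v, a ≤ d) →
        Inf (BB 𝔸 η) η (Kx (GA 𝔸 η) (Mx 𝔸 η ξ X k t) a s (v ∪ u)) q1 := by
      intro v
      induction v using Finset.induction_on_max with
      | empty =>
        intro _
        rw [Finset.empty_union]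
        exact i2
      | insert d v hd ih =>
        intro hv
        have ih' := ih fun e he => hv e (Finset.mem_insert_of_mem he)
        have had : a ≤ d := hv d (Finset.mem_insert_self _ _)
        rw [Finset.insert_union]
        refine hg3 k t d ((e3 k t).le.trans had) a had s _ ?_ q1 hq1 ih'
        intro e he
        rcases Finset.mem_union.1 he with he | he
        · exact hd e he
        · exact (hua e he).trans_le had
    have i4 := i3 (u0.filter (a ≤ ·)) fun d hd => (Finset.mem_filter.1 hd).2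
    have i5 : u0.filter (a ≤ ·) ∪ u = u0 := by
      ext e
      simp only [hu, Finset.mem_union, Finset.mem_filter]
      constructor
      · rintro (⟨h1, _⟩ | ⟨h1, _⟩) <;> exact h1
      · intro h1
        rcases le_or_gt a e with h2 | h2
        · exact Or.inl ⟨h1, h2⟩
        · exact Or.inr ⟨h1, h2⟩
    rw [i5] at i4
    obtain ⟨q2, hq2, hle2, x, hx, hsub⟩ := i4 q1 hq1 le_rfl N0
    obtain ⟨w, hw⟩ := bs_nonempty (fun ζ _ => hG ζ) hq2
    obtain ⟨⟨m, hm1, hm2⟩, _⟩ := hsub (hw η)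
    obtain ⟨q3, hq3, hle3, _, hsub3⟩ := Op_exists_le (fun ζ _ => hG ζ)
      (Op_inter (fun ζ _ => hG ζ) (Op_Mx (ξ := ξ) (X := X) k t x m) (Op_Ss (RR 𝔸) η a s m))
      hq2 (hw η) ⟨hm1, hm2⟩
    have hf := fav_of_Mx hG hq3 (hsub3.trans Set.inter_subset_left)
    have hkm := le_of_Mx hG hq3 (hsub3.trans Set.inter_subset_left)
    obtain ⟨r, hr, hrle, hrX⟩ := hf q3 hq3 le_rfl Φ hΦ
    refine ⟨r, hr, hrle.trans (mk_step (hle3.trans (hle2.trans hle1)) fun R hR v hv => ?_), m, hkm,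
      Set.subset_inter hrX ((e4 hrle).trans (hsub3.trans Set.inter_subset_right))⟩
    have hv2 : v ∈ bs q2 η := bs_le hle3 η hv
    exact hred R hR x hx ⟨bs_le hle2 η hv2, (hsub hv2).2⟩
  | st q t hq f x h1 h2 ih =>
    intro Φ hΦ s
    obtain ⟨q1, hq1, hle1, u0, N0, hred⟩ := reduce Φ hΦ t q hq
    obtain ⟨h3, h4, h5, h6⟩ := h1 q1 hq1 hle1 u0 N0
    obtain ⟨r, hr, hrle, m, hkm, hsub⟩ := ih q1 hq1 hle1 u0 N0 Φ hΦ s
    exact ⟨r, hr, hrle.trans (mk_step (h4.trans hle1) fun R hR v hv =>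
      hred R hR _ h5 ⟨bs_le h4 η hv, h6 hv⟩), m, hkm, hsub⟩

end Pool.Agent.Helper539.SGClaimB
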