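import Mathlib
import Pool.Agent.Helper539.SGStep

/-!
# Sparse subsequences
-/

namespace Pool.Agent.Helper539.SGSparse

universe u

set_option linter.unusedSectionVars false

open Pool.Agent.Helper539.SGIter Pool.Agent.Helper539.SGDelta Pool.Agent.Helper539.SGStep
open Pool.Agent.Helper539.SGCount

variable {K : Type u} [LinearOrder K] [OrderBot K] [Reg K]
  {J : Type u} [LinearOrder J] [WellFoundedLT J]

theorem exists_names5430 {RR' : J → Set (Pr K J)} {ξ : J} (hK : LeK K (Vd RR' ξ)) :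
    ∃ X : K → ℕ → ℕ → Set (Om K J), (∀ g n m, Op (Vd RR' ξ) ξ (X g n m)) ∧
      ∀ x : ℕ → ℕ → Set (Om K J), ∃ g, ∀ n m, X g n m ⊆ x n m ∧
        ∀ q ∈ Vd RR' ξ, bs q ξ ⊆ x n m →
          ∃ q' ∈ Vd RR' ξ, q' ≤ q ∧ bs q' ξ ⊆ X g n m := by
  classical
  have hN : LeK K (ℕ → ℕ → {S : Set (Vd RR' ξ) // Sm K S}) :=
    (hK.smallSets.fun_small).fun_small
  obtain ⟨f⟩ := hN
  have : Nonempty (ℕ → ℕ → {S : Set (Vd RR' ξ) // Sm K S}) :=
    ⟨fun _ _ => ⟨∅, inferInstance⟩⟩
  refine ⟨fun g n m => ⋃ a : (Function.invFun f g n m).1, bs a.1.1 ξ, ?_, ?_⟩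
  · intro g n m
    exact Op_iUnion fun a => Op_bs a.1.2
  · intro x
    choose A hA1 hA2 hA3 hA4 using fun n m => exists_small_open (RR' := RR') (ξ := ξ) (x n m)
    have hS : ∀ n m, Sm K ({a : Vd RR' ξ | a.1 ∈ A n m} : Set (Vd RR' ξ)) := by
      intro n m
      have := hA2 n m
      refine sm_of_injective
        (f := fun a : ({a : Vd RR' ξ | a.1 ∈ A n m} : Set (Vd RR' ξ)) =>
          (⟨a.1.1, a.2⟩ : A n m)) ?_
      intro a b hab
      exact Subtype.ext (Subtype.ext (by simpa using congrArg Subtype.val hab))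
    refine ⟨f (fun n m => ⟨{a : Vd RR' ξ | a.1 ∈ A n m}, hS n m⟩), fun n m => ?_⟩
    have hinv : Function.invFun f (f (fun n m => ⟨{a : Vd RR' ξ | a.1 ∈ A n m}, hS n m⟩)) =
        (fun n m => ⟨{a : Vd RR' ξ | a.1 ∈ A n m}, hS n m⟩) :=
      Function.leftInverse_invFun f.injective _
    beta_reduce
    rw [hinv]
    refine ⟨?_, ?_⟩
    · intro w hw
      obtain ⟨a, ha⟩ := Set.mem_iUnion.1 hw
      exact hA3 n m a.1.1 a.2 ha
    · intro q hq hsub
      obtain ⟨q', hq', hle, a, ha, hle2⟩ := hA4 n m q hq hsub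
      refine ⟨q', hq', hle, fun w hw => ?_⟩
      exact Set.mem_iUnion.2 ⟨⟨⟨a, hA1 n m ha⟩, ha⟩, bs_le hle2 ξ hw⟩

theorem exists_fix5430 (C : K → Type u) (hC : ∀ d, Sm K (C d))
    (V : (d : K) → C d → (K → K) → K)
    (hV : ∀ d c f f', (∀ e < d, f e = f' e) → V d c f = V d c f') :
    ∃ i : K → K, ∀ d c, V d c i < i d := by
  classical
  have hst : ∀ (d : K) (f : K → K), ∃ b : K, ∀ c : C d, V d c f < b := by
    intro d f
    have := hC d
    exact exists_lt_range (fun c => V d c f)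
  choose step hstep using hst
  let i : K → K := WellFoundedLT.fix (motive := fun _ : K => K) fun d f =>
    step d (fun e => if h : e < d then f e h else ⊥)
  have hi : ∀ d, i d = step d (fun e => if e < d then i e else ⊥) := by
    intro d
    show WellFoundedLT.fix (motive := fun _ : K => K) _ d = _
    rw [WellFoundedLT.fix_eq]
    congr 1
  refine ⟨i, fun d c => ?_⟩
  rw [hV d c i (fun e => if e < d then i e else ⊥) (fun e he => by simp [he]), hi d]
  exact hstep d _ c

theorem GG_congr5430 {G G' : K → ℕ → Set (Om K J)} {u : Finset K} (h : ∀ e ∈ u, G e = G' e) :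
    GG G u = GG G' u := by
  funext n
  ext w
  constructor
  · intro hw d hd
    rw [← h d hd]
    exact hw d hd
  · intro hw d hd
    rw [h d hd]
    exact hw d hd

theorem Kx_congr5430 {G G' : K → ℕ → Set (Om K J)} {u : Finset K} (h : ∀ e ∈ u, G e = G' e)
    (x : ℕ → ℕ → Set (Om K J)) (b : K) (s : Bool) :
    Kx G x b s u = Kx G' x b s u := by
  funext n
  unfold Kx
  rw [GG_congr5430 h]

theorem small_finset5430 (X : Type u) [Sm K X] : Sm K (Finset X) :=
  sm_finset

/-- A sequence hitting every infinite set eventually has a sparse subsequence. -/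
theorem exists_sparse {RR' : J → Set (Pr K J)} {ξ : J} (hG : ∀ ζ < ξ, Good RR' ζ)
    (hK : LeK K (Vd RR' ξ)) {E : K → ℕ → Set (Om K J)} (hE : HT (Vd RR' ξ) ξ E) :
    ∃ i : K → K, StrictMono i ∧ Sparse (Vd RR' ξ) ξ (fun d => E (i d)) := by
  classical
  obtain ⟨X, hX, hXs⟩ := exists_names5430 hK
  have hβ0 := hE.2
  choose! β hβ using hβ0
  let C : K → Type u := fun d =>
    (Set.Iio d × Set.Iic d × Bool × Finset (Set.Iio d)) ⊕ (Finset (Set.Iio d)) ⊕ (Set.Iio d)
  have hC : ∀ d, Sm K (C d) := by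
    intro d
    have h1 : Sm K (Finset (Set.Iio d)) := small_finset5430 _
    have h2 : Sm K (Bool × Finset (Set.Iio d)) := by infer_instance
    have h3 : Sm K (Set.Iic d × Bool × Finset (Set.Iio d)) := by infer_instance
    have h4 : Sm K (Set.Iio d × Set.Iic d × Bool × Finset (Set.Iio d)) := by infer_instance
    show Sm K ((Set.Iio d × Set.Iic d × Bool × Finset (Set.Iio d)) ⊕
      (Finset (Set.Iio d)) ⊕ (Set.Iio d))
    infer_instance
  let V : (d : K) → C d → (K → K) → K := fun d c f => match c with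
    | Sum.inl p => β (Kx (fun e => E (f e)) (X p.1.1) p.2.1.1 p.2.2.1
        (p.2.2.2.map (Function.Embedding.subtype _)))
    | Sum.inr (Sum.inl u) => β (GG (fun e => E (f e)) (u.map (Function.Embedding.subtype _)))
    | Sum.inr (Sum.inr e) => f e.1
  have hV : ∀ d c f f', (∀ e < d, f e = f' e) → V d c f = V d c f' := by
    intro d c f f' h
    rcases c with p | u | e
    · show β _ = β _
      congr 1
      apply Kx_congr5430
      intro e he
      obtain ⟨e', _, rfl⟩ := Finset.mem_map.1 he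
      show E (f e'.1) = E (f' e'.1)
      rw [h e'.1 e'.2]
    · show β _ = β _
      congr 1
      apply GG_congr5430
      intro e he
      obtain ⟨e', _, rfl⟩ := Finset.mem_map.1 he
      show E (f e'.1) = E (f' e'.1)
      rw [h e'.1 e'.2]
    · exact h e.1 e.2
  obtain ⟨i, hi⟩ := exists_fix5430 C hC V hV
  have hmap : ∀ (d : K) (u : Finset K), (∀ e ∈ u, e < d) →
      (u.subtype (· ∈ Set.Iio d)).map (Function.Embedding.subtype _) = u := by
    intro d u hu
    exact Finset.subtype_map_of_mem hu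
  have hiG : ∀ (d : K) (u : Finset K), (∀ e ∈ u, e < d) →
      β (GG (fun e => E (i e)) u) < i d := by
    intro d u hu
    have := hi d (Sum.inr (Sum.inl (u.subtype (· ∈ Set.Iio d))))
    simp only [V] at this
    rw [hmap d u hu] at this
    exact this
  have hiK : ∀ (d g b : K) (s : Bool) (u : Finset K), g < d → b ≤ d → (∀ e ∈ u, e < d) →
      β (Kx (fun e => E (i e)) (X g) b s u) < i d := by
    intro d g b s u hg hb hu
    have := hi d (Sum.inl (⟨g, hg⟩, ⟨b, hb⟩, s, u.subtype (· ∈ Set.Iio d)))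
    simp only [V] at this
    rw [hmap d u hu] at this
    exact this
  have hop : ∀ d n, Op (Vd RR' ξ) ξ (E (i d) n) := fun d n => hE.1 (i d) n
  refine ⟨i, fun e d h => hi d (Sum.inr (Sum.inr ⟨e, h⟩)), ⟨hop, ?_, ?_⟩⟩
  · intro u
    induction u using Finset.induction_on_max with
    | empty =>
      intro q hq q' hq' hle N
      refine ⟨q', hq', le_rfl, N, le_rfl, fun w _ d hd => ?_⟩
      exact absurd hd (Finset.notMem_empty d)
    | insert d u hu ih =>
      intro q hq
      have h1 := hβ (GG (fun e => E (i e)) u) (fun n => Op_GG hG hop u n) (i d)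
        (hiG d u hu).le q hq (ih q hq)
      refine h1.mono fun n w hw e he => ?_
      rcases Finset.mem_insert.1 he with rfl | he
      · exact hw.2
      · exact hw.1 e he
  · intro x hx
    obtain ⟨g, hg⟩ := hXs x
    obtain ⟨g', hg'⟩ := exists_gt' g
    refine ⟨g', fun d hd b hb s u hu q hq hInf => ?_⟩
    have hgd : g < d := hg'.trans_le hd
    have h0 : Inf (Vd RR' ξ) ξ (Kx (fun e => E (i e)) (X g) b s u) q := by
      refine hInf.dense fun n r hr hle hsub => ?_
      obtain ⟨w, hw⟩ := bs_nonempty hG hr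
      obtain ⟨⟨m, hm1, hm2⟩, hm3⟩ := hsub (hw ξ)
      obtain ⟨r1, hr1, hle1, _, hs1⟩ :=
        Op_exists_le hG (Op_inter hG (hx n m) (Op_Ss RR' ξ b s m)) hr (hw ξ) ⟨hm1, hm2⟩
      obtain ⟨r2, hr2, hle2, hs2⟩ := (hg n m).2 r1 hr1 (hs1.trans Set.inter_subset_left)
      refine ⟨r2, hr2, hle2.trans hle1, fun v hv => ⟨⟨m, hs2 hv, ?_⟩, ?_⟩⟩
      · exact (hs1 (bs_le hle2 ξ hv)).2
      · exact (hsub (bs_le (hle2.trans hle1) ξ hv)).2
    have h1 := hβ (Kx (fun e => E (i e)) (X g) b s u)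
      (fun n => Op_Kx hG hop (hX g) b s u n) (i d) (hiK d g b s u hgd hb hu).le q hq h0
    refine h1.mono fun n w hw => ?_
    obtain ⟨⟨⟨m, hm1, hm2⟩, hm3⟩, hw2⟩ := hw
    refine ⟨⟨m, (hg n m).1 hm1, hm2⟩, fun e he => ?_⟩
    rcases Finset.mem_insert.1 he with rfl | he
    · exact hw2
    · exact hm3 e he

end Pool.Agent.Helper539.SGSparse
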