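import Mathlib
import Pool.Agent.Helper539.SGLevel
import Pool.Agent.Helper539.SGStarAll

/-!
# The family of all `S_a` is splitting in the extension
-/

namespace Pool.Agent.Helper539.SGSplit

universe u

set_option linter.unusedSectionVars false

open Pool.Agent.Helper539.SGIter Pool.Agent.Helper539.SGDelta Pool.Agent.Helper539.SGStep
open Pool.Agent.Helper539.SGTop Pool.Agent.Helper539.SPForcing Pool.Agent.Helper539.SGLevel
open Pool.Agent.Helper539.SGStar Pool.Agent.Helper539.SGStarAll Pool.Agent.Helper539.SGGood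
open Pool.Agent.Helper539.SGSize
open Pool.Agent.Helper539.SGCount

variable {K : Type u} [LinearOrder K] [OrderBot K] [Reg K]
  {J : Type u} [LinearOrder J] [WellFoundedLT J]

theorem exists_closed (h : K → K) : ∃ a, Closed h a := by
  have h1 : ∀ a : K, ∃ g : K, a < g ∧ ∀ b ≤ a, h b < g := by
    intro a
    have h2 : Sm K (Set.Iic a) := sm_Iic a
    have h3 : Sm K (h '' Set.Iic a) := sm_image h (Set.Iic a)
    have h4 : Sm K (insert a (h '' Set.Iic a) : Set K) := by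
      rw [Set.insert_eq]
      exact sm_union _ _
    obtain ⟨g, hg⟩ := exists_lt_of_small (insert a (h '' Set.Iic a))
    exact ⟨g, hg a (Or.inl rfl), fun b hb => hg _ (Or.inr ⟨b, hb, rfl⟩)⟩
  choose g hg1 hg2 using h1
  obtain ⟨o, ho⟩ := exists_gt' (⊥ : K)
  let s : ℕ → K := fun n => Nat.rec o (fun _ a => g a) n
  obtain ⟨a, ha, hmin⟩ := WellFounded.has_min (wellFounded_lt (α := K)) {a | ∀ n, s n ≤ a} (by
    obtain ⟨b, hb⟩ := exists_lt_range s
    exact ⟨b, fun n => (hb n).le⟩)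
  refine ⟨a, ho.trans_le (ha 0), fun b hb => ?_⟩
  obtain ⟨n, hn⟩ : ∃ n, b < s n := by
    by_contra hcon
    push Not at hcon
    exact hmin b hcon hb
  exact (hg2 (s n) b hn.le).trans_le (ha (n + 1))

/-- a name of a set of natural numbers is decided at some stage -/
theorem exists_dcd (hJ : ∀ ξ : J, LeK K (Set.Iio ξ))
    (hcof : ∀ S : Set J, LeK K S → ∃ b, ∀ s ∈ S, s < b) {Y : Type u} (hY : LeK K Y)
    (N : Y → Set (TT K J)) (b : J × Sq K J) : ∃ b', Ext b b' ∧ ∀ y, Dcd b' (meets (N y)) := by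
  obtain ⟨b', h1, h2⟩ := exists_stage (fun 𝔸 ξ => leK_BB hJ 𝔸 ξ) hcof hY
    (fun y => {t | t ∈ meets (N y) ∨ t ∈ fnot (meets (N y))})
    (fun y t => by
      by_cases h : ∃ t' ≤ t, t' ∈ meets (N y)
      · obtain ⟨t', h1, h2⟩ := h
        exact ⟨t', h1, Or.inl h2⟩
      · push Not at h
        exact ⟨t, le_rfl, Or.inr h⟩)
    (fun y t ht t' ht' => ht.imp (fun h => down_meets _ _ h _ ht')
      fun h => down_fnot _ _ h _ ht') b
  exact ⟨b', h1, fun y p hp => h2 y p hp⟩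

/-- an infinite set of the extension is infinite for the conditions of a stage deciding it -/
theorem inf_of_infSet {x : ℕ → Set (TT K J)} {b : J × Sq K J} (hd : ∀ n, Dcd b (meets (x n)))
    {t : TT K J} (ht : t ∈ InfSet x) (hb : Ext t.b b) :
    Inf (BB b.2 b.1) b.1 (fun n => Lv b (meets (x n))) t.p := by
  intro q' hq' hle N
  obtain ⟨t1, ht1, k, hk, h1⟩ := mem_fex.1 (ht N) (tt b q' hq') ⟨hb, hle⟩
  obtain ⟨q, h2, hq, h3⟩ := exists_of_force (down_meets _) (hd k) (t := t1) ht1.1 h1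
  exact ⟨q, hq, h2.trans (res_le ht1.2 hq'.2), k, hk, bs_sub_Lv hq h3⟩

/-- The sets `S_a` form a splitting family of size `κ`. -/
theorem splitting (hJ : ∀ ξ : J, LeK K (Set.Iio ξ))
    (hcof : ∀ S : Set J, LeK K S → ∃ b, ∀ s ∈ S, s < b) (p : TT K J) :
    p ∈ HasSplittingFamily (TT K J) K := by
  refine mem_fex_of_mem (fun a : K => Sz a) (down_fall fun _ => down_fimp _ _)
    fun x => mem_fimp.2 fun t0 _ hx => ?_
  obtain ⟨b, hb, hd⟩ := exists_dcd hJ hcof (Y := ULift.{u} ℕ) (LeK.of_small inferInstance)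
    (fun n => x n.down) t0.b
  have hd' : ∀ n, Dcd b (meets (x n)) := fun n => hd (ULift.up n)
  have hG : ∀ (𝔸 : Sq K J) (ζ : J), Good (RR 𝔸) ζ := fun 𝔸 ζ => good hJ 𝔸 ζ
  have hinf := inf_of_infSet hd' hx hb
  obtain ⟨h, hh⟩ := star_all hJ b.2 b.1 (fun n => Lv b (meets (x n))) fun n => Op_Lv b _
  obtain ⟨a, ha⟩ := exists_closed h
  have hp : t0.p ∈ BB b.2 b.1 := hb.mem t0.mem
  have key : ∀ s : Bool, ∀ t ≤ tt b t0.p hp, ∀ N : ℕ, ∃ t' ≤ t, ∃ k, N ≤ k ∧
      t' ∈ meets (x k) ∧ bs t'.p b.1 ⊆ Ss a s k := by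
    intro s t ht N
    obtain ⟨q, hq, h1, k, hk, h2⟩ := hh a ha t0.p hp hinf s (SGIter.res t.p b.1)
      (ht.1.res_mem t.mem) (res_le ht.2 hp.2) N
    obtain ⟨t', h3, h4, _⟩ := exists_amal ht.1 hq h1
    have h5 : bs t'.p b.1 ⊆ bs q b.1 := bs_le h4.2 b.1
    exact ⟨t', h3, k, hk, force_of_sub hG (local_meets _) h4.1 (h5.trans fun w hw => (h2 hw).1),
      h5.trans fun w hw => (h2 hw).2⟩
  refine ⟨tt b t0.p hp, ⟨hb, le_rfl⟩, mem_fex_of_mem a (down_FSplits _ _) ⟨fun N => ?_,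
    fun N => ?_⟩⟩
  · refine mem_fex.2 fun t ht => ?_
    obtain ⟨t', h1, k, hk, h2, h3⟩ := key true t ht N
    exact ⟨t', h1, k, hk, h2, meets_Sz hG h3⟩
  · refine mem_fex.2 fun t ht => ?_
    obtain ⟨t', h1, k, hk, h2, h3⟩ := key false t ht N
    exact ⟨t', h1, k, hk, h2, not_meets_Sz hG h3⟩

end Pool.Agent.Helper539.SGSplit
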