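import Mathlib
import Pool.Agent.Helper539.SGSplit

/-!
# `κ` is `ω₁` in the extension
-/

namespace Pool.Agent.Helper539.SGUnc

universe u

set_option linter.unusedSectionVars false

open Pool.Agent.Helper539.SGIter Pool.Agent.Helper539.SGDelta Pool.Agent.Helper539.SGStep
open Pool.Agent.Helper539.SGTop Pool.Agent.Helper539.SPForcing Pool.Agent.Helper539.SGLevel
open Pool.Agent.Helper539.SGGood Pool.Agent.Helper539.SGSize Pool.Agent.Helper539.SGSplit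
open Pool.Agent.Helper539.SGCount

variable {K : Type u} [LinearOrder K] [OrderBot K] [Reg K]
  {J : Type u} [LinearOrder J] [WellFoundedLT J]

theorem not_countable (hJ : ∀ ξ : J, LeK K (Set.Iio ξ))
    (hcof : ∀ S : Set J, LeK K S → ∃ b, ∀ s ∈ S, s < b) (p : TT K J) :
    p ∈ fnot (fex fun R : ℕ → K → Set (TT K J) => fand (IsFun R) (IsOnto R)) := by
  intro t _ hex
  obtain ⟨t0, _, R, hR1, hR2⟩ := mem_fex.1 hex t le_rfl
  obtain ⟨b, hb, hd⟩ := exists_stage (fun 𝔸 ξ => leK_BB hJ 𝔸 ξ) hcof (Y := ULift.{u} ℕ)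
    (LeK.of_small inferInstance)
    (fun n => {t | (∃ y, t ∈ meets (R n.down y)) ∨ ∀ t' ≤ t, ∀ y, t' ∉ meets (R n.down y)})
    (fun n t => by
      by_cases h : ∃ t' ≤ t, ∃ y, t' ∈ meets (R n.down y)
      · obtain ⟨t', h1, h2⟩ := h
        exact ⟨t', h1, Or.inl h2⟩
      · push Not at h
        exact ⟨t, le_rfl, Or.inr h⟩)
    (fun n t ht t' ht' => ht.imp (fun ⟨y, h⟩ => ⟨y, down_meets _ _ h _ ht'⟩)
      fun h t'' ht'' => h t'' (ht''.trans ht')) t0.b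
  have hp : t0.p ∈ BB b.2 b.1 := hb.mem t0.mem
  let D : ℕ → Set (Rep K J) := fun n => {q | q ≤ t0.p ∧ ∃ y, ∃ h : q ∈ BB b.2 b.1,
    tt b q h ∈ meets (R n y)}
  have hD : ∀ n, ∀ q ∈ BB b.2 b.1, q ≤ t0.p → ∃ q' ∈ D n, q' ≤ q := by
    intro n q hq hle
    obtain ⟨q', h1, h2, h3⟩ := hd (ULift.up n) q hq
    rcases h3 with ⟨y, h3⟩ | h3
    · exact ⟨q', ⟨h1.trans hle, y, h2, h3⟩, h1⟩
    · obtain ⟨t', h4, y, h5⟩ := IsFun.total (down_IsFun R _ hR1 (tt b q' h2)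
        ⟨hb, h1.trans hle⟩) n
      exact absurd h5 (h3 t' h4 y)
  choose A hA1 hA2 hA3 using fun n => exists_antichain (RR' := RR b.2) (ξ := b.1) (D n)
    fun q hq => hq.2.choose_spec.choose
  choose y hy1 hy2 using fun (x : Σ n : ℕ, A n) => (hA1 x.1 x.2.2).2
  have hsm : ∀ n, Sm K (A n) := hA2
  obtain ⟨z, hz⟩ := exists_lt_range y
  obtain ⟨t1, ht1, n, h1⟩ := mem_fex.1 (hR2 z) (tt b t0.p hp) ⟨hb, le_rfl⟩
  obtain ⟨q1, h2, h3⟩ := hD n (SGIter.res t1.p b.1) (ht1.1.res_mem t1.mem) (res_le ht1.2 hp.2)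
  obtain ⟨a, ha, q2, hq2, h4, h5⟩ := hA3 n q1 h2
  obtain ⟨t2, h6, h7, _⟩ := exists_amal ht1.1 hq2 (h5.trans h3)
  have h8 : t2 ∈ meets (R n (y ⟨n, a, ha⟩)) :=
    down_meets _ _ (hy2 ⟨n, a, ha⟩) _ (h7.trans (tt_le (Ext.refl b) h4))
  have h9 : t2 ≤ t0 := h6.trans (ht1.trans ⟨hb, le_rfl⟩)
  have h10 := IsFun.unique (down_IsFun R _ hR1 t2 h9) (down_meets _ _ h1 _ h6) h8
  exact absurd (hz ⟨n, a, ha⟩) (by rw [← h10]; exact lt_irrefl _)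

theorem omegaOne (hJ : ∀ ξ : J, LeK K (Set.Iio ξ))
    (hcof : ∀ S : Set J, LeK K S → ∃ b, ∀ s ∈ S, s < b) (p : TT K J) :
    p ∈ IsOmegaOne (TT K J) K := ⟨not_countable hJ hcof p, fun a => countable_Iic a p⟩

end Pool.Agent.Helper539.SGUnc
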