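import Mathlib
import Pool.Agent.Helper539.SGUnc

/-!
# Subsets of full size
-/

namespace Pool.Agent.Helper539.SGFull

universe u

set_option linter.unusedSectionVars false

open Pool.Agent.Helper539.SGIter Pool.Agent.Helper539.SGDelta Pool.Agent.Helper539.SGStep
open Pool.Agent.Helper539.SGTop Pool.Agent.Helper539.SPForcing Pool.Agent.Helper539.SGLevel
open Pool.Agent.Helper539.SGGood Pool.Agent.Helper539.SGSize Pool.Agent.Helper539.SGSplit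
open Pool.Agent.Helper539.SGCount

variable {K : Type u} [LinearOrder K] [OrderBot K] [Reg K]
  {J : Type u} [LinearOrder J] [WellFoundedLT J]

/-- small maximal antichains inside a set of conditions -/
theorem exists_antichain' {RR' : J → Set (Pr K J)} {ξ : J} (D : Set (Rep K J))
    (hD : D ⊆ Vd RR' ξ) : ∃ A ⊆ D, Sm K A ∧
      (∀ a ∈ A, ∀ b ∈ A, Cpt (Vd RR' ξ) a b → a = b) ∧ (∀ p ∈ D, ∃ a ∈ A, Cpt (Vd RR' ξ) a p) := by
  obtain ⟨A, hA⟩ := zorn_subset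
    {A : Set (Rep K J) | A ⊆ D ∧ ∀ a ∈ A, ∀ b ∈ A, Cpt (Vd RR' ξ) a b → a = b} (by
      intro c hc hchain
      refine ⟨⋃₀ c, ⟨Set.sUnion_subset fun s hs => (hc hs).1, ?_⟩,
        fun s hs => Set.subset_sUnion_of_mem hs⟩
      rintro a ⟨s, hs, ha⟩ b ⟨t, ht, hb⟩ hab
      rcases hchain.total hs ht with h | h
      · exact (hc ht).2 a (h ha) b hb hab
      · exact (hc hs).2 a ha b (h hb) hab)
  refine ⟨A, hA.prop.1, ?_, hA.prop.2, fun p hp => ?_⟩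
  · by_contra hsm
    obtain ⟨y, y', hne, h⟩ := exists_cpt (RR' := RR') (ξ := ξ) hsm (fun a : A => a.1)
      fun a => hD (hA.prop.1 a.2)
    exact hne (Subtype.ext (hA.prop.2 y.1 y.2 y'.1 y'.2 h))
  · by_contra hcon
    push Not at hcon
    have hp' : p ∉ A := fun h => hcon p h ⟨p, hD hp, le_rfl, le_rfl⟩
    have hmem : insert p A ∈
        {A : Set (Rep K J) | A ⊆ D ∧ ∀ a ∈ A, ∀ b ∈ A, Cpt (Vd RR' ξ) a b → a = b} := by
      refine ⟨Set.insert_subset hp hA.prop.1, ?_⟩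
      rintro a (rfl | ha) b (rfl | hb) hab
      · rfl
      · obtain ⟨s, h0, h1, h2⟩ := hab
        exact absurd ⟨s, h0, h2, h1⟩ (hcon b hb)
      · exact absurd hab (hcon a ha)
      · exact hA.prop.2 a ha b hb hab
    exact hp' (hA.le_of_ge hmem (Set.subset_insert p A) (Set.mem_insert p A))

/-- pigeonhole principle for countably many sets -/
theorem pigeon {RR' : J → Set (Pr K J)} {ξ : J} {q0 : Rep K J} (hq0 : q0 ∈ Vd RR' ξ)
    (D : K → ℕ → Set (Rep K J))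
    (hdown : ∀ i N, ∀ q ∈ D i N, ∀ q' ∈ Vd RR' ξ, q' ≤ q → q' ∈ D i N)
    (h : ∀ q ∈ Vd RR' ξ, q ≤ q0 → ∀ z, ∃ i, z ≤ i ∧ ∃ N, ∃ q' ∈ Vd RR' ξ, q' ∈ D i N ∧ q' ≤ q) :
    ∃ N, ∃ q1 ∈ Vd RR' ξ, q1 ≤ q0 ∧ ∀ q ∈ Vd RR' ξ, q ≤ q1 → ∀ z, ∃ i, z ≤ i ∧
      ∃ q' ∈ Vd RR' ξ, q' ∈ D i N ∧ q' ≤ q := by
  by_contra hcon
  push Not at hcon
  choose A hA1 hA2 hA3 using fun N : ℕ => exists_antichain (RR' := RR') (ξ := ξ)
    {q | q ∈ Vd RR' ξ ∧ q ≤ q0 ∧ ∃ z, ∀ i, z ≤ i → ∀ q' ∈ Vd RR' ξ, q' ∈ D i N → ¬ q' ≤ q}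
    fun q hq => hq.1
  choose y hy using fun (x : Σ N : ℕ, A N) => (hA1 x.1 x.2.2).2.2
  have hsm : ∀ n, Sm K (A n) := hA2
  obtain ⟨Z, hZ⟩ := exists_lt_range y
  obtain ⟨i, hi, N, q', hq', hD, hle⟩ := h q0 hq0 le_rfl Z
  obtain ⟨q, hq, h1, z, h2⟩ := hcon N q' hq' hle
  obtain ⟨a, ha, r, hr, h3, h4⟩ := hA3 N q ⟨hq, h1.trans hle, z, h2⟩
  exact hy ⟨N, a, ha⟩ i ((hZ ⟨N, a, ha⟩).le.trans hi) r hr
    (hdown i N q' hD r hr (h4.trans h1)) h3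

/-- a set of indices which is forced to be unbounded has full size -/
theorem fullSize {b : J × Sq K J} {q1 : Rep K J} (hq1 : q1 ∈ BB b.2 b.1) (D : K → Set (Rep K J))
    (hun : ∀ q ∈ BB b.2 b.1, q ≤ q1 → ∀ z, ∃ i, z ≤ i ∧ ∃ q' ∈ BB b.2 b.1, q' ∈ D i ∧ q' ≤ q) :
    tt b q1 hq1 ∈ HasFullSize (fun i : K => {t | ∃ q, ∃ h : q ∈ BB b.2 b.1, q ∈ D i ∧
      t ≤ tt b q h}) := by
  classical
  choose A hA1 hA2 hA3 hA4 using fun z : K => exists_antichain' (RR' := RR b.2) (ξ := b.1)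
    {q | q ∈ BB b.2 b.1 ∧ ∃ i, z ≤ i ∧ q ∈ D i} fun q hq => hq.1
  choose! ι hι1 hι2 using fun (z : K) (a : Rep K J) (ha : a ∈ A z) => (hA1 z ha).2
  have hu : ∀ z : K, ∃ u : K, ∀ a ∈ A z, ι z a < u := by
    intro z
    have h1 : Sm K (A z) := hA2 z
    obtain ⟨u, hu⟩ := exists_lt_range (fun a : A z => ι z a.1)
    exact ⟨u, fun a ha => hu ⟨a, ha⟩⟩
  choose u hu using hu
  have hb : ∀ x : K, ∀ g : ((w : K) → w < x → K), ∃ b, ∀ w (h : w < x), g w h < b := by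
    intro x g
    have h1 : Sm K (Set.Iio x) := sm_Iio x
    obtain ⟨b, hb⟩ := exists_lt_range (fun w : Set.Iio x => g w.1 w.2)
    exact ⟨b, fun w h => hb ⟨w, h⟩⟩
  choose bd hbd using hb
  let θ : K → K :=
    WellFoundedLT.fix (motive := fun _ : K => K) fun x f => bd x fun w hw => u (f w hw)
  have hθ : ∀ x, ∀ w < x, u (θ w) < θ x := by
    intro x w hw
    have h1 : θ x = bd x fun w _ => u (θ w) := WellFoundedLT.fix_eq _ x
    rw [h1]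
    exact hbd x (fun w _ => u (θ w)) w hw
  let R : K → K → Set (TT K J) := fun x y => {t | ∃ a, ∃ h : a ∈ BB b.2 b.1, a ∈ A (θ x) ∧
    y = ι (θ x) a ∧ t ≤ tt b a h}
  have hR : ∀ x y, Down (R x y) := fun x y t ⟨a, h, h1, h2, h3⟩ t' ht' =>
    ⟨a, h, h1, h2, ht'.trans h3⟩
  refine mem_fex_of_mem R (down_fand (down_IsFun _) (down_fand (down_IsInj _)
    (down_fall fun _ => down_fall fun _ => down_fimp _ _)))
    ⟨⟨fun x => ?_, fun x y y' => ?_⟩, fun x x' y => ?_, fun x y => ?_⟩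
  · refine mem_fex.2 fun t ht => ?_
    obtain ⟨i, hi, q', hq', h1, h2⟩ := hun (SGIter.res t.p b.1) (ht.1.res_mem t.mem)
      (res_le ht.2 hq1.2) (θ x)
    obtain ⟨a, ha, q2, hq2, h3, h4⟩ := hA4 (θ x) q' ⟨hq', i, hi, h1⟩
    obtain ⟨t', h5, h6, _⟩ := exists_amal ht.1 hq2 (h4.trans h2)
    have ha' : a ∈ BB b.2 b.1 := (hA1 _ ha).1
    exact ⟨t', h5, ι (θ x) a, meets_of_mem ⟨a, ha', ha, rfl, h6.trans (tt_le (Ext.refl b) h3)⟩⟩
  · refine mem_fimp.2 fun t _ h' => ?_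
    obtain ⟨t1, h1, a, ha, h2, h3, h4⟩ := exists_of_meets (hR x y) h'.1
    obtain ⟨t2, h5, a', ha', h6, h7, h8⟩ := exists_of_meets (hR x y') (down_meets _ _ h'.2 t1 h1)
    have h9 : t2 ≤ tt b a ha := h5.trans h4
    have h10 : a = a' := hA3 (θ x) a h2 a' h6 ⟨SGIter.res t2.p b.1, h9.1.res_mem t2.mem,
      res_le h9.2 ha.2, res_le h8.2 ha'.2⟩
    exact ⟨t2, h5.trans h1, by
      show y = y'
      rw [h3, h7, h10]⟩
  · refine mem_fimp.2 fun t _ h' => ?_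
    obtain ⟨t1, h1, a, ha, h2, h3, h4⟩ := exists_of_meets (hR x y) h'.1
    obtain ⟨t2, h5, a', ha', h6, h7, h8⟩ := exists_of_meets (hR x' y) (down_meets _ _ h'.2 t1 h1)
    refine ⟨t2, h5.trans h1, ?_⟩
    have key : ∀ {x x' : K} {a a' : Rep K J}, a ∈ A (θ x) → a' ∈ A (θ x') →
        ι (θ x) a = ι (θ x') a' → ¬ x < x' := by
      intro x x' a a' ha ha' he hlt
      have h1 := (hu (θ x) a ha).trans ((hθ x' x hlt).trans_le (hι1 (θ x') a' ha'))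
      rw [he] at h1
      exact lt_irrefl _ h1
    rcases lt_trichotomy x x' with h | h | h
    · exact absurd h (key h2 h6 (h3.symm.trans h7))
    · exact h
    · exact absurd h (key h6 h2 (h7.symm.trans h3))
  · refine mem_fimp.2 fun t _ h' => ?_
    obtain ⟨t1, h1, a, ha, h2, h3, h4⟩ := exists_of_meets (hR x y) h'
    refine ⟨t1, h1, meets_of_mem ⟨a, ha, ?_, h4⟩⟩
    rw [h3]
    exact hι2 (θ x) a h2

end Pool.Agent.Helper539.SGFull
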