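import Mathlib
import Pool.Agent.Helper539.SPForcing

/-!
# Infinite sets of natural numbers have full size (following helper669)
-/

namespace Pool.Agent.Helper539.SPNat

open Pool.Agent.Helper539.SPForcing

universe u

variable {P : Type u} [Preorder P]

open Classical in
/-- the number of elements below `y` of the set named by `B`, as far as forced by `r` -/
noncomputable def cnt (B : ℕ → Set P) (r : P) (y : ℕ) : ℕ :=
  ((Finset.range y).filter fun k => r ∈ meets (B k)).card

/-- `r` decides `B` below `y` -/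
def Dec (B : ℕ → Set P) (r : P) (y : ℕ) : Prop :=
  ∀ k < y, r ∈ meets (B k) ∨ r ∈ fnot (meets (B k))

theorem Dec.down {B : ℕ → Set P} {r s : P} {y : ℕ} (h : Dec B r y) (hs : s ≤ r) : Dec B s y :=
  fun k hk => (h k hk).imp (fun h' => down_meets _ _ h' _ hs) fun h' => down_fnot _ _ h' _ hs

theorem cnt_eq {B : ℕ → Set P} {r s : P} {y : ℕ} (h : Dec B r y) (hs : s ≤ r) :
    cnt B s y = cnt B r y := by
  classical
  unfold cnt
  congr 1
  ext k
  simp only [Finset.mem_filter, Finset.mem_range]
  constructor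
  · rintro ⟨h1, h2⟩
    rcases h k h1 with h3 | h3
    · exact ⟨h1, h3⟩
    · exact absurd h2 (h3 s hs)
  · rintro ⟨h1, h2⟩
    exact ⟨h1, down_meets _ _ h2 _ hs⟩

/-- the name of the increasing enumeration of a set of natural numbers -/
def enumName (B : ℕ → Set P) (x y : ℕ) : Set P := {r | r ∈ meets (B y) ∧ Dec B r y ∧ cnt B r y = x}

theorem down_enumName (B : ℕ → Set P) (x y : ℕ) : Down (enumName B x y) :=
  fun _ hr _ hs => ⟨down_meets _ _ hr.1 _ hs, hr.2.1.down hs, (cnt_eq hr.2.1 hs).trans hr.2.2⟩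

theorem exists_enum {B : ℕ → Set P} {q : P} (hB : ∀ N : ℕ, ∀ q' ≤ q, ∃ r ≤ q', ∃ k ≥ N, r ∈ meets (B k))
    (x : ℕ) : ∀ q' ≤ q, ∃ r ≤ q', ∃ y, r ∈ enumName B x y := by
  classical
  induction x with
  | zero =>
    intro q' hq'
    have hex : ∃ k, ∃ r ≤ q', r ∈ meets (B k) := by
      obtain ⟨r, hr, k, _, h⟩ := hB 0 q' hq'
      exact ⟨k, r, hr, h⟩
    obtain ⟨r, hr, h⟩ := Nat.find_spec hex
    refine ⟨r, hr, Nat.find hex, h, fun k hk => Or.inr fun s hs h' => ?_, ?_⟩
    · exact Nat.find_min hex hk ⟨s, hs.trans hr, h'⟩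
    · unfold cnt
      rw [Finset.card_eq_zero, Finset.filter_eq_empty_iff]
      intro k hk h'
      exact Nat.find_min hex (Finset.mem_range.1 hk) ⟨r, hr, h'⟩
  | succ x ih =>
    intro q' hq'
    obtain ⟨r, hr, y, h1, h2, h3⟩ := ih q' hq'
    have hex : ∃ k, y < k ∧ ∃ s ≤ r, s ∈ meets (B k) := by
      obtain ⟨s, hs, k, hk, h⟩ := hB (y + 1) r (hr.trans hq')
      exact ⟨k, hk, s, hs, h⟩
    obtain ⟨hyk, s, hs, h⟩ := Nat.find_spec hex
    have hbetween : ∀ j, y < j → j < Nat.find hex → ∀ t ≤ r, t ∉ meets (B j) :=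
      fun j h4 h5 t ht h6 => Nat.find_min hex h5 ⟨h4, t, ht, h6⟩
    refine ⟨s, hs.trans hr, Nat.find hex, h, fun k hk => ?_, ?_⟩
    · rcases lt_trichotomy k y with h4 | h4 | h4
      · exact h2.down hs k h4
      · rw [h4]; exact Or.inl (down_meets _ _ h1 _ hs)
      · exact Or.inr fun t ht h5 => hbetween k h4 hk t (ht.trans hs) h5
    · have h4 : (Finset.range (Nat.find hex)).filter (fun k => s ∈ meets (B k)) =
          insert y ((Finset.range y).filter fun k => s ∈ meets (B k)) := by
        ext k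
        simp only [Finset.mem_filter, Finset.mem_range, Finset.mem_insert]
        constructor
        · rintro ⟨h5, h6⟩
          rcases lt_trichotomy k y with h7 | h7 | h7
          · exact Or.inr ⟨h7, h6⟩
          · exact Or.inl h7
          · exact absurd h6 (hbetween k h7 h5 s hs)
        · rintro (rfl | ⟨h5, h6⟩)
          · exact ⟨hyk, down_meets _ _ h1 _ hs⟩
          · exact ⟨h5.trans hyk, h6⟩
      have h5 : cnt B s (Nat.find hex) = cnt B s y + 1 := by
        unfold cnt
        rw [h4, Finset.card_insert_of_notMem]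
        simp
      rw [h5, cnt_eq h2 hs, h3]

/-- an infinite set of natural numbers has full size -/
theorem fullSize_nat {B : ℕ → Set P} {q : P}
    (hB : ∀ N : ℕ, ∀ q' ≤ q, ∃ r ≤ q', ∃ k ≥ N, r ∈ meets (B k)) : q ∈ HasFullSize B := by
  classical
  refine mem_fex_of_mem (enumName B) (down_fand (down_IsFun _) (down_fand (down_IsInj _)
    (down_fall fun _ => down_fall fun _ => down_fimp _ _))) ⟨⟨fun x => ?_, fun x y y' => ?_⟩,
    fun x x' y => ?_, fun x y => ?_⟩
  · refine mem_fex.2 fun q' hq' => ?_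
    obtain ⟨r, hr, y, h⟩ := exists_enum hB x q' hq'
    exact ⟨r, hr, y, meets_of_mem h⟩
  · refine mem_fimp.2 fun r _ h => ?_
    obtain ⟨s, hs, h1⟩ := exists_of_meets (down_enumName B x y) h.1
    obtain ⟨t, ht, h2⟩ := exists_of_meets (down_enumName B x y') (down_meets _ _ h.2 s hs)
    have h3 := down_enumName B x y s h1 t ht
    have key : ∀ a b : ℕ, a < b → t ∈ enumName B x a → t ∈ enumName B x b → False := by
      intro a b hab ha hb
      have h4 : insert a ((Finset.range a).filter fun k => t ∈ meets (B k)) ⊆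
          (Finset.range b).filter fun k => t ∈ meets (B k) := by
        intro k hk
        rcases Finset.mem_insert.1 hk with rfl | hk
        · exact Finset.mem_filter.2 ⟨Finset.mem_range.2 hab, ha.1⟩
        · obtain ⟨h5, h6⟩ := Finset.mem_filter.1 hk
          exact Finset.mem_filter.2 ⟨Finset.mem_range.2 ((Finset.mem_range.1 h5).trans hab), h6⟩
      have h7 := Finset.card_le_card h4
      rw [Finset.card_insert_of_notMem (by simp)] at h7
      have h8 : cnt B t a = x := ha.2.2
      have h9 : cnt B t b = x := hb.2.2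
      unfold cnt at h8 h9
      omega
    refine ⟨t, ht.trans hs, ?_⟩
    rcases lt_trichotomy y y' with h4 | h4 | h4
    · exact absurd (key _ _ h4 h3 h2) id
    · exact h4
    · exact absurd (key _ _ h4 h2 h3) id
  · refine mem_fimp.2 fun r _ h => ?_
    obtain ⟨s, hs, h1⟩ := exists_of_meets (down_enumName B x y) h.1
    obtain ⟨t, ht, h2⟩ := exists_of_meets (down_enumName B x' y) (down_meets _ _ h.2 s hs)
    have h3 := down_enumName B x y s h1 t ht
    exact ⟨t, ht.trans hs, h3.2.2.symm.trans h2.2.2⟩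
  · refine mem_fimp.2 fun r _ h => ?_
    obtain ⟨s, hs, h1⟩ := exists_of_meets (down_enumName B x y) h
    exact ⟨s, hs, h1.1⟩

end Pool.Agent.Helper539.SPNat
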