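import Mathlib
import Pool.Agent.Helper539.SGFull
import Pool.Agent.Helper539.SPNat

/-!
# The positive polarized relation in the extension
-/

namespace Pool.Agent.Helper539.SGPol

universe u

set_option linter.unusedSectionVars false

open Pool.Agent.Helper539.SGIter Pool.Agent.Helper539.SGDelta Pool.Agent.Helper539.SGStep
open Pool.Agent.Helper539.SGTop Pool.Agent.Helper539.SPForcing Pool.Agent.Helper539.SGLevel
open Pool.Agent.Helper539.SGGood Pool.Agent.Helper539.SGSize Pool.Agent.Helper539.SGSplit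
open Pool.Agent.Helper539.SGMk Pool.Agent.Helper539.SGFull Pool.Agent.Helper539.SPNat
open Pool.Agent.Helper539.SGCount

variable {K : Type u} [LinearOrder K] [OrderBot K] [Reg K]
  {J : Type u} [LinearOrder J] [WellFoundedLT J]

/-! ### The first case: unboundedly many sets almost miss an infinite set -/

/-- some infinite set is almost disjoint from unboundedly many of the sets `C i` -/
def CaseA (B : Set (Rep K J)) (ξ : J) (p0 : Rep K J) (C : K → ℕ → Set (Om K J)) : Prop :=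
  ∃ q0 ∈ B, q0 ≤ p0 ∧ ∃ Y : ℕ → Set (Om K J), (∀ n, Op B ξ (Y n)) ∧ Inf B ξ Y q0 ∧
    ∀ q ∈ B, q ≤ q0 → ∀ z, ∃ i, z ≤ i ∧ ¬ Inf B ξ (fun n => Y n ∩ C i n) q

theorem caseA {b : J × Sq K J} {p0 : Rep K J} (hp0 : p0 ∈ BB b.2 b.1) {c : K → ℕ → Set (TT K J)}
    (hd : ∀ i n, Dcd b (meets (c i n)))
    (h : CaseA (BB b.2 b.1) b.1 p0 fun i n => Lv b (meets (c i n))) :
    ∃ t ≤ tt b p0 hp0, ∃ A : K → Set (TT K J), ∃ B : ℕ → Set (TT K J), t ∈
      fand (HasFullSize A) (fand (HasFullSize B)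
        (for'
          (fall fun x => fall fun y => fimp (fand (meets (A x)) (meets (B y))) (meets (c x y)))
          (fall fun x => fall fun y =>
            fimp (fand (meets (A x)) (meets (B y))) (fnot (meets (c x y)))))) := by
  obtain ⟨q0, hq0, hle0, Y, _, hinf, hun⟩ := h
  let D : K → ℕ → Set (Rep K J) := fun i N => {q | ∀ q' ∈ BB b.2 b.1, q' ≤ q → ∀ n, N ≤ n →
    ¬ bs q' b.1 ⊆ Y n ∩ Lv b (meets (c i n))}
  obtain ⟨N, q1, hq1, hle1, h1⟩ := pigeon hq0 D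
    (fun i N q hq q' _ hle q'' hq'' hle'' => hq q'' hq'' (hle''.trans hle))
    (fun q hq hle z => by
      obtain ⟨i, hi, h2⟩ := hun q hq hle z
      unfold Inf at h2
      push Not at h2
      obtain ⟨q', hq', h3, N, h4⟩ := h2
      exact ⟨i, hi, N, q', hq', fun q'' hq'' h5 n hn => h4 q'' hq'' h5 n hn, h3⟩)
  let A : K → Set (TT K J) := fun i => {t | ∃ q, ∃ h : q ∈ BB b.2 b.1, q ∈ D i N ∧ t ≤ tt b q h}
  let B : ℕ → Set (TT K J) := fun n => {t | N ≤ n ∧ ∃ q, ∃ h : q ∈ BB b.2 b.1, bs q b.1 ⊆ Y n ∧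
    t ≤ tt b q h}
  have hdA : ∀ i, Down (A i) := fun i t ⟨q, h, h1, h2⟩ t' ht' => ⟨q, h, h1, ht'.trans h2⟩
  have hdB : ∀ n, Down (B n) := fun n t ⟨h0, q, h, h1, h2⟩ t' ht' =>
    ⟨h0, q, h, h1, ht'.trans h2⟩
  refine ⟨tt b q1 hq1, tt_le (Ext.refl b) (hle1.trans hle0), A, B, fullSize hq1 (fun i => D i N) h1,
    fullSize_nat fun M t ht => ?_, mem_for.2 fun t ht => ⟨t, le_rfl, Or.inr fun x y => ?_⟩⟩
  · obtain ⟨q, hq, h2, n, hn, h3⟩ := hinf (SGIter.res t.p b.1) (ht.1.res_mem t.mem)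
      ((res_le ht.2 hq1.2).trans hle1) (max M N)
    obtain ⟨t', h4, h5, _⟩ := exists_amal ht.1 hq h2
    exact ⟨t', h4, n, (le_max_left _ _).trans hn, meets_of_mem
      ⟨(le_max_right _ _).trans hn, q, hq, h3, h5⟩⟩
  · refine mem_fimp.2 fun t1 ht1 h => ?_
    obtain ⟨t2, h2, q, hq, h3, h4⟩ := exists_of_meets (hdA x) h.1
    obtain ⟨t3, h5, hN, q', hq', h6, h7⟩ := exists_of_meets (hdB y) (down_meets _ _ h.2 t2 h2)
    refine ⟨t3, h5.trans h2, fun t4 h8 h9 => ?_⟩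
    have hE : Ext b t4.b := h7.1.trans h8.1
    obtain ⟨q3, h10, hq3, h11⟩ := exists_of_force (down_meets _) (hd x y) hE h9
    have h12 : q3 ≤ q := h10.trans (res_le (h8.trans (h5.trans h4)).2 hq.2)
    have h13 : q3 ≤ q' := h10.trans (res_le (h8.trans h7).2 hq'.2)
    exact h3 q3 hq3 h12 y hN fun w hw => ⟨h6 (bs_le h13 b.1 hw), bs_sub_Lv hq3 h11 hw⟩

/-! ### The second case -/

/-- the modified sequence -/
def Em (b : J × Sq K J) (p0 : Rep K J) (c : K → ℕ → Set (TT K J)) (i : K) (n : ℕ) : Set (Om K J) :=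
  Lv b (meets (c i n)) ∪
    ⋃ q ∈ {q : Rep K J | q ∈ BB b.2 b.1 ∧ ¬ Cpt (BB b.2 b.1) q p0}, bs q b.1

theorem ht_Em {b : J × Sq K J} {p0 : Rep K J} {c : K → ℕ → Set (TT K J)}
    (h : ¬ CaseA (BB b.2 b.1) b.1 p0 fun i n => Lv b (meets (c i n))) :
    HT (BB b.2 b.1) b.1 (Em b p0 c) := by
  unfold CaseA at h
  push Not at h
  refine ⟨fun i n => ?_, fun Y hY => ?_⟩
  · rintro w (hw | hw)
    · obtain ⟨q, hq, h1, h2⟩ := Op_Lv b _ w hw
      exact ⟨q, hq, h1, h2.trans Set.subset_union_left⟩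
    · have h1 : Op (BB b.2 b.1) b.1
          (⋃ q ∈ {q : Rep K J | q ∈ BB b.2 b.1 ∧ ¬ Cpt (BB b.2 b.1) q p0}, bs q b.1) :=
        Op_iUnion fun _ => Op_iUnion fun hq => Op_bs hq.1
      obtain ⟨q, hq, h2, h3⟩ := h1 w hw
      exact ⟨q, hq, h2, h3.trans Set.subset_union_right⟩
  · obtain ⟨A, hA1, hA2, hA3⟩ := exists_antichain (RR' := RR b.2) (ξ := b.1)
      {q | q ∈ BB b.2 b.1 ∧ ∃ z, ∀ i, z ≤ i →
        Inf (BB b.2 b.1) b.1 (fun n => Y n ∩ Lv b (meets (c i n))) q} fun q hq => hq.1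
    choose β hβ using fun a : A => (hA1 a.2).2
    obtain ⟨z, hz⟩ := exists_lt_range β
    refine ⟨z, fun i hi q hq hinf q' hq' hle N => ?_⟩
    by_cases hc : Cpt (BB b.2 b.1) q' p0
    · obtain ⟨q1, hq1, h1, h2⟩ := hc
      obtain ⟨q2, hq2, h3, z', h4⟩ := h q1 hq1 h2 Y hY (hinf.mono_q (h1.trans hle))
      obtain ⟨a, ha, q3, hq3, h5, h6⟩ := hA3 q2 ⟨hq2, z', h4⟩
      obtain ⟨q4, hq4, h7, n, hn, h8⟩ :=
        (hβ ⟨a, ha⟩ i ((hz ⟨a, ha⟩).le.trans hi)).mono_q h5 q3 hq3 le_rfl N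
      exact ⟨q4, hq4, ((h7.trans h6).trans h3).trans h1, n, hn,
        fun w hw => ⟨(h8 hw).1, Or.inl (h8 hw).2⟩⟩
    · obtain ⟨q'', hq'', h1, n, hn, h2⟩ := hinf q' hq' hle N
      refine ⟨q'', hq'', h1, n, hn, fun w hw => ⟨h2 hw, Or.inr ?_⟩⟩
      refine Set.mem_biUnion (x := q'') ⟨hq'', ?_⟩ hw
      rintro ⟨r, hr, h3, h4⟩
      exact hc ⟨r, hr, h3.trans h1, h4⟩

/-- the promise to stay in the set number `d` -/
def Rd (G : K → ℕ → Set (Om K J)) (ξ : J) (d : K) : Pr K J :=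
  Rp ξ G fun _ => {(one K J, {d}, 0)}

theorem Rd_mem {𝔸 : Sq K J} {ξ : J} (d : K) : Rd (GA 𝔸 ξ) ξ d ∈ RR 𝔸 ξ := by
  refine mem_RR.2 ⟨_, fun s => ⟨?_, ?_, fun q hq => ?_⟩, rfl⟩
  · rintro x rfl
    exact one_mem _ _
  · infer_instance
  · exact ⟨_, rfl, q, hq, le_rfl, le_one q⟩

open Classical in
/-- adding a promise -/
noncomputable def addpr (q : Rep K J) (η : J) (R : Pr K J) : Rep K J where
  c := q.c
  st := q.st
  pr := Function.update q.pr η (insert R (q.pr η))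
  finc := q.finc
  fin := by
    refine (q.fin.union (Set.finite_singleton η)).subset fun ζ hζ => ?_
    by_cases h : ζ = η
    · right; exact h
    · left; simpa [Function.update_of_ne h] using hζ

theorem addpr_self (q : Rep K J) (η : J) (R : Pr K J) : R ∈ (addpr q η R).pr η := by
  simp [addpr]

theorem addpr_le (q : Rep K J) (η : J) (R : Pr K J) : addpr q η R ≤ q := by
  refine ⟨fun _ => List.prefix_refl _, fun ζ => ⟨List.prefix_refl _, ?_,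
    fun _ _ _ _ h h' => (no_new h h').elim⟩⟩
  by_cases h : ζ = η
  · subst h
    simp [addpr]
  · simp [addpr, Function.update_of_ne h]

theorem addpr_mem {RR' : J → Set (Pr K J)} {q : Rep K J} {η ξ : J} (hq : q ∈ Vd RR' ξ) (hη : η < ξ)
    {R : Pr K J} (hR : R ∈ RR' η) : addpr q η R ∈ Vd RR' ξ := by
  refine ⟨fun ζ R' hR' => ?_, fun ζ hζ => ⟨(hq.2 ζ hζ).1, ?_⟩⟩
  · by_cases h : ζ = η
    · subst h
      simp only [addpr, Function.update_self, Finset.mem_insert] at hR'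
      rcases hR' with rfl | hR'
      · exact hR
      · exact hq.1 _ _ hR'
    · simp only [addpr, Function.update_of_ne h] at hR'
      exact hq.1 _ _ hR'
  · have h : ζ ≠ η := (hη.trans_le hζ).ne'
    simp only [addpr, Function.update_of_ne h]
    exact (hq.2 ζ hζ).2

theorem caseB (hJ : ∀ ξ : J, LeK K (Set.Iio ξ)) {b : J × Sq K J} {p0 : Rep K J}
    (hp0 : p0 ∈ BB b.2 b.1) {c : K → ℕ → Set (TT K J)}
    (h : ¬ CaseA (BB b.2 b.1) b.1 p0 fun i n => Lv b (meets (c i n)))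
    {ξ' : J} (hξ' : IsSuc b.1 ξ') :
    ∃ t ≤ tt b p0 hp0, ∃ A : K → Set (TT K J), ∃ B : ℕ → Set (TT K J), t ∈
      fand (HasFullSize A) (fand (HasFullSize B)
        (for'
          (fall fun x => fall fun y => fimp (fand (meets (A x)) (meets (B y))) (meets (c x y)))
          (fall fun x => fall fun y =>
            fimp (fand (meets (A x)) (meets (B y))) (fnot (meets (c x y)))))) := by
  classical
  have hG : ∀ (𝔸 : Sq K J) (ζ : J), Good (RR 𝔸) ζ := fun 𝔸 ζ => good hJ 𝔸 ζ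
  obtain ⟨ξ, 𝔸⟩ := b
  simp only at hp0 h hξ'
  set b : J × Sq K J := (ξ, 𝔸) with hbdef
  set 𝔸' : Sq K J := Function.update 𝔸 ξ (Em b p0 c) with h𝔸'
  set b' : J × Sq K J := (ξ', 𝔸') with hb'def
  have hbb' : Ext b b' := ⟨hξ'.1.le, fun ζ hζ => (Function.update_of_ne (ne_of_lt hζ) _ _).symm⟩
  have hBB : BB 𝔸' ξ = BB 𝔸 ξ := (BB_congr hbb'.2).symm
  have hself : 𝔸' ξ = Em b p0 c := Function.update_self _ _ _
  have hGA : ∀ d, GA 𝔸' ξ d = Em b p0 c (ix (BB 𝔸' ξ) ξ (𝔸' ξ) d) := by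
    intro d
    have h1 : HT (BB 𝔸' ξ) ξ (𝔸' ξ) := by
      rw [hself, hBB]
      exact ht_Em h
    have h2 : Ev (BB 𝔸' ξ) ξ (𝔸' ξ) = Em b p0 c := by
      unfold Ev
      rw [if_pos h1, hself]
    show Ev (BB 𝔸' ξ) ξ (𝔸' ξ) _ = _
    rw [h2]
  set ι : K → K := ix (BB 𝔸' ξ) ξ (𝔸' ξ) with hι
  have hιmono : StrictMono ι := strictMono_ix hJ 𝔸' ξ
  have hp0' : p0 ∈ BB b'.2 b'.1 := hbb'.mem hp0
  let D : K → ℕ → Set (Rep K J) := fun i N => {q | ∃ q0, q ≤ q0 ∧ ∃ d, ι d = i ∧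
    Rd (GA 𝔸' ξ) ξ d ∈ q0.pr ξ ∧ (q0.st ξ).length ≤ N}
  obtain ⟨N, q1, hq1, hle1, h1⟩ := pigeon (RR' := RR b'.2) (ξ := b'.1) hp0' D
    (fun i N q ⟨q0, h2, h3⟩ q' _ hle => ⟨q0, hle.trans h2, h3⟩)
    (fun q hq hle z => ⟨ι z, hιmono.le_apply, (q.st ξ).length, addpr q ξ (Rd (GA 𝔸' ξ) ξ z),
      addpr_mem hq hξ'.1 (Rd_mem z), ⟨_, le_rfl, z, rfl, addpr_self _ _ _, le_rfl⟩,
      addpr_le _ _ _⟩)
  let A : K → Set (TT K J) := fun i => {t | ∃ q, ∃ h : q ∈ BB b'.2 b'.1, q ∈ D i N ∧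
    t ≤ tt b' q h}
  let B : ℕ → Set (TT K J) := fun m => {t | ∃ s, s ++ [m] <+: t.p.st ξ ∧ N ≤ s.length}
  have hdA : ∀ i, Down (A i) := fun i t ⟨q, h, h1, h2⟩ t' ht' => ⟨q, h, h1, ht'.trans h2⟩
  have hdB : ∀ n, Down (B n) := fun n t ⟨s, h1, h2⟩ t' ht' => ⟨s, h1.trans (le_st ht'.2 ξ), h2⟩
  refine ⟨tt b' q1 hq1, ⟨hbb', hle1⟩, A, B, fullSize hq1 (fun i => D i N) h1,
    fullSize_nat fun M t ht => ?_, mem_for.2 fun t ht => ⟨t, le_rfl, Or.inl fun x y => ?_⟩⟩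
  · have hlt : ξ < t.α := hξ'.1.trans_le ht.1.1
    obtain ⟨p1, hp1, h2, h3⟩ := exists_long (fun ζ _ => hG t.𝔸 ζ) t.mem hlt N
    obtain ⟨q, hq, h4, m, hm, h5⟩ := (hG t.𝔸 ξ).amal (p1.pr ξ) (hp1.1 ξ) (p1.st ξ)
      (SGIter.res p1 ξ) (SGIter.res_mem hp1.1 ξ) M
    have h6 : push (glue q p1 ξ) ξ m ∈ BB t.𝔸 t.α :=
      push_mem (glue_mem hq hp1 hlt.le) hlt m
    have h7 : push (glue q p1 ξ) ξ m ≤ p1 := by
      refine le_trans (push_le fun R hR => ?_) (glue_le h4)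
      rw [glue_pr_ge le_rfl] at hR
      rw [glue_st_ge le_rfl, bs_glue le_rfl]
      exact h5 R hR
    refine ⟨tt t.b (push (glue q p1 ξ) ξ m) h6, ⟨Ext.refl _, h7.trans h2⟩, m, hm,
      meets_of_mem ⟨p1.st ξ, ?_, h3⟩⟩
    show p1.st ξ ++ [m] <+: (push (glue q p1 ξ) ξ m).st ξ
    rw [push_st_self, glue_st_ge le_rfl]
  · refine mem_fimp.2 fun t1 ht1 h2 => ?_
    obtain ⟨t2, h3, q, hq, ⟨q0, h4, d, h5, h6, h7⟩, h8⟩ := exists_of_meets (hdA x) h2.1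
    obtain ⟨t3, h9, s, h10, h11⟩ := exists_of_meets (hdB y) (down_meets _ _ h2.2 t2 h3)
    refine ⟨t3, h9.trans h3, ?_⟩
    have ht3 : t3 ≤ tt b' q1 hq1 := h9.trans (h3.trans (ht1.trans ht))
    have h12 : t3.p ≤ q0 := (h9.trans h8).2.trans h4
    have h13 : bs t3.p ξ ⊆ Rd (GA 𝔸' ξ) ξ d s y := le_new h12 h6 h10 (h7.trans h11)
    have h14 : t3.p ≤ p0 := ht3.2.trans hle1
    refine force_of_sub hG (local_meets _) (b := b) (hbb'.trans ht3.1) fun w hw => ?_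
    obtain ⟨x', hx', _, _, h15⟩ := h13 hw
    have hx'' : x' = (one K J, {d}, 0) := hx'
    rw [hx''] at h15
    have h16 : w ∈ GA 𝔸' ξ d y := h15 d (Finset.mem_singleton_self d)
    rw [hGA, h5] at h16
    rcases h16 with h16 | h16
    · exact h16
    · simp only [Set.mem_iUnion] at h16
      obtain ⟨r, hr, h17⟩ := h16
      obtain ⟨r', hr', h18, h19, _⟩ := compat_of_point (fun ζ _ => hG 𝔸 ζ) hr.1 hp0 h17
        (bs_le h14 ξ hw)
      exact absurd ⟨r', hr', h18, h19⟩ hr.2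

/-- The strong polarized relation for `κ` and `ω` holds in the extension. -/
theorem polarized (hJ : ∀ ξ : J, LeK K (Set.Iio ξ))
    (hcof : ∀ S : Set J, LeK K S → ∃ b, ∀ s ∈ S, s < b) (p : TT K J) :
    p ∈ Polarized (TT K J) K ℕ := by
  intro c
  refine mem_fex.2 fun t0 _ => ?_
  have hN : LeK K (ULift.{u} ℕ) := LeK.of_small inferInstance
  have hK : LeK K K := ⟨Function.Embedding.refl _⟩
  obtain ⟨b, hb, hd⟩ := exists_dcd hJ hcof (Y := K × ULift.{u} ℕ) (hK.prod hN)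
    (fun x => c x.1 x.2.down) t0.b
  have hd' : ∀ i n, Dcd b (meets (c i n)) := fun i n => hd (i, ULift.up n)
  have hp0 : t0.p ∈ BB b.2 b.1 := hb.mem t0.mem
  obtain ⟨ξ', hξ', hmin⟩ := WellFounded.has_min (wellFounded_lt (α := J)) {ζ | b.1 < ζ} (by
    obtain ⟨z, hz⟩ := hcof {b.1} (LeK.of_small inferInstance)
    exact ⟨z, hz _ rfl⟩)
  have hsuc : IsSuc b.1 ξ' := ⟨hξ', fun ζ hζ => by
    by_contra hcon
    exact hmin ζ (not_le.1 hcon) hζ⟩
  have key : ∃ t ≤ tt b t0.p hp0, ∃ A : K → Set (TT K J), ∃ B : ℕ → Set (TT K J), t ∈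
      fand (HasFullSize A) (fand (HasFullSize B)
        (for'
          (fall fun x => fall fun y => fimp (fand (meets (A x)) (meets (B y))) (meets (c x y)))
          (fall fun x => fall fun y =>
            fimp (fand (meets (A x)) (meets (B y))) (fnot (meets (c x y)))))) := by
    by_cases h : CaseA (BB b.2 b.1) b.1 t0.p fun i n => Lv b (meets (c i n))
    · exact caseA hp0 hd' h
    · exact caseB hJ hp0 h hsuc
  obtain ⟨t, ht, A, B, h⟩ := key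
  refine ⟨t, ht.trans ⟨hb, le_rfl⟩, A, mem_fex_of_mem B ?_ h⟩
  exact down_fand (down_HasFullSize _) (down_fand (down_HasFullSize _) (down_for _ _))

end Pool.Agent.Helper539.SGPol
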