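import Mathlib
import Pool.Agent.Helper539.SPForcing

/-!
# No countable family is splitting in the extension
-/

namespace Pool.Agent.Helper539.SPCnt

open Pool.Agent.Helper539.SPForcing

universe u v w

variable {P : Type u} [Preorder P]

section DC

variable {St : Type w}

/-- canonical selection -/
def Sel (A : P → St → Prop) (r : P) (σ : St) : Prop :=
  A r σ ∧ ∀ σ', WellOrderingRel σ' σ → ∀ r' ≤ r, ¬ A r' σ'

theorem Sel.mono {A : P → St → Prop} (hA : ∀ r σ, A r σ → ∀ r' ≤ r, A r' σ) {r : P} {σ : St}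
    (h : Sel A r σ) {r' : P} (hr : r' ≤ r) : Sel A r' σ :=
  ⟨hA r σ h.1 r' hr, fun σ' hσ r'' hr'' => h.2 σ' hσ r'' (hr''.trans hr)⟩

theorem Sel.unique {A : P → St → Prop} {r : P} {σ σ' : St} (h : Sel A r σ) (h' : Sel A r σ') :
    σ = σ' := by
  rcases trichotomous_of (WellOrderingRel (α := St)) σ σ' with h1 | h1 | h1
  · exact absurd h.1 (h'.2 σ h1 r le_rfl)
  · exact h1
  · exact absurd h'.1 (h.2 σ' h1 r le_rfl)

theorem Sel.dense {A : P → St → Prop} {q : P} (h : ∃ r ≤ q, ∃ σ, A r σ) :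
    ∃ r ≤ q, ∃ σ, Sel A r σ := by
  obtain ⟨r, hr, σ, hσ⟩ := h
  obtain ⟨σ0, ⟨r0, hr0, h0⟩, hmin⟩ := (IsWellFounded.wf (r := WellOrderingRel (α := St))).has_min
    {σ | ∃ r ≤ q, A r σ} ⟨σ, r, hr, hσ⟩
  exact ⟨r0, hr0, σ0, h0, fun σ' hσ' r' hr' hA => hmin σ' ⟨r', hr'.trans hr0, hA⟩ hσ'⟩

/-- generic sequence of states -/
def DD (Inv : ℕ → P → St → Prop) (T : ℕ → St → St → Prop) : ℕ → P → St → Prop
  | 0 => Sel (Inv 0)
  | n + 1 => fun r σ' => ∃ σ, DD Inv T n r σ ∧ Sel (fun r σ' => T n σ σ' ∧ Inv (n + 1) r σ') r σ'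

variable {Inv : ℕ → P → St → Prop} {T : ℕ → St → St → Prop}

theorem DD_mono (hI : ∀ n r σ, Inv n r σ → ∀ r' ≤ r, Inv n r' σ) (n : ℕ) :
    ∀ {r : P} {σ : St}, DD Inv T n r σ → ∀ r' ≤ r, DD Inv T n r' σ := by
  induction n with
  | zero => intro r σ h r' hr'; exact Sel.mono (hI 0) h hr'
  | succ n ih =>
    rintro r σ' ⟨σ, h1, h2⟩ r' hr'
    exact ⟨σ, ih h1 r' hr', h2.mono (fun r σ h r' hr => ⟨h.1, hI _ _ _ h.2 _ hr⟩) hr'⟩

theorem DD_inv (n : ℕ) : ∀ {r : P} {σ : St}, DD Inv T n r σ → Inv n r σ := by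
  cases n with
  | zero => intro r σ h; exact h.1
  | succ n => rintro r σ' ⟨σ, _, h2⟩; exact h2.1.2

theorem DD_unique (n : ℕ) : ∀ {r : P} {σ σ' : St}, DD Inv T n r σ → DD Inv T n r σ' → σ = σ' := by
  induction n with
  | zero => intro r σ σ' h h'; exact h.unique h'
  | succ n ih =>
    rintro r σ σ' ⟨σ1, h1, h2⟩ ⟨σ1', h1', h2'⟩
    obtain rfl := ih h1 h1'
    exact h2.unique h2'

theorem DD_dense (hI : ∀ n r σ, Inv n r σ → ∀ r' ≤ r, Inv n r' σ) (h0 : ∀ q, ∃ r ≤ q, ∃ σ, Inv 0 r σ)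
    (hs : ∀ n q σ, Inv n q σ → ∃ r ≤ q, ∃ σ', T n σ σ' ∧ Inv (n + 1) r σ') (n : ℕ) :
    ∀ q : P, ∃ r ≤ q, ∃ σ, DD Inv T n r σ := by
  induction n with
  | zero => intro q; exact Sel.dense (h0 q)
  | succ n ih =>
    intro q
    obtain ⟨r, hr, σ, hσ⟩ := ih q
    obtain ⟨r', hr', σ', hσ'⟩ := Sel.dense (A := fun r σ' => T n σ σ' ∧ Inv (n + 1) r σ')
      (hs n r σ (DD_inv n hσ))
    exact ⟨r', hr'.trans hr, σ', σ, DD_mono hI n hσ r' hr', hσ'⟩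

end DC

section main

variable (E : ℕ → ℕ → Set P)

theorem meets_mono {N : Set P} {p q : P} (h : p ∈ meets N) (hq : q ≤ p) : q ∈ meets N :=
  fun r hr => h r (hr.trans hq)

theorem fnot_mono {N : Set P} {p q : P} (h : p ∈ fnot N) (hq : q ≤ p) : q ∈ fnot N :=
  fun r hr => h r (hr.trans hq)

/-- `r` forces that `k` is in the intersection named by the first `n` bits of `e`. -/
def In (n : ℕ) (r : P) (e : ℕ → Bool) (k : ℕ) : Prop :=
  ∀ i < n, (e i = true → r ∈ meets (E i k)) ∧ (e i = false → r ∈ fnot (meets (E i k)))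

theorem In_mono {n : ℕ} {r : P} {e : ℕ → Bool} {k : ℕ} (h : In E n r e k) {r' : P} (hr : r' ≤ r) :
    In E n r' e k :=
  fun i hi => ⟨fun h1 => meets_mono ((h i hi).1 h1) hr, fun h1 => fnot_mono ((h i hi).2 h1) hr⟩

/-- the intersection is forced to be infinite -/
def Live (n : ℕ) (r : P) (e : ℕ → Bool) : Prop :=
  ∀ q ≤ r, ∀ N : ℕ, ∃ q2 ≤ q, ∃ k, N ≤ k ∧ In E n q2 e k

theorem Live_mono {n : ℕ} {r : P} {e : ℕ → Bool} (h : Live E n r e) {r' : P} (hr : r' ≤ r) :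
    Live E n r' e := fun q hq => h q (hq.trans hr)

theorem In_congr {n : ℕ} {r : P} {e e' : ℕ → Bool} {k : ℕ} (h : In E n r e k)
    (he : ∀ i < n, e' i = e i) : In E n r e' k := by
  intro i hi
  rw [he i hi]
  exact h i hi

theorem Live_step {n : ℕ} {q : P} {e : ℕ → Bool} (h : Live E n q e) :
    ∃ q1 ≤ q, ∃ e' : ℕ → Bool, (∀ i < n, e' i = e i) ∧ Live E (n + 1) q1 e' := by
  by_cases h1 : Live E (n + 1) q (Function.update e n true)
  · exact ⟨q, le_rfl, _, fun i hi => Function.update_of_ne hi.ne _ _, h1⟩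
  · unfold Live at h1
    push Not at h1
    obtain ⟨q1, hq1, N, hN⟩ := h1
    refine ⟨q1, hq1, Function.update e n false, fun i hi => Function.update_of_ne hi.ne _ _, ?_⟩
    intro q1' hq1' N'
    obtain ⟨q2, hq2, k, hk, hin⟩ := h q1' (hq1'.trans hq1) (max N N')
    refine ⟨q2, hq2, k, (le_max_right _ _).trans hk, ?_⟩
    intro i hi
    rcases Nat.lt_succ_iff_lt_or_eq.1 hi with hi' | rfl
    · rw [Function.update_of_ne hi'.ne]
      exact hin i hi'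
    · simp only [Function.update_self]
      refine ⟨fun h => by simp at h, fun _ q3 hq3 hm => ?_⟩
      refine hN q3 (hq3.trans (hq2.trans hq1')) k ((le_max_left _ _).trans hk) ?_
      intro j hj
      rcases Nat.lt_succ_iff_lt_or_eq.1 hj with hj' | rfl
      · rw [Function.update_of_ne hj'.ne]
        exact In_mono E hin hq3 j hj'
      · simp only [Function.update_self]
        exact ⟨fun _ => hm, fun h => by simp at h⟩

/-- invariant of the states -/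
def Iv (n : ℕ) (r : P) (σ : (ℕ → Bool) × ℕ) : Prop :=
  Live E n r σ.1 ∧ In E n r σ.1 σ.2 ∧ n ≤ σ.2

/-- transition of the states -/
def Tr (n : ℕ) (σ σ' : (ℕ → Bool) × ℕ) : Prop := ∀ i < n, σ'.1 i = σ.1 i

theorem Iv_mono (n : ℕ) (r : P) (σ : (ℕ → Bool) × ℕ) (h : Iv E n r σ) (r' : P) (hr : r' ≤ r) :
    Iv E n r' σ := ⟨Live_mono E h.1 hr, In_mono E h.2.1 hr, h.2.2⟩

theorem Iv_zero (q : P) : ∃ r ≤ q, ∃ σ, Iv E 0 r σ :=
  ⟨q, le_rfl, (fun _ => true, 0), fun q' _ N => ⟨q', le_rfl, N, le_rfl, fun i hi => by omega⟩,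
    fun i hi => by omega, le_rfl⟩

theorem Iv_succ (n : ℕ) (q : P) (σ : (ℕ → Bool) × ℕ) (h : Iv E n q σ) :
    ∃ r ≤ q, ∃ σ', Tr n σ σ' ∧ Iv E (n + 1) r σ' := by
  obtain ⟨q1, hq1, e', he', hL⟩ := Live_step E h.1
  obtain ⟨q2, hq2, k, hk, hin⟩ := hL q1 le_rfl (n + 1)
  exact ⟨q2, hq2.trans hq1, (e', k), he', Live_mono E hL hq2, hin, hk⟩

/-- the states -/
abbrev DE : ℕ → P → (ℕ → Bool) × ℕ → Prop := DD (Iv E) Tr

theorem DE_down {n : ℕ} : ∀ {m : ℕ}, n ≤ m → ∀ {r : P} {σ' : (ℕ → Bool) × ℕ}, DE E m r σ' →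
    ∃ σ, DE E n r σ ∧ ∀ i < n, σ'.1 i = σ.1 i := by
  intro m hm
  induction m, hm using Nat.le_induction with
  | base => intro r σ' h; exact ⟨σ', h, fun i _ => rfl⟩
  | succ m hm ih =>
    rintro r σ' ⟨σ1, h1, h2⟩
    obtain ⟨σ, h3, h4⟩ := ih h1
    exact ⟨σ, h3, fun i hi => by rw [h2.1.1 i (by omega), h4 i hi]⟩

/-- the generic name -/
def xn (k : ℕ) : Set P := {r | ∃ n σ, DE E n r σ ∧ σ.2 = k}

theorem DE_all (n : ℕ) : ∀ q : P, ∃ r ≤ q, ∃ N : ℕ, ∀ m ≤ n, ∃ σ, DE E m r σ ∧ σ.2 < N := by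
  induction n with
  | zero =>
    intro q
    obtain ⟨r, hr, σ, hσ⟩ := DD_dense (T := Tr) (Iv_mono E) (Iv_zero E) (Iv_succ E) 0 q
    refine ⟨r, hr, σ.2 + 1, fun m hm => ?_⟩
    obtain rfl : m = 0 := by omega
    exact ⟨σ, hσ, by omega⟩
  | succ n ih =>
    intro q
    obtain ⟨r, hr, N, hN⟩ := ih q
    obtain ⟨r', hr', σ, hσ⟩ := DD_dense (T := Tr) (Iv_mono E) (Iv_zero E) (Iv_succ E) (n + 1) r
    refine ⟨r', hr'.trans hr, max N (σ.2 + 1), fun m hm => ?_⟩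
    rcases Nat.lt_or_ge n m with h | h
    · obtain rfl : m = n + 1 := by omega
      exact ⟨σ, hσ, lt_of_lt_of_le (by omega) (le_max_right _ _)⟩
    · obtain ⟨σ', h1, h2⟩ := hN m h
      exact ⟨σ', DD_mono (Iv_mono E) m h1 r' hr', lt_of_lt_of_le h2 (le_max_left _ _)⟩

theorem xn_mono {k : ℕ} {r : P} (h : r ∈ xn E k) {r' : P} (hr : r' ≤ r) : r' ∈ xn E k := by
  obtain ⟨n, σ, h1, h2⟩ := h
  exact ⟨n, σ, DD_mono (Iv_mono E) n h1 r' hr, h2⟩

theorem mem_meets_of_mem {N : Set P} {r : P} (h : r ∈ N) : r ∈ meets N :=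
  fun q hq => ⟨q, le_rfl, r, h, hq⟩

theorem key (n : ℕ) (q : P) : ∃ r ≤ q, ∃ b : Bool, ∃ N : ℕ, ∀ k, N ≤ k → ∀ r2 ≤ r,
    r2 ∈ meets (xn E k) → ∃ r3 ≤ r2, (b = true → r3 ∈ meets (E n k)) ∧
      (b = false → r3 ∈ fnot (meets (E n k))) := by
  obtain ⟨r, hr, N, hN⟩ := DE_all E (n + 1) q
  obtain ⟨σ, hσ, _⟩ := hN (n + 1) le_rfl
  refine ⟨r, hr, σ.1 n, N, fun k hk r2 hr2 hm => ?_⟩
  obtain ⟨r3, hr3, s, hs, hrs⟩ := hm r2 le_rfl
  obtain ⟨m, σ', hσ', hk'⟩ := xn_mono E hs hrs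
  have hmn : n + 1 ≤ m := by
    by_contra hcon
    obtain ⟨σ1, h1, h2⟩ := hN m (by omega)
    have := DD_unique m (DD_mono (Iv_mono E) m h1 r3 (hr3.trans hr2)) hσ'
    rw [this] at h2
    omega
  obtain ⟨σ1, h1, h2⟩ := DE_down E hmn hσ'
  have h3 := DD_unique (n + 1) (DD_mono (Iv_mono E) (n + 1) hσ r3 (hr3.trans hr2)) h1
  have h4 : σ'.1 n = σ.1 n := by rw [h2 n (by omega), h3]
  have h5 := (DD_inv m hσ').2.1 n (by omega)
  rw [h4, hk'] at h5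
  exact ⟨r3, hr3, h5⟩

end main

/-- In the extension no countable family splits all infinite sets: for every sequence `E` of sets
there is an infinite set not split by any of them (that is, `𝔰 > ℵ₀`). -/
theorem countable_not_splitting (p : P) :
    p ∈ fall fun E : ℕ → ℕ → Set P =>
      fex fun x : ℕ → Set P => fand (InfSet x) (fall fun n => fnot (FSplits (E n) x)) := by
  intro E q _ hq
  refine hq (xn E) q le_rfl ⟨?_, ?_⟩
  · intro N q' _ hcon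
    obtain ⟨r, hr, σ, hσ⟩ := DD_dense (T := Tr) (Iv_mono E) (Iv_zero E) (Iv_succ E) N q'
    exact hcon σ.2 r hr ⟨(DD_inv N hσ).2.2, mem_meets_of_mem ⟨N, σ, hσ, rfl⟩⟩
  · intro n q' _ hsp
    obtain ⟨r, hr, b, N, hN⟩ := key E n q'
    cases b with
    | true =>
      refine hsp.2 N r hr (fun k r2 hr2 h2 => ?_)
      obtain ⟨r3, hr3, h3, _⟩ := hN k h2.1 r2 hr2 h2.2.1
      exact h2.2.2 r3 hr3 (h3 rfl)
    | false =>
      refine hsp.1 N r hr (fun k r2 hr2 h2 => ?_)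
      obtain ⟨r3, hr3, _, h3⟩ := hN k h2.1 r2 hr2 h2.2.1
      exact h3 rfl r3 le_rfl (meets_mono h2.2.2 hr3)

/-- In the extension there is no countable splitting family. -/
theorem not_hasSplittingFamily (p : P) : p ∈ fnot (HasSplittingFamily P ℕ) := by
  intro q _ hq
  obtain ⟨r, _, S, hS⟩ := mem_fex.1 hq q le_rfl
  obtain ⟨r1, hr1, x, hx1, hx2⟩ := mem_fex.1 (countable_not_splitting r S) r le_rfl
  obtain ⟨r2, hr2, h2⟩ := mem_fimp.1 (hS x) r1 hr1 hx1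
  obtain ⟨r3, hr3, n, h3⟩ := mem_fex.1 h2 r2 le_rfl
  exact hx2 n r3 (hr3.trans hr2) h3

end Pool.Agent.Helper539.SPCnt
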