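import Mathlib

/-!
Counting below the inaccessible cardinal `κ = |Ordinal.{0}|` (all in `Type 1`).
`LeK X` says `|X| ≤ κ`; sets of size less than `κ` are the small ones.
-/

namespace Pool.Agent.Helper539.SPCount

abbrev KK : Type 1 := Ordinal.{0}

/-- `|X| ≤ κ` -/
def LeK (X : Type 1) : Prop := Nonempty (X ↪ KK)

theorem LeK.of_inj {X Y : Type 1} (h : LeK Y) (f : X → Y) (hf : Function.Injective f) : LeK X := by
  obtain ⟨e⟩ := h
  exact ⟨⟨fun x => e (f x), fun x y hxy => hf (e.injective hxy)⟩⟩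

theorem LeK.of_surj {X Y : Type 1} (h : LeK X) (f : X → Y) (hf : Function.Surjective f) : LeK Y := by
  exact h.of_inj (Function.surjInv hf) (Function.injective_surjInv hf)

theorem LeK.of_small {X : Type 1} (h : Small.{0} X) : LeK X := by
  let e : X ≃ Shrink.{0} X := equivShrink X
  let r : Shrink.{0} X → Shrink.{0} X → Prop := WellOrderingRel
  exact ⟨⟨fun x => Ordinal.typein r (e x), fun x y hxy =>
    e.injective (Ordinal.typein_injective r hxy)⟩⟩

theorem sqK : Nonempty (KK × KK ↪ KK) := by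
  have hinf : Infinite KK := Infinite.of_injective (fun n : ℕ => (n : Ordinal.{0}))
    (fun a b hab => by
      have h2 : ((a : ℕ) : Ordinal.{0}) = (b : ℕ) := hab
      exact_mod_cast h2)
  have h1 : Cardinal.mk (KK × KK) = Cardinal.mk KK := by
    rw [Cardinal.mk_prod, Cardinal.lift_id, Cardinal.mul_eq_self (Cardinal.aleph0_le_mk KK)]
  obtain ⟨e⟩ := Cardinal.eq.1 h1
  exact ⟨e.toEmbedding⟩

theorem LeK.sigma {X : Type 1} (h : LeK X) (Y : X → Type 1) (hY : ∀ x, LeK (Y x)) :
    LeK (Σ x, Y x) := by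
  obtain ⟨e⟩ := h
  obtain ⟨q⟩ := sqK
  let g : ∀ x, Y x ↪ KK := fun x => Classical.choice (hY x)
  refine ⟨⟨fun p => q (e p.1, g p.1 p.2), ?_⟩⟩
  rintro ⟨x, y⟩ ⟨x', y'⟩ hxy
  have h1 := q.injective hxy
  simp only [Prod.mk.injEq] at h1
  have h2 : x = x' := e.injective h1.1
  subst h2
  rw [(g x).injective h1.2]

theorem LeK.prod {X Y : Type 1} (h : LeK X) (h' : LeK Y) : LeK (X × Y) := by
  have h1 := h.sigma (fun _ => Y) (fun _ => h')
  exact h1.of_inj (fun p => ⟨p.1, p.2⟩) (fun p p' hp => by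
    cases p; cases p'
    simp only [Sigma.mk.injEq, heq_eq_eq] at hp
    rw [hp.1, hp.2])

theorem exists_lt_aux (S : Set KK) (hS : Small.{0} S) : ∃ b : KK, ∀ s ∈ S, s < b := by
  obtain ⟨b, hb⟩ := Ordinal.bddAbove_of_small (s := S)
  exact ⟨Order.succ b, fun s hs => Order.lt_succ_of_le (hb hs)⟩

/-- functions from a small type -/
theorem LeK.fun_small {W : Type 1} [Small.{0} W] {X : Type 1} (h : LeK X) : LeK (W → X) := by
  obtain ⟨e⟩ := h
  have h1 : LeK (Σ a : KK, (W → Set.Iio a)) :=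
    LeK.sigma ⟨Function.Embedding.refl _⟩ _ (fun a => LeK.of_small inferInstance)
  have h2 : LeK (W → KK) := by
    refine h1.of_surj (fun p w => (p.2 w).1) ?_
    intro g
    obtain ⟨b, hb⟩ := exists_lt_aux (Set.range g) inferInstance
    exact ⟨⟨b, fun w => ⟨g w, hb _ ⟨w, rfl⟩⟩⟩, rfl⟩
  exact h2.of_inj (fun g w => e (g w)) (fun g g' hgg => funext fun w =>
    e.injective (congrFun hgg w))

theorem LeK.fun_small0 {W : Type} {X : Type 1} (h : LeK X) : LeK (W → X) := by
  have h1 : LeK (ULift.{1} W → X) := h.fun_small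
  exact h1.of_inj (fun g w => g w.down) (fun g g' hgg => funext fun w =>
    congrFun hgg (ULift.up w))

/-- small subsets -/
theorem LeK.smallSets {X : Type 1} (h : LeK X) : LeK {S : Set X // Small.{0} S} := by
  obtain ⟨e⟩ := h
  have h1 : LeK (Σ a : KK, Set (Set.Iio a)) :=
    LeK.sigma ⟨Function.Embedding.refl _⟩ _ (fun a => LeK.of_small inferInstance)
  have hb : ∀ S : {S : Set X // Small.{0} S}, ∃ b : KK, ∀ s ∈ S.1, e s < b := by
    rintro ⟨S, hS⟩
    obtain ⟨b, hb⟩ := exists_lt_aux (e '' S) inferInstance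
    exact ⟨b, fun s hs => hb _ ⟨s, hs, rfl⟩⟩
  choose b hb using hb
  refine h1.of_inj (fun S => ⟨b S, {i | ∃ s ∈ S.1, e s = i.1}⟩) ?_
  let G : (Σ a : KK, Set (Set.Iio a)) → Set X := fun p => {x | ∃ i ∈ p.2, i.1 = e x}
  have hG : ∀ S : {S : Set X // Small.{0} S},
      G ⟨b S, {i | ∃ s ∈ S.1, e s = i.1}⟩ = S.1 := by
    intro S
    ext x
    constructor
    · rintro ⟨i, ⟨s, hs, hsi⟩, hi⟩
      have : s = x := e.injective (hsi.trans hi)
      rw [← this]; exact hs
    · intro hx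
      exact ⟨⟨e x, hb S x hx⟩, ⟨x, hx, rfl⟩, rfl⟩
  intro S T hST
  apply Subtype.ext
  rw [← hG S, ← hG T]
  exact congrArg G hST

theorem LeK.finset {X : Type 1} (h : LeK X) : LeK (Finset X) := by
  refine h.smallSets.of_inj (fun s => ⟨(s : Set X), inferInstance⟩) ?_
  intro s t hst
  exact Finset.coe_injective (congrArg Subtype.val hst)

/-- pigeonhole: a set which is not small is not a small union of small sets -/
theorem exists_not_small {Y C : Type 1} [Small.{0} C] (hY : ¬ Small.{0} Y) (f : Y → C) :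
    ∃ c, ¬ Small.{0} {y // f y = c} := by
  by_contra hcon
  push Not at hcon
  apply hY
  have h1 : ∀ c, Small.{0} {y // f y = c} := hcon
  have h2 : Small.{0} (Σ c, {y // f y = c}) := inferInstance
  exact (small_congr (Equiv.sigmaFiberEquiv f)).1 h2

/-- small sets of ordinals are bounded -/
theorem exists_lt_of_small (S : Set KK) [Small.{0} S] : ∃ b : KK, ∀ s ∈ S, s < b :=
  exists_lt_aux S inferInstance

theorem exists_lt_range {C : Type*} [Small.{0} C] (f : C → KK) : ∃ b : KK, ∀ c, f c < b := by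
  obtain ⟨b, hb⟩ := exists_lt_aux (Set.range f) inferInstance
  exact ⟨b, fun c => hb _ ⟨c, rfl⟩⟩

end Pool.Agent.Helper539.SPCount
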