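import Mathlib
import Pool.Agent.Helper539.SGPol
import Pool.Agent.Helper539.SPCnt
import Pool.Agent.Helper539.SPCount

/-!
# The index set of the iteration, and the theorem for a general cardinal
-/

namespace Pool.Agent.Helper539.SGIndex

open Cardinal
open Pool.Agent.Helper539.SGIter Pool.Agent.Helper539.SGCount
open Pool.Agent.Helper539.SPForcing

universe u

/-- the successor cardinal of `κ` as a well-ordered set -/
abbrev JJ (K : Type u) : Type u := (Order.succ #K).ord.ToType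

theorem hJ {K : Type u} (ξ : JJ K) : LeK K (Set.Iio ξ) := by
  have h : #(Set.Iio ξ) ≤ #K := Order.lt_succ_iff.1 (Cardinal.mk_Iio_ord_toType ξ)
  exact h

theorem hcof {K : Type u} (hK : ℵ₀ ≤ #K) (S : Set (JJ K)) (hS : LeK K S) :
    ∃ b, ∀ s ∈ S, s < b := by
  have hreg : (Order.succ #K).IsRegular := isRegular_succ hK
  have hS' : #S ≤ #K := hS
  by_contra hcon
  push Not at hcon
  have h1 : IsCofinal S := fun b => by
    obtain ⟨s, hs, hb⟩ := hcon b
    exact ⟨s, hs, hb⟩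
  have h2 := Order.cof_le h1
  rw [← Ordinal.cof_type, Ordinal.type_toType, hreg.cof_ord] at h2
  exact absurd (h2.trans hS') (not_le.2 (Order.lt_succ _))

/-- The theorem for a well-ordered set `K` of order type a regular uncountable cardinal
`κ = κ^{<κ}`. -/
theorem main {K : Type u} [LinearOrder K] [Reg K] : ∃ (P : Type u) (_ : Preorder P),
    Nonempty P ∧ ∀ p : P, p ∈ IsOmegaOne P K ∧
      p ∈ fand (HasSplittingFamily P K) (fnot (HasSplittingFamily P ℕ)) ∧
      p ∈ Polarized P K ℕ := by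
  obtain ⟨a, ⟨e⟩⟩ := Reg.nat (K := K)
  have hinf : Infinite K := Infinite.of_injective (fun n => (e n).1) fun m n h =>
    e.injective (Subtype.ext h)
  have hK : ℵ₀ ≤ #K := Cardinal.aleph0_le_mk K
  have : Nonempty K := ⟨a⟩
  let _ : OrderBot K := WellFoundedLT.toOrderBot K
  obtain ⟨b, _⟩ := hcof hK ∅ (LeK.of_small (Sm.of_countable _))
  refine ⟨SGTop.TT K (JJ K), inferInstance,
    ⟨⟨b, fun _ _ _ => ∅, one K (JJ K), one_mem _ _⟩⟩, fun p => ⟨?_, ⟨?_, ?_⟩, ?_⟩⟩
  · exact SGUnc.omegaOne hJ (hcof hK) p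
  · exact SGSplit.splitting hJ (hcof hK) p
  · exact SPCnt.not_hasSplittingFamily p
  · exact SGPol.polarized hJ (hcof hK) p

/-! ### The assumptions -/

theorem bdd_of_card {κ : Cardinal.{u}} (hreg : κ.IsRegular) (S : Set κ.ord.ToType)
    (hS : #S < κ) : ∃ b, ∀ s ∈ S, s < b := by
  by_contra hcon
  push Not at hcon
  have h1 : IsCofinal S := fun b => by
    obtain ⟨s, hs, hb⟩ := hcon b
    exact ⟨s, hs, hb⟩
  have h2 := Order.cof_le h1
  rw [← Ordinal.cof_type, Ordinal.type_toType, hreg.cof_ord] at h2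
  exact absurd h2 (not_le.2 hS)

theorem emb_of_card {κ : Cardinal.{u}} (hreg : κ.IsRegular) {X : Type u} (hX : #X < κ) :
    ∃ c : κ.ord.ToType, Nonempty (X ↪ Set.Iio c) := by
  have h1 : #X ≤ #κ.ord.ToType := by
    rw [Cardinal.mk_ord_toType]
    exact hX.le
  obtain ⟨e⟩ := h1
  obtain ⟨b, hb⟩ := bdd_of_card hreg (Set.range e) (mk_range_le.trans_lt hX)
  exact ⟨b, ⟨⟨fun x => ⟨e x, hb _ ⟨x, rfl⟩⟩, fun x y h => e.injective (by
    have h2 := congrArg (fun z : Set.Iio b => z.1) h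
    exact h2)⟩⟩⟩

theorem reg_of_card {κ : Cardinal.{u}} (hunc : ℵ₀ < κ) (hreg : κ.IsRegular)
    (hpow : ∀ μ < κ, κ ^ μ ≤ κ) : Reg κ.ord.ToType where
  wf := inferInstance
  bdd a f := by
    obtain ⟨b, hb⟩ := bdd_of_card hreg (Set.range f)
      (mk_range_le.trans_lt (Cardinal.mk_Iio_ord_toType a))
    exact ⟨b, fun i => hb _ ⟨i, rfl⟩⟩
  nat := by
    obtain ⟨c, ⟨e⟩⟩ := emb_of_card hreg (X := ULift.{u} ℕ) (by simpa using hunc)
    exact ⟨c, ⟨Equiv.ulift.symm.toEmbedding.trans e⟩⟩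
  prod a b := emb_of_card hreg (by
    rw [Cardinal.mk_prod, Cardinal.lift_id, Cardinal.lift_id]
    exact mul_lt_of_lt hunc.le (Cardinal.mk_Iio_ord_toType a) (Cardinal.mk_Iio_ord_toType b))
  sq := by
    have h : #(κ.ord.ToType × κ.ord.ToType) ≤ #κ.ord.ToType := by
      rw [Cardinal.mk_prod, Cardinal.lift_id, Cardinal.mk_ord_toType, mul_eq_self hunc.le]
    exact h
  pow a := by
    have h : #(Set.Iio a → κ.ord.ToType) ≤ #κ.ord.ToType := by
      rw [← Cardinal.power_def, Cardinal.mk_ord_toType]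
      exact hpow _ (Cardinal.mk_Iio_ord_toType a)
    exact h

theorem pow_aleph_one (hCH : ℵ₁ = (𝔠 : Cardinal.{u})) (μ : Cardinal.{u}) (hμ : μ < ℵ₁) :
    ℵ₁ ^ μ ≤ (ℵ₁ : Cardinal.{u}) := by
  have h1 : μ ≤ ℵ₀ := by
    rw [← Order.lt_succ_iff, succ_aleph0]
    exact hμ
  calc ℵ₁ ^ μ ≤ (ℵ₁ : Cardinal.{u}) ^ ℵ₀ := power_le_power_left (aleph_pos 1).ne' h1
    _ = ℵ₁ := by rw [hCH, continuum_power_aleph0]

theorem emb_of_small {X : Type 1} [hX : Small.{0} X] :
    ∃ c : Ordinal.{0}, Nonempty (X ↪ Set.Iio c) := by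
  obtain ⟨e⟩ := SPCount.LeK.of_small hX
  obtain ⟨b, hb⟩ := SPCount.exists_lt_range e
  exact ⟨b, ⟨⟨fun x => ⟨e x, hb x⟩, fun x y h => e.injective (by
    have h2 := congrArg (fun z : Set.Iio b => z.1) h
    exact h2)⟩⟩⟩

instance reg_ordinal : Reg Ordinal.{0} where
  wf := inferInstance
  bdd a f := by
    have : Small.{0} (Set.Iio a) := Ordinal.small_Iio a
    exact SPCount.exists_lt_range f
  nat := by
    obtain ⟨c, ⟨e⟩⟩ := emb_of_small (X := ULift.{1} ℕ)
    exact ⟨c, ⟨Equiv.ulift.symm.toEmbedding.trans e⟩⟩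
  prod a b := by
    have : Small.{0} (Set.Iio a) := Ordinal.small_Iio a
    have : Small.{0} (Set.Iio b) := Ordinal.small_Iio b
    exact emb_of_small
  sq := SPCount.sqK
  pow a := by
    have : Small.{0} (Set.Iio a) := Ordinal.small_Iio a
    exact SPCount.LeK.fun_small ⟨Function.Embedding.refl _⟩

end Pool.Agent.Helper539.SGIndex
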