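import Mathlib

namespace Pool.Agent.Helper539.SPDelta

/-- pigeonhole: a type which is not small is not a small union of small sets -/
theorem exists_not_small' {Y C : Type 1} [Small.{0} C] (hY : ¬ Small.{0} Y) (f : Y → C) :
    ∃ c, ¬ Small.{0} {y // f y = c} := by
  by_contra hcon
  push Not at hcon
  apply hY
  have h1 : Small.{0} (⋃ c : C, {y : Y | f y = c}) := by
    have : ∀ c, Small.{0} ({y : Y | f y = c} : Set Y) := hcon
    exact small_iUnion _
  have h2 : (⋃ c : C, {y : Y | f y = c}) = Set.univ := by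
    ext y; simp
  rw [h2] at h1
  exact small_univ_iff.mp h1

theorem agree_aux {I : Type 1} {V : I → Type 1} (hV : ∀ i, Small.{0} (V i))
    {Y : Type 1} (c : Y → (i : I) → V i) (n : ℕ) :
    ∀ (T : Set Y) (S : Y → Finset I), ¬ Small.{0} T → (∀ y ∈ T, (S y).card = n) →
    ∃ y ∈ T, ∃ y' ∈ T, y ≠ y' ∧ ∀ i ∈ S y, i ∈ S y' → c y i = c y' i := by
  classical
  induction n with
  | zero =>
    intro T S hT hS
    have h1 : ¬ T.Subsingleton := by
      intro h
      have : Subsingleton T := h.coe_sort
      exact hT inferInstance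
    rw [Set.not_subsingleton_iff] at h1
    obtain ⟨y, hy, y', hy', hne⟩ := h1
    refine ⟨y, hy, y', hy', hne, fun i hi => ?_⟩
    have := hS y hy
    rw [Finset.card_eq_zero] at this
    rw [this] at hi
    exact absurd hi (Finset.notMem_empty i)
  | succ n ih =>
    intro T S hT hS
    by_cases hcase : ∃ i, ¬ Small.{0} ({y | y ∈ T ∧ i ∈ S y} : Set Y)
    · obtain ⟨i, hi⟩ := hcase
      have := hV i
      obtain ⟨v, hv⟩ := exists_not_small' hi (fun y => c y.1 i)
      have h2 : ¬ Small.{0} ({y | (y ∈ T ∧ i ∈ S y) ∧ c y i = v} : Set Y) := by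
        intro hs
        apply hv
        refine small_of_injective
          (f := fun y : {y : ({y | y ∈ T ∧ i ∈ S y} : Set Y) // c y.1 i = v} =>
            (⟨y.1.1, y.1.2, y.2⟩ : ({y | (y ∈ T ∧ i ∈ S y) ∧ c y i = v} : Set Y))) ?_
        intro a b hab
        have := congrArg Subtype.val hab
        exact Subtype.ext (Subtype.ext this)
      obtain ⟨y, hy, y', hy', hne, hag⟩ := ih _ (fun y => (S y).erase i) h2 (by
        intro y hy
        rw [Finset.card_erase_of_mem hy.1.2, hS y hy.1.1]
        rfl)
      refine ⟨y, hy.1.1, y', hy'.1.1, hne, fun j hj hj' => ?_⟩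
      by_cases hji : j = i
      · subst hji
        rw [hy.2, hy'.2]
      · exact hag j (Finset.mem_erase.mpr ⟨hji, hj⟩) (Finset.mem_erase.mpr ⟨hji, hj'⟩)
    · push Not at hcase
      have hne : T.Nonempty := by
        rw [Set.nonempty_iff_ne_empty]
        rintro rfl
        exact hT inferInstance
      obtain ⟨y0, hy0⟩ := hne
      have hsm : Small.{0} (({y0} ∪ ⋃ i : S y0, {y | y ∈ T ∧ i.1 ∈ S y} : Set Y)) := by
        have : ∀ i : S y0, Small.{0} ({y | y ∈ T ∧ i.1 ∈ S y} : Set Y) := fun i => hcase i.1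
        have h1 : Small.{0} (⋃ i : S y0, {y | y ∈ T ∧ i.1 ∈ S y} : Set Y) := by
          have : Small.{0} (S y0) := by
            exact Countable.toSmall _
          exact small_iUnion _
        exact small_union _ _
      have h3 : ¬ T ⊆ ({y0} ∪ ⋃ i : S y0, {y | y ∈ T ∧ i.1 ∈ S y} : Set Y) := by
        intro h
        exact hT (small_subset h)
      rw [Set.not_subset] at h3
      obtain ⟨y, hy, hy2⟩ := h3
      refine ⟨y0, hy0, y, hy, ?_, fun i hi hi' => ?_⟩
      · rintro rfl
        exact hy2 (Or.inl rfl)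
      · exfalso
        apply hy2
        right
        rw [Set.mem_iUnion]
        exact ⟨⟨i, hi⟩, hy, hi'⟩

/-- Among more than small many finite partial functions (domain `S y`, values `c y`), where each
coordinate takes only small many values, two agree on the common part of their domains. -/
theorem exists_agree {I : Type 1} {V : I → Type 1} (hV : ∀ i, Small.{0} (V i))
    {Y : Type 1} (S : Y → Set I) (hS : ∀ y, (S y).Finite) (c : Y → (i : I) → V i)
    (hY : ¬ Small.{0} Y) :
    ∃ y y', y ≠ y' ∧ ∀ i ∈ S y, i ∈ S y' → c y i = c y' i := by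
  classical
  have : Small.{0} (ULift.{1} ℕ) := Countable.toSmall _
  obtain ⟨n, hn⟩ := exists_not_small' hY (fun y => ULift.up.{1} (hS y).toFinset.card)
  obtain ⟨y, hy, y', hy', hne, hag⟩ := agree_aux hV c n.down
    {y | ULift.up.{1} (hS y).toFinset.card = n} (fun y => (hS y).toFinset) hn (by
      intro y hy
      have := congrArg ULift.down hy
      exact this)
  refine ⟨y, y', hne, fun i hi hi' => hag i ?_ ?_⟩
  · exact (hS y).mem_toFinset.mpr hi
  · exact (hS y').mem_toFinset.mpr hi'

end Pool.Agent.Helper539.SPDelta
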