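import Mathlib
import Pool.Agent.Helper539.SPReduce

/-!
# The preservation property
-/

namespace Pool.Agent.Helper539.SPStar

open Pool.Agent.Helper539.SPIter Pool.Agent.Helper539.SPDelta Pool.Agent.Helper539.SPStep
open Pool.Agent.Helper539.SPCount hiding KK

variable {J : Type 1} [LinearOrder J] [WellFoundedLT J]

/-- `a` is closed under `h` -/
def Closed (h : KK → KK) (a : KK) : Prop := 1 ≤ a ∧ ∀ b < a, h b < a

/-- For every name of an infinite set there is `h : κ → κ` such that the set is split by `S_a`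
for all `a` closed under `h`. -/
def Star (𝔸 : J → KK → ℕ → Set (Om J)) (ξ : J) : Prop :=
  ∀ Y : ℕ → Set (Om J), (∀ n, Op (BB 𝔸 ξ) ξ (Y n)) → ∃ h : KK → KK, ∀ a, Closed h a →
    ∀ q ∈ BB 𝔸 ξ, Inf (BB 𝔸 ξ) ξ Y q → ∀ s, Inf (BB 𝔸 ξ) ξ (fun n => Y n ∩ Ss a s n) q

end Pool.Agent.Helper539.SPStar
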