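import Mathlib
import Pool.Agent.Helper539.SPStar

/-!
# The successor step: notation
-/

namespace Pool.Agent.Helper539.SPMk

open Pool.Agent.Helper539.SPIter Pool.Agent.Helper539.SPDelta Pool.Agent.Helper539.SPStep
open Pool.Agent.Helper539.SPStar
open Pool.Agent.Helper539.SPCount hiding KK

variable {J : Type 1} [LinearOrder J]

open Classical in
/-- the condition given by `q` below `η`, the stem `t` and the promises `Φ` at `η` -/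
noncomputable def mk (η : J) (q : Rep J) (t : List ℕ) (Φ : Finset (Pr J)) : Rep J where
  c := q.c
  st ζ := if ζ < η then q.st ζ else if ζ = η then t else []
  pr ζ := if ζ < η then q.pr ζ else if ζ = η then Φ else ∅
  finc := q.finc
  fin := by
    refine (q.fin.union (Set.finite_singleton η)).subset fun ζ hζ => ?_
    by_cases h1 : ζ < η
    · left; simpa [h1] using hζ
    · by_cases h2 : ζ = η
      · right; exact h2
      · simp [h1, h2] at hζ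

section

variable {η : J} {q : Rep J} {t : List ℕ} {Φ : Finset (Pr J)}

theorem mk_c : (mk η q t Φ).c = q.c := rfl
theorem mk_st_lt {ζ : J} (h : ζ < η) : (mk η q t Φ).st ζ = q.st ζ := if_pos h
theorem mk_pr_lt {ζ : J} (h : ζ < η) : (mk η q t Φ).pr ζ = q.pr ζ := if_pos h
theorem mk_st_self : (mk η q t Φ).st η = t := by simp [mk]
theorem mk_pr_self : (mk η q t Φ).pr η = Φ := by simp [mk]
theorem mk_st_gt {ζ : J} (h : η < ζ) : (mk η q t Φ).st ζ = [] := by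
  simp [mk, h.not_gt, h.ne']
theorem mk_pr_gt {ζ : J} (h : η < ζ) : (mk η q t Φ).pr ζ = ∅ := by
  simp [mk, h.not_gt, h.ne']

theorem bs_mk {ζ : J} (h : ζ ≤ η) : bs (mk η q t Φ) ζ = bs q ζ :=
  bs_congr rfl fun _ hζ => ⟨mk_st_lt (hζ.trans_le h), mk_pr_lt (hζ.trans_le h)⟩

/-- comparing two such conditions -/
theorem mk_le_mk {q' : Rep J} {t' : List ℕ} {Φ' : Finset (Pr J)} (hq : q' ≤ q) (ht : t <+: t')
    (hΦ : Φ ⊆ Φ') (hnew : ∀ R ∈ Φ, ∀ s m, s ++ [m] <+: t' → t.length ≤ s.length →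
      bs q' η ⊆ R s m) : mk η q' t' Φ' ≤ mk η q t Φ := by
  refine ⟨fun a => le_c hq a, fun ζ => ?_⟩
  rcases lt_trichotomy ζ η with h | rfl | h
  · rw [mk_st_lt h, mk_st_lt h, mk_pr_lt h, mk_pr_lt h, bs_mk h.le]
    exact hq.2 ζ
  · rw [mk_st_self, mk_st_self, mk_pr_self, mk_pr_self, bs_mk le_rfl]
    exact ⟨ht, hΦ, hnew⟩
  · rw [mk_st_gt h, mk_st_gt h, mk_pr_gt h, mk_pr_gt h]
    exact ⟨List.prefix_refl _, Finset.Subset.refl _, fun R hR => absurd hR (Finset.notMem_empty R)⟩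

theorem mk_mono {q' : Rep J} {Φ' : Finset (Pr J)} (hq : q' ≤ q) (hΦ : Φ ⊆ Φ') :
    mk η q' t Φ' ≤ mk η q t Φ :=
  mk_le_mk hq (List.prefix_refl _) hΦ fun _ _ _ _ h h' => (no_new h h').elim

/-- lengthening the stem by one element -/
theorem mk_step {q' : Rep J} {x : ℕ} (hq : q' ≤ q) (h : ∀ R ∈ Φ, bs q' η ⊆ R t x) :
    mk η q' (t ++ [x]) Φ ≤ mk η q t Φ := by
  refine mk_le_mk hq (List.prefix_append _ _) (Finset.Subset.refl _) fun R hR s m hs hl => ?_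
  have h1 := hs.length_le
  simp only [List.length_append, List.length_cons, List.length_nil, Nat.zero_add] at h1
  have h2 : s.length = t.length := by omega
  have h3 := List.append_inj (hs.eq_of_length (by simp [h2])) h2
  have h4 : m = x := by simpa using h3.2
  rw [h3.1, h4]
  exact h R hR

end

section

variable {RR' : J → Set (Pr J)} {η ξ : J}

/-- `ξ` is the successor of `η` -/
def IsSuc (η ξ : J) : Prop := η < ξ ∧ ∀ ζ < ξ, ζ ≤ η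

theorem IsSuc.le (h : IsSuc η ξ) {ζ : J} (hζ : η < ζ) : ξ ≤ ζ := by
  by_contra hcon
  exact absurd (h.2 ζ (not_le.1 hcon)) (not_le.2 hζ)

theorem mk_mem (h : IsSuc η ξ) {q : Rep J} (hq : q ∈ Vd RR' η) (t : List ℕ) {Φ : Finset (Pr J)}
    (hΦ : ∀ R ∈ Φ, R ∈ RR' η) : mk η q t Φ ∈ Vd RR' ξ := by
  refine ⟨fun ζ R hR => ?_, fun ζ hζ => ?_⟩
  · rcases lt_trichotomy ζ η with h1 | rfl | h1
    · rw [mk_pr_lt h1] at hR; exact hq.1 ζ R hR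
    · rw [mk_pr_self] at hR; exact hΦ R hR
    · rw [mk_pr_gt h1] at hR; exact absurd hR (Finset.notMem_empty R)
  · exact ⟨mk_st_gt (h.1.trans_le hζ), mk_pr_gt (h.1.trans_le hζ)⟩

/-- every condition below `ξ` is of this form -/
theorem eq_mk (h : IsSuc η ξ) {r : Rep J} (hr : r ∈ Vd RR' ξ) :
    r = mk η (res r η) (r.st η) (r.pr η) := by
  ext1
  · rfl
  · funext ζ
    rcases lt_trichotomy ζ η with h1 | rfl | h1
    · rw [mk_st_lt h1, res_st_lt h1]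
    · rw [mk_st_self]
    · rw [mk_st_gt h1, (hr.2 ζ (h.le h1)).1]
  · funext ζ
    rcases lt_trichotomy ζ η with h1 | rfl | h1
    · rw [mk_pr_lt h1, res_pr_lt h1]
    · rw [mk_pr_self]
    · rw [mk_pr_gt h1, (hr.2 ζ (h.le h1)).2]

theorem le_mk_res {r q : Rep J} {t : List ℕ} {Φ : Finset (Pr J)} (hq : Below q η)
    (h : r ≤ mk η q t Φ) : res r η ≤ q := by
  have h1 : res r η ≤ res (mk η q t Φ) η := res_mono h η
  refine h1.trans ⟨fun _ => List.prefix_refl _, fun ζ => ?_⟩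
  by_cases hζ : ζ < η
  · rw [res_st_lt hζ, res_pr_lt hζ, mk_st_lt hζ, mk_pr_lt hζ]
    exact ⟨List.prefix_refl _, Finset.Subset.refl _, fun _ _ _ _ h h' => (no_new h h').elim⟩
  · obtain ⟨h1, h2⟩ := hq ζ (not_lt.1 hζ)
    rw [h1, h2]
    exact ⟨List.nil_prefix, Finset.empty_subset _, fun R hR => absurd hR (Finset.notMem_empty R)⟩

end

variable [WellFoundedLT J]

/-- `(q, t)` favours `m`: no extension of `q`, with the stem `t` and any promises, forces that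
`m` is outside the set named by `X` -/
def Fav (𝔸 : J → KK → ℕ → Set (Om J)) (η ξ : J) (X : ℕ → Set (Om J)) (q : Rep J) (t : List ℕ)
    (m : ℕ) : Prop :=
  ∀ q' ∈ BB 𝔸 η, q' ≤ q → ∀ Φ : Finset (Pr J), (∀ R ∈ Φ, R ∈ RR 𝔸 η) →
    ∃ r ∈ BB 𝔸 ξ, r ≤ mk η q' t Φ ∧ bs r ξ ⊆ X m

variable {𝔸 : J → KK → ℕ → Set (Om J)} {η ξ : J} {X : ℕ → Set (Om J)}

theorem Fav.mono {q q' : Rep J} {t : List ℕ} {m : ℕ} (h : Fav 𝔸 η ξ X q t m) (hq : q' ≤ q) :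
    Fav 𝔸 η ξ X q' t m := fun r hr hle => h r hr (hle.trans hq)

/-- a condition forcing `m ∈ X` favours `m` -/
theorem fav_of_forces (h : IsSuc η ξ) {r : Rep J} (hr : r ∈ BB 𝔸 ξ) {m : ℕ} (hm : bs r ξ ⊆ X m) :
    Fav 𝔸 η ξ X (res r η) (r.st η) m := by
  classical
  intro q' hq' hle Φ hΦ
  refine ⟨mk η q' (r.st η) (Φ ∪ r.pr η), mk_mem h hq' _ ?_, mk_mono le_rfl Finset.subset_union_left,
    ?_⟩
  · intro R hR
    rcases Finset.mem_union.1 hR with h1 | h1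
    · exact hΦ R h1
    · exact hr.1 η R h1
  · refine (bs_le ?_ ξ).trans hm
    conv_rhs => rw [eq_mk h hr]
    exact mk_mono hle Finset.subset_union_right

/-- the name of the set of all favoured numbers -/
def Hn (𝔸 : J → KK → ℕ → Set (Om J)) (η ξ : J) (X : ℕ → Set (Om J)) (t : List ℕ) (m : ℕ) :
    Set (Om J) := ⋃ q ∈ {q | q ∈ BB 𝔸 η ∧ Fav 𝔸 η ξ X q t m}, bs q η

/-- no extension of `q` favours a number `≥ k` with the stem `t` -/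
def NoFav (𝔸 : J → KK → ℕ → Set (Om J)) (η ξ : J) (X : ℕ → Set (Om J)) (k : ℕ) (q : Rep J)
    (t : List ℕ) : Prop :=
  ∀ q' ∈ BB 𝔸 η, q' ≤ q → ∀ m, k ≤ m → ¬ Fav 𝔸 η ξ X q' t m

/-- `q` forces that the set of all `x` such that some `m ≥ k` is favoured by `t ⌢ x` is positive -/
def Pos (𝔸 : J → KK → ℕ → Set (Om J)) (η ξ : J) (X : ℕ → Set (Om J)) (k : ℕ) (q : Rep J)
    (t : List ℕ) : Prop :=
  ∀ q' ∈ BB 𝔸 η, q' ≤ q → ∀ (u : Finset KK) (N : ℕ), ∃ q'' ∈ BB 𝔸 η, q'' ≤ q' ∧ ∃ x, N ≤ x ∧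
    bs q'' η ⊆ GG (GA 𝔸 η) u x ∧ ∃ m, k ≤ m ∧ Fav 𝔸 η ξ X q'' (t ++ [x]) m

/-- the rank analysis -/
inductive ZZ (𝔸 : J → KK → ℕ → Set (Om J)) (η ξ : J) (X : ℕ → Set (Om J)) (k : ℕ) :
    Rep J → List ℕ → Prop
  | b1 (q : Rep J) (t : List ℕ) (hq : q ∈ BB 𝔸 η)
      (h : Inf (BB 𝔸 η) η (Hn 𝔸 η ξ X t) q) : ZZ 𝔸 η ξ X k q t
  | b2 (q : Rep J) (t : List ℕ) (hq : q ∈ BB 𝔸 η) (h : NoFav 𝔸 η ξ X k q t)
      (h' : Pos 𝔸 η ξ X k q t) : ZZ 𝔸 η ξ X k q t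
  | st (q : Rep J) (t : List ℕ) (hq : q ∈ BB 𝔸 η)
      (f : ∀ q' : Rep J, q' ∈ BB 𝔸 η → q' ≤ q → Finset KK → ℕ → Rep J)
      (x : ∀ q' : Rep J, q' ∈ BB 𝔸 η → q' ≤ q → Finset KK → ℕ → ℕ)
      (h1 : ∀ q' hq' hle u N, f q' hq' hle u N ∈ BB 𝔸 η ∧ f q' hq' hle u N ≤ q' ∧
        N ≤ x q' hq' hle u N ∧ bs (f q' hq' hle u N) η ⊆ GG (GA 𝔸 η) u (x q' hq' hle u N))
      (h2 : ∀ q' hq' hle u N, ZZ 𝔸 η ξ X k (f q' hq' hle u N) (t ++ [x q' hq' hle u N])) :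
      ZZ 𝔸 η ξ X k q t

theorem ZZ.mem {k : ℕ} {q : Rep J} {t : List ℕ} (h : ZZ 𝔸 η ξ X k q t) : q ∈ BB 𝔸 η := by
  cases h <;> assumption

/-- the closure clause of `ZZ` -/
theorem ZZ.step {k : ℕ} {q : Rep J} {t : List ℕ} (hq : q ∈ BB 𝔸 η)
    (h : ∀ q' ∈ BB 𝔸 η, q' ≤ q → ∀ (u : Finset KK) (N : ℕ), ∃ q'' ∈ BB 𝔸 η, q'' ≤ q' ∧
      ∃ x, N ≤ x ∧ bs q'' η ⊆ GG (GA 𝔸 η) u x ∧ ZZ 𝔸 η ξ X k q'' (t ++ [x])) :
    ZZ 𝔸 η ξ X k q t := by
  choose f hf1 hf2 x hx1 hx2 hx3 using h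
  exact ZZ.st q t hq f x (fun q' hq' hle u N => ⟨hf1 q' hq' hle u N, hf2 q' hq' hle u N,
    hx1 q' hq' hle u N, hx2 q' hq' hle u N⟩) fun q' hq' hle u N => hx3 q' hq' hle u N

theorem ZZ.mono {k : ℕ} {q q' : Rep J} {t : List ℕ} (h : ZZ 𝔸 η ξ X k q t) (hq' : q' ∈ BB 𝔸 η)
    (hle : q' ≤ q) : ZZ 𝔸 η ξ X k q' t := by
  cases h with
  | b1 _ _ hq h => exact ZZ.b1 q' t hq' (h.mono_q hle)
  | b2 _ _ hq h h' => exact ZZ.b2 q' t hq' (fun r hr hrle => h r hr (hrle.trans hle)) (fun r hr hrle => h' r hr (hrle.trans hle))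
  | st _ _ hq f x h1 h2 =>
    refine ZZ.step hq' fun r hr hrle u N => ?_
    obtain ⟨h3, h4, h5, h6⟩ := h1 r hr (hrle.trans hle) u N
    exact ⟨_, h3, h4, _, h5, h6, h2 r hr (hrle.trans hle) u N⟩

end Pool.Agent.Helper539.SPMk
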