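import Mathlib
import Pool.Agent.Helper539.SPMk

/-!
# The successor step: the least favoured number
-/

namespace Pool.Agent.Helper539.SPMx

open Pool.Agent.Helper539.SPIter Pool.Agent.Helper539.SPDelta Pool.Agent.Helper539.SPStep
open Pool.Agent.Helper539.SPStar Pool.Agent.Helper539.SPMk
open Pool.Agent.Helper539.SPCount hiding KK

variable {J : Type 1} [LinearOrder J] [WellFoundedLT J]

variable {𝔸 : J → KK → ℕ → Set (Om J)} {η ξ : J} {X : ℕ → Set (Om J)}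

/-- the name of the function sending `x` to the least `m ≥ k` favoured by `t ⌢ x` -/
def Mx (𝔸 : J → KK → ℕ → Set (Om J)) (η ξ : J) (X : ℕ → Set (Om J)) (k : ℕ) (t : List ℕ)
    (x m : ℕ) : Set (Om J) :=
  ⋃ q ∈ {q | q ∈ BB 𝔸 η ∧ k ≤ m ∧ Fav 𝔸 η ξ X q (t ++ [x]) m ∧
    ∀ q' ∈ BB 𝔸 η, q' ≤ q → ∀ m', k ≤ m' → m' < m → ¬ Fav 𝔸 η ξ X q' (t ++ [x]) m'}, bs q η

/-- the name of the image under this function of the finite intersection given by `u` -/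
def Mu (𝔸 : J → KK → ℕ → Set (Om J)) (η ξ : J) (X : ℕ → Set (Om J)) (k : ℕ) (t : List ℕ)
    (u : Finset KK) (m : ℕ) : Set (Om J) := ⋃ x, (Mx 𝔸 η ξ X k t x m ∩ GG (GA 𝔸 η) u x)

/-- favouring is a local property -/
theorem fav_of_dense {q : Rep J} {t : List ℕ} {m : ℕ}
    (h : ∀ q' ∈ BB 𝔸 η, q' ≤ q → ∃ q'' ∈ BB 𝔸 η, q'' ≤ q' ∧ Fav 𝔸 η ξ X q'' t m) :
    Fav 𝔸 η ξ X q t m := by
  intro q' hq' hle Φ hΦ
  obtain ⟨q'', hq'', hle', hf⟩ := h q' hq' hle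
  obtain ⟨r, hr, h1, h2⟩ := hf q'' hq'' le_rfl Φ hΦ
  exact ⟨r, hr, h1.trans (mk_mono hle' (Finset.Subset.refl _)), h2⟩

theorem Op_Mx (k : ℕ) (t : List ℕ) (x m : ℕ) : Op (BB 𝔸 η) η (Mx 𝔸 η ξ X k t x m) :=
  Op_iUnion fun _ => Op_iUnion fun hq => Op_bs hq.1

theorem Op_Hn (t : List ℕ) (m : ℕ) : Op (BB 𝔸 η) η (Hn 𝔸 η ξ X t m) :=
  Op_iUnion fun _ => Op_iUnion fun hq => Op_bs hq.1

theorem Op_Mu (hG : ∀ ζ, Good (RR 𝔸) ζ) (hsp : Sparse (BB 𝔸 η) η (GA 𝔸 η)) (k : ℕ)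
    (t : List ℕ) (u : Finset KK) (m : ℕ) : Op (BB 𝔸 η) η (Mu 𝔸 η ξ X k t u m) :=
  Op_iUnion fun x => Op_inter (fun ζ _ => hG ζ) (Op_Mx k t x m)
    (Op_GG (fun ζ _ => hG ζ) hsp.op u x)

theorem fav_of_Hn (hG : ∀ ζ, Good (RR 𝔸) ζ) {r : Rep J} {t : List ℕ} {m : ℕ}
    (hr : r ∈ BB 𝔸 η) (h : bs r η ⊆ Hn 𝔸 η ξ X t m) : Fav 𝔸 η ξ X r t m := by
  refine fav_of_dense fun q' hq' hle => ?_
  obtain ⟨w, hw⟩ := bs_nonempty (fun ζ _ => hG ζ) hq'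
  have h1 := h (bs_le hle η (hw η))
  simp only [Hn, Set.mem_iUnion] at h1
  obtain ⟨q, hq, hwq⟩ := h1
  obtain ⟨q'', hq'', h2, h3, _⟩ := compat_of_point (fun ζ _ => hG ζ) hq' hq.1 (hw η) hwq
  exact ⟨q'', hq'', h2, hq.2.mono h3⟩

theorem fav_of_Mx (hG : ∀ ζ, Good (RR 𝔸) ζ) {k : ℕ} {r : Rep J} {t : List ℕ} {x m : ℕ}
    (hr : r ∈ BB 𝔸 η) (h : bs r η ⊆ Mx 𝔸 η ξ X k t x m) : Fav 𝔸 η ξ X r (t ++ [x]) m := by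
  refine fav_of_dense fun q' hq' hle => ?_
  obtain ⟨w, hw⟩ := bs_nonempty (fun ζ _ => hG ζ) hq'
  have h1 := h (bs_le hle η (hw η))
  simp only [Mx, Set.mem_iUnion] at h1
  obtain ⟨q, hq, hwq⟩ := h1
  obtain ⟨q'', hq'', h2, h3, _⟩ := compat_of_point (fun ζ _ => hG ζ) hq' hq.1 (hw η) hwq
  exact ⟨q'', hq'', h2, hq.2.2.1.mono h3⟩

/-- the value is at least `k` -/
theorem le_of_Mx (hG : ∀ ζ, Good (RR 𝔸) ζ) {k : ℕ} {r : Rep J} {t : List ℕ} {x m : ℕ}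
    (hr : r ∈ BB 𝔸 η) (h : bs r η ⊆ Mx 𝔸 η ξ X k t x m) : k ≤ m := by
  obtain ⟨w, hw⟩ := bs_nonempty (fun ζ _ => hG ζ) hr
  have h1 := h (hw η)
  simp only [Mx, Set.mem_iUnion] at h1
  obtain ⟨q, hq, _⟩ := h1
  exact hq.2.1

/-- the value is unique -/
theorem Mx_unique (hG : ∀ ζ, Good (RR 𝔸) ζ) {k : ℕ} {r : Rep J} {t : List ℕ} {x m m' : ℕ}
    (hr : r ∈ BB 𝔸 η) (h : bs r η ⊆ Mx 𝔸 η ξ X k t x m)
    (h' : bs r η ⊆ Mx 𝔸 η ξ X k t x m') : m = m' := by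
  obtain ⟨w, hw⟩ := bs_nonempty (fun ζ _ => hG ζ) hr
  have h1 := h (hw η)
  have h2 := h' (hw η)
  simp only [Mx, Set.mem_iUnion] at h1 h2
  obtain ⟨q, hq, hwq⟩ := h1
  obtain ⟨q', hq', hwq'⟩ := h2
  obtain ⟨q'', hq'', h3, h4, _⟩ := compat_of_point (fun ζ _ => hG ζ) hq.1 hq'.1 hwq hwq'
  rcases lt_trichotomy m m' with h5 | h5 | h5
  · exact absurd (hq.2.2.1.mono h3) (hq'.2.2.2 q'' hq'' h4 m hq.2.1 h5)
  · exact h5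
  · exact absurd (hq'.2.2.1.mono h4) (hq.2.2.2 q'' hq'' h3 m' hq'.2.1 h5)

/-- some extension decides the value -/
theorem exists_Mx {k : ℕ} {r : Rep J} {t : List ℕ} {x m₀ : ℕ} (hr : r ∈ BB 𝔸 η) (hk : k ≤ m₀)
    (h : Fav 𝔸 η ξ X r (t ++ [x]) m₀) :
    ∃ r' ∈ BB 𝔸 η, r' ≤ r ∧ ∃ m, k ≤ m ∧ m ≤ m₀ ∧ bs r' η ⊆ Mx 𝔸 η ξ X k t x m := by
  induction m₀ using Nat.strong_induction_on generalizing r with
  | _ m₀ ih =>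
    by_cases hcase : ∃ q' ∈ BB 𝔸 η, q' ≤ r ∧ ∃ m', k ≤ m' ∧ m' < m₀ ∧ Fav 𝔸 η ξ X q' (t ++ [x]) m'
    · obtain ⟨q', hq', hle, m', hk', hlt, hf⟩ := hcase
      obtain ⟨r', hr', h1, m, h2, h3, h4⟩ := ih m' hlt hq' hk' hf
      exact ⟨r', hr', h1.trans hle, m, h2, h3.trans hlt.le, h4⟩
    · refine ⟨r, hr, le_rfl, m₀, hk, le_rfl, ?_⟩
      refine Set.subset_biUnion_of_mem (u := fun q => bs q η) ⟨hr, hk, h, ?_⟩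
      intro q' hq' hle m' hk' hlt hf
      exact hcase ⟨q', hq', hle, m', hk', hlt, hf⟩

end Pool.Agent.Helper539.SPMx
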