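import Mathlib
import Pool.Agent.Helper539.SPMx

/-!
# The successor step: finite-to-one argument
-/

namespace Pool.Agent.Helper539.SPInfKx

open Pool.Agent.Helper539.SPIter Pool.Agent.Helper539.SPDelta Pool.Agent.Helper539.SPStep
open Pool.Agent.Helper539.SPStar Pool.Agent.Helper539.SPMk Pool.Agent.Helper539.SPMx
open Pool.Agent.Helper539.SPReduce
open Pool.Agent.Helper539.SPCount hiding KK

variable {J : Type 1} [LinearOrder J] [WellFoundedLT J]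

variable {𝔸 : J → KK → ℕ → Set (Om J)} {η ξ : J} {X : ℕ → Set (Om J)}

/-- pulling back a splitting of the image -/
theorem inf_Kx (hG : ∀ ζ, Good (RR 𝔸) ζ) (hop : ∀ d n, Op (BB 𝔸 η) η (GA 𝔸 η d n)) {k : ℕ}
    {q : Rep J} {t : List ℕ} {u : Finset KK} {a : KK} {s : Bool}
    (hinf : Inf (BB 𝔸 η) η (fun m => Mu 𝔸 η ξ X k t u m ∩ Ss a s m) q) :
    Inf (BB 𝔸 η) η (Kx (GA 𝔸 η) (Mx 𝔸 η ξ X k t) a s u) q := by
  intro q' hq' hle N
  have step : ∀ N : ℕ, ∃ q4 ∈ BB 𝔸 η, q4 ≤ q' ∧ ∃ M0 : ℕ, ∀ x < N, ∀ p ∈ BB 𝔸 η, p ≤ q4 →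
      ∀ m, bs p η ⊆ Mx 𝔸 η ξ X k t x m → m < M0 := by
    intro N
    induction N with
    | zero => exact ⟨q', hq', le_rfl, 0, fun x hx => absurd hx (Nat.not_lt_zero x)⟩
    | succ N ih =>
      obtain ⟨q4, hq4, hle4, M0, h⟩ := ih
      by_cases hc : ∃ p ∈ BB 𝔸 η, p ≤ q4 ∧ ∃ m, bs p η ⊆ Mx 𝔸 η ξ X k t N m
      · obtain ⟨p, hp, hple, m, hm⟩ := hc
        refine ⟨p, hp, hple.trans hle4, max M0 (m + 1), ?_⟩
        intro x hx p' hp' hp'le m' hm'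
        rcases Nat.lt_succ_iff_lt_or_eq.1 hx with h1 | h1
        · exact (h x h1 p' hp' (hp'le.trans hple) m' hm').trans_le (le_max_left _ _)
        · subst h1
          have h2 := Mx_unique hG hp' ((bs_le hp'le η).trans hm) hm'
          subst h2
          exact (Nat.lt_succ_self m).trans_le (le_max_right _ _)
      · refine ⟨q4, hq4, hle4, M0, ?_⟩
        intro x hx p' hp' hp'le m' hm'
        rcases Nat.lt_succ_iff_lt_or_eq.1 hx with h1 | h1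
        · exact h x h1 p' hp' hp'le m' hm'
        · subst h1
          exact absurd ⟨p', hp', hp'le, m', hm'⟩ hc
  obtain ⟨q4, hq4, hle4, M0, hM0⟩ := step N
  obtain ⟨q5, hq5, hle5, m, hm, hsub⟩ := hinf q4 hq4 (hle4.trans hle) M0
  obtain ⟨w, hw⟩ := bs_nonempty (fun ζ _ => hG ζ) hq5
  obtain ⟨h2, h3⟩ := hsub (hw η)
  simp only [Mu, Set.mem_iUnion] at h2
  obtain ⟨x, hx⟩ := h2
  obtain ⟨q6, hq6, hle6, hw6, hsub6⟩ := Op_exists_le (fun ζ _ => hG ζ)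
    (Op_inter (fun ζ _ => hG ζ) (Op_Mx k t x m) (Op_GG (fun ζ _ => hG ζ) hop u x)) hq5 (hw η) hx
  refine ⟨q6, hq6, hle6.trans (hle5.trans hle4), x, ?_, ?_⟩
  · by_contra hc
    have h5 := hM0 x (not_le.1 hc) q6 hq6 (hle6.trans hle5) m
      (hsub6.trans Set.inter_subset_left)
    omega
  · intro v hv
    exact ⟨⟨m, (hsub6 hv).1, (hsub (bs_le hle6 η hv)).2⟩, (hsub6 hv).2⟩

end Pool.Agent.Helper539.SPInfKx
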