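import Mathlib
import Pool.Agent.Helper539.SPStep

/-!
# Sparse subsequences
-/

namespace Pool.Agent.Helper539.SPSparse

open Pool.Agent.Helper539.SPIter Pool.Agent.Helper539.SPDelta Pool.Agent.Helper539.SPStep
open Pool.Agent.Helper539.SPCount hiding KK

variable {J : Type 1} [LinearOrder J] [WellFoundedLT J]

theorem exists_names5430 {RR' : J → Set (Pr J)} {ξ : J} (hK : LeK (Vd RR' ξ)) :
    ∃ X : KK → ℕ → ℕ → Set (Om J), (∀ g n m, Op (Vd RR' ξ) ξ (X g n m)) ∧
      ∀ x : ℕ → ℕ → Set (Om J), ∃ g, ∀ n m, X g n m ⊆ x n m ∧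
        ∀ q ∈ Vd RR' ξ, bs q ξ ⊆ x n m →
          ∃ q' ∈ Vd RR' ξ, q' ≤ q ∧ bs q' ξ ⊆ X g n m := by
  classical
  have hN : LeK (ℕ → ℕ → {S : Set (Vd RR' ξ) // Small.{0} S}) :=
    (hK.smallSets.fun_small0).fun_small0
  obtain ⟨f⟩ := hN
  have : Nonempty (ℕ → ℕ → {S : Set (Vd RR' ξ) // Small.{0} S}) :=
    ⟨fun _ _ => ⟨∅, inferInstance⟩⟩
  refine ⟨fun g n m => ⋃ a : (Function.invFun f g n m).1, bs a.1.1 ξ, ?_, ?_⟩
  · intro g n m
    exact Op_iUnion fun a => Op_bs a.1.2
  · intro x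
    choose A hA1 hA2 hA3 hA4 using fun n m => exists_small_open (RR' := RR') (ξ := ξ) (x n m)
    have hS : ∀ n m, Small.{0} ({a : Vd RR' ξ | a.1 ∈ A n m} : Set (Vd RR' ξ)) := by
      intro n m
      have := hA2 n m
      refine small_of_injective
        (f := fun a : ({a : Vd RR' ξ | a.1 ∈ A n m} : Set (Vd RR' ξ)) =>
          (⟨a.1.1, a.2⟩ : A n m)) ?_
      intro a b hab
      exact Subtype.ext (Subtype.ext (by simpa using congrArg Subtype.val hab))
    refine ⟨f (fun n m => ⟨{a : Vd RR' ξ | a.1 ∈ A n m}, hS n m⟩), fun n m => ?_⟩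
    have hinv : Function.invFun f (f (fun n m => ⟨{a : Vd RR' ξ | a.1 ∈ A n m}, hS n m⟩)) =
        (fun n m => ⟨{a : Vd RR' ξ | a.1 ∈ A n m}, hS n m⟩) :=
      Function.leftInverse_invFun f.injective _
    beta_reduce
    rw [hinv]
    refine ⟨?_, ?_⟩
    · intro w hw
      obtain ⟨a, ha⟩ := Set.mem_iUnion.1 hw
      exact hA3 n m a.1.1 a.2 ha
    · intro q hq hsub
      obtain ⟨q', hq', hle, a, ha, hle2⟩ := hA4 n m q hq hsub
      refine ⟨q', hq', hle, fun w hw => ?_⟩
      exact Set.mem_iUnion.2 ⟨⟨⟨a, hA1 n m ha⟩, ha⟩, bs_le hle2 ξ hw⟩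

theorem exists_fix5430 (C : KK → Type 1) (hC : ∀ d, Small.{0} (C d))
    (V : (d : KK) → C d → (KK → KK) → KK)
    (hV : ∀ d c f f', (∀ e < d, f e = f' e) → V d c f = V d c f') :
    ∃ i : KK → KK, ∀ d c, V d c i < i d := by
  classical
  have hst : ∀ (d : KK) (f : KK → KK), ∃ b : KK, ∀ c : C d, V d c f < b := by
    intro d f
    have := hC d
    exact exists_lt_range (fun c => V d c f)
  choose step hstep using hst
  let i : KK → KK := WellFoundedLT.fix (motive := fun _ : KK => KK) fun d f =>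
    step d (fun e => if h : e < d then f e h else 0)
  have hi : ∀ d, i d = step d (fun e => if e < d then i e else 0) := by
    intro d
    show WellFoundedLT.fix (motive := fun _ : KK => KK) _ d = _
    rw [WellFoundedLT.fix_eq]
    congr 1
  refine ⟨i, fun d c => ?_⟩
  rw [hV d c i (fun e => if e < d then i e else 0) (fun e he => by simp [he]), hi d]
  exact hstep d _ c

theorem GG_congr5430 {G G' : KK → ℕ → Set (Om J)} {u : Finset KK} (h : ∀ e ∈ u, G e = G' e) :
    GG G u = GG G' u := by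
  funext n
  ext w
  constructor
  · intro hw d hd
    rw [← h d hd]
    exact hw d hd
  · intro hw d hd
    rw [h d hd]
    exact hw d hd

theorem Kx_congr5430 {G G' : KK → ℕ → Set (Om J)} {u : Finset KK} (h : ∀ e ∈ u, G e = G' e)
    (x : ℕ → ℕ → Set (Om J)) (b : KK) (s : Bool) :
    Kx G x b s u = Kx G' x b s u := by
  funext n
  unfold Kx
  rw [GG_congr5430 h]

theorem small_finset5430 (X : Type 1) [Small.{0} X] : Small.{0} (Finset X) :=
  small_of_injective (f := fun s : Finset X => (s : Set X)) Finset.coe_injective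

/-- A sequence hitting every infinite set eventually has a sparse subsequence. -/
theorem exists_sparse {RR' : J → Set (Pr J)} {ξ : J} (hG : ∀ ζ < ξ, Good RR' ζ)
    (hK : LeK (Vd RR' ξ)) {E : KK → ℕ → Set (Om J)} (hE : HT (Vd RR' ξ) ξ E) :
    ∃ i : KK → KK, StrictMono i ∧ Sparse (Vd RR' ξ) ξ (fun d => E (i d)) := by
  classical
  obtain ⟨X, hX, hXs⟩ := exists_names5430 hK
  have hβ0 := hE.2
  choose! β hβ using hβ0
  let C : KK → Type 1 := fun d =>
    (Set.Iio d × Set.Iic d × Bool × Finset (Set.Iio d)) ⊕ (Finset (Set.Iio d)) ⊕ (Set.Iio d)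
  have hC : ∀ d, Small.{0} (C d) := by
    intro d
    have h1 : Small.{0} (Finset (Set.Iio d)) := small_finset5430 _
    have h2 : Small.{0} (Bool × Finset (Set.Iio d)) := by infer_instance
    have h3 : Small.{0} (Set.Iic d × Bool × Finset (Set.Iio d)) := by infer_instance
    have h4 : Small.{0} (Set.Iio d × Set.Iic d × Bool × Finset (Set.Iio d)) := by infer_instance
    show Small.{0} ((Set.Iio d × Set.Iic d × Bool × Finset (Set.Iio d)) ⊕
      (Finset (Set.Iio d)) ⊕ (Set.Iio d))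
    infer_instance
  let V : (d : KK) → C d → (KK → KK) → KK := fun d c f => match c with
    | Sum.inl p => β (Kx (fun e => E (f e)) (X p.1.1) p.2.1.1 p.2.2.1
        (p.2.2.2.map (Function.Embedding.subtype _)))
    | Sum.inr (Sum.inl u) => β (GG (fun e => E (f e)) (u.map (Function.Embedding.subtype _)))
    | Sum.inr (Sum.inr e) => f e.1
  have hV : ∀ d c f f', (∀ e < d, f e = f' e) → V d c f = V d c f' := by
    intro d c f f' h
    rcases c with p | u | e
    · show β _ = β _
      congr 1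
      apply Kx_congr5430
      intro e he
      obtain ⟨e', _, rfl⟩ := Finset.mem_map.1 he
      show E (f e'.1) = E (f' e'.1)
      rw [h e'.1 e'.2]
    · show β _ = β _
      congr 1
      apply GG_congr5430
      intro e he
      obtain ⟨e', _, rfl⟩ := Finset.mem_map.1 he
      show E (f e'.1) = E (f' e'.1)
      rw [h e'.1 e'.2]
    · exact h e.1 e.2
  obtain ⟨i, hi⟩ := exists_fix5430 C hC V hV
  have hmap : ∀ (d : KK) (u : Finset KK), (∀ e ∈ u, e < d) →
      (u.subtype (· ∈ Set.Iio d)).map (Function.Embedding.subtype _) = u := by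
    intro d u hu
    exact Finset.subtype_map_of_mem hu
  have hiG : ∀ (d : KK) (u : Finset KK), (∀ e ∈ u, e < d) →
      β (GG (fun e => E (i e)) u) < i d := by
    intro d u hu
    have := hi d (Sum.inr (Sum.inl (u.subtype (· ∈ Set.Iio d))))
    simp only [V] at this
    rw [hmap d u hu] at this
    exact this
  have hiK : ∀ (d g b : KK) (s : Bool) (u : Finset KK), g < d → b ≤ d → (∀ e ∈ u, e < d) →
      β (Kx (fun e => E (i e)) (X g) b s u) < i d := by
    intro d g b s u hg hb hu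
    have := hi d (Sum.inl (⟨g, hg⟩, ⟨b, hb⟩, s, u.subtype (· ∈ Set.Iio d)))
    simp only [V] at this
    rw [hmap d u hu] at this
    exact this
  have hop : ∀ d n, Op (Vd RR' ξ) ξ (E (i d) n) := fun d n => hE.1 (i d) n
  refine ⟨i, fun e d h => hi d (Sum.inr (Sum.inr ⟨e, h⟩)), ⟨hop, ?_, ?_⟩⟩
  · intro u
    induction u using Finset.induction_on_max with
    | empty =>
      intro q hq q' hq' hle N
      refine ⟨q', hq', le_rfl, N, le_rfl, fun w _ d hd => ?_⟩
      exact absurd hd (Finset.notMem_empty d)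
    | insert d u hu ih =>
      intro q hq
      have h1 := hβ (GG (fun e => E (i e)) u) (fun n => Op_GG hG hop u n) (i d)
        (hiG d u hu).le q hq (ih q hq)
      refine h1.mono fun n w hw e he => ?_
      rcases Finset.mem_insert.1 he with rfl | he
      · exact hw.2
      · exact hw.1 e he
  · intro x hx
    obtain ⟨g, hg⟩ := hXs x
    refine ⟨Order.succ g, fun d hd b hb s u hu q hq hInf => ?_⟩
    have hgd : g < d := (Order.lt_succ g).trans_le hd
    have h0 : Inf (Vd RR' ξ) ξ (Kx (fun e => E (i e)) (X g) b s u) q := by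
      refine hInf.dense fun n r hr hle hsub => ?_
      obtain ⟨w, hw⟩ := bs_nonempty hG hr
      obtain ⟨⟨m, hm1, hm2⟩, hm3⟩ := hsub (hw ξ)
      obtain ⟨r1, hr1, hle1, _, hs1⟩ :=
        Op_exists_le hG (Op_inter hG (hx n m) (Op_Ss RR' ξ b s m)) hr (hw ξ) ⟨hm1, hm2⟩
      obtain ⟨r2, hr2, hle2, hs2⟩ := (hg n m).2 r1 hr1 (hs1.trans Set.inter_subset_left)
      refine ⟨r2, hr2, hle2.trans hle1, fun v hv => ⟨⟨m, hs2 hv, ?_⟩, ?_⟩⟩
      · exact (hs1 (bs_le hle2 ξ hv)).2
      · exact (hsub (bs_le (hle2.trans hle1) ξ hv)).2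
    have h1 := hβ (Kx (fun e => E (i e)) (X g) b s u)
      (fun n => Op_Kx hG hop (hX g) b s u n) (i d) (hiK d g b s u hgd hb hu).le q hq h0
    refine h1.mono fun n w hw => ?_
    obtain ⟨⟨⟨m, hm1, hm2⟩, hm3⟩, hw2⟩ := hw
    refine ⟨⟨m, (hg n m).1 hm1, hm2⟩, fun e he => ?_⟩
    rcases Finset.mem_insert.1 he with rfl | he
    · exact hw2
    · exact hm3 e he

end Pool.Agent.Helper539.SPSparse
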