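import Mathlib
import Pool.Agent.Helper539.SPStep
import Pool.Agent.Helper539.SPSparse
import Pool.Agent.Helper539.SPSize
import Pool.Agent.Helper539.SPReduce

/-!
# The iteration is good at every stage
-/

namespace Pool.Agent.Helper539.SPGood

open Pool.Agent.Helper539.SPIter Pool.Agent.Helper539.SPDelta Pool.Agent.Helper539.SPStep
open Pool.Agent.Helper539.SPCount hiding KK
open Pool.Agent.Helper539.SPSparse Pool.Agent.Helper539.SPSize Pool.Agent.Helper539.SPReduce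

variable {J : Type 1} [LinearOrder J] [WellFoundedLT J]

theorem ht_univ {RR' : J → Set (Pr J)} {ξ : J} :
    HT (Vd RR' ξ) ξ (fun _ _ => Set.univ) :=
  ⟨fun _ _ => Op_univ, fun _ _ => ⟨0, fun _ _ _ _ h => h.mono fun n => by simp⟩⟩

theorem ht_Ev {RR' : J → Set (Pr J)} {ξ : J} (E : KK → ℕ → Set (Om J)) :
    HT (Vd RR' ξ) ξ (Ev (Vd RR' ξ) ξ E) := by
  unfold Ev
  split_ifs with h
  · exact h
  · exact ht_univ

theorem ix_spec {RR' : J → Set (Pr J)} {ξ : J} (hG : ∀ ζ < ξ, Good RR' ζ)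
    (hK : LeK (Vd RR' ξ)) (E : KK → ℕ → Set (Om J)) :
    StrictMono (ix (Vd RR' ξ) ξ E) ∧ Sparse (Vd RR' ξ) ξ (Gv (Vd RR' ξ) ξ E) := by
  have h := exists_sparse hG hK (ht_Ev (RR' := RR') (ξ := ξ) E)
  have h1 : ix (Vd RR' ξ) ξ E = h.choose := by
    unfold ix
    rw [dif_pos h]
  have h2 : Gv (Vd RR' ξ) ξ E = fun d => Ev (Vd RR' ξ) ξ E (h.choose d) := by
    unfold Gv
    rw [h1]
  rw [h1, h2]
  exact h.choose_spec

theorem good (hJ : ∀ ξ : J, LeK (Set.Iio ξ)) (𝔸 : J → KK → ℕ → Set (Om J)) (ξ : J) :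
    Good (RR 𝔸) ξ := by
  induction ξ using WellFoundedLT.induction with
  | ind ξ IH =>
    obtain ⟨_, hsp⟩ := ix_spec (RR' := RR 𝔸) (ξ := ξ) IH (leK_BB hJ 𝔸 ξ) (𝔸 ξ)
    constructor
    · intro R hR s m
      obtain ⟨φ, hφ, rfl⟩ := mem_RR.1 hR
      intro w hw
      obtain ⟨x, hx, h1, h2, h3⟩ := hw
      obtain ⟨q, hq, _, h4, h5⟩ := Op_exists_le IH (Op_GG IH hsp.op x.2.1 m) ((hφ s).1 x hx) h1 h3
      obtain ⟨q', hq', h6, h7, h8⟩ := compat_of_point IH hq ((hφ s).1 x hx) h4 h1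
      exact ⟨q', hq', h8, fun v hv => ⟨x, hx, bs_le h7 ξ hv, h2, h5 (bs_le h6 ξ hv)⟩⟩
    · intro F hF s q hq N
      obtain ⟨q', hq', hle, u, N', h⟩ := reduce F hF s q hq
      obtain ⟨q'', hq'', hle', m, hm, h'⟩ := hsp.fi u q' hq' q' hq' le_rfl (max N N')
      exact ⟨q'', hq'', hle'.trans hle, m, (le_max_left _ _).trans hm, fun R hR w hw =>
        h R hR m ((le_max_right _ _).trans hm) ⟨bs_le hle' ξ hw, h' hw⟩⟩

theorem sparse (hJ : ∀ ξ : J, LeK (Set.Iio ξ)) (𝔸 : J → KK → ℕ → Set (Om J)) (ξ : J) :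
    Sparse (BB 𝔸 ξ) ξ (GA 𝔸 ξ) :=
  (ix_spec (RR' := RR 𝔸) (ξ := ξ) (fun ζ _ => good hJ 𝔸 ζ) (leK_BB hJ 𝔸 ξ) (𝔸 ξ)).2

theorem strictMono_ix (hJ : ∀ ξ : J, LeK (Set.Iio ξ)) (𝔸 : J → KK → ℕ → Set (Om J)) (ξ : J) :
    StrictMono (ix (BB 𝔸 ξ) ξ (𝔸 ξ)) :=
  (ix_spec (RR' := RR 𝔸) (ξ := ξ) (fun ζ _ => good hJ 𝔸 ζ) (leK_BB hJ 𝔸 ξ) (𝔸 ξ)).1

end Pool.Agent.Helper539.SPGood
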