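import Mathlib
import Pool.Agent.Helper539.SPStar

/-!
# The preservation property: limit case
-/

namespace Pool.Agent.Helper539.SPLimit

open Pool.Agent.Helper539.SPIter Pool.Agent.Helper539.SPDelta Pool.Agent.Helper539.SPStep
open Pool.Agent.Helper539.SPStar
open Pool.Agent.Helper539.SPCount hiding KK

variable {J : Type 1} [LinearOrder J] [WellFoundedLT J]

/-- The limit case -/
theorem star_limit (𝔸 : J → KK → ℕ → Set (Om J)) (ξ : J) (hG : ∀ ζ < ξ, Good (RR 𝔸) ζ)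
    (hlim : ∀ η < ξ, ∃ ζ, η < ζ ∧ ζ < ξ) (hne : ∃ η, η < ξ) (IH : ∀ η < ξ, Star 𝔸 η) :
    Star 𝔸 ξ := by
  classical
  intro Y hY
  choose A hA1 hA2 hA3 hA4 using fun n => exists_small_open (RR' := RR 𝔸) (ξ := ξ) (Y n)
  obtain ⟨T, hT⟩ : ∃ T : Set J, T = ⋃ n : ℕ, ⋃ a : A n, supp a.1 := ⟨_, rfl⟩
  have hTmem : ∀ n, ∀ a ∈ A n, ∀ ζ ∈ supp a, ζ ∈ T := by
    intro n a ha ζ hζ
    rw [hT, Set.mem_iUnion]
    refine ⟨n, ?_⟩
    rw [Set.mem_iUnion]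
    exact ⟨⟨a, ha⟩, hζ⟩
  have hTsmall : Small.{0} T := by
    rw [hT]
    have h1 : ∀ n, Small.{0} (⋃ a : A n, supp a.1 : Set J) := by
      intro n
      have := hA2 n
      have h2 : ∀ a : A n, Small.{0} (supp a.1) := by
        intro a
        have : (supp a.1).Finite := a.1.fin
        have := this.to_subtype
        exact Countable.toSmall _
      exact small_iUnion _
    exact small_iUnion _
  have hsupp : ∀ q ∈ BB 𝔸 ξ, ∀ ζ ∈ supp q, ζ < ξ := by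
    intro q hq ζ hζ
    by_contra h
    obtain ⟨h1, h2⟩ := hq.2 ζ (not_lt.1 h)
    rcases hζ with h | h
    · exact h h1
    · exact h h2
  have hbel : ∀ (q : Rep J) (η : J), (∀ ζ ∈ supp q, ζ < η) → Below q η := by
    intro q η h ζ hζ
    exact notMem_supp fun h' => absurd (h ζ h') (not_lt.2 hζ)
  by_cases hcase : ∀ η < ξ, ∃ ζ ∈ T, η ≤ ζ
  · -- case (b)
    obtain ⟨Yz, hYz⟩ : ∃ Yz : J → ℕ → Set (Om J), ∀ ζ n, Yz ζ n =
        ⋃ r : {r : Rep J // r ∈ BB 𝔸 ξ ∧ bs r ξ ⊆ Y n}, bs (res r.1 ζ) ζ := ⟨_, fun _ _ => rfl⟩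
    have hYzop : ∀ ζ n, Op (BB 𝔸 ζ) ζ (Yz ζ n) := by
      intro ζ n
      rw [hYz]
      exact Op_iUnion fun r => Op_bs (res_mem r.2.1.1 ζ)
    choose! hh hhh using fun ζ (hζ : ζ < ξ) => IH ζ hζ (Yz ζ) (hYzop ζ)
    choose h hh2 using fun b => exists_lt_range (fun ζ : T => hh ζ.1 b)
    refine ⟨h, ?_⟩
    intro a ha q hq hInf s q' hq' hle N
    obtain ⟨η, hη, hη'⟩ : ∃ η < ξ, ∀ ζ ∈ supp q', ζ < η := by
      by_cases hS : ∃ η ∈ supp q', η < ξ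
      · obtain ⟨η0, h1, h2, h3⟩ := exists_max_lt (q'.fin : (supp q').Finite) ξ hS
        obtain ⟨η, h4, h5⟩ := hlim η0 h2
        exact ⟨η, h5, fun ζ hζ => (h3 ζ hζ (hsupp q' hq' ζ hζ)).trans_lt h4⟩
      · obtain ⟨η, hη⟩ := hne
        exact ⟨η, hη, fun ζ hζ => absurd ⟨ζ, hζ, hsupp q' hq' ζ hζ⟩ hS⟩
    obtain ⟨ζ, hζT, hηζ⟩ := hcase η hη
    have hζξ : ζ < ξ := by
      rw [hT, Set.mem_iUnion] at hζT
      obtain ⟨n, hn⟩ := hζT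
      rw [Set.mem_iUnion] at hn
      obtain ⟨b, hb⟩ := hn
      exact hsupp b.1 (hA1 n b.2) ζ hb
    have hq'ζ : q' ∈ BB 𝔸 ζ := ⟨hq'.1, (hbel q' η hη').mono hηζ⟩
    have hcl : Closed (hh ζ) a := ⟨ha.1, fun b hb => (hh2 b ⟨ζ, hζT⟩).trans (ha.2 b hb)⟩
    have hInf2 : Inf (BB 𝔸 ζ) ζ (Yz ζ) q' := by
      intro q1 hq1 hle1 N1
      obtain ⟨r, hr, h1, n, hn, h2⟩ := hInf q1 (Vd_mono hζξ.le hq1) (hle1.trans hle) N1
      refine ⟨res r ζ, res_mem hr.1 ζ, res_le h1 hq1.2, n, hn, ?_⟩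
      rw [hYz]
      exact Set.subset_iUnion (fun r : {r : Rep J // r ∈ BB 𝔸 ξ ∧ bs r ξ ⊆ Y n} =>
        bs (res r.1 ζ) ζ) ⟨r, hr, h2⟩
    obtain ⟨q1, hq1, h1, n, hn, h2⟩ := hhh ζ hζξ a hcl q' hq'ζ hInf2 s q' hq'ζ le_rfl N
    have hGζ : ∀ ζ' < ζ, Good (RR 𝔸) ζ' := fun ζ' h' => hG ζ' (h'.trans hζξ)
    obtain ⟨w, hw⟩ := bs_nonempty hGζ hq1
    have h3 := (h2 (hw ζ)).1
    rw [hYz, Set.mem_iUnion] at h3
    obtain ⟨⟨r, hr, hrY⟩, h4⟩ := h3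
    obtain ⟨q3, hq3, h5, h6, _⟩ := compat_of_point hGζ hq1 (res_mem hr.1 ζ) (hw ζ) h4
    have g1 : glue q3 r ζ ≤ r := glue_le h6
    have g2 : glue q3 r ζ ≤ q3 := glue_le_left hq3.2
    refine ⟨glue q3 r ζ, glue_mem hq3 hr hζξ.le, (g2.trans h5).trans h1, n, hn, ?_⟩
    refine Set.subset_inter ((bs_le g1 ξ).trans hrY) ?_
    refine (bs_le (g2.trans h5) ξ).trans ?_
    rw [bs_below hq1.2 hζξ.le]
    exact fun v hv => (h2 hv).2
  · -- case (a)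
    push Not at hcase
    obtain ⟨η, hη, hTη⟩ := hcase
    have hAη : ∀ n, ∀ b ∈ A n, b ∈ BB 𝔸 η := fun n b hb =>
      ⟨(hA1 n hb).1, hbel b η fun ζ hζ => hTη ζ (hTmem n b hb ζ hζ)⟩
    obtain ⟨Y', hY'⟩ : ∃ Y' : ℕ → Set (Om J), ∀ n, Y' n = ⋃ b : A n, bs b.1 η := ⟨_, fun _ => rfl⟩
    have hY'op : ∀ n, Op (BB 𝔸 η) η (Y' n) := by
      intro n
      rw [hY']
      exact Op_iUnion fun b => Op_bs (hAη n b.1 b.2)
    obtain ⟨h, hh⟩ := IH η hη Y' hY'op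
    refine ⟨h, ?_⟩
    intro a ha q hq hInf s q' hq' hle N
    have hInf2 : Inf (BB 𝔸 η) η Y' (res q' η) := by
      intro q1 hq1 hle1 N1
      have g1 : glue q1 q' η ≤ q' := glue_le hle1
      have g2 : glue q1 q' η ≤ q1 := glue_le_left hq1.2
      obtain ⟨r, hr, h1, n, hn, h2⟩ := hInf (glue q1 q' η) (glue_mem hq1 hq' hη.le)
        (g1.trans hle) N1
      obtain ⟨r', hr', h3, b, hb, h4⟩ := hA4 n r hr h2
      refine ⟨res r' η, res_mem hr'.1 η, res_le ((h3.trans h1).trans g2) hq1.2, n, hn, ?_⟩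
      rw [hY']
      exact (bs_le (res_le h4 (hAη n b hb).2) η).trans
        (Set.subset_iUnion (fun b : A n => bs b.1 η) ⟨b, hb⟩)
    obtain ⟨q2, hq2, h1, n, hn, h2⟩ := hh a ha (res q' η) (res_mem hq'.1 η) hInf2 s (res q' η)
      (res_mem hq'.1 η) le_rfl N
    have hGη : ∀ ζ' < η, Good (RR 𝔸) ζ' := fun ζ' h' => hG ζ' (h'.trans hη)
    obtain ⟨w, hw⟩ := bs_nonempty hGη hq2
    have h3 := (h2 (hw η)).1
    rw [hY', Set.mem_iUnion] at h3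
    obtain ⟨⟨b, hb⟩, h4⟩ := h3
    obtain ⟨q3, hq3, h5, h6, _⟩ := compat_of_point hGη hq2 (hAη n b hb) (hw η) h4
    have g1 : glue q3 q' η ≤ q' := glue_le (h5.trans h1)
    have g2 : glue q3 q' η ≤ q3 := glue_le_left hq3.2
    refine ⟨glue q3 q' η, glue_mem hq3 hq' hη.le, g1, n, hn, ?_⟩
    refine Set.subset_inter ((bs_le (g2.trans h6) ξ).trans (hA3 n b hb)) ?_
    refine (bs_le (g2.trans h5) ξ).trans ?_
    rw [bs_below hq2.2 hη.le]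
    exact fun v hv => (h2 hv).2

end Pool.Agent.Helper539.SPLimit
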