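import Mathlib
import Pool.Agent.Helper539.SPGood
import Pool.Agent.Helper539.SPBase
import Pool.Agent.Helper539.SPLimit
import Pool.Agent.Helper539.SPClaimA
import Pool.Agent.Helper539.SPClaimB

/-!
# The preservation property holds at every stage
-/

namespace Pool.Agent.Helper539.SPStarAll

open Pool.Agent.Helper539.SPIter Pool.Agent.Helper539.SPDelta Pool.Agent.Helper539.SPStep
open Pool.Agent.Helper539.SPStar Pool.Agent.Helper539.SPMk Pool.Agent.Helper539.SPMx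
open Pool.Agent.Helper539.SPReduce Pool.Agent.Helper539.SPClaimA Pool.Agent.Helper539.SPClaimB
open Pool.Agent.Helper539.SPBase Pool.Agent.Helper539.SPLimit Pool.Agent.Helper539.SPGood
open Pool.Agent.Helper539.SPCount hiding KK

variable {J : Type 1} [LinearOrder J] [WellFoundedLT J]

theorem star_succ {𝔸 : J → KK → ℕ → Set (Om J)} {η ξ : J} (h : IsSuc η ξ)
    (hG : ∀ ζ, Good (RR 𝔸) ζ) (hsp : Sparse (BB 𝔸 η) η (GA 𝔸 η)) (hstar : Star 𝔸 η) :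
    Star 𝔸 ξ := by
  intro X hX
  obtain ⟨hh, H⟩ := claimB (X := X) h hG hsp hstar
  refine ⟨hh, fun a ha q hq hinf s q' hq' hle N => ?_⟩
  have hq0 : res q' η ∈ BB 𝔸 η := res_mem hq'.1 η
  have heq := eq_mk h hq'
  -- it is enough to find `q1 ≤ res q' η` in the class
  have key : ∀ q1 ∈ BB 𝔸 η, q1 ≤ res q' η → ∀ k, N ≤ k → ZZ 𝔸 η ξ X k q1 (q'.st η) →
      ∃ q'' ∈ BB 𝔸 ξ, q'' ≤ q' ∧ ∃ n, N ≤ n ∧ bs q'' ξ ⊆ X n ∩ Ss a s n := by
    intro q1 hq1 hle1 k hk hZ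
    obtain ⟨r, hr, h1, m, h2, h3⟩ := H a ha k q1 (q'.st η) hZ (q'.pr η) (hq'.1 η) s
    refine ⟨r, hr, h1.trans ?_, m, hk.trans h2, h3⟩
    conv_rhs => rw [heq]
    exact mk_mono hle1 (Finset.Subset.refl _)
  by_cases hcase : Inf (BB 𝔸 η) η (Hn 𝔸 η ξ X (q'.st η)) (res q' η)
  · exact key _ hq0 le_rfl N le_rfl (ZZ.b1 _ _ hq0 hcase)
  · obtain ⟨q1, hq1, hle1, N1, hN1⟩ : ∃ q1 ∈ BB 𝔸 η, q1 ≤ res q' η ∧ ∃ N1, ∀ q'' ∈ BB 𝔸 η,
        q'' ≤ q1 → ∀ n, N1 ≤ n → ¬ bs q'' η ⊆ Hn 𝔸 η ξ X (q'.st η) n := by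
      unfold Inf at hcase
      push Not at hcase
      exact hcase
    have hno : NoFav 𝔸 η ξ X (max N N1) q1 (q'.st η) := by
      intro q'' hq'' hle'' m hm hf
      refine hN1 q'' hq'' hle'' m ((le_max_right _ _).trans hm) ?_
      exact Set.subset_biUnion_of_mem (u := fun q => bs q η) ⟨hq'', hf⟩
    have hinf' : Inf (BB 𝔸 ξ) ξ X (mk η q1 (q'.st η) (q'.pr η)) := by
      refine hinf.mono_q (le_trans ?_ hle)
      conv_rhs => rw [heq]
      exact mk_mono hle1 (Finset.Subset.refl _)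
    obtain ⟨q2, hq2, hle2, hZ⟩ := claimA h hG hsp.op hq1 (hq'.1 η) hno hinf'
    exact key q2 hq2 (hle2.trans hle1) _ (le_max_left _ _) hZ

theorem star_all (hJ : ∀ ξ : J, LeK (Set.Iio ξ)) (𝔸 : J → KK → ℕ → Set (Om J)) (ξ : J) :
    Star 𝔸 ξ := by
  induction ξ using WellFoundedLT.induction with
  | ind ξ IH =>
    by_cases h1 : ∃ η, IsSuc η ξ
    · obtain ⟨η, h⟩ := h1
      exact star_succ h (good hJ 𝔸) (sparse hJ 𝔸 η) (IH η h.1)
    · by_cases h2 : ∃ η, η < ξ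
      · refine star_limit 𝔸 ξ (fun ζ _ => good hJ 𝔸 ζ) (fun η hη => ?_) h2 IH
        by_contra hcon
        push Not at hcon
        refine h1 ⟨η, hη, fun ζ hζ => ?_⟩
        by_contra h3
        exact absurd hζ (not_lt.2 (hcon ζ (not_le.1 h3)))
      · exact star_base 𝔸 ξ fun η hη => h2 ⟨η, hη⟩

end Pool.Agent.Helper539.SPStarAll
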