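import Mathlib
import Pool.Agent.Helper539.SPPol

/-!
# The index set of the iteration
-/

namespace Pool.Agent.Helper539.SPIndex

open Cardinal
open Pool.Agent.Helper539.SPIter
open Pool.Agent.Helper539.SPCount hiding KK

/-- the successor cardinal of `κ` as a well-ordered set -/
abbrev JJ : Type 1 := (Order.succ #(Ordinal.{0} : Type 1)).ord.ToType

theorem aleph0_le : ℵ₀ ≤ #(Ordinal.{0} : Type 1) := by
  rw [Cardinal.aleph0_le_mk_iff]
  exact Infinite.of_injective (fun n : ℕ => (n : Ordinal.{0})) Nat.cast_injective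

theorem leK_of_card {X : Type 1} (h : #X ≤ #(Ordinal.{0} : Type 1)) : LeK X := h

theorem hJ (ξ : JJ) : LeK (Set.Iio ξ) := by
  refine leK_of_card (Order.lt_succ_iff.1 ?_)
  exact Cardinal.mk_Iio_ord_toType ξ

theorem hcof (S : Set JJ) (hS : LeK S) : ∃ b, ∀ s ∈ S, s < b := by
  have hreg : (Order.succ #(Ordinal.{0} : Type 1)).IsRegular := isRegular_succ aleph0_le
  have hS' : #S ≤ #(Ordinal.{0} : Type 1) := hS
  by_contra hcon
  push Not at hcon
  have h1 : IsCofinal S := fun b => by
    obtain ⟨s, hs, hb⟩ := hcon b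
    exact ⟨s, hs, hb⟩
  have h2 := Order.cof_le h1
  rw [← Ordinal.cof_type, Ordinal.type_toType, hreg.cof_ord] at h2
  exact absurd (h2.trans hS') (not_le.2 (Order.lt_succ _))

end Pool.Agent.Helper539.SPIndex
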