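import Pool.Agent.Helper539.Robust

namespace Pool.Agent.Helper539

open Finset

universe u

/-- greedy colouring of the vertices of degree at most `D`. -/
theorem exists_low_coloring {V : Type*} [Fintype V] [DecidableEq V] (G : SimpleGraph V)
    [DecidableRel G.Adj] (D : ℕ) : ∃ col : V → Fin (D + 1),
      ∀ u v, G.Adj u v → G.degree u ≤ D → G.degree v ≤ D → col u ≠ col v := by
  suffices h : ∀ s : Finset V, ∃ col : V → Fin (D + 1), ∀ u ∈ s, ∀ v ∈ s, G.Adj u v →
      G.degree u ≤ D → G.degree v ≤ D → col u ≠ col v by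
    obtain ⟨col, hcol⟩ := h univ
    exact ⟨col, fun u v => hcol u (mem_univ _) v (mem_univ _)⟩
  intro s
  induction s using Finset.induction_on with
  | empty => exact ⟨fun _ => 0, fun u hu => absurd hu (notMem_empty u)⟩
  | insert a s ha ih =>
    obtain ⟨col, hcol⟩ := ih
    by_cases hD : G.degree a ≤ D
    · obtain ⟨x, hx⟩ : ∃ x : Fin (D + 1), x ∉ (G.neighborFinset a).image col := by
        by_contra hcon
        push Not at hcon
        have h1 : (univ : Finset (Fin (D + 1))) ⊆ (G.neighborFinset a).image col :=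
          fun x _ => hcon x
        have h2 := (card_le_card h1).trans card_image_le
        rw [SimpleGraph.card_neighborFinset_eq_degree, card_univ, Fintype.card_fin] at h2
        omega
      have hx' : ∀ u, G.Adj a u → col u ≠ x := by
        intro u hu heq
        exact hx (mem_image.2 ⟨u, by rw [SimpleGraph.mem_neighborFinset]; exact hu, heq⟩)
      refine ⟨Function.update col a x, ?_⟩
      intro u hu v hv huv hdu hdv
      by_cases hua : u = a
      · have hva : v ≠ a := fun h => huv.ne (hua.trans h.symm)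
        subst hua
        rw [Function.update_self, Function.update_of_ne hva]
        exact (hx' v huv).symm
      · by_cases hva : v = a
        · subst hva
          rw [Function.update_self, Function.update_of_ne hua]
          exact hx' u huv.symm
        · rw [Function.update_of_ne hva, Function.update_of_ne hua]
          exact hcol u ((mem_insert.1 hu).resolve_left hua) v
            ((mem_insert.1 hv).resolve_left hva) huv hdu hdv
    · refine ⟨col, ?_⟩
      intro u hu v hv huv hdu hdv
      have hua : u ≠ a := fun h => hD (h ▸ hdu)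
      have hva : v ≠ a := fun h => hD (h ▸ hdv)
      exact hcol u ((mem_insert.1 hu).resolve_left hua) v
            ((mem_insert.1 hv).resolve_left hva) huv hdu hdv

/-- eventually exponential beats polynomial. -/
theorem eventually_poly_lt_exp (a b d : ℕ) :
    ∃ n₀ : ℕ, ∀ n, n₀ ≤ n → a * (b * n) ^ d < 2 ^ n := by
  have h := tendsto_pow_const_div_const_pow_of_one_lt d (r := 2) (by norm_num)
  have hpos : (0 : ℝ) < 1 / (a * b ^ d + 1) := by positivity
  have h2 := (h.eventually (gt_mem_nhds hpos))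
  rw [Filter.eventually_atTop] at h2
  obtain ⟨n₀, hn₀⟩ := h2
  refine ⟨n₀, fun n hn => ?_⟩
  have h3 := hn₀ n hn
  rw [div_lt_div_iff₀ (by positivity) (by positivity), one_mul] at h3
  have h4 : ((a * (b * n) ^ d : ℕ) : ℝ) < ((2 ^ n : ℕ) : ℝ) := by
    push_cast
    refine lt_of_le_of_lt ?_ h3
    rw [mul_pow]
    have : (0 : ℝ) ≤ (n : ℝ) ^ d := by positivity
    nlinarith
  exact_mod_cast h4

theorem sparse_case (δ : ℝ) (hδ : 0 < δ) (K : ℕ) : ∃ ε : ℝ, 0 < ε ∧ ∃ n₀ : ℕ,
    ∀ (V : Type u) [Fintype V] (G : SimpleGraph V), n₀ ≤ Fintype.card V →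
      G.edgeSet.ncard ≤ K * Fintype.card V → Fintype.card V ≤ 2 * G.edgeSet.ncard →
      (∀ v, ((G.neighborSet v).ncard : ℝ) ≤ ε * Fintype.card V) →
      ∃ t : ℕ, 1 ≤ t ∧
        (sizeRamsey G (matchingGraph t) : ℝ) ≤ δ * (t * G.edgeSet.ncard) := by
  classical
  -- parameters
  obtain ⟨s0, hs0⟩ := exists_nat_ge (64 / δ)
  let s : ℕ := s0 + 2
  have hs : 64 / δ ≤ (s : ℝ) := hs0.trans (by simp [s])
  have hs2 : 2 ≤ s := by simp [s]
  have hspos : (0 : ℝ) < s := by positivity
  let D : ℕ := 2 * K * s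
  let q : ℕ := D + 1
  have hqpos : (0 : ℝ) < q := by positivity
  obtain ⟨k0, hk0⟩ := exists_nat_ge (256 * (q : ℝ) ^ 2 * s / δ)
  let k : ℕ := k0 + 1
  have hk : 256 * (q : ℝ) ^ 2 * s / δ ≤ (k : ℝ) := hk0.trans (by simp [k])
  have hkpos : 0 < k := Nat.succ_pos _
  have hk1 : (1 : ℝ) ≤ k := by exact_mod_cast hkpos
  have hkD : (0 : ℝ) < (k : ℝ) ^ D := by positivity
  obtain ⟨M, hM⟩ : ∃ M : ℕ, (1 - 1 / (k : ℝ) ^ D) ^ M < 1 / 32 := by
    apply exists_pow_lt_of_lt_one (by norm_num)
    have : (0 : ℝ) < 1 / (k : ℝ) ^ D := by positivity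
    linarith
  have hM1 : 1 ≤ M := by
    rcases Nat.eq_zero_or_pos M with h | h
    · rw [h] at hM
      norm_num at hM
    · exact h
  obtain ⟨n1, hn1⟩ := eventually_poly_lt_exp (k * q) (8 * q) (M * D)
  let Zb : ℕ := q * (M * D)
  refine ⟨1 / (2 * (M * M * D + 1) : ℕ), by positivity,
    max n1 (max (2 * s) (max (s * Zb) (max (M * M + M * Zb) (2 * M + 1)))), ?_⟩
  intro V _ G hn hm hnm hdeg
  set n := Fintype.card V with hndef
  set m := G.edgeSet.ncard with hmdef
  simp only [max_le_iff] at hn
  obtain ⟨hnn1, hn2s, hnZb, hnMM, hn2M⟩ := hn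
  -- t
  let t : ℕ := n / s
  have hspos' : 0 < s := by omega
  have htn : t * s ≤ n := Nat.div_mul_le_self n s
  have htn' : n < (t + 1) * s := by
    have h1 := Nat.div_add_mod n s
    have h2 := Nat.mod_lt n hspos'
    calc n = s * (n / s) + n % s := h1.symm
      _ < s * (n / s) + s := Nat.add_lt_add_left h2 _
      _ = (n / s + 1) * s := by ring
  have ht2 : 2 ≤ t := by
    rw [Nat.le_div_iff_mul_le hspos']
    exact hn2s
  have ht1 : 1 ≤ t := by omega
  have htZb : Zb ≤ t := by
    rw [Nat.le_div_iff_mul_le hspos']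
    rw [mul_comm]
    exact hnZb
  have ht_half : 2 * t ≤ n := by nlinarith
  let H : ℕ := 4 * t
  -- max degree
  let Δ : ℕ := ⌊(1 / (2 * (M * M * D + 1) : ℕ) : ℝ) * n⌋₊
  have hdegD : ∀ v, G.degree v ≤ Δ := by
    intro v
    apply Nat.le_floor
    have h1 := hdeg v
    have h2 : (G.neighborSet v).ncard = G.degree v := by
      rw [← SimpleGraph.card_neighborFinset_eq_degree, ← Set.ncard_coe_finset]
      congr 1
      ext w
      simp
    rw [h2] at h1
    exact h1
  have hΔ : 2 * (M * M * D + 1) * Δ ≤ n := by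
    have h1 : (Δ : ℝ) ≤ (1 / (2 * (M * M * D + 1) : ℕ) : ℝ) * n :=
      Nat.floor_le (by positivity)
    have h2 : ((2 * (M * M * D + 1) : ℕ) : ℝ) * Δ ≤ n := by
      have h3 : (0 : ℝ) < ((2 * (M * M * D + 1) : ℕ) : ℝ) := by positivity
      rw [one_div, inv_mul_eq_div, le_div_iff₀ h3] at h1
      linarith
    exact_mod_cast h2
  have hΔ1 : 2 * (M * M * D * Δ) ≤ n := by
    have h1 : 2 * (M * M * D + 1) * Δ = 2 * (M * M * D * Δ) + 2 * Δ := by ring
    omega
  have hΔ2 : 2 * (M * D * Δ) ≤ n := by
    have h1 : M * D * Δ ≤ M * (M * D * Δ) := Nat.le_mul_of_pos_left _ hM1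
    have h2 : M * (M * D * Δ) = M * M * D * Δ := by ring
    omega
  -- high degree vertices
  have hK : 0 < K := by
    rcases Nat.eq_zero_or_pos K with h | h
    · rw [h] at hm
      omega
    · exact h
  have hHi : (univ.filter (fun v => D < G.degree v)).card ≤ t := by
    have h1 : (univ.filter (fun v => D < G.degree v)).card * D ≤ 2 * m := by
      calc (univ.filter (fun v => D < G.degree v)).card * D
          ≤ ∑ v ∈ univ.filter (fun v => D < G.degree v), G.degree v := by
            rw [← smul_eq_mul]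
            apply Finset.card_nsmul_le_sum
            intro v hv
            rw [mem_filter] at hv
            exact hv.2.le
        _ ≤ ∑ v, G.degree v := Finset.sum_le_sum_of_subset (filter_subset _ _)
        _ = 2 * G.edgeFinset.card := G.sum_degrees_eq_twice_card_edges
        _ = 2 * m := by
            rw [hmdef, ← Set.ncard_coe_finset]
            simp
    have h2 : (univ.filter (fun v => D < G.degree v)).card * s ≤ n := by
      have h3 : (2 * K) * ((univ.filter (fun v => D < G.degree v)).card * s) ≤ (2 * K) * n := by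
        calc (2 * K) * ((univ.filter (fun v => D < G.degree v)).card * s)
            = (univ.filter (fun v => D < G.degree v)).card * D := by simp only [D]; ring
          _ ≤ 2 * m := h1
          _ ≤ (2 * K) * n := by nlinarith
      exact Nat.le_of_mul_le_mul_left h3 (by omega)
    rw [Nat.le_div_iff_mul_le hspos']
    exact h2
  obtain ⟨col, hcol⟩ := exists_low_coloring G D
  -- the random colouring
  have hXcard : Fintype.card (Fin H ⊕ (Fin q × Fin (4 * n))) = H + q * (4 * n) := by
    simp
  have hXle : H + q * (4 * n) ≤ 8 * q * n := by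
    have : 1 ≤ q := by simp [q]
    have h1 : n ≤ q * n := Nat.le_mul_of_pos_left n this
    simp only [H]
    nlinarith
  have hbig : k * q * (Fintype.card (Fin H ⊕ (Fin q × Fin (4 * n)))) ^ (M * D) < 2 ^ n := by
    refine lt_of_le_of_lt ?_ (hn1 n hnn1)
    apply Nat.mul_le_mul_left
    apply Nat.pow_le_pow_left
    rw [hXcard]
    exact hXle
  obtain ⟨c, hc⟩ := exists_coloring (X := Fin H ⊕ (Fin q × Fin (4 * n))) k q D M n hkpos hM.le hbig
  obtain ⟨κ, hκ⟩ := exists_sparse_color hkpos c
  have hA : Arrows (host c κ) G (matchingGraph t) := by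
    apply arrows_of_robust
    intro S hS
    refine host_robust G c κ (fun j a ha => hc κ j a ha) col hcol le_rfl hdegD ?_ ?_ ?_ ?_ S hS
    · show (univ.filter (fun v => D < G.degree v)).card + 2 * t + Zb ≤ H
      simp only [H]
      omega
    · show 2 * t + Zb ≤ 2 * n
      omega
    · show M * (M * (D * Δ + 1) + Zb) + 2 * t ≤ 3 * n
      have h1 : M * (M * (D * Δ + 1) + Zb) = M * M * D * Δ + (M * M + M * Zb) := by ring
      rw [h1]
      omega
    · have h3 : M * (D * Δ + 1) = M * D * Δ + M := by ring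
      rw [h3]
      omega
  refine ⟨t, ht1, ?_⟩
  have h1 := sizeRamsey_le hA
  have h2 := host_edge_card_le c κ
  have h3 : (sizeRamsey G (matchingGraph t) : ℝ) ≤ (H : ℝ) * H +
      (univ.filter (fun p : (Fin q × Fin (4 * n)) × (Fin H ⊕ (Fin q × Fin (4 * n))) =>
        c p.1 p.2 = κ)).card := by
    exact_mod_cast h1.trans h2
  set E := (univ.filter (fun p : (Fin q × Fin (4 * n)) × (Fin H ⊕ (Fin q × Fin (4 * n))) =>
        c p.1 p.2 = κ)).card with hE
  have h4 : (k : ℝ) * E ≤ (q * (4 * n)) * (8 * q * n) := by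
    have h5 : k * E ≤ (q * (4 * n)) * (8 * q * n) := by
      refine hκ.trans ?_
      rw [hXcard]
      have : Fintype.card (Fin q × Fin (4 * n)) = q * (4 * n) := by simp
      rw [this]
      exact Nat.mul_le_mul_left _ hXle
    exact_mod_cast h5
  have hnR : (n : ℝ) ≤ 2 * m := by exact_mod_cast hnm
  have htR : (t : ℝ) * s ≤ n := by exact_mod_cast htn
  have htR' : (n : ℝ) ≤ 2 * t * s := by
    have : n ≤ 2 * t * s := by nlinarith
    exact_mod_cast this
  have ht0 : (0 : ℝ) ≤ t := Nat.cast_nonneg _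
  have hn0 : (0 : ℝ) ≤ n := Nat.cast_nonneg _
  have hHR : (H : ℝ) = 4 * t := by simp [H]
  have h64 : 64 ≤ δ * s := by
    rw [div_le_iff₀ hδ] at hs
    linarith
  -- first term
  have hT1 : (H : ℝ) * H ≤ δ / 4 * (t * n) := by
    rw [hHR]
    have h5 : 16 * (t : ℝ) ≤ δ / 4 * n := by
      have : 64 * (t : ℝ) ≤ δ * n := by
        calc 64 * (t : ℝ) ≤ (δ * s) * t := mul_le_mul_of_nonneg_right h64 ht0
          _ = δ * (t * s) := by ring
          _ ≤ δ * n := mul_le_mul_of_nonneg_left htR hδ.le
      linarith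
    nlinarith
  -- second term
  have hT2 : (E : ℝ) ≤ δ / 4 * (t * n) := by
    have hkR : (0 : ℝ) < k := by exact_mod_cast hkpos
    have h6 : 256 * (q : ℝ) ^ 2 * s ≤ k * δ := by
      rw [div_le_iff₀ hδ] at hk
      exact hk
    have h7 : (k : ℝ) * E ≤ k * (δ / 4 * (t * n)) := by
      refine h4.trans ?_
      have h8 : 32 * (q : ℝ) ^ 2 * n ≤ k * δ / 4 * t := by
        calc 32 * (q : ℝ) ^ 2 * n ≤ 32 * (q : ℝ) ^ 2 * (2 * t * s) :=
              mul_le_mul_of_nonneg_left htR' (by positivity)
          _ = (256 * (q : ℝ) ^ 2 * s) / 4 * t := by ring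
          _ ≤ k * δ / 4 * t := by
              apply mul_le_mul_of_nonneg_right _ ht0
              linarith
      calc ((q : ℝ) * (4 * n)) * (8 * q * n) = (32 * (q : ℝ) ^ 2 * n) * n := by ring
        _ ≤ (k * δ / 4 * t) * n := mul_le_mul_of_nonneg_right h8 hn0
        _ = k * (δ / 4 * (t * n)) := by ring
    exact le_of_mul_le_mul_left h7 hkR
  have hfin : δ / 4 * (t * n) + δ / 4 * (t * n) ≤ δ * (t * m) := by
    have : δ * (t * n) ≤ δ * (t * (2 * m)) :=
      mul_le_mul_of_nonneg_left (mul_le_mul_of_nonneg_left hnR ht0) hδ.le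
    linarith
  linarith

end Pool.Agent.Helper539
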